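import Pool.Agent.Lib.PFire.Defs

/-!
# Elimination schemes, the constraint problem of a scheme, and the solver

An item `(z, S, nb, dom, w)`: the variable `z`, the list `S` of the later variables of its bag, the list
`nb ⊆ S` of its later neighbours, the list of the allowed values, its weight.
-/

set_option autoImplicit false

namespace Pool.Agent.PFire

abbrev Item := ℕ × List ℕ × List ℕ × List ℕ × ℕ

namespace Item
def z (it : Item) : ℕ := it.1
def bag (it : Item) : List ℕ := it.2.1
def nb (it : Item) : List ℕ := it.2.2.1
def dom (it : Item) : List ℕ := it.2.2.2.1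
def w (it : Item) : ℕ := it.2.2.2.2
end Item

/-- position of a variable in the elimination order -/
def posOf (items : List Item) (z : ℕ) : ℕ := (items.map Item.z).idxOf z

/-- The list of items is a perfect elimination scheme with bags of size at most `w`. -/
structure SchemeOK (k w : ℕ) (items : List Item) : Prop where
  nodup : (items.map Item.z).Nodup
  later : ∀ it ∈ items, ∀ y ∈ it.bag, y ∈ items.map Item.z ∧ posOf items it.z < posOf items y
  nb_sub : ∀ it ∈ items, ∀ y ∈ it.nb, y ∈ it.bag
  chord : ∀ it' ∈ items, ∀ it ∈ items, it.z ∈ it'.bag → ∀ y ∈ it'.bag,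
    posOf items it.z < posOf items y → y ∈ it.bag
  bag_nodup : ∀ it ∈ items, it.bag.Nodup
  bag_len : ∀ it ∈ items, it.bag.length ≤ w
  dom_le : ∀ it ∈ items, ∀ c ∈ it.dom, c ≤ 2 * k + 1

/-- The assignment `a` solves the constraint problem. -/
structure Sol (k : ℕ) (items : List Item) (a : ℕ → ℕ) : Prop where
  dom : ∀ it ∈ items, a it.z ∈ it.dom
  nb : ∀ it ∈ items, ∀ y ∈ it.nb, ok k (a it.z) (a y) = true
  times : ∀ it ∈ items, ∀ it' ∈ items, 1 ≤ a it.z → a it.z ≤ k → a it.z = a it'.z → it.z = it'.z

/-- The total weight of the variables with value at most `k`. -/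
def gain (k : ℕ) (items : List Item) (a : ℕ → ℕ) : ℕ :=
  (items.map fun it => if a it.z ≤ k then it.w else 0).sum

/-! ### The solver

A witness is a list of length `k + 1`; its entry number `t` is `x + 1` if the vertex `x` is protected at
time `t`, and `0` if no vertex is.  A row of a table: values of the scope, total weight, witness.
A table: scope and rows. -/

abbrev Row := List ℕ × (ℕ × List ℕ)
abbrev Tab := List ℕ × List Row

/-- the key of a row: the values of the scope and the set of used times -/
def rkey (r : Row) : List ℕ × List Bool := (r.1, r.2.2.map fun x => decide (x ≠ 0))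

/-- insert a row, keeping for each key only a best row -/
def insRow (l : List Row) (r : Row) : List Row :=
  if (l.any fun q => decide (rkey q = rkey r) && decide (r.2.1 ≤ q.2.1)) = true then l
  else r :: l.filter fun q => decide (rkey q ≠ rkey r)

/-- keep the best rows, at most `cap` rows -/
def reduceRows (cap : ℕ) (l : List Row) : List Row := (l.foldl insRow []).take cap

/-- no time is used twice -/
def disj (w1 w2 : List ℕ) : Bool :=
  (List.zipWith (fun a b => decide (a = 0) || decide (b = 0)) w1 w2).all fun b => b

def mergeW (w1 w2 : List ℕ) : List ℕ := List.zipWith (fun a b => max a b) w1 w2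

/-- value of the variable `v` in the assignment of the values `cs` to the variables `vs` -/
def asgVal (vs cs : List ℕ) (v : ℕ) : ℕ := ((vs.zip cs).lookup v).getD 0

/-- join the accumulated rows with the rows of the table `T` which agree with the assignment
`vs ↦ cs` -/
def joinTab (N cap : ℕ) (vs cs : List ℕ) (acc : List Row) (T : Tab) : List Row :=
  reduceRows cap (acc.flatMap fun p =>
    (T.2.filter fun r => decide (r.1 = T.1.map fun v => asgVal vs cs v) && disj p.2.2 r.2.2).map
      fun r => (p.1, (min N (p.2.1 + r.2.1), mergeW p.2.2 r.2.2)))

/-- the witness of the variable `z` with the value `c` -/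
def unitW (k z c : ℕ) : List ℕ :=
  (List.range (k + 1)).map fun t => if t = c ∧ 1 ≤ t then z + 1 else 0

/-- the rows with the assignment `f` of the bag and the value `c` of `z` -/
def elimOne (k N cap : ℕ) (it : Item) (inv : List Tab) (f : List ℕ) (c : ℕ) : List Row :=
  if (it.nb.all fun y => ok k c (asgVal it.bag f y)) = true then
    inv.foldl (joinTab N cap (it.z :: it.bag) (c :: f))
      [(f, (if c ≤ k then min N it.w else 0, unitW k it.z c))]
  else []

/-- all assignments of the list of variables `S` with values `≤ 2 k + 1` (at most `cap` of them) -/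
def asgs (k cap : ℕ) (S : List ℕ) : List (List ℕ) :=
  S.foldl (fun acc _ => (acc.flatMap fun f => (List.range (2 * k + 2)).map fun c => c :: f).take cap)
    [[]]

/-- eliminate the variable of the item `it` -/
def elimStep (k N cap : ℕ) (tabs : List Tab) (it : Item) : List Tab :=
  (it.bag, reduceRows cap ((asgs k cap it.bag).flatMap fun f => it.dom.flatMap fun c =>
    elimOne k N cap it (tabs.filter fun T => decide (it.z ∈ T.1)) f c)) ::
  tabs.filter fun T => decide (it.z ∉ T.1)

/-- a row with the largest weight -/
def bestRow (l : List Row) : Option Row :=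
  l.foldl (fun o r => match o with
    | none => some r
    | some q => if q.2.1 < r.2.1 then some r else some q) none

/-- the solver: the best total weight and a witness -/
def solve (k N cap : ℕ) (items : List Item) : Option (ℕ × List ℕ) :=
  (bestRow ((items.foldl (elimStep k N cap) []).foldl (joinTab N cap [] [])
    [([], (0, unitW k 0 (k + 1)))])).map Prod.snd

end Pool.Agent.PFire
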