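import Pool.Agent.Lib.PFire.Raw
import Pool.Agent.Lib.PFire.Scheme

/-!
# The algorithm for a graph given with a plane rotation system (raw list functions)

All functions are polynomial time computable (`k` is the length of a list, `cap` the length of the
padding).  `rot` = rotation lists, `s` = start vertex, `i` = class of forced levels.
-/

set_option autoImplicit false

namespace Pool.Agent.PFire

open Pool.Agent.PolyTime

/-! ### Radial distances -/

def radE (rot : Rot) (s : ℕ) : List (Nd × Nd) :=
  (darts rot s).flatMap fun d => [((d.1, d.1), faceOf rot s d), (faceOf rot s d, (d.1, d.1))]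

/-- radial distance of a node -/
def rd (rot : Rot) (s : ℕ) (x : Nd) : ℕ := dist (radE rot s) (s, s) x

/-- the levels (values of `rd`) of the class `i` -/
def flB (k i x : ℕ) : Bool :=
  decide (2 * (k + 1) ≤ x) && decide (x % 2 = 0) && decide (x / 2 % (k + 2) = i)

def forced (rot : Rot) (s k i v : ℕ) : Bool := flB k i (rd rot s (v, v))

def frcE (rot : Rot) (s k i : ℕ) : List Nd :=
  (darts rot s).filter fun d => forced rot s k i d.1 && forced rot s k i d.2

/-- representative of the component of `v` in the subgraph of the forced vertices -/
def rep (rot : Rot) (s k i v : ℕ) : ℕ :=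
  ((comp rot s).find? fun u => decide (u ∈ reach (frcE rot s k i) v)).getD v

def idist (rot : Rot) (s k i v : ℕ) : ℕ := dist (frcE rot s k i) (rep rot s k i v) v

/-! ### The spanning tree -/

/-- parent corner of a face -/
def pf (rot : Rot) (s : ℕ) (g : Nd) : Nd :=
  ((darts rot s).find? fun c =>
    decide (faceOf rot s c = g) && decide (rd rot s (c.1, c.1) + 1 = rd rot s g)).getD g

/-- parent corner of a vertex -/
def pv (rot : Rot) (s v : ℕ) : Nd :=
  ((darts rot s).find? fun c =>
    decide (c.1 = v) && decide (rd rot s (faceOf rot s c) + 1 = rd rot s (v, v))).getD (v, v)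

/-- parent edge of a forced vertex which is not a representative -/
def pe (rot : Rot) (s k i v : ℕ) : Nd :=
  ((frcE rot s k i).find? fun c =>
    decide (c.1 = v) && decide (idist rot s k i c.2 + 1 = idist rot s k i v)).getD (v, v)

def cornerTree (rot : Rot) (s k i : ℕ) (c : Nd) : Bool :=
  decide (c = pf rot s (faceOf rot s c)) ||
    (decide (c.1 ≠ s) && decide (rep rot s k i c.1 = c.1) && decide (c = pv rot s c.1))

def edgeTree (rot : Rot) (s k i : ℕ) (x : Nd) : Bool :=
  (decide (rep rot s k i x.1 ≠ x.1) && decide (pe rot s k i x.1 = x)) ||
    (decide (rep rot s k i x.2 ≠ x.2) && decide (pe rot s k i x.2 = al x))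

/-- the links of the cotree -/
def links (rot : Rot) (s k i : ℕ) : List (Nd × Nd) :=
  (darts rot s).flatMap fun x =>
    (if cornerTree rot s k i (phi rot x) = true then [] else [(x, phi rot x), (phi rot x, x)]) ++
    (if edgeTree rot s k i x = true then [] else [(x, al x)])

def rootD (rot : Rot) (s : ℕ) : Nd := (darts rot s).headD (s, s)

/-- distance of a triangle from the root triangle in the cotree -/
def cd (rot : Rot) (s k i : ℕ) (x : Nd) : ℕ := dist (links rot s k i) (rootD rot s) x

/-- parent of a triangle in the cotree -/
def cp (rot : Rot) (s k i : ℕ) (x : Nd) : Nd :=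
  ((darts rot s).find? fun y =>
    decide ((y, x) ∈ links rot s k i) && decide (cd rot s k i y + 1 = cd rot s k i x)).getD x

/-- the triangles ordered by their distance from the root -/
def order (rot : Rot) (s k i : ℕ) : List Nd :=
  (List.range ((links rot s k i).length + 2)).flatMap fun j =>
    (darts rot s).filter fun x => decide (cd rot s k i x = j)

/-! ### The bags -/

/-- parent pairs (node, parent) of the spanning tree -/
def upE (rot : Rot) (s k i : ℕ) : List (Nd × Nd) :=
  (((comp rot s).filter fun v => decide (v ≠ s)).map fun v =>
    ((v, v), if rep rot s k i v = v then faceOf rot s (pv rot s v)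
      else ((pe rot s k i v).2, (pe rot s k i v).2))) ++
  ((faces rot s).map fun g => (g, ((pf rot s g).1, (pf rot s g).1)))

/-- `w` is an ancestor of `c` or equal to `c` -/
def isDesc (rot : Rot) (s k i : ℕ) (w c : Nd) : Bool := decide (w ∈ reach (upE rot s k i) c)

/-- no forced level strictly between the vertex `z` and the face `g` -/
def slabB (rot : Rot) (s k i z : ℕ) (g : Nd) : Bool :=
  !((List.range ((radE rot s).length + 2)).any fun x =>
    flB k i x && decide (rd rot s (z, z) < x) && decide (x < rd rot s g))

/-- the variables: unforced vertices and representatives -/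
def vars (rot : Rot) (s k i : ℕ) : List ℕ := (comp rot s).filter fun v => decide (rep rot s k i v = v)

def inBag (rot : Rot) (s k i z : ℕ) (t : Nd) : Bool :=
  slabB rot s k i z (faceOf rot s t) &&
    (isDesc rot s k i (z, z) (t.1, t.1) || isDesc rot s k i (z, z) (t.2, t.2) ||
      isDesc rot s k i (z, z) (faceOf rot s t))

/-! ### The elimination scheme -/

section Order

variable (vs : List ℕ) (ord : List Nd) (ib : ℕ → Nd → Bool)

def topIdx (z : ℕ) : ℕ := ord.findIdx (ib z)

def elimOrder : List ℕ :=
  (List.range ord.length).reverse.flatMap fun j => vs.filter fun z => decide (topIdx ord ib z = j)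

def mkItems (qadj : ℕ → ℕ → Bool) (dom : ℕ → List ℕ) (wt : ℕ → ℕ) : List Item :=
  (elimOrder vs ord ib).map fun z =>
    (z, (vs.filter fun y => ib y (ord.getD (topIdx ord ib z) (0, 0)) &&
          decide ((elimOrder vs ord ib).idxOf z < (elimOrder vs ord ib).idxOf y)),
      (vs.filter fun y => decide ((elimOrder vs ord ib).idxOf z < (elimOrder vs ord ib).idxOf y) &&
          qadj z y),
      dom z, wt z)

end Order

def qadj (rot : Rot) (s k i z y : ℕ) : Bool :=
  (darts rot s).any fun d => decide (rep rot s k i d.1 = z) && decide (rep rot s k i d.2 = y)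

def domOf (rot : Rot) (s k i z : ℕ) : List ℕ :=
  if z = s then [k + 1]
  else if forced rot s k i z = true then [0, 2 * k + 1] else List.range (2 * k + 2)

def weight (rot : Rot) (s k i z : ℕ) : ℕ :=
  ((comp rot s).filter fun v => decide (rep rot s k i v = z)).length

def items (rot : Rot) (s k i : ℕ) : List Item :=
  mkItems (vars rot s k i) (order rot s k i) (inBag rot s k i) (qadj rot s k i) (domOf rot s k i)
    (weight rot s k i)

/-! ### The answer -/

/-- the best of the classes `i < k + 2` -/
def solveAll (rot : Rot) (s k cap : ℕ) : Option (ℕ × List ℕ) :=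
  (List.range (k + 2)).foldl (fun o i =>
    match solve k rot.length cap (items rot s k i) with
    | none => o
    | some q => match o with
      | none => some q
      | some p => if p.1 < q.1 then some q else some p) none

/-- the strategy of a witness: pairs (time, vertex) -/
def stratOf (wit : List ℕ) : List (ℕ × ℕ) :=
  (wit.zipIdx.filter fun p => decide (p.1 ≠ 0)).map fun p => (p.2, p.1 - 1)

/-- the maximum number of saved vertices and an optimal strategy -/
def answer (rot : Rot) (s k cap : ℕ) : ℕ × List (ℕ × ℕ) :=
  match solveAll rot s k cap with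
  | none => (rot.length - 1, [])
  | some q => (q.1 + (rot.length - (comp rot s).length), stratOf q.2)

end Pool.Agent.PFire
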