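import Pool.Agent.Lib.PFire.Defs

/-!
# Chunk B: strategies and good labellings; Baker's shifting

Proof of `good_of_strategy`.  Let `X = protSet S`, `T x` the first time at which `x ∈ X` is protected,
`d v` the first time at which `v` burns (if ever).  No `x ∈ X` ever burns.  Number `X` in the order of
the `T x` (which are distinct): `t x ∈ {1, …, |X|}`, `t x ≤ T x`, `t x ≤ k`.  Put `a x = t x` for
`x ∈ X`, `a v = k + 1 + min (d v) k` for the burnt `v`, and `a v = 0` otherwise.  For an edge `u v`:
if `u` burns and `v ∉ X` then `v` burns and `d v ≤ d u + 1`; if `u` burns and `v ∈ X` then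
`T v ≤ d u + 1` (otherwise `v` burns), so `t v ≤ min (d u) k + 1`.  Also `lev v ≤ d v`.

Proof of `strategy_of_good`.  By induction on `t`: `v ∈ burning G s S t` implies `k + 1 ≤ a v` and
`a v ≤ k + 1 + t`.  (If `u` burns after step `t` and `v` is a neighbour with `a v ≤ k`, then `a v ≠ 0`
and `a v + k ≤ a u ≤ k + 1 + t`, so `a v ≤ t + 1` and `v` is protected in the steps `1, …, t + 1`.)

Proof of `baker`.  The `a` of `good_of_strategy` has at most `k` values in `{1, …, k}` taken (each once),
so at most `k` residues `lev x % (k + 2)` of protected vertices; choose another residue `i < k + 2`.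
-/

set_option autoImplicit false

namespace Pool.Agent.PFire

variable {V : Type}

theorem csp_burning_mono (G : SimpleGraph V) (s : V) (S : ℕ → Option V) {t t' : ℕ} (h : t ≤ t') :
    burning G s S t ⊆ burning G s S t' := by
  induction h with
  | refl => exact fun _ h => h
  | step _ ih => exact fun v hv => Or.inl (ih hv)

theorem csp_prot_mono (S : ℕ → Option V) {t t' : ℕ} (h : t ≤ t') : protUpTo S t ⊆ protUpTo S t' :=
  fun _ ⟨r, h1, h2, h3⟩ => ⟨r, h1, h2.trans h, h3⟩

theorem csp_prot_not_burn (G : SimpleGraph V) (s : V) (S : ℕ → Option V)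
    (hS : ∀ t v, S (t + 1) = some v → v ∉ burning G s S t) {x : V} (hx : x ∈ protSet S) (t : ℕ) :
    x ∉ burning G s S t := by
  obtain ⟨r, hr1, hr⟩ := hx
  obtain ⟨r, rfl⟩ : ∃ r', r = r' + 1 := ⟨r - 1, by omega⟩
  have h0 := hS r x hr
  rcases Nat.le_total t r with h | h
  · exact fun hb => h0 (csp_burning_mono G s S h hb)
  · induction h with
    | refl => exact h0
    | @step m hm ih =>
      rintro (hb | ⟨hb, _⟩)
      · exact ih hb
      · exact hb ⟨r + 1, hr1, Nat.succ_le_succ hm, hr⟩

/-- From a strategy to a good labelling. -/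
theorem good_of_strategy [Finite V] (G : SimpleGraph V) (s : V) (k : ℕ) (S : ℕ → Option V)
    (hS : IsStrategy G s k S) :
    ∃ a : V → ℕ, Good G s k a ∧ saved G s S = {v | a v ≤ k} ∧
      ∀ lev : V → ℕ, lev s = 0 → (∀ u v, G.Adj u v → lev v ≤ lev u + 1) →
        ∀ v, k < a v → k ≤ lev v → a v = 2 * k + 1 := by
  classical
  have hnb := fun {x : V} (hx : x ∈ protSet S) (t : ℕ) => csp_prot_not_burn G s S hS.notBurning hx t
  -- first times of protection
  set X : Finset V := hS.finite.toFinset with hX
  have memX : ∀ x, x ∈ X ↔ x ∈ protSet S := fun x => hS.finite.mem_toFinset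
  have hXc : X.card ≤ k := by
    have := hS.card
    rwa [Set.ncard_eq_toFinset_card _ hS.finite] at this
  set T : V → ℕ := fun x => if h : x ∈ protSet S then Nat.find h else 0 with hT
  have hT1 : ∀ x, x ∈ protSet S → 1 ≤ T x ∧ S (T x) = some x := by
    intro x hx
    simp only [hT, dif_pos hx]
    exact Nat.find_spec hx
  have hT2 : ∀ x, x ∈ protSet S → ∀ r, 1 ≤ r → S r = some x → T x ≤ r := by
    intro x hx r hr1 hr
    simp only [hT, dif_pos hx]
    exact Nat.find_min' hx ⟨hr1, hr⟩
  have hTinj : ∀ x, x ∈ protSet S → ∀ y, y ∈ protSet S → T x = T y → x = y := by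
    intro x hx y hy h
    have h1 := (hT1 x hx).2
    have h2 := (hT1 y hy).2
    rw [h, h2] at h1
    exact (Option.some.inj h1).symm
  -- ranks
  set rk : V → ℕ := fun x => (X.filter (fun y => T y ≤ T x)).card with hrk
  have hrk1 : ∀ x, x ∈ protSet S → 1 ≤ rk x := by
    intro x hx
    exact Finset.card_pos.mpr ⟨x, Finset.mem_filter.mpr ⟨(memX x).mpr hx, le_rfl⟩⟩
  have hrk2 : ∀ x, rk x ≤ k := fun x => (Finset.card_le_card (Finset.filter_subset _ _)).trans hXc
  have hrk3 : ∀ x, x ∈ protSet S → rk x ≤ T x := by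
    intro x hx
    have : rk x ≤ (Finset.Icc 1 (T x)).card := by
      apply Finset.card_le_card_of_injOn T
      · intro y hy
        rw [Finset.mem_coe, Finset.mem_filter] at hy
        rw [Finset.mem_coe, Finset.mem_Icc]
        exact ⟨(hT1 y ((memX y).mp hy.1)).1, hy.2⟩
      · intro y hy z hz h
        rw [Finset.mem_coe, Finset.mem_filter] at hy hz
        exact hTinj y ((memX y).mp hy.1) z ((memX z).mp hz.1) h
    simpa using this
  have hrk4 : ∀ x, x ∈ protSet S → ∀ y, y ∈ protSet S → rk x = rk y → x = y := by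
    have key : ∀ x, x ∈ protSet S → ∀ y, y ∈ protSet S → T x < T y → rk x < rk y := by
      intro x hx y hy h
      apply Finset.card_lt_card
      refine ⟨fun z hz => ?_, fun hsub => ?_⟩
      · rw [Finset.mem_filter] at hz ⊢
        exact ⟨hz.1, hz.2.trans h.le⟩
      · have := hsub (Finset.mem_filter.mpr ⟨(memX y).mpr hy, le_rfl⟩)
        rw [Finset.mem_filter] at this
        omega
    intro x hx y hy h
    rcases lt_trichotomy (T x) (T y) with h1 | h1 | h1
    · have := key x hx y hy h1; omega
    · exact hTinj x hx y hy h1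
    · have := key y hy x hx h1; omega
  -- burning times
  set d : V → ℕ := fun v => if h : ∃ t, v ∈ burning G s S t then Nat.find h else 0 with hd
  have hd1 : ∀ v, (∃ t, v ∈ burning G s S t) → v ∈ burning G s S (d v) := by
    intro v hv
    simp only [hd, dif_pos hv]
    exact Nat.find_spec hv
  have hd2 : ∀ v t, v ∈ burning G s S t → d v ≤ t := by
    intro v t hv
    have h : ∃ t, v ∈ burning G s S t := ⟨t, hv⟩
    simp only [hd, dif_pos h]
    exact Nat.find_min' h hv
  set a : V → ℕ := fun v => if v ∈ protSet S then rk v else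
    if ∃ t, v ∈ burning G s S t then k + 1 + min (d v) k else 0 with ha
  have haX : ∀ v, v ∈ protSet S → a v = rk v := fun v hv => by simp only [ha, if_pos hv]
  have haB : ∀ v, (∃ t, v ∈ burning G s S t) → a v = k + 1 + min (d v) k := by
    intro v hv
    have h1 : v ∉ protSet S := fun h => by
      obtain ⟨t, ht⟩ := hv
      exact hnb h t ht
    simp only [ha, if_neg h1, if_pos hv]
  have haN : ∀ v, v ∉ protSet S → (¬ ∃ t, v ∈ burning G s S t) → a v = 0 := by
    intro v h1 h2
    simp only [ha, if_neg h1, if_neg h2]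
  have hak : ∀ v, a v ≤ k ↔ ¬ ∃ t, v ∈ burning G s S t := by
    intro v
    constructor
    · intro h hb
      rw [haB v hb] at h
      omega
    · intro h
      by_cases h1 : v ∈ protSet S
      · rw [haX v h1]; exact hrk2 v
      · rw [haN v h1 h]; omega
  have hhalf : ∀ u v, G.Adj u v → half k (a u) (a v) = true := by
    intro u v huv
    unfold half
    by_cases h1 : a u ≤ k
    · rw [if_pos h1]
    · rw [if_neg h1]
      have hu : ∃ t, u ∈ burning G s S t := by
        by_contra h
        exact h1 ((hak u).mpr h)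
      have hub := hd1 u hu
      have hau := haB u hu
      by_cases hv : v ∈ protSet S
      · have h2 : T v ≤ d u + 1 := by
          by_contra hcon
          push Not at hcon
          apply hnb hv (d u + 1)
          refine Or.inr ⟨?_, u, hub, huv⟩
          rintro ⟨r, hr1, hr2, hr3⟩
          have := hT2 v hv r hr1 hr3
          omega
        have h3 := hrk1 v hv
        have h4 := hrk2 v
        have h5 := hrk3 v hv
        rw [haX v hv, if_neg (by omega), if_pos h4, decide_eq_true_eq, hau]
        omega
      · have hvb : v ∈ burning G s S (d u + 1) := by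
          refine Or.inr ⟨?_, u, hub, huv⟩
          rintro ⟨r, hr1, hr2, hr3⟩
          exact hv ⟨r, hr1, hr3⟩
        have h2 := hd2 v _ hvb
        rw [haB v ⟨_, hvb⟩, if_neg (by omega), if_neg (by omega), decide_eq_true_eq, hau]
        omega
  refine ⟨a, ⟨?_, ?_, ?_, ?_⟩, ?_, ?_⟩
  · have hs : s ∈ burning G s S 0 := rfl
    rw [haB s ⟨0, hs⟩]
    have := hd2 s 0 hs
    omega
  · intro v
    by_cases h : ∃ t, v ∈ burning G s S t
    · rw [haB v h]; omega
    · have := (hak v).mpr h; omega
  · intro u v huv
    rw [ok, hhalf u v huv, hhalf v u huv.symm]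
    rfl
  · intro u v h1 h2 h3
    have hX : ∀ w, 1 ≤ a w → a w ≤ k → w ∈ protSet S := by
      intro w h1 h2
      by_contra h
      rw [haN w h ((hak w).mp h2)] at h1
      omega
    have hu := hX u h1 h2
    have hv := hX v (h3 ▸ h1) (h3 ▸ h2)
    rw [haX u hu, haX v hv] at h3
    exact hrk4 u hu v hv h3
  · ext v
    rw [Set.mem_ofPred_eq, hak]
    simp only [saved, Set.mem_ofPred_eq, not_exists]
  · intro lev h0 h1 v hv hl
    have hlev : ∀ t v, v ∈ burning G s S t → lev v ≤ t := by
      intro t
      induction t with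
      | zero =>
        intro v hv
        have : v = s := hv
        rw [this, h0]
      | succ t ih =>
        rintro v (hv | ⟨_, u, hu, huv⟩)
        · have := ih v hv; omega
        · have := ih u hu
          have := h1 u v huv
          omega
    have hb : ∃ t, v ∈ burning G s S t := by
      by_contra h
      have := (hak v).mpr h
      omega
    have := hlev _ v (hd1 v hb)
    rw [haB v hb]
    omega

theorem csp_burning_label (G : SimpleGraph V) (s : V) (k : ℕ) (a : V → ℕ)
    (ha : Good G s k a) (S : ℕ → Option V)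
    (hS : ∀ t v, 1 ≤ t → (S t = some v ↔ t ≤ k ∧ a v = t)) :
    ∀ t v, v ∈ burning G s S t → k + 1 ≤ a v ∧ a v ≤ k + 1 + t := by
  intro t
  induction t with
  | zero =>
    intro v hv
    have : v = s := hv
    rw [this, ha.start]
    omega
  | succ t ih =>
    rintro v (hv | ⟨hp, u, hu, huv⟩)
    · have := ih v hv; omega
    · have h1 := ih u hu
      have h2 := ha.adj u v huv
      rw [ok, Bool.and_eq_true] at h2
      have h3 := h2.1
      unfold half at h3
      rw [if_neg (by omega)] at h3
      by_cases h4 : a v = 0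
      · rw [if_pos h4] at h3
        exact absurd h3 (by decide)
      · rw [if_neg h4] at h3
        by_cases h5 : a v ≤ k
        · rw [if_pos h5, decide_eq_true_eq] at h3
          exact absurd ⟨a v, by omega, by omega, (hS (a v) v (by omega)).mpr ⟨h5, rfl⟩⟩ hp
        · rw [if_neg h5, decide_eq_true_eq] at h3
          omega

theorem csp_card_labels [Finite V] (G : SimpleGraph V) (s : V) (k : ℕ) (a : V → ℕ)
    (ha : Good G s k a) : {v : V | 1 ≤ a v ∧ a v ≤ k}.ncard ≤ k := by
  classical
  have h1 : (Finset.Icc 1 k : Set ℕ).ncard = k := by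
    rw [Set.ncard_coe_finset]; simp
  refine (Set.ncard_le_ncard_of_injOn (t := (Finset.Icc 1 k : Set ℕ)) a ?_ ?_
    (Finset.finite_toSet _)).trans h1.le
  · intro v hv
    rw [Finset.mem_coe, Finset.mem_Icc]
    exact hv
  · intro u hu v hv h
    exact ha.times u v hu.1 hu.2 h

/-- From a good labelling to a strategy. -/
theorem strategy_of_good [Finite V] (G : SimpleGraph V) (s : V) (k : ℕ) (a : V → ℕ)
    (ha : Good G s k a) (S : ℕ → Option V)
    (hS : ∀ t v, 1 ≤ t → (S t = some v ↔ t ≤ k ∧ a v = t)) :
    IsStrategy G s k S ∧ {v | a v ≤ k} ⊆ saved G s S := by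
  have hb := csp_burning_label G s k a ha S hS
  have hsub : protSet S ⊆ {v : V | 1 ≤ a v ∧ a v ≤ k} := by
    rintro v ⟨r, hr1, hr⟩
    obtain ⟨h1, h2⟩ := (hS r v hr1).mp hr
    exact ⟨by omega, by omega⟩
  refine ⟨⟨?_, Set.toFinite _, ?_⟩, ?_⟩
  · intro t v h hbv
    obtain ⟨h1, h2⟩ := (hS (t + 1) v (by omega)).mp h
    have := hb t v hbv
    omega
  · exact (Set.ncard_le_ncard hsub (Set.toFinite _)).trans (csp_card_labels G s k a ha)
  · intro v hv t hbv
    have := hb t v hbv
    have hv' : a v ≤ k := hv
    omega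

/-- Baker's shifting: some residue class of deep levels contains no protected vertex. -/
theorem baker [Finite V] (G : SimpleGraph V) (s : V) (k : ℕ) (S : ℕ → Option V)
    (hS : IsStrategy G s k S) (lev : V → ℕ) (h0 : lev s = 0)
    (h1 : ∀ u v, G.Adj u v → lev v ≤ lev u + 1) :
    ∃ i < k + 2, ∃ a : V → ℕ, Good G s k a ∧ saved G s S = {v | a v ≤ k} ∧
      ∀ v, k + 1 ≤ lev v → lev v % (k + 2) = i → a v = 0 ∨ a v = 2 * k + 1 := by
  classical
  obtain ⟨a, ha, hsv, hl⟩ := good_of_strategy G s k S hS
  have hfin : {v : V | 1 ≤ a v ∧ a v ≤ k}.Finite := Set.toFinite _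
  set Y : Finset V := hfin.toFinset with hY
  have hYc : Y.card ≤ k := by
    have := csp_card_labels G s k a ha
    rwa [Set.ncard_eq_toFinset_card _ hfin] at this
  have hex : ∃ i ∈ Finset.range (k + 2), i ∉ Y.image (fun v => lev v % (k + 2)) := by
    apply Finset.exists_mem_notMem_of_card_lt_card
    rw [Finset.card_range]
    exact lt_of_le_of_lt (Finset.card_image_le.trans hYc) (by omega)
  obtain ⟨i, hi, hi2⟩ := hex
  refine ⟨i, Finset.mem_range.mp hi, a, ha, hsv, fun v hv hvi => ?_⟩
  by_cases h2 : k < a v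
  · exact Or.inr (hl lev h0 h1 v h2 (by omega))
  · left
    by_contra h3
    apply hi2
    rw [Finset.mem_image]
    exact ⟨v, hfin.mem_toFinset.mpr ⟨by omega, by omega⟩, hvi⟩

end Pool.Agent.PFire
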