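import Mathlib

/-!
# Firefighting with at most `k` protected vertices (MP_1d4aa1_lc): definitions

* `burning`, `IsStrategy`, `saved`: the process of the problem statement;
* `ok`, `Good`: the constraint satisfaction problem which is equivalent to the choice of a strategy.
  Values of a vertex: `0` = never reached by the fire (and not protected), `t ∈ {1, …, k}` = protected
  at time `t`, `k + 1 + l` (`l ≤ k`) = burns, not before time `l`.
-/

set_option autoImplicit false

namespace Pool.Agent.PFire

section Fire

variable {V : Type}

/-- Vertices protected in the steps `1, …, t`; `S r` is the vertex protected in step `r`. -/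
def protUpTo (S : ℕ → Option V) (t : ℕ) : Set V := {v | ∃ r, 1 ≤ r ∧ r ≤ t ∧ S r = some v}

/-- The burning vertices after step `t`. -/
def burning (G : SimpleGraph V) (s : V) (S : ℕ → Option V) : ℕ → Set V
  | 0 => {s}
  | t + 1 => {v | v ∈ burning G s S t ∨
      (v ∉ protUpTo S (t + 1) ∧ ∃ u ∈ burning G s S t, G.Adj u v)}

/-- All vertices which are protected at some time. -/
def protSet (S : ℕ → Option V) : Set V := {v | ∃ r, 1 ≤ r ∧ S r = some v}

/-- `S` is a strategy which protects at most `k` vertices: the vertex protected in step `t + 1` does
not burn after step `t`. -/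
structure IsStrategy (G : SimpleGraph V) (s : V) (k : ℕ) (S : ℕ → Option V) : Prop where
  notBurning : ∀ t v, S (t + 1) = some v → v ∉ burning G s S t
  finite : (protSet S).Finite
  card : (protSet S).ncard ≤ k

/-- The saved vertices: those which never burn. -/
def saved (G : SimpleGraph V) (s : V) (S : ℕ → Option V) : Set V :=
  {v | ∀ t, v ∉ burning G s S t}

end Fire

/-- Half of the edge constraint: the vertex with value `a`, if it burns, allows the neighbour value `b`. -/
def half (k a b : ℕ) : Bool :=
  if a ≤ k then true
  else if b = 0 then false
  else if b ≤ k then decide (b + k ≤ a)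
  else decide (b ≤ a + 1)

/-- The edge constraint. -/
def ok (k a b : ℕ) : Bool := half k a b && half k b a

/-- A good labelling of the vertices. -/
structure Good {V : Type} (G : SimpleGraph V) (s : V) (k : ℕ) (a : V → ℕ) : Prop where
  start : a s = k + 1
  le : ∀ v, a v ≤ 2 * k + 1
  adj : ∀ u v, G.Adj u v → ok k (a u) (a v) = true
  times : ∀ u v, 1 ≤ a u → a u ≤ k → a u = a v → u = v

end Pool.Agent.PFire
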