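import Pool.Agent.Lib.PFire.Raw

/-!
# Chunk DI: distances computed by rounds of the closure

`dist E x y` is the number of `j ≤ E.length` with `y ∉ (reachStep E)^[j] [x]`.  The balls are increasing and
`reach E x = (reachStep E)^[E.length] [x]` is closed (`mem_reach`, `reach_stable`, `mem_reachStep`,
`iter_subset_of_le` in `Pool.Agent.Lib.PolyTime.Reach`).
-/

set_option autoImplicit false

namespace Pool.Agent.PFire

open Pool.Agent.PolyTime

variable {κ : Type} [Enc κ] [EncInj κ] [DecidableEq κ]

/-- the number of rounds `j < n` in which `y` is not yet reached -/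
private def cnt (E : List (κ × κ)) (x y : κ) : ℕ → ℕ
  | 0 => 0
  | n + 1 => cnt E x y n + if y ∈ (reachStep E)^[n] [x] then 0 else 1

omit [Enc κ] [EncInj κ] in
private lemma iter_eq_cnt (E : List (κ × κ)) (x y : κ) (n : ℕ) :
    (fun p : List κ × ℕ => (reachStep E p.1, p.2 + if y ∈ p.1 then 0 else 1))^[n] ([x], 0) =
      ((reachStep E)^[n] [x], cnt E x y n) := by
  induction n with
  | zero => rfl
  | succ n ih =>
    rw [Function.iterate_succ_apply', ih, Function.iterate_succ_apply']
    rfl

omit [Enc κ] [EncInj κ] in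
private lemma dist_eq_cnt (E : List (κ × κ)) (x y : κ) :
    dist E x y = cnt E x y (E.length + 1) := by
  unfold dist
  rw [iter_eq_cnt]

omit [Enc κ] [EncInj κ] in
private lemma cnt_le (E : List (κ × κ)) (x y : κ) (n : ℕ) : cnt E x y n ≤ n := by
  induction n with
  | zero => exact le_rfl
  | succ n ih =>
    unfold cnt
    split_ifs <;> omega

omit [Enc κ] [EncInj κ] in
private lemma cnt_mono (E : List (κ × κ)) (x y : κ) {m n : ℕ} (h : m ≤ n) :
    cnt E x y m ≤ cnt E x y n := by
  induction h with
  | refl => exact le_rfl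
  | @step k _ ih => exact ih.trans (by conv_rhs => unfold cnt
                                       exact Nat.le_add_right _ _)

private lemma cnt_of_not_mem (E : List (κ × κ)) (x y : κ) {k : ℕ}
    (h : y ∉ (reachStep E)^[k] [x]) : ∀ n, n ≤ k + 1 → cnt E x y n = n := by
  intro n
  induction n with
  | zero => intro _; rfl
  | succ n ih =>
    intro hn
    unfold cnt
    rw [ih (by omega), if_neg]
    intro hy
    exact h (iter_subset_of_le E [x] (by omega : n ≤ k) hy)

private lemma cnt_of_mem (E : List (κ × κ)) (x y : κ) {k : ℕ}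
    (h : y ∈ (reachStep E)^[k] [x]) (n : ℕ) : cnt E x y n ≤ k := by
  rcases le_total n k with hn | hn
  · exact (cnt_le E x y n).trans hn
  · induction hn with
    | refl => exact cnt_le E x y k
    | @step m hm ih =>
      unfold cnt
      rw [if_pos (iter_subset_of_le E [x] hm h)]
      exact ih

private lemma dist_le_iff (E : List (κ × κ)) (x y : κ) {k : ℕ} (hk : k ≤ E.length) :
    dist E x y ≤ k ↔ y ∈ (reachStep E)^[k] [x] := by
  rw [dist_eq_cnt]
  constructor
  · intro h
    by_contra hy
    have h1 := cnt_of_not_mem E x y hy (k + 1) le_rfl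
    have h2 := cnt_mono E x y (by omega : k + 1 ≤ E.length + 1)
    omega
  · intro h
    exact cnt_of_mem E x y h _

private lemma dist_le_of_reach {E : List (κ × κ)} {x y : κ} (hy : y ∈ reach E x) :
    dist E x y ≤ E.length := (dist_le_iff E x y le_rfl).2 hy

lemma dist_le (E : List (κ × κ)) (x y : κ) : dist E x y ≤ E.length + 1 := by
  rw [dist_eq_cnt]
  exact cnt_le E x y _

lemma dist_self (E : List (κ × κ)) (x : κ) : dist E x x = 0 := by
  have h := (dist_le_iff E x x (Nat.zero_le _)).2 (by simp)
  omega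

lemma eq_of_dist_eq_zero {E : List (κ × κ)} {x y : κ} (h : dist E x y = 0) : y = x := by
  have h1 := (dist_le_iff E x y (Nat.zero_le _)).1 (by omega)
  simpa using h1

lemma dist_le_succ {E : List (κ × κ)} {x y z : κ} (hy : y ∈ reach E x) (h : (y, z) ∈ E) :
    dist E x z ≤ dist E x y + 1 := by
  have hk := dist_le_of_reach hy
  rcases hk.lt_or_eq with h1 | h1
  · rw [dist_le_iff E x z (by omega), Function.iterate_succ_apply', mem_reachStep]
    exact Or.inr ⟨y, (dist_le_iff E x y hk).1 le_rfl, h⟩
  · rw [h1]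
    exact dist_le E x z

lemma dist_pred {E : List (κ × κ)} {x z : κ} (hz : z ∈ reach E x) (hzx : z ≠ x) :
    ∃ y, y ∈ reach E x ∧ (y, z) ∈ E ∧ dist E x y + 1 = dist E x z := by
  have hk := dist_le_of_reach hz
  have h0 : dist E x z ≠ 0 := fun h => hzx (eq_of_dist_eq_zero h)
  obtain ⟨k, hk'⟩ := Nat.exists_eq_succ_of_ne_zero h0
  have h1 : z ∈ (reachStep E)^[k + 1] [x] := (dist_le_iff E x z (by omega)).1 (by omega)
  have h2 : z ∉ (reachStep E)^[k] [x] := by
    intro h
    have := (dist_le_iff E x z (by omega : k ≤ E.length)).2 h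
    omega
  rw [Function.iterate_succ_apply', mem_reachStep] at h1
  rcases h1 with h1 | ⟨y, hy, hyz⟩
  · exact absurd h1 h2
  · have hy' : y ∈ reach E x := iter_subset_of_le E [x] (by omega : k ≤ E.length) hy
    refine ⟨y, hy', hyz, ?_⟩
    have h3 := (dist_le_iff E x y (by omega : k ≤ E.length)).2 hy
    have h4 := dist_le_succ hy' hyz
    omega

/-- In a bipartite graph the distance determines the side. -/
lemma dist_parity {E : List (κ × κ)} (p : κ → Bool) (hp : ∀ e ∈ E, p e.2 = !(p e.1)) {x y : κ}
    (hy : y ∈ reach E x) : dist E x y % 2 = 1 ↔ p y ≠ p x := by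
  suffices H : ∀ n y, y ∈ reach E x → dist E x y = n → (n % 2 = 1 ↔ p y ≠ p x) from
    H _ y hy rfl
  intro n
  induction n with
  | zero =>
    intro y _ h
    rw [eq_of_dist_eq_zero h]
    simp
  | succ n ih =>
    intro z hz h
    have hzx : z ≠ x := by
      rintro rfl
      rw [dist_self] at h
      omega
    obtain ⟨w, hw, hwz, hd⟩ := dist_pred hz hzx
    have h1 := ih w hw (by omega)
    have h2 := hp _ hwz
    simp only at h2
    rw [h2]
    have h3 : (n + 1) % 2 = 1 ↔ ¬ (n % 2 = 1) := by omega
    rw [h3, h1]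
    cases p w <;> cases p x <;> simp

end Pool.Agent.PFire
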