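import Pool.Agent.Lib.PFire.TopoBase

/-!
# Chunk TC: the triangles of a subtree are connected in the cotree

`T_conn`: by induction over the tree from the leaves.  For a node `w`, the triangles which have the
corner node `w` form one cyclic sequence:
* `w = g` a face: `x, phi x, …`, the link from `x` to `phi x` is the corner side `phi x`;
* `w = v` a vertex: `c` (with `tail c = v`), `al c`, `sg c = phi (al c)`, …; the links are the edge side
  of `c` and the corner side `sg c`.
All these triangles are in `T sl w`: there is no number strictly between `lvl w` and `rf (face t)`.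
A link is missing only if its side is in the tree, so it is the side of the parent of `w` (at most one)
or the side of a child `c'` of `w`.  In the latter case both triangles `t1, t2` of the side touch `c'`
and they are connected inside `T sl w` as follows.
* If `c'` is not a forced vertex with `sl (lvl c')` and `lvl c' = lvl w + 1`: then `T sl c' ⊆ T sl w`
  (a level `x` of `sl` with `lvl w < x < rf (face t)` has `lvl c' < x`, since `x = lvl c'` is excluded:
  `sl x` implies `x` even and `fl x`; if `lvl c'` is even and `> lvl w` then `c'` is a vertex). Use the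
  induction hypothesis.
* Otherwise `c' = v` is a forced representative, its parent is the face `w`, and `t1, t2 ∈ Out v ⊆ T sl w`
  (`rf (face t) = lvl w` for `t ∈ Out v`, and members of the component of `v` are descendants of `v`).
  Use `hB`.
With the star lemma the triangles around `w` are connected.  A triangle `t ∈ T sl w` not around `w` touches
a descendant of a child `c'`; in the first case `t ∈ T sl c'`; in the second case `t ∈ Out v`: the slab
condition for `x = rv v` gives `rf (face t) < rv v`, so the corner node which is a descendant of `v` is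
a vertex on the level of `v`, hence with the representative `v` (`Desc.same_lvl`).

`cotree_conn`: take `sl = fun _ => False`, `w = s`.
-/

set_option autoImplicit false

namespace Pool.Agent.PFire

open Relation

variable {D V F : Type} {M : PMap D V F} {s : V} {R : Rad M s} (K : Frc M R)

/-- every child shares a triangle with its parent -/
lemma tc_child_side {c w : V ⊕ F} (hc : c ≠ w) (hu : K.up c = w) :
    ∃ t, M.IsCorner t c ∧ M.IsCorner t w := by
  rcases c with v | g
  · by_cases hs : v = s
    · exfalso
      apply hc
      rw [← hu, hs, K.up_s]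
    · by_cases hr : K.rep v = v
      · refine ⟨R.pv v, Or.inl ?_, Or.inr (Or.inr ?_)⟩
        · rw [R.pv_tail v hs]
        · rw [← hu, K.up_rep hs hr]
      · refine ⟨K.pe v, Or.inl ?_, Or.inr (Or.inl ?_)⟩
        · rw [K.pe_tail v hr]
        · rw [← hu, K.up_pe hr]
  · refine ⟨R.pf g, Or.inr (Or.inr ?_), Or.inl ?_⟩
    · rw [R.pf_face]
    · rw [← hu, K.up_face]

lemma tc_corner_head (t : D) :
    R.rv (M.head t) = R.rf (M.face t) + 1 ∨ R.rf (M.face t) = R.rv (M.head t) + 1 := by
  have h := R.corner (M.phi t)
  rw [M.tail_phi, M.face_phi] at h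
  exact h

lemma tc_lvl_corner {t : D} {w : V ⊕ F} (h : M.IsCorner t w) :
    R.rf (M.face t) ≤ R.lvl w + 1 ∧ R.lvl w ≤ R.rf (M.face t) + 1 := by
  rcases h with h | h | h
  · rw [h]
    have := R.corner t
    simp only [Rad.lvl, Sum.elim_inl]
    omega
  · rw [h]
    have := tc_corner_head (R := R) t
    simp only [Rad.lvl, Sum.elim_inl]
    omega
  · rw [h]
    simp only [Rad.lvl, Sum.elim_inr]
    omega

/-- the triangles around `w` are in `T sl w` -/
lemma tc_star_mem (sl : ℕ → Prop) {t : D} {w : V ⊕ F} (h : M.IsCorner t w) : t ∈ K.T sl w := by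
  refine ⟨fun x _ hx hx' => ?_, w, h, Frc.Desc.refl K w⟩
  rcases h with h | h | h
  · rw [h] at hx
    have := R.corner t
    simp only [Rad.lvl, Sum.elim_inl] at hx
    omega
  · rw [h] at hx
    have := tc_corner_head (R := R) t
    simp only [Rad.lvl, Sum.elim_inl] at hx
    omega
  · rw [h] at hx
    simp only [Rad.lvl, Sum.elim_inr] at hx
    omega

lemma tc_rf_odd (g : F) : R.rf g % 2 = 1 := by
  have h1 := R.pf_tail g
  have h2 := R.even (M.tail (R.pf g))
  omega

/-- the two kinds of children -/
lemma tc_child_cases (sl : ℕ → Prop) (hsl : ∀ x, sl x → K.fl x) {c w : V ⊕ F} (hc : c ≠ w)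
    (hu : K.up c = w) :
    (∀ x, sl x → R.lvl w < x → R.lvl c < x) ∨
    (∃ v, c = Sum.inl v ∧ K.rep v = v ∧ sl (R.rv v) ∧ R.lvl w + 1 = R.rv v ∧
      w = Sum.inr (M.face (R.pv v))) := by
  by_cases hA : ∀ x, sl x → R.lvl w < x → R.lvl c < x
  · exact Or.inl hA
  right
  push Not at hA
  obtain ⟨x, hx, hx1, hx2⟩ := hA
  rcases K.lvl_up c with h1 | ⟨h1, h2⟩ | ⟨v, hv, hne, h3, h4, h5⟩
  · exfalso
    apply hc
    rw [← hu, h1, K.up_s]
  · rw [hu] at h1
    have hxc : x = R.lvl c := by omega
    rcases c with v | g
    · have hxv : x = R.rv v := hxc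
      have hvs : v ≠ s := by
        rintro rfl
        apply hc
        rw [← hu, K.up_s]
      refine ⟨v, rfl, h2 v rfl, by rw [← hxv]; exact hx, by rw [h1]; rfl, ?_⟩
      rw [← hu, K.up_rep hvs (h2 v rfl)]
    · exfalso
      have h6 := K.fl_even x (hsl x hx)
      have h7 := tc_rf_odd (R := R) g
      have h8 : x = R.rf g := hxc
      omega
  · rw [hu] at h4
    omega

theorem T_conn [Finite D] (sl : ℕ → Prop) (hsl : ∀ x, sl x → K.fl x)
    (hB : ∀ v, K.rep v = v → sl (R.rv v) → ∀ t t', t ∈ K.Out v → t' ∈ K.Out v →
      M.ConnIn K.CC K.EE (K.Out v) t t')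
    (w : V ⊕ F) (t t' : D) (ht : t ∈ K.T sl w) (ht' : t' ∈ K.T sl w) :
    M.ConnIn K.CC K.EE (K.T sl w) t t' := by
  have hfV : Finite V := Finite.of_surjective M.tail M.tail_surj
  have hfF : Finite F := Finite.of_surjective M.face M.face_surj
  -- well-founded induction over the tree from the leaves
  let idn : V ⊕ F → ℕ := Sum.elim K.idist (fun _ => 0)
  let r : V ⊕ F → V ⊕ F → Prop := fun c w => R.lvl w < R.lvl c ∨ (R.lvl w = R.lvl c ∧ idn w < idn c)
  have hwf : WellFounded r := by
    have : IsTrans (V ⊕ F) r := ⟨fun a b c h1 h2 => by
      rcases h1 with h1 | ⟨h1, h1'⟩ <;> rcases h2 with h2 | ⟨h2, h2'⟩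
      · exact Or.inl (by omega)
      · exact Or.inl (by omega)
      · exact Or.inl (by omega)
      · exact Or.inr ⟨by omega, by omega⟩⟩
    have : Std.Irrefl r := ⟨fun a h => by rcases h with h | ⟨_, h⟩ <;> omega⟩
    exact Finite.wellFounded_of_trans_of_irrefl r
  have hchild : ∀ c w, c ≠ w → K.up c = w → r c w := by
    intro c w hc hu
    rcases K.lvl_up c with h1 | ⟨h1, _⟩ | ⟨v, hv, hne, h3, h4, h5⟩
    · exfalso
      apply hc
      rw [← hu, h1, K.up_s]
    · left
      rw [hu] at h1
      omega
    · right
      rw [hu] at h4
      refine ⟨h4, ?_⟩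
      rw [← hu, h3, hv]
      exact h5
  revert t t'
  induction w using hwf.induction with
  | _ w ih =>
    have hP : ∀ c, c ≠ w → K.up c = w → ∀ t t', t ∈ K.T sl c → t' ∈ K.T sl c →
        M.ConnIn K.CC K.EE (K.T sl c) t t' :=
      fun c hc hu t t' ht ht' => ih c (hchild c w hc hu) t t' ht ht'
    have hsymm : ∀ x y, M.ConnIn K.CC K.EE (K.T sl w) x y → M.ConnIn K.CC K.EE (K.T sl w) y x :=
      fun x y h => h.symm' (fun x hx => K.EE_al hx)
    have htrans : ∀ x y z, M.ConnIn K.CC K.EE (K.T sl w) x y →
        M.ConnIn K.CC K.EE (K.T sl w) y z → M.ConnIn K.CC K.EE (K.T sl w) x z :=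
      fun x y z h1 h2 => ReflTransGen.trans h1 h2
    have hOutSub : ∀ v, K.rep v = v → R.lvl w + 1 = R.rv v → K.up (Sum.inl v) = w →
        K.Out v ⊆ K.T sl w := by
      intro v hv hl hu t ht
      have hd : ∀ u, K.rep u = v → K.Desc w (Sum.inl u) := by
        intro u hu'
        have h1 := K.desc_rep u
        rw [hu'] at h1
        have h2 := K.desc_up (Sum.inl v)
        rw [hu] at h2
        exact Frc.Desc.trans K h2 h1
      refine ⟨fun x _ hx hx' => ?_, ?_⟩
      · have := ht.1
        omega
      · rcases ht.2 with h1 | h1
        · exact ⟨_, Or.inl rfl, hd _ h1⟩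
        · exact ⟨_, Or.inr (Or.inl rfl), hd _ h1⟩
    have hTsub : ∀ c, c ≠ w → K.up c = w → (∀ x, sl x → R.lvl w < x → R.lvl c < x) →
        K.T sl c ⊆ K.T sl w := by
      intro c hc hu hx t ht
      obtain ⟨h1, c', h2, h3⟩ := ht
      refine ⟨fun x hx1 hx2 => h1 x hx1 (hx x hx1 hx2), c', h2, ?_⟩
      have h4 := K.desc_up c
      rw [hu] at h4
      exact Frc.Desc.trans K h4 h3
    -- (F2)
    have F2 : ∀ c, c ≠ w → K.up c = w → ∀ t1 t2, M.IsCorner t1 c → M.IsCorner t1 w →
        M.IsCorner t2 c → M.IsCorner t2 w → M.ConnIn K.CC K.EE (K.T sl w) t1 t2 := by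
      intro c hc hu t1 t2 h1 h1' h2 h2'
      rcases tc_child_cases K sl hsl hc hu with hA | ⟨v, hv, hr, hslv, hl, hw⟩
      · exact (hP c hc hu t1 t2 (tc_star_mem K sl h1) (tc_star_mem K sl h2)).mono
          (hTsub c hc hu hA)
      · have hout : ∀ t, M.IsCorner t c → M.IsCorner t w → t ∈ K.Out v := by
          intro t h h'
          refine ⟨?_, ?_⟩
          · rw [hw] at h'
            rcases h' with h' | h' | h'
            · cases h'
            · cases h'
            · have h6 := Sum.inr.inj h'
              rw [← h6]
              have h7 := hl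
              rw [hw] at h7
              exact h7
          · rw [hv] at h
            rcases h with h | h | h
            · left
              rw [← Sum.inl.inj h, hr]
            · right
              rw [← Sum.inl.inj h, hr]
            · cases h
        exact (hB v hr hslv t1 t2 (hout t1 h1 h1') (hout t2 h2 h2')).mono
          (hOutSub v hr hl (by rw [← hv]; exact hu))
    -- (F3)
    have F3 : ∀ t ∈ K.T sl w, ∃ t1, M.IsCorner t1 w ∧ M.ConnIn K.CC K.EE (K.T sl w) t t1 := by
      intro t ht
      obtain ⟨hslab, c0, hc0, hd⟩ := ht
      rcases Frc.Desc.cases K hd with h0 | ⟨c, hc, hu, hd'⟩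
      · exact ⟨t, by rw [← h0]; exact hc0, ReflTransGen.refl⟩
      · obtain ⟨t1, ht1c, ht1w⟩ := tc_child_side K hc hu
        refine ⟨t1, ht1w, ?_⟩
        rcases tc_child_cases K sl hsl hc hu with hA | ⟨v, hv, hr, hslv, hl, hw⟩
        · have hle : R.lvl w ≤ R.lvl c := by
            rw [← hu]; exact K.lvl_up_le c
          have htc : t ∈ K.T sl c :=
            ⟨fun x hx1 hx2 => hslab x hx1 (lt_of_le_of_lt hle hx2), c0, hc0, hd'⟩
          exact (hP c hc hu t t1 htc (tc_star_mem K sl ht1c)).mono (hTsub c hc hu hA)
        · -- `t` is an outer triangle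
          have h1 : ¬ R.rv v < R.rf (M.face t) := hslab (R.rv v) hslv (by omega)
          have h2 := K.fl_even _ (hsl _ hslv)
          have h3 := tc_rf_odd (R := R) (M.face t)
          have h4 := Frc.Desc.lvl_le K hd'
          have h4' : R.rv v ≤ R.lvl c0 := by rw [hv] at h4; exact h4
          have h5 := (tc_lvl_corner (R := R) hc0).2
          have h6 : R.rf (M.face t) + 1 = R.rv v := by omega
          have h7 : R.lvl c0 = R.rv v := by omega
          rw [hv] at hd'
          obtain ⟨u, hu1, hu2⟩ := Frc.Desc.same_lvl K hd' h7
          rw [hr] at hu2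
          have htO : t ∈ K.Out v := by
            refine ⟨h6, ?_⟩
            rw [hu1] at hc0
            rcases hc0 with h | h | h
            · left; rw [← Sum.inl.inj h]; exact hu2
            · right; rw [← Sum.inl.inj h]; exact hu2
            · cases h
          have ht1O : t1 ∈ K.Out v := by
            refine ⟨?_, ?_⟩
            · rw [hw] at ht1w
              rcases ht1w with h' | h' | h'
              · cases h'
              · cases h'
              · have h6 := Sum.inr.inj h'
                rw [← h6]
                have h7 := hl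
                rw [hw] at h7
                exact h7
            · rw [hv] at ht1c
              rcases ht1c with h | h | h
              · left; rw [← Sum.inl.inj h, hr]
              · right; rw [← Sum.inl.inj h, hr]
              · cases h
          exact (hB v hr hslv t t1 htO ht1O).mono (hOutSub v hr hl (by rw [← hv]; exact hu))
    -- one step inside of the star
    have hstep : ∀ x y, M.IsCorner x w → M.IsCorner y w → M.Step K.CC K.EE x y →
        M.ConnIn K.CC K.EE (K.T sl w) x y := fun x y hx hy h =>
      ReflTransGen.single ⟨tc_star_mem K sl hx, tc_star_mem K sl hy, h⟩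
    -- (F4)
    have F4 : ∀ t t', M.IsCorner t w → M.IsCorner t' w → M.ConnIn K.CC K.EE (K.T sl w) t t' := by
      rcases hw : w with v | g
      · rw [hw] at hstep F2 htrans hsymm
        -- link 1
        have link1 : ∀ x, M.tail x = v → ¬ (K.rep v ≠ v ∧ x = K.pe v) →
            M.ConnIn K.CC K.EE (K.T sl (Sum.inl v)) x (M.al x) := by
          intro x hx hbr
          have hcx : M.IsCorner x (Sum.inl v) := Or.inl (by rw [hx])
          have hcax : M.IsCorner (M.al x) (Sum.inl v) := Or.inr (Or.inl (by rw [M.head_al, hx]))
          by_cases hE : x ∈ K.EE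
          · exact hstep _ _ hcx hcax (Or.inr (Or.inr ⟨rfl, hE⟩))
          · have hE' : K.ET x := by by_contra h; exact hE h
            rcases hE' with ⟨h1, h2⟩ | ⟨h1, h2⟩
            · exfalso
              rw [hx] at h1 h2
              exact hbr ⟨h1, h2.symm⟩
            · have h3 : M.head (K.pe (M.head x)) = v := by rw [h2, M.head_al, hx]
              have h4 : M.head x ≠ v := by
                intro h5
                have h6 := K.pe_dist (M.head x) h1
                rw [h3, h5] at h6
                exact lt_irrefl _ h6
              refine F2 (Sum.inl (M.head x)) (fun h => h4 (Sum.inl.inj h)) ?_ x (M.al x)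
                (Or.inr (Or.inl rfl)) hcx (Or.inl rfl) hcax
              rw [K.up_pe h1, h3]
        -- link 2
        have link2 : ∀ x, M.tail x = v → ¬ (K.rep v = v ∧ M.sg x = R.pv v) →
            M.ConnIn K.CC K.EE (K.T sl (Sum.inl v)) (M.al x) (M.sg x) := by
          intro x hx hbr
          have hcax : M.IsCorner (M.al x) (Sum.inl v) := Or.inr (Or.inl (by rw [M.head_al, hx]))
          have hcsx : M.IsCorner (M.sg x) (Sum.inl v) := Or.inl (by rw [M.tail_sg, hx])
          by_cases hC : M.sg x ∈ K.CC
          · exact hstep _ _ hcax hcsx (Or.inl ⟨rfl, hC⟩)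
          · have hC' : K.CT (M.sg x) := by by_contra h; exact hC h
            rcases hC' with h1 | ⟨h1, h2, h3⟩
            · refine F2 (Sum.inr (M.face (M.sg x))) (fun h => by cases h) ?_ (M.al x) (M.sg x)
                (Or.inr (Or.inr (by rw [M.face_sg]))) hcax (Or.inr (Or.inr rfl)) hcsx
              rw [K.up_face, ← h1, M.tail_sg, hx]
            · exfalso
              rw [M.tail_sg, hx] at h2 h3
              exact hbr ⟨h2, h3⟩
        -- the star
        have hall : ∀ x y, M.tail x = v → M.tail y = v →
            M.ConnIn K.CC K.EE (K.T sl (Sum.inl v)) x y := by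
          intro x y hx hy
          obtain ⟨n, hn⟩ := M.tail_orbit x y (by rw [hx, hy])
          let X := {x : D // M.tail x = v}
          let π : X → X := fun x => ⟨M.sg x.1, by rw [M.tail_sg, x.2]⟩
          have hπ : Function.Injective π := by
            intro a b hab
            have h1 : M.sg a.1 = M.sg b.1 := congrArg Subtype.val hab
            have h2 : M.al a.1 = M.al b.1 := M.phi.injective h1
            have h3 := congrArg M.al h2
            rw [M.al_al, M.al_al] at h3
            exact Subtype.ext h3
          have hit : ∀ n (a : X), (π^[n] a).1 = (fun x => M.phi (M.al x))^[n] a.1 := by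
            intro n
            induction n with
            | zero => intro a; rfl
            | succ n ihn =>
              intro a
              rw [Function.iterate_succ_apply, Function.iterate_succ_apply, ihn]
              rfl
          classical
          let x0 : X := if h : K.rep v ≠ v then ⟨K.pe v, K.pe_tail v h⟩ else
            if h' : ∃ z : X, M.sg z.1 = R.pv v then h'.choose else ⟨x, hx⟩
          have hmain := star_lemma (X := X) π hπ
            (fun a b => M.ConnIn K.CC K.EE (K.T sl (Sum.inl v)) a.1 b.1)
            (fun _ => ReflTransGen.refl) (fun a b h => hsymm _ _ h)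
            (fun a b c h1 h2 => htrans _ _ _ h1 h2) x0 ⟨x, hx⟩ (by
              intro n hne
              set a := π^[n] ⟨x, hx⟩ with ha
              refine htrans _ (M.al a.1) _ (link1 a.1 a.2 ?_) (link2 a.1 a.2 ?_)
              · rintro ⟨h1, h2⟩
                apply hne
                apply Subtype.ext
                simp only [x0, dif_pos h1]
                exact h2
              · rintro ⟨h1, h2⟩
                apply hne
                have h3 : ∃ z : X, M.sg z.1 = R.pv v := ⟨a, h2⟩
                have h4 : x0 = h3.choose := by
                  simp only [x0]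
                  rw [dif_neg (by simpa using h1), dif_pos h3]
                rw [h4]
                apply hπ
                apply Subtype.ext
                show M.sg a.1 = M.sg h3.choose.1
                rw [h2, h3.choose_spec]) n
          rw [hit] at hmain
          have h5 : (fun x => M.phi (M.al x))^[n] x = y := hn
          simp only [h5] at hmain
          exact hmain
        have htoTail : ∀ t, M.IsCorner t (Sum.inl v) → ∃ x, M.tail x = v ∧
            M.ConnIn K.CC K.EE (K.T sl (Sum.inl v)) t x := by
          intro t ht
          rcases ht with h | h | h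
          · exact ⟨t, (Sum.inl.inj h).symm, ReflTransGen.refl⟩
          · have h1 : M.tail (M.al t) = v := (Sum.inl.inj h).symm
            by_cases hb : K.rep v ≠ v ∧ M.al t = K.pe v
            · refine ⟨M.sg (M.al t), by rw [M.tail_sg, h1], ?_⟩
              have := link2 (M.al t) h1 (fun h2 => hb.1 h2.1)
              rwa [M.al_al] at this
            · refine ⟨M.al t, h1, ?_⟩
              have := link1 (M.al t) h1 hb
              rw [M.al_al] at this
              exact hsymm _ _ this
          · cases h
        intro t t' ht ht'
        obtain ⟨x, hx, hx'⟩ := htoTail t ht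
        obtain ⟨y, hy, hy'⟩ := htoTail t' ht'
        exact htrans _ _ _ (htrans _ _ _ hx' (hall x y hx hy)) (hsymm _ _ hy')
      · rw [hw] at hstep F2 htrans hsymm
        have link : ∀ x, M.face x = g → M.phi x ≠ R.pf g →
            M.ConnIn K.CC K.EE (K.T sl (Sum.inr g)) x (M.phi x) := by
          intro x hx hbr
          have hcx : M.IsCorner x (Sum.inr g) := Or.inr (Or.inr (by rw [hx]))
          have hcpx : M.IsCorner (M.phi x) (Sum.inr g) :=
            Or.inr (Or.inr (by rw [M.face_phi, hx]))
          by_cases hC : M.phi x ∈ K.CC
          · exact hstep _ _ hcx hcpx (Or.inl ⟨rfl, hC⟩)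
          · have hC' : K.CT (M.phi x) := by by_contra h; exact hC h
            rcases hC' with h1 | ⟨h1, h2, h3⟩
            · exfalso
              rw [M.face_phi, hx] at h1
              exact hbr h1
            · refine F2 (Sum.inl (M.tail (M.phi x))) (fun h => by cases h) ?_ x (M.phi x)
                (Or.inr (Or.inl (by rw [M.tail_phi]; rfl))) hcx (Or.inl rfl) hcpx
              rw [K.up_rep h1 h2, ← h3, M.face_phi, hx]
        intro t t' ht ht'
        have hft : ∀ t, M.IsCorner t (Sum.inr g) → M.face t = g := by
          intro t ht
          rcases ht with h | h | h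
          · cases h
          · cases h
          · exact (Sum.inr.inj h).symm
        have h1 := hft t ht
        have h2 := hft t' ht'
        obtain ⟨n, hn⟩ := M.face_orbit t t' (by rw [h1, h2])
        let X := {x : D // M.face x = g}
        let π : X → X := fun x => ⟨M.phi x.1, by rw [M.face_phi, x.2]⟩
        have hπ : Function.Injective π := fun a b hab =>
          Subtype.ext (M.phi.injective (congrArg Subtype.val hab))
        have hit : ∀ n (a : X), (π^[n] a).1 = M.phi^[n] a.1 := by
          intro n
          induction n with
          | zero => intro a; rfl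
          | succ n ihn =>
            intro a
            rw [Function.iterate_succ_apply, Function.iterate_succ_apply, ihn]
        have hx0 : M.face (M.phi.symm (R.pf g)) = g := by
          have h3 := M.face_phi (M.phi.symm (R.pf g))
          rw [Equiv.apply_symm_apply, R.pf_face] at h3
          exact h3.symm
        have hmain := star_lemma (X := X) π hπ
          (fun a b => M.ConnIn K.CC K.EE (K.T sl (Sum.inr g)) a.1 b.1)
          (fun _ => ReflTransGen.refl) (fun a b h => hsymm _ _ h)
          (fun a b c h1 h2 => htrans _ _ _ h1 h2) ⟨M.phi.symm (R.pf g), hx0⟩ ⟨t, h1⟩ (by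
            intro n hne
            refine link _ (π^[n] ⟨t, h1⟩).2 (fun h3 => hne ?_)
            apply Subtype.ext
            show (π^[n] ⟨t, h1⟩).1 = M.phi.symm (R.pf g)
            rw [← h3, Equiv.symm_apply_apply]) n
        rw [hit] at hmain
        simp only [hn] at hmain
        exact hmain
    intro t t' ht ht'
    obtain ⟨t1, h1, h1'⟩ := F3 t ht
    obtain ⟨t2, h2, h2'⟩ := F3 t' ht'
    exact htrans _ _ _ (htrans _ _ _ h1' (F4 t1 t2 h1 h2)) (hsymm _ _ h2')

theorem cotree_conn [Finite D] (t t' : D) : M.Conn K.CC K.EE t t' := by
  have h : ∀ t : D, t ∈ K.T (fun _ => False) (Sum.inl s) := fun t =>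
    ⟨fun x hx => hx.elim, _, Or.inl rfl, K.desc_s _⟩
  exact (T_conn K (fun _ => False) (fun x hx => hx.elim) (fun v _ hv => hv.elim) (Sum.inl s) t t'
    (h t) (h t')).toConn

end Pool.Agent.PFire
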