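import Pool.Agent.Lib.PFire.TopoBase

/-!
# Chunk TN: counting sides; every side of the cotree is a bridge

`card_le_of_conn`: the triangles are the vertices of a connected graph with at most `|C| + |E| / 2` edges
(`SimpleGraph.Connected.card_vert_le_card_edgeSet_add_one`).
`card_CC_EE`: the tree has the corner sides `pf g` (all `g`), `pv v` (`v ≠ s`, `rep v = v`), which are
all different (`pf g = pv v` contradicts the radial distances), and the edge sides `{pe v, al (pe v)}`
(`rep v ≠ v`), which are all different (`pe v = al (pe v')` contradicts `pe_dist`).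
`bridge_corner`, `bridge_edge`: by Euler's formula `2 |CC| + |EE| = 2 |D| - 2`; if the two triangles of a
side were connected without it, all triangles would be connected without it, contradiction to
`card_le_of_conn`.  The connectedness of the cotree is a hypothesis here.
-/

set_option autoImplicit false

namespace Pool.Agent.PFire

open Relation

variable {D V F : Type}

/-- The graph of the steps. -/
private def stepGraph (M : PMap D V F) (C E : Set D) (hE : ∀ x ∈ E, M.al x ∈ E) : SimpleGraph D where
  Adj x y := x ≠ y ∧ M.Step C E x y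
  symm := ⟨fun _ _ h => ⟨h.1.symm, h.2.symm hE⟩⟩
  loopless := ⟨fun _ h => h.1 rfl⟩

theorem card_le_of_conn [Fintype D] (M : PMap D V F) (C E : Set D) (hE : ∀ x ∈ E, M.al x ∈ E)
    (h : ∀ t t', M.Conn C E t t') : 2 * Fintype.card D ≤ 2 * C.ncard + E.ncard + 2 := by
  classical
  rcases isEmpty_or_nonempty D with hD | hD
  · simp
  have hconn : (stepGraph M C E hE).Connected := by
    haveI := hD
    refine ⟨fun x y => ?_⟩
    have h1 := h x y
    induction h1 with
    | refl => exact SimpleGraph.Reachable.refl _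
    | @tail b c _ hbc ih =>
      refine ih.trans ?_
      by_cases hne : b = c
      · rw [hne]
      · exact SimpleGraph.Adj.reachable (G := stepGraph M C E hE) ⟨hne, hbc⟩
  have h1 := hconn.card_vert_le_card_edgeSet_add_one
  rw [Nat.card_eq_fintype_card] at h1
  have h2 : (stepGraph M C E hE).edgeSet ⊆ ((fun c => s(M.phi.symm c, c)) '' C) ∪ ((fun x => s(x, M.al x)) '' E) := by
    intro e
    induction e using Sym2.ind with
    | _ x y =>
      intro he
      rw [SimpleGraph.mem_edgeSet] at he
      obtain ⟨_, ⟨h3, h4⟩ | ⟨h3, h4⟩ | ⟨h3, h4⟩⟩ := he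
      · left; exact ⟨y, h4, by simp only [h3, Equiv.symm_apply_apply]⟩
      · left; exact ⟨x, h4, by simp only [h3, Equiv.symm_apply_apply]; exact Sym2.eq_swap⟩
      · right; exact ⟨x, h4, by simp only [h3]⟩
  have h3 : Nat.card (stepGraph M C E hE).edgeSet ≤ C.ncard + ((fun x => s(x, M.al x)) '' E).ncard := by
    rw [Nat.card_coe_set_eq]
    refine (Set.ncard_le_ncard h2 (Set.toFinite _)).trans ((Set.ncard_union_le _ _).trans ?_)
    exact Nat.add_le_add_right (Set.ncard_image_le (Set.toFinite _)) _
  have h4 : 2 * ((fun x => s(x, M.al x)) '' E).ncard ≤ E.ncard := by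
    have h5 := Finset.mul_card_image_le_card (f := fun x => s(x, M.al x)) E.toFinite.toFinset 2 (by
      intro b hb
      rw [Finset.mem_image] at hb
      obtain ⟨x, hx, rfl⟩ := hb
      rw [Set.Finite.mem_toFinset] at hx
      rw [← Finset.card_pair (M.al_ne x).symm]
      apply Finset.card_le_card
      intro z hz
      rw [Finset.mem_insert, Finset.mem_singleton] at hz
      rw [Finset.mem_filter, Set.Finite.mem_toFinset]
      rcases hz with rfl | rfl
      · exact ⟨hx, rfl⟩
      · refine ⟨hE x hx, ?_⟩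
        rw [M.al_al]; exact Sym2.eq_swap)
    have h6 : ((fun x => s(x, M.al x)) '' E).ncard = (E.toFinite.toFinset.image (fun x => s(x, M.al x))).card := by
      rw [← Set.ncard_coe_finset, Finset.coe_image, Set.Finite.coe_toFinset]
    rw [h6, Set.ncard_eq_toFinset_card E E.toFinite]
    exact h5
  omega

variable {M : PMap D V F} {s : V} {R : Rad M s} (K : Frc M R)

private lemma TN_pf_ne_pv (g : F) {v : V} (hv : v ≠ s) : R.pf g ≠ R.pv v := by
  intro h
  have h1 := R.pf_tail g
  have h2 := R.pv_face v hv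
  rw [h, R.pv_tail v hv] at h1
  rw [← h, R.pf_face] at h2
  omega

private lemma TN_CT_card [Fintype D] [Fintype V] [Fintype F] :
    {c | K.CT c}.ncard = Fintype.card F + {v : V | v ≠ s ∧ K.rep v = v}.ncard := by
  classical
  have h1 : {c | K.CT c} = Set.range R.pf ∪ R.pv '' {v : V | v ≠ s ∧ K.rep v = v} := by
    ext c
    simp only [Set.mem_setOf_eq, Set.mem_union, Set.mem_range, Set.mem_image]
    constructor
    · rintro (h | ⟨h1, h2, h3⟩)
      · exact Or.inl ⟨_, h.symm⟩
      · exact Or.inr ⟨_, ⟨h1, h2⟩, h3.symm⟩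
    · rintro (⟨g, rfl⟩ | ⟨v, ⟨h1, h2⟩, rfl⟩)
      · left; rw [R.pf_face]
      · right; rw [R.pv_tail v h1]; exact ⟨h1, h2, rfl⟩
  rw [h1, Set.ncard_union_eq _ (Set.toFinite _) (Set.toFinite _)]
  · congr 1
    · rw [← Set.image_univ, Set.ncard_image_of_injective _ (fun a b hab => by
        rw [← R.pf_face a, hab, R.pf_face])]
      rw [Set.ncard_univ, Nat.card_eq_fintype_card]
    · exact Set.ncard_image_of_injOn (fun a ha b hb hab => by
        rw [← R.pv_tail a ha.1, hab, R.pv_tail b hb.1])
  · rw [Set.disjoint_left]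
    rintro c ⟨g, rfl⟩ ⟨v, hv, hc⟩
    exact TN_pf_ne_pv g hv.1 hc.symm

private lemma TN_ET_card [Fintype D] [Fintype V] :
    {x | K.ET x}.ncard = 2 * {v : V | K.rep v ≠ v}.ncard := by
  classical
  have h1 : {x | K.ET x} = K.pe '' {v : V | K.rep v ≠ v} ∪ (fun v => M.al (K.pe v)) '' {v : V | K.rep v ≠ v} := by
    ext c
    simp only [Set.mem_setOf_eq, Set.mem_union, Set.mem_image]
    constructor
    · rintro (⟨h1, h2⟩ | ⟨h1, h2⟩)
      · exact Or.inl ⟨_, h1, h2⟩
      · exact Or.inr ⟨_, h1, by rw [h2, M.al_al]⟩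
    · rintro (⟨v, h1, rfl⟩ | ⟨v, h1, rfl⟩)
      · left; rw [K.pe_tail v h1]; exact ⟨h1, rfl⟩
      · right; rw [M.head_al, K.pe_tail v h1, M.al_al]; exact ⟨h1, rfl⟩
  rw [h1, Set.ncard_union_eq _ (Set.toFinite _) (Set.toFinite _), two_mul]
  · congr 1
    · exact Set.ncard_image_of_injOn (fun a ha b hb hab => by
        rw [← K.pe_tail a ha, hab, K.pe_tail b hb])
    · refine Set.ncard_image_of_injOn (fun a ha b hb hab => ?_)
      have h2 := congrArg M.al hab
      simp only [M.al_al] at h2
      rw [← K.pe_tail a ha, h2, K.pe_tail b hb]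
  · rw [Set.disjoint_left]
    rintro c ⟨v, hv, rfl⟩ ⟨w, hw, hc⟩
    simp only at hc
    have h2 := congrArg M.tail hc
    rw [M.tail_al, K.pe_tail v hv] at h2
    have h3 : M.tail (K.pe w) = M.head (K.pe v) := by
      rw [← M.head_al (K.pe w), hc]
    rw [K.pe_tail w hw] at h3
    have h4 := K.pe_dist v hv
    have h5 := K.pe_dist w hw
    rw [h2] at h5
    rw [← h3] at h4
    omega

theorem card_CC_EE [Fintype D] [Fintype V] [Fintype F] :
    2 * K.CC.ncard + K.EE.ncard + 2 * (Fintype.card V + Fintype.card F)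
      = 3 * Fintype.card D + 2 := by
  classical
  have h1 : K.CC.ncard + {c | K.CT c}.ncard = Fintype.card D := by
    rw [← Nat.card_eq_fintype_card, ← Set.ncard_add_ncard_compl {c | K.CT c}, Nat.add_comm]
    rfl
  have h2 : K.EE.ncard + {c | K.ET c}.ncard = Fintype.card D := by
    rw [← Nat.card_eq_fintype_card, ← Set.ncard_add_ncard_compl {c | K.ET c}, Nat.add_comm]
    rfl
  have h3 : {v : V | K.rep v ≠ v}.ncard + ({v : V | v ≠ s ∧ K.rep v = v}.ncard + 1) = Fintype.card V := by
    rw [← Nat.card_eq_fintype_card, ← Set.ncard_add_ncard_compl {v : V | K.rep v ≠ v}]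
    congr 1
    have h4 : ({v : V | K.rep v ≠ v})ᶜ = insert s {v : V | v ≠ s ∧ K.rep v = v} := by
      ext v
      simp only [Set.mem_compl_iff, Set.mem_setOf_eq, Set.mem_insert_iff, not_not]
      constructor
      · intro h
        by_cases hv : v = s
        · exact Or.inl hv
        · exact Or.inr ⟨hv, h⟩
      · rintro (rfl | h)
        · exact K.rep_s
        · exact h.2
    rw [h4, Set.ncard_insert_of_notMem (by simp) (Set.toFinite _)]
  have h4 := TN_CT_card K
  have h5 := TN_ET_card K
  omega

/-- Euler's inequality. -/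
theorem euler_le_of_conn [Fintype D] [Fintype V] [Fintype F]
    (hconn : ∀ t t', M.Conn K.CC K.EE t t') :
    2 * (Fintype.card V + Fintype.card F) ≤ Fintype.card D + 4 := by
  have h1 := card_le_of_conn M K.CC K.EE (fun x hx => K.EE_al hx) hconn
  have h2 := card_CC_EE K
  omega

theorem bridge_corner [Fintype D] [Fintype V] [Fintype F]
    (hconn : ∀ t t', M.Conn K.CC K.EE t t') (hE : M.Euler) (c : D) (hc : c ∈ K.CC) :
    ¬ M.Conn (K.CC \ {c}) K.EE (M.phi.symm c) c := by
  intro hcon
  have hsymm : ∀ x y, M.Conn (K.CC \ {c}) K.EE x y → M.Conn (K.CC \ {c}) K.EE y x := by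
    intro x y h
    induction h with
    | refl => exact ReflTransGen.refl
    | tail _ hbc ih => exact ReflTransGen.head (hbc.symm (fun x hx => K.EE_al hx)) ih
  have hall : ∀ t t', M.Conn (K.CC \ {c}) K.EE t t' := by
    intro t t'
    have h1 := hconn t t'
    induction h1 with
    | refl => exact ReflTransGen.refl
    | @tail b d _ hbc ih =>
      refine ih.trans ?_
      rcases hbc with ⟨h1, h2⟩ | ⟨h1, h2⟩ | ⟨h1, h2⟩
      · by_cases hd : d = c
        · have h3 : b = M.phi.symm c := by rw [← hd, h1, Equiv.symm_apply_apply]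
          rw [hd, h3]; exact hcon
        · exact ReflTransGen.single (Or.inl ⟨h1, h2, hd⟩)
      · by_cases hd : b = c
        · have h3 : d = M.phi.symm c := by rw [← hd, h1, Equiv.symm_apply_apply]
          rw [hd, h3]; exact hsymm _ _ hcon
        · exact ReflTransGen.single (Or.inr (Or.inl ⟨h1, h2, hd⟩))
      · exact ReflTransGen.single (Or.inr (Or.inr ⟨h1, h2⟩))
  have h1 := card_le_of_conn M _ K.EE (fun x hx => K.EE_al hx) hall
  have h2 := card_CC_EE K
  have h3 := Set.ncard_sdiff_singleton_add_one hc (Set.toFinite _)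
  unfold PMap.Euler at hE
  omega

theorem bridge_edge [Fintype D] [Fintype V] [Fintype F]
    (hconn : ∀ t t', M.Conn K.CC K.EE t t') (hE : M.Euler) (x : D) (hx : x ∈ K.EE) :
    ¬ M.Conn K.CC (K.EE \ {x, M.al x}) x (M.al x) := by
  intro hcon
  have hal : ∀ y ∈ K.EE \ {x, M.al x}, M.al y ∈ K.EE \ {x, M.al x} := by
    intro y hy
    refine ⟨K.EE_al hy.1, fun h => hy.2 ?_⟩
    rw [Set.mem_insert_iff, Set.mem_singleton_iff] at h ⊢
    rcases h with h | h
    · right; rw [← h, M.al_al]
    · left; have := congrArg M.al h; rwa [M.al_al, M.al_al] at this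
  have hsymm : ∀ a b, M.Conn K.CC (K.EE \ {x, M.al x}) a b → M.Conn K.CC (K.EE \ {x, M.al x}) b a := by
    intro x y h
    induction h with
    | refl => exact ReflTransGen.refl
    | tail _ hbc ih => exact ReflTransGen.head (hbc.symm hal) ih
  have hall : ∀ t t', M.Conn K.CC (K.EE \ {x, M.al x}) t t' := by
    intro t t'
    have h1 := hconn t t'
    induction h1 with
    | refl => exact ReflTransGen.refl
    | @tail b d _ hbc ih =>
      refine ih.trans ?_
      rcases hbc with h1 | h1 | ⟨h1, h2⟩
      · exact ReflTransGen.single (Or.inl h1)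
      · exact ReflTransGen.single (Or.inr (Or.inl h1))
      · by_cases hb : b = x
        · rw [h1, hb]; exact hcon
        · by_cases hb2 : b = M.al x
          · rw [h1, hb2, M.al_al]; exact hsymm _ _ hcon
          · exact ReflTransGen.single (Or.inr (Or.inr ⟨h1, h2, by simp [hb, hb2]⟩))
  have h1 := card_le_of_conn M _ _ hal hall
  have h2 := card_CC_EE K
  have h3 : (K.EE \ {x, M.al x}).ncard + 2 = K.EE.ncard := by
    have h4 : ({x, M.al x} : Set D) ⊆ K.EE := by
      intro y hy
      rw [Set.mem_insert_iff, Set.mem_singleton_iff] at hy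
      rcases hy with rfl | rfl
      · exact hx
      · exact K.EE_al hx
    rw [← Set.ncard_sdiff_add_ncard_of_subset h4 (Set.toFinite _), Set.ncard_pair (M.al_ne x).symm]
  unfold PMap.Euler at hE
  omega

end Pool.Agent.PFire
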