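import Pool.Agent.Lib.PFire.SpecFrc
import Pool.Agent.Lib.PFire.TopoConn
import Pool.Agent.Lib.PFire.TopoCount

/-!
# Euler's inequality for rotation lists
-/

set_option autoImplicit false

namespace Pool.Agent.PFire

theorem rot_euler_le {rot : Rot} {s : ℕ} (h : RotValid rot s) (hne : darts rot s ≠ []) :
    2 * ((comp rot s).length + (faces rot s).length) ≤ (darts rot s).length + 4 := by
  have h1 := euler_le_of_conn (rawFrc h hne 0 0) (cotree_conn (rawFrc h hne 0 0))
  rwa [card_DD h, card_VV, card_FF h] at h1

end Pool.Agent.PFire
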