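import Pool.Agent.Lib.PFire.TopoBase

/-!
# Chunk PH: on a plane map every even set of edges is a boundary

Dimension count over `ZMod 2`.  Let `E` = functions `Z : D → ZMod 2` with `Z (al d) = Z d`
(dimension `|D| / 2`), `∂ : E → (V → ZMod 2)`, `(∂ Z) v = ∑_{tail d = v} Z d`, and
`δ : (F → ZMod 2) → E`, `(δ c) d = c (face d) + c (face (al d))`.
`δ c` is in the kernel of `∂` (around a vertex: `face (al d) = face (sg d)`, so the sum telescopes).
The kernel of `δ` is the constants: the faces are connected by crossing edges, since all darts are connected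
by `al` and `phi`; so `rank δ = |F| - 1`.  The image of `∂` contains `δ_u + δ_v` for all `u, v`
(connectedness), so `rank ∂ ≥ |V| - 1`, `dim ker ∂ ≤ |D| / 2 - |V| + 1 = |F| - 1` by Euler's formula.
Hence `range δ = ker ∂`.
-/

set_option autoImplicit false

namespace Pool.Agent.PFire

open Relation

variable {D V F : Type}

namespace PH

/-- Reversal as a permutation. -/
def alE (M : PMap D V F) : Equiv.Perm D := ⟨M.al, M.al, M.al_al, M.al_al⟩

/-- Rotation as a permutation. -/
def sgE (M : PMap D V F) : Equiv.Perm D := (alE M).trans M.phi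

theorem sgE_apply (M : PMap D V F) (d : D) : sgE M d = M.sg d := rfl

theorem tail_sg (M : PMap D V F) (d : D) : M.tail (M.sg d) = M.tail d := by
  unfold PMap.sg
  rw [M.tail_phi, M.al_al]

theorem face_sg (M : PMap D V F) (d : D) : M.face (M.sg d) = M.face (M.al d) := by
  unfold PMap.sg
  rw [M.face_phi]

theorem two (x : ZMod 2) : x + x = 0 := CharTwo.add_self_eq_zero x

theorem span_one {W : Type} [AddCommGroup W] [Module (ZMod 2) W] (x : W) :
    Module.finrank (ZMod 2) (Submodule.span (ZMod 2) {x}) ≤ 1 := by
  have h := finrank_span_le_card (R := ZMod 2) ({x} : Set W)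
  simpa using h

/-- A function of the faces which does not change across the edges is constant. -/
theorem const_of (M : PMap D V F) (hconn : ∀ v w, ReflTransGen M.Adj v w) (c : F → ZMod 2)
    (h : ∀ d, c (M.face d) = c (M.face (M.al d))) (d d' : D) :
    c (M.face d) = c (M.face d') := by
  have h1 : ∀ d, c (M.face (M.sg d)) = c (M.face d) := by
    intro d
    rw [face_sg, ← h]
  have h2 : ∀ (n : ℕ) (d : D), c (M.face ((fun x => M.phi (M.al x))^[n] d)) = c (M.face d) := by
    intro n
    induction n with
    | zero => intro d; rfl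
    | succ n ih =>
      intro d
      rw [Function.iterate_succ_apply, ih]
      exact h1 d
  have h3 : ∀ d d', M.tail d = M.tail d' → c (M.face d) = c (M.face d') := by
    intro d d' ht
    obtain ⟨n, hn⟩ := M.tail_orbit d d' ht
    rw [← hn, h2]
  have key : ∀ w, ReflTransGen M.Adj (M.tail d) w → ∀ e, M.tail e = w →
      c (M.face d) = c (M.face e) := by
    intro w hw
    induction hw with
    | refl => intro e he; exact h3 _ _ he.symm
    | tail _ hs ih =>
      intro e he
      obtain ⟨x, hx1, hx2⟩ := hs
      rw [ih x hx1, h x]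
      refine h3 _ _ ?_
      rw [he]
      exact hx2
  exact key _ (hconn _ _) d' rfl

section

set_option linter.unusedSectionVars false

open Classical

variable [Fintype D] [Fintype V] [Fintype F]

/-- `Z d + Z (al d)`. -/
noncomputable def A (M : PMap D V F) : (D → ZMod 2) →ₗ[ZMod 2] (D → ZMod 2) :=
  LinearMap.id + LinearMap.funLeft (ZMod 2) (ZMod 2) M.al

theorem A_apply (M : PMap D V F) (Z : D → ZMod 2) (d : D) : A M Z d = Z d + Z (M.al d) := rfl

theorem mem_ker_A (M : PMap D V F) (Z : D → ZMod 2) :
    Z ∈ LinearMap.ker (A M) ↔ ∀ d, Z (M.al d) = Z d := by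
  rw [LinearMap.mem_ker]
  constructor
  · intro h d
    have h1 := congrFun h d
    rw [A_apply] at h1
    exact (CharTwo.add_eq_zero.1 h1).symm
  · intro h
    funext d
    rw [A_apply, h]
    exact two _

/-- The boundary. -/
noncomputable def bd (M : PMap D V F) : (D → ZMod 2) →ₗ[ZMod 2] (V → ZMod 2) where
  toFun Z v := ∑ d ∈ Finset.univ.filter (fun d => M.tail d = v), Z d
  map_add' Z Z' := by
    funext v
    simp [Finset.sum_add_distrib]
  map_smul' a Z := by
    funext v
    simp [Finset.mul_sum]

theorem bd_apply (M : PMap D V F) (Z : D → ZMod 2) (v : V) :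
    bd M Z v = ∑ d ∈ Finset.univ.filter (fun d => M.tail d = v), Z d := rfl

/-- The coboundary. -/
noncomputable def cb (M : PMap D V F) : (F → ZMod 2) →ₗ[ZMod 2] (D → ZMod 2) :=
  LinearMap.funLeft (ZMod 2) (ZMod 2) M.face +
    LinearMap.funLeft (ZMod 2) (ZMod 2) (fun d => M.face (M.al d))

theorem cb_apply (M : PMap D V F) (c : F → ZMod 2) (d : D) :
    cb M c d = c (M.face d) + c (M.face (M.al d)) := rfl

theorem cb_mem (M : PMap D V F) (c : F → ZMod 2) : cb M c ∈ LinearMap.ker (A M) := by
  rw [mem_ker_A]
  intro d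
  rw [cb_apply, cb_apply, M.al_al, add_comm]

theorem bd_cb (M : PMap D V F) (c : F → ZMod 2) : bd M (cb M c) = 0 := by
  funext v
  rw [bd_apply]
  simp only [cb_apply, Finset.sum_add_distrib]
  have h : ∑ d ∈ Finset.univ.filter (fun d => M.tail d = v), c (M.face (M.al d)) =
      ∑ d ∈ Finset.univ.filter (fun d => M.tail d = v), c (M.face d) := by
    rw [Finset.sum_filter, Finset.sum_filter,
      ← Equiv.sum_comp (sgE M) (fun d => if M.tail d = v then c (M.face d) else 0)]
    refine Finset.sum_congr rfl fun d _ => ?_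
    rw [sgE_apply, tail_sg, face_sg]
  rw [h]
  exact two _

theorem range_A (M : PMap D V F) : LinearMap.range (A M) = LinearMap.ker (A M) := by
  apply le_antisymm
  · rintro _ ⟨Z, rfl⟩
    rw [mem_ker_A]
    intro d
    rw [A_apply, A_apply, M.al_al, add_comm]
  · intro Z hZ
    rw [mem_ker_A] at hZ
    let e := Fintype.equivFin D
    refine ⟨fun d => if e d < e (M.al d) then Z d else 0, ?_⟩
    funext d
    rw [A_apply]
    simp only [M.al_al, hZ]
    have hne : e d ≠ e (M.al d) := fun h => M.al_ne d (e.injective h).symm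
    rcases lt_or_gt_of_ne hne with h | h
    · rw [if_pos h, if_neg (not_lt.2 h.le), add_zero]
    · rw [if_neg (not_lt.2 h.le), if_pos h, zero_add]

theorem dim_E (M : PMap D V F) :
    2 * Module.finrank (ZMod 2) (LinearMap.ker (A M)) = Fintype.card D := by
  have h := LinearMap.finrank_range_add_finrank_ker (A M)
  rw [range_A, Module.finrank_fintype_fun_eq_card] at h
  omega

/-- The boundary on symmetric functions. -/
noncomputable def bdE (M : PMap D V F) : LinearMap.ker (A M) →ₗ[ZMod 2] (V → ZMod 2) :=
  (bd M).comp (LinearMap.ker (A M)).subtype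

/-- The coboundary with values in the symmetric functions. -/
noncomputable def cbE (M : PMap D V F) : (F → ZMod 2) →ₗ[ZMod 2] LinearMap.ker (A M) :=
  (cb M).codRestrict _ (cb_mem M)

theorem rank_bd (M : PMap D V F) (hconn : ∀ v w, ReflTransGen M.Adj v w) :
    Fintype.card V ≤ Module.finrank (ZMod 2) (LinearMap.range (bdE M)) + 1 := by
  rcases isEmpty_or_nonempty V with hV | ⟨⟨v₀⟩⟩
  · rw [Fintype.card_eq_zero]
    exact Nat.zero_le _
  have h1 : ∀ d : D, (Pi.single (M.tail d) 1 + Pi.single (M.head d) 1 : V → ZMod 2) ∈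
      LinearMap.range (bdE M) := by
    intro d
    refine ⟨⟨Pi.single d 1 + Pi.single (M.al d) 1, ?_⟩, ?_⟩
    · rw [mem_ker_A]
      intro x
      have e1 : (Pi.single d 1 : D → ZMod 2) (M.al x) = (Pi.single (M.al d) 1 : D → ZMod 2) x := by
        by_cases h : x = M.al d
        · rw [h, M.al_al, Pi.single_eq_same, Pi.single_eq_same]
        · rw [Pi.single_eq_of_ne h, Pi.single_eq_of_ne]
          intro h2
          exact h (by rw [← h2, M.al_al])
      have e2 : (Pi.single (M.al d) 1 : D → ZMod 2) (M.al x) = (Pi.single d 1 : D → ZMod 2) x := by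
        by_cases h : x = d
        · rw [h, Pi.single_eq_same, Pi.single_eq_same]
        · rw [Pi.single_eq_of_ne h, Pi.single_eq_of_ne]
          intro h2
          exact h (by rw [← M.al_al x, h2, M.al_al])
      rw [Pi.add_apply, Pi.add_apply, e1, e2, add_comm]
    · have h2 : ∀ x : D, bd M (Pi.single x 1) = Pi.single (M.tail x) 1 := by
        intro x
        funext v
        rw [bd_apply, Finset.sum_filter]
        by_cases hv : v = M.tail x
        · rw [hv, Pi.single_eq_same, Finset.sum_eq_single x]
          · rw [if_pos rfl, Pi.single_eq_same]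
          · intro y _ hy
            rw [Pi.single_eq_of_ne hy, ite_self]
          · intro h; exact absurd (Finset.mem_univ _) h
        · rw [Pi.single_eq_of_ne hv]
          refine Finset.sum_eq_zero fun y _ => ?_
          by_cases hy : y = x
          · rw [hy, if_neg (fun h => hv h.symm)]
          · rw [Pi.single_eq_of_ne hy, ite_self]
      show bd M (Pi.single d 1 + Pi.single (M.al d) 1) = _
      rw [map_add, h2, h2]
      rfl
  have h3 : ∀ u, (Pi.single v₀ 1 + Pi.single u 1 : V → ZMod 2) ∈ LinearMap.range (bdE M) := by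
    intro u
    have hu := hconn v₀ u
    induction hu with
    | refl =>
      have : (Pi.single v₀ 1 + Pi.single v₀ 1 : V → ZMod 2) = 0 := by
        funext v
        exact two _
      rw [this]
      exact Submodule.zero_mem _
    | tail _ hs ih =>
      obtain ⟨x, hx1, hx2⟩ := hs
      have h4 := Submodule.add_mem _ ih (h1 x)
      rw [hx1, hx2] at h4
      refine (congrArg (· ∈ LinearMap.range (bdE M)) ?_).mp h4
      funext v
      simp only [Pi.add_apply]
      have h5 := fun a : ZMod 2 => two a
      generalize (Pi.single v₀ 1 : V → ZMod 2) v = a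
      generalize (Pi.single _ 1 : V → ZMod 2) v = b
      generalize (Pi.single _ 1 : V → ZMod 2) v = c
      have : a + b + (b + c) = a + (b + b) + c := by ring
      rw [this, two, add_zero]
  have h6 : (⊤ : Submodule (ZMod 2) (V → ZMod 2)) ≤
      LinearMap.range (bdE M) ⊔ Submodule.span (ZMod 2) {Pi.single v₀ 1} := by
    intro f _
    rw [← Finset.univ_sum_single f]
    refine Submodule.sum_mem _ fun u _ => ?_
    have e : (Pi.single u (f u) : V → ZMod 2) = f u • (Pi.single v₀ 1 + Pi.single u 1) +
        f u • Pi.single v₀ 1 := by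
      funext v
      simp only [Pi.add_apply, Pi.smul_apply, smul_eq_mul]
      have : (Pi.single u (f u) : V → ZMod 2) v = f u * (Pi.single u 1 : V → ZMod 2) v := by
        by_cases h : v = u
        · rw [h, Pi.single_eq_same, Pi.single_eq_same, mul_one]
        · rw [Pi.single_eq_of_ne h, Pi.single_eq_of_ne h, mul_zero]
      rw [this]
      generalize (Pi.single v₀ 1 : V → ZMod 2) v = a
      generalize (Pi.single u 1 : V → ZMod 2) v = b
      have : f u * (a + b) + f u * a = (f u * a + f u * a) + f u * b := by ring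
      rw [this, two, zero_add]
    rw [e]
    exact Submodule.add_mem _ (Submodule.mem_sup_left (Submodule.smul_mem _ _ (h3 u)))
      (Submodule.mem_sup_right (Submodule.smul_mem _ _ (Submodule.mem_span_singleton_self _)))
  have h7 := Submodule.finrank_mono h6
  rw [finrank_top, Module.finrank_fintype_fun_eq_card] at h7
  have h8 := Submodule.finrank_add_le_finrank_add_finrank (LinearMap.range (bdE M))
    (Submodule.span (ZMod 2) {(Pi.single v₀ 1 : V → ZMod 2)})
  have h9 : Module.finrank (ZMod 2) (Submodule.span (ZMod 2) {(Pi.single v₀ 1 : V → ZMod 2)}) ≤ 1 :=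
    span_one _
  omega

theorem ker_cb (M : PMap D V F) (hconn : ∀ v w, ReflTransGen M.Adj v w) :
    Module.finrank (ZMod 2) (LinearMap.ker (cbE M)) ≤ 1 := by
  have h : LinearMap.ker (cbE M) ≤ Submodule.span (ZMod 2) {fun _ => 1} := by
    intro c hc
    have h1 : ∀ d, c (M.face d) = c (M.face (M.al d)) := by
      intro d
      rw [LinearMap.mem_ker] at hc
      have h2 := congrFun (congrArg Subtype.val hc) d
      exact CharTwo.add_eq_zero.1 h2
    have h2 := const_of M hconn c h1
    rw [Submodule.mem_span_singleton]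
    rcases isEmpty_or_nonempty D with hD | ⟨⟨d₀⟩⟩
    · refine ⟨0, ?_⟩
      funext g
      obtain ⟨d, _⟩ := M.face_surj g
      exact hD.elim d
    · refine ⟨c (M.face d₀), ?_⟩
      funext g
      obtain ⟨d, rfl⟩ := M.face_surj g
      simp [h2 d₀ d]
  exact (Submodule.finrank_mono h).trans (span_one _)

end

end PH

open Classical in
theorem boundary_of_even [Fintype D] [Fintype V] [Fintype F] (M : PMap D V F) (hE : M.Euler)
    (hconn : ∀ v w, ReflTransGen M.Adj v w) (Z : D → ZMod 2) (hsym : ∀ d, Z (M.al d) = Z d)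
    (heven : ∀ v, ∑ d ∈ Finset.univ.filter (fun d => M.tail d = v), Z d = 0) :
    ∃ c : F → ZMod 2, ∀ d, Z d = c (M.face d) + c (M.face (M.al d)) := by
  have h1 : LinearMap.range (PH.cbE M) ≤ LinearMap.ker (PH.bdE M) := by
    rintro _ ⟨c, rfl⟩
    rw [LinearMap.mem_ker]
    exact PH.bd_cb M c
  have h2 := LinearMap.finrank_range_add_finrank_ker (PH.bdE M)
  have h3 := LinearMap.finrank_range_add_finrank_ker (PH.cbE M)
  rw [Module.finrank_fintype_fun_eq_card] at h3
  have h4 := PH.dim_E M
  have h5 := PH.rank_bd M hconn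
  have h6 := PH.ker_cb M hconn
  unfold PMap.Euler at hE
  have h7 : LinearMap.range (PH.cbE M) = LinearMap.ker (PH.bdE M) :=
    Submodule.eq_of_le_of_finrank_le h1 (by omega)
  have hZ : Z ∈ LinearMap.ker (PH.A M) := (PH.mem_ker_A M Z).2 hsym
  have h8 : (⟨Z, hZ⟩ : LinearMap.ker (PH.A M)) ∈ LinearMap.ker (PH.bdE M) := by
    rw [LinearMap.mem_ker]
    funext v
    exact heven v
  rw [← h7] at h8
  obtain ⟨c, hc⟩ := h8
  refine ⟨c, fun d => ?_⟩
  have h9 := congrFun (congrArg Subtype.val hc) d
  exact h9.symm

end Pool.Agent.PFire
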