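import Pool.Agent.Lib.PFire.Raw

/-!
# A polynomial time embedding algorithm for planar graphs (left-right algorithm): raw list functions

`g` = adjacency lists, `s` = root.
* `dfs g s`: depth first search tree, list of pairs (vertex, parent), last visited vertex first.
* `backs`: the back edges, as darts from the lower end to the upper end (a strict ancestor).
* directions at `v`: the darts to the children and the back edges leaving `v` upwards.
* `thru x e`: the back edge `e` goes through the direction `x` to a strict ancestor of `x.1`.
* `col e`: side of the back edge `e` (`true` = left), computed by 2-colouring the graph of the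
  constraints `sameC`, `diffC`.
* `seqTab`: for each vertex `v` the sequence of the back edges from the subtree of `v` to strict ancestors of
  `v`, from left to right: first the left ones with decreasing depth of the upper end, then the right ones
  with increasing depth.
* `embed g s`: the rotation lists.
-/

set_option autoImplicit false

namespace Pool.Agent.PFire

open Pool.Agent.PolyTime

/-! ### Depth first search -/

/-- one step: visited pairs (vertex, parent), and the stack -/
def dfsStep (g : Rot) (st : List (ℕ × ℕ) × List ℕ) : List (ℕ × ℕ) × List ℕ :=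
  match st.2 with
  | [] => st
  | v :: stk =>
    match (nbrs g v).find? fun w => decide (w ∉ st.1.map Prod.fst) with
    | some w => ((w, v) :: st.1, w :: v :: stk)
    | none => (st.1, stk)

def dfs (g : Rot) (s : ℕ) : List (ℕ × ℕ) := ((dfsStep g)^[2 * g.length] ([(s, s)], [s])).1

def par (g : Rot) (s v : ℕ) : ℕ := ((dfs g s).lookup v).getD v

/-- pairs (vertex, parent) without the root -/
def ancE (g : Rot) (s : ℕ) : List (ℕ × ℕ) := (dfs g s).filter fun p => decide (p.1 ≠ s)

/-- `a` is an ancestor of `v` or `a = v` -/
def isAnc (g : Rot) (s a v : ℕ) : Bool := decide (a ∈ reach (ancE g s) v)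

/-- number of ancestors of `v`, with `v` -/
def dep (g : Rot) (s v : ℕ) : ℕ := ((comp g s).filter fun a => isAnc g s a v).length

/-- back edges: darts from the lower end to the upper end -/
def backs (g : Rot) (s : ℕ) : List Nd :=
  (darts g s).filter fun e => isAnc g s e.2 e.1 && decide (e.2 ≠ par g s e.1)

/-- the dart `d` goes from a vertex to a child -/
def isChild (g : Rot) (s : ℕ) (d : Nd) : Bool := decide (par g s d.2 = d.1) && decide (d.2 ≠ s)

/-! ### The constraints -/

/-- the back edge `e` goes through the direction `x` to a strict ancestor of `x.1` -/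
def thru (g : Rot) (s : ℕ) (x e : Nd) : Bool :=
  decide (e ∈ backs g s) && (decide (x = e) ||
    (decide (x ∈ darts g s) && isChild g s x && isAnc g s x.2 e.1 && isAnc g s e.2 x.1 &&
      decide (e.2 ≠ x.1)))

/-- some back edge through `y` has a higher upper end than `e` (smaller depth) -/
def lower (g : Rot) (s : ℕ) (y e : Nd) : Bool :=
  (backs g s).any fun f => thru g s y f && decide (dep g s f.2 < dep g s e.2)

def sameC (g : Rot) (s : ℕ) (e f : Nd) : Bool :=
  (darts g s).any fun x => (darts g s).any fun y =>
    decide (x.1 = y.1) && decide (x ≠ y) && thru g s x e && thru g s x f && lower g s y e &&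
      lower g s y f

def diffC (g : Rot) (s : ℕ) (e f : Nd) : Bool :=
  (darts g s).any fun x => (darts g s).any fun y =>
    decide (x.1 = y.1) && decide (x ≠ y) && thru g s x e && thru g s y f && lower g s y e &&
      lower g s x f

/-- the graph of the constraints -/
def colE (g : Rot) (s : ℕ) : List ((Nd × Bool) × (Nd × Bool)) :=
  (backs g s).flatMap fun e => (backs g s).flatMap fun f =>
    (if sameC g s e f = true then [((e, true), (f, true)), ((e, false), (f, false))] else []) ++
    (if diffC g s e f = true then [((e, true), (f, false)), ((e, false), (f, true))] else [])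

/-- the first back edge in the component of `e` of the constraint graph -/
def colRep (g : Rot) (s : ℕ) (e : Nd) : Nd :=
  ((backs g s).find? fun r => decide ((e, true) ∈ reach (colE g s) (r, true)) ||
    decide ((e, false) ∈ reach (colE g s) (r, true))).getD e

/-- the side of the back edge `e`: `true` = left -/
def col (g : Rot) (s : ℕ) (e : Nd) : Bool :=
  decide ((e, true) ∈ reach (colE g s) (colRep g s e, true))

/-! ### The sequences -/

/-- `e` may stand to the left of `f` -/
def leq (g : Rot) (s : ℕ) (e f : Nd) : Bool :=
  (col g s e || !(col g s f)) &&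
  (!(col g s e && col g s f) || decide (dep g s f.2 ≤ dep g s e.2)) &&
  (col g s e || col g s f || decide (dep g s e.2 ≤ dep g s f.2))

/-- the directions at `v` -/
def dirs (g : Rot) (s v : ℕ) : List Nd :=
  ((nbrs g v).map fun w => (v, w)).filter fun d => isChild g s d || decide (d ∈ backs g s)

/-- the back edges through the direction `d`, from left to right -/
def dirSeq (g : Rot) (s : ℕ) (tbl : List (ℕ × List Nd)) (d : Nd) : List Nd :=
  if d ∈ backs g s then [d]
  else ((tbl.lookup d.2).getD []).filter fun e => decide (e.2 ≠ d.1)

def dle (g : Rot) (s : ℕ) (tbl : List (ℕ × List Nd)) (x y : Nd) : Bool :=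
  (dirSeq g s tbl x).all fun e => (dirSeq g s tbl y).all fun f => leq g s e f

/-- insertion into a list sorted by `le` -/
def insBy (le : Nd → Nd → Bool) (l : List Nd) (x : Nd) : List Nd :=
  (l.takeWhile fun y => !(le x y)) ++ x :: (l.dropWhile fun y => !(le x y))

/-- the sorted directions at `v` -/
def sortD (g : Rot) (s : ℕ) (tbl : List (ℕ × List Nd)) (v : ℕ) : List Nd :=
  (((dirs g s v).filter fun d => decide (dirSeq g s tbl d ≠ [])).foldl
    (insBy (dle g s tbl)) []) ++
  ((dirs g s v).filter fun d => decide (dirSeq g s tbl d = []))

def seqStep (g : Rot) (s : ℕ) (tbl : List (ℕ × List Nd)) (v : ℕ) : List (ℕ × List Nd) :=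
  (v, (sortD g s tbl v).flatMap (dirSeq g s tbl)) :: tbl

def seqTab (g : Rot) (s : ℕ) : List (ℕ × List Nd) :=
  ((dfs g s).map Prod.fst).foldl (seqStep g s) []

def seqOf (g : Rot) (s v : ℕ) : List Nd := ((seqTab g s).lookup v).getD []

/-! ### The rotation lists -/

/-- lower ends of the back edges of side `b` from the subtree of the child `y` to its parent `v` -/
def incs (g : Rot) (s : ℕ) (b : Bool) (v y : ℕ) : List ℕ :=
  ((seqOf g s y).filter fun e => decide (e.2 = v) && decide (col g s e = b)).map Prod.fst

def rotV (g : Rot) (s v : ℕ) : List ℕ :=
  (if v = s then [] else [par g s v]) ++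
  (sortD g s (seqTab g s) v).flatMap fun d =>
    if d ∈ backs g s then [d.2]
    else (incs g s true v d.2).reverse ++ [d.2] ++ (incs g s false v d.2).reverse

/-- the rotation lists of the component of `s` -/
def embed (g : Rot) (s : ℕ) : Rot :=
  (List.range g.length).map fun v => if v ∈ comp g s then rotV g s v else []

end Pool.Agent.PFire
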