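import Pool.Agent.Lib.PFire.LrDfs

/-!
# Chunk LC: the computed colouring

`col_ok`: let `c` be a colouring which satisfies the constraints.  If `(f, b')` is reachable from `(e, b)`
in `colE` then `c e xor b = c f xor b'`.  So (with `r = colRep e`) `col e = c e xor c r xor true` (exactly
one of `(e, true)`, `(e, false)` is reachable from `(r, true)`), and `sameC e f` or `diffC e f` imply
`colRep e = colRep f`.  (The relation `colE` is symmetric: `sameC`, `diffC` are symmetric.)

`col_aligned`: `Q v` = the back edges from the subtree of `v` to strict ancestors of `v`.  Suppose `e, f ∈ Q v`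
have upper ends of the smallest depth among `Q v`.  If `lower y e` holds for a direction `y` at a vertex
`u` with `e` through a direction `x ≠ y` at `u`, then `u` is a strict ancestor of `v` (otherwise the
higher back edge through `y` belongs to `Q v`), `v` is below `x`, so `f` is also through `x`, and
`lower y f`; hence `sameC e f`.  If there is no such `y` for `e` and none for `f` then `e` and `f` are
isolated in `colE` and both have the colour `true`.
-/

set_option autoImplicit false

namespace Pool.Agent.PFire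

open Pool.Agent.PolyTime

variable {g : Rot} {s : ℕ}

/-- The colouring `c` of the back edges satisfies the constraints. -/
def ColOK (g : Rot) (s : ℕ) (c : Nd → Bool) : Prop :=
  ∀ e ∈ backs g s, ∀ f ∈ backs g s,
    (sameC g s e f = true → c e = c f) ∧ (diffC g s e f = true → c e ≠ c f)

/-! ### the graph of the constraints -/

lemma lc_sameC_iff {e f : Nd} : sameC g s e f = true ↔ ∃ x ∈ darts g s, ∃ y ∈ darts g s,
    x.1 = y.1 ∧ x ≠ y ∧ thru g s x e = true ∧ thru g s x f = true ∧ lower g s y e = true ∧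
      lower g s y f = true := by
  unfold sameC
  simp only [List.any_eq_true, Bool.and_eq_true, decide_eq_true_iff]
  constructor
  · rintro ⟨x, hx, y, hy, ⟨⟨⟨⟨⟨a, b⟩, c⟩, d⟩, e⟩, f⟩⟩
    exact ⟨x, hx, y, hy, a, b, c, d, e, f⟩
  · rintro ⟨x, hx, y, hy, a, b, c, d, e, f⟩
    exact ⟨x, hx, y, hy, ⟨⟨⟨⟨⟨a, b⟩, c⟩, d⟩, e⟩, f⟩⟩

lemma lc_diffC_iff {e f : Nd} : diffC g s e f = true ↔ ∃ x ∈ darts g s, ∃ y ∈ darts g s,
    x.1 = y.1 ∧ x ≠ y ∧ thru g s x e = true ∧ thru g s y f = true ∧ lower g s y e = true ∧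
      lower g s x f = true := by
  unfold diffC
  simp only [List.any_eq_true, Bool.and_eq_true, decide_eq_true_iff]
  constructor
  · rintro ⟨x, hx, y, hy, ⟨⟨⟨⟨⟨a, b⟩, c⟩, d⟩, e⟩, f⟩⟩
    exact ⟨x, hx, y, hy, a, b, c, d, e, f⟩
  · rintro ⟨x, hx, y, hy, a, b, c, d, e, f⟩
    exact ⟨x, hx, y, hy, ⟨⟨⟨⟨⟨a, b⟩, c⟩, d⟩, e⟩, f⟩⟩

lemma lc_sameC_symm {e f : Nd} (h : sameC g s e f = true) : sameC g s f e = true := by
  obtain ⟨x, hx, y, hy, a, b, c, d, e, f⟩ := lc_sameC_iff.1 h
  exact lc_sameC_iff.2 ⟨x, hx, y, hy, a, b, d, c, f, e⟩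

lemma lc_diffC_symm {e f : Nd} (h : diffC g s e f = true) : diffC g s f e = true := by
  obtain ⟨x, hx, y, hy, a, b, c, d, e, f⟩ := lc_diffC_iff.1 h
  exact lc_diffC_iff.2 ⟨y, hy, x, hx, a.symm, b.symm, d, c, f, e⟩

lemma lc_mem_colE {p q : Nd × Bool} : (p, q) ∈ colE g s ↔
    p.1 ∈ backs g s ∧ q.1 ∈ backs g s ∧
      ((sameC g s p.1 q.1 = true ∧ p.2 = q.2) ∨ (diffC g s p.1 q.1 = true ∧ p.2 = !q.2)) := by
  unfold colE
  simp only [List.mem_flatMap, List.mem_append]
  constructor
  · rintro ⟨e, he, f, hf, h | h⟩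
    · by_cases hs : sameC g s e f = true
      · rw [if_pos hs] at h
        simp only [List.mem_cons, List.not_mem_nil, or_false, Prod.mk.injEq] at h
        rcases h with ⟨rfl, rfl⟩ | ⟨rfl, rfl⟩
        · exact ⟨he, hf, Or.inl ⟨hs, rfl⟩⟩
        · exact ⟨he, hf, Or.inl ⟨hs, rfl⟩⟩
      · rw [if_neg hs] at h
        simp at h
    · by_cases hs : diffC g s e f = true
      · rw [if_pos hs] at h
        simp only [List.mem_cons, List.not_mem_nil, or_false, Prod.mk.injEq] at h
        rcases h with ⟨rfl, rfl⟩ | ⟨rfl, rfl⟩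
        · exact ⟨he, hf, Or.inr ⟨hs, rfl⟩⟩
        · exact ⟨he, hf, Or.inr ⟨hs, rfl⟩⟩
      · rw [if_neg hs] at h
        simp at h
  · obtain ⟨e, b⟩ := p
    obtain ⟨f, b'⟩ := q
    rintro ⟨he, hf, ⟨hs, hb⟩ | ⟨hs, hb⟩⟩
    · refine ⟨e, he, f, hf, Or.inl ?_⟩
      rw [if_pos hs]
      simp only at hb
      subst hb
      cases b <;> simp
    · refine ⟨e, he, f, hf, Or.inr ?_⟩
      rw [if_pos hs]
      simp only at hb
      subst hb
      cases b' <;> simp

/-- reachability in the graph of the constraints -/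
def lcR (g : Rot) (s : ℕ) (p q : Nd × Bool) : Prop :=
  Relation.ReflTransGen (fun a b => (a, b) ∈ colE g s) p q

lemma lc_R_symm {p q : Nd × Bool} (h : lcR g s p q) : lcR g s q p := by
  unfold lcR at *
  induction h with
  | refl => exact Relation.ReflTransGen.refl
  | tail _ hbc ih =>
    refine Relation.ReflTransGen.head ?_ ih
    rw [lc_mem_colE] at hbc ⊢
    obtain ⟨h1, h2, h3⟩ := hbc
    refine ⟨h2, h1, ?_⟩
    rcases h3 with ⟨h3, h4⟩ | ⟨h3, h4⟩
    · exact Or.inl ⟨lc_sameC_symm h3, h4.symm⟩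
    · exact Or.inr ⟨lc_diffC_symm h3, by rw [h4, Bool.not_not]⟩

lemma lc_R_col {c : Nd → Bool} (hc : ColOK g s c) {p q : Nd × Bool} (h : lcR g s p q) :
    xor (c p.1) p.2 = xor (c q.1) q.2 := by
  unfold lcR at h
  induction h with
  | refl => rfl
  | tail _ hbc ih =>
    rw [ih]
    obtain ⟨h1, h2, h3⟩ := lc_mem_colE.1 hbc
    rcases h3 with ⟨h3, h4⟩ | ⟨h3, h4⟩
    · rw [(hc _ h1 _ h2).1 h3, h4]
    · have h5 := (hc _ h1 _ h2).2 h3
      rw [h4]
      revert h5
      generalize c _ = x
      generalize c _ = y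
      generalize Prod.snd _ = z
      cases x <;> cases y <;> cases z <;> simp

lemma lc_rep_spec {e : Nd} (he : e ∈ backs g s) : colRep g s e ∈ backs g s ∧
    (lcR g s (colRep g s e, true) (e, true) ∨ lcR g s (colRep g s e, true) (e, false)) ∧
    (backs g s).find? (fun r => decide ((e, true) ∈ reach (colE g s) (r, true)) ||
      decide ((e, false) ∈ reach (colE g s) (r, true))) = some (colRep g s e) := by
  have h1 : ((backs g s).find? fun r => decide ((e, true) ∈ reach (colE g s) (r, true)) ||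
      decide ((e, false) ∈ reach (colE g s) (r, true))).isSome := by
    rw [List.find?_isSome]
    refine ⟨e, he, ?_⟩
    have : (e, true) ∈ reach (colE g s) (e, true) := mem_reach.2 Relation.ReflTransGen.refl
    simp [this]
  obtain ⟨r, hr⟩ := Option.isSome_iff_exists.1 h1
  have hrep : colRep g s e = r := by
    unfold colRep
    rw [hr]
    rfl
  rw [hrep]
  refine ⟨List.mem_of_find?_eq_some hr, ?_, hr⟩
  have h2 := List.find?_some hr
  simp only [Bool.or_eq_true, decide_eq_true_iff, mem_reach] at h2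
  exact h2

lemma lc_rep_congr {e f : Nd} (he : e ∈ backs g s) (hf : f ∈ backs g s) {b b' : Bool}
    (h : lcR g s (e, b) (f, b')) (h' : lcR g s (e, !b) (f, !b')) :
    colRep g s e = colRep g s f := by
  have h1 := (lc_rep_spec he).2.2
  have h2 := (lc_rep_spec hf).2.2
  have h3 : (fun r => decide ((e, true) ∈ reach (colE g s) (r, true)) ||
      decide ((e, false) ∈ reach (colE g s) (r, true))) =
      (fun r => decide ((f, true) ∈ reach (colE g s) (r, true)) ||
      decide ((f, false) ∈ reach (colE g s) (r, true))) := by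
    funext r
    rw [Bool.eq_iff_iff]
    simp only [Bool.or_eq_true, decide_eq_true_iff, mem_reach]
    have k1 : ∀ x, lcR g s (e, x) (f, xor (xor b b') x) := by
      intro x
      cases b <;> cases b' <;> cases x <;> simp at h h' ⊢ <;> assumption
    have k2 : ∀ x, lcR g s (f, xor (xor b b') x) (e, x) := fun x => lc_R_symm (k1 x)
    constructor
    · rintro (h4 | h4)
      · have h5 := Relation.ReflTransGen.trans h4 (k1 true)
        cases b <;> cases b' <;> simp at h5 <;> tauto
      · have h5 := Relation.ReflTransGen.trans h4 (k1 false)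
        cases b <;> cases b' <;> simp at h5 <;> tauto
    · intro h4
      have h6 : ∃ x, lcR g s (r, true) (f, xor (xor b b') x) := by
        rcases h4 with h4 | h4
        · refine ⟨xor (xor b b') true, ?_⟩
          have : xor (xor b b') (xor (xor b b') true) = true := by
            cases b <;> cases b' <;> rfl
          rw [this]
          exact h4
        · refine ⟨xor (xor b b') false, ?_⟩
          have : xor (xor b b') (xor (xor b b') false) = false := by
            cases b <;> cases b' <;> rfl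
          rw [this]
          exact h4
      obtain ⟨x, hx⟩ := h6
      have h7 := Relation.ReflTransGen.trans hx (k2 x)
      cases x
      · exact Or.inr h7
      · exact Or.inl h7
  rw [h3, h2] at h1
  exact (Option.some.inj h1).symm

lemma lc_col_iff {e : Nd} : col g s e = true ↔ lcR g s (colRep g s e, true) (e, true) := by
  unfold col
  rw [decide_eq_true_iff, mem_reach]
  rfl

theorem col_ok (h : RotValid g s) (c : Nd → Bool) (hc : ColOK g s c) : ColOK g s (col g s) := by
  intro e he f hf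
  constructor
  · intro hs
    have h1 : ∀ b, lcR g s (e, b) (f, b) := fun b =>
      Relation.ReflTransGen.single (lc_mem_colE.2 ⟨he, hf, Or.inl ⟨hs, rfl⟩⟩)
    have h2 := lc_rep_congr he hf (h1 true) (h1 false)
    rw [Bool.eq_iff_iff, lc_col_iff, lc_col_iff, h2]
    constructor
    · intro h3
      exact Relation.ReflTransGen.trans h3 (h1 true)
    · intro h3
      exact Relation.ReflTransGen.trans h3 (lc_R_symm (h1 true))
  · intro hs
    have h1 : ∀ b, lcR g s (e, b) (f, !b) := fun b =>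
      Relation.ReflTransGen.single (lc_mem_colE.2 ⟨he, hf, Or.inr ⟨hs, by simp⟩⟩)
    have h2 := lc_rep_congr he hf (h1 true) (h1 false)
    have hf2 := (lc_rep_spec hf).2.1
    have hnot : ¬ (lcR g s (colRep g s f, true) (f, true) ∧
        lcR g s (colRep g s f, true) (f, false)) := by
      rintro ⟨a, b⟩
      have a' := lc_R_col hc a
      have b' := lc_R_col hc b
      simp only at a' b'
      rw [a'] at b'
      cases hcf : c f <;> rw [hcf] at b' <;> simp at b'
    intro heq
    rw [Bool.eq_iff_iff, lc_col_iff, lc_col_iff, h2] at heq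
    rcases hf2 with h3 | h3
    · have h4 := heq.2 h3
      exact hnot ⟨h3, Relation.ReflTransGen.trans h4 (h1 true)⟩
    · have h4 : lcR g s (colRep g s f, true) (e, true) :=
        Relation.ReflTransGen.trans h3 (lc_R_symm (h1 true))
      exact hnot ⟨heq.1 h4, h3⟩

/-- `e` is a back edge from the subtree of `v` to a strict ancestor of `v` -/
def InQ (g : Rot) (s v : ℕ) (e : Nd) : Prop :=
  e ∈ backs g s ∧ isAnc g s v e.1 = true ∧ isAnc g s e.2 v = true ∧ e.2 ≠ v

/-- `e` is in some constraint -/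
def lcCon (g : Rot) (s : ℕ) (e : Nd) : Prop :=
  ∃ x ∈ darts g s, ∃ y ∈ darts g s, x.1 = y.1 ∧ x ≠ y ∧ thru g s x e = true ∧
    lower g s y e = true

lemma lc_con_of_edge {p q : Nd × Bool} (h : (p, q) ∈ colE g s) : lcCon g s q.1 := by
  rcases (lc_mem_colE.1 h).2.2 with ⟨h1, _⟩ | ⟨h1, _⟩
  · obtain ⟨x, hx, y, hy, a, b, c, d, e, f⟩ := lc_sameC_iff.1 h1
    exact ⟨x, hx, y, hy, a, b, d, f⟩
  · obtain ⟨x, hx, y, hy, a, b, c, d, e, f⟩ := lc_diffC_iff.1 h1
    exact ⟨y, hy, x, hx, a.symm, b.symm, d, f⟩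

lemma lc_col_isolated {e : Nd} (he : e ∈ backs g s) (hcon : ¬ lcCon g s e) :
    col g s e = true := by
  have h1 : ∀ p b, lcR g s p (e, b) → p = (e, b) := by
    intro p b h
    unfold lcR at h
    rcases Relation.ReflTransGen.cases_tail h with h | ⟨q, _, hq⟩
    · exact h.symm
    · exact absurd (lc_con_of_edge hq) hcon
  have h2 : colRep g s e = e := by
    rcases (lc_rep_spec he).2.1 with h3 | h3
    · exact (Prod.mk.inj (h1 _ _ h3)).1
    · exact (Prod.mk.inj (h1 _ _ h3)).1
  rw [lc_col_iff, h2]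
  exact Relation.ReflTransGen.refl

lemma lc_anc_of_ne (h : RotValid g s) {a y : ℕ} (hy : y ∈ comp g s) (hys : y ≠ s)
    (h1 : isAnc g s a y = true) (h2 : a ≠ y) : isAnc g s a (par g s y) = true := by
  rcases (isAnc_par h hy hys a).1 h1 with h3 | h3
  · exact absurd h3 h2
  · exact h3

lemma lc_par_anc (h : RotValid g s) {y : ℕ} (hy : y ∈ comp g s) (hys : y ≠ s) :
    isAnc g s (par g s y) y = true :=
  (isAnc_par h hy hys _).2 (Or.inr (isAnc_refl _))

lemma lc_anc_of_dep (h : RotValid g s) {a b v : ℕ} (hv : v ∈ comp g s)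
    (ha : isAnc g s a v = true) (hb : isAnc g s b v = true) (hd : dep g s a ≤ dep g s b) :
    isAnc g s a b = true := by
  rcases isAnc_total h hv ha hb with h1 | h1
  · exact h1
  · by_cases hab : b = a
    · rw [hab]
      exact isAnc_refl _
    · have := dep_lt h (isAnc_mem h hv ha) h1 hab
      omega

lemma lc_mem_backs {e : Nd} : e ∈ backs g s ↔
    e ∈ darts g s ∧ isAnc g s e.2 e.1 = true ∧ e.2 ≠ par g s e.1 := by
  unfold backs
  simp [List.mem_filter]

/-- facts on `thru` -/
lemma lc_thru (h : RotValid g s) {x e : Nd} (ht : thru g s x e = true) :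
    e ∈ backs g s ∧ x.1 ∈ comp g s ∧ isAnc g s x.1 e.1 = true ∧ isAnc g s e.2 x.1 = true ∧
      e.2 ≠ x.1 := by
  unfold thru at ht
  simp only [Bool.and_eq_true, Bool.or_eq_true, decide_eq_true_iff] at ht
  obtain ⟨h1, h2 | h2⟩ := ht
  · subst h2
    obtain ⟨b1, b2, b3⟩ := lc_mem_backs.1 h1
    refine ⟨h1, fst_mem h b1, isAnc_refl _, b2, ?_⟩
    intro h3
    have h4 := ((mem_darts h).1 b1).2
    rw [h3] at h4
    exact h.irrefl _ h4
  · obtain ⟨⟨⟨⟨h3, h4⟩, h5⟩, h6⟩, h7⟩ := h2
    unfold isChild at h4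
    simp only [Bool.and_eq_true, decide_eq_true_iff] at h4
    have h8 := lc_par_anc h (snd_mem h h3) h4.2
    rw [h4.1] at h8
    exact ⟨h1, fst_mem h h3, isAnc_trans h8 h5, h6, h7⟩

lemma lc_same_of_con (h : RotValid g s) {v : ℕ} (hv : v ∈ comp g s) {e f : Nd}
    (he : InQ g s v e) (hf : InQ g s v f)
    (he' : ∀ f', InQ g s v f' → dep g s e.2 ≤ dep g s f'.2)
    (hf' : ∀ f', InQ g s v f' → dep g s f.2 ≤ dep g s f'.2) (hcon : lcCon g s e) :
    sameC g s e f = true := by
  obtain ⟨x, hx, y, hy, hxy, hne, hxe, hye⟩ := hcon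
  have hye' := hye
  unfold lower at hye'
  rw [List.any_eq_true] at hye'
  obtain ⟨k, hk, hk2⟩ := hye'
  simp only [Bool.and_eq_true, decide_eq_true_iff] at hk2
  obtain ⟨hyk, hdk⟩ := hk2
  obtain ⟨t1, t2, t3, t4, t5⟩ := lc_thru h hxe
  obtain ⟨r1, r2, r3, r4, r5⟩ := lc_thru h hyk
  rw [← hxy] at r2 r3 r4 r5
  obtain ⟨q1, q2, q3, q4⟩ := he
  obtain ⟨p1, p2, p3, p4⟩ := hf
  have hec : e.1 ∈ comp g s := fst_mem h (lc_mem_backs.1 q1).1
  -- `x.1` is a strict ancestor of `v`
  have hkv : isAnc g s v x.1 ≠ true := by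
    intro hcon
    have h1 : isAnc g s k.2 e.2 = true := lc_anc_of_dep h t2 r4 t4 hdk.le
    have h2 : InQ g s v k := by
      refine ⟨r1, isAnc_trans hcon r3, isAnc_trans h1 q3, ?_⟩
      intro h3
      rw [h3] at h1
      exact q4 (isAnc_antisymm h hv q3 h1)
    have := he' k h2
    omega
  have huv : isAnc g s x.1 v = true := by
    rcases isAnc_total h hec t3 q2 with h1 | h1
    · exact h1
    · exact absurd h1 hkv
  -- `x` is the direction of a child, which is an ancestor of `v`
  have hef : f.2 = e.2 := by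
    have hd : dep g s f.2 = dep g s e.2 := le_antisymm (hf' e ⟨q1, q2, q3, q4⟩)
      (he' f ⟨p1, p2, p3, p4⟩)
    have a1 := lc_anc_of_dep h hv p3 q3 hd.le
    have a2 := lc_anc_of_dep h hv q3 p3 hd.ge
    exact isAnc_antisymm h (isAnc_mem h hv q3) a1 a2
  have hxf : thru g s x f = true := by
    have hxe' := hxe
    unfold thru at hxe' ⊢
    simp only [Bool.and_eq_true, Bool.or_eq_true, decide_eq_true_iff] at hxe' ⊢
    obtain ⟨_, h2 | h2⟩ := hxe'
    · exfalso
      rw [h2] at hkv
      exact hkv q2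
    · obtain ⟨⟨⟨⟨h3, h4⟩, h5⟩, h6⟩, h7⟩ := h2
      have h4' := h4
      unfold isChild at h4'
      simp only [Bool.and_eq_true, decide_eq_true_iff] at h4'
      have hxv : isAnc g s x.2 v = true := by
        rcases isAnc_total h hec h5 q2 with h8 | h8
        · exact h8
        · by_cases hvx : v = x.2
          · rw [← hvx]
            exact isAnc_refl _
          · have h9 := lc_anc_of_ne h (snd_mem h h3) h4'.2 h8 hvx
            rw [h4'.1] at h9
            exact absurd h9 hkv
      exact ⟨p1, Or.inr ⟨⟨⟨⟨h3, h4⟩, isAnc_trans hxv p2⟩, by rw [hef]; exact h6⟩,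
        by rw [hef]; exact h7⟩⟩
  have hyf : lower g s y f = true := by
    unfold lower
    rw [List.any_eq_true]
    refine ⟨k, hk, ?_⟩
    simp only [Bool.and_eq_true, decide_eq_true_iff]
    exact ⟨hyk, by rw [hef]; exact hdk⟩
  exact lc_sameC_iff.2 ⟨x, hx, y, hy, hxy, hne, hxe, hxf, hye, hyf⟩

theorem col_aligned (h : RotValid g s) (c : Nd → Bool) (hc : ColOK g s c) {v : ℕ}
    (hv : v ∈ comp g s) {e f : Nd} (he : InQ g s v e) (hf : InQ g s v f)
    (he' : ∀ f', InQ g s v f' → dep g s e.2 ≤ dep g s f'.2)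
    (hf' : ∀ f', InQ g s v f' → dep g s f.2 ≤ dep g s f'.2) : col g s e = col g s f := by
  by_cases h1 : lcCon g s e
  · exact (col_ok h c hc e he.1 f hf.1).1 (lc_same_of_con h hv he hf he' hf' h1)
  · by_cases h2 : lcCon g s f
    · exact ((col_ok h c hc f hf.1 e he.1).1 (lc_same_of_con h hv hf he hf' he' h2)).symm
    · rw [lc_col_isolated he.1 h1, lc_col_isolated hf.1 h2]

end Pool.Agent.PFire
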