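import Pool.Agent.Lib.PFire.Alg

/-!
# Chunk RF: elementary facts on the raw functions

`mem_reach` (in `Pool.Agent.Lib.PolyTime.Reach`) characterises `reach` by `Relation.ReflTransGen`.  The
face permutation: `phi rot` is injective on the finite set of darts, so its orbits are cycles and
`d' ∈ reach (phiE rot s) d` is an equivalence relation; `faceOf rot s d` is the first dart of the orbit.
-/

set_option autoImplicit false

namespace Pool.Agent.PFire

open Pool.Agent.PolyTime

/-! ### Elementary facts on the raw functions -/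

section

variable {rot : Rot} {s : ℕ}

lemma mem_allDarts {d : Nd} : d ∈ allDarts rot ↔ d.1 < rot.length ∧ d.2 ∈ nbrs rot d.1 := by
  obtain ⟨u, v⟩ := d
  simp only [allDarts, List.mem_flatMap, List.mem_range, List.mem_map, Prod.mk.injEq]
  constructor
  · rintro ⟨a, ha, b, hb, rfl, rfl⟩
    exact ⟨ha, hb⟩
  · rintro ⟨ha, hb⟩
    exact ⟨u, ha, v, hb, rfl, rfl⟩

lemma rf_lt_of_mem {u v : ℕ} (h : v ∈ nbrs rot u) : u < rot.length := by
  by_contra h1
  unfold nbrs at h
  rw [List.getD_eq_default _ _ (by omega)] at h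
  exact absurd h (by simp)

lemma mem_allDarts' {d : Nd} : d ∈ allDarts rot ↔ d.2 ∈ nbrs rot d.1 := by
  rw [mem_allDarts]
  exact ⟨fun h => h.2, fun h => ⟨rf_lt_of_mem h, h⟩⟩

lemma allDarts_nodup (h : RotValid rot s) : (allDarts rot).Nodup := by
  unfold allDarts
  rw [List.nodup_flatMap]
  refine ⟨fun u _ => (h.nodup u).map (fun a b hab => (Prod.mk.inj hab).2), ?_⟩
  refine List.Pairwise.imp ?_ (List.nodup_range (n := rot.length))
  intro a b hab
  rw [Function.onFun, List.disjoint_left]
  rintro ⟨x, y⟩ hx hy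
  rw [List.mem_map] at hx hy
  obtain ⟨_, _, h1⟩ := hx
  obtain ⟨_, _, h2⟩ := hy
  exact hab ((Prod.mk.inj h1).1.trans (Prod.mk.inj h2).1.symm)

lemma mem_comp {v : ℕ} (h : RotValid rot s) :
    v ∈ comp rot s ↔ Relation.ReflTransGen (fun a b => b ∈ nbrs rot a) s v := by
  unfold comp
  rw [List.mem_filter, List.mem_range, decide_eq_true_eq, mem_reach]
  have e : (fun a b => (a, b) ∈ allDarts rot) = fun a b => b ∈ nbrs rot a := by
    funext a b
    exact propext mem_allDarts'
  rw [e]
  constructor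
  · exact fun h => h.2
  · intro h1
    refine ⟨?_, h1⟩
    rcases Relation.ReflTransGen.cases_tail h1 with h2 | ⟨w, _, h2⟩
    · rw [h2]; exact h.s_lt
    · exact h.lt w v h2

lemma s_mem_comp (h : RotValid rot s) : s ∈ comp rot s :=
  (mem_comp h).2 Relation.ReflTransGen.refl

lemma comp_nodup : (comp rot s).Nodup := List.nodup_range.filter _

lemma mem_darts {d : Nd} (h : RotValid rot s) :
    d ∈ darts rot s ↔ d.1 ∈ comp rot s ∧ d.2 ∈ nbrs rot d.1 := by
  unfold darts
  rw [List.mem_filter, decide_eq_true_eq, mem_allDarts']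
  exact and_comm

lemma darts_nodup (h : RotValid rot s) : (darts rot s).Nodup := (allDarts_nodup h).filter _

lemma fst_mem {d : Nd} (h : RotValid rot s) (hd : d ∈ darts rot s) : d.1 ∈ comp rot s :=
  ((mem_darts h).1 hd).1

lemma snd_mem {d : Nd} (h : RotValid rot s) (hd : d ∈ darts rot s) : d.2 ∈ comp rot s := by
  have h1 := (mem_darts h).1 hd
  rw [mem_comp h] at h1 ⊢
  exact h1.1.tail h1.2

lemma al_mem {d : Nd} (h : RotValid rot s) (hd : d ∈ darts rot s) : al d ∈ darts rot s :=
  (mem_darts h).2 ⟨snd_mem h hd, h.symm _ _ ((mem_darts h).1 hd).2⟩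

/-- the successor in a list `l1 ++ x :: l2` without repetition -/
lemma rf_nextIn_split {l1 l2 : List ℕ} {x : ℕ} (hx : x ∉ l1) :
    nextIn (l1 ++ x :: l2) x = (l2 ++ (l1 ++ x :: l2)).headD 0 := by
  unfold nextIn
  have h1 : (l1 ++ x :: l2).dropWhile (fun y => decide (y ≠ x)) = x :: l2 := by
    rw [List.dropWhile_append]
    have h2 : l1.dropWhile (fun y => decide (y ≠ x)) = [] := by
      rw [List.dropWhile_eq_nil_iff]
      intro y hy
      simp only [decide_eq_true_eq]
      rintro rfl
      exact hx hy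
    rw [h2]
    simp
  rw [h1]
  rfl

lemma rf_nextIn_getElem {l : List ℕ} (hl : l.Nodup) {i : ℕ} (hi : i < l.length) :
    nextIn l l[i] = l[(i + 1) % l.length]'(Nat.mod_lt _ (by omega)) := by
  have hsplit : l = l.take i ++ l[i] :: l.drop (i + 1) := by
    rw [List.getElem_cons_drop, List.take_append_drop]
  have hnot : l[i] ∉ l.take i := by
    intro h
    rw [List.mem_take_iff_getElem] at h
    obtain ⟨j, hj, hj'⟩ := h
    have h1 := (List.Nodup.getElem_inj_iff hl).1 hj'
    omega
  have h1 : nextIn l l[i] = (l.drop (i + 1) ++ l).headD 0 := by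
    have h2 := rf_nextIn_split (l1 := l.take i) (l2 := l.drop (i + 1)) hnot
    rw [← hsplit] at h2
    exact h2
  rw [h1]
  rcases Nat.lt_or_ge (i + 1) l.length with h2 | h2
  · rw [List.drop_eq_getElem_cons h2, List.cons_append, List.headD_cons]
    simp only [Nat.mod_eq_of_lt h2]
  · have h3 : i + 1 = l.length := by omega
    rw [List.drop_eq_nil_of_le (by omega), List.nil_append]
    have h4 : (i + 1) % l.length = 0 := by rw [h3, Nat.mod_self]
    simp only [h4]
    cases l with
    | nil => simp at hi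
    | cons a l => rfl

/-- `nextIn l` is a cyclic permutation of the elements of the duplicate free list `l`. -/
lemma nextIn_mem {l : List ℕ} {x : ℕ} (hx : x ∈ l) : nextIn l x ∈ l := by
  unfold nextIn
  cases h : ((l.dropWhile fun y => decide (y ≠ x)).drop 1) with
  | nil =>
    rw [List.nil_append]
    cases l with
    | nil => simp at hx
    | cons a l => simp
  | cons a t =>
    rw [List.cons_append, List.headD_cons]
    have h1 : a ∈ ((l.dropWhile fun y => decide (y ≠ x)).drop 1) := by rw [h]; simp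
    exact (List.dropWhile_sublist _).subset (List.mem_of_mem_drop h1)

lemma nextIn_inj {l : List ℕ} (hl : l.Nodup) {x y : ℕ} (hx : x ∈ l) (hy : y ∈ l)
    (h : nextIn l x = nextIn l y) : x = y := by
  obtain ⟨i, hi, rfl⟩ := List.getElem_of_mem hx
  obtain ⟨j, hj, rfl⟩ := List.getElem_of_mem hy
  rw [rf_nextIn_getElem hl hi, rf_nextIn_getElem hl hj] at h
  have h1 := (List.Nodup.getElem_inj_iff hl).1 h
  have h2 : i = j := by
    rcases Nat.lt_or_ge (i + 1) l.length with h2 | h2 <;>
      rcases Nat.lt_or_ge (j + 1) l.length with h3 | h3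
    · rw [Nat.mod_eq_of_lt h2, Nat.mod_eq_of_lt h3] at h1; omega
    · have h4 : j + 1 = l.length := by omega
      rw [Nat.mod_eq_of_lt h2, h4, Nat.mod_self] at h1; omega
    · have h4 : i + 1 = l.length := by omega
      rw [Nat.mod_eq_of_lt h3, h4, Nat.mod_self] at h1; omega
    · omega
  subst h2; rfl

lemma nextIn_orbit {l : List ℕ} (hl : l.Nodup) {x y : ℕ} (hx : x ∈ l) (hy : y ∈ l) :
    ∃ n : ℕ, (nextIn l)^[n] x = y := by
  obtain ⟨i, hi, rfl⟩ := List.getElem_of_mem hx
  obtain ⟨j, hj, rfl⟩ := List.getElem_of_mem hy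
  have key : ∀ n, (nextIn l)^[n] l[i] = l[(i + n) % l.length]'(Nat.mod_lt _ (by omega)) := by
    intro n
    induction n with
    | zero => simp [Nat.mod_eq_of_lt hi]
    | succ n ih =>
      rw [Function.iterate_succ_apply', ih, rf_nextIn_getElem hl (Nat.mod_lt _ (by omega))]
      congr 1
      rw [Nat.mod_add_mod, Nat.add_assoc]
  refine ⟨l.length - i + j, ?_⟩
  rw [key]
  congr 1
  have : i + (l.length - i + j) = l.length + j := by omega
  rw [this, Nat.add_mod_left, Nat.mod_eq_of_lt hj]

lemma phi_mem {d : Nd} (h : RotValid rot s) (hd : d ∈ darts rot s) : phi rot d ∈ darts rot s :=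
  (mem_darts h).2 ⟨snd_mem h hd, nextIn_mem (h.symm _ _ ((mem_darts h).1 hd).2)⟩

lemma phi_inj {d d' : Nd} (h : RotValid rot s) (hd : d ∈ darts rot s) (hd' : d' ∈ darts rot s)
    (he : phi rot d = phi rot d') : d = d' := by
  unfold phi at he
  obtain ⟨h1, h2⟩ := Prod.mk.inj he
  have h3 := ((mem_darts h).1 hd).2
  have h4 := ((mem_darts h).1 hd').2
  rw [h1] at h2 h3
  exact Prod.ext (nextIn_inj (h.nodup d'.2) (h.symm _ _ h3) (h.symm _ _ h4) h2) h1

/-- reachability along `phiE` = iteration of `phi` -/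
lemma rf_mem_reach_phiE {d d' : Nd} (h : RotValid rot s) (hd : d ∈ darts rot s) :
    d' ∈ reach (phiE rot s) d ↔ ∃ n : ℕ, (phi rot)^[n] d = d' := by
  rw [mem_reach]
  constructor
  · intro h1
    induction h1 with
    | refl => exact ⟨0, rfl⟩
    | tail _ hbc ih =>
      obtain ⟨n, rfl⟩ := ih
      unfold phiE at hbc
      rw [List.mem_map] at hbc
      obtain ⟨a, _, ha⟩ := hbc
      obtain ⟨h2, h3⟩ := Prod.mk.inj ha
      exact ⟨n + 1, by rw [Function.iterate_succ_apply', ← h3, h2]⟩
  · rintro ⟨n, rfl⟩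
    have key : ∀ n, (phi rot)^[n] d ∈ darts rot s ∧
        Relation.ReflTransGen (fun a b => (a, b) ∈ phiE rot s) d ((phi rot)^[n] d) := by
      intro n
      induction n with
      | zero => exact ⟨hd, Relation.ReflTransGen.refl⟩
      | succ n ih =>
        rw [Function.iterate_succ_apply']
        exact ⟨phi_mem h ih.1, ih.2.tail (List.mem_map.2 ⟨_, ih.1, rfl⟩)⟩
    exact (key n).2

/-- the orbits of `phi` are cycles -/
lemma rf_orbit_symm {d : Nd} (h : RotValid rot s) (hd : d ∈ darts rot s) (n : ℕ) :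
    ∃ m : ℕ, (phi rot)^[m] ((phi rot)^[n] d) = d := by
  let X := {d : Nd // d ∈ darts rot s}
  let π : X → X := fun x => ⟨phi rot x.1, phi_mem h x.2⟩
  have hπ : Function.Injective π := fun a b hab =>
    Subtype.ext (phi_inj h a.2 b.2 (congrArg Subtype.val hab))
  have hit : ∀ n (a : X), (π^[n] a).1 = (phi rot)^[n] a.1 := by
    intro n
    induction n with
    | zero => intro a; rfl
    | succ n ihn =>
      intro a
      rw [Function.iterate_succ_apply, Function.iterate_succ_apply, ihn]
  obtain ⟨p, hp0, hp⟩ : (⟨d, hd⟩ : X) ∈ Function.periodicPts π :=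
    Function.Injective.mem_periodicPts hπ _
  have hp1 : (phi rot)^[p] d = d := by
    have h1 := hit p ⟨d, hd⟩
    have h2 : π^[p] ⟨d, hd⟩ = ⟨d, hd⟩ := hp
    rw [h2] at h1
    exact h1.symm
  refine ⟨p * n - n, ?_⟩
  rw [← Function.iterate_add_apply]
  have h3 : p * n - n + n = p * n := by
    have : n ≤ p * n := Nat.le_mul_of_pos_left n hp0
    omega
  rw [h3]
  clear h3
  induction n with
  | zero => simp
  | succ n ih => rw [Nat.mul_succ, Function.iterate_add_apply, hp1, ih]

lemma rf_reach_symm {d d' : Nd} (h : RotValid rot s) (hd : d ∈ darts rot s)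
    (hd' : d' ∈ darts rot s) : d' ∈ reach (phiE rot s) d ↔ d ∈ reach (phiE rot s) d' := by
  rw [rf_mem_reach_phiE h hd, rf_mem_reach_phiE h hd']
  constructor
  · rintro ⟨n, rfl⟩; exact rf_orbit_symm h hd n
  · rintro ⟨n, rfl⟩; exact rf_orbit_symm h hd' n

lemma rf_faceOf_spec {d : Nd} (h : RotValid rot s) (hd : d ∈ darts rot s) :
    faceOf rot s d ∈ darts rot s ∧ faceOf rot s d ∈ reach (phiE rot s) d := by
  unfold faceOf
  cases hf : (darts rot s).find? fun d' => decide (d' ∈ reach (phiE rot s) d) with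
  | none =>
    rw [List.find?_eq_none] at hf
    exfalso
    apply hf d hd
    rw [decide_eq_true_eq, rf_mem_reach_phiE h hd]
    exact ⟨0, rfl⟩
  | some d' =>
    have h1 := List.find?_some hf
    rw [decide_eq_true_eq] at h1
    exact ⟨List.mem_of_find?_eq_some hf, h1⟩

lemma rf_faceOf_congr {d d' : Nd} (h : RotValid rot s) (hd : d ∈ darts rot s)
    (hd' : d' ∈ darts rot s) (hr : d' ∈ reach (phiE rot s) d) :
    faceOf rot s d = faceOf rot s d' := by
  have h1 : ∀ x ∈ darts rot s, (x ∈ reach (phiE rot s) d ↔ x ∈ reach (phiE rot s) d') := by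
    intro x hx
    have hr' := (rf_reach_symm h hd hd').1 hr
    rw [mem_reach] at hr hr'
    rw [mem_reach, mem_reach]
    exact ⟨fun h => hr'.trans h, fun h => hr.trans h⟩
  have h2 : (darts rot s).find? (fun x => decide (x ∈ reach (phiE rot s) d)) =
      (darts rot s).find? (fun x => decide (x ∈ reach (phiE rot s) d')) := by
    have : ∀ l : List Nd, (∀ x ∈ l, x ∈ darts rot s) →
        l.find? (fun x => decide (x ∈ reach (phiE rot s) d)) =
        l.find? (fun x => decide (x ∈ reach (phiE rot s) d')) := by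
      intro l
      induction l with
      | nil => intro _; rfl
      | cons a l ih =>
        intro hl
        rw [List.find?_cons, List.find?_cons]
        have h3 : decide (a ∈ reach (phiE rot s) d) = decide (a ∈ reach (phiE rot s) d') :=
          decide_eq_decide.2 (h1 a (hl a (by simp)))
        rw [h3, ih (fun x hx => hl x (by simp [hx]))]
    exact this _ fun _ h => h
  unfold faceOf
  rw [h2]
  cases hf : (darts rot s).find? fun x => decide (x ∈ reach (phiE rot s) d') with
  | none =>
    exfalso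
    rw [List.find?_eq_none] at hf
    apply hf d' hd'
    rw [decide_eq_true_eq, rf_mem_reach_phiE h hd']
    exact ⟨0, rfl⟩
  | some x => rfl

lemma faceOf_mem {d : Nd} (h : RotValid rot s) (hd : d ∈ darts rot s) :
    faceOf rot s d ∈ darts rot s := (rf_faceOf_spec h hd).1

lemma faceOf_faceOf {d : Nd} (h : RotValid rot s) (hd : d ∈ darts rot s) :
    faceOf rot s (faceOf rot s d) = faceOf rot s d :=
  (rf_faceOf_congr h hd (faceOf_mem h hd) (rf_faceOf_spec h hd).2).symm

lemma faceOf_phi {d : Nd} (h : RotValid rot s) (hd : d ∈ darts rot s) :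
    faceOf rot s (phi rot d) = faceOf rot s d :=
  (rf_faceOf_congr h hd (phi_mem h hd) ((rf_mem_reach_phiE h hd).2 ⟨1, rfl⟩)).symm

lemma faceOf_orbit {d d' : Nd} (h : RotValid rot s) (hd : d ∈ darts rot s)
    (hd' : d' ∈ darts rot s) (he : faceOf rot s d = faceOf rot s d') :
    ∃ n : ℕ, (phi rot)^[n] d = d' := by
  have h1 := (rf_faceOf_spec h hd).2
  have h2 := (rf_faceOf_spec h hd').2
  rw [← he] at h2
  have h3 := (rf_reach_symm h hd' (faceOf_mem h hd)).1 h2
  rw [← rf_mem_reach_phiE h hd, mem_reach]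
  rw [mem_reach] at h1 h3
  exact h1.trans h3

lemma mem_faces {g : Nd} (h : RotValid rot s) :
    g ∈ faces rot s ↔ ∃ d ∈ darts rot s, faceOf rot s d = g := by
  unfold faces
  rw [List.mem_filter, decide_eq_true_eq]
  constructor
  · rintro ⟨h1, h2⟩; exact ⟨g, h1, h2⟩
  · rintro ⟨d, hd, rfl⟩; exact ⟨faceOf_mem h hd, faceOf_faceOf h hd⟩

lemma faces_nodup (h : RotValid rot s) : (faces rot s).Nodup := (darts_nodup h).filter _

end

end Pool.Agent.PFire
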