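import Pool.Agent.Lib.PFire.Lr
import Pool.Agent.Lib.PFire.RawFacts

/-!
# Chunk LD: the depth first search tree

Invariants of `dfsStep` (state `(vis, stk)`): the first components of `vis` have no repetition and lie in
`comp`; the stack is a chain `v, par v, …, s` of visited vertices; each visited vertex which is not on the
stack has only visited neighbours; for each edge between two visited vertices one is an ancestor of
the other.  `2 * #vis - #stk` increases by one in every step until the stack is empty, so after
`2 * g.length` steps the stack is empty.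
-/

set_option autoImplicit false

namespace Pool.Agent.PFire

open Pool.Agent.PolyTime

variable {g : Rot} {s : ℕ}

/-! ### Search trees -/

/-- lists of pairs (vertex, parent), built from the root by adding neighbours -/
inductive LDTree (g : Rot) (s : ℕ) : List (ℕ × ℕ) → Prop
  | root : LDTree g s [(s, s)]
  | cons {l : List (ℕ × ℕ)} {w v : ℕ} : LDTree g s l → w ∉ l.map Prod.fst → v ∈ l.map Prod.fst →
      w ∈ nbrs g v → LDTree g s ((w, v) :: l)

/-- ancestor relation of a list of pairs -/
def LDAnc (s : ℕ) (l : List (ℕ × ℕ)) (v a : ℕ) : Prop :=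
  Relation.ReflTransGen (fun x y => (x, y) ∈ l ∧ x ≠ s) v a

lemma LDAnc.mono {l l' : List (ℕ × ℕ)} (hl : ∀ p ∈ l, p ∈ l') {v a : ℕ} (h : LDAnc s l v a) :
    LDAnc s l' v a := by
  unfold LDAnc at h ⊢
  induction h with
  | refl => exact Relation.ReflTransGen.refl
  | tail _ hbc ih => exact ih.tail ⟨hl _ hbc.1, hbc.2⟩

lemma LDTree.root_mem {l : List (ℕ × ℕ)} (h : LDTree g s l) : (s, s) ∈ l := by
  induction h with
  | root => simp
  | cons _ _ _ _ ih => exact List.mem_cons_of_mem _ ih

lemma LDTree.s_mem {l : List (ℕ × ℕ)} (h : LDTree g s l) : s ∈ l.map Prod.fst :=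
  List.mem_map.2 ⟨(s, s), h.root_mem, rfl⟩

lemma LDTree.nodup {l : List (ℕ × ℕ)} (h : LDTree g s l) : (l.map Prod.fst).Nodup := by
  induction h with
  | root => simp
  | cons _ hw _ _ ih =>
    rw [List.map_cons, List.nodup_cons]
    exact ⟨hw, ih⟩

lemma LDTree.snd_mem {l : List (ℕ × ℕ)} (h : LDTree g s l) {p : ℕ × ℕ} (hp : p ∈ l) :
    p.2 ∈ l.map Prod.fst := by
  induction h with
  | root =>
    rw [List.mem_singleton] at hp
    subst hp
    simp
  | cons _ _ hv _ ih =>
    rw [List.map_cons]
    rcases List.mem_cons.1 hp with rfl | hp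
    · exact List.mem_cons_of_mem _ hv
    · exact List.mem_cons_of_mem _ (ih hp)

lemma LDTree.nbr {l : List (ℕ × ℕ)} (h : LDTree g s l) {p : ℕ × ℕ} (hp : p ∈ l) (hs : p.1 ≠ s) :
    p.1 ∈ nbrs g p.2 := by
  induction h with
  | root =>
    rw [List.mem_singleton] at hp
    subst hp
    exact absurd rfl hs
  | cons _ _ _ hn ih =>
    rcases List.mem_cons.1 hp with rfl | hp
    · exact hn
    · exact ih hp

lemma LDTree.idx {l : List (ℕ × ℕ)} (h : LDTree g s l) {p : ℕ × ℕ} (hp : p ∈ l) (hs : p.1 ≠ s) :
    (l.map Prod.fst).idxOf p.1 < (l.map Prod.fst).idxOf p.2 := by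
  induction h with
  | root =>
    rw [List.mem_singleton] at hp
    subst hp
    exact absurd rfl hs
  | @cons l w v ht hw hv hn ih =>
    rw [List.map_cons]
    rcases List.mem_cons.1 hp with rfl | hp
    · have hne : w ≠ v := fun he => hw (he ▸ hv)
      rw [List.idxOf_cons_self, List.idxOf_cons_ne _ hne]
      exact Nat.succ_pos _
    · have h1 : w ≠ p.1 := fun he => hw (he ▸ List.mem_map.2 ⟨p, hp, rfl⟩)
      have h2 : w ≠ p.2 := fun he => hw (he ▸ ht.snd_mem hp)
      rw [List.idxOf_cons_ne _ h1, List.idxOf_cons_ne _ h2]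
      exact Nat.succ_lt_succ (ih hp)

lemma LDTree.anc_s {l : List (ℕ × ℕ)} (h : LDTree g s l) {v : ℕ} (hv : v ∈ l.map Prod.fst) :
    LDAnc s l v s := by
  induction h generalizing v with
  | root =>
    rw [List.map_singleton, List.mem_singleton] at hv
    subst hv
    exact Relation.ReflTransGen.refl
  | @cons l w u ht hw hu hn ih =>
    rw [List.map_cons, List.mem_cons] at hv
    rcases hv with rfl | hv
    · by_cases hs : v = s
      · subst hs; exact Relation.ReflTransGen.refl
      · refine Relation.ReflTransGen.head ⟨List.mem_cons_self, hs⟩ ?_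
        exact (ih hu).mono (fun p hp => List.mem_cons_of_mem _ hp)
    · exact (ih hv).mono (fun p hp => List.mem_cons_of_mem _ hp)

lemma LDTree.comp (hg : RotValid g s) {l : List (ℕ × ℕ)} (h : LDTree g s l) {v : ℕ}
    (hv : v ∈ l.map Prod.fst) : v ∈ comp g s := by
  induction h generalizing v with
  | root =>
    rw [List.map_singleton, List.mem_singleton] at hv
    subst hv
    exact s_mem_comp hg
  | @cons l w u ht hw hu hn ih =>
    rw [List.map_cons, List.mem_cons] at hv
    rcases hv with rfl | hv
    · rw [mem_comp hg]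
      exact ((mem_comp hg).1 (ih hu)).tail hn
    · exact ih hv

lemma LDTree.unique {l : List (ℕ × ℕ)} (h : LDTree g s l) {p q : ℕ × ℕ} (hp : p ∈ l) (hq : q ∈ l)
    (he : p.1 = q.1) : p = q :=
  List.inj_on_of_nodup_map h.nodup hp hq he

lemma LDTree.lookup {l : List (ℕ × ℕ)} (h : LDTree g s l) {v u : ℕ} (hv : (v, u) ∈ l) :
    (l.lookup v).getD v = u := by
  induction h with
  | root =>
    rw [List.mem_singleton, Prod.mk.injEq] at hv
    obtain ⟨rfl, rfl⟩ := hv
    simp
  | @cons l w x ht hw hx hn ih =>
    rcases List.mem_cons.1 hv with hv | hv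
    · rw [Prod.mk.injEq] at hv
      obtain ⟨rfl, rfl⟩ := hv
      simp
    · have h1 : v ≠ w := fun he => hw (he ▸ List.mem_map.2 ⟨(v, u), hv, rfl⟩)
      rw [List.lookup_cons, beq_eq_false_iff_ne.2 h1]
      exact ih hv

/-! ### The invariants -/

structure LDInv (g : Rot) (s : ℕ) (st : List (ℕ × ℕ) × List ℕ) : Prop where
  tree : LDTree g s st.1
  chain : st.2.Pairwise (LDAnc s st.1)
  closed : ∀ u ∈ st.1.map Prod.fst, u ∉ st.2 → ∀ w ∈ nbrs g u, w ∈ st.1.map Prod.fst
  mem : ∀ u ∈ st.2, u ∈ st.1.map Prod.fst
  edge : ∀ u ∈ st.1.map Prod.fst, ∀ w ∈ st.1.map Prod.fst, w ∈ nbrs g u →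
    LDAnc s st.1 u w ∨ LDAnc s st.1 w u

lemma LDInv.init (hg : RotValid g s) : LDInv g s ([(s, s)], [s]) where
  tree := LDTree.root
  chain := List.pairwise_singleton _ _
  closed := by
    intro u hu hus
    simp only [List.map_cons, List.map_nil, List.mem_singleton] at hu hus
    exact absurd hu hus
  mem := by
    intro u hu
    simpa using hu
  edge := by
    intro u hu w hw _
    simp only [List.map_cons, List.map_nil, List.mem_singleton] at hu hw
    subst hu hw
    exact Or.inl Relation.ReflTransGen.refl

lemma LDInv.step (hg : RotValid g s) {st : List (ℕ × ℕ) × List ℕ} (h : LDInv g s st) :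
    LDInv g s (dfsStep g st) := by
  obtain ⟨vis, stk⟩ := st
  rcases stk with _ | ⟨v, stk⟩
  · exact h
  · unfold dfsStep
    simp only
    cases hf : (nbrs g v).find? fun w => decide (w ∉ vis.map Prod.fst) with
    | none =>
      simp only
      have hnv : ∀ w ∈ nbrs g v, w ∈ vis.map Prod.fst := by
        intro w hw
        have := List.find?_eq_none.1 hf w hw
        simpa using this
      refine ⟨h.tree, (List.pairwise_cons.1 h.chain).2, ?_, fun u hu => h.mem u (List.mem_cons_of_mem _ hu), h.edge⟩
      intro u hu hus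
      by_cases huv : u = v
      · subst huv; exact hnv
      · exact h.closed u hu (by simp only [List.mem_cons, not_or]; exact ⟨huv, hus⟩)
    | some w =>
      simp only
      have hwn : w ∈ nbrs g v := List.mem_of_find?_eq_some hf
      have hwv : w ∉ vis.map Prod.fst := by
        have := List.find?_some hf
        simpa using this
      have hv : v ∈ vis.map Prod.fst := h.mem v List.mem_cons_self
      have htree : LDTree g s ((w, v) :: vis) := LDTree.cons h.tree hwv hv hwn
      have hws : w ≠ s := fun he => hwv (he ▸ h.tree.s_mem)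
      have hmono : ∀ p ∈ vis, p ∈ (w, v) :: vis := fun p hp => List.mem_cons_of_mem _ hp
      have hwst : ∀ u ∈ v :: stk, LDAnc s ((w, v) :: vis) w u := by
        intro u hu
        refine Relation.ReflTransGen.head ⟨List.mem_cons_self, hws⟩ ?_
        rcases List.mem_cons.1 hu with rfl | hu
        · exact Relation.ReflTransGen.refl
        · exact ((List.pairwise_cons.1 h.chain).1 u hu).mono hmono
      have hnew : ∀ u ∈ vis.map Prod.fst, w ∈ nbrs g u → LDAnc s ((w, v) :: vis) w u := by
        intro u hu hwu
        by_cases hus : u ∈ v :: stk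
        · exact hwst u hus
        · exact absurd (h.closed u hu hus w hwu) hwv
      refine ⟨htree, ?_, ?_, ?_, ?_⟩
      · rw [List.pairwise_cons]
        exact ⟨hwst, h.chain.imp (fun hab => hab.mono hmono)⟩
      · intro u hu hus x hx
        simp only [List.map_cons, List.mem_cons] at hu hus ⊢
        push Not at hus
        rcases hu with rfl | hu
        · exact absurd rfl hus.1
        · right
          exact h.closed u hu (by simp only [List.mem_cons, not_or]; exact hus.2) x hx
      · intro u hu
        simp only [List.map_cons]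
        rcases List.mem_cons.1 hu with rfl | hu
        · exact List.mem_cons_self
        · exact List.mem_cons_of_mem _ (h.mem u hu)
      · intro u hu x hx hxu
        simp only [List.map_cons] at hu hx
        rcases List.mem_cons.1 hu with hu1 | hu1
        · rcases List.mem_cons.1 hx with hx1 | hx1
          · rw [hu1, hx1]
            exact Or.inl Relation.ReflTransGen.refl
          · left
            rw [hu1]
            rw [hu1] at hxu
            exact hnew x hx1 (hg.symm _ _ hxu)
        · rcases List.mem_cons.1 hx with hx1 | hx1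
          · right
            rw [hx1]
            rw [hx1] at hxu
            exact hnew u hu1 hxu
          · rcases h.edge u hu1 x hx1 hxu with h1 | h1
            · exact Or.inl (h1.mono hmono)
            · exact Or.inr (h1.mono hmono)

lemma LDInv.iter (hg : RotValid g s) (n : ℕ) : LDInv g s ((dfsStep g)^[n] ([(s, s)], [s])) := by
  induction n with
  | zero => exact LDInv.init hg
  | succ n ih =>
    rw [Function.iterate_succ_apply']
    exact ih.step hg

lemma LD_count (n : ℕ) : ((dfsStep g)^[n] ([(s, s)], [s])).2 = [] ∨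
    2 * ((dfsStep g)^[n] ([(s, s)], [s])).1.length = n + 1 + ((dfsStep g)^[n] ([(s, s)], [s])).2.length := by
  induction n with
  | zero => right; rfl
  | succ n ih =>
    rw [Function.iterate_succ_apply']
    generalize (dfsStep g)^[n] ([(s, s)], [s]) = st at ih ⊢
    obtain ⟨vis, stk⟩ := st
    rcases stk with _ | ⟨v, stk⟩
    · left; rfl
    · rcases ih with ih | ih
      · simp at ih
      · right
        unfold dfsStep
        simp only at ih ⊢
        cases hf : (nbrs g v).find? fun w => decide (w ∉ vis.map Prod.fst) with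
        | none =>
          simp only [List.length_cons] at ih ⊢
          omega
        | some w =>
          simp only [List.length_cons] at ih ⊢
          omega

lemma LD_stack (hg : RotValid g s) : ((dfsStep g)^[2 * g.length] ([(s, s)], [s])).2 = [] := by
  rcases LD_count (g := g) (s := s) (2 * g.length) with h | h
  · exact h
  · exfalso
    have h1 := (LDInv.iter hg (2 * g.length)).tree
    have h2 : ((dfsStep g)^[2 * g.length] ([(s, s)], [s])).1.length ≤ g.length := by
      have h3 : (((dfsStep g)^[2 * g.length] ([(s, s)], [s])).1.map Prod.fst) ⊆ List.range g.length := by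
        intro v hv
        have := h1.comp hg hv
        unfold PFire.comp at this
        exact (List.mem_filter.1 this).1
      have h4 := (List.subperm_of_subset h1.nodup h3).length_le
      rwa [List.length_map, List.length_range] at h4
    omega

lemma LD_tree (hg : RotValid g s) : LDTree g s (dfs g s) := (LDInv.iter hg (2 * g.length)).tree

lemma dfs_nodup (h : RotValid g s) : ((dfs g s).map Prod.fst).Nodup := (LD_tree h).nodup

lemma mem_dfs (h : RotValid g s) {v : ℕ} : v ∈ (dfs g s).map Prod.fst ↔ v ∈ comp g s := by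
  constructor
  · exact fun hv => (LD_tree h).comp h hv
  · intro hv
    rw [mem_comp h] at hv
    induction hv with
    | refl => exact (LD_tree h).s_mem
    | @tail b c _ hbc ih =>
      refine (LDInv.iter h (2 * g.length)).closed b ih ?_ c hbc
      rw [LD_stack h]
      simp

lemma LD_par_mem (h : RotValid g s) {v : ℕ} (hv : v ∈ comp g s) : (v, par g s v) ∈ dfs g s := by
  obtain ⟨⟨a, b⟩, hp, hab⟩ := List.mem_map.1 ((mem_dfs h).2 hv)
  simp only at hab
  subst hab
  have : par g s a = b := (LD_tree h).lookup hp
  rw [this]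
  exact hp

lemma LD_par_eq (h : RotValid g s) {v u : ℕ} (hv : (v, u) ∈ dfs g s) : par g s v = u :=
  (LD_tree h).lookup hv

lemma par_mem_comp (h : RotValid g s) {v : ℕ} (hv : v ∈ comp g s) : par g s v ∈ comp g s :=
  (mem_dfs h).1 ((LD_tree h).snd_mem (LD_par_mem h hv))

lemma par_s (h : RotValid g s) : par g s s = s := LD_par_eq h (LD_tree h).root_mem

/-- the parent is a neighbour -/
lemma par_nbr (h : RotValid g s) {v : ℕ} (hv : v ∈ comp g s) (hvs : v ≠ s) :
    v ∈ nbrs g (par g s v) :=
  (LD_tree h).nbr (LD_par_mem h hv) hvs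

/-- children stand before their parents in the list of visited vertices -/
lemma idxOf_par (h : RotValid g s) {v : ℕ} (hv : v ∈ comp g s) (hvs : v ≠ s) :
    ((dfs g s).map Prod.fst).idxOf v < ((dfs g s).map Prod.fst).idxOf (par g s v) :=
  (LD_tree h).idx (LD_par_mem h hv) hvs

lemma LD_isAnc {a v : ℕ} : isAnc g s a v = true ↔ LDAnc s (dfs g s) v a := by
  unfold isAnc
  rw [decide_eq_true_eq, mem_reach]
  unfold LDAnc
  have : (fun x y => (x, y) ∈ ancE g s) = (fun x y => (x, y) ∈ dfs g s ∧ x ≠ s) := by
    funext x y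
    unfold ancE
    rw [List.mem_filter]
    simp
  rw [this]

lemma isAnc_iff (h : RotValid g s) {a v : ℕ} (hv : v ∈ comp g s) :
    isAnc g s a v = true ↔ ∃ n : ℕ, (par g s)^[n] v = a := by
  rw [LD_isAnc]
  constructor
  · intro ha
    unfold LDAnc at ha
    induction ha with
    | refl => exact ⟨0, rfl⟩
    | @tail b c _ hbc ih =>
      obtain ⟨n, hn⟩ := ih
      refine ⟨n + 1, ?_⟩
      rw [Function.iterate_succ_apply', hn]
      exact LD_par_eq h hbc.1
  · rintro ⟨n, rfl⟩
    have : LDAnc s (dfs g s) v ((par g s)^[n] v) ∧ (par g s)^[n] v ∈ comp g s := by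
      induction n with
      | zero => exact ⟨Relation.ReflTransGen.refl, hv⟩
      | succ n ih =>
        rw [Function.iterate_succ_apply']
        refine ⟨?_, par_mem_comp h ih.2⟩
        by_cases hs : (par g s)^[n] v = s
        · have h1 := ih.1
          rw [hs] at h1 ⊢
          rw [par_s h]
          exact h1
        · exact ih.1.tail ⟨LD_par_mem h ih.2, hs⟩
    exact this.1

lemma isAnc_refl (v : ℕ) : isAnc g s v v = true := LD_isAnc.2 Relation.ReflTransGen.refl

lemma isAnc_trans {a b c : ℕ} (h1 : isAnc g s a b = true) (h2 : isAnc g s b c = true) :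
    isAnc g s a c = true :=
  LD_isAnc.2 (Relation.ReflTransGen.trans (LD_isAnc.1 h2) (LD_isAnc.1 h1))

lemma isAnc_mem (h : RotValid g s) {a v : ℕ} (hv : v ∈ comp g s) (ha : isAnc g s a v = true) :
    a ∈ comp g s := by
  obtain ⟨n, rfl⟩ := (isAnc_iff h hv).1 ha
  induction n with
  | zero => exact hv
  | succ n ih =>
    rw [Function.iterate_succ_apply']
    exact par_mem_comp h (ih ((isAnc_iff h hv).2 ⟨n, rfl⟩))

lemma isAnc_s (h : RotValid g s) {v : ℕ} (hv : v ∈ comp g s) : isAnc g s s v = true :=
  LD_isAnc.2 ((LD_tree h).anc_s ((mem_dfs h).2 hv))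

lemma isAnc_par (h : RotValid g s) {v : ℕ} (hv : v ∈ comp g s) (hvs : v ≠ s) (a : ℕ) :
    isAnc g s a v = true ↔ a = v ∨ isAnc g s a (par g s v) = true := by
  constructor
  · intro ha
    obtain ⟨n, hn⟩ := (isAnc_iff h hv).1 ha
    rcases n with _ | n
    · left; exact hn.symm
    · right
      rw [isAnc_iff h (par_mem_comp h hv)]
      exact ⟨n, by rw [← hn, Function.iterate_succ_apply]⟩
  · rintro (rfl | ha)
    · exact isAnc_refl _
    · refine isAnc_trans ha ?_
      rw [isAnc_iff h hv]
      exact ⟨1, rfl⟩

lemma LD_idx_lt (h : RotValid g s) {a v : ℕ} (ha : isAnc g s a v = true) (hne : a ≠ v) :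
    ((dfs g s).map Prod.fst).idxOf v < ((dfs g s).map Prod.fst).idxOf a := by
  have h1 := LD_isAnc.1 ha
  unfold LDAnc at h1
  have : a = v ∨ ((dfs g s).map Prod.fst).idxOf v < ((dfs g s).map Prod.fst).idxOf a := by
    clear ha hne
    induction h1 with
    | refl => left; rfl
    | @tail b c _ hbc ih =>
      right
      have h2 := (LD_tree h).idx hbc.1 hbc.2
      simp only at h2
      rcases ih with rfl | ih
      · exact h2
      · omega
  rcases this with h2 | h2
  · exact absurd h2 hne
  · exact h2

lemma isAnc_antisymm (h : RotValid g s) {a b : ℕ} (hb : b ∈ comp g s)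
    (h1 : isAnc g s a b = true) (h2 : isAnc g s b a = true) : a = b := by
  by_contra hne
  have h3 := LD_idx_lt h h1 hne
  have h4 := LD_idx_lt h h2 (fun he => hne he.symm)
  omega

/-- the ancestors of a vertex form a chain -/
lemma isAnc_total (h : RotValid g s) {a b v : ℕ} (hv : v ∈ comp g s)
    (h1 : isAnc g s a v = true) (h2 : isAnc g s b v = true) :
    isAnc g s a b = true ∨ isAnc g s b a = true := by
  have ha := isAnc_mem h hv h1
  have hb := isAnc_mem h hv h2
  obtain ⟨m, hm⟩ := (isAnc_iff h hv).1 h1
  obtain ⟨n, hn⟩ := (isAnc_iff h hv).1 h2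
  rcases le_total m n with hmn | hmn
  · right
    rw [isAnc_iff h ha]
    refine ⟨n - m, ?_⟩
    rw [← hm, ← Function.iterate_add_apply, Nat.sub_add_cancel hmn, hn]
  · left
    rw [isAnc_iff h hb]
    refine ⟨m - n, ?_⟩
    rw [← hn, ← Function.iterate_add_apply, Nat.sub_add_cancel hmn, hm]

lemma dep_lt (h : RotValid g s) {a v : ℕ} (hv : v ∈ comp g s) (h1 : isAnc g s a v = true)
    (h2 : a ≠ v) : dep g s a < dep g s v := by
  unfold dep
  have hn : ∀ x, ((comp g s).filter fun a => isAnc g s a x).Nodup := fun x => comp_nodup.filter _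
  rw [← List.toFinset_card_of_nodup (hn a), ← List.toFinset_card_of_nodup (hn v)]
  apply Finset.card_lt_card
  rw [Finset.ssubset_iff_of_subset]
  · refine ⟨v, ?_, ?_⟩
    · rw [List.mem_toFinset, List.mem_filter]
      exact ⟨hv, isAnc_refl v⟩
    · rw [List.mem_toFinset, List.mem_filter]
      rintro ⟨_, h3⟩
      exact h2 (isAnc_antisymm h hv h1 h3)
  · intro x hx
    rw [List.mem_toFinset, List.mem_filter] at hx ⊢
    exact ⟨hx.1, isAnc_trans hx.2 h1⟩

/-- the depth first search property -/
lemma dfs_edge (h : RotValid g s) {u v : ℕ} (hu : u ∈ comp g s) (huv : v ∈ nbrs g u) :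
    isAnc g s u v = true ∨ isAnc g s v u = true := by
  have hv : v ∈ comp g s := by
    rw [mem_comp h] at hu ⊢
    exact hu.tail huv
  rw [LD_isAnc, LD_isAnc]
  exact ((LDInv.iter h (2 * g.length)).edge u ((mem_dfs h).2 hu) v ((mem_dfs h).2 hv) huv).symm

end Pool.Agent.PFire
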