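import Pool.Agent.Lib.PFire.Homology

/-!
# Chunk PS: the side lemma (necessity of the left-right constraints)

`DTree`: a depth first search tree of the graph of the map.  `pos v d` = number of rotation steps from the
parent dart of `v` to `d`.

Proof of `side_lemma`.  Let `w = head e`, `w'' = head f` (a strict ancestor of `w`).  Let `Z` be the
indicator function of the fundamental cycle of `f`: the darts `f`, `al f`, and `par q`, `al (par q)` for the
vertices `q` on the tree path from `tail f` up to `w''` (excluded).  It is even, so `Z = δ c` with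
`c : F → ZMod 2` (`boundary_of_even`).  Write `κ d = c (face d)`.  Around a vertex `q`:
`κ (sg d) = c (face (al d)) = κ d + Z d`.
* At a vertex `q` on the path strictly below `w''`, with the other dart `y_q ≠ par q` of the cycle
  (`y_q = f` or the child dart on the path): `κ d = κ (sg (par q))` for the darts `d ≠ par q` with
  `pos q d ≤ pos q y_q`, and `κ d = κ (sg (par q)) + 1` for those with `pos q d > pos q y_q`.
* `κ (sg (par q'))` is the same for all `q'` on the path: if `q'` is the child of `q` on the path, then
  `κ (sg (par q')) = c (face (al (par q')))` and `al (par q')` is the child dart `y_q`, with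
  `κ y_q = κ (sg (par q))`.
* `e` is not on the cycle and `κ e = κ (al e)` (`Z e = 0`).  `κ e = κ x`: this is trivial for `x = e`;
  otherwise walk in the subtree of `head x`, which has no vertex of the cycle: `κ` is constant on all the darts
  at a vertex of this subtree and on the two sides of its tree edges, and `κ x = κ (al x)`.
So `pos u x < pos u y ↔ κ x = κ (sg (par u)) ↔ κ (al e) = κ (sg (par w)) ↔ pos w (al e) < pos w ch`.
-/

set_option autoImplicit false

namespace Pool.Agent.PFire

open Relation

variable {D V F : Type}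

/-- A depth first search tree with root `s`: parent darts. -/
structure DTree (M : PMap D V F) (s : V) where
  par : V → D
  par_tail : ∀ v, v ≠ s → M.tail (par v) = v

namespace DTree

variable {M : PMap D V F} {s : V} (T : DTree M s)

open Classical in
/-- the parent -/
noncomputable def up (v : V) : V := if v = s then s else M.head (T.par v)

/-- `a` is an ancestor of `v` or `a = v` -/
def Anc (a v : V) : Prop := ∃ n : ℕ, T.up^[n] v = a

/-- back edges, as darts from the lower to the upper end -/
def Back (e : D) : Prop := T.Anc (M.head e) (M.tail e) ∧ M.head e ≠ M.tail e ∧ T.par (M.tail e) ≠ e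

/-- darts to children -/
def Child (x : D) : Prop := M.head x ≠ s ∧ T.par (M.head x) = M.al x

/-- the back edge `e` goes through the direction `x` to a strict ancestor of `tail x` -/
def Thru (x e : D) : Prop :=
  T.Back e ∧ (x = e ∨ (T.Child x ∧ T.Anc (M.head x) (M.tail e) ∧ T.Anc (M.head e) (M.tail x) ∧
    M.head e ≠ M.tail x))

/-- position of the dart `d` after the parent dart of `v` -/
noncomputable def pos (v : V) (d : D) : ℕ := sInf {n : ℕ | M.sg^[n] (T.par v) = d}

end DTree

/-! ### Elementary facts on maps -/

private lemma ps_head_al (M : PMap D V F) (d : D) : M.head (M.al d) = M.tail d := by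
  unfold PMap.head; rw [M.al_al]

private lemma ps_tail_al (M : PMap D V F) (d : D) : M.tail (M.al d) = M.head d := rfl

private lemma ps_tail_sg (M : PMap D V F) (d : D) : M.tail (M.sg d) = M.tail d := by
  unfold PMap.sg; rw [M.tail_phi, M.al_al]

private lemma ps_face_sg (M : PMap D V F) (d : D) : M.face (M.sg d) = M.face (M.al d) := by
  unfold PMap.sg; rw [M.face_phi]

private lemma ps_al_inj (M : PMap D V F) {d d' : D} (h : M.al d = M.al d') : d = d' := by
  rw [← M.al_al d, h, M.al_al]

private lemma ps_sg_inj (M : PMap D V F) : Function.Injective M.sg := by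
  intro d d' h
  unfold PMap.sg at h
  exact ps_al_inj M (M.phi.injective h)

private lemma ps_tail_iter (M : PMap D V F) (d : D) (n : ℕ) : M.tail (M.sg^[n] d) = M.tail d := by
  induction n with
  | zero => rfl
  | succ n ih => rw [Function.iterate_succ_apply', ps_tail_sg, ih]

/-! ### Depth in the tree -/

namespace DTree

variable {M : PMap D V F} {s : V} (T : DTree M s)

private lemma ps_up_s : T.up s = s := by
  unfold up; simp

private lemma ps_up_ne {v : V} (h : v ≠ s) : T.up v = M.head (T.par v) := by
  unfold up; rw [if_neg h]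

private lemma ps_up_iter_s (n : ℕ) : T.up^[n] s = s := by
  induction n with
  | zero => rfl
  | succ n ih => rw [Function.iterate_succ_apply, T.ps_up_s, ih]

/-- depth -/
private noncomputable def dep (v : V) : ℕ := sInf {n : ℕ | T.up^[n] v = s}

variable (hroot : ∀ v, T.Anc s v)
include hroot

private lemma ps_dep_spec (v : V) : T.up^[T.dep v] v = s := by
  have : T.dep v ∈ {n : ℕ | T.up^[n] v = s} := Nat.sInf_mem (hroot v)
  exact this

omit hroot in
private lemma ps_dep_le {v : V} {n : ℕ} (h : T.up^[n] v = s) : T.dep v ≤ n := Nat.sInf_le h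

omit hroot in
private lemma ps_dep_s : T.dep s = 0 := Nat.le_zero.1 (T.ps_dep_le (n := 0) rfl)

private lemma ps_dep_zero {v : V} (h : T.dep v = 0) : v = s := by
  have := T.ps_dep_spec hroot v
  rw [h] at this
  exact this

private lemma ps_dep_up (v : V) : T.dep (T.up v) = T.dep v - 1 := by
  by_cases hv : v = s
  · subst hv
    rw [T.ps_up_s, T.ps_dep_s]
  · have h0 : T.dep v ≠ 0 := fun h => hv (T.ps_dep_zero hroot h)
    obtain ⟨m, hm⟩ := Nat.exists_eq_succ_of_ne_zero h0
    have h1 := T.ps_dep_spec hroot v
    rw [hm, Function.iterate_succ_apply] at h1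
    have h2 := T.ps_dep_le h1
    have h3 := T.ps_dep_spec hroot (T.up v)
    rw [← Function.iterate_succ_apply] at h3
    have h4 := T.ps_dep_le h3
    omega

private lemma ps_dep_iter (v : V) (n : ℕ) : T.dep (T.up^[n] v) = T.dep v - n := by
  induction n with
  | zero => rfl
  | succ n ih => rw [Function.iterate_succ_apply', T.ps_dep_up hroot, ih]; omega

private lemma ps_dep_up_lt {v : V} (hv : v ≠ s) : T.dep (T.up v) + 1 = T.dep v := by
  have h0 : T.dep v ≠ 0 := fun h => hv (T.ps_dep_zero hroot h)
  rw [T.ps_dep_up hroot]; omega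

private lemma ps_anc {a v : V} (h : T.Anc a v) :
    T.dep a ≤ T.dep v ∧ T.up^[T.dep v - T.dep a] v = a := by
  obtain ⟨n, rfl⟩ := h
  rw [T.ps_dep_iter hroot]
  refine ⟨by omega, ?_⟩
  by_cases hn : n ≤ T.dep v
  · congr 2; omega
  · push Not at hn
    have h1 : T.dep v - (T.dep v - n) = T.dep v := by omega
    rw [h1, T.ps_dep_spec hroot]
    have h2 : n = (n - T.dep v) + T.dep v := by omega
    rw [h2, Function.iterate_add_apply, T.ps_dep_spec hroot, T.ps_up_iter_s]

private lemma ps_anc_eq {a b v : V} (ha : T.Anc a v) (hb : T.Anc b v) (h : T.dep a = T.dep b) :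
    a = b := by
  rw [← (T.ps_anc hroot ha).2, ← (T.ps_anc hroot hb).2, h]

omit hroot in
private lemma ps_anc_refl (v : V) : T.Anc v v := ⟨0, rfl⟩

omit hroot in
private lemma ps_anc_trans {a b v : V} (ha : T.Anc a b) (hb : T.Anc b v) : T.Anc a v := by
  obtain ⟨n, rfl⟩ := ha
  obtain ⟨m, rfl⟩ := hb
  exact ⟨n + m, Function.iterate_add_apply _ _ _ _⟩

omit hroot in
private lemma ps_anc_up (v : V) : T.Anc (T.up v) v := ⟨1, rfl⟩

private lemma ps_anc_of_le {a b v : V} (ha : T.Anc a v) (hb : T.Anc b v) (h : T.dep a ≤ T.dep b) :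
    T.Anc a b := by
  refine ⟨T.dep b - T.dep a, ?_⟩
  have h1 := T.ps_anc hroot ha
  have h2 := T.ps_anc hroot hb
  have h3 : T.up^[T.dep b - T.dep a] b = T.up^[T.dep b - T.dep a] (T.up^[T.dep v - T.dep b] v) := by
    rw [h2.2]
  have : T.dep b - T.dep a + (T.dep v - T.dep b) = T.dep v - T.dep a := by omega
  rw [h3, ← Function.iterate_add_apply, this, h1.2]

private lemma ps_anc_lt {a v : V} (h : T.Anc a v) (hne : a ≠ v) : T.dep a < T.dep v := by
  have h1 := T.ps_anc hroot h
  rcases Nat.lt_or_ge (T.dep a) (T.dep v) with h2 | h2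
  · exact h2
  · exfalso
    exact hne (T.ps_anc_eq hroot h (T.ps_anc_refl v) (by omega))

omit hroot in
private lemma ps_child_up {x : D} (h : T.Child x) : T.up (M.head x) = M.tail x := by
  rw [T.ps_up_ne h.1, h.2, ps_head_al]

private lemma ps_child_dep {x : D} (h : T.Child x) : T.dep (M.tail x) + 1 = T.dep (M.head x) := by
  rw [← T.ps_child_up h]; exact T.ps_dep_up_lt hroot h.1

omit hroot in
private lemma ps_back_par {e : D} (h : T.Back e) {q : V} (hq : q ≠ s) : e ≠ T.par q := by
  intro he
  apply h.2.2
  have : M.tail e = q := by rw [he, T.par_tail q hq]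
  rw [this, he]

private lemma ps_back_al {e : D} (h : T.Back e) {q : V} (hq : q ≠ s) : e ≠ M.al (T.par q) := by
  intro he
  have h1 : M.tail e = T.up q := by rw [he, ps_tail_al, T.ps_up_ne hq]
  have h2 : M.head e = q := by rw [he, ps_head_al, T.par_tail q hq]
  have h3 := T.ps_anc_lt hroot h.1 h.2.1
  have h4 := T.ps_dep_up_lt hroot hq
  rw [h1, h2] at h3
  omega

end DTree

/-! ### Indicator functions of edges -/

open Classical in
/-- indicator function of the edge of `d0` -/
private noncomputable def psInd (M : PMap D V F) (d0 d : D) : ZMod 2 :=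
  (if d = d0 then 1 else 0) + (if d = M.al d0 then 1 else 0)

private lemma psInd_self (M : PMap D V F) (d0 : D) : psInd M d0 d0 = 1 := by
  unfold psInd
  rw [if_pos rfl, if_neg (fun h => M.al_ne d0 h.symm)]; rfl

private lemma psInd_al_self (M : PMap D V F) (d0 : D) : psInd M d0 (M.al d0) = 1 := by
  unfold psInd
  rw [if_neg (M.al_ne d0), if_pos rfl]; rfl

private lemma psInd_zero (M : PMap D V F) {d0 d : D} (h1 : d ≠ d0) (h2 : d ≠ M.al d0) :
    psInd M d0 d = 0 := by
  unfold psInd
  rw [if_neg h1, if_neg h2]; rfl

open Classical in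
private lemma psInd_al (M : PMap D V F) (d0 d : D) : psInd M d0 (M.al d) = psInd M d0 d := by
  unfold psInd
  have h1 : M.al d = d0 ↔ d = M.al d0 := by
    constructor
    · intro h; rw [← h, M.al_al]
    · intro h; rw [h, M.al_al]
  have h2 : M.al d = M.al d0 ↔ d = d0 := ⟨fun h => ps_al_inj M h, fun h => by rw [h]⟩
  have e1 : (if M.al d = d0 then (1 : ZMod 2) else 0) = if d = M.al d0 then 1 else 0 := if_congr h1 rfl rfl
  have e2 : (if M.al d = M.al d0 then (1 : ZMod 2) else 0) = if d = d0 then 1 else 0 := if_congr h2 rfl rfl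
  rw [e1, e2, add_comm]

open Classical in
private lemma psInd_sum [Fintype D] (M : PMap D V F) (d0 : D) (v : V) :
    ∑ d ∈ Finset.univ.filter (fun d => M.tail d = v), psInd M d0 d =
      (if M.tail d0 = v then 1 else 0) + (if M.head d0 = v then 1 else 0) := by
  unfold psInd
  rw [Finset.sum_add_distrib, Finset.sum_ite_eq', Finset.sum_ite_eq']
  simp only [Finset.mem_filter, Finset.mem_univ, true_and]
  rfl

/-! ### The walk around a vertex -/

private lemma ps_rot (M : PMap D V F) (κ Z : D → ZMod 2) (hκ : ∀ d, κ (M.sg d) = κ d + Z d)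
    (p y d : D) (hyp : y ≠ p) (hdp : d ≠ p) (htd : ∃ n, M.sg^[n] p = d) (hty : ∃ n, M.sg^[n] p = y)
    (hZy : Z y = 1) (hZ : ∀ d', M.tail d' = M.tail p → d' ≠ p → d' ≠ y → Z d' = 0) :
    κ d = κ (M.sg p) ↔ sInf {n : ℕ | M.sg^[n] p = d} ≤ sInf {n : ℕ | M.sg^[n] p = y} := by
  set N := sInf {n : ℕ | M.sg^[n] p = d} with hN
  set m := sInf {n : ℕ | M.sg^[n] p = y} with hm
  have hNs : M.sg^[N] p = d := Nat.sInf_mem htd
  have hms : M.sg^[m] p = y := Nat.sInf_mem hty
  have hN0 : N ≠ 0 := by
    intro h; rw [h] at hNs; exact hdp hNs.symm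
  have hm0 : m ≠ 0 := by
    intro h; rw [h] at hms; exact hyp hms.symm
  have hNmin : ∀ k, M.sg^[k] p = d → N ≤ k := fun k hk => Nat.sInf_le hk
  have hmmin : ∀ k, M.sg^[k] p = y → m ≤ k := fun k hk => Nat.sInf_le hk
  -- no return before `N`
  have hret : ∀ j, 0 < j → j ≤ N → M.sg^[j] p ≠ p := by
    intro j hj hjN h
    have h1 : M.sg^[N - j] p = d := by
      rw [← hNs]
      conv_rhs => rw [show N = (N - j) + j by omega, Function.iterate_add_apply, h]
    have := hNmin _ h1
    omega
  have hret' : ∀ j, 0 < j → j ≤ m → M.sg^[j] p ≠ p := by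
    intro j hj hjN h
    have h1 : M.sg^[m - j] p = y := by
      rw [← hms]
      conv_rhs => rw [show m = (m - j) + j by omega, Function.iterate_add_apply, h]
    have := hmmin _ h1
    omega
  -- first part
  have hA : ∀ k, k + 1 ≤ m → κ (M.sg^[k + 1] p) = κ (M.sg p) := by
    intro k
    induction k with
    | zero => intro _; rfl
    | succ k ih =>
      intro hk
      rw [Function.iterate_succ_apply', hκ, ih (by omega), hZ _ (ps_tail_iter M p _)
        (hret' _ (by omega) (by omega)), add_zero]
      intro h
      have := hmmin _ h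
      omega
  by_cases hle : N ≤ m
  · refine ⟨fun _ => hle, fun _ => ?_⟩
    rw [← hNs]
    obtain ⟨k, hk⟩ := Nat.exists_eq_succ_of_ne_zero hN0
    rw [hk]
    exact hA k (by omega)
  · push Not at hle
    have hB : ∀ k, m + 1 + k ≤ N → κ (M.sg^[m + 1 + k] p) = κ (M.sg p) + 1 := by
      intro k
      induction k with
      | zero =>
        intro _
        obtain ⟨k, hk⟩ := Nat.exists_eq_succ_of_ne_zero hm0
        rw [Nat.add_zero, Function.iterate_succ_apply', hκ, hms, hZy]
        rw [← hms, hk]
        rw [hA k (by omega)]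
      | succ k ih =>
        intro hk
        rw [← Nat.add_assoc, Function.iterate_succ_apply', hκ, ih (by omega),
          hZ _ (ps_tail_iter M p _) (hret _ (by omega) (by omega)), add_zero]
        intro h
        have h1 : M.sg^[m] (M.sg^[1 + k] p) = M.sg^[m] p := by
          rw [← Function.iterate_add_apply, ← Nat.add_assoc, h, hms]
        exact hret (1 + k) (by omega) (by omega) ((ps_sg_inj M).iterate m h1)
    constructor
    · intro h
      exfalso
      have h1 := hB (N - (m + 1)) (by omega)
      rw [show m + 1 + (N - (m + 1)) = N by omega, hNs, h] at h1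
      have h2 : (1 : ZMod 2) = 0 := by
        have := congrArg (fun z => z - κ (M.sg p)) h1
        simp at this
      exact absurd h2 (by decide)
    · intro h; omega

theorem side_lemma [Fintype D] [Fintype V] [Fintype F] (M : PMap D V F) (hE : M.Euler)
    (hconn : ∀ v w, ReflTransGen M.Adj v w) {s : V} (T : DTree M s)
    (hroot : ∀ v, T.Anc s v) (hdfs : ∀ d, T.Anc (M.tail d) (M.head d) ∨ T.Anc (M.head d) (M.tail d))
    (hloop : ∀ d, M.tail d ≠ M.head d)
    (hsimple : ∀ d d', M.tail d = M.tail d' → M.head d = M.head d' → d = d')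
    (u : V) (x y e f ch : D) (hus : u ≠ s) (hx : M.tail x = u) (hy : M.tail y = u) (hxy : x ≠ y)
    (hxe : T.Thru x e) (hyf : T.Thru y f) (hlt : T.Anc (M.head f) (M.head e))
    (hne : M.head f ≠ M.head e) (hch : M.tail ch = M.head e) (hch' : T.Child ch)
    (hche : T.Anc (M.head ch) (M.tail e)) :
    T.pos u x < T.pos u y ↔ T.pos (M.head e) (M.al e) < T.pos (M.head e) ch := by
  classical
  have hbe := hxe.1
  have hbf := hyf.1
  set t := M.tail f with ht
  set P : ℕ → V := fun i => T.up^[i] t with hP
  set n := T.dep t - T.dep (M.head f) with hn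
  have hPn : P n = M.head f := (T.ps_anc hroot hbf.1).2
  have hft : T.dep (M.head f) < T.dep t := T.ps_anc_lt hroot hbf.1 hbf.2.1
  have hPdep : ∀ i, T.dep (P i) = T.dep t - i := fun i => T.ps_dep_iter hroot t i
  have hPinj : ∀ i j, i ≤ n → j ≤ n → P i = P j → i = j := by
    intro i j hi hj h
    have h1 := hPdep i
    have h2 := hPdep j
    rw [h] at h1
    omega
  have hPs : ∀ i, i < n → P i ≠ s := by
    intro i hi h
    have h1 := hPdep i
    rw [h, T.ps_dep_s] at h1
    omega
  have hPsucc : ∀ i, P (i + 1) = T.up (P i) := fun i => Function.iterate_succ_apply' _ _ _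
  set Y : ℕ → D := fun i => match i with
    | 0 => f
    | j + 1 => M.al (T.par (P j)) with hY
  have hYtail : ∀ i, i ≤ n → M.tail (Y i) = P i := by
    intro i hi
    cases i with
    | zero => rfl
    | succ j =>
      show M.tail (M.al (T.par (P j))) = P (j + 1)
      rw [ps_tail_al, hPsucc, T.ps_up_ne (hPs j (by omega))]
  -- the cycle
  set Z : D → ZMod 2 := fun d => psInd M f d + ∑ i ∈ Finset.range n, psInd M (T.par (P i)) d with hZ
  have hZsym : ∀ d, Z (M.al d) = Z d := by
    intro d
    simp only [hZ, psInd_al]
  have hZeven : ∀ v, ∑ d ∈ Finset.univ.filter (fun d => M.tail d = v), Z d = 0 := by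
    intro v
    simp only [hZ]
    rw [Finset.sum_add_distrib, psInd_sum, Finset.sum_comm]
    have h1 : ∀ i ∈ Finset.range n, ∑ d ∈ Finset.univ.filter (fun d => M.tail d = v),
        psInd M (T.par (P i)) d = (if P i = v then (1 : ZMod 2) else 0) + (if P (i + 1) = v then 1 else 0) := by
      intro i hi
      rw [Finset.mem_range] at hi
      rw [psInd_sum, T.par_tail _ (hPs i hi), hPsucc, T.ps_up_ne (hPs i hi)]
    rw [Finset.sum_congr rfl h1]
    have h2 : ∀ k : ℕ, ∑ i ∈ Finset.range k, ((if P i = v then (1 : ZMod 2) else 0) +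
        (if P (i + 1) = v then 1 else 0)) = (if P 0 = v then 1 else 0) + (if P k = v then 1 else 0) := by
      intro k
      induction k with
      | zero =>
        rw [Finset.sum_range_zero]
        generalize (if P 0 = v then (1 : ZMod 2) else 0) = a
        exact (CharTwo.add_self_eq_zero a).symm
      | succ k ih =>
        rw [Finset.sum_range_succ, ih]
        generalize (if P 0 = v then (1 : ZMod 2) else 0) = a
        generalize (if P k = v then (1 : ZMod 2) else 0) = b
        generalize (if P (k + 1) = v then (1 : ZMod 2) else 0) = c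
        have := CharTwo.add_self_eq_zero b
        linear_combination this
    rw [h2 n, hPn]
    show (if t = v then (1 : ZMod 2) else 0) + (if M.head f = v then 1 else 0) +
      ((if t = v then 1 else 0) + (if M.head f = v then 1 else 0)) = 0
    exact CharTwo.add_self_eq_zero _
  obtain ⟨c, hc⟩ := boundary_of_even M hE hconn Z hZsym hZeven
  set κ : D → ZMod 2 := fun d => c (M.face d) with hκdef
  have hκ : ∀ d, κ (M.sg d) = κ d + Z d := by
    intro d
    simp only [hκdef]
    rw [ps_face_sg, hc d]
    have := CharTwo.add_self_eq_zero (c (M.face d))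
    linear_combination -this
  have hκal : ∀ d, Z d = 0 → κ (M.al d) = κ d := by
    intro d hd
    have h1 := hc d
    rw [hd] at h1
    have := CharTwo.add_self_eq_zero (c (M.face d))
    simp only [hκdef]
    linear_combination -h1 - this
  have hκsg : ∀ d, κ (M.sg d) = κ (M.al d) := by
    intro d
    simp only [hκdef]
    rw [ps_face_sg]
  -- values of `Z`
  have hZoff : ∀ d, (∀ i, i ≤ n → M.tail d ≠ P i) → Z d = 0 := by
    intro d hd
    simp only [hZ]
    rw [psInd_zero, Finset.sum_eq_zero, add_zero]
    · intro i hi
      rw [Finset.mem_range] at hi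
      apply psInd_zero
      · intro h
        exact hd i (by omega) (by rw [h, T.par_tail _ (hPs i hi)])
      · intro h
        exact hd (i + 1) (by omega) (by rw [h, ps_tail_al, hPsucc, T.ps_up_ne (hPs i hi)])
    · intro h; exact hd 0 (by omega) (by rw [h]; rfl)
    · intro h; exact hd n le_rfl (by rw [h, ps_tail_al, hPn])
  have hZat : ∀ i, i < n → ∀ d, M.tail d = P i → d ≠ T.par (P i) → d ≠ Y i → Z d = 0 := by
    intro i hi d hd h1 h2
    simp only [hZ]
    rw [psInd_zero, Finset.sum_eq_zero, add_zero]
    · intro j hj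
      rw [Finset.mem_range] at hj
      apply psInd_zero
      · intro h
        have h3 : P i = P j := by rw [← hd, h, T.par_tail _ (hPs j hj)]
        have := hPinj i j (by omega) (by omega) h3
        subst this
        exact h1 h
      · intro h
        have h3 : P i = P (j + 1) := by rw [← hd, h, ps_tail_al, hPsucc, T.ps_up_ne (hPs j hj)]
        have := hPinj i (j + 1) (by omega) (by omega) h3
        subst this
        exact h2 h
    · intro h
      have h3 : P i = P 0 := by rw [← hd, h]; rfl
      have := hPinj i 0 (by omega) (by omega) h3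
      subst this
      exact h2 h
    · intro h
      have h3 : P i = P n := by rw [← hd, h, ps_tail_al, hPn]
      have := hPinj i n (by omega) (by omega) h3
      omega
  have hZY : ∀ i, i < n → Z (Y i) = 1 := by
    intro i hi
    simp only [hZ]
    cases i with
    | zero =>
      show psInd M f f + ∑ i ∈ Finset.range n, psInd M (T.par (P i)) f = 1
      rw [psInd_self, Finset.sum_eq_zero, add_zero]
      intro j hj
      rw [Finset.mem_range] at hj
      exact psInd_zero M (T.ps_back_par hbf (hPs j hj)) (T.ps_back_al hroot hbf (hPs j hj))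
    | succ j =>
      show psInd M f (M.al (T.par (P j))) + ∑ i ∈ Finset.range n, psInd M (T.par (P i)) (M.al (T.par (P j))) = 1
      have hjs := hPs j (by omega)
      rw [psInd_zero, zero_add, Finset.sum_eq_single j, psInd_al_self]
      · intro j' hj' hne'
        rw [Finset.mem_range] at hj'
        apply psInd_zero
        · intro h
          have h3 : P (j + 1) = P j' := by
            have := congrArg M.tail h
            rwa [ps_tail_al, T.par_tail _ (hPs j' hj'), ← T.ps_up_ne hjs, ← hPsucc] at this
          have h4 := hPinj _ _ (by omega) (by omega) h3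
          subst h4
          have h5 := congrArg M.head h
          rw [ps_head_al, T.par_tail _ hjs, ← T.ps_up_ne (hPs _ hj'), ← hPsucc] at h5
          have := hPinj _ _ (by omega) (by omega) h5
          omega
        · intro h
          have h3 := congrArg M.tail (ps_al_inj M h)
          rw [T.par_tail _ hjs, T.par_tail _ (hPs j' hj')] at h3
          exact hne' (hPinj _ _ (by omega) (by omega) h3).symm
      · intro h
        exfalso
        exact h (Finset.mem_range.2 (by omega))
      · intro h
        exact T.ps_back_al hroot hbf hjs h.symm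
      · intro h
        exact T.ps_back_par hbf hjs (ps_al_inj M h).symm
  have hYpar : ∀ i, i < n → Y i ≠ T.par (P i) := by
    intro i hi
    cases i with
    | zero => exact T.ps_back_par hbf (hPs 0 hi)
    | succ j =>
      intro h
      have h' : M.al (T.par (P j)) = T.par (P (j + 1)) := h
      have h5 := congrArg M.head h'
      rw [ps_head_al, T.par_tail _ (hPs j (by omega)), ← T.ps_up_ne (hPs _ hi), ← hPsucc] at h5
      have := hPinj _ _ (by omega) (by omega) h5
      omega
  have horb : ∀ i, i < n → ∀ d, M.tail d = P i → ∃ k, M.sg^[k] (T.par (P i)) = d := by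
    intro i hi d hd
    exact M.tail_orbit (T.par (P i)) d (by rw [T.par_tail _ (hPs i hi), hd])
  have hpos : ∀ i, i < n → ∀ d, M.tail d = P i → d ≠ T.par (P i) →
      (κ d = κ (M.sg (T.par (P i))) ↔ T.pos (P i) d ≤ T.pos (P i) (Y i)) := by
    intro i hi d hd hdp
    refine ps_rot M κ Z hκ (T.par (P i)) (Y i) d (hYpar i hi) hdp (horb i hi d hd)
      (horb i hi _ (hYtail i (by omega))) (hZY i hi) ?_
    intro d' h1 h2 h3
    rw [T.par_tail _ (hPs i hi)] at h1
    exact hZat i hi d' h1 h2 h3
  have ha1 : ∀ i, i + 1 < n → κ (M.sg (T.par (P (i + 1)))) = κ (M.sg (T.par (P i))) := by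
    intro i hi
    have h1 : κ (M.sg (T.par (P i))) = κ (Y (i + 1)) := hκsg _
    rw [h1]
    exact ((hpos (i + 1) hi (Y (i + 1)) (hYtail (i + 1) hi.le) (hYpar (i + 1) hi)).2 le_rfl).symm
  have ha0 : ∀ i, i < n → κ (M.sg (T.par (P i))) = κ (M.sg (T.par (P 0))) := by
    intro i
    induction i with
    | zero => intro _; rfl
    | succ i ih => intro hi; rw [ha1 i hi, ih (by omega)]
  -- injectivity of positions
  have hposinj : ∀ i, i < n → ∀ d d', M.tail d = P i → M.tail d' = P i →
      T.pos (P i) d = T.pos (P i) d' → d = d' := by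
    intro i hi d d' hd hd' h
    have h1 : M.sg^[T.pos (P i) d] (T.par (P i)) = d := Nat.sInf_mem (horb i hi d hd)
    have h2 : M.sg^[T.pos (P i) d'] (T.par (P i)) = d' := Nat.sInf_mem (horb i hi d' hd')
    rw [← h1, h, h2]
  -- position of `u`
  have hu : ∃ i, i < n ∧ u = P i ∧ y = Y i := by
    rcases hyf.2 with h | ⟨hcy, h1, h2, h3⟩
    · exact ⟨0, by omega, by rw [← hy, h]; rfl, h⟩
    · have h4 := T.ps_anc hroot h1
      have h5 := T.ps_child_dep hroot hcy
      have h6 := T.ps_anc_lt hroot h2 h3
      refine ⟨T.dep t - T.dep (M.head y) + 1, ?_, ?_, ?_⟩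
      · have h7 := h4.1
        rw [← ht] at h7
        omega
      · rw [hPsucc]
        show u = T.up (T.up^[T.dep t - T.dep (M.head y)] t)
        rw [h4.2, T.ps_child_up hcy, hy]
      · show y = M.al (T.par (T.up^[T.dep t - T.dep (M.head y)] t))
        rw [h4.2, hcy.2, M.al_al]
  obtain ⟨i, hi, hui, hyi⟩ := hu
  have hut : T.Anc u t := ⟨i, hui.symm⟩
  -- `w` is above `u`, `u` is above `tail e`
  have hwu : T.dep (M.head e) < T.dep u := by
    rcases hxe.2 with h | ⟨_, _, h2, h3⟩
    · have := T.ps_anc_lt hroot hbe.1 hbe.2.1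
      rw [← h, hx] at this
      rw [← h]
      exact this
    · have := T.ps_anc_lt hroot h2 h3
      rwa [hx] at this
  have hue : T.Anc u (M.tail e) := by
    rcases hxe.2 with h | ⟨hcx, h1, _, _⟩
    · rw [← h, hx]; exact T.ps_anc_refl u
    · refine T.ps_anc_trans ?_ h1
      have := T.ps_anc_up (M.head x)
      rwa [T.ps_child_up hcx, hx] at this
  have hchd := T.ps_child_dep hroot hch'
  rw [hch] at hchd
  have hcu : T.Anc (M.head ch) u := T.ps_anc_of_le hroot hche hue (by omega)
  have hct : T.Anc (M.head ch) t := T.ps_anc_trans hcu hut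
  have hww := T.ps_anc_lt hroot hlt hne
  have hut' := (T.ps_anc hroot hut).1
  have hctl := (T.ps_anc hroot hct)
  have hw : ∃ j, j < n ∧ M.head e = P j ∧ ch = Y j := by
    refine ⟨T.dep t - T.dep (M.head ch) + 1, ?_, ?_, ?_⟩
    · omega
    · rw [hPsucc]
      show M.head e = T.up (T.up^[T.dep t - T.dep (M.head ch)] t)
      rw [hctl.2, T.ps_child_up hch', hch]
    · show ch = M.al (T.par (T.up^[T.dep t - T.dep (M.head ch)] t))
      rw [hctl.2, hch'.2, M.al_al]
  obtain ⟨j, hj, hwj, hchj⟩ := hw
  -- `Z e = 0`
  have hZe : Z e = 0 := by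
    simp only [hZ]
    rw [psInd_zero, Finset.sum_eq_zero, add_zero]
    · intro k hk
      rw [Finset.mem_range] at hk
      exact psInd_zero M (T.ps_back_par hbe (hPs k hk)) (T.ps_back_al hroot hbe (hPs k hk))
    · intro h; exact hne (by rw [h])
    · intro h
      have : M.head e = t := by rw [h, ps_head_al]
      rw [this] at hwu
      omega
  -- `κ e = κ x`
  have hκex : κ e = κ x := by
    rcases hxe.2 with h | ⟨hcx, h1, h2, h3⟩
    · rw [h]
    · have hxd := T.ps_child_dep hroot hcx
      rw [hx] at hxd
      have hnot : ¬ T.Anc (M.head x) t := by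
        intro h
        rcases hyf.2 with h4 | ⟨hcy, h5, _, _⟩
        · have h6 : t = u := by rw [ht, ← h4, hy]
          have := (T.ps_anc hroot h).1
          rw [h6] at this
          omega
        · have h7 := T.ps_child_dep hroot hcy
          rw [hy] at h7
          have h8 := T.ps_anc_eq hroot h h5 (by omega)
          have h9 : M.al x = M.al y := by rw [← hcx.2, ← hcy.2, h8]
          exact hxy (ps_al_inj M h9)
      have hoff : ∀ p, T.Anc (M.head x) p → ∀ k, k ≤ n → p ≠ P k := by
        intro p hp k _ h
        apply hnot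
        refine T.ps_anc_trans hp ⟨k, ?_⟩
        rw [h]
      have hconst : ∀ p, T.Anc (M.head x) p → ∀ d d', M.tail d = p → M.tail d' = p → κ d' = κ d := by
        intro p hp d d' hd hd'
        obtain ⟨k, hk⟩ := M.tail_orbit d d' (by rw [hd, hd'])
        have hall : ∀ k, κ (M.sg^[k] d) = κ d := by
          intro k
          induction k with
          | zero => rfl
          | succ k ih =>
            rw [Function.iterate_succ_apply', hκ, ih, hZoff, add_zero]
            intro i hi'
            rw [ps_tail_iter, hd]
            exact hoff p hp i hi'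
        rw [← hk]
        exact hall k
      have hwalk : ∀ k p, T.up^[k] p = M.head x → ∀ d, M.tail d = p → κ d = κ x := by
        intro k
        induction k with
        | zero =>
          intro p hp d hd
          have hp' : p = M.head x := hp
          have h4 : κ (M.al (M.al x)) = κ (M.al x) := by
            apply hκal
            apply hZoff
            intro i hi'
            exact hoff (M.head x) (T.ps_anc_refl _) i hi'
          rw [M.al_al] at h4
          rw [h4]
          exact hconst p ⟨0, hp⟩ _ _ (by rw [ps_tail_al, hp']) hd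
        | succ k ih =>
          intro p hp d hd
          by_cases hps : p = s
          · exfalso
            rw [hps, T.ps_up_iter_s] at hp
            exact hcx.1 hp.symm
          · have hanc : T.Anc (M.head x) p := ⟨k + 1, hp⟩
            rw [Function.iterate_succ_apply] at hp
            have h4 := ih (T.up p) hp (M.al (T.par p)) (by rw [ps_tail_al, T.ps_up_ne hps])
            have h5 : κ (M.al (T.par p)) = κ (T.par p) := by
              apply hκal
              apply hZoff
              intro i hi'
              rw [T.par_tail p hps]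
              exact hoff p hanc i hi'
            rw [← h4, h5]
            exact hconst p hanc _ _ (T.par_tail p hps) hd
      obtain ⟨k, hk⟩ := h1
      exact hwalk k (M.tail e) hk e rfl
  have hκe : κ (M.al e) = κ e := hκal e hZe
  -- `x` at `u`
  have hxpar : x ≠ T.par (P i) := by
    rcases hxe.2 with h | ⟨hcx, _, _, _⟩
    · rw [h]; exact T.ps_back_par hbe (hPs i hi)
    · intro h
      have h1 := T.ps_child_dep hroot hcx
      have h2 : M.head x = T.up u := by rw [h, ← T.ps_up_ne (hPs i hi), hui]
      have h3 := T.ps_dep_up_lt hroot hus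
      rw [h2, hx] at h1
      omega
  have hxu := hpos i hi x (by rw [hx, hui]) hxpar
  have hyY : M.tail (Y i) = P i := hYtail i (by omega)
  have h1 : T.pos u x < T.pos u y ↔ κ x = κ (M.sg (T.par (P i))) := by
    rw [hui, hyi, hxu]
    constructor
    · intro h; exact h.le
    · intro h
      refine lt_of_le_of_ne h fun h' => ?_
      exact hxy ((hposinj i hi x (Y i) (by rw [hx, hui]) hyY h').trans hyi.symm)
  -- `al e` at `w`
  have hepar : M.al e ≠ T.par (P j) := by
    intro h
    exact T.ps_back_al hroot hbe (hPs j hj) (by rw [← h, M.al_al])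
  have heY : M.al e ≠ Y j := by
    rw [← hchj]
    intro h
    have h1 : M.head ch = M.tail e := by rw [← h, ps_head_al]
    have h2 := hch'.2
    rw [← h, M.al_al, ps_head_al] at h2
    exact hbe.2.2 h2
  have hwe := hpos j hj (M.al e) (by rw [ps_tail_al, hwj]) hepar
  have h2 : T.pos (M.head e) (M.al e) < T.pos (M.head e) ch ↔ κ (M.al e) = κ (M.sg (T.par (P j))) := by
    rw [hwj, hchj, hwe]
    constructor
    · intro h; exact h.le
    · intro h
      refine lt_of_le_of_ne h fun h' => ?_
      exact heY (hposinj j hj (M.al e) (Y j) (by rw [ps_tail_al, hwj]) (hYtail j (by omega)) h')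
  rw [h1, h2, hκe, hκex, ha0 i hi, ha0 j hj]

end Pool.Agent.PFire
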