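import Pool.Agent.Lib.PFire.LrWord
import Pool.Agent.Lib.PFire.EulerRaw
import Pool.Agent.Lib.PFire.Side

/-!
# Chunk PC: a plane rotation system gives a colouring; the embedding theorem

`colouring_exists`: `M = rawMap` of `rot`, `T` = the depth first search tree of `g` (`par v` = the dart
`(v, par g s v)`).  `c e` = `decide (pos w (al e) < pos w ch)`, `w = e.2`, `ch` the dart from `w` to its child
above `e.1` (`w ≠ s`; for `w = s` any value, such `e` never occurs in a constraint because no `lower y e`).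
`sameC e f` by `x, y` at `u`: there are `e', f'` through `y` with higher upper ends than `e` resp. `f`, and the
side lemma gives `c e ↔ pos u x < pos u y ↔ c f`.  `diffC e f`: `c e ↔ pos u x < pos u y`,
`c f ↔ pos u y < pos u x`.
-/

set_option autoImplicit false

namespace Pool.Agent.PFire

open Pool.Agent.PolyTime

variable {g rot : Rot} {s : ℕ}

private lemma pc_comp (h : RotValid g s) (hr : RotValid rot s)
    (hadj : ∀ u ∈ comp g s, ∀ v, v ∈ nbrs rot u ↔ v ∈ nbrs g u) (v : ℕ) :
    v ∈ comp rot s ↔ v ∈ comp g s := by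
  constructor
  · intro hv
    rw [mem_comp hr] at hv
    induction hv with
    | refl => exact s_mem_comp h
    | tail _ hbc ih =>
      rw [mem_comp h] at ih ⊢
      exact ih.tail ((hadj _ ((mem_comp h).2 ih) _).1 hbc)
  · intro hv
    have hv' := (mem_comp h).1 hv
    have : ∀ w, Relation.ReflTransGen (fun a b => b ∈ nbrs g a) s w → w ∈ comp rot s := by
      intro w hw
      induction hw with
      | refl => exact s_mem_comp hr
      | tail hab hbc ih =>
        rw [mem_comp hr] at ih ⊢
        exact ih.tail ((hadj _ ((mem_comp h).2 hab) _).2 hbc)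
    exact this v hv'

private lemma pc_darts (h : RotValid g s) (hr : RotValid rot s)
    (hadj : ∀ u ∈ comp g s, ∀ v, v ∈ nbrs rot u ↔ v ∈ nbrs g u) (d : Nd) :
    d ∈ darts rot s ↔ d ∈ darts g s := by
  rw [mem_darts hr, mem_darts h, pc_comp h hr hadj]
  constructor
  · rintro ⟨h1, h2⟩; exact ⟨h1, (hadj _ h1 _).1 h2⟩
  · rintro ⟨h1, h2⟩; exact ⟨h1, (hadj _ h1 _).2 h2⟩

open Classical in
/-- the depth first search tree of `g` in the map of `rot` -/
private noncomputable def pcTree (hr : RotValid rot s) (hne : darts rot s ≠ [])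
    (g : Rot) (hpar : ∀ v ∈ comp rot s, v ≠ s → (v, par g s v) ∈ darts rot s) :
    DTree (rawMap hr hne) ⟨s, s_mem_comp hr⟩ where
  par := fun v => if hv : v.1 ≠ s then ⟨(v.1, par g s v.1), hpar v.1 v.2 hv⟩
    else ⟨(darts rot s).head hne, List.head_mem hne⟩
  par_tail := by
    intro v hv
    have hv' : v.1 ≠ s := fun h => hv (Subtype.ext h)
    rw [dif_pos hv']
    rfl

theorem colouring_exists (h : RotValid g s) (hr : RotValid rot s) (hp : RotPlane rot s)
    (hne : darts rot s ≠ [])
    (hadj : ∀ u ∈ comp g s, ∀ v, v ∈ nbrs rot u ↔ v ∈ nbrs g u) : ∃ c, ColOK g s c := by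
  classical
  have hcomp := pc_comp h hr hadj
  have hdarts := pc_darts h hr hadj
  have hpar : ∀ v ∈ comp rot s, v ≠ s → (v, par g s v) ∈ darts rot s := by
    intro v hv hvs
    rw [mem_darts hr]
    refine ⟨hv, ?_⟩
    have hv' := (hcomp v).1 hv
    exact (hadj v hv' _).2 (h.symm _ _ (par_nbr h hv' hvs))
  set M := rawMap hr hne with hM
  set T := pcTree hr hne g hpar with hT
  have hparval : ∀ v : VV rot s, v.1 ≠ s → (T.par v).1 = (v.1, par g s v.1) := by
    intro v hv
    show (if hv : v.1 ≠ s then (⟨(v.1, par g s v.1), hpar v.1 v.2 hv⟩ : DD rot s)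
      else ⟨(darts rot s).head hne, List.head_mem hne⟩).1 = _
    rw [dif_pos hv]
  have hs_iff : ∀ v : VV rot s, v = ⟨s, s_mem_comp hr⟩ ↔ v.1 = s := by
    intro v
    constructor
    · intro h; rw [h]
    · intro h; exact Subtype.ext h
  have hup : ∀ v : VV rot s, (T.up v).1 = par g s v.1 := by
    intro v
    unfold DTree.up
    by_cases hv : v.1 = s
    · rw [if_pos ((hs_iff v).2 hv), hv, par_s h]
    · rw [if_neg (fun h' => hv ((hs_iff v).1 h')), rawMap_head, hparval v hv]
  have hupn : ∀ (n : ℕ) (v : VV rot s), (T.up^[n] v).1 = (par g s)^[n] v.1 := by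
    intro n
    induction n with
    | zero => intro v; rfl
    | succ n ih => intro v; rw [Function.iterate_succ_apply, ih, hup, ← Function.iterate_succ_apply]
  have hanc : ∀ a v : VV rot s, T.Anc a v ↔ isAnc g s a.1 v.1 = true := by
    intro a v
    rw [isAnc_iff h ((hcomp _).1 v.2)]
    constructor
    · rintro ⟨n, rfl⟩; exact ⟨n, (hupn n v).symm⟩
    · rintro ⟨n, hn⟩; exact ⟨n, Subtype.ext (by rw [hupn, hn])⟩
  have hloop : ∀ d : DD rot s, d.1.1 ≠ d.1.2 := by
    intro d hd
    have := ((mem_darts hr).1 d.2).2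
    rw [← hd] at this
    exact hr.irrefl _ this
  have hback : ∀ e : DD rot s, T.Back e ↔ e.1 ∈ backs g s := by
    intro e
    unfold DTree.Back backs
    rw [hanc, List.mem_filter, Bool.and_eq_true, decide_eq_true_eq, ← hdarts]
    simp only [rawMap_head, rawMap_tail]
    constructor
    · rintro ⟨h1, h2, h3⟩
      refine ⟨e.2, h1, ?_⟩
      intro h4
      have hes : e.1.1 ≠ s := by
        intro h5
        rw [h5, par_s h] at h4
        exact hloop e (by rw [h5, h4])
      apply h3
      apply Subtype.ext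
      rw [hparval _ (by rw [rawMap_tail]; exact hes), rawMap_tail]
      exact Prod.ext rfl h4.symm
    · rintro ⟨_, h1, h2⟩
      refine ⟨h1, ?_, ?_⟩
      · intro h3
        exact hloop e (congrArg Subtype.val h3).symm
      · intro h3
        have hes : e.1.1 ≠ s := by
          intro h5
          have h6 := isAnc_antisymm h (s_mem_comp h) (by rw [h5] at h1; exact h1)
            (isAnc_s h ((hcomp _).1 (snd_mem hr e.2)))
          rw [h5, par_s h] at h2
          exact h2 h6
        have h4 := congrArg Subtype.val h3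
        rw [hparval _ (by rw [rawMap_tail]; exact hes), rawMap_tail] at h4
        exact h2 (congrArg Prod.snd h4).symm
  have hchild : ∀ x : DD rot s, T.Child x ↔ isChild g s x.1 = true := by
    intro x
    unfold DTree.Child isChild
    rw [Bool.and_eq_true, decide_eq_true_eq, decide_eq_true_eq, Ne, hs_iff, rawMap_head]
    constructor
    · rintro ⟨h1, h2⟩
      refine ⟨?_, h1⟩
      have h3 := congrArg Subtype.val h2
      rw [hparval _ (by rw [rawMap_head]; exact h1), rawMap_head, rawMap_al] at h3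
      exact congrArg Prod.snd h3
    · rintro ⟨h1, h2⟩
      refine ⟨h2, ?_⟩
      apply Subtype.ext
      rw [hparval _ (by rw [rawMap_head]; exact h2), rawMap_head, rawMap_al, h1]
      rfl
  have hthru : ∀ x e : DD rot s, thru g s x.1 e.1 = true → T.Thru x e := by
    intro x e hxe
    unfold thru at hxe
    simp only [Bool.and_eq_true, Bool.or_eq_true, decide_eq_true_eq] at hxe
    refine ⟨(hback e).2 hxe.1, ?_⟩
    rcases hxe.2 with h1 | ⟨⟨⟨⟨_, h2⟩, h3⟩, h4⟩, h5⟩
    · exact Or.inl (Subtype.ext h1)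
    · refine Or.inr ⟨(hchild x).2 h2, (hanc _ _).2 h3, (hanc _ _).2 h4, ?_⟩
      intro h6
      exact h5 (congrArg Subtype.val h6)
  have hroot : ∀ v, T.Anc ⟨s, s_mem_comp hr⟩ v := fun v => (hanc _ _).2 (isAnc_s h ((hcomp _).1 v.2))
  -- the child dart towards the lower end of a back edge
  have hchex : ∀ e : DD rot s, T.Back e → ∃ ch : DD rot s, M.tail ch = M.head e ∧ T.Child ch ∧
      T.Anc (M.head ch) (M.tail e) := by
    intro e he
    have h1 : ∃ n, T.up^[n] (M.tail e) = M.head e := he.1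
    have h2 := Nat.find_spec h1
    have h3 := fun m => Nat.find_min h1 (m := m)
    set n := Nat.find h1 with hn
    have hn0 : n ≠ 0 := by
      intro h4
      rw [h4] at h2
      exact he.2.1 h2.symm
    obtain ⟨k, hk⟩ := Nat.exists_eq_succ_of_ne_zero hn0
    set p := T.up^[k] (M.tail e) with hp
    have hpw : T.up p = M.head e := by
      rw [← h2, hk, Function.iterate_succ_apply']
    have hpne : p ≠ M.head e := h3 k (by omega)
    have hps : p ≠ ⟨s, s_mem_comp hr⟩ := by
      intro h4
      have h5 : T.up p = p := by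
        unfold DTree.up; rw [if_pos h4, h4]
      exact hpne (by rw [← h5]; exact hpw)
    have hup' : T.up p = M.head (T.par p) := by
      unfold DTree.up; rw [if_neg hps]
    have hhead : M.head (M.al (T.par p)) = p := by
      unfold PMap.head; rw [M.al_al, T.par_tail p hps]
    refine ⟨M.al (T.par p), ?_, ⟨?_, ?_⟩, ?_⟩
    · rw [← hpw, hup']; rfl
    · rw [hhead]; exact hps
    · rw [hhead, M.al_al]
    · rw [hhead]; exact ⟨k, rfl⟩
  -- the colouring
  let c : Nd → Bool := fun e => decide (∃ he : e ∈ darts rot s, ∃ ch : DD rot s,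
    M.tail ch = M.head ⟨e, he⟩ ∧ T.Child ch ∧ T.Anc (M.head ch) (M.tail ⟨e, he⟩) ∧
      T.pos (M.head ⟨e, he⟩) (M.al ⟨e, he⟩) < T.pos (M.head ⟨e, he⟩) ch)
  have key : ∀ (x y e f : DD rot s), M.tail x = M.tail y → x ≠ y → T.Thru x e → T.Thru y f →
      dep g s f.1.2 < dep g s e.1.2 → (c e.1 = true ↔ T.pos (M.tail x) x < T.pos (M.tail x) y) := by
    intro x y e f htail hxy hxe hyf hdep
    have hcu : ∀ x e : DD rot s, T.Thru x e → isAnc g s e.1.2 x.1.1 = true ∧ e.1.2 ≠ x.1.1 := by
      intro x e hxe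
      rcases hxe.2 with h1 | ⟨_, _, h2, h3⟩
      · rw [h1]
        exact ⟨(hanc _ _).1 hxe.1.1, fun h2 => hxe.1.2.1 (Subtype.ext h2)⟩
      · exact ⟨(hanc _ _).1 h2, fun h4 => h3 (Subtype.ext h4)⟩
    have h1 := hcu x e hxe
    have h2 := hcu y f hyf
    have hxy1 : y.1.1 = x.1.1 := (congrArg Subtype.val htail).symm
    rw [hxy1] at h2
    have hxc : x.1.1 ∈ comp g s := (hcomp _).1 (fst_mem hr x.2)
    have hec : e.1.2 ∈ comp g s := (hcomp _).1 (snd_mem hr e.2)
    have hfc : f.1.2 ∈ comp g s := (hcomp _).1 (snd_mem hr f.2)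
    have hne' : f.1.2 ≠ e.1.2 := by
      intro h3; rw [h3] at hdep; exact lt_irrefl _ hdep
    have hlt : isAnc g s f.1.2 e.1.2 = true := by
      rcases isAnc_total h hxc h2.1 h1.1 with h3 | h3
      · exact h3
      · exfalso
        have := dep_lt h hfc h3 hne'.symm
        omega
    have hus : x.1.1 ≠ s := by
      intro h3
      have h4 := h1.1
      rw [h3] at h4
      have h5 := isAnc_antisymm h (s_mem_comp h) h4 (isAnc_s h hec)
      exact h1.2 (by rw [h5, h3])
    have hside : ∀ ch : DD rot s, M.tail ch = M.head e → T.Child ch → T.Anc (M.head ch) (M.tail e) →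
        (T.pos (M.tail x) x < T.pos (M.tail x) y ↔ T.pos (M.head e) (M.al e) < T.pos (M.head e) ch) := by
      intro ch hch hch' hche
      refine side_lemma M (rawMap_euler hr hne hp) (rawMap_conn hr hne) T hroot ?_ ?_ ?_
        (M.tail x) x y e f ch ?_ rfl htail.symm hxy hxe hyf ((hanc _ _).2 hlt) ?_ hch hch' hche
      · intro d
        have hd1 : d.1.1 ∈ comp g s := (hcomp _).1 (fst_mem hr d.2)
        have hd2 : d.1.2 ∈ nbrs g d.1.1 := (hadj _ hd1 _).1 ((mem_darts hr).1 d.2).2
        rcases dfs_edge h hd1 hd2 with h3 | h3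
        · exact Or.inl ((hanc _ _).2 h3)
        · exact Or.inr ((hanc _ _).2 h3)
      · intro d hd
        exact hloop d (congrArg Subtype.val hd)
      · intro d d' h3 h4
        exact Subtype.ext (Prod.ext (congrArg Subtype.val h3) (congrArg Subtype.val h4))
      · intro h3
        exact hus (congrArg Subtype.val h3)
      · intro h3
        exact hne' (congrArg Subtype.val h3)
    simp only [c, decide_eq_true_eq]
    constructor
    · rintro ⟨_, ch, h3, h4, h5, h6⟩
      exact (hside ch h3 h4 h5).2 h6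
    · intro h3
      obtain ⟨ch, h4, h5, h6⟩ := hchex e hxe.1
      exact ⟨e.2, ch, h4, h5, h6, (hside ch h4 h5 h6).1 h3⟩
  -- positions are injective
  have hposinj : ∀ x y : DD rot s, M.tail x = M.tail y → (M.tail x).1 ≠ s →
      T.pos (M.tail x) x = T.pos (M.tail x) y → x = y := by
    intro x y hxy hus hpos
    have hpt : M.tail (T.par (M.tail x)) = M.tail x :=
      T.par_tail _ (fun h3 => hus (congrArg Subtype.val h3))
    have h1 : M.sg^[T.pos (M.tail x) x] (T.par (M.tail x)) = x :=
      Nat.sInf_mem (s := {n : ℕ | M.sg^[n] (T.par (M.tail x)) = x}) (M.tail_orbit _ _ hpt)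
    have h2 : M.sg^[T.pos (M.tail x) y] (T.par (M.tail x)) = y :=
      Nat.sInf_mem (s := {n : ℕ | M.sg^[n] (T.par (M.tail x)) = y}) (M.tail_orbit _ _ (by rw [hpt, hxy]))
    rw [← hpos] at h2
    exact h1.symm.trans h2
  have hthru_s : ∀ x e : DD rot s, T.Thru x e → (M.tail x).1 ≠ s := by
    intro x e hxe h3
    have hec : e.1.2 ∈ comp g s := (hcomp _).1 (snd_mem hr e.2)
    have h3' : x.1.1 = s := h3
    rcases hxe.2 with h1 | ⟨_, _, h2, h4⟩
    · have h5 := (hanc _ _).1 hxe.1.1
      rw [← h1] at h5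
      simp only [rawMap_head, rawMap_tail] at h5
      rw [h3'] at h5
      have h6 := isAnc_antisymm h (s_mem_comp h) h5 (isAnc_s h (by rw [h1]; exact hec))
      apply hloop x
      rw [h3', h6]
    · have h5 := (hanc _ _).1 h2
      simp only [rawMap_head, rawMap_tail] at h5
      rw [h3'] at h5
      have h6 := isAnc_antisymm h (s_mem_comp h) h5 (isAnc_s h hec)
      apply h4
      apply Subtype.ext
      simp only [rawMap_head, rawMap_tail]
      rw [h6, h3']
  have hbd : ∀ e ∈ backs g s, e ∈ darts rot s := by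
    intro e he
    unfold backs at he
    rw [List.mem_filter] at he
    exact (hdarts e).2 he.1
  have hthrux : ∀ x e : Nd, thru g s x e = true → x ∈ darts rot s := by
    intro x e hxe
    unfold thru at hxe
    simp only [Bool.and_eq_true, Bool.or_eq_true, decide_eq_true_eq] at hxe
    rcases hxe.2 with h1 | ⟨⟨⟨⟨h2, _⟩, _⟩, _⟩, _⟩
    · rw [h1]; exact hbd e hxe.1
    · exact (hdarts x).2 h2
  have hlow : ∀ y e : Nd, lower g s y e = true → ∃ f ∈ backs g s, thru g s y f = true ∧
      dep g s f.2 < dep g s e.2 := by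
    intro y e hy
    unfold lower at hy
    rw [List.any_eq_true] at hy
    obtain ⟨f, hf, h1⟩ := hy
    rw [Bool.and_eq_true, decide_eq_true_eq] at h1
    exact ⟨f, hf, h1.1, h1.2⟩
  -- `c e` for `e` through `x`, with a lower back edge through `y`
  have key2 : ∀ x y e : Nd, ∀ hx : x ∈ darts rot s, ∀ hy : y ∈ darts rot s, x.1 = y.1 → x ≠ y →
      thru g s x e = true → lower g s y e = true →
      (c e = true ↔ T.pos (M.tail ⟨x, hx⟩) ⟨x, hx⟩ < T.pos (M.tail ⟨x, hx⟩) ⟨y, hy⟩) := by
    intro x y e hx hy hxy hne' hxe hye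
    obtain ⟨f, hf, h1, h2⟩ := hlow y e hye
    have he : e ∈ darts rot s := by
      apply hbd
      unfold thru at hxe
      simp only [Bool.and_eq_true, decide_eq_true_eq] at hxe
      exact hxe.1
    exact key ⟨x, hx⟩ ⟨y, hy⟩ ⟨e, he⟩ ⟨f, hbd f hf⟩ (Subtype.ext hxy)
      (fun h3 => hne' (congrArg Subtype.val h3)) (hthru ⟨x, hx⟩ ⟨e, he⟩ hxe)
      (hthru ⟨y, hy⟩ ⟨f, hbd f hf⟩ h1) h2
  refine ⟨c, fun e he f hf => ⟨fun hsame => ?_, fun hdiff => ?_⟩⟩
  · unfold sameC at hsame
    simp only [List.any_eq_true, Bool.and_eq_true, decide_eq_true_eq] at hsame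
    obtain ⟨x, hx, y, hy, ⟨⟨⟨⟨h1, h2⟩, h3⟩, h4⟩, h5⟩, h6⟩ := hsame
    have hx' := (hdarts x).2 hx
    have hy' := (hdarts y).2 hy
    have k1 := key2 x y e hx' hy' h1 h2 h3 h5
    have k2 := key2 x y f hx' hy' h1 h2 h4 h6
    exact Bool.eq_iff_iff.2 (k1.trans k2.symm)
  · unfold diffC at hdiff
    simp only [List.any_eq_true, Bool.and_eq_true, decide_eq_true_eq] at hdiff
    obtain ⟨x, hx, y, hy, ⟨⟨⟨⟨h1, h2⟩, h3⟩, h4⟩, h5⟩, h6⟩ := hdiff
    have hx' := (hdarts x).2 hx
    have hy' := (hdarts y).2 hy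
    have k1 := key2 x y e hx' hy' h1 h2 h3 h5
    have k2 := key2 y x f hy' hx' h1.symm (Ne.symm h2) h4 h6
    have hcc : M.tail ⟨y, hy'⟩ = M.tail ⟨x, hx'⟩ := Subtype.ext h1.symm
    rw [hcc] at k2
    intro hcef
    have hxs := hthru_s ⟨x, hx'⟩ ⟨e, hbd e he⟩ (hthru ⟨x, hx'⟩ ⟨e, hbd e he⟩ h3)
    have hne' : T.pos (M.tail ⟨x, hx'⟩) ⟨x, hx'⟩ ≠ T.pos (M.tail ⟨x, hx'⟩) ⟨y, hy'⟩ := by
      intro h7
      have := hposinj ⟨x, hx'⟩ ⟨y, hy'⟩ hcc.symm hxs h7
      exact h2 (congrArg Subtype.val this)
    rcases lt_or_gt_of_ne hne' with h7 | h7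
    · have h8 := k1.2 h7
      rw [hcef] at h8
      have := k2.1 h8
      omega
    · have h8 := k2.2 h7
      rw [← hcef] at h8
      have := k1.1 h8
      omega

/-- **The embedding algorithm is correct.** -/
theorem embed_plane (h : RotValid g s) (hr : RotValid rot s) (hp : RotPlane rot s)
    (hne : darts rot s ≠ [])
    (hadj : ∀ u ∈ comp g s, ∀ v, v ∈ nbrs rot u ↔ v ∈ nbrs g u) (hne' : darts g s ≠ []) :
    RotPlane (embed g s) s := by
  obtain ⟨c, hc⟩ := colouring_exists h hr hp hne hadj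
  have hv := embed_valid h
  have hne'' : darts (embed g s) s ≠ [] := by
    intro h0
    have h1 := (darts_embed_perm h).length_eq
    rw [h0] at h1
    exact hne' (List.length_eq_zero_iff.1 h1.symm)
  have h1 := many_faces h hne' c hc
  have h2 := rot_euler_le hv hne''
  unfold RotPlane
  omega

end Pool.Agent.PFire
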