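import Pool.Agent.Lib.PFire.LrSort

/-!
# Chunk LR: the rotation lists of `embed` are permutations of the adjacency lists
-/

set_option autoImplicit false

namespace Pool.Agent.PFire

open Pool.Agent.PolyTime

variable {g : Rot} {s : ℕ}

lemma embed_length : (embed g s).length = g.length := by
  simp [embed]

/-! ### Auxiliary facts -/

lemma lr_mem_backs (h : RotValid g s) {e : Nd} :
    e ∈ backs g s ↔ e.1 ∈ comp g s ∧ e.2 ∈ nbrs g e.1 ∧ isAnc g s e.2 e.1 = true ∧
      e.2 ≠ par g s e.1 := by
  unfold backs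
  rw [List.mem_filter, mem_darts h, Bool.and_eq_true, decide_eq_true_iff]
  tauto

lemma lr_mem_dirs {v : ℕ} {d : Nd} :
    d ∈ dirs g s v ↔ d.1 = v ∧ d.2 ∈ nbrs g v ∧ (isChild g s d = true ∨ d ∈ backs g s) := by
  unfold dirs
  rw [List.mem_filter, List.mem_map, Bool.or_eq_true, decide_eq_true_iff]
  constructor
  · rintro ⟨⟨w, hw, rfl⟩, h2⟩
    exact ⟨rfl, hw, h2⟩
  · rintro ⟨rfl, h1, h2⟩
    exact ⟨⟨d.2, h1, rfl⟩, h2⟩

lemma lr_isChild {d : Nd} : isChild g s d = true ↔ par g s d.2 = d.1 ∧ d.2 ≠ s := by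
  unfold isChild
  rw [Bool.and_eq_true, decide_eq_true_iff, decide_eq_true_iff]

lemma lr_mem_comp_of_nbr (h : RotValid g s) {v w : ℕ} (hv : v ∈ comp g s) (hw : w ∈ nbrs g v) :
    w ∈ comp g s := by
  have : (v, w) ∈ darts g s := (mem_darts h).2 ⟨hv, hw⟩
  exact snd_mem h this

/-- a vertex below the child `y` of `v` is not an ancestor of `v` -/
lemma lr_not_anc (h : RotValid g s) {v y : ℕ} (hv : v ∈ comp g s) (hy : y ∈ comp g s)
    (hys : y ≠ s) (hyv : par g s y = v) : ¬ isAnc g s y v = true := by
  intro h1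
  have h2 : isAnc g s v y = true := by
    rw [isAnc_par h hy hys]
    right
    rw [hyv]
    exact isAnc_refl v
  have h3 : v = y := isAnc_antisymm h hy h2 h1
  have h4 := par_nbr h hy hys
  rw [hyv, ← h3] at h4
  exact h.irrefl v h4

/-- the child of `v` above `w` -/
lemma lr_child_above (h : RotValid g s) {v w : ℕ} (hw : w ∈ comp g s)
    (hvw : isAnc g s v w = true) (hne : v ≠ w) :
    ∃ y, y ∈ comp g s ∧ y ≠ s ∧ par g s y = v ∧ isAnc g s y w = true := by
  classical
  have hex := (isAnc_iff h hw).1 hvw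
  have hn : (par g s)^[Nat.find hex] w = v := Nat.find_spec hex
  have hn0 : Nat.find hex ≠ 0 := by
    intro h0
    rw [h0] at hn
    exact hne hn.symm
  obtain ⟨m, hm⟩ : ∃ m, Nat.find hex = m + 1 := ⟨Nat.find hex - 1, by omega⟩
  have hiter : ∀ k, (par g s)^[k] w ∈ comp g s := by
    intro k
    induction k with
    | zero => exact hw
    | succ k ih =>
      rw [Function.iterate_succ_apply']
      exact par_mem_comp h ih
  refine ⟨(par g s)^[m] w, hiter m, ?_, ?_, ?_⟩
  · intro hs
    have h1 : (par g s)^[m + 1] w = s := by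
      rw [Function.iterate_succ_apply', hs, par_s h]
    rw [hm] at hn
    have h2 : (par g s)^[m] w = v := by rw [hs, ← h1, hn]
    have h3 := Nat.find_min' hex h2
    omega
  · rw [hm, Function.iterate_succ_apply'] at hn
    exact hn
  · exact (isAnc_iff h hw).2 ⟨m, rfl⟩

lemma lr_mem_incs (h : RotValid g s) {v y w : ℕ} {b : Bool} (hy : y ∈ comp g s) (hyv : y ≠ v)
    (hvy : isAnc g s v y = true) :
    w ∈ incs g s b v y ↔ (w, v) ∈ backs g s ∧ isAnc g s y w = true ∧ col g s (w, v) = b := by
  unfold incs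
  rw [List.mem_map]
  constructor
  · rintro ⟨e, he, rfl⟩
    rw [List.mem_filter, Bool.and_eq_true, decide_eq_true_iff, decide_eq_true_iff,
      mem_seqOf h hy] at he
    obtain ⟨⟨h1, h2, h3, h4⟩, h5, h6⟩ := he
    have h7 : (e.1, v) = e := by rw [← h5]
    rw [h7]
    exact ⟨h1, h2, h6⟩
  · rintro ⟨h1, h2, h3⟩
    refine ⟨(w, v), ?_, rfl⟩
    rw [List.mem_filter, Bool.and_eq_true, decide_eq_true_iff, decide_eq_true_iff,
      mem_seqOf h hy]
    exact ⟨⟨h1, h2, hvy, Ne.symm hyv⟩, rfl, h3⟩

lemma lr_incs_nodup (h : RotValid g s) {v y : ℕ} {b : Bool} (hy : y ∈ comp g s) :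
    (incs g s b v y).Nodup := by
  unfold incs
  refine List.Nodup.map_on ?_ ((seqOf_nodup h hy).filter _)
  intro e he f hf hef
  rw [List.mem_filter, Bool.and_eq_true, decide_eq_true_iff, decide_eq_true_iff] at he hf
  exact Prod.ext hef (he.2.1.trans hf.2.1.symm)

/-- the block of a direction in the rotation list -/
private def blk (g : Rot) (s v : ℕ) (d : Nd) : List ℕ :=
  if d ∈ backs g s then [d.2]
  else (incs g s true v d.2).reverse ++ [d.2] ++ (incs g s false v d.2).reverse

private lemma rotV_eq (v : ℕ) : rotV g s v = (if v = s then [] else [par g s v]) ++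
    (sortD g s (seqTab g s) v).flatMap (blk g s v) := rfl

/-- facts on a child direction -/
lemma lr_child_facts (h : RotValid g s) {v : ℕ} (hv : v ∈ comp g s) {d : Nd}
    (hd : d ∈ dirs g s v) (hb : d ∉ backs g s) :
    d.2 ∈ comp g s ∧ d.2 ≠ s ∧ par g s d.2 = v ∧ isAnc g s v d.2 = true ∧ d.2 ≠ v := by
  rw [lr_mem_dirs] at hd
  obtain ⟨h1, h2, h3⟩ := hd
  have h4 : isChild g s d = true := by tauto
  rw [lr_isChild] at h4
  have h5 : d.2 ∈ comp g s := lr_mem_comp_of_nbr h hv h2
  refine ⟨h5, h4.2, h4.1.trans h1, ?_, ?_⟩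
  · rw [isAnc_par h h5 h4.2]
    right
    rw [h4.1, h1]
    exact isAnc_refl v
  · intro h6
    rw [h6] at h2
    exact h.irrefl v h2

private lemma mem_blk_child (h : RotValid g s) {v w : ℕ} (hv : v ∈ comp g s) {d : Nd}
    (hd : d ∈ dirs g s v) (hb : d ∉ backs g s) :
    w ∈ blk g s v d ↔ w = d.2 ∨ ((w, v) ∈ backs g s ∧ isAnc g s d.2 w = true) := by
  obtain ⟨h1, h2, h3, h4, h5⟩ := lr_child_facts h hv hd hb
  unfold blk
  rw [if_neg hb, List.mem_append, List.mem_append, List.mem_reverse, List.mem_reverse,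
    lr_mem_incs h h1 h5 h4, lr_mem_incs h h1 h5 h4, List.mem_singleton]
  constructor
  · rintro ((h6 | h6) | h6)
    · exact Or.inr ⟨h6.1, h6.2.1⟩
    · exact Or.inl h6
    · exact Or.inr ⟨h6.1, h6.2.1⟩
  · rintro (h6 | ⟨h6, h7⟩)
    · exact Or.inl (Or.inr h6)
    · cases hc : col g s (w, v)
      · exact Or.inr ⟨h6, h7, rfl⟩
      · exact Or.inl (Or.inl ⟨h6, h7, rfl⟩)

private lemma blk_below (h : RotValid g s) {v w : ℕ} (hv : v ∈ comp g s) {d : Nd}
    (hd : d ∈ dirs g s v) (hb : d ∉ backs g s) (hw : w ∈ blk g s v d) :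
    isAnc g s d.2 w = true := by
  rw [mem_blk_child h hv hd hb] at hw
  rcases hw with h1 | h1
  · rw [h1]
    exact isAnc_refl _
  · exact h1.2

private lemma blk_nodup (h : RotValid g s) {v : ℕ} (hv : v ∈ comp g s) {d : Nd}
    (hd : d ∈ dirs g s v) : (blk g s v d).Nodup := by
  by_cases hb : d ∈ backs g s
  · unfold blk
    rw [if_pos hb]
    exact List.nodup_singleton _
  · obtain ⟨h1, h2, h3, h4, h5⟩ := lr_child_facts h hv hd hb
    have hself : ∀ b, d.2 ∉ incs g s b v d.2 := by
      intro b hm
      rw [lr_mem_incs h h1 h5 h4, lr_mem_backs h] at hm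
      exact hm.1.2.2.2 h3.symm
    unfold blk
    rw [if_neg hb, List.nodup_append', List.nodup_append', List.nodup_reverse, List.nodup_reverse]
    refine ⟨⟨lr_incs_nodup h h1, List.nodup_singleton _, ?_⟩, lr_incs_nodup h h1, ?_⟩
    · intro a ha hb'
      rw [List.mem_singleton] at hb'
      rw [List.mem_reverse] at ha
      exact hself true (hb' ▸ ha)
    · intro a ha hb'
      rw [List.mem_reverse] at hb'
      rw [List.mem_append, List.mem_reverse, List.mem_singleton] at ha
      rcases ha with ha | ha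
      · rw [lr_mem_incs h h1 h5 h4] at ha hb'
        rw [ha.2.2] at hb'
        exact absurd hb'.2.2 (by decide)
      · exact hself false (ha ▸ hb')

private lemma blk_disjoint (h : RotValid g s) {v : ℕ} (hv : v ∈ comp g s) {d d' : Nd}
    (hd : d ∈ dirs g s v) (hd' : d' ∈ dirs g s v) (hne : d ≠ d') :
    List.Disjoint (blk g s v d) (blk g s v d') := by
  have key : ∀ {c c' : Nd}, c ∈ dirs g s v → c' ∈ dirs g s v → c ∈ backs g s →
      c' ∉ backs g s → ∀ w, w ∈ blk g s v c → w ∈ blk g s v c' → False := by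
    intro c c' hc hc' hb hb' w hw hw'
    have h1 := blk_below h hv hc' hb' hw'
    unfold blk at hw
    rw [if_pos hb, List.mem_singleton] at hw
    have h2 := (lr_mem_backs h).1 hb
    have h3 := (lr_mem_dirs.1 hc).1
    rw [h3] at h2
    obtain ⟨k1, k2, k3, k4, k5⟩ := lr_child_facts h hv hc' hb'
    rw [hw] at h1
    exact lr_not_anc h hv k1 k2 k3 (isAnc_trans h1 h2.2.2.1)
  intro w hw hw'
  by_cases hb : d ∈ backs g s
  · by_cases hb' : d' ∈ backs g s
    · unfold blk at hw hw'
      rw [if_pos hb, List.mem_singleton] at hw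
      rw [if_pos hb', List.mem_singleton] at hw'
      exact hne (Prod.ext ((lr_mem_dirs.1 hd).1.trans (lr_mem_dirs.1 hd').1.symm)
        (hw.symm.trans hw'))
    · exact key hd hd' hb hb' w hw hw'
  · by_cases hb' : d' ∈ backs g s
    · exact key hd' hd hb' hb w hw' hw
    · obtain ⟨k1, k2, k3, k4, k5⟩ := lr_child_facts h hv hd hb
      obtain ⟨l1, l2, l3, l4, l5⟩ := lr_child_facts h hv hd' hb'
      have h1 := blk_below h hv hd hb hw
      have h2 := blk_below h hv hd' hb' hw'
      have hne2 : d.2 ≠ d'.2 := fun he =>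
        hne (Prod.ext ((lr_mem_dirs.1 hd).1.trans (lr_mem_dirs.1 hd').1.symm) he)
      have hwc : w ∈ comp g s := by
        rw [mem_blk_child h hv hd hb] at hw
        rcases hw with hw | hw
        · rw [hw]
          exact k1
        · exact ((lr_mem_backs h).1 hw.1).1
      rcases isAnc_total h hwc h1 h2 with h3 | h3
      · rw [isAnc_par h l1 l2, l3] at h3
        rcases h3 with h3 | h3
        · exact hne2 h3
        · exact lr_not_anc h hv k1 k2 k3 h3
      · rw [isAnc_par h k1 k2, k3] at h3
        rcases h3 with h3 | h3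
        · exact hne2 h3.symm
        · exact lr_not_anc h hv l1 l2 l3 h3

private lemma par_not_mem (h : RotValid g s) {v : ℕ} (hv : v ∈ comp g s) (hvs : v ≠ s) {d : Nd}
    (hd : d ∈ dirs g s v) : par g s v ∉ blk g s v d := by
  intro hp
  by_cases hb : d ∈ backs g s
  · unfold blk at hp
    rw [if_pos hb, List.mem_singleton] at hp
    have h2 := (lr_mem_backs h).1 hb
    rw [(lr_mem_dirs.1 hd).1] at h2
    exact h2.2.2.2 hp.symm
  · obtain ⟨k1, k2, k3, k4, k5⟩ := lr_child_facts h hv hd hb
    have h1 := blk_below h hv hd hb hp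
    have h2 : isAnc g s (par g s v) v = true := by
      rw [isAnc_par h hv hvs]
      right
      exact isAnc_refl _
    exact lr_not_anc h hv k1 k2 k3 (isAnc_trans h1 h2)

private lemma rotV_nodup (h : RotValid g s) {v : ℕ} (hv : v ∈ comp g s) :
    (rotV g s v).Nodup := by
  rw [rotV_eq, List.nodup_append']
  refine ⟨?_, ?_, ?_⟩
  · split_ifs
    · exact List.nodup_nil
    · exact List.nodup_singleton _
  · rw [List.nodup_flatMap]
    refine ⟨fun d hd => blk_nodup h hv ((mem_sortD _).1 hd), ?_⟩
    have h1 : (sortD g s (seqTab g s) v).Nodup := sortD_nodup h _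
    refine List.Pairwise.imp_of_mem ?_ h1
    intro a b ha hb hab
    exact blk_disjoint h hv ((mem_sortD _).1 ha) ((mem_sortD _).1 hb) hab
  · intro w hw hw'
    rw [List.mem_flatMap] at hw'
    obtain ⟨d, hd, hd'⟩ := hw'
    split_ifs at hw with hvs
    · simp at hw
    · rw [List.mem_singleton] at hw
      rw [hw] at hd'
      exact par_not_mem h hv hvs ((mem_sortD _).1 hd) hd'

private lemma mem_rotV (h : RotValid g s) {v w : ℕ} (hv : v ∈ comp g s) :
    w ∈ rotV g s v ↔ w ∈ nbrs g v := by
  rw [rotV_eq, List.mem_append, List.mem_flatMap]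
  constructor
  · rintro (h1 | ⟨d, hd, h1⟩)
    · split_ifs at h1 with hvs
      · simp at h1
      · rw [List.mem_singleton] at h1
        rw [h1]
        exact h.symm _ _ (par_nbr h hv hvs)
    · have hd' := (mem_sortD _).1 hd
      have hd2 := lr_mem_dirs.1 hd'
      by_cases hb : d ∈ backs g s
      · unfold blk at h1
        rw [if_pos hb, List.mem_singleton] at h1
        rw [h1]
        exact hd2.2.1
      · rw [mem_blk_child h hv hd' hb] at h1
        rcases h1 with h1 | h1
        · rw [h1]
          exact hd2.2.1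
        · exact h.symm _ _ ((lr_mem_backs h).1 h1.1).2.1
  · intro hw
    have hwc := lr_mem_comp_of_nbr h hv hw
    have hne : w ≠ v := by
      intro he
      rw [he] at hw
      exact h.irrefl v hw
    rcases dfs_edge h hv hw with h1 | h1
    · -- `v` is an ancestor of `w`
      right
      obtain ⟨y, hy1, hy2, hy3, hy4⟩ := lr_child_above h hwc h1 (Ne.symm hne)
      have hyn : y ∈ nbrs g v := by
        have := par_nbr h hy1 hy2
        rwa [hy3] at this
      have hchild : isChild g s (v, y) = true := lr_isChild.2 ⟨hy3, hy2⟩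
      have hdir : (v, y) ∈ dirs g s v := lr_mem_dirs.2 ⟨rfl, hyn, Or.inl hchild⟩
      have hnb : (v, y) ∉ backs g s := by
        intro hb
        have h2 := (lr_mem_backs h).1 hb
        exact lr_not_anc h hv hy1 hy2 hy3 h2.2.2.1
      refine ⟨(v, y), (mem_sortD _).2 hdir, ?_⟩
      rw [mem_blk_child h hv hdir hnb]
      by_cases hp : par g s w = v
      · left
        -- both `y` and `w` are children of `v`
        have hws : w ≠ s := by
          intro hws
          rw [hws] at h1
          have h3 : s = v := isAnc_antisymm h hv (isAnc_s h hv) h1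
          exact hne (hws.trans h3)
        rw [isAnc_par h hwc hws, hp] at hy4
        rcases hy4 with h4 | h4
        · exact h4.symm
        · exact absurd h4 (lr_not_anc h hv hy1 hy2 hy3)
      · right
        refine ⟨(lr_mem_backs h).2 ⟨hwc, h.symm _ _ hw, h1, fun he => hp he.symm⟩, hy4⟩
    · -- `w` is an ancestor of `v`
      have hvs : v ≠ s := by
        intro hvs
        rw [hvs] at h1
        have h3 : s = w := isAnc_antisymm h hwc (isAnc_s h hwc) h1
        exact hne (h3.symm.trans hvs.symm)
      by_cases hp : w = par g s v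
      · left
        rw [if_neg hvs, List.mem_singleton]
        exact hp
      · right
        have hb : (v, w) ∈ backs g s := (lr_mem_backs h).2 ⟨hv, hw, h1, hp⟩
        refine ⟨(v, w), (mem_sortD _).2 (lr_mem_dirs.2 ⟨rfl, hw, Or.inr hb⟩), ?_⟩
        unfold blk
        rw [if_pos hb, List.mem_singleton]

/-- A neighbour is the parent, or a child, or the upper end of a back edge, or the lower end of a back edge
to `v`, which comes from the subtree of exactly one child of `v`. -/
theorem rotV_perm (h : RotValid g s) {v : ℕ} (hv : v ∈ comp g s) : (rotV g s v).Perm (nbrs g v) :=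
  (List.perm_ext_iff_of_nodup (rotV_nodup h hv) (h.nodup v)).2 fun _ => mem_rotV h hv

lemma lr_comp_lt {v : ℕ} (hv : v ∈ comp g s) : v < g.length := by
  unfold comp at hv
  rw [List.mem_filter, List.mem_range] at hv
  exact hv.1

lemma nbrs_embed (h : RotValid g s) {v : ℕ} (hv : v ∈ comp g s) :
    nbrs (embed g s) v = rotV g s v := by
  unfold nbrs embed
  have h1 := lr_comp_lt hv
  rw [List.getD_eq_getElem?_getD, List.getElem?_map, List.getElem?_range h1]
  simp [hv]

lemma nbrs_embed_of_not_mem (h : RotValid g s) {v : ℕ} (hv : v ∉ comp g s) :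
    nbrs (embed g s) v = [] := by
  unfold nbrs embed
  by_cases h1 : v < g.length
  · rw [List.getD_eq_getElem?_getD, List.getElem?_map, List.getElem?_range h1]
    simp [hv]
  · rw [List.getD_eq_getElem?_getD, List.getElem?_eq_none]
    · rfl
    · simp only [List.length_map, List.length_range]
      omega

lemma lr_mem_nbrs_embed (h : RotValid g s) {v w : ℕ} :
    w ∈ nbrs (embed g s) v ↔ v ∈ comp g s ∧ w ∈ nbrs g v := by
  by_cases hv : v ∈ comp g s
  · rw [nbrs_embed h hv, mem_rotV h hv]
    exact ⟨fun h1 => ⟨hv, h1⟩, fun h1 => h1.2⟩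
  · rw [nbrs_embed_of_not_mem h hv]
    simp [hv]

theorem embed_valid (h : RotValid g s) : RotValid (embed g s) s where
  s_lt := by
    rw [embed_length]
    exact h.s_lt
  lt := by
    intro u v hv
    rw [embed_length]
    exact h.lt u v ((lr_mem_nbrs_embed h).1 hv).2
  nodup := by
    intro u
    by_cases hu : u ∈ comp g s
    · rw [nbrs_embed h hu]
      exact rotV_nodup h hu
    · rw [nbrs_embed_of_not_mem h hu]
      exact List.nodup_nil
  symm := by
    intro u v hv
    rw [lr_mem_nbrs_embed h] at hv ⊢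
    exact ⟨lr_mem_comp_of_nbr h hv.1 hv.2, h.symm _ _ hv.2⟩
  irrefl := by
    intro u hu
    exact h.irrefl u ((lr_mem_nbrs_embed h).1 hu).2

theorem comp_embed (h : RotValid g s) : comp (embed g s) s = comp g s := by
  have key : ∀ v, v ∈ comp (embed g s) s ↔ v ∈ comp g s := by
    intro v
    rw [mem_comp (embed_valid h), mem_comp h]
    constructor
    · intro h1
      exact Relation.ReflTransGen.mono (fun a b hab => ((lr_mem_nbrs_embed h).1 hab).2) _ _ h1
    · intro h1
      induction h1 with
      | refl => exact Relation.ReflTransGen.refl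
      | tail h2 h3 ih =>
        refine ih.tail ?_
        exact (lr_mem_nbrs_embed h).2 ⟨(mem_comp h).2 h2, h3⟩
  have e1 : comp (embed g s) s = (List.range g.length).filter fun v =>
      decide (v ∈ reach (allDarts (embed g s)) s) := by
    unfold comp
    rw [embed_length]
  rw [e1]
  unfold comp
  refine List.filter_congr ?_
  intro v hv
  have h2 := key v
  rw [e1] at h2
  unfold comp at h2
  rw [List.mem_filter, List.mem_filter] at h2
  rw [decide_eq_decide]
  have h3 : v ∈ List.range g.length := hv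
  constructor
  · intro h4
    exact of_decide_eq_true (h2.1 ⟨h3, decide_eq_true h4⟩).2
  · intro h4
    exact of_decide_eq_true (h2.2 ⟨h3, decide_eq_true h4⟩).2

theorem darts_embed_perm (h : RotValid g s) : (darts (embed g s) s).Perm (darts g s) := by
  refine (List.perm_ext_iff_of_nodup (darts_nodup (embed_valid h)) (darts_nodup h)).2 ?_
  intro d
  rw [mem_darts (embed_valid h), mem_darts h, comp_embed h, lr_mem_nbrs_embed h]
  tauto

end Pool.Agent.PFire
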