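import Pool.Agent.Lib.PFire.LrCol

/-!
# Chunk LS: the sequences are sorted

For directions `x ≠ y` at `v` with nonempty sequences: `dle x y` or `dle y x` (totality), where
`Q x` = back edges through `x`, `low x` the smallest depth of an upper end in `Q x`, and
`E x = {e ∈ Q x : dep e.2 > low y}`, `E y = {f ∈ Q y : dep f.2 > low x}`; by the constraints `E x` has one
colour, `E y` has one colour, and these are different if both sets are nonempty.
* `low x < low y`: then `E y = Q y` has one colour `b`.  If `b = right`: `dle x y` (a bad pair `e, f` must be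
  `e` right with larger depth than `f`, so `e ∈ E x`, which has the colour left).  If `b = left`: `dle y x`.
* `low x = low y = l`.  If `l` is the smallest depth for `v` (`InQ v`), all edges of depth `l` have the same
  colour (`col_aligned`): if `E x` is left or `E y` is right then `dle x y`, otherwise `dle y x`.  If `l` is
  not the smallest depth, a third direction `z` has `low z < l`, so all of `Q x` has one colour and all of
  `Q y` has one colour; if these differ, the left one comes first; if both are left: not both `E x`, `E y` are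
  nonempty, if `E y = ∅` then `dle x y`; both right: if `E y = ∅` then `dle y x`.
Transitivity through a nonempty sequence: `leq e f`, `leq f g` imply `leq e g`.
Insertion sort then gives pairwise `dle`.
-/

set_option autoImplicit false

namespace Pool.Agent.PFire

open Pool.Agent.PolyTime

variable {g : Rot} {s : ℕ}

/-! ### insertion sort -/

lemma ls_insBy_perm (le : Nd → Nd → Bool) (l : List Nd) (x : Nd) :
    (insBy le l x).Perm (x :: l) := by
  unfold insBy
  refine List.perm_middle.trans ?_
  rw [List.takeWhile_append_dropWhile]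

lemma ls_foldl_perm (le : Nd → Nd → Bool) (xs l : List Nd) :
    (xs.foldl (insBy le) l).Perm (xs ++ l) := by
  induction xs generalizing l with
  | nil => exact List.Perm.refl _
  | cons x xs ih =>
    rw [List.foldl_cons]
    refine (ih _).trans ?_
    refine ((ls_insBy_perm le l x).append_left xs).trans ?_
    rw [List.cons_append]
    exact List.perm_middle

lemma ls_insBy_congr {le le' : Nd → Nd → Bool} {l : List Nd} {x : Nd}
    (h : ∀ y ∈ l, le x y = le' x y) : insBy le l x = insBy le' l x := by
  unfold insBy
  have h1 : ∀ l : List Nd, (∀ y ∈ l, le x y = le' x y) →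
      (l.takeWhile fun y => !(le x y)) = (l.takeWhile fun y => !(le' x y)) ∧
      (l.dropWhile fun y => !(le x y)) = (l.dropWhile fun y => !(le' x y)) := by
    intro l
    induction l with
    | nil => intro _; exact ⟨rfl, rfl⟩
    | cons a t ih =>
      intro h
      have ha := h a (by simp)
      have ht := ih fun y hy => h y (by simp [hy])
      simp only [List.takeWhile_cons, List.dropWhile_cons, ha]
      cases le' x a <;> simp [ht]
  rw [(h1 l h).1, (h1 l h).2]

lemma ls_foldl_congr {le le' : Nd → Nd → Bool} {xs l : List Nd}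
    (h : ∀ x ∈ xs, ∀ y, y ∈ xs ∨ y ∈ l → le x y = le' x y) :
    xs.foldl (insBy le) l = xs.foldl (insBy le') l := by
  induction xs generalizing l with
  | nil => rfl
  | cons x xs ih =>
    rw [List.foldl_cons, List.foldl_cons,
      ls_insBy_congr (le := le) (le' := le') (fun y hy => h x (by simp) y (Or.inr hy))]
    apply ih
    intro z hz y hy
    apply h z (by simp [hz]) y
    rcases hy with hy | hy
    · exact Or.inl (by simp [hy])
    · rcases List.mem_cons.1 ((ls_insBy_perm le' l x).mem_iff.1 hy) with hy | hy
      · exact Or.inl (by simp [hy])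
      · exact Or.inr hy

lemma ls_insBy_sorted {le : Nd → Nd → Bool} {l : List Nd} {x : Nd}
    (hl : l.Pairwise fun a b => le a b = true)
    (htot : ∀ y ∈ l, le x y = true ∨ le y x = true)
    (htr : ∀ y ∈ l, ∀ z ∈ l, le x y = true → le y z = true → le x z = true) :
    (insBy le l x).Pairwise fun a b => le a b = true := by
  unfold insBy
  induction l with
  | nil => simp
  | cons a t ih =>
    rw [List.pairwise_cons] at hl
    by_cases hxa : le x a = true
    · simp only [List.takeWhile_cons, List.dropWhile_cons, hxa, Bool.not_true, Bool.false_eq_true,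
        if_false, List.nil_append]
      rw [List.pairwise_cons]
      refine ⟨?_, List.pairwise_cons.2 hl⟩
      intro b hb
      rcases List.mem_cons.1 hb with hb | hb
      · rw [hb]; exact hxa
      · exact htr a (by simp) b (by simp [hb]) hxa (hl.1 b hb)
    · have hxa' : le x a = false := by simpa using hxa
      simp only [List.takeWhile_cons, List.dropWhile_cons, hxa', Bool.not_false, if_true,
        List.cons_append]
      rw [List.pairwise_cons]
      refine ⟨?_, ih hl.2 (fun y hy => htot y (by simp [hy])) (fun y hy z hz =>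
        htr y (by simp [hy]) z (by simp [hz]))⟩
      intro b hb
      have hb' : b ∈ x :: t := (ls_insBy_perm le t x).mem_iff.1 hb
      rcases List.mem_cons.1 hb' with hb' | hb'
      · rw [hb']
        rcases htot a (by simp) with h | h
        · exact absurd h hxa
        · exact h
      · exact hl.1 b hb'

lemma ls_foldl_sorted {le : Nd → Nd → Bool} {xs l : List Nd} {S : Nd → Prop}
    (hl : l.Pairwise fun a b => le a b = true) (hlS : ∀ y ∈ l, S y) (hxS : ∀ y ∈ xs, S y)
    (htot : ∀ x ∈ xs, ∀ y, S y → x ≠ y → le x y = true ∨ le y x = true)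
    (htr : ∀ x y z, S x → S y → S z → le x y = true → le y z = true → le x z = true)
    (hnd : (xs ++ l).Nodup) :
    (xs.foldl (insBy le) l).Pairwise fun a b => le a b = true := by
  induction xs generalizing l with
  | nil => exact hl
  | cons x xs ih =>
    rw [List.foldl_cons]
    have hx := hxS x (by simp)
    rw [List.cons_append, List.nodup_cons] at hnd
    apply ih
    · refine ls_insBy_sorted hl ?_ ?_
      · intro y hy
        refine htot x (by simp) y (hlS y hy) ?_
        rintro rfl
        exact hnd.1 (by simp [hy])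
      · intro y hy z hz
        exact htr x y z hx (hlS y hy) (hlS z hz)
    · intro y hy
      rcases List.mem_cons.1 ((ls_insBy_perm le l x).mem_iff.1 hy) with hy | hy
      · rw [hy]; exact hx
      · exact hlS y hy
    · intro y hy
      exact hxS y (by simp [hy])
    · intro y hy z hz hyz
      exact htot y (by simp [hy]) z hz hyz
    · refine (((ls_insBy_perm le l x).append_left xs).nodup_iff).2 ?_
      refine (List.perm_middle.nodup_iff).2 ?_
      exact List.nodup_cons.2 hnd

/-! ### the directions and the sequences -/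

lemma ls_mem_backs {e : Nd} : e ∈ backs g s ↔
    e ∈ darts g s ∧ isAnc g s e.2 e.1 = true ∧ e.2 ≠ par g s e.1 := by
  unfold backs
  simp [List.mem_filter]

lemma ls_sortD_perm (tbl : List (ℕ × List Nd)) (v : ℕ) :
    (sortD g s tbl v).Perm (dirs g s v) := by
  unfold sortD
  refine ((ls_foldl_perm _ _ _).append_right _).trans ?_
  rw [List.append_nil]
  have := List.filter_append_perm (fun d => decide (dirSeq g s tbl d ≠ [])) (dirs g s v)
  refine List.Perm.trans ?_ this
  apply List.Perm.append_left
  have h2 : (dirs g s v).filter (fun d => decide (dirSeq g s tbl d = [])) =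
      (dirs g s v).filter (fun x => !decide (dirSeq g s tbl x ≠ [])) := by
    apply List.filter_congr
    intro x _
    simp
  rw [h2]

lemma mem_sortD {v : ℕ} {d : Nd} (tbl : List (ℕ × List Nd)) :
    d ∈ sortD g s tbl v ↔ d ∈ dirs g s v :=
  (ls_sortD_perm tbl v).mem_iff

lemma ls_dirs_nodup (h : RotValid g s) (v : ℕ) : (dirs g s v).Nodup := by
  unfold dirs
  apply List.Nodup.filter
  exact (h.nodup v).map fun a b hab => (Prod.mk.inj hab).2

lemma sortD_nodup (h : RotValid g s) {v : ℕ} (tbl : List (ℕ × List Nd)) :
    (sortD g s tbl v).Nodup :=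
  (ls_sortD_perm tbl v).nodup_iff.2 (ls_dirs_nodup h v)

lemma ls_mem_dirs {v : ℕ} {d : Nd} : d ∈ dirs g s v ↔
    d.1 = v ∧ d.2 ∈ nbrs g v ∧ (isChild g s d = true ∨ d ∈ backs g s) := by
  unfold dirs
  rw [List.mem_filter, List.mem_map, Bool.or_eq_true, decide_eq_true_iff]
  constructor
  · rintro ⟨⟨w, hw, rfl⟩, h2⟩
    exact ⟨rfl, hw, h2⟩
  · rintro ⟨h1, h2, h3⟩
    exact ⟨⟨d.2, h2, by rw [← h1]⟩, h3⟩

lemma ls_sortD_congr {tbl tbl' : List (ℕ × List Nd)} {v : ℕ}
    (hd : ∀ d ∈ dirs g s v, dirSeq g s tbl d = dirSeq g s tbl' d) :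
    sortD g s tbl v = sortD g s tbl' v := by
  unfold sortD
  have h1 : (dirs g s v).filter (fun d => decide (dirSeq g s tbl d ≠ [])) =
      (dirs g s v).filter (fun d => decide (dirSeq g s tbl' d ≠ [])) := by
    apply List.filter_congr
    intro x hx
    rw [hd x hx]
  have h2 : (dirs g s v).filter (fun d => decide (dirSeq g s tbl d = [])) =
      (dirs g s v).filter (fun d => decide (dirSeq g s tbl' d = [])) := by
    apply List.filter_congr
    intro x hx
    rw [hd x hx]
  rw [h1, h2]
  congr 1
  apply ls_foldl_congr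
  intro x hx y hy
  have hx' := (List.mem_filter.1 hx).1
  have hy' : y ∈ dirs g s v := by
    rcases hy with hy | hy
    · exact (List.mem_filter.1 hy).1
    · simp at hy
  unfold dle
  rw [hd x hx', hd y hy']

lemma ls_lookup_foldl (L : List ℕ) (tbl : List (ℕ × List Nd)) {y : ℕ} (hy : y ∉ L) :
    (L.foldl (seqStep g s) tbl).lookup y = tbl.lookup y := by
  induction L generalizing tbl with
  | nil => rfl
  | cons a L ih =>
    rw [List.foldl_cons, ih _ (fun h => hy (by simp [h]))]
    unfold seqStep
    rw [List.lookup_cons]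
    have : (y == a) = false := by
      rw [beq_eq_false_iff_ne]
      rintro rfl
      exact hy (by simp)
    rw [this]

/-- the children of `v` (as targets of the child directions) -/
lemma ls_child_facts (h : RotValid g s) {v : ℕ} (hv : v ∈ comp g s) {d : Nd}
    (hd : d ∈ dirs g s v) (hb : d ∉ backs g s) :
    d.2 ∈ comp g s ∧ d.2 ≠ s ∧ par g s d.2 = v := by
  obtain ⟨h1, h2, h3⟩ := ls_mem_dirs.1 hd
  have h4 : isChild g s d = true := by tauto
  unfold isChild at h4
  simp only [Bool.and_eq_true, decide_eq_true_iff] at h4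
  have h5 : d ∈ darts g s := (mem_darts h).2 ⟨by rw [h1]; exact hv, by rw [h1]; exact h2⟩
  exact ⟨snd_mem h h5, h4.2, by rw [h4.1, h1]⟩

/-- the equation for the sequences (the table at the time of the computation of the entry `v` contains
the final entries of the children of `v`) -/
theorem seqOf_eq (h : RotValid g s) {v : ℕ} (hv : v ∈ comp g s) :
    seqOf g s v = (sortD g s (seqTab g s) v).flatMap (dirSeq g s (seqTab g s)) := by
  have hL := dfs_nodup h
  have hvL := (mem_dfs h).2 hv
  obtain ⟨A, B, hAB⟩ := List.append_of_mem hvL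
  have hnd : (A ++ v :: B).Nodup := by rw [← hAB]; exact hL
  have hvA : v ∉ A := by
    intro hA
    have := (List.nodup_append.1 hnd).2.2 v hA v (by simp)
    exact this rfl
  have hvB : v ∉ B := ((List.nodup_cons.1 (List.nodup_append.1 hnd).2.1)).1
  set tA := A.foldl (seqStep g s) [] with htA
  have htab : seqTab g s = B.foldl (seqStep g s) (seqStep g s tA v) := by
    unfold seqTab
    rw [hAB, List.foldl_append, List.foldl_cons]
  have hv1 : (seqTab g s).lookup v =
      some ((sortD g s tA v).flatMap (dirSeq g s tA)) := by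
    rw [htab, ls_lookup_foldl B _ hvB]
    unfold seqStep
    rw [List.lookup_cons]
    simp
  have hd : ∀ d ∈ dirs g s v, dirSeq g s tA d = dirSeq g s (seqTab g s) d := by
    intro d hd
    unfold dirSeq
    by_cases hb : d ∈ backs g s
    · rw [if_pos hb, if_pos hb]
    · rw [if_neg hb, if_neg hb]
      obtain ⟨c1, c2, c3⟩ := ls_child_facts h hv hd hb
      have hidx := idxOf_par h c1 c2
      rw [c3, hAB] at hidx
      have hvidx : (A ++ v :: B).idxOf v = A.length := by
        rw [List.idxOf_append_of_notMem hvA]
        simp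
      rw [hvidx] at hidx
      have hcA : d.2 ∈ A := by
        by_contra hcA
        rw [List.idxOf_append_of_notMem hcA] at hidx
        omega
      have hcB : d.2 ∉ v :: B := by
        intro hcB
        exact (List.nodup_append.1 hnd).2.2 d.2 hcA d.2 hcB rfl
      have e1 : (seqTab g s).lookup d.2 = tA.lookup d.2 := by
        have : seqTab g s = (v :: B).foldl (seqStep g s) tA := by
          rw [htab, List.foldl_cons]
        rw [this, ls_lookup_foldl _ _ hcB]
      rw [e1]
  unfold seqOf
  rw [hv1, Option.getD_some, ls_sortD_congr hd]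
  apply List.flatMap_congr
  intro d hdd
  exact hd d ((mem_sortD _).1 hdd)

/-- a proper descendant of `v` lies below a child of `v` -/
lemma ls_exists_child (h : RotValid g s) {v w : ℕ} (hw : w ∈ comp g s)
    (hvw : isAnc g s v w = true) (hne : w ≠ v) :
    ∃ y, y ∈ comp g s ∧ y ≠ s ∧ par g s y = v ∧ isAnc g s y w = true := by
  obtain ⟨n, hn⟩ := (isAnc_iff h hw).1 hvw
  induction n generalizing v with
  | zero => exact absurd hn hne
  | succ n ih =>
    rw [Function.iterate_succ_apply'] at hn
    set y := (par g s)^[n] w with hy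
    have hyw : isAnc g s y w = true := (isAnc_iff h hw).2 ⟨n, rfl⟩
    have hyc := isAnc_mem h hw hyw
    by_cases hys : y = s
    · have hvs : v = s := by rw [← hn, hys, par_s h]
      apply ih hvw hne
      rw [hvs, ← hys]
    · exact ⟨y, hyc, hys, hn, hyw⟩

lemma ls_par_ne (h : RotValid g s) {y : ℕ} (hy : y ∈ comp g s) (hys : y ≠ s) :
    par g s y ≠ y := by
  intro he
  have := par_nbr h hy hys
  rw [he] at this
  exact h.irrefl y this

lemma ls_isAnc_par' (h : RotValid g s) {y : ℕ} (hy : y ∈ comp g s) (hys : y ≠ s) :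
    isAnc g s (par g s y) y = true :=
  (isAnc_par h hy hys _).2 (Or.inr (isAnc_refl _))

lemma ls_not_anc (h : RotValid g s) {y : ℕ} (hy : y ∈ comp g s) (hys : y ≠ s) :
    isAnc g s y (par g s y) ≠ true := by
  intro h1
  exact ls_par_ne h hy hys (isAnc_antisymm h hy (ls_isAnc_par' h hy hys) h1)

/-- a child direction is not a back edge -/
lemma ls_child_not_back (h : RotValid g s) {d : Nd} (hd : d.2 ∈ comp g s) (hds : d.2 ≠ s)
    (hp : par g s d.2 = d.1) : d ∉ backs g s := by
  intro hb
  have h1 := (ls_mem_backs.1 hb).2.1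
  rw [← hp] at h1
  exact ls_not_anc h hd hds h1

lemma ls_back_fst (h : RotValid g s) {e : Nd} (he : e ∈ backs g s) : e.1 ∈ comp g s :=
  fst_mem h (ls_mem_backs.1 he).1

lemma ls_back_ne (h : RotValid g s) {e : Nd} (he : e ∈ backs g s) : e.2 ≠ e.1 := by
  intro h1
  have h2 := ((mem_darts h).1 (ls_mem_backs.1 he).1).2
  rw [h1] at h2
  exact h.irrefl _ h2

/-- a strict ancestor of a child is an ancestor of the parent -/
lemma ls_anc_of_ne (h : RotValid g s) {a y : ℕ} (hy : y ∈ comp g s) (hys : y ≠ s)
    (h1 : isAnc g s a y = true) (h2 : a ≠ y) : isAnc g s a (par g s y) = true := by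
  rcases (isAnc_par h hy hys a).1 h1 with h3 | h3
  · exact absurd h3 h2
  · exact h3

theorem ls_mem_dirSeq_aux (h : RotValid g s) {v : ℕ} (hv : v ∈ comp g s)
    (ih : ∀ y ∈ comp g s, y ≠ s → par g s y = v → ∀ e, e ∈ seqOf g s y ↔ InQ g s y e)
    {d e : Nd} (hd : d ∈ dirs g s v) :
    e ∈ dirSeq g s (seqTab g s) d ↔ thru g s d e = true := by
  have hd1 := (ls_mem_dirs.1 hd).1
  have hd2 := (ls_mem_dirs.1 hd).2.1
  unfold dirSeq thru
  by_cases hb : d ∈ backs g s
  · rw [if_pos hb]
    simp only [Bool.and_eq_true, Bool.or_eq_true, decide_eq_true_iff, List.mem_singleton]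
    constructor
    · rintro rfl
      exact ⟨hb, Or.inl rfl⟩
    · rintro ⟨h1, h2 | h2⟩
      · exact h2.symm
      · exfalso
        obtain ⟨⟨⟨⟨h3, h4⟩, h5⟩, h6⟩, h7⟩ := h2
        unfold isChild at h4
        simp only [Bool.and_eq_true, decide_eq_true_iff] at h4
        exact ls_child_not_back h (snd_mem h h3) h4.2 h4.1 hb
  · rw [if_neg hb]
    obtain ⟨c1, c2, c3⟩ := ls_child_facts h hv hd hb
    have hdd : d ∈ darts g s := (mem_darts h).2 ⟨by rw [hd1]; exact hv, by rw [hd1]; exact hd2⟩
    have hch : isChild g s d = true := by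
      unfold isChild
      simp only [Bool.and_eq_true, decide_eq_true_iff]
      exact ⟨by rw [c3, hd1], c2⟩
    rw [List.mem_filter]
    have := ih d.2 c1 c2 c3 e
    unfold seqOf at this
    rw [this]
    simp only [Bool.and_eq_true, Bool.or_eq_true, decide_eq_true_iff]
    unfold InQ
    constructor
    · rintro ⟨⟨q1, q2, q3, q4⟩, q5⟩
      refine ⟨q1, Or.inr ⟨⟨⟨⟨hdd, hch⟩, q2⟩, ?_⟩, q5⟩⟩
      rw [hd1, ← c3]
      exact ls_anc_of_ne h c1 c2 q3 q4
    · rintro ⟨h1, h2 | h2⟩
      · exact absurd (h2 ▸ h1) hb
      · obtain ⟨⟨⟨⟨h3, h4⟩, h5⟩, h6⟩, h7⟩ := h2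
        rw [hd1, ← c3] at h6
        refine ⟨⟨h1, h5, isAnc_trans h6 (ls_isAnc_par' h c1 c2), ?_⟩, h7⟩
        intro h8
        rw [h8] at h6
        exact ls_not_anc h c1 c2 h6

lemma ls_thru_dir (h : RotValid g s) {v : ℕ} {d e : Nd} (hd : d.1 = v)
    (ht : thru g s d e = true) : InQ g s v e := by
  unfold thru at ht
  simp only [Bool.and_eq_true, Bool.or_eq_true, decide_eq_true_iff] at ht
  obtain ⟨h1, h2 | h2⟩ := ht
  · subst h2
    subst hd
    exact ⟨h1, isAnc_refl _, (ls_mem_backs.1 h1).2.1, ls_back_ne h h1⟩
  · obtain ⟨⟨⟨⟨h3, h4⟩, h5⟩, h6⟩, h7⟩ := h2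
    unfold isChild at h4
    simp only [Bool.and_eq_true, decide_eq_true_iff] at h4
    have h8 := ls_isAnc_par' h (snd_mem h h3) h4.2
    rw [h4.1, hd] at h8
    rw [hd] at h6 h7
    exact ⟨h1, isAnc_trans h8 h5, h6, h7⟩

lemma ls_exists_dir (h : RotValid g s) {v : ℕ} (hv : v ∈ comp g s) {e : Nd}
    (he : InQ g s v e) : ∃ d ∈ dirs g s v, thru g s d e = true := by
  obtain ⟨q1, q2, q3, q4⟩ := he
  have hed := (ls_mem_backs.1 q1).1
  by_cases hev : e.1 = v
  · refine ⟨e, ls_mem_dirs.2 ⟨hev, ?_, Or.inr q1⟩, ?_⟩
    · rw [← hev]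
      exact ((mem_darts h).1 hed).2
    · unfold thru
      simp [q1]
  · obtain ⟨y, y1, y2, y3, y4⟩ := ls_exists_child h (fst_mem h hed) q2 hev
    have hyd : (v, y) ∈ darts g s := (mem_darts h).2 ⟨hv, by
      have := par_nbr h y1 y2
      rw [y3] at this
      exact this⟩
    have hch : isChild g s (v, y) = true := by
      unfold isChild
      simp only [Bool.and_eq_true, decide_eq_true_iff]
      exact ⟨y3, y2⟩
    refine ⟨(v, y), ls_mem_dirs.2 ⟨rfl, ((mem_darts h).1 hyd).2, Or.inl hch⟩, ?_⟩
    unfold thru
    simp only [Bool.and_eq_true, Bool.or_eq_true, decide_eq_true_iff]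
    exact ⟨q1, Or.inr ⟨⟨⟨⟨hyd, hch⟩, y4⟩, q3⟩, q4⟩⟩

theorem mem_seqOf (h : RotValid g s) {v : ℕ} (hv : v ∈ comp g s) {e : Nd} :
    e ∈ seqOf g s v ↔ InQ g s v e := by
  generalize hn : ((dfs g s).map Prod.fst).idxOf v = n
  induction n using Nat.strong_induction_on generalizing v e with
  | _ n ih =>
    have ih' : ∀ y ∈ comp g s, y ≠ s → par g s y = v → ∀ e, e ∈ seqOf g s y ↔ InQ g s y e := by
      intro y hy hys hyv e
      refine ih _ ?_ hy rfl
      rw [← hn, ← hyv]
      exact idxOf_par h hy hys
    rw [seqOf_eq h hv, List.mem_flatMap]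
    constructor
    · rintro ⟨d, hd, hed⟩
      have hd' := (mem_sortD _).1 hd
      exact ls_thru_dir h (ls_mem_dirs.1 hd').1 ((ls_mem_dirSeq_aux h hv ih' hd').1 hed)
    · intro he
      obtain ⟨d, hd, ht⟩ := ls_exists_dir h hv he
      exact ⟨d, (mem_sortD _).2 hd, (ls_mem_dirSeq_aux h hv ih' hd).2 ht⟩

lemma ls_mem_dirSeq (h : RotValid g s) {v : ℕ} (hv : v ∈ comp g s) {d e : Nd}
    (hd : d ∈ dirs g s v) : e ∈ dirSeq g s (seqTab g s) d ↔ thru g s d e = true :=
  ls_mem_dirSeq_aux h hv (fun _ hy _ _ _ => mem_seqOf h hy) hd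

/-- every back edge goes through at most one direction at `v` -/
lemma ls_thru_unique (h : RotValid g s) {v : ℕ} {x y e : Nd} (hx : x.1 = v) (hy : y.1 = v)
    (h1 : thru g s x e = true) (h2 : thru g s y e = true) : x = y := by
  have key : ∀ {x y : Nd}, x.1 = v → y.1 = v → e ∈ backs g s → x = e →
      y ∈ darts g s → isChild g s y = true → isAnc g s y.2 e.1 = true → False := by
    intro x y hx hy he hxe hyd hyc hya
    unfold isChild at hyc
    simp only [Bool.and_eq_true, decide_eq_true_iff] at hyc
    have : e.1 = par g s y.2 := by rw [hyc.1, hy, ← hx, hxe]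
    rw [this] at hya
    exact ls_not_anc h (snd_mem h hyd) hyc.2 hya
  unfold thru at h1 h2
  simp only [Bool.and_eq_true, Bool.or_eq_true, decide_eq_true_iff] at h1 h2
  obtain ⟨he, h1 | h1⟩ := h1
  · obtain ⟨_, h2 | h2⟩ := h2
    · rw [h1, h2]
    · exact (key hx hy he h1 h2.1.1.1.1 h2.1.1.1.2 h2.1.1.2).elim
  · obtain ⟨_, h2 | h2⟩ := h2
    · exact (key hy hx he h2 h1.1.1.1.1 h1.1.1.1.2 h1.1.1.2).elim
    · obtain ⟨⟨⟨⟨a1, a2⟩, a3⟩, a4⟩, a5⟩ := h1
      obtain ⟨⟨⟨⟨b1, b2⟩, b3⟩, b4⟩, b5⟩ := h2
      unfold isChild at a2 b2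
      simp only [Bool.and_eq_true, decide_eq_true_iff] at a2 b2
      have ha := snd_mem h a1
      have hb := snd_mem h b1
      have hxy : x.2 = y.2 := by
        by_contra hne
        rcases isAnc_total h (ls_back_fst h he) a3 b3 with h3 | h3
        · have h4 := ls_anc_of_ne h hb b2.2 h3 hne
          rw [b2.1, hy, ← hx, ← a2.1] at h4
          exact ls_not_anc h ha a2.2 h4
        · have h4 := ls_anc_of_ne h ha a2.2 h3 (Ne.symm hne)
          rw [a2.1, hx, ← hy, ← b2.1] at h4
          exact ls_not_anc h hb b2.2 h4
      exact Prod.ext (by rw [hx, hy]) hxy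

theorem seqOf_nodup (h : RotValid g s) {v : ℕ} (hv : v ∈ comp g s) : (seqOf g s v).Nodup := by
  generalize hn : ((dfs g s).map Prod.fst).idxOf v = n
  induction n using Nat.strong_induction_on generalizing v with
  | _ n ih =>
    rw [seqOf_eq h hv, List.nodup_flatMap]
    constructor
    · intro d hd
      have hd' := (mem_sortD _).1 hd
      unfold dirSeq
      by_cases hb : d ∈ backs g s
      · rw [if_pos hb]
        exact List.nodup_singleton _
      · rw [if_neg hb]
        obtain ⟨c1, c2, c3⟩ := ls_child_facts h hv hd' hb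
        apply List.Nodup.filter
        refine ih _ ?_ c1 rfl
        rw [← hn, ← c3]
        exact idxOf_par h c1 c2
    · refine List.Pairwise.imp_of_mem ?_ (sortD_nodup h (seqTab g s))
      intro a b ha hb hab
      have ha' := (mem_sortD _).1 ha
      have hb' := (mem_sortD _).1 hb
      intro e he1 he2
      exact hab (ls_thru_unique h (ls_mem_dirs.1 ha').1 (ls_mem_dirs.1 hb').1
        ((ls_mem_dirSeq h hv ha').1 he1) ((ls_mem_dirSeq h hv hb').1 he2))

/-! ### the order of the back edges -/

/-- the key of a back edge -/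
def lsKey (g : Rot) (s : ℕ) (e : Nd) : ℤ :=
  if col g s e = true then - (dep g s e.2 : ℤ) - 1 else (dep g s e.2 : ℤ)

lemma ls_leq_iff (e f : Nd) : leq g s e f = true ↔ lsKey g s e ≤ lsKey g s f := by
  unfold leq lsKey
  cases h1 : col g s e <;> cases h2 : col g s f <;> simp <;> omega

lemma ls_dle_iff (tbl : List (ℕ × List Nd)) (x y : Nd) : dle g s tbl x y = true ↔
    ∀ e ∈ dirSeq g s tbl x, ∀ f ∈ dirSeq g s tbl y, lsKey g s e ≤ lsKey g s f := by
  unfold dle
  simp only [List.all_eq_true, ls_leq_iff]

lemma ls_min {P : Nd → Prop} (D : Nd → ℕ) (h : ∃ e, P e) : ∃ e, P e ∧ ∀ f, P f → D e ≤ D f := by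
  classical
  have h' : ∃ n, ∃ e, P e ∧ D e = n := by
    obtain ⟨e, he⟩ := h
    exact ⟨D e, e, he, rfl⟩
  obtain ⟨e, he, hn⟩ := Nat.find_spec h'
  refine ⟨e, he, fun f hf => ?_⟩
  rw [hn]
  exact Nat.find_min' h' ⟨f, hf, rfl⟩

/-- the totality: case of different lowest depths -/
lemma ls_total_lt {P Q : Nd → Prop} {D : Nd → ℕ} {C : Nd → Bool} {K : Nd → ℤ}
    (hK : ∀ e, K e = if C e = true then - (D e : ℤ) - 1 else (D e : ℤ))
    (h2 : ∀ f f' e e', Q f → Q f' → P e → P e' → D e < D f → D e' < D f' → C f = C f')
    (h3 : ∀ e f e' f', P e → Q f → P e' → Q f' → D f' < D e → D e' < D f → C e ≠ C f)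
    {e0 f0 : Nd} (he0 : P e0) (hf0 : Q f0) (hm : ∀ f, Q f → D f0 ≤ D f)
    (hlt : D e0 < D f0) :
    (∀ e, P e → ∀ f, Q f → K e ≤ K f) ∨ (∀ f, Q f → ∀ e, P e → K f ≤ K e) := by
  have hc : ∀ f, Q f → C f = C f0 := fun f hf =>
    h2 f f0 e0 e0 hf hf0 he0 he0 (hlt.trans_le (hm f hf)) hlt
  cases hb : C f0 with
  | false =>
    left
    intro e he f hf
    have hf' : C f = false := by rw [hc f hf, hb]
    rw [hK e, hK f, hf']
    cases hce : C e with
    | true => simp; omega
    | false =>
      simp only [Bool.false_eq_true, if_false, Nat.cast_le]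
      by_contra hcon
      push Not at hcon
      exact h3 e f e0 f he hf he0 hf hcon (hlt.trans_le (hm f hf)) (by rw [hce, hf'])
  | true =>
    right
    intro f hf e he
    have hf' : C f = true := by rw [hc f hf, hb]
    rw [hK e, hK f, hf']
    cases hce : C e with
    | false => simp; omega
    | true =>
      simp only [if_true]
      by_contra hcon
      push Not at hcon
      have : D f < D e := by omega
      exact h3 e f e0 f he hf he0 hf this (hlt.trans_le (hm f hf)) (by rw [hce, hf'])

lemma ls_total {P Q : Nd → Prop} {D : Nd → ℕ} {C : Nd → Bool} {K : Nd → ℤ}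
    (hK : ∀ e, K e = if C e = true then - (D e : ℤ) - 1 else (D e : ℤ))
    (hP : ∃ e, P e) (hQ : ∃ f, Q f)
    (h1 : ∀ e e' f f', P e → P e' → Q f → Q f' → D f < D e → D f' < D e' → C e = C e')
    (h2 : ∀ f f' e e', Q f → Q f' → P e → P e' → D e < D f → D e' < D f' → C f = C f')
    (h3 : ∀ e f e' f', P e → Q f → P e' → Q f' → D f' < D e → D e' < D f → C e ≠ C f)
    (h4 : (∀ e e', (P e ∨ Q e) → (P e' ∨ Q e') → (∀ f, P f ∨ Q f → D e ≤ D f) →
        (∀ f, P f ∨ Q f → D e' ≤ D f) → C e = C e') ∨
      ((∀ e e', P e → P e' → C e = C e') ∧ (∀ e e', Q e → Q e' → C e = C e'))) :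
    (∀ e, P e → ∀ f, Q f → K e ≤ K f) ∨ (∀ f, Q f → ∀ e, P e → K f ≤ K e) := by
  obtain ⟨e0, he0, hme⟩ := ls_min D hP
  obtain ⟨f0, hf0, hmf⟩ := ls_min D hQ
  rcases lt_trichotomy (D e0) (D f0) with hlt | heq | hlt
  · exact ls_total_lt hK h2 h3 he0 hf0 hmf hlt
  · -- equal lowest depths
    have hme' : ∀ f, Q f → D e0 ≤ D f := fun f hf => heq ▸ hmf f hf
    rcases h4 with h4 | ⟨h4, h5⟩
    · -- the edges of lowest depth have the same colour
      have hc0 : ∀ e, (P e ∨ Q e) → D e = D e0 → C e = C e0 := by
        intro e he hd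
        refine h4 e e0 he (Or.inl he0) ?_ ?_
        · intro f hf
          rw [hd]
          rcases hf with hf | hf
          · exact hme f hf
          · exact hme' f hf
        · intro f hf
          rcases hf with hf | hf
          · exact hme f hf
          · exact hme' f hf
      have hk : ∀ e, (P e ∨ Q e) → C e = true → K e ≤ K e0 := by
        intro e he hc
        rcases Nat.lt_or_ge (D e0) (D e) with hd | hd
        · rw [hK e, hK e0, hc]
          cases C e0 <;> simp <;> omega
        · have hd' : D e = D e0 := by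
            rcases he with he | he
            · exact le_antisymm hd (hme e he)
            · exact le_antisymm hd (hme' e he)
          rw [hK e, hK e0, hd', hc0 e he hd']
      have hk' : ∀ e, (P e ∨ Q e) → C e = false → K e0 ≤ K e := by
        intro e he hc
        rcases Nat.lt_or_ge (D e0) (D e) with hd | hd
        · rw [hK e, hK e0, hc]
          cases C e0 <;> simp <;> omega
        · have hd' : D e = D e0 := by
            rcases he with he | he
            · exact le_antisymm hd (hme e he)
            · exact le_antisymm hd (hme' e he)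
          rw [hK e, hK e0, hd', hc0 e he hd']
      have hk0 : ∀ e, (P e ∨ Q e) → D e = D e0 → K e = K e0 := by
        intro e he hd
        rw [hK e, hK e0, hd, hc0 e he hd]
      by_cases hx : (∀ e, P e → D e0 < D e → C e = true) ∧ (∀ f, Q f → D e0 < D f → C f = false)
      · left
        intro e he f hf
        have a1 : K e ≤ K e0 := by
          rcases (hme e he).lt_or_eq with hd | hd
          · exact hk e (Or.inl he) (hx.1 e he hd)
          · exact (hk0 e (Or.inl he) hd.symm).le
        have a2 : K e0 ≤ K f := by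
          rcases (hme' f hf).lt_or_eq with hd | hd
          · exact hk' f (Or.inr hf) (hx.2 f hf hd)
          · exact (hk0 f (Or.inr hf) hd.symm).ge
        exact a1.trans a2
      · right
        intro f hf e he
        have key : (∀ e, P e → D e0 < D e → C e = false) ∧
            (∀ f, Q f → D e0 < D f → C f = true) := by
          rw [not_and_or] at hx
          push Not at hx
          rcases hx with ⟨e1, he1, hd1, hc1⟩ | ⟨f1, hf1, hd1, hc1⟩
          · have hc1' : C e1 = false := by simpa using hc1
            refine ⟨fun e he hd => ?_, fun f hf hd => ?_⟩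
            · rw [h1 e e1 f0 f0 he he1 hf0 hf0 (by omega) (by omega)]
              exact hc1'
            · have := h3 e1 f e0 f0 he1 hf he0 hf0 (by omega) hd
              rw [hc1'] at this
              simpa using this.symm
          · have hc1' : C f1 = true := by simpa using hc1
            refine ⟨fun e he hd => ?_, fun f hf hd => ?_⟩
            · have := h3 e f1 e0 f0 he hf1 he0 hf0 (by omega) hd1
              rw [hc1'] at this
              simpa using this
            · rw [h2 f f1 e0 e0 hf hf1 he0 he0 hd hd1]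
              exact hc1'
        have a1 : K e0 ≤ K e := by
          rcases (hme e he).lt_or_eq with hd | hd
          · exact hk' e (Or.inl he) (key.1 e he hd)
          · exact (hk0 e (Or.inl he) hd.symm).ge
        have a2 : K f ≤ K e0 := by
          rcases (hme' f hf).lt_or_eq with hd | hd
          · exact hk f (Or.inr hf) (key.2 f hf hd)
          · exact (hk0 f (Or.inr hf) hd.symm).le
        exact a2.trans a1
    · -- one colour in each direction
      have hcP : ∀ e, P e → C e = C e0 := fun e he => h4 e e0 he he0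
      have hcQ : ∀ f, Q f → C f = C f0 := fun f hf => h5 f f0 hf hf0
      cases hb : C e0 <;> cases hb' : C f0
      · -- both right
        by_cases hE : ∀ e, P e → D e = D e0
        · left
          intro e he f hf
          rw [hK e, hK f, hcP e he, hcQ f hf, hb, hb', hE e he]
          simp only [Bool.false_eq_true, if_false, Nat.cast_le]
          exact hme' f hf
        · right
          push Not at hE
          obtain ⟨e1, he1, hd1⟩ := hE
          have hd1' : D e0 < D e1 := lt_of_le_of_ne (hme e1 he1) (Ne.symm hd1)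
          intro f hf e he
          have hfd : D f = D e0 := by
            by_contra hcon
            have hd2 : D e0 < D f := lt_of_le_of_ne (hme' f hf) (Ne.symm hcon)
            apply h3 e1 f e0 f0 he1 hf he0 hf0 (by omega) hd2
            rw [hcP e1 he1, hcQ f hf, hb, hb']
          rw [hK e, hK f, hcP e he, hcQ f hf, hb, hb', hfd]
          simp only [Bool.false_eq_true, if_false, Nat.cast_le]
          exact hme e he
      · -- P right, Q left
        right
        intro f hf e he
        rw [hK e, hK f, hcP e he, hcQ f hf, hb, hb']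
        simp
        omega
      · left
        intro e he f hf
        rw [hK e, hK f, hcP e he, hcQ f hf, hb, hb']
        simp
        omega
      · -- both left
        by_cases hE : ∀ e, P e → D e = D e0
        · right
          intro f hf e he
          rw [hK e, hK f, hcP e he, hcQ f hf, hb, hb', hE e he]
          have := hme' f hf
          simp only [if_true]
          omega
        · left
          push Not at hE
          obtain ⟨e1, he1, hd1⟩ := hE
          have hd1' : D e0 < D e1 := lt_of_le_of_ne (hme e1 he1) (Ne.symm hd1)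
          intro e he f hf
          have hfd : D f = D e0 := by
            by_contra hcon
            have hd2 : D e0 < D f := lt_of_le_of_ne (hme' f hf) (Ne.symm hcon)
            apply h3 e1 f e0 f0 he1 hf he0 hf0 (by omega) hd2
            rw [hcP e1 he1, hcQ f hf, hb, hb']
          have := hme e he
          rw [hK e, hK f, hcP e he, hcQ f hf, hb, hb', hfd]
          simp only [if_true]
          omega
  · -- D f0 < D e0
    have := ls_total_lt (P := Q) (Q := P) hK
      (fun e e' f f' he he' hf hf' => h1 e e' f f' he he' hf hf')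
      (fun f e f' e' hf he hf' he' a b => (h3 e f e' f' he hf he' hf' b a).symm) hf0 he0 hme hlt
    rcases this with h | h
    · exact Or.inr h
    · exact Or.inl h

lemma ls_dirs_darts (h : RotValid g s) {v : ℕ} (hv : v ∈ comp g s) {d : Nd}
    (hd : d ∈ dirs g s v) : d ∈ darts g s := by
  obtain ⟨h1, h2, _⟩ := ls_mem_dirs.1 hd
  exact (mem_darts h).2 ⟨by rw [h1]; exact hv, by rw [h1]; exact h2⟩

lemma ls_thru_backs {x e : Nd} (ht : thru g s x e = true) : e ∈ backs g s := by
  unfold thru at ht
  simp only [Bool.and_eq_true, decide_eq_true_iff] at ht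
  exact ht.1

lemma ls_lower {y e f : Nd} (ht : thru g s y f = true) (hd : dep g s f.2 < dep g s e.2) :
    lower g s y e = true := by
  unfold lower
  rw [List.any_eq_true]
  refine ⟨f, ls_thru_backs ht, ?_⟩
  simp [ht, hd]

lemma ls_sameC {x y e e' : Nd} (hx : x ∈ darts g s) (hy : y ∈ darts g s) (hxy : x.1 = y.1)
    (hne : x ≠ y) (h1 : thru g s x e = true) (h2 : thru g s x e' = true)
    (h3 : lower g s y e = true) (h4 : lower g s y e' = true) : sameC g s e e' = true := by
  unfold sameC
  rw [List.any_eq_true]
  refine ⟨x, hx, ?_⟩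
  rw [List.any_eq_true]
  refine ⟨y, hy, ?_⟩
  simp [hxy, hne, h1, h2, h3, h4]

lemma ls_diffC {x y e f : Nd} (hx : x ∈ darts g s) (hy : y ∈ darts g s) (hxy : x.1 = y.1)
    (hne : x ≠ y) (h1 : thru g s x e = true) (h2 : thru g s y f = true)
    (h3 : lower g s y e = true) (h4 : lower g s x f = true) : diffC g s e f = true := by
  unfold diffC
  rw [List.any_eq_true]
  refine ⟨x, hx, ?_⟩
  rw [List.any_eq_true]
  refine ⟨y, hy, ?_⟩
  simp [hxy, hne, h1, h2, h3, h4]

/-- totality of the order of the directions -/
lemma ls_dle_total (h : RotValid g s) (c : Nd → Bool) (hc : ColOK g s c) {v : ℕ}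
    (hv : v ∈ comp g s) {x y : Nd} (hx : x ∈ dirs g s v) (hy : y ∈ dirs g s v) (hne : x ≠ y)
    (hx' : ∃ e, thru g s x e = true) (hy' : ∃ e, thru g s y e = true) :
    (∀ e, thru g s x e = true → ∀ f, thru g s y f = true → lsKey g s e ≤ lsKey g s f) ∨
    (∀ f, thru g s y f = true → ∀ e, thru g s x e = true → lsKey g s f ≤ lsKey g s e) := by
  have hC := col_ok h c hc
  have hxd := ls_dirs_darts h hv hx
  have hyd := ls_dirs_darts h hv hy
  have hx1 := (ls_mem_dirs.1 hx).1
  have hy1 := (ls_mem_dirs.1 hy).1
  have hxy : x.1 = y.1 := by rw [hx1, hy1]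
  refine ls_total (D := fun e => dep g s e.2) (C := col g s) (K := lsKey g s)
    (fun e => rfl) hx' hy' ?_ ?_ ?_ ?_
  · intro e e' f f' he he' hf hf' a b
    exact (hC e (ls_thru_backs he) e' (ls_thru_backs he')).1
      (ls_sameC hxd hyd hxy hne he he' (ls_lower hf a) (ls_lower hf' b))
  · intro f f' e e' hf hf' he he' a b
    exact (hC f (ls_thru_backs hf) f' (ls_thru_backs hf')).1
      (ls_sameC hyd hxd hxy.symm hne.symm hf hf' (ls_lower he a) (ls_lower he' b))
  · intro e f e' f' he hf he' hf' a b
    exact (hC e (ls_thru_backs he) f (ls_thru_backs hf)).2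
      (ls_diffC hxd hyd hxy hne he hf (ls_lower hf' a) (ls_lower he' b))
  · by_cases hmin : ∀ k, InQ g s v k → ∃ e, (thru g s x e = true ∨ thru g s y e = true) ∧
      dep g s e.2 ≤ dep g s k.2
    · left
      intro e e' he he' hm hm'
      have hq : ∀ e, (thru g s x e = true ∨ thru g s y e = true) → InQ g s v e := by
        rintro e (he | he)
        · exact ls_thru_dir h hx1 he
        · exact ls_thru_dir h hy1 he
      refine col_aligned h c hc hv (hq e he) (hq e' he') ?_ ?_
      · intro k hk
        obtain ⟨e1, he1, hd1⟩ := hmin k hk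
        exact (hm e1 he1).trans hd1
      · intro k hk
        obtain ⟨e1, he1, hd1⟩ := hmin k hk
        exact (hm' e1 he1).trans hd1
    · right
      push Not at hmin
      obtain ⟨k, hk, hk2⟩ := hmin
      obtain ⟨z, hz, hzk⟩ := ls_exists_dir h hv hk
      have hzd := ls_dirs_darts h hv hz
      have hz1 := (ls_mem_dirs.1 hz).1
      have hxz : x ≠ z := by
        rintro rfl
        exact absurd (hk2 k (Or.inl hzk)) (lt_irrefl _)
      have hyz : y ≠ z := by
        rintro rfl
        exact absurd (hk2 k (Or.inr hzk)) (lt_irrefl _)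
      constructor
      · intro e e' he he'
        exact (hC e (ls_thru_backs he) e' (ls_thru_backs he')).1
          (ls_sameC hxd hzd (by rw [hx1, hz1]) hxz he he' (ls_lower hzk (hk2 e (Or.inl he)))
            (ls_lower hzk (hk2 e' (Or.inl he'))))
      · intro e e' he he'
        exact (hC e (ls_thru_backs he) e' (ls_thru_backs he')).1
          (ls_sameC hyd hzd (by rw [hy1, hz1]) hyz he he' (ls_lower hzk (hk2 e (Or.inr he)))
            (ls_lower hzk (hk2 e' (Or.inr he'))))

/-- the directions are sorted -/
lemma ls_sortD_sorted (h : RotValid g s) (c : Nd → Bool) (hc : ColOK g s c) {v : ℕ}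
    (hv : v ∈ comp g s) :
    (sortD g s (seqTab g s) v).Pairwise fun x y => dle g s (seqTab g s) x y = true := by
  unfold sortD
  rw [List.pairwise_append]
  refine ⟨?_, ?_, ?_⟩
  · refine ls_foldl_sorted (S := fun d => d ∈ dirs g s v ∧ dirSeq g s (seqTab g s) d ≠ [])
      List.Pairwise.nil (by simp) ?_ ?_ ?_ ?_
    · intro y hy
      rw [List.mem_filter, decide_eq_true_iff] at hy
      exact hy
    · intro x hx y hy hne
      rw [List.mem_filter, decide_eq_true_iff] at hx
      have e1 : ∃ e, thru g s x e = true := by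
        obtain ⟨e, he⟩ := List.exists_mem_of_ne_nil _ hx.2
        exact ⟨e, (ls_mem_dirSeq h hv hx.1).1 he⟩
      have e2 : ∃ e, thru g s y e = true := by
        obtain ⟨e, he⟩ := List.exists_mem_of_ne_nil _ hy.2
        exact ⟨e, (ls_mem_dirSeq h hv hy.1).1 he⟩
      rw [ls_dle_iff, ls_dle_iff]
      rcases ls_dle_total h c hc hv hx.1 hy.1 hne e1 e2 with h1 | h1
      · left
        intro e he f hf
        exact h1 e ((ls_mem_dirSeq h hv hx.1).1 he) f ((ls_mem_dirSeq h hv hy.1).1 hf)
      · right
        intro f hf e he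
        exact h1 f ((ls_mem_dirSeq h hv hy.1).1 hf) e ((ls_mem_dirSeq h hv hx.1).1 he)
    · intro x y z _ hy _ h1 h2
      rw [ls_dle_iff] at h1 h2 ⊢
      obtain ⟨f, hf⟩ := List.exists_mem_of_ne_nil _ hy.2
      intro e he k hk
      exact (h1 e he f hf).trans (h2 f hf k hk)
    · rw [List.append_nil]
      exact (ls_dirs_nodup h v).filter _
  · refine (List.Pairwise.imp_of_mem (R := fun _ _ => True) ?_ (List.pairwise_of_forall
      (fun _ _ => trivial)))
    intro a b ha hb _
    rw [List.mem_filter, decide_eq_true_iff] at ha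
    rw [ls_dle_iff, ha.2]
    simp
  · intro a ha b hb
    rw [List.mem_filter, decide_eq_true_iff] at hb
    rw [ls_dle_iff, hb.2]
    simp

/-- the main statement of this chunk -/
theorem seqOf_sorted (h : RotValid g s) (c : Nd → Bool) (hc : ColOK g s c) {v : ℕ}
    (hv : v ∈ comp g s) : (seqOf g s v).Pairwise fun e f => leq g s e f = true := by
  generalize hn : ((dfs g s).map Prod.fst).idxOf v = n
  induction n using Nat.strong_induction_on generalizing v with
  | _ n ih =>
    rw [seqOf_eq h hv, List.pairwise_flatMap]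
    constructor
    · intro d hd
      have hd' := (mem_sortD _).1 hd
      unfold dirSeq
      by_cases hb : d ∈ backs g s
      · rw [if_pos hb]
        exact List.pairwise_singleton _ _
      · rw [if_neg hb]
        obtain ⟨c1, c2, c3⟩ := ls_child_facts h hv hd' hb
        apply List.Pairwise.filter
        refine ih _ ?_ c1 rfl
        rw [← hn, ← c3]
        exact idxOf_par h c1 c2
    · refine (ls_sortD_sorted h c hc hv).imp ?_
      intro a b hab e he f hf
      rw [ls_leq_iff]
      exact (ls_dle_iff _ _ _).1 hab e he f hf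

/-- a list which is sorted with respect to a class in `{0, 1, 2}` -/
lemma ls_split {K : Nd → ℕ} (l : List Nd) (hK : ∀ e ∈ l, K e ≤ 2)
    (hl : l.Pairwise fun e f => K e ≤ K f) :
    l = (l.filter fun e => decide (K e = 0)) ++ (l.filter fun e => decide (K e = 1)) ++
      (l.filter fun e => decide (K e = 2)) := by
  induction l with
  | nil => rfl
  | cons a t ih =>
    rw [List.pairwise_cons] at hl
    have iht := ih (fun e he => hK e (by simp [he])) hl.2
    have ha := hK a (by simp)
    have h0 : K a = 0 ∨ K a = 1 ∨ K a = 2 := by omega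
    rcases h0 with h0 | h0 | h0
    · simp only [List.filter_cons, h0, decide_true, if_true, List.cons_append]
      simp only [zero_ne_one, (by decide : ¬ (0:ℕ) = 2), decide_false, Bool.false_eq_true, if_false]
      rw [← iht]
    · have e0 : t.filter (fun e => decide (K e = 0)) = [] := by
        rw [List.filter_eq_nil_iff]
        intro e he
        have := hl.1 e he
        simp only [decide_eq_true_iff]
        omega
      rw [e0, List.nil_append] at iht
      simp only [List.filter_cons, h0, decide_true, if_true, List.cons_append, one_ne_zero,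
        (by decide : ¬ (1:ℕ) = 2), decide_false, Bool.false_eq_true, if_false, e0,
        List.nil_append]
      rw [← iht]
    · have e0 : t.filter (fun e => decide (K e = 0)) = [] := by
        rw [List.filter_eq_nil_iff]
        intro e he
        have := hl.1 e he
        simp only [decide_eq_true_iff]
        omega
      have e1 : t.filter (fun e => decide (K e = 1)) = [] := by
        rw [List.filter_eq_nil_iff]
        intro e he
        have := hl.1 e he
        simp only [decide_eq_true_iff]
        omega
      rw [e0, e1, List.nil_append, List.nil_append] at iht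
      simp only [List.filter_cons, h0, decide_true, if_true, (by decide : ¬ (2:ℕ) = 0),
        (by decide : ¬ (2:ℕ) = 1), decide_false, Bool.false_eq_true, if_false, e0, e1,
        List.nil_append]
      rw [← iht]

/-- the sequence of a child `y` of `v`: the left back edges to `v`, then the back edges to strict
ancestors of `v`, then the right back edges to `v` -/
theorem seqOf_child (h : RotValid g s) (c : Nd → Bool) (hc : ColOK g s c) {v y : ℕ}
    (hy : y ∈ comp g s) (hys : y ≠ s) (hyv : par g s y = v) :
    seqOf g s y = ((seqOf g s y).filter fun e => decide (e.2 = v) && decide (col g s e = true)) ++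
      ((seqOf g s y).filter fun e => decide (e.2 ≠ v)) ++
      ((seqOf g s y).filter fun e => decide (e.2 = v) && decide (col g s e = false)) := by
  have hvc : v ∈ comp g s := by rw [← hyv]; exact par_mem_comp h hy
  have hD : ∀ e ∈ seqOf g s y, e.2 ≠ v → dep g s e.2 < dep g s v := by
    intro e he hev
    obtain ⟨q1, q2, q3, q4⟩ := (mem_seqOf h hy).1 he
    have h1 := ls_anc_of_ne h hy hys q3 q4
    rw [hyv] at h1
    exact dep_lt h hvc h1 hev
  let K : Nd → ℕ := fun e => if e.2 = v then (if col g s e = true then 0 else 2) else 1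
  have hK2 : ∀ e, K e ≤ 2 := by
    intro e
    simp only [K]
    split_ifs <;> omega
  have hsort : (seqOf g s y).Pairwise fun e f => K e ≤ K f := by
    refine List.Pairwise.imp_of_mem ?_ (seqOf_sorted h c hc hy)
    intro e f he hf hef
    rw [ls_leq_iff] at hef
    unfold lsKey at hef
    simp only [K]
    by_cases h1 : e.2 = v <;> by_cases h2 : f.2 = v
    · rw [h1, h2] at hef
      rw [if_pos h1, if_pos h2]
      cases h3 : col g s e <;> cases h4 : col g s f <;> simp [h3, h4] at hef ⊢
      omega
    · have h5 := hD f hf h2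
      rw [h1] at hef
      rw [if_pos h1, if_neg h2]
      cases h3 : col g s e <;> cases h4 : col g s f <;> simp [h3, h4] at hef ⊢ <;> omega
    · have h5 := hD e he h1
      rw [h2] at hef
      rw [if_neg h1, if_pos h2]
      cases h3 : col g s e <;> cases h4 : col g s f <;> simp [h3, h4] at hef ⊢ <;> omega
    · rw [if_neg h1, if_neg h2]
  have h0 := ls_split (seqOf g s y) (fun e _ => hK2 e) hsort
  have e0 : (fun e : Nd => decide (K e = 0)) =
      fun e => decide (e.2 = v) && decide (col g s e = true) := by
    funext e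
    simp only [K]
    rcases Bool.eq_false_or_eq_true (col g s e) with h2 | h2 <;> by_cases h1 : e.2 = v <;>
      simp [h1, h2]
  have e1 : (fun e : Nd => decide (K e = 1)) = fun e => decide (e.2 ≠ v) := by
    funext e
    simp only [K]
    rcases Bool.eq_false_or_eq_true (col g s e) with h2 | h2 <;> by_cases h1 : e.2 = v <;>
      simp [h1, h2]
  have e2 : (fun e : Nd => decide (K e = 2)) =
      fun e => decide (e.2 = v) && decide (col g s e = false) := by
    funext e
    simp only [K]
    rcases Bool.eq_false_or_eq_true (col g s e) with h2 | h2 <;> by_cases h1 : e.2 = v <;>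
      simp [h1, h2]
  rw [e0, e1, e2] at h0
  exact h0

end Pool.Agent.PFire
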