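import Pool.Agent.Lib.PFire.LrRot

/-!
# Chunk LW: the contour word; the rotation system of `embed` has many faces

The contour word `W v` (a list of darts): for the entries of `rotV v` without the parent, in this order:
for an entry `y` which is a child: `(v, y) :: W y ++ [(y, v)]`; for another entry `w`: `[(v, w)]`.
(Define it by recursion with fuel, or on the position in the list of visited vertices.)
Every dart of the component occurs exactly once in `W s`.  In the cyclic word `W s` the dart after `d` is
`κ d`, where `κ d = phi d` if `d` is a tree dart (`d.2` a child of `d.1` or conversely), and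
`κ d = phi (al d)` otherwise (`phi = phi (embed g s)`).

Stack reading: a stack is a list of back edges (unordered pairs, or darts from the lower to the upper
end).  Reading a tree dart does nothing, reading the dart of a back edge `e` removes `e` if it is on
top of the stack, and pushes `e` otherwise.  On stacks without equal neighbours, reading `e` twice is the
identity.  Claim: reading `W v` is the same as reading the word `seqOf v` (all its letters in this order):
at `v`, a child `y` contributes `rev Linc · W y · rev Rinc`, where `W y` acts as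
`seqOf y = Linc · seq' · Rinc` (`seqOf_child`), so altogether it acts as `seq'`.  Hence reading `W s`
from the empty stack ends with the empty stack (`seqOf s = []`).  Every back edge occurs exactly twice, so
at its second occurrence it is on top of the stack (otherwise it would stay in the stack), and the
stack after the second occurrence is the stack before the first one.

Label of a dart `d` = the top of the stack just before `d` is read (`none` if the stack is empty).
Then `lab (phi d) = lab d`: for a tree dart `phi d = κ d`; for a dart of a back edge `phi d = κ (al d)`, and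
the top after reading `al d` is the top before reading `d`.  All back edges are labels (before the second
occurrence) and `none` is a label (first dart).  So there are at least `#backs + 1` faces, and
`2 #backs + 2 (#comp - 1) = #darts`.
-/

set_option autoImplicit false

namespace Pool.Agent.PFire

open Pool.Agent.PolyTime

variable {g : Rot} {s : ℕ}

/-! ### Stacks -/

section Stack

variable {ι : Type} [DecidableEq ι]

/-- reading a letter -/
def lwRd (S : List ι) (e : ι) : List ι :=
  match S with
  | [] => [e]
  | a :: t => if a = e then t else e :: a :: t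

lemma lwRd_cons (a : ι) (t : List ι) (e : ι) :
    lwRd (a :: t) e = if a = e then t else e :: a :: t := rfl

lemma lwRd_red {S : List ι} {e : ι} (h : S.IsChain (· ≠ ·)) : (lwRd S e).IsChain (· ≠ ·) := by
  cases S with
  | nil => exact List.isChain_singleton _
  | cons a t =>
    rw [lwRd_cons]
    split_ifs with hae
    · exact (List.isChain_cons.1 h).2
    · exact List.isChain_cons_cons.2 ⟨fun hh => hae hh.symm, h⟩

lemma lwRd_rd {S : List ι} {e : ι} (h : S.IsChain (· ≠ ·)) : lwRd (lwRd S e) e = S := by
  cases S with
  | nil => simp [lwRd]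
  | cons a t =>
    by_cases hae : a = e
    · subst hae
      have h2 := (List.isChain_cons.1 h).1
      cases t with
      | nil => simp [lwRd]
      | cons b t' =>
        have hb : a ≠ b := h2 b (by simp)
        simp [lwRd, hb.symm]
    · simp [lwRd, hae]

lemma lwFold_red {S : List ι} (u : List ι) (h : S.IsChain (· ≠ ·)) :
    (u.foldl lwRd S).IsChain (· ≠ ·) := by
  induction u generalizing S with
  | nil => exact h
  | cons e u ih => exact ih (lwRd_red h)

lemma lwFold_cancel {S : List ι} (u : List ι) (h : S.IsChain (· ≠ ·)) :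
    (u ++ u.reverse).foldl lwRd S = S := by
  induction u generalizing S with
  | nil => rfl
  | cons e u ih =>
    have h1 : (e :: u ++ (e :: u).reverse) = e :: ((u ++ u.reverse) ++ [e]) := by simp
    rw [h1, List.foldl_cons, List.foldl_append, ih (lwRd_red h)]
    exact lwRd_rd h

lemma lwFold_cancel' {S : List ι} (u : List ι) (h : S.IsChain (· ≠ ·)) :
    (u.reverse ++ u).foldl lwRd S = S := by
  have := lwFold_cancel u.reverse h
  rwa [List.reverse_reverse] at this

/-- reading with letters given by a function -/
def lwRdO {δ : Type} (f : δ → Option ι) (S : List ι) (d : δ) : List ι :=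
  match f d with
  | none => S
  | some e => lwRd S e

lemma lwRd_count {S : List ι} {e x : ι} (hx : x ≠ e) : (lwRd S x).count e = S.count e := by
  cases S with
  | nil => simp [lwRd, hx]
  | cons a t =>
    rw [lwRd_cons]
    split_ifs with hax
    · subst hax
      rw [List.count_cons_of_ne hx]
    · rw [List.count_cons_of_ne hx]

lemma lwFoldO_count {δ : Type} {f : δ → Option ι} {e : ι} (u : List δ)
    (hu : ∀ d ∈ u, f d ≠ some e) (S : List ι) :
    (u.foldl (lwRdO f) S).count e = S.count e := by
  induction u generalizing S with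
  | nil => rfl
  | cons d u ih =>
    rw [List.foldl_cons, ih (fun x hx => hu x (List.mem_cons_of_mem _ hx))]
    unfold lwRdO
    have hd := hu d (by simp)
    cases hfd : f d with
    | none => rfl
    | some x =>
      rw [hfd] at hd
      exact lwRd_count (fun hh => hd (by rw [hh]))

lemma lwFoldO_bottom {δ : Type} {f : δ → Option ι} {e : ι} (u : List δ)
    (hu : ∀ d ∈ u, f d ≠ some e) (T S : List ι) :
    ∃ T', u.foldl (lwRdO f) (T ++ e :: S) = T' ++ e :: S := by
  induction u generalizing T with
  | nil => exact ⟨T, rfl⟩
  | cons d u ih =>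
    rw [List.foldl_cons]
    have hd := hu d (by simp)
    have : ∃ T1, lwRdO f (T ++ e :: S) d = T1 ++ e :: S := by
      unfold lwRdO
      cases hfd : f d with
      | none => exact ⟨T, rfl⟩
      | some x =>
        rw [hfd] at hd
        have hxe : x ≠ e := fun hh => hd (by rw [hh])
        cases T with
        | nil => exact ⟨[x], by simp [lwRd, hxe.symm]⟩
        | cons a T =>
          by_cases hax : a = x
          · exact ⟨T, by simp [lwRd, hax]⟩
          · exact ⟨x :: a :: T, by simp [lwRd, hax]⟩
    obtain ⟨T1, hT1⟩ := this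
    rw [hT1]
    exact ih (fun x hx => hu x (List.mem_cons_of_mem _ hx)) T1

lemma lwRd_not_mem {S : List ι} {e : ι} (h : S.count e = 0) : lwRd S e = e :: S := by
  cases S with
  | nil => rfl
  | cons a t =>
    have : a ≠ e := by
      rintro rfl
      simp at h
    simp [lwRd, this]

/-- The stack is well nested. -/
lemma lw_nest {δ : Type} {f : δ → Option ι} {e : ι} {u1 u2 u3 : List δ} {d d' : δ}
    (hd : f d = some e) (hd' : f d' = some e)
    (h1 : ∀ x ∈ u1, f x ≠ some e) (h2 : ∀ x ∈ u2, f x ≠ some e) (h3 : ∀ x ∈ u3, f x ≠ some e)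
    (h0 : (u1 ++ d :: (u2 ++ d' :: u3)).foldl (lwRdO f) [] = []) :
    (u1 ++ d :: u2).foldl (lwRdO f) [] = e :: u1.foldl (lwRdO f) [] ∧
    lwRd (u1.foldl (lwRdO f) []) e = e :: u1.foldl (lwRdO f) [] := by
  set S := u1.foldl (lwRdO f) [] with hS
  have hSe : S.count e = 0 := by
    rw [hS, lwFoldO_count u1 h1]
    rfl
  have hrd : lwRd S e = e :: S := lwRd_not_mem hSe
  refine ⟨?_, hrd⟩
  have hSd : lwRdO f S d = e :: S := by
    unfold lwRdO
    rw [hd]
    exact hrd
  rw [List.foldl_append, List.foldl_cons, ← hS, hSd]
  obtain ⟨T, hT⟩ := lwFoldO_bottom u2 h2 [] S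
  rw [List.nil_append] at hT
  have hcnt : (u2.foldl (lwRdO f) (e :: S)).count e = 1 := by
    rw [lwFoldO_count u2 h2]
    simp [hSe]
  have hTe : T.count e = 0 := by
    rw [hT] at hcnt
    simp only [List.count_append, List.count_cons_self] at hcnt
    omega
  rw [hT]
  cases T with
  | nil => rfl
  | cons a T =>
    exfalso
    rw [List.foldl_append, List.foldl_cons, List.foldl_append, List.foldl_cons, ← hS, hSd, hT] at h0
    have hae : a ≠ e := by
      rintro rfl
      simp at hTe
    have h4 : (lwRdO f (a :: T ++ e :: S) d').count e = 2 := by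
      unfold lwRdO
      rw [hd']
      have : lwRd (a :: T ++ e :: S) e = e :: (a :: T ++ e :: S) := by simp [lwRd, hae]
      rw [show (match some e with | none => a :: T ++ e :: S | some e_1 => lwRd (a :: T ++ e :: S) e_1) = lwRd (a :: T ++ e :: S) e from rfl, this]
      simp only [List.count_cons_self, List.count_append, hTe, hSe]
    have h5 := lwFoldO_count (f := f) u3 h3 (lwRdO f (a :: T ++ e :: S) d')
    rw [h0, h4] at h5
    simp at h5

end Stack

/-! ### The successor in a list -/

lemma lw_nextIn {a b : List ℕ} {x : ℕ} (hx : x ∉ a) :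
    nextIn (a ++ x :: b) x = (b ++ (a ++ x :: b)).headD 0 := by
  unfold nextIn
  have : (a ++ x :: b).dropWhile (fun y => decide (y ≠ x)) = x :: b := by
    rw [List.dropWhile_append]
    have h1 : a.dropWhile (fun y => decide (y ≠ x)) = [] := by
      rw [List.dropWhile_eq_nil_iff]
      intro y hy
      simp only [decide_eq_true_eq]
      rintro rfl
      exact hx hy
    rw [h1]
    simp
  rw [this]
  rfl

/-- the chain of successors in a cyclic list without repetition -/
lemma lw_chain_next {L : List ℕ} (hL : L.Nodup) (b : List ℕ) : ∀ a, L = a ++ b → ∀ x,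
    L.head? = some x → (b ++ [x]).IsChain (fun y y' => nextIn L y = y') := by
  induction b with
  | nil => intro a _ x _; exact List.isChain_singleton _
  | cons y b ih =>
    intro a ha x hx
    rw [List.cons_append, List.isChain_cons]
    constructor
    · intro y' hy'
      have hya : y ∉ a := by
        rw [ha] at hL
        rw [List.nodup_append] at hL
        intro hy
        exact hL.2.2 y hy y (by simp) rfl
      rw [ha, lw_nextIn hya]
      cases b with
      | nil =>
        simp only [List.nil_append, List.head?_cons, Option.mem_def, Option.some.injEq] at hy'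
        rw [List.nil_append, ← ha, ← hy']
        cases L with
        | nil => simp at hx
        | cons z L => simpa using hx
      | cons z b =>
        simp only [List.cons_append, List.head?_cons, Option.mem_def, Option.some.injEq] at hy'
        simp [hy']
    · exact ih (a ++ [y]) (by rw [ha]; simp) x hx

/-! ### Darts: children, parents, back edges -/

lemma lw_isChild {d : Nd} : isChild g s d = true ↔ par g s d.2 = d.1 ∧ d.2 ≠ s := by
  simp [isChild]

lemma lw_mem_backs {e : Nd} :
    e ∈ backs g s ↔ e ∈ darts g s ∧ isAnc g s e.2 e.1 = true ∧ e.2 ≠ par g s e.1 := by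
  simp [backs]

lemma lw_ne (h : RotValid g s) {d : Nd} (hd : d ∈ darts g s) : d.1 ≠ d.2 := by
  intro he
  have := (mem_darts h).1 hd
  rw [← he] at this
  exact h.irrefl _ this.2

/-- a child is below its parent -/
lemma lw_anc_child (h : RotValid g s) {v y : ℕ} (hy : y ∈ comp g s) (hys : y ≠ s)
    (hyv : par g s y = v) : isAnc g s v y = true := by
  rw [isAnc_par h hy hys]
  right
  rw [hyv]
  exact isAnc_refl v

lemma lw_par_ne (h : RotValid g s) {y : ℕ} (hy : y ∈ comp g s) (hys : y ≠ s) : par g s y ≠ y := by
  intro he
  have h1 := par_nbr h hy hys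
  rw [he] at h1
  exact h.irrefl _ h1

lemma lw_cases (h : RotValid g s) {d : Nd} (hd : d ∈ darts g s) :
    isChild g s d = true ∨ isChild g s (al d) = true ∨ d ∈ backs g s ∨ al d ∈ backs g s := by
  obtain ⟨h1, h2⟩ := (mem_darts h).1 hd
  have hd2 := snd_mem h hd
  have key : ∀ e ∈ darts g s, isAnc g s e.2 e.1 = true → isChild g s (al e) = true ∨ e ∈ backs g s := by
    intro e he ha
    by_cases hp : e.2 = par g s e.1
    · left
      rw [lw_isChild]
      refine ⟨hp.symm, ?_⟩
      change e.1 ≠ s
      intro hes
      rw [hes] at ha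
      have h3 := isAnc_antisymm h (s_mem_comp h) ha (isAnc_s h (snd_mem h he))
      exact lw_ne h he (hes.trans h3.symm)
    · right
      exact lw_mem_backs.2 ⟨he, ha, hp⟩
  rcases dfs_edge h h1 h2 with ha | ha
  · rcases key (al d) (al_mem h hd) ha with h3 | h3
    · exact Or.inl h3
    · exact Or.inr (Or.inr (Or.inr h3))
  · rcases key d hd ha with h3 | h3
    · exact Or.inr (Or.inl h3)
    · exact Or.inr (Or.inr (Or.inl h3))

lemma lw_child_not_back (h : RotValid g s) {d : Nd} (hd : d ∈ darts g s)
    (hc : isChild g s d = true) : d ∉ backs g s ∧ al d ∉ backs g s := by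
  rw [lw_isChild] at hc
  constructor
  · intro hb
    have hb' := lw_mem_backs.1 hb
    have h1 := lw_anc_child h (snd_mem h hd) hc.2 hc.1
    exact lw_ne h hd (isAnc_antisymm h (snd_mem h hd) h1 hb'.2.1)
  · intro hb
    have hb' := lw_mem_backs.1 hb
    exact hb'.2.2 hc.1.symm

lemma lw_back_not_back (h : RotValid g s) {d : Nd} (hb : d ∈ backs g s) : al d ∉ backs g s := by
  intro hb2
  have h1 := lw_mem_backs.1 hb
  have h2 := lw_mem_backs.1 hb2
  exact lw_ne h h1.1 (isAnc_antisymm h (snd_mem h h1.1) h2.2.1 h1.2.1)

/-- the letter of a dart -/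
def lwLet (g : Rot) (s : ℕ) (d : Nd) : Option Nd :=
  if d ∈ backs g s then some d else if al d ∈ backs g s then some (al d) else none

lemma al_al (d : Nd) : al (al d) = d := rfl

lemma lwLet_child (h : RotValid g s) {d : Nd} (hd : d ∈ darts g s) (hc : isChild g s d = true) :
    lwLet g s d = none := by
  have := lw_child_not_back h hd hc
  simp [lwLet, this.1, this.2]

lemma lwLet_parent (h : RotValid g s) {d : Nd} (hd : d ∈ darts g s)
    (hc : isChild g s (al d) = true) : lwLet g s d = none := by
  have := lw_child_not_back h (al_mem h hd) hc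
  rw [al_al] at this
  simp [lwLet, this.1, this.2]

lemma lwLet_back {d : Nd} (hb : d ∈ backs g s) : lwLet g s d = some d := by
  simp [lwLet, hb]

lemma lwLet_back' (h : RotValid g s) {d : Nd} (hb : al d ∈ backs g s) :
    lwLet g s d = some (al d) := by
  have := lw_back_not_back h hb
  rw [al_al] at this
  simp [lwLet, this, hb]

lemma lwLet_some {d e : Nd} (hl : lwLet g s d = some e) :
    e ∈ backs g s ∧ (d = e ∨ d = al e) := by
  unfold lwLet at hl
  split_ifs at hl with h1 h2
  · simp only [Option.some.injEq] at hl
    subst hl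
    exact ⟨h1, Or.inl rfl⟩
  · simp only [Option.some.injEq] at hl
    subst hl
    exact ⟨h2, Or.inr rfl⟩

/-! ### Entries of the rotation lists -/

/-- entries of the rotation list of `v` without the parent -/
def lwEnt (g : Rot) (s v : ℕ) : List ℕ :=
  (sortD g s (seqTab g s) v).flatMap fun d =>
    if d ∈ backs g s then [d.2]
    else (incs g s true v d.2).reverse ++ [d.2] ++ (incs g s false v d.2).reverse

lemma rotV_eq (v : ℕ) : rotV g s v = (if v = s then [] else [par g s v]) ++ lwEnt g s v := rfl

lemma rotV_nodup (h : RotValid g s) {v : ℕ} (hv : v ∈ comp g s) : (rotV g s v).Nodup :=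
  (rotV_perm h hv).nodup_iff.2 (h.nodup v)

lemma lwEnt_nodup (h : RotValid g s) {v : ℕ} (hv : v ∈ comp g s) : (lwEnt g s v).Nodup := by
  have := rotV_nodup h hv
  rw [rotV_eq] at this
  exact (List.nodup_append.1 this).2.1

lemma mem_lwEnt (h : RotValid g s) {v : ℕ} (hv : v ∈ comp g s) {y : ℕ} :
    y ∈ lwEnt g s v ↔ (v, y) ∈ darts g s ∧ (v ≠ s → y ≠ par g s v) := by
  have h1 := rotV_nodup h hv
  have h2 : y ∈ rotV g s v ↔ y ∈ nbrs g v := (rotV_perm h hv).mem_iff
  have h3 : (v, y) ∈ darts g s ↔ y ∈ nbrs g v := by
    rw [mem_darts h]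
    exact ⟨fun hh => hh.2, fun hh => ⟨hv, hh⟩⟩
  rw [h3, ← h2, rotV_eq]
  rw [rotV_eq] at h1
  by_cases hvs : v = s
  · simp [hvs]
  · simp only [hvs, if_false, List.cons_append, List.nil_append, List.nodup_cons] at h1
    simp only [hvs, if_false, List.cons_append, List.nil_append, List.mem_cons, ne_eq,
      not_false_eq_true, forall_const]
    constructor
    · intro hy
      exact ⟨Or.inr hy, fun hh => h1.1 (hh ▸ hy)⟩
    · rintro ⟨hy | hy, hyp⟩
      · exact absurd hy hyp
      · exact hy

lemma lw_dart (h : RotValid g s) {y : ℕ} (hy : y ∈ comp g s) (hys : y ≠ s) :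
    (par g s y, y) ∈ darts g s := by
  rw [mem_darts h]
  exact ⟨par_mem_comp h hy, par_nbr h hy hys⟩

/-- a child is an entry -/
lemma child_mem_lwEnt (h : RotValid g s) {y v : ℕ} (hy : y ∈ comp g s) (hys : y ≠ s)
    (hyv : par g s y = v) : y ∈ lwEnt g s v := by
  have hv : v ∈ comp g s := by
    rw [← hyv]
    exact par_mem_comp h hy
  rw [mem_lwEnt h hv]
  refine ⟨?_, ?_⟩
  · rw [← hyv]
    exact lw_dart h hy hys
  · intro hvs hyp
    have h1 := lw_anc_child h hy hys hyv
    have h2 := lw_anc_child h hv hvs hyp.symm
    have h3 := isAnc_antisymm h hy h1 h2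
    exact lw_par_ne h hy hys (by rw [hyv, h3])

/-! ### The contour word -/

/-- the contour word, with fuel -/
def lwWord (g : Rot) (s : ℕ) : ℕ → ℕ → List Nd
  | 0, _ => []
  | n + 1, v => (lwEnt g s v).flatMap fun y =>
      if isChild g s (v, y) = true then (v, y) :: (lwWord g s n y ++ [(y, v)]) else [(v, y)]

/-- the block of an entry -/
def lwBlk (g : Rot) (s n v y : ℕ) : List Nd :=
  if isChild g s (v, y) = true then (v, y) :: (lwWord g s n y ++ [(y, v)]) else [(v, y)]

lemma lwWord_succ (n v : ℕ) :
    lwWord g s (n + 1) v = (lwEnt g s v).flatMap (lwBlk g s n v) := rfl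

def lwIdx (g : Rot) (s v : ℕ) : ℕ := ((dfs g s).map Prod.fst).idxOf v

lemma lwIdx_lt (h : RotValid g s) {y v : ℕ} (hy : y ∈ comp g s) (hys : y ≠ s)
    (hyv : par g s y = v) : lwIdx g s y < lwIdx g s v := by
  have := idxOf_par h hy hys
  rwa [hyv] at this

/-- strict descendants are below a child -/
lemma lw_exists_child (h : RotValid g s) {v u : ℕ} (hu : u ∈ comp g s)
    (ha : isAnc g s v u = true) (hne : u ≠ v) :
    ∃ y ∈ comp g s, y ≠ s ∧ par g s y = v ∧ isAnc g s y u = true := by
  obtain ⟨n, hn⟩ := (isAnc_iff h hu).1 ha
  induction n generalizing u with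
  | zero => exact absurd hn hne
  | succ n ih =>
    rw [Function.iterate_succ_apply] at hn
    by_cases hus : u = s
    · subst hus
      rw [par_s h] at hn
      have : ∀ m, (par g u)^[m] u = u := by
        intro m
        induction m with
        | zero => rfl
        | succ m ihm => rw [Function.iterate_succ_apply, par_s h, ihm]
      rw [this] at hn
      exact absurd hn hne
    · by_cases hp : par g s u = v
      · exact ⟨u, hu, hus, hp, isAnc_refl u⟩
      · have hpu := par_mem_comp h hu
        obtain ⟨y, hy, hys, hyv, hyu⟩ := ih hpu ((isAnc_iff h hpu).2 ⟨n, hn⟩) hp hn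
        exact ⟨y, hy, hys, hyv, isAnc_trans hyu (lw_anc_child h hu hus rfl)⟩

/-- different children have disjoint subtrees -/
lemma lw_child_unique (h : RotValid g s) {v y y' u : ℕ} (hu : u ∈ comp g s)
    (hy : y ∈ comp g s) (hys : y ≠ s) (hyv : par g s y = v)
    (hy' : y' ∈ comp g s) (hys' : y' ≠ s) (hyv' : par g s y' = v)
    (ha : isAnc g s y u = true) (ha' : isAnc g s y' u = true) : y = y' := by
  have key : ∀ a b : ℕ, a ∈ comp g s → a ≠ s → par g s a = v → b ∈ comp g s → b ≠ s →
      par g s b = v → isAnc g s a b = true → a = b := by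
    intro a b ha has hav hb hbs hbv hab
    rw [isAnc_par h hb hbs] at hab
    rcases hab with hab | hab
    · exact hab
    · rw [hbv] at hab
      have h1 := lw_anc_child h ha has hav
      have h2 := isAnc_antisymm h ha h1 hab
      exact absurd (by rw [hav, h2]) (lw_par_ne h ha has)
  rcases isAnc_total h hu ha ha' with h1 | h1
  · exact key y y' hy hys hyv hy' hys' hyv' h1
  · exact (key y' y hy' hys' hyv' hy hys hyv h1).symm

lemma lw_not_anc_parent (h : RotValid g s) {y v : ℕ} (hy : y ∈ comp g s) (hys : y ≠ s)
    (hyv : par g s y = v) : isAnc g s y v ≠ true := by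
  intro ha
  have h1 := lw_anc_child h hy hys hyv
  exact absurd (by rw [hyv]; exact isAnc_antisymm h hy h1 ha) (lw_par_ne h hy hys)

/-- members of the contour word -/
lemma mem_lwWord (h : RotValid g s) : ∀ n v : ℕ, v ∈ comp g s → lwIdx g s v < n →
    (∀ d, d ∈ lwWord g s n v ↔ d ∈ darts g s ∧ isAnc g s v d.1 = true ∧
      ¬ (v ≠ s ∧ d = (v, par g s v))) ∧ (lwWord g s n v).Nodup := by
  intro n
  induction n with
  | zero => intro v _ hn; exact absurd hn (Nat.not_lt_zero _)
  | succ n ih =>
    intro v hv hn
    -- data of children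
    have hch : ∀ y, isChild g s (v, y) = true → y ∈ lwEnt g s v →
        y ∈ comp g s ∧ y ≠ s ∧ par g s y = v ∧ lwIdx g s y < n := by
      intro y hc hy
      have hc' := lw_isChild.1 hc
      have hyc : y ∈ comp g s := snd_mem h ((mem_lwEnt h hv).1 hy).1
      have : lwIdx g s y < lwIdx g s v := lwIdx_lt h hyc hc'.2 hc'.1
      exact ⟨hyc, hc'.2, hc'.1, by omega⟩
    have hblk : ∀ y ∈ lwEnt g s v, ∀ d, d ∈ lwBlk g s n v y ↔
        d = (v, y) ∨ (isChild g s (v, y) = true ∧ d ∈ darts g s ∧ isAnc g s y d.1 = true) := by
      intro y hy d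
      unfold lwBlk
      by_cases hc : isChild g s (v, y) = true
      · obtain ⟨hyc, hys, hyv, hyn⟩ := hch y hc hy
        rw [if_pos hc]
        simp only [List.mem_cons, List.mem_append, (ih y hyc hyn).1 d, List.not_mem_nil,
          or_false, hc, true_and]
        constructor
        · rintro (h1 | ⟨h1, h2, h3⟩ | h1)
          · exact Or.inl h1
          · exact Or.inr ⟨h1, h2⟩
          · right
            rw [h1]
            refine ⟨?_, isAnc_refl y⟩
            have := al_mem h ((mem_lwEnt h hv).1 hy).1
            exact this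
        · rintro (h1 | ⟨h1, h2⟩)
          · exact Or.inl h1
          · right
            by_cases hd : d = (y, v)
            · exact Or.inr hd
            · left
              refine ⟨h1, h2, ?_⟩
              rintro ⟨_, h4⟩
              rw [hyv] at h4
              exact hd h4
      · rw [if_neg hc]
        simp [hc]
    constructor
    · intro d
      rw [lwWord_succ, List.mem_flatMap]
      constructor
      · rintro ⟨y, hy, hd⟩
        have hy' := (mem_lwEnt h hv).1 hy
        rw [hblk y hy] at hd
        rcases hd with hd | ⟨hc, hd, ha⟩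
        · subst hd
          refine ⟨hy'.1, isAnc_refl v, ?_⟩
          rintro ⟨hvs, h4⟩
          exact hy'.2 hvs (congrArg Prod.snd h4)
        · obtain ⟨hyc, hys, hyv, hyn⟩ := hch y hc hy
          refine ⟨hd, isAnc_trans (lw_anc_child h hyc hys hyv) ha, ?_⟩
          rintro ⟨hvs, h4⟩
          rw [h4] at ha
          exact lw_not_anc_parent h hyc hys hyv ha
      · rintro ⟨hd, ha, hnp⟩
        by_cases hdv : d.1 = v
        · have hd' : d = (v, d.2) := by
            rw [← hdv]
          have hmem : d.2 ∈ lwEnt g s v := by
            rw [mem_lwEnt h hv, ← hd']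
            refine ⟨hd, fun hvs hp => hnp ⟨hvs, ?_⟩⟩
            rw [hd', hp]
          exact ⟨d.2, hmem, (hblk _ hmem d).2 (Or.inl hd')⟩
        · obtain ⟨y, hyc, hys, hyv, hyu⟩ := lw_exists_child h (fst_mem h hd) ha hdv
          have hmem := child_mem_lwEnt h hyc hys hyv
          exact ⟨y, hmem, (hblk y hmem d).2 (Or.inr ⟨lw_isChild.2 ⟨hyv, hys⟩, hd, hyu⟩)⟩
    · rw [lwWord_succ, List.nodup_flatMap]
      constructor
      · intro y hy
        unfold lwBlk
        split_ifs with hc
        · obtain ⟨hyc, hys, hyv, hyn⟩ := hch y hc hy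
          have hW := ih y hyc hyn
          rw [List.nodup_cons]
          constructor
          · intro hmem
            rw [List.mem_append, hW.1] at hmem
            rcases hmem with hmem | hmem
            · exact lw_not_anc_parent h hyc hys hyv hmem.2.1
            · simp only [List.mem_singleton, Prod.mk.injEq] at hmem
              have hd := ((mem_lwEnt h hv).1 hy).1
              exact lw_ne h hd hmem.1
          · rw [List.nodup_append]
            refine ⟨hW.2, List.nodup_singleton _, ?_⟩
            intro a ha b hb hab
            rw [List.mem_singleton] at hb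
            rw [hab, hb, hW.1] at ha
            exact ha.2.2 ⟨hys, by rw [hyv]⟩
        · exact List.nodup_singleton _
      · refine (lwEnt_nodup h hv).imp_of_mem ?_
        intro y y' hy hy' hne d hd hd'
        rw [hblk y hy] at hd
        rw [hblk y' hy'] at hd'
        rcases hd with hd | ⟨hc, hd, ha⟩
        · rcases hd' with hd' | ⟨hc', hd', ha'⟩
          · rw [hd] at hd'
            exact hne (congrArg Prod.snd hd')
          · obtain ⟨hyc, hys, hyv, hyn⟩ := hch y' hc' hy'
            rw [hd] at ha'
            exact lw_not_anc_parent h hyc hys hyv ha'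
        · obtain ⟨hyc, hys, hyv, hyn⟩ := hch y hc hy
          rcases hd' with hd' | ⟨hc', hd', ha'⟩
          · rw [hd'] at ha
            exact lw_not_anc_parent h hyc hys hyv ha
          · obtain ⟨hyc', hys', hyv', hyn'⟩ := hch y' hc' hy'
            exact hne (lw_child_unique h (fst_mem h hd) hyc hys hyv hyc' hys' hyv' ha ha')

/-! ### Successors in the contour word -/

/-- the next dart in the contour word -/
def lwK (g : Rot) (s : ℕ) (d : Nd) : Nd :=
  if lwLet g s d = none then (d.2, nextIn (rotV g s d.2) d.1) else (d.1, nextIn (rotV g s d.1) d.2)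

lemma lw_chain_blocks {n v : ℕ} (x : ℕ) (hblk : ∀ y ∈ lwEnt g s v, ∀ rest : List Nd,
      (((v, nextIn (rotV g s v) y) :: rest : List Nd)).IsChain (fun a b => lwK g s a = b) →
      (lwBlk g s n v y ++ (v, nextIn (rotV g s v) y) :: rest).IsChain (fun a b => lwK g s a = b))
    (hhd : ∀ y, ∃ t, lwBlk g s n v y = (v, y) :: t) :
    ∀ ys : List ℕ, (∀ y ∈ ys, y ∈ lwEnt g s v) →
      (ys ++ [x]).IsChain (fun y y' => nextIn (rotV g s v) y = y') →
      (∀ y, (ys ++ [x]).head? = some y → ∃ rest, ys.flatMap (lwBlk g s n v) ++ [(v, x)] =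
        (v, y) :: rest) ∧
      (ys.flatMap (lwBlk g s n v) ++ [(v, x)]).IsChain (fun a b => lwK g s a = b) := by
  intro ys
  induction ys with
  | nil =>
    intro _ _
    refine ⟨?_, List.isChain_singleton _⟩
    intro y hy
    simp only [List.nil_append, List.head?_cons, Option.some.injEq] at hy
    exact ⟨[], by simp [hy]⟩
  | cons y ys ih =>
    intro hys hc
    rw [List.cons_append, List.isChain_cons] at hc
    obtain ⟨ih1, ih2⟩ := ih (fun z hz => hys z (List.mem_cons_of_mem _ hz)) hc.2
    refine ⟨?_, ?_⟩
    · intro y' hy'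
      simp only [List.cons_append, List.head?_cons, Option.some.injEq] at hy'
      subst hy'
      obtain ⟨t, ht⟩ := hhd y
      refine ⟨t ++ (ys.flatMap (lwBlk g s n v) ++ [(v, x)]), ?_⟩
      rw [List.flatMap_cons, ht]
      simp
    · obtain ⟨y1, hy1⟩ : ∃ y1, (ys ++ [x]).head? = some y1 := by
        cases ys with
        | nil => exact ⟨x, rfl⟩
        | cons z ys => exact ⟨z, rfl⟩
      obtain ⟨rest, hrest⟩ := ih1 y1 hy1
      have hn : nextIn (rotV g s v) y = y1 := hc.1 y1 hy1
      rw [List.flatMap_cons, List.append_assoc, hrest, ← hn]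
      apply hblk y (hys y (by simp)) rest
      rw [hn, ← hrest]
      exact ih2

lemma lw_rotV_chain (h : RotValid g s) {v : ℕ} (hv : v ∈ comp g s) (hvs : v ≠ s) :
    (par g s v :: (lwEnt g s v ++ [par g s v])).IsChain
      (fun y y' => nextIn (rotV g s v) y = y') := by
  have hL := rotV_nodup h hv
  have hrot : rotV g s v = par g s v :: lwEnt g s v := by
    rw [rotV_eq, if_neg hvs]
    rfl
  have := lw_chain_next hL (rotV g s v) [] rfl (par g s v) (by rw [hrot]; rfl)
  rw [hrot] at this ⊢
  exact this

lemma lwBlk_head (n v y : ℕ) : ∃ t, lwBlk g s n v y = (v, y) :: t := by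
  unfold lwBlk
  split_ifs
  · exact ⟨_, rfl⟩
  · exact ⟨[], rfl⟩

/-- `lwK` of a dart which is not a tree dart -/
lemma lwK_entry (h : RotValid g s) {v y : ℕ} (hv : v ∈ comp g s) (hy : y ∈ lwEnt g s v)
    (hc : ¬ isChild g s (v, y) = true) : lwK g s (v, y) = (v, nextIn (rotV g s v) y) := by
  have hy' := (mem_lwEnt h hv).1 hy
  unfold lwK
  have : lwLet g s (v, y) ≠ none := by
    rcases lw_cases h hy'.1 with h1 | h1 | h1 | h1
    · exact absurd h1 hc
    · exfalso
      have h2 := lw_isChild.1 h1
      exact hy'.2 h2.2 h2.1.symm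
    · rw [lwLet_back h1]
      simp
    · rw [lwLet_back' h h1]
      simp
  rw [if_neg this]

lemma lwBlk_chain (h : RotValid g s) {n v : ℕ} (hv : v ∈ comp g s)
    (ih : ∀ y, y ∈ comp g s → y ≠ s → par g s y = v →
      ((v, y) :: (lwWord g s n y ++ [(y, v)])).IsChain (fun a b => lwK g s a = b)) :
    ∀ y ∈ lwEnt g s v, ∀ rest : List Nd,
      (((v, nextIn (rotV g s v) y) :: rest : List Nd)).IsChain (fun a b => lwK g s a = b) →
      (lwBlk g s n v y ++ (v, nextIn (rotV g s v) y) :: rest).IsChain
        (fun a b => lwK g s a = b) := by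
  intro y hy rest hr
  have hy' := (mem_lwEnt h hv).1 hy
  unfold lwBlk
  split_ifs with hc
  · have hc' := lw_isChild.1 hc
    have hyc : y ∈ comp g s := snd_mem h hy'.1
    rw [List.isChain_append]
    refine ⟨ih y hyc hc'.2 hc'.1, hr, ?_⟩
    intro a ha b hb
    have ha' : a = (y, v) := by
      have : ((v, y) :: (lwWord g s n y ++ [(y, v)]) : List Nd).getLast? = some (y, v) := by
        rw [← List.cons_append, List.getLast?_append]
        simp
      rw [this] at ha
      simpa using ha.symm
    have hb' : b = (v, nextIn (rotV g s v) y) := by simpa using hb.symm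
    rw [ha', hb']
    unfold lwK
    have hl : lwLet g s (y, v) = none := lwLet_parent h (al_mem h hy'.1) hc
    rw [if_pos hl]
  · rw [List.cons_append, List.nil_append, List.isChain_cons]
    refine ⟨?_, hr⟩
    intro b hb
    have hb' : b = (v, nextIn (rotV g s v) y) := by simpa using hb.symm
    rw [hb', lwK_entry h hv hy hc]

/-- the contour of a subtree is a chain of successors -/
lemma lwWord_chain (h : RotValid g s) : ∀ n v : ℕ, v ∈ comp g s → lwIdx g s v < n → v ≠ s →
    ((par g s v, v) :: (lwWord g s n v ++ [(v, par g s v)])).IsChain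
      (fun a b => lwK g s a = b) := by
  intro n
  induction n with
  | zero => intro v _ hn; exact absurd hn (Nat.not_lt_zero _)
  | succ n ih =>
    intro v hv hn hvs
    have ih' : ∀ y, y ∈ comp g s → y ≠ s → par g s y = v →
        ((v, y) :: (lwWord g s n y ++ [(y, v)])).IsChain (fun a b => lwK g s a = b) := by
      intro y hy hys hyv
      have h1 := lwIdx_lt h hy hys hyv
      have h2 := ih y hy (by omega) hys
      rwa [hyv] at h2
    have hch := lw_rotV_chain h hv hvs
    rw [List.isChain_cons] at hch
    obtain ⟨h1, h2⟩ := lw_chain_blocks (par g s v) (lwBlk_chain h hv ih')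
      (fun y => lwBlk_head n v y) (lwEnt g s v) (fun y hy => hy) hch.2
    rw [List.isChain_cons, lwWord_succ]
    refine ⟨?_, h2⟩
    obtain ⟨y1, hy1⟩ : ∃ y1, (lwEnt g s v ++ [par g s v]).head? = some y1 := by
      cases lwEnt g s v with
      | nil => exact ⟨_, rfl⟩
      | cons z ys => exact ⟨z, rfl⟩
    obtain ⟨rest, hrest⟩ := h1 y1 hy1
    intro b hb
    rw [hrest] at hb
    have hb' : b = (v, y1) := by simpa using hb.symm
    rw [hb', ← hch.1 y1 hy1]
    unfold lwK
    have hd := lw_dart h hv hvs
    have hl : lwLet g s (par g s v, v) = none :=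
      lwLet_child h hd (lw_isChild.2 ⟨rfl, hvs⟩)
    rw [if_pos hl]

/-- the contour word of the root is a cycle of successors -/
lemma lwWord_root (h : RotValid g s) {n : ℕ} (hn : lwIdx g s s < n) {d0 : Nd}
    (hd0 : (lwWord g s n s).head? = some d0) :
    (lwWord g s n s ++ [d0]).IsChain (fun a b => lwK g s a = b) := by
  cases n with
  | zero => exact absurd hn (Nat.not_lt_zero _)
  | succ n =>
    have hs := s_mem_comp h
    have ih' : ∀ y, y ∈ comp g s → y ≠ s → par g s y = s →
        ((s, y) :: (lwWord g s n y ++ [(y, s)])).IsChain (fun a b => lwK g s a = b) := by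
      intro y hy hys hyv
      have h1 := lwIdx_lt h hy hys hyv
      have h2 := lwWord_chain h n y hy (by omega) hys
      rwa [hyv] at h2
    have hrot : rotV g s s = lwEnt g s s := by
      rw [rotV_eq]
      simp
    have hne : ∃ y0, (lwEnt g s s).head? = some y0 := by
      rw [lwWord_succ] at hd0
      cases hE : lwEnt g s s with
      | nil =>
        rw [hE] at hd0
        simp at hd0
      | cons y ys => exact ⟨y, rfl⟩
    obtain ⟨y0, hy0⟩ := hne
    have hch : (lwEnt g s s ++ [y0]).IsChain (fun y y' => nextIn (rotV g s s) y = y') := by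
      have := lw_chain_next (rotV_nodup h hs) (rotV g s s) [] rfl y0 (by rw [hrot, hy0])
      rw [hrot] at this ⊢
      exact this
    obtain ⟨h1, h2⟩ := lw_chain_blocks y0 (lwBlk_chain h hs ih')
      (fun y => lwBlk_head n s y) (lwEnt g s s) (fun y hy => hy) hch
    have hd0' : d0 = (s, y0) := by
      rw [lwWord_succ] at hd0
      cases hE : lwEnt g s s with
      | nil =>
        rw [hE] at hy0
        simp at hy0
      | cons y ys =>
        rw [hE] at hd0 hy0
        obtain ⟨t, ht⟩ := lwBlk_head (g := g) (s := s) n s y
        rw [List.flatMap_cons, ht] at hd0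
        simp only [List.cons_append, List.head?_cons, Option.some.injEq] at hd0 hy0
        rw [← hd0, hy0]
    rw [lwWord_succ, hd0']
    exact h2

/-! ### Reading the contour word -/

lemma lw_foldO_append {δ ι : Type} [DecidableEq ι] {f : δ → Option ι} (S : List ι) (u v : List δ) :
    (u ++ v).foldl (lwRdO f) S = v.foldl (lwRdO f) (u.foldl (lwRdO f) S) := List.foldl_append

/-- reading `incs` entries -/
lemma lw_read_incs (h : RotValid g s) {n v : ℕ} (l : List Nd)
    (hl : ∀ e ∈ l, e ∈ backs g s ∧ e.2 = v) (S : List Nd) :
    ((l.map Prod.fst).flatMap (lwBlk g s n v)).foldl (lwRdO (lwLet g s)) S = l.foldl lwRd S := by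
  induction l generalizing S with
  | nil => rfl
  | cons e l ih =>
    have he := hl e (by simp)
    have he' : al e = (v, e.1) := by
      rw [← he.2]
      rfl
    have hal : al (v, e.1) ∈ backs g s := by
      rw [← he', al_al]
      exact he.1
    have hb : lwBlk g s n v e.1 = [(v, e.1)] := by
      unfold lwBlk
      rw [if_neg]
      intro hc
      have hd : (v, e.1) ∈ darts g s := by
        rw [← he']
        exact al_mem h (lw_mem_backs.1 he.1).1
      exact (lw_child_not_back h hd hc).2 hal
    rw [List.map_cons, List.flatMap_cons, hb, lw_foldO_append]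
    have hr : [(v, e.1)].foldl (lwRdO (lwLet g s)) S = lwRd S e := by
      simp only [List.foldl_cons, List.foldl_nil]
      unfold lwRdO
      rw [lwLet_back' h hal]
      change lwRd S (al (v, e.1)) = lwRd S e
      rw [← he', al_al]
    rw [hr]
    exact ih (fun x hx => hl x (List.mem_cons_of_mem _ hx)) _

/-- entries of a direction -/
def lwDir (g : Rot) (s v : ℕ) (d : Nd) : List ℕ :=
  if d ∈ backs g s then [d.2]
  else (incs g s true v d.2).reverse ++ [d.2] ++ (incs g s false v d.2).reverse

lemma lwWord_succ' (n v : ℕ) :
    lwWord g s (n + 1) v = (sortD g s (seqTab g s) v).flatMap fun d =>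
      (lwDir g s v d).flatMap (lwBlk g s n v) := by
  rw [lwWord_succ]
  unfold lwEnt
  rw [List.flatMap_assoc]
  rfl

lemma mem_dirs {v : ℕ} {d : Nd} : d ∈ dirs g s v ↔
    d.1 = v ∧ d.2 ∈ nbrs g v ∧ (isChild g s d = true ∨ d ∈ backs g s) := by
  unfold dirs
  simp only [List.mem_filter, List.mem_map, Bool.or_eq_true, decide_eq_true_eq]
  constructor
  · rintro ⟨⟨w, hw, rfl⟩, h2⟩
    exact ⟨rfl, hw, h2⟩
  · rintro ⟨h1, h2, h3⟩
    refine ⟨⟨d.2, h2, ?_⟩, h3⟩
    rw [← h1]

lemma lwFold_mid {S : List Nd} (A B C : List Nd) (h : S.IsChain (· ≠ ·)) :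
    (C.reverse).foldl lwRd ((A ++ B ++ C).foldl lwRd ((A.reverse).foldl lwRd S)) =
      B.foldl lwRd S := by
  have h1 : (A ++ B ++ C).foldl lwRd ((A.reverse).foldl lwRd S) = C.foldl lwRd (B.foldl lwRd S) := by
    rw [List.foldl_append, List.foldl_append, ← List.foldl_append (l := A.reverse),
      lwFold_cancel' A h]
  rw [h1, ← List.foldl_append, lwFold_cancel C (lwFold_red B h)]

/-- reading the contour word of `v` is reading the sequence of `v` -/
lemma lw_read_word (h : RotValid g s) (c : Nd → Bool) (hc : ColOK g s c) :
    ∀ n v : ℕ, v ∈ comp g s → lwIdx g s v < n → ∀ S : List Nd, S.IsChain (· ≠ ·) →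
    (lwWord g s n v).foldl (lwRdO (lwLet g s)) S = (seqOf g s v).foldl lwRd S := by
  intro n
  induction n with
  | zero => intro v _ hn; exact absurd hn (Nat.not_lt_zero _)
  | succ n ih =>
    intro v hv hn S hS
    -- one direction
    have hdir : ∀ d ∈ dirs g s v, ∀ S : List Nd, S.IsChain (· ≠ ·) →
        ((lwDir g s v d).flatMap (lwBlk g s n v)).foldl (lwRdO (lwLet g s)) S =
          (dirSeq g s (seqTab g s) d).foldl lwRd S := by
      intro d hd S hS
      obtain ⟨hd1, hd2, hd3⟩ := mem_dirs.1 hd
      have hdd : d ∈ darts g s := by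
        rw [mem_darts h, hd1]
        exact ⟨hv, hd2⟩
      have hdv : d = (v, d.2) := by rw [← hd1]
      by_cases hb : d ∈ backs g s
      · have hnc : ¬ isChild g s (v, d.2) = true := by
          intro hcc
          rw [← hdv] at hcc
          exact (lw_child_not_back h hdd hcc).1 hb
        unfold lwDir dirSeq
        rw [if_pos hb, if_pos hb]
        simp only [List.flatMap_cons, List.flatMap_nil, List.append_nil, lwBlk]
        rw [if_neg hnc]
        simp only [List.foldl_cons, List.foldl_nil]
        rw [← hdv]
        unfold lwRdO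
        rw [lwLet_back hb]
      · have hcd : isChild g s d = true := by
          rcases hd3 with h3 | h3
          · exact h3
          · exact absurd h3 hb
        have hcd' := lw_isChild.1 hcd
        have hyc : d.2 ∈ comp g s := snd_mem h hdd
        have hyv : par g s d.2 = v := hcd'.1.trans hd1
        unfold lwDir dirSeq
        rw [if_neg hb, if_neg hb]
        set A := (seqOf g s d.2).filter fun e => decide (e.2 = v) && decide (col g s e = true)
          with hA
        set B := (seqOf g s d.2).filter fun e => decide (e.2 ≠ v) with hB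
        set C := (seqOf g s d.2).filter fun e => decide (e.2 = v) && decide (col g s e = false)
          with hC
        have hseq : seqOf g s d.2 = A ++ B ++ C := seqOf_child h c hc hyc hcd'.2 hyv
        have hiA : incs g s true v d.2 = A.map Prod.fst := rfl
        have hiC : incs g s false v d.2 = C.map Prod.fst := rfl
        have hmemA : ∀ e ∈ A, e ∈ backs g s ∧ e.2 = v := by
          intro e he
          rw [hA, List.mem_filter] at he
          simp only [Bool.and_eq_true, decide_eq_true_eq] at he
          exact ⟨((mem_seqOf h hyc).1 he.1).1, he.2.1⟩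
        have hmemC : ∀ e ∈ C, e ∈ backs g s ∧ e.2 = v := by
          intro e he
          rw [hC, List.mem_filter] at he
          simp only [Bool.and_eq_true, decide_eq_true_eq] at he
          exact ⟨((mem_seqOf h hyc).1 he.1).1, he.2.1⟩
        have hR : (((seqTab g s).lookup d.2).getD []).filter (fun e => decide (e.2 ≠ d.1)) = B := by
          rw [hB, hd1]
          rfl
        rw [hR, hiA, hiC, ← List.map_reverse, ← List.map_reverse, List.flatMap_append,
          List.flatMap_append, lw_foldO_append, lw_foldO_append,
          lw_read_incs h _ (fun e he => hmemA e (List.mem_reverse.1 he)),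
          lw_read_incs h _ (fun e he => hmemC e (List.mem_reverse.1 he))]
        have hmid : ([d.2].flatMap (lwBlk g s n v)).foldl (lwRdO (lwLet g s))
            (A.reverse.foldl lwRd S) = (A ++ B ++ C).foldl lwRd (A.reverse.foldl lwRd S) := by
          simp only [List.flatMap_cons, List.flatMap_nil, List.append_nil, lwBlk]
          rw [← hdv, if_pos hcd, List.foldl_cons, List.foldl_append, List.foldl_cons,
            List.foldl_nil]
          have hn1 : ∀ T : List Nd, lwRdO (lwLet g s) T d = T := by
            intro T
            unfold lwRdO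
            rw [lwLet_child h hdd hcd]
          have hn2 : ∀ T : List Nd, lwRdO (lwLet g s) T (d.2, v) = T := by
            intro T
            unfold lwRdO
            have : (d.2, v) = al d := by rw [← hd1]; rfl
            rw [this, lwLet_parent h (al_mem h hdd) hcd]
          have hlt : lwIdx g s d.2 < lwIdx g s v := lwIdx_lt h hyc hcd'.2 hyv
          rw [hn1, hn2, ih d.2 hyc (by omega) _ (lwFold_red _ hS), hseq]
        rw [hmid]
        exact lwFold_mid A B C hS
    -- all directions
    have hall : ∀ l : List Nd, (∀ d ∈ l, d ∈ dirs g s v) → ∀ S : List Nd, S.IsChain (· ≠ ·) →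
        (l.flatMap fun d => (lwDir g s v d).flatMap (lwBlk g s n v)).foldl (lwRdO (lwLet g s)) S =
          (l.flatMap (dirSeq g s (seqTab g s))).foldl lwRd S := by
      intro l
      induction l with
      | nil => intro _ S _; rfl
      | cons d l ihl =>
        intro hl S hS
        rw [List.flatMap_cons, List.flatMap_cons, lw_foldO_append, List.foldl_append,
          hdir d (hl d (by simp)) S hS]
        exact ihl (fun x hx => hl x (List.mem_cons_of_mem _ hx)) _ (lwFold_red _ hS)
    rw [lwWord_succ', seqOf_eq h hv]
    exact hall _ (fun d hd => (mem_sortD _).1 hd) S hS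

lemma seqOf_root (h : RotValid g s) : seqOf g s s = [] := by
  rw [List.eq_nil_iff_forall_not_mem]
  intro e he
  rw [mem_seqOf h (s_mem_comp h)] at he
  obtain ⟨h1, h2, h3, h4⟩ := he
  exact h4 (isAnc_antisymm h (s_mem_comp h) h3 (isAnc_s h (snd_mem h (lw_mem_backs.1 h1).1)))

/-- counting the darts: tree darts and back edges -/
theorem length_darts_eq (h : RotValid g s) :
    (darts g s).length + 2 = 2 * (backs g s).length + 2 * (comp g s).length := by
  have hs := s_mem_comp h
  set T : List Nd := ((comp g s).erase s).map fun y => (par g s y, y) with hT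
  have hmT : ∀ x : Nd, x ∈ T ↔ x ∈ darts g s ∧ isChild g s x = true := by
    intro x
    rw [hT, List.mem_map]
    constructor
    · rintro ⟨y, hy, rfl⟩
      rw [comp_nodup.mem_erase_iff] at hy
      exact ⟨lw_dart h hy.2 hy.1, lw_isChild.2 ⟨rfl, hy.1⟩⟩
    · rintro ⟨hx, hc⟩
      have hc' := lw_isChild.1 hc
      refine ⟨x.2, comp_nodup.mem_erase_iff.2 ⟨hc'.2, snd_mem h hx⟩, ?_⟩
      rw [hc'.1]
  have hTn : T.Nodup := by
    rw [hT]
    refine (comp_nodup.erase s).map ?_
    intro a b hab
    exact congrArg Prod.snd hab
  have hali : Function.Injective al := by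
    intro a b hab
    have := congrArg al hab
    rwa [al_al, al_al] at this
  have hBn : (backs g s).Nodup := (darts_nodup h).filter _
  have hmal : ∀ (l : List Nd) (x : Nd), x ∈ l.map al ↔ al x ∈ l := by
    intro l x
    rw [List.mem_map]
    constructor
    · rintro ⟨y, hy, rfl⟩
      exact hy
    · intro hx
      exact ⟨al x, hx, al_al x⟩
  have hperm : (darts g s).Perm ((backs g s ++ (backs g s).map al) ++ (T ++ T.map al)) := by
    rw [List.perm_ext_iff_of_nodup (darts_nodup h)]
    · intro x
      simp only [List.mem_append, hmal, hmT]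
      constructor
      · intro hx
        rcases lw_cases h hx with h1 | h1 | h1 | h1
        · exact Or.inr (Or.inl ⟨hx, h1⟩)
        · exact Or.inr (Or.inr ⟨al_mem h hx, h1⟩)
        · exact Or.inl (Or.inl h1)
        · exact Or.inl (Or.inr h1)
      · rintro ((h1 | h1) | (h1 | h1))
        · exact (lw_mem_backs.1 h1).1
        · have := al_mem h (lw_mem_backs.1 h1).1
          rwa [al_al] at this
        · exact h1.1
        · have := al_mem h h1.1
          rwa [al_al] at this
    · refine List.Nodup.append (List.Nodup.append hBn (hBn.map hali) ?_)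
        (List.Nodup.append hTn (hTn.map hali) ?_) ?_
      · intro x hx hx'
        rw [hmal] at hx'
        exact lw_back_not_back h hx hx'
      · intro x hx hx'
        rw [hmal] at hx'
        rw [hmT] at hx hx'
        have h1 := lw_isChild.1 hx.2
        have h2 := lw_isChild.1 hx'.2
        have h3 := lw_anc_child h (snd_mem h hx.1) h1.2 h1.1
        have h4 := lw_anc_child h (snd_mem h hx'.1) h2.2 h2.1
        exact lw_ne h hx.1 (isAnc_antisymm h (snd_mem h hx.1) h3 h4)
      · intro x hx hx'
        simp only [List.mem_append, hmal, hmT] at hx hx'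
        rcases hx' with hx' | hx'
        · have := lw_child_not_back h hx'.1 hx'.2
          rcases hx with hx | hx
          · exact this.1 hx
          · exact this.2 hx
        · have := lw_child_not_back h hx'.1 hx'.2
          rcases hx with hx | hx
          · exact this.2 hx
          · exact this.1 hx
  have hlen := hperm.length_eq
  simp only [List.length_append, List.length_map] at hlen
  have hTl : T.length = (comp g s).length - 1 := by
    rw [hT, List.length_map, List.length_erase_of_mem hs]
  have hpos : 0 < (comp g s).length := List.length_pos_of_mem hs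
  omega

lemma lw_takeWhile {W pre post : List Nd} {d : Nd} (hW : W.Nodup) (he : W = pre ++ d :: post) :
    W.takeWhile (fun x => decide (x ≠ d)) = pre := by
  have hd : d ∉ pre := by
    rw [he, List.nodup_append] at hW
    intro hh
    exact hW.2.2 d hh d (by simp) rfl
  rw [he, List.takeWhile_append_of_pos]
  · simp
  · intro a ha
    simp only [ne_eq, decide_eq_true_eq]
    rintro rfl
    exact hd ha

/-- a labelling of the darts which is constant on the faces -/
theorem exists_label (h : RotValid g s) (hne : darts g s ≠ []) (c : Nd → Bool)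
    (hc : ColOK g s c) :
    ∃ lab : Nd → Option Nd, (∀ d ∈ darts g s, lab (phi (embed g s) d) = lab d) ∧
      (∃ d ∈ darts g s, lab d = none) ∧ (∀ e ∈ backs g s, ∃ d ∈ darts g s, lab d = some e) := by
  have hs := s_mem_comp h
  obtain ⟨N, hN⟩ : ∃ N, lwIdx g s s < N := ⟨lwIdx g s s + 1, Nat.lt_succ_self _⟩
  set W := lwWord g s N s with hWdef
  obtain ⟨hmem0, hnd⟩ := mem_lwWord h N s hs hN
  have hmem : ∀ d, d ∈ W ↔ d ∈ darts g s := by
    intro d
    rw [hmem0]
    constructor
    · exact fun hh => hh.1
    · intro hd
      exact ⟨hd, isAnc_s h (fst_mem h hd), fun hh => hh.1 rfl⟩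
  obtain ⟨d0, hd0⟩ : ∃ d0, W.head? = some d0 := by
    cases hW : W with
    | nil =>
      exfalso
      cases hD : darts g s with
      | nil => exact hne hD
      | cons x l =>
        have := (hmem x).2 (by rw [hD]; simp)
        rw [hW] at this
        exact absurd this (List.not_mem_nil)
    | cons x l => exact ⟨x, rfl⟩
  have hchain := lwWord_root h hN hd0
  have hfin : W.foldl (lwRdO (lwLet g s)) [] = [] := by
    rw [hWdef, lw_read_word h c hc N s hs hN [] List.isChain_nil, seqOf_root h]
    rfl
  set st : Nd → List Nd := fun d =>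
    (W.takeWhile (fun x => decide (x ≠ d))).foldl (lwRdO (lwLet g s)) [] with hst
  have hstate : ∀ pre post d, W = pre ++ d :: post → st d = pre.foldl (lwRdO (lwLet g s)) [] := by
    intro pre post d he
    simp only [hst]
    rw [lw_takeWhile hnd he]
  -- successors
  have hsuc : ∀ d ∈ W, st (lwK g s d) = lwRdO (lwLet g s) (st d) d := by
    intro d hd
    obtain ⟨pre, post, he⟩ := List.append_of_mem hd
    rw [hstate pre post d he]
    cases post with
    | nil =>
      have hK : lwK g s d = d0 := by
        rw [← hWdef, he, List.append_assoc, List.cons_append, List.nil_append] at hchain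
        exact (List.isChain_cons_cons.1 (List.isChain_append.1 hchain).2.1).1
      rw [hK]
      obtain ⟨t, ht⟩ : ∃ t, W = [] ++ d0 :: t := by
        cases hW : W with
        | nil => rw [hW] at hd0; simp at hd0
        | cons x l =>
          rw [hW] at hd0
          simp only [List.head?_cons, Option.some.injEq] at hd0
          exact ⟨l, by rw [hd0]; rfl⟩
      rw [hstate [] t d0 ht, List.foldl_nil]
      have h5 := hfin
      rw [he, List.foldl_append] at h5
      exact h5.symm
    | cons d' post =>
      have hK : lwK g s d = d' := by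
        rw [← hWdef, he, List.append_assoc] at hchain
        exact (List.isChain_cons_cons.1 (List.isChain_append.1 hchain).2.1).1
      rw [hK, hstate (pre ++ [d]) post d' (by rw [he]; simp), List.foldl_append]
      rfl
  have hphi : ∀ d ∈ darts g s, phi (embed g s) d = (d.2, nextIn (rotV g s d.2) d.1) := by
    intro d hd
    unfold phi
    rw [nbrs_embed h (snd_mem h hd)]
  -- a back edge is read twice
  have hpair : ∀ e ∈ backs g s, ∀ d, (d = e ∨ d = al e) → d ∈ darts g s →
      (∃ u2 post pre, W = pre ++ d :: (u2 ++ al d :: post)) ∨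
      (∃ u2 post pre, W = pre ++ al d :: (u2 ++ d :: post)) := by
    intro e he d hde hd
    have h1 := (hmem d).2 hd
    have h2 := (hmem (al d)).2 (al_mem h hd)
    have hne' : al d ≠ d := by
      intro hh
      exact lw_ne h hd (congrArg Prod.snd hh)
    obtain ⟨pre, post, hW⟩ := List.append_of_mem h1
    rw [hW, List.mem_append, List.mem_cons] at h2
    rcases h2 with h2 | h2 | h2
    · obtain ⟨a, b, hab⟩ := List.append_of_mem h2
      right
      refine ⟨b, post, a, ?_⟩
      rw [hW, hab]
      simp
    · exact absurd h2 hne'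
    · obtain ⟨a, b, hab⟩ := List.append_of_mem h2
      left
      refine ⟨a, b, pre, ?_⟩
      rw [hW, hab]
  have hletter : ∀ e ∈ backs g s, ∀ d, (d = e ∨ d = al e) → lwLet g s d = some e := by
    intro e he d hde
    rcases hde with rfl | rfl
    · exact lwLet_back he
    · have : al (al e) ∈ backs g s := by rw [al_al]; exact he
      rw [lwLet_back' h this, al_al]
  have hnest : ∀ e ∈ backs g s, ∀ d, (d = e ∨ d = al e) → ∀ pre u2 post,
      W = pre ++ d :: (u2 ++ al d :: post) →
      st (al d) = e :: st d ∧ lwRd (st d) e = e :: st d := by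
    intro e he d hde pre u2 post hW
    have hl1 := hletter e he d hde
    have hl2 : lwLet g s (al d) = some e := by
      apply hletter e he
      rcases hde with rfl | rfl
      · exact Or.inr rfl
      · exact Or.inl rfl
    have hoth : ∀ x, lwLet g s x = some e → x = d ∨ x = al d := by
      intro x hx
      rcases (lwLet_some hx).2 with h1 | h1 <;> rcases hde with h2 | h2
      · left; rw [h1, h2]
      · right; rw [h1, h2, al_al]
      · right; rw [h1, h2]
      · left; rw [h1, h2]
    have hnd' := hnd
    rw [← hWdef, hW] at hnd'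
    have hn1 := List.nodup_append.1 hnd'
    have hn2 := List.nodup_cons.1 hn1.2.1
    have hn3 := List.nodup_append.1 hn2.2
    have hn4 := List.nodup_cons.1 hn3.2.1
    have h1 : ∀ x ∈ pre, lwLet g s x ≠ some e := by
      intro x hx hle
      rcases hoth x hle with rfl | rfl
      · exact hn1.2.2 _ hx _ (by simp) rfl
      · exact hn1.2.2 _ hx _ (by simp) rfl
    have h2 : ∀ x ∈ u2, lwLet g s x ≠ some e := by
      intro x hx hle
      rcases hoth x hle with rfl | rfl
      · exact hn2.1 (by simp [hx])
      · exact hn3.2.2 _ hx _ (by simp) rfl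
    have h3 : ∀ x ∈ post, lwLet g s x ≠ some e := by
      intro x hx hle
      rcases hoth x hle with rfl | rfl
      · exact hn2.1 (by simp [hx])
      · exact hn4.1 hx
    have hfin' := hfin
    rw [hW] at hfin'
    obtain ⟨r1, r2⟩ := lw_nest hl1 hl2 h1 h2 h3 hfin'
    rw [hstate pre _ d hW, hstate (pre ++ d :: u2) post (al d) (by rw [hW]; simp)]
    exact ⟨r1, r2⟩
  have hlr : ∀ e ∈ backs g s, ∀ d, (d = e ∨ d = al e) → (al d = e ∨ al d = al e) := by
    intro e _ d hde
    rcases hde with rfl | rfl
    · exact Or.inr rfl
    · exact Or.inl rfl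
  refine ⟨fun d => (st d).head?, ?_, ?_, ?_⟩
  · intro d hd
    change (st (phi (embed g s) d)).head? = (st d).head?
    rw [hphi d hd]
    cases hl : lwLet g s d with
    | none =>
      have hK : lwK g s d = (d.2, nextIn (rotV g s d.2) d.1) := by
        unfold lwK
        rw [if_pos hl]
      rw [← hK, hsuc d ((hmem d).2 hd)]
      unfold lwRdO
      rw [hl]
    | some e =>
      obtain ⟨he, hde⟩ := lwLet_some hl
      have hl' : lwLet g s (al d) = some e := hletter e he _ (hlr e he d hde)
      have hK : lwK g s (al d) = (d.2, nextIn (rotV g s d.2) d.1) := by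
        unfold lwK
        rw [if_neg (by rw [hl']; simp)]
        rfl
      rw [← hK, hsuc (al d) ((hmem _).2 (al_mem h hd))]
      have hR : lwRdO (lwLet g s) (st (al d)) (al d) = lwRd (st (al d)) e := by
        unfold lwRdO
        rw [hl']
      rw [hR]
      rcases hpair e he d hde hd with ⟨u2, post, pre, hW⟩ | ⟨u2, post, pre, hW⟩
      · obtain ⟨r1, r2⟩ := hnest e he d hde pre u2 post hW
        rw [r1, lwRd_cons, if_pos rfl]
      · obtain ⟨r1, r2⟩ := hnest e he (al d) (hlr e he d hde) pre u2 post
          (by rw [al_al]; exact hW)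
        rw [al_al] at r1
        rw [r2, r1]
  · refine ⟨d0, (hmem d0).1 (List.mem_of_mem_head? hd0), ?_⟩
    change (st d0).head? = none
    obtain ⟨t, ht⟩ : ∃ t, W = [] ++ d0 :: t := by
      cases hW : W with
      | nil => rw [hW] at hd0; simp at hd0
      | cons x l =>
        rw [hW] at hd0
        simp only [List.head?_cons, Option.some.injEq] at hd0
        exact ⟨l, by rw [hd0]; rfl⟩
    rw [hstate [] t d0 ht]
    rfl
  · intro e he
    have hd := (lw_mem_backs.1 he).1
    rcases hpair e he e (Or.inl rfl) hd with ⟨u2, post, pre, hW⟩ | ⟨u2, post, pre, hW⟩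
    · obtain ⟨r1, r2⟩ := hnest e he e (Or.inl rfl) pre u2 post hW
      exact ⟨al e, al_mem h hd, by change (st (al e)).head? = some e; rw [r1]; rfl⟩
    · obtain ⟨r1, r2⟩ := hnest e he (al e) (Or.inr rfl) pre u2 post (by rw [al_al]; exact hW)
      rw [al_al] at r1
      exact ⟨e, hd, by change (st e).head? = some e; rw [r1]; rfl⟩

theorem many_faces (h : RotValid g s) (hne : darts g s ≠ []) (c : Nd → Bool)
    (hc : ColOK g s c) :
    (darts (embed g s) s).length + 4 ≤
      2 * ((comp (embed g s) s).length + (faces (embed g s) s).length) := by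
  obtain ⟨lab, h1, h2, h3⟩ := exists_label h hne c hc
  have hv := embed_valid h
  have hperm := darts_embed_perm h
  have hmem : ∀ d, d ∈ darts (embed g s) s ↔ d ∈ darts g s := fun d => hperm.mem_iff
  -- the label of the representative
  have hiter : ∀ n : ℕ, ∀ d ∈ darts (embed g s) s, lab ((phi (embed g s))^[n] d) = lab d := by
    intro n
    induction n with
    | zero => intro d _; rfl
    | succ n ih =>
      intro d hd
      rw [Function.iterate_succ_apply, ih _ (phi_mem hv hd), h1 d ((hmem d).1 hd)]
  have hface : ∀ d ∈ darts (embed g s) s, lab (faceOf (embed g s) s d) = lab d := by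
    intro d hd
    obtain ⟨n, hn⟩ := faceOf_orbit hv (faceOf_mem hv hd) hd (faceOf_faceOf hv hd)
    have := hiter n _ (faceOf_mem hv hd)
    rw [hn] at this
    exact this.symm
  -- counting labels
  have hsub : (none :: (backs g s).map some) ⊆ (faces (embed g s) s).map lab := by
    intro x hx
    have : ∃ d ∈ darts g s, lab d = x := by
      rw [List.mem_cons, List.mem_map] at hx
      rcases hx with rfl | ⟨e, he, rfl⟩
      · exact h2
      · exact h3 e he
    obtain ⟨d, hd, hdx⟩ := this
    rw [List.mem_map]
    have hd' := (hmem d).2 hd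
    exact ⟨faceOf (embed g s) s d, (mem_faces hv).2 ⟨d, hd', rfl⟩, by rw [hface d hd', hdx]⟩
  have hnd : (none :: (backs g s).map some : List (Option Nd)).Nodup := by
    rw [List.nodup_cons]
    refine ⟨by simp, ?_⟩
    exact ((darts_nodup h).filter _).map (Option.some_injective _)
  have hlen := (List.Nodup.subperm hnd hsub).length_le
  simp only [List.length_cons, List.length_map] at hlen
  have hl1 := hperm.length_eq
  have hl2 := length_darts_eq h
  have hl3 : (comp (embed g s) s).length = (comp g s).length := by rw [comp_embed h]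
  omega

end Pool.Agent.PFire
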