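import Pool.Agent.Lib.PolyTime.Final
import Pool.Agent.Lib.PolyTime.Lists

/-!
# Chunk MA: machines with exponential padding

`iterLoop_run` (in `PolyTime/Base.lean`) iterates the doubling of the padding; the rest are polynomial time
programs, composed with `Cmd.seq`.
-/

set_option autoImplicit false

namespace Pool.Agent.PFire

open Pool.Agent.PolyTime

/-! ### polynomial bounds in a positive quantity -/

private def PX {α : Type} (X : α → ℕ) (g : α → ℕ) : Prop := ∃ C e : ℕ, ∀ a, g a ≤ C * X a ^ e

private lemma PX.const {α : Type} (X : α → ℕ) (n : ℕ) : PX X fun _ => n :=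
  ⟨n, 0, fun a => by simp⟩

private lemma PX.self {α : Type} (X : α → ℕ) : PX X X := ⟨1, 1, fun a => by simp⟩

private lemma PX.mono {α : Type} {X g h : α → ℕ} (hgh : ∀ a, g a ≤ h a) (hh : PX X h) : PX X g := by
  obtain ⟨c, k, hc⟩ := hh
  exact ⟨c, k, fun a => (hgh a).trans (hc a)⟩

private lemma PX.add {α : Type} {X g h : α → ℕ} (hX : ∀ a, 1 ≤ X a) (hg : PX X g) (hh : PX X h) :
    PX X fun a => g a + h a := by
  obtain ⟨c, k, hc⟩ := hg
  obtain ⟨d, l, hd⟩ := hh
  refine ⟨c + d, max k l, fun a => ?_⟩
  have h1 := hX a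
  calc g a + h a ≤ c * X a ^ k + d * X a ^ l := add_le_add (hc a) (hd a)
    _ ≤ c * X a ^ max k l + d * X a ^ max k l := by
        gcongr
        · exact le_max_left _ _
        · exact le_max_right _ _
    _ = (c + d) * X a ^ max k l := by ring

private lemma PX.mul {α : Type} {X g h : α → ℕ} (hg : PX X g) (hh : PX X h) :
    PX X fun a => g a * h a := by
  obtain ⟨c, k, hc⟩ := hg
  obtain ⟨d, l, hd⟩ := hh
  refine ⟨c * d, k + l, fun a => ?_⟩
  calc g a * h a ≤ (c * X a ^ k) * (d * X a ^ l) := Nat.mul_le_mul (hc a) (hd a)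
    _ = (c * d) * X a ^ (k + l) := by ring

private lemma PX.pow {α : Type} {X g : α → ℕ} (hg : PX X g) (n : ℕ) : PX X fun a => g a ^ n := by
  induction n with
  | zero => simpa using PX.const X 1
  | succ n ih => simp only [pow_succ]; exact PX.mul ih hg

/-! ### lists of units -/

private lemma enc_units (l : List Unit) : enc l = FP.num l.length := by
  induction l with
  | nil => rfl
  | cons a l ih => rw [enc_cons, ih]; rfl

private lemma double_iter (n : ℕ) :
    (fun l : List Unit => l ++ l)^[n] [()] = List.replicate (2 ^ n) () := by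
  induction n with
  | zero => rfl
  | succ n ih =>
    rw [Function.iterate_succ_apply', ih, ← List.replicate_add, pow_succ, mul_two]

private lemma pt_double : PT fun l : List Unit => l ++ l := by
  fun_prop

private lemma size_pad (n : ℕ) : (enc (List.replicate n ())).size = 2 * n + 1 := by
  rw [enc_units, List.length_replicate, FP.size_num]

theorem pad_machine {α β : Type} [Enc α] [Enc β] (F : α × List Unit → β) (hF : PT F)
    (nl : α → List Unit) (hn : PT nl) :
    ∃ (c : Cmd) (C e : ℕ), ∀ a : α, ∃ t ≤ C * (2 ^ (nl a).length * sz a) ^ e,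
      Run c (st (code (enc a)) [] [] [])
        (st (code (enc (F (a, List.replicate (2 ^ (nl a).length) ())))) [] [] []) t := by
  obtain ⟨cn, Tn, ⟨Cn, kn, hTn⟩, hcn⟩ := hn
  obtain ⟨cF, TF, ⟨CF, kF, hTF⟩, hcF⟩ := hF
  obtain ⟨cd, Td, ⟨Cd, kd, hTd⟩, hcd⟩ := pt_double
  have hTn' : ∀ a, Tn a ≤ Cn * sz a ^ kn := hTn
  have hTF' : ∀ p, TF p ≤ CF * sz p ^ kF := hTF
  have hTd' : ∀ l : List Unit, Td l ≤ Cd * sz l ^ kd := hTd
  -- the time bound
  set X : α → ℕ := fun a => 2 ^ (nl a).length * sz a with hXdef
  have hX1 : ∀ a, 1 ≤ X a := fun a =>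
    Nat.succ_le_of_lt (Nat.mul_pos (Nat.pow_pos (by norm_num)) (one_le_sz a))
  have hpX : ∀ a, 2 ^ (nl a).length ≤ X a := fun a => Nat.le_mul_of_pos_right _ (one_le_sz a)
  have hsX : ∀ a, sz a ≤ X a := fun a => Nat.le_mul_of_pos_left _ (Nat.pow_pos (by norm_num))
  have hnX : ∀ a, (nl a).length ≤ X a := fun a => (Nat.lt_two_pow_self.le).trans (hpX a)
  let S : α → ℕ := fun a => 2 * 2 ^ (nl a).length + 1
  let τ : α → ℕ := fun a => Cd * S a ^ kd
  let T : α → ℕ := fun a => (14 * sz a + 4) + (Tn a + (4 + ((10 * 3 + 10 * (2 * (nl a).length + 1)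
    + 6) + (((nl a).length * (τ a + 20 * S a + 40 * (nl a).length + 40) + 1) + (1 +
    ((10 * S a + 10 * sz a + 6) + (1 + TF (a, List.replicate (2 ^ (nl a).length) ()))))))))
  have bp : PX X fun a => 2 ^ (nl a).length := (PX.self X).mono hpX
  have bs : PX X fun a => sz a := (PX.self X).mono hsX
  have bn : PX X fun a => (nl a).length := (PX.self X).mono hnX
  have bS : PX X S := PX.add hX1 (PX.mul (PX.const X 2) bp) (PX.const X 1)
  have bτ : PX X τ := PX.mul (PX.const X Cd) (PX.pow bS kd)
  have bTn : PX X Tn := (PX.mul (PX.const X Cn) (PX.pow bs kn)).mono hTn'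
  have bTF : PX X fun a => TF (a, List.replicate (2 ^ (nl a).length) ()) := by
    refine PX.mono (h := fun a => CF * (sz a + S a + 1) ^ kF) (fun a => ?_)
      (PX.mul (PX.const X CF) (PX.pow (PX.add hX1 (PX.add hX1 bs bS) (PX.const X 1)) kF))
    refine (hTF' _).trans (le_of_eq ?_)
    have e1 : sz (a, List.replicate (2 ^ (nl a).length) ()) = sz a + S a + 1 := by
      rw [sz_pair]
      show sz a + (enc (List.replicate (2 ^ (nl a).length) ())).size + 1 = _
      rw [size_pad]
    rw [e1]
  have bT : PX X T := by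
    refine PX.add hX1 (PX.add hX1 (PX.mul (PX.const X 14) bs) (PX.const X 4)) ?_
    refine PX.add hX1 bTn ?_
    refine PX.add hX1 (PX.const X 4) ?_
    refine PX.add hX1 (PX.add hX1 (PX.add hX1 (PX.const X _) (PX.mul (PX.const X 10)
      (PX.add hX1 (PX.mul (PX.const X 2) bn) (PX.const X 1)))) (PX.const X 6)) ?_
    refine PX.add hX1 (PX.add hX1 (PX.mul bn (PX.add hX1 (PX.add hX1 (PX.add hX1 bτ
      (PX.mul (PX.const X 20) bS)) (PX.mul (PX.const X 40) bn)) (PX.const X 40)))
      (PX.const X 1)) ?_
    refine PX.add hX1 (PX.const X 1) ?_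
    refine PX.add hX1 (PX.add hX1 (PX.add hX1 (PX.mul (PX.const X 10) bS)
      (PX.mul (PX.const X 10) bs)) (PX.const X 6)) ?_
    exact PX.add hX1 (PX.const X 1) bTF
  obtain ⟨C, e, hC⟩ := bT
  refine ⟨.seq dup (.seq cn (.seq (pushList (code (enc [()]))) (.seq swap (.seq (FP.iterLoop cd)
    (.seq (.pop .m) (.seq swap (.seq (.push .m true) cF))))))), C, e, fun a => ?_⟩
  have key : Ex (.seq dup (.seq cn (.seq (pushList (code (enc [()]))) (.seq swap
      (.seq (FP.iterLoop cd) (.seq (.pop .m) (.seq swap (.seq (.push .m true) cF))))))))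
      (st (code (enc a)) [] [] [])
      (st (code (enc (F (a, List.replicate (2 ^ (nl a).length) ())))) [] [] []) (T a) := by
    have h1 := dup_run (enc a) []
    rw [List.append_nil] at h1
    have h2 := hcn a (code (enc a))
    have h3 := pushList_run (code (enc [()])) (code (enc (nl a)) ++ code (enc a))
    have h4 := swap_run (enc [()]) (enc (nl a)) (code (enc a))
    have hsz : ∀ i ≤ (nl a).length,
        (enc ((fun l : List Unit => l ++ l)^[i] [()])).size ≤ S a := by
      intro i hi
      rw [double_iter, size_pad]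
      show 2 * 2 ^ i + 1 ≤ 2 * 2 ^ (nl a).length + 1
      have := Nat.pow_le_pow_right (n := 2) (by norm_num) hi
      omega
    have h5 := FP.iterLoop_run (cf := cd) (e := fun l : List Unit => enc l)
      (f := fun l : List Unit => l ++ l) (T := Td) hcd (nl a).length (S a) (τ a)
      (nl a).length le_rfl [()] (code (enc a)) hsz (fun i hi => by
        refine (hTd' _).trans ?_
        exact Nat.mul_le_mul le_rfl (Nat.pow_le_pow_left (hsz i hi) _))
    rw [double_iter, ← enc_units (nl a)] at h5
    have h6 : Ex (.pop .m) (st (false :: (code (enc (List.replicate (2 ^ (nl a).length) ())) ++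
        code (enc a))) [] [] []) (st (code (enc (List.replicate (2 ^ (nl a).length) ())) ++
        code (enc a)) [] [] []) 1 := Ex.pop_m
    have h7 := swap_run (enc (List.replicate (2 ^ (nl a).length) ())) (enc a) []
    rw [List.append_nil, List.append_nil] at h7
    have h8 : Ex (.push .m true) (st (code (enc a) ++
        code (enc (List.replicate (2 ^ (nl a).length) ()))) [] [] [])
        (st (code (enc (a, List.replicate (2 ^ (nl a).length) ()))) [] [] []) 1 := by
      rw [enc_pair, code_cons]
      exact Ex.push_m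
    have h9 := hcF (a, List.replicate (2 ^ (nl a).length) ()) []
    rw [List.append_nil, List.append_nil] at h9
    have hl3 : (code (enc [()])).length + 1 = 4 := rfl
    have e4 : (enc [()]).size = 3 := rfl
    have e5 : (enc (nl a)).size = 2 * (nl a).length + 1 := by
      rw [enc_units, FP.size_num]
    have e7 : (enc (List.replicate (2 ^ (nl a).length) ())).size = S a := size_pad _
    rw [hl3] at h3
    rw [e4, e5] at h4
    rw [e7] at h7
    have e6 : (enc a).size = sz a := rfl
    rw [e6] at h1 h7
    exact h1.seq (h2.seq (h3.seq (h4.seq (h5.seq (h6.seq (h7.seq (h8.seq h9)))))))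
  obtain ⟨t, ht, hr⟩ := key
  exact ⟨t, ht.trans (hC a), hr⟩

end Pool.Agent.PFire
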