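import Pool.Agent.Lib.PFire.Alg

/-!
# Chunk OS: from rooted bags to an elimination scheme (pure list combinatorics)

`ord`: the nodes of a rooted tree, parents before children.  `hpar`: if `z` is in the bag of `t` and `t` is
not the first node of `ord` with `z` in its bag, then `z` is in the bag of the parent of `t`.  The variables are
eliminated in the order of decreasing `topIdx`.

Key fact (running intersection): if `z, y` are both in the bag of `t` and
`topIdx y ≤ topIdx z` then `y` is in the bag of the top node of `z`: follow the parents from `t`; the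
index decreases, `z` stays in the bag until the top node of `z` is reached, and `y` stays in the bag until
the top node of `y`, which has a smaller (or equal) index.
-/

set_option autoImplicit false

namespace Pool.Agent.PFire

variable {vs : List ℕ} {ord : List Nd} {ib : ℕ → Nd → Bool}

private lemma OS_topIdx_lt {z : ℕ} (h : ∃ t ∈ ord, ib z t = true) : topIdx ord ib z < ord.length :=
  List.findIdx_lt_length_of_exists h

lemma mem_elimOrder (hne : ∀ z ∈ vs, ∃ t ∈ ord, ib z t = true) {z : ℕ} :
    z ∈ elimOrder vs ord ib ↔ z ∈ vs := by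
  unfold elimOrder
  simp only [List.mem_flatMap, List.mem_reverse, List.mem_range, List.mem_filter,
    decide_eq_true_eq]
  constructor
  · rintro ⟨j, _, h, _⟩
    exact h
  · intro h
    exact ⟨topIdx ord ib z, OS_topIdx_lt (hne z h), h, rfl⟩

private lemma OS_mem_vs {z : ℕ} (h : z ∈ elimOrder vs ord ib) : z ∈ vs := by
  unfold elimOrder at h
  simp only [List.mem_flatMap, List.mem_reverse, List.mem_range, List.mem_filter,
    decide_eq_true_eq] at h
  obtain ⟨j, _, h, _⟩ := h
  exact h

lemma elimOrder_nodup (hvs : vs.Nodup) : (elimOrder vs ord ib).Nodup := by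
  unfold elimOrder
  rw [List.nodup_flatMap]
  refine ⟨fun j _ => hvs.filter _, ?_⟩
  have h1 : (List.range ord.length).reverse.Nodup := List.nodup_reverse.2 List.nodup_range
  refine h1.imp ?_
  intro a b hab
  simp only [Function.onFun]
  intro z hz hz'
  simp only [List.mem_filter, decide_eq_true_eq] at hz hz'
  exact hab (hz.2.symm.trans hz'.2)

lemma map_z_mkItems (qadj : ℕ → ℕ → Bool) (dom : ℕ → List ℕ) (wt : ℕ → ℕ) :
    (mkItems vs ord ib qadj dom wt).map Item.z = elimOrder vs ord ib := by
  unfold mkItems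
  rw [List.map_map]
  conv_rhs => rw [← List.map_id (elimOrder vs ord ib)]
  rfl

private lemma OS_pairwise :
    (elimOrder vs ord ib).Pairwise (fun a b => topIdx ord ib b ≤ topIdx ord ib a) := by
  unfold elimOrder
  rw [List.pairwise_flatMap]
  constructor
  · intro j _
    refine List.pairwise_of_forall_mem_list ?_
    intro a ha b hb
    simp only [List.mem_filter, decide_eq_true_eq] at ha hb
    omega
  · have h1 : (List.range ord.length).reverse.Pairwise (fun a b => b < a) := by
      rw [List.pairwise_reverse]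
      exact List.pairwise_lt_range
    refine h1.imp ?_
    intro a b hab x hx y hy
    simp only [List.mem_filter, decide_eq_true_eq] at hx hy
    omega

private lemma OS_order {z y : ℕ} (hy : y ∈ elimOrder vs ord ib)
    (h : (elimOrder vs ord ib).idxOf z < (elimOrder vs ord ib).idxOf y) :
    topIdx ord ib y ≤ topIdx ord ib z := by
  have h2 := List.idxOf_lt_length_iff.2 hy
  have h3 : (elimOrder vs ord ib).idxOf z < (elimOrder vs ord ib).length := h.trans h2
  have h1 := List.pairwise_iff_getElem.1 (OS_pairwise (vs := vs) (ord := ord) (ib := ib))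
    _ _ h3 h2 h
  rw [List.getElem_idxOf h3, List.getElem_idxOf h2] at h1
  exact h1

private lemma OS_running (par : Nd → Nd)
    (hpar : ∀ z ∈ vs, ∀ t ∈ ord, ib z t = true → ord.idxOf t ≠ topIdx ord ib z →
      par t ∈ ord ∧ ib z (par t) = true ∧ ord.idxOf (par t) < ord.idxOf t)
    {z y : ℕ} (hz : z ∈ vs) (hy : y ∈ vs) (hle : topIdx ord ib y ≤ topIdx ord ib z) :
    ∀ n : ℕ, ∀ t ∈ ord, ord.idxOf t = n → ib z t = true → ib y t = true →
      ib y (ord.getD (topIdx ord ib z) (0, 0)) = true := by
  intro n
  induction n using Nat.strong_induction_on with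
  | _ n ih =>
    intro t ht hn hzt hyt
    have hlen := List.idxOf_lt_length_iff.2 ht
    by_cases hc : ord.idxOf t = topIdx ord ib z
    · rw [← hc, List.getD_eq_getElem _ _ hlen, List.getElem_idxOf hlen]
      exact hyt
    · have hmin : topIdx ord ib z ≤ ord.idxOf t := by
        by_contra hcon
        push Not at hcon
        have h1 := List.not_of_lt_findIdx (p := ib z) hcon
        rw [List.getElem_idxOf hlen] at h1
        rw [h1] at hzt
        exact absurd hzt (by simp)
      obtain ⟨h1, h2, h3⟩ := hpar z hz t ht hzt hc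
      obtain ⟨_, h5, _⟩ := hpar y hy t ht hyt (by omega)
      exact ih (ord.idxOf (par t)) (by omega) (par t) h1 rfl h2 h5

theorem schemeOK_mkItems (k w : ℕ) (par : Nd → Nd) (qadj : ℕ → ℕ → Bool) (dom : ℕ → List ℕ)
    (wt : ℕ → ℕ) (hvs : vs.Nodup) (hord : ord.Nodup)
    (hne : ∀ z ∈ vs, ∃ t ∈ ord, ib z t = true)
    (hsize : ∀ t ∈ ord, (vs.filter fun z => ib z t).length ≤ w)
    (hpar : ∀ z ∈ vs, ∀ t ∈ ord, ib z t = true → ord.idxOf t ≠ topIdx ord ib z →
      par t ∈ ord ∧ ib z (par t) = true ∧ ord.idxOf (par t) < ord.idxOf t)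
    (hcov : ∀ z ∈ vs, ∀ y ∈ vs, z ≠ y → qadj z y = true → ∃ t ∈ ord, ib z t = true ∧ ib y t = true)
    (hdom : ∀ z ∈ vs, ∀ c ∈ dom z, c ≤ 2 * k + 1) :
    SchemeOK k w (mkItems vs ord ib qadj dom wt) := by
  have hpos : ∀ z, posOf (mkItems vs ord ib qadj dom wt) z = (elimOrder vs ord ib).idxOf z := by
    intro z
    rw [posOf, map_z_mkItems]
  have hmem : ∀ it ∈ mkItems vs ord ib qadj dom wt, ∃ z ∈ elimOrder vs ord ib,
      it = (z, (vs.filter fun y => ib y (ord.getD (topIdx ord ib z) (0, 0)) &&
          decide ((elimOrder vs ord ib).idxOf z < (elimOrder vs ord ib).idxOf y)),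
      (vs.filter fun y => decide ((elimOrder vs ord ib).idxOf z < (elimOrder vs ord ib).idxOf y) &&
          qadj z y),
      dom z, wt z) := by
    intro it hit
    unfold mkItems at hit
    rw [List.mem_map] at hit
    obtain ⟨z, hz, rfl⟩ := hit
    exact ⟨z, hz, rfl⟩
  have htop : ∀ z ∈ vs, ord.getD (topIdx ord ib z) (0, 0) ∈ ord ∧
      ib z (ord.getD (topIdx ord ib z) (0, 0)) = true := by
    intro z hz
    have h1 := OS_topIdx_lt (hne z hz)
    rw [List.getD_eq_getElem _ _ h1]
    exact ⟨List.getElem_mem _, List.findIdx_getElem (w := h1)⟩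
  refine ⟨?_, ?_, ?_, ?_, ?_, ?_, ?_⟩
  · rw [map_z_mkItems]
    exact elimOrder_nodup hvs
  · intro it hit y hy
    obtain ⟨z, hz, rfl⟩ := hmem it hit
    simp only [Item.bag, List.mem_filter, Bool.and_eq_true, decide_eq_true_eq] at hy
    rw [map_z_mkItems, mem_elimOrder hne, hpos, hpos]
    exact ⟨hy.1, hy.2.2⟩
  · intro it hit y hy
    obtain ⟨z, hz, rfl⟩ := hmem it hit
    simp only [Item.nb, List.mem_filter, Bool.and_eq_true, decide_eq_true_eq] at hy
    simp only [Item.bag, List.mem_filter, Bool.and_eq_true, decide_eq_true_eq]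
    obtain ⟨hyv, hlt, hq⟩ := hy
    have hzv := OS_mem_vs hz
    have hye : y ∈ elimOrder vs ord ib := (mem_elimOrder hne).2 hyv
    refine ⟨hyv, ?_, hlt⟩
    have hzy : z ≠ y := by
      rintro rfl
      exact lt_irrefl _ hlt
    obtain ⟨t, ht, h1, h2⟩ := hcov z hzv y hyv hzy hq
    exact OS_running par hpar hzv hyv (OS_order hye hlt) _ t ht rfl h1 h2
  · intro it' hit' it hit hz' y hy hlt
    obtain ⟨z', hz1, rfl⟩ := hmem it' hit'
    obtain ⟨z, hz, rfl⟩ := hmem it hit
    rw [hpos, hpos] at hlt
    simp only [Item.bag, Item.z, List.mem_filter, Bool.and_eq_true, decide_eq_true_eq]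
      at hy hz' hlt ⊢
    obtain ⟨hyv, hy2, _⟩ := hy
    obtain ⟨hzv, hz2, _⟩ := hz'
    have hye : y ∈ elimOrder vs ord ib := (mem_elimOrder hne).2 hyv
    exact ⟨hyv, OS_running par hpar hzv hyv (OS_order hye hlt) _ _
      (htop z' (OS_mem_vs hz1)).1 rfl hz2 hy2, hlt⟩
  · intro it hit
    obtain ⟨z, hz, rfl⟩ := hmem it hit
    exact hvs.filter _
  · intro it hit
    obtain ⟨z, hz, rfl⟩ := hmem it hit
    refine le_trans ?_ (hsize _ (htop z (OS_mem_vs hz)).1)
    refine List.Sublist.length_le (List.monotone_filter_right vs ?_)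
    intro y hy
    simp only [Bool.and_eq_true] at hy
    exact hy.1
  · intro it hit c hc
    obtain ⟨z, hz, rfl⟩ := hmem it hit
    exact hdom z (OS_mem_vs hz) c hc

end Pool.Agent.PFire
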