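import Pool.Agent.Lib.PFire.SpecTree
import Pool.Agent.Lib.PFire.OrderScheme

/-!
# Chunk SI: the items of the algorithm form an elimination scheme

Apply `schemeOK_mkItems` with `par = cp`; `topo_main` gives `hpar`: the first triangle of `order` with `z` in
its bag has the smallest `cd`; `cover` gives `hne` and `hcov`; `card_bag` with `L = 2 k + 2` and `flB_dense`
gives `hsize`.
-/

set_option autoImplicit false

namespace Pool.Agent.PFire

open Pool.Agent.PolyTime

variable {rot : Rot} {s : ℕ}

lemma mem_order (h : RotValid rot s) (hne : darts rot s ≠ []) (k i : ℕ) {x : Nd} :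
    x ∈ order rot s k i ↔ x ∈ darts rot s := by
  unfold order
  rw [List.mem_flatMap]
  constructor
  · rintro ⟨j, _, hx⟩
    exact (List.mem_filter.1 hx).1
  · intro hx
    refine ⟨cd rot s k i x, ?_, List.mem_filter.2 ⟨hx, by simp⟩⟩
    rw [List.mem_range]
    have := dist_le (links rot s k i) (rootD rot s) x
    unfold cd
    omega

lemma order_nodup (h : RotValid rot s) (k i : ℕ) : (order rot s k i).Nodup := by
  unfold order
  rw [List.nodup_flatMap]
  refine ⟨fun j _ => (darts_nodup h).filter _, ?_⟩
  refine List.Pairwise.imp ?_ (List.nodup_range (n := (links rot s k i).length + 2))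
  intro a b hab
  rw [Function.onFun, List.disjoint_left]
  intro x hx hy
  have h1 := (List.mem_filter.1 hx).2
  have h2 := (List.mem_filter.1 hy).2
  rw [decide_eq_true_eq] at h1 h2
  exact hab (h1.symm.trans h2)

lemma si_order_pairwise (rot : Rot) (s k i : ℕ) :
    (order rot s k i).Pairwise fun a b => cd rot s k i a ≤ cd rot s k i b := by
  unfold order
  rw [List.pairwise_flatMap]
  constructor
  · intro j _
    rw [List.pairwise_filter]
    refine List.Pairwise.imp (R := fun _ _ => True) ?_ (List.pairwise_of_forall fun _ _ => trivial)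
    intro a b _ ha hb
    rw [decide_eq_true_eq] at ha hb
    rw [ha, hb]
  · refine List.Pairwise.imp ?_ (List.pairwise_lt_range (n := (links rot s k i).length + 2))
    intro a b hab x hx y hy
    have h1 := (List.mem_filter.1 hx).2
    have h2 := (List.mem_filter.1 hy).2
    rw [decide_eq_true_eq] at h1 h2
    omega

/-- The order is by increasing distance from the root. -/
lemma cd_lt_of_idxOf_lt (h : RotValid rot s) (hne : darts rot s ≠ []) (k i : ℕ) {x y : Nd}
    (hx : x ∈ darts rot s) (hy : y ∈ darts rot s) (hxy : cd rot s k i x < cd rot s k i y) :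
    (order rot s k i).idxOf x < (order rot s k i).idxOf y := by
  by_contra hcon
  push Not at hcon
  have hx' := (mem_order h hne k i).2 hx
  have hy' := (mem_order h hne k i).2 hy
  have hix := List.idxOf_lt_length_of_mem hx'
  have hiy := List.idxOf_lt_length_of_mem hy'
  rcases Nat.lt_or_ge ((order rot s k i).idxOf y) ((order rot s k i).idxOf x) with h1 | h1
  · have h2 := (List.pairwise_iff_getElem.1 (si_order_pairwise rot s k i)) _ _ hiy hix h1
    rw [List.getElem_idxOf, List.getElem_idxOf] at h2
    omega
  · have h2 : (order rot s k i).idxOf x = (order rot s k i).idxOf y := le_antisymm h1 hcon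
    have h3 : x = y := (List.idxOf_inj hx').1 h2
    rw [h3] at hxy
    exact lt_irrefl _ hxy

theorem items_ok (h : RotValid rot s) (hp : RotPlane rot s) (hne : darts rot s ≠ []) (k i : ℕ)
    (hi : i < k + 2) : SchemeOK k (3 * (2 * k + 3)) (items rot s k i) := by
  have hmv : ∀ z, z ∈ vars rot s k i ↔ z ∈ comp rot s ∧ rep rot s k i z = z := by
    intro z
    unfold vars
    rw [List.mem_filter, decide_eq_true_eq]
  have hcov' : ∀ t : DD rot s, inBag rot s k i (rep rot s k i t.1.1) t.1 = true ∧
      inBag rot s k i (rep rot s k i t.1.2) t.1 = true := by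
    intro t
    have h1 := cover (rawFrc h hne k i) t
    have h2 := (inBag_iff h hne k i _ t (by
      have := h1.1.1
      exact congrArg Subtype.val this)).2 h1.1
    have h3 := (inBag_iff h hne k i _ t (by
      have := h1.2.1
      exact congrArg Subtype.val this)).2 h1.2
    exact ⟨h2, h3⟩
  refine schemeOK_mkItems k _ (cp rot s k i) _ _ _ (comp_nodup.filter _) (order_nodup h k i)
    ?_ ?_ ?_ ?_ ?_
  · intro z hz
    obtain ⟨hz1, hz2⟩ := (hmv z).1 hz
    obtain ⟨d, hd, rfl⟩ := sm_exists_dart h hne hz1
    refine ⟨d, (mem_order h hne k i).2 hd, ?_⟩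
    have h1 := (hcov' ⟨d, hd⟩).1
    rw [hz2] at h1
    exact h1
  · intro t ht
    have ht' := (mem_order h hne k i).1 ht
    have h1 := card_bag (rawFrc h hne k i) (2 * k + 2) (fun y => flB_dense hi y) ⟨t, ht'⟩
    have h2 : (Subtype.val '' {z : VV rot s | (rawFrc h hne k i).Bag z ⟨t, ht'⟩}).ncard ≤
        3 * (2 * k + 2 + 1) := by
      rw [Set.ncard_image_of_injective _ Subtype.val_injective]
      exact h1
    have h3 : ((vars rot s k i).filter fun z => inBag rot s k i z t).Nodup :=
      (comp_nodup.filter _).filter _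
    rw [← List.toFinset_card_of_nodup h3, ← Set.ncard_coe_finset]
    refine (Set.ncard_le_ncard ?_ (Set.toFinite _)).trans h2
    intro z hz
    rw [Finset.mem_coe, List.mem_toFinset, List.mem_filter] at hz
    obtain ⟨hz1, hz2⟩ := (hmv z).1 hz.1
    exact ⟨⟨z, hz1⟩, (inBag_iff h hne k i ⟨z, hz1⟩ ⟨t, ht'⟩ hz2).1 hz.2, rfl⟩
  · intro z hz t ht hib htop
    obtain ⟨hz1, hz2⟩ := (hmv z).1 hz
    have ht' := (mem_order h hne k i).1 ht
    have hroot := rootD_mem hne
    -- the top triangle
    have htl : topIdx (order rot s k i) (inBag rot s k i) z < (order rot s k i).length :=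
      List.findIdx_lt_length_of_exists ⟨t, ht, hib⟩
    set j := topIdx (order rot s k i) (inBag rot s k i) z with hj
    have hm : inBag rot s k i z ((order rot s k i)[j]) = true := List.findIdx_getElem (w := htl)
    have hm' : (order rot s k i)[j] ∈ darts rot s :=
      (mem_order h hne k i).1 (List.getElem_mem htl)
    have hjm : (order rot s k i).idxOf ((order rot s k i)[j]) = j :=
      (order_nodup h k i).idxOf_getElem j htl
    have hmin : ∀ t' ∈ darts rot s, inBag rot s k i z t' = true →
        cd rot s k i ((order rot s k i)[j]) ≤ cd rot s k i t' := by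
      intro t' ht'' hib'
      by_contra hcon
      push Not at hcon
      have h1 := cd_lt_of_idxOf_lt h hne k i ht'' hm' hcon
      rw [hjm] at h1
      have h2 := List.not_of_lt_findIdx h1
      rw [List.getElem_idxOf, hib'] at h2
      exact absurd h2 (by simp)
    have htm : t ≠ (order rot s k i)[j] := by
      intro h1
      apply htop
      rw [h1, hjm]
    have htr : t ≠ rootD rot s := by
      intro h1
      apply htm
      have h2 := hmin t ht' hib
      have h3 : cd rot s k i t = 0 := by rw [h1]; exact cd_root k i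
      rw [h3] at h2
      have h4 : (order rot s k i)[j] = rootD rot s := eq_of_dist_eq_zero (Nat.le_zero.1 h2)
      rw [h4, h1]
    obtain ⟨hc1, hc2, hc3⟩ := cp_spec h hne k i ht' htr
    have hmain := topo_main (rawFrc h hne k i) (rawMap_euler h hne hp) ⟨rootD rot s, hroot⟩
      (fun x => cd rot s k i x.1) (fun x => toD hne (cp rot s k i x.1)) (cd_root k i)
      (fun x hx => Subtype.ext (eq_of_dist_eq_zero hx))
      (fun x hx => by
        have hx' : x.1 ≠ rootD rot s := fun h1 => hx (Subtype.ext h1)
        obtain ⟨h1, h2, h3⟩ := cp_spec h hne k i x.2 hx'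
        refine ⟨?_, ?_⟩
        · rw [← mem_links h hne k i, toD_val hne h1]
          exact h2
        · rw [toD_val hne h1]
          exact h3)
      ⟨z, hz1⟩ ⟨_, hm'⟩ ⟨t, ht'⟩ ((inBag_iff h hne k i ⟨z, hz1⟩ ⟨_, hm'⟩ hz2).1 hm)
      (fun t' hb => hmin t'.1 t'.2 ((inBag_iff h hne k i ⟨z, hz1⟩ t' hz2).2 hb))
      ((inBag_iff h hne k i ⟨z, hz1⟩ ⟨t, ht'⟩ hz2).1 hib)
      (fun h1 => htm (congrArg Subtype.val h1))
    have hmain' := (inBag_iff h hne k i ⟨z, hz1⟩ _ hz2).2 hmain
    rw [toD_val hne hc1] at hmain'
    refine ⟨(mem_order h hne k i).2 hc1, hmain', ?_⟩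
    exact cd_lt_of_idxOf_lt h hne k i hc1 ht' (by omega)
  · intro z hz y hy hzy hq
    unfold qadj at hq
    rw [List.any_eq_true] at hq
    obtain ⟨d, hd, hd'⟩ := hq
    rw [Bool.and_eq_true, decide_eq_true_eq, decide_eq_true_eq] at hd'
    refine ⟨d, (mem_order h hne k i).2 hd, ?_, ?_⟩
    · rw [← hd'.1]; exact (hcov' ⟨d, hd⟩).1
    · rw [← hd'.2]; exact (hcov' ⟨d, hd⟩).2
  · intro z _ c hc
    unfold domOf at hc
    split_ifs at hc with h1 h2
    · rw [List.mem_singleton] at hc
      omega
    · rw [List.mem_cons, List.mem_singleton] at hc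
      omega
    · rw [List.mem_range] at hc
      omega

end Pool.Agent.PFire
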