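import Pool.Agent.Lib.PFire.ModelVars
import Pool.Agent.Lib.PFire.OrderScheme
import Pool.Agent.Lib.PFire.SpecItems

/-!
# Chunk MO2: solutions of the constraint problem give good labellings

Put `a v = b (rep v)` for `v` in the component of `s`, and `a v = 0` otherwise.
-/

set_option autoImplicit false

namespace Pool.Agent.PFire

open Pool.Agent.PolyTime

variable {n : ℕ} {G : SimpleGraph (Fin n)} {s : Fin n} {rot : Rot}

lemma mg_lt (hR : Repr G s rot) {v : ℕ} (hv : v ∈ comp rot s.1) : v < n := by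
  unfold comp at hv
  have := (List.mem_filter.1 hv).1
  rw [List.mem_range, hR.len] at this
  exact this

lemma mg_ok_comm (k a b : ℕ) : ok k a b = ok k b a := by
  unfold ok
  exact Bool.and_comm _ _

lemma mg_ok_self (k c : ℕ) : ok k c c = true := by
  unfold ok half
  by_cases h1 : c ≤ k
  · rw [if_pos h1]; rfl
  · rw [if_neg h1, if_neg (by omega), if_neg h1, decide_eq_true (by omega : c ≤ c + 1)]; rfl

/-- values of a solution -/
lemma mg_dom (h : RotValid rot s.1) (hne : darts rot s.1 ≠ []) {k i : ℕ} {b : ℕ → ℕ}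
    (hb : Sol k (items rot s.1 k i) b) {z : ℕ} (hz : z ∈ comp rot s.1)
    (hzr : rep rot s.1 k i z = z) : b z ∈ domOf rot s.1 k i z := by
  obtain ⟨it, hit, rfl⟩ := mv_exists_item ((mv_mem_z h hne).2 ⟨hz, hzr⟩)
  rw [← (mv_item h hne hit).2.1]
  exact hb.dom it hit

lemma mg_le (h : RotValid rot s.1) (hne : darts rot s.1 ≠ []) {k i : ℕ} {b : ℕ → ℕ}
    (hb : Sol k (items rot s.1 k i) b) {z : ℕ} (hz : z ∈ comp rot s.1)
    (hzr : rep rot s.1 k i z = z) : b z ≤ 2 * k + 1 := by
  have h1 := mg_dom h hne hb hz hzr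
  unfold domOf at h1
  split_ifs at h1 with h2 h3
  · rw [List.mem_singleton] at h1; omega
  · simp only [List.mem_cons, List.not_mem_nil, or_false] at h1; omega
  · rw [List.mem_range] at h1; omega

/-- A variable which is used at some time is not forced. -/
lemma mg_unforced (h : RotValid rot s.1) (hne : darts rot s.1 ≠ []) {k i : ℕ} {b : ℕ → ℕ}
    (hb : Sol k (items rot s.1 k i) b) {v : ℕ} (hv : v ∈ comp rot s.1)
    (h1 : 1 ≤ b (rep rot s.1 k i v)) (h2 : b (rep rot s.1 k i v) ≤ k) :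
    rep rot s.1 k i v = v := by
  apply rep_unforced h hv
  intro hf
  rw [← mv_forced_rep h hne hv] at hf
  have h3 := mg_dom h hne hb (rep_mem h hv) (mv_rep_rep h hv)
  unfold domOf at h3
  split_ifs at h3 with h4
  · rw [h4] at hf
    exact mv_forced_s k i hf
  · simp only [List.mem_cons, List.not_mem_nil, or_false] at h3
    omega

lemma mg_ok (h : RotValid rot s.1) (hne : darts rot s.1 ≠ []) {k i : ℕ} {b : ℕ → ℕ}
    (hb : Sol k (items rot s.1 k i) b) {d : Nd} (hd : d ∈ darts rot s.1)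
    (hlt : ((items rot s.1 k i).map Item.z).idxOf (rep rot s.1 k i d.1) <
      ((items rot s.1 k i).map Item.z).idxOf (rep rot s.1 k i d.2)) :
    ok k (b (rep rot s.1 k i d.1)) (b (rep rot s.1 k i d.2)) = true := by
  have h1 := fst_mem h hd
  have h2 := snd_mem h hd
  obtain ⟨it, hit, hz⟩ := mv_exists_item
    ((mv_mem_z h hne).2 ⟨rep_mem (k := k) (i := i) h h1, mv_rep_rep h h1⟩)
  rw [← hz] at hlt ⊢
  refine hb.nb it hit _ (((mv_item h hne hit).2.2 _).2 ⟨⟨rep_mem h h2, mv_rep_rep h h2⟩, hlt, ?_⟩)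
  exact mv_qadj.2 ⟨d, hd, hz.symm, rfl⟩

lemma mg_ok_dart (h : RotValid rot s.1) (hne : darts rot s.1 ≠ []) {k i : ℕ} {b : ℕ → ℕ}
    (hb : Sol k (items rot s.1 k i) b) {d : Nd} (hd : d ∈ darts rot s.1) :
    ok k (b (rep rot s.1 k i d.1)) (b (rep rot s.1 k i d.2)) = true := by
  have h1 := fst_mem h hd
  have h2 := snd_mem h hd
  rcases lt_trichotomy (((items rot s.1 k i).map Item.z).idxOf (rep rot s.1 k i d.1))
    (((items rot s.1 k i).map Item.z).idxOf (rep rot s.1 k i d.2)) with h3 | h3 | h3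
  · exact mg_ok h hne hb hd h3
  · have h4 : rep rot s.1 k i d.1 = rep rot s.1 k i d.2 :=
      (List.idxOf_inj ((mv_mem_z h hne).2 ⟨rep_mem (k := k) (i := i) h h1, mv_rep_rep h h1⟩)).1 h3
    rw [h4]
    exact mg_ok_self k _
  · rw [mg_ok_comm]
    exact mg_ok h hne hb (al_mem h hd) h3

/-- Chunk MO2: from a solution of the constraint problem to a good labelling. -/
theorem good_of_sol (hR : Repr G s rot) (hne : darts rot s.1 ≠ []) (k i : ℕ) (hi : i < k + 2)
    (b : ℕ → ℕ) (hb : Sol k (items rot s.1 k i) b) :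
    ∃ a : Fin n → ℕ, Good G s k a ∧
      gain k (items rot s.1 k i) b + (n - (comp rot s.1).length) = {v | a v ≤ k}.ncard ∧
      ∀ (t : ℕ) (v : Fin n), 1 ≤ t → t ≤ k →
        (a v = t ↔ v.1 ∈ (items rot s.1 k i).map Item.z ∧ b v.1 = t) := by
  classical
  have h := hR.valid
  have hcompn : ∀ v ∈ comp rot s.1, v < n := fun v hv => mg_lt hR hv
  set a : Fin n → ℕ := fun v => if v.1 ∈ comp rot s.1 then b (rep rot s.1 k i v.1) else 0 with ha
  have ha1 : ∀ v : Fin n, v.1 ∈ comp rot s.1 → a v = b (rep rot s.1 k i v.1) := fun v hv => by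
    simp only [ha, if_pos hv]
  have ha0 : ∀ v : Fin n, v.1 ∉ comp rot s.1 → a v = 0 := fun v hv => by
    simp only [ha, if_neg hv]
  have hpos : ∀ v : Fin n, 1 ≤ a v → a v ≤ k →
      v.1 ∈ comp rot s.1 ∧ rep rot s.1 k i v.1 = v.1 ∧ a v = b v.1 := by
    intro v h1 h2
    have hv : v.1 ∈ comp rot s.1 := by
      by_contra hv
      rw [ha0 v hv] at h1
      omega
    rw [ha1 v hv] at h1 h2
    have h3 := mg_unforced h hne hb hv h1 h2
    exact ⟨hv, h3, by rw [ha1 v hv, h3]⟩
  refine ⟨a, ⟨?_, ?_, ?_, ?_⟩, ?_, ?_⟩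
  · rw [ha1 s (s_mem_comp h), mv_rep_s h]
    have h1 := mg_dom h hne hb (s_mem_comp h) (mv_rep_s h k i)
    unfold domOf at h1
    rw [if_pos rfl, List.mem_singleton] at h1
    exact h1
  · intro v
    by_cases hv : v.1 ∈ comp rot s.1
    · rw [ha1 v hv]
      exact mg_le h hne hb (rep_mem h hv) (mv_rep_rep h hv)
    · rw [ha0 v hv]
      exact Nat.zero_le _
  · intro u v huv
    by_cases hu : u.1 ∈ comp rot s.1
    · have hd : ((u.1, v.1) : Nd) ∈ darts rot s.1 :=
        (mem_darts h).2 ⟨hu, (hR.adj u hu v).2 huv⟩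
      rw [ha1 u hu, ha1 v (snd_mem h hd)]
      exact mg_ok_dart h hne hb hd
    · have hv : v.1 ∉ comp rot s.1 := by
        intro hv
        have hd : ((v.1, u.1) : Nd) ∈ darts rot s.1 :=
          (mem_darts h).2 ⟨hv, (hR.adj v hv u).2 huv.symm⟩
        exact hu (snd_mem h hd)
      rw [ha0 u hu, ha0 v hv]
      exact mg_ok_self k 0
  · intro u v h1 h2 h3
    obtain ⟨hu, hu1, hu2⟩ := hpos u h1 h2
    obtain ⟨hv, hv1, hv2⟩ := hpos v (h3 ▸ h1) (h3 ▸ h2)
    obtain ⟨it, hit, hz⟩ := mv_exists_item ((mv_mem_z h hne).2 ⟨hu, hu1⟩)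
    obtain ⟨it', hit', hz'⟩ := mv_exists_item ((mv_mem_z h hne).2 ⟨hv, hv1⟩)
    have := hb.times it hit it' hit' (by rw [hz, ← hu2]; exact h1) (by rw [hz, ← hu2]; exact h2)
      (by rw [hz, hz', ← hu2, ← hv2]; exact h3)
    rw [hz, hz'] at this
    exact Fin.ext this
  · rw [mv_gain h hne k i b]
    -- counting
    have hcn : (comp rot s.1).length = (comp rot s.1).toFinset.card :=
      (List.toFinset_card_of_nodup comp_nodup).symm
    have h1 : {v : Fin n | a v ≤ k}.ncard = (Finset.univ.filter fun v : Fin n => a v ≤ k).card := by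
      rw [← Set.ncard_coe_finset]
      congr 1
      ext v
      simp
    rw [h1, ← Finset.card_filter_add_card_filter_not (s := Finset.univ.filter fun v : Fin n => a v ≤ k)
      (p := fun v : Fin n => v.1 ∈ comp rot s.1), Finset.filter_filter, Finset.filter_filter]
    congr 1
    · rw [← List.toFinset_card_of_nodup (comp_nodup.filter _),
        ← Finset.card_map Fin.valEmbedding]
      congr 1
      ext v
      simp only [List.mem_toFinset, List.mem_filter, decide_eq_true_eq, Finset.mem_map,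
        Finset.mem_filter, Finset.mem_univ, true_and, Fin.valEmbedding_apply]
      constructor
      · rintro ⟨hv, h2⟩
        exact ⟨⟨v, hcompn v hv⟩, ⟨by rw [ha1 _ hv]; exact h2, hv⟩, rfl⟩
      · rintro ⟨w, ⟨h2, h3⟩, rfl⟩
        rw [ha1 w h3] at h2
        exact ⟨h3, h2⟩
    · have h2 : (Finset.univ.filter fun v : Fin n => a v ≤ k ∧ ¬ v.1 ∈ comp rot s.1) =
          Finset.univ.filter fun v : Fin n => ¬ v.1 ∈ comp rot s.1 := by
        ext v
        simp only [Finset.mem_filter, Finset.mem_univ, true_and, and_iff_right_iff_imp]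
        intro hv
        rw [ha0 v hv]
        exact Nat.zero_le _
      have h3 : (Finset.univ.filter fun v : Fin n => v.1 ∈ comp rot s.1).card =
          (comp rot s.1).length := by
        refine (Finset.card_map Fin.valEmbedding).symm.trans
          ((congrArg Finset.card (Finset.ext fun v => ?_)).trans hcn.symm)
        simp only [List.mem_toFinset, Finset.mem_map,
          Finset.mem_filter, Finset.mem_univ, true_and, Fin.valEmbedding_apply]
        constructor
        · rintro ⟨w, h3, rfl⟩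
          exact h3
        · intro hv
          exact ⟨⟨v, hcompn v hv⟩, hv, rfl⟩
      have h4 := Finset.card_filter_add_card_filter_not (s := (Finset.univ : Finset (Fin n)))
        (fun v : Fin n => v.1 ∈ comp rot s.1)
      rw [Finset.card_univ, Fintype.card_fin, h3] at h4
      rw [h2]
      omega
  · intro t v h1 h2
    rw [mv_mem_z h hne]
    constructor
    · intro h3
      obtain ⟨hv, hv1, hv2⟩ := hpos v (by omega) (by omega)
      exact ⟨⟨hv, hv1⟩, by omega⟩
    · rintro ⟨⟨hv, hv1⟩, h3⟩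
      rw [ha1 v hv, hv1, h3]

end Pool.Agent.PFire
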