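import Pool.Agent.Lib.PFire.SolverAux

/-!
# Chunk SC: completeness of the solver

Invariants after the items `l1` have been processed (`items = l1 ++ l2`), with the list of tables `tabs`:

(structure) every table has the scope `it'.bag` of an item `it'` of `l1`, contained in the variables of
`l2`; so when the variable `z` of the next item `it` is eliminated, every table with `z` in its scope
has its scope in `z :: it.bag` (`chord`).

(complete) for the given solution `a` there is a choice of one row from each table which agrees with `a` on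
the scope, with pairwise disjoint witnesses which together use exactly the times used by `a` on `l1`,
and the sum of the row weights is at least the gain of `a` on `l1` (the truncation by `N` does no harm: the
gain of `a` on any set of items is at most `N`).

Size: the rows of a table have different keys; a key is a list of `|it.bag| ≤ w` values `< 2 k + 2` and
`k + 1` Booleans, so nothing is cut off if `(2 k + 2) ^ w * 2 ^ (k + 1) ≤ cap`.
-/

set_option autoImplicit false

namespace Pool.Agent.PFire

theorem sc_key {r q : Row} (h : rkey q = rkey r) : q.1 = r.1 ∧ ∀ t, (q.2.2.getD t 0 = 0 ↔ r.2.2.getD t 0 = 0) := by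
  unfold rkey at h
  rw [Prod.mk.injEq] at h
  refine ⟨h.1, fun t => ?_⟩
  have h1 : (q.2.2.map fun x => decide (x ≠ 0)).getD t false = (r.2.2.map fun x => decide (x ≠ 0)).getD t false := by
    rw [h.2]
  have h2 : ∀ l : List ℕ, (l.map fun x => decide (x ≠ 0)).getD t false = decide (l.getD t 0 ≠ 0) := by
    intro l
    rw [List.getD_eq_getElem?_getD, List.getD_eq_getElem?_getD, List.getElem?_map]
    cases l[t]? <;> simp
  rw [h2, h2, decide_eq_decide] at h1
  exact not_iff_not.mp h1

/-- the rows of a join which survive -/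
theorem sc_reduce {k w cap m : ℕ} {l : List Row} (hcap : (2 * k + 2) ^ w * 2 ^ (k + 1) ≤ cap) (hm : m ≤ w)
    (hl : ∀ r ∈ l, r.1.length = m ∧ (∀ c ∈ r.1, c ≤ 2 * k + 1) ∧ r.2.2.length = k + 1) {r : Row} (hr : r ∈ l) :
    ∃ q ∈ reduceRows cap l, rkey q = rkey r ∧ r.2.1 ≤ q.2.1 := by
  apply exists_mem_reduceRows _ hr
  refine (card_keys_le hl).trans (le_trans ?_ hcap)
  exact Nat.mul_le_mul_right _ (Nat.pow_le_pow_right (by omega) hm)

/-- The completeness of an iterated join. -/
theorem sc_foldJoin {k w N cap : ℕ} (hcap : (2 * k + 2) ^ w * 2 ^ (k + 1) ≤ cap) {vs cs : List ℕ} {f : List ℕ}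
    (hf : f.length ≤ w) (hf2 : ∀ c ∈ f, c ≤ 2 * k + 1) (Ts : List Tab)
    (hT : ∀ T ∈ Ts, ∀ r ∈ T.2, WfR k r) (qs : List Row)
    (hq : List.Forall₂ (fun (T : Tab) (q : Row) => q ∈ T.2 ∧ q.1 = T.1.map (asgVal vs cs)) Ts qs) :
    ∀ acc : List Row, (∀ p ∈ acc, p.1 = f ∧ WfR k p) → ∀ p ∈ acc,
      (p :: qs).Pairwise (fun u v => DisjW u.2.2 v.2.2) →
    ∃ r ∈ Ts.foldl (joinTab N cap vs cs) acc, r.1 = f ∧
      min N (p.2.1 + (qs.map fun q => q.2.1).sum) ≤ r.2.1 ∧
      ∀ t, r.2.2.getD t 0 ≠ 0 → ∃ u ∈ p :: qs, u.2.2.getD t 0 ≠ 0 := by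
  induction hq with
  | nil =>
    intro acc hacc p hp _
    exact ⟨p, hp, (hacc p hp).1, by simp, fun t ht => ⟨p, by simp, ht⟩⟩
  | @cons T q Ts qs hTq _ ih =>
    intro acc hacc p hp hpw
    rw [List.foldl_cons]
    have wp := (hacc p hp).2
    have wq := hT T List.mem_cons_self q hTq.1
    have hlen : p.2.2.length = q.2.2.length := wp.1.trans wq.1.symm
    rw [List.pairwise_cons, List.pairwise_cons] at hpw
    have hpq : DisjW p.2.2 q.2.2 := hpw.1 q List.mem_cons_self
    have hmax : ∀ t, (mergeW p.2.2 q.2.2).getD t 0 = max (p.2.2.getD t 0) (q.2.2.getD t 0) :=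
      fun t => getD_mergeW hlen t
    set p1 : Row := (p.1, (min N (p.2.1 + q.2.1), mergeW p.2.2 q.2.2)) with hp1
    set L : List Row := acc.flatMap fun p =>
      (T.2.filter fun r => decide (r.1 = T.1.map fun v => asgVal vs cs v) && disj p.2.2 r.2.2).map
        fun r => (p.1, (min N (p.2.1 + r.2.1), mergeW p.2.2 r.2.2)) with hL
    have hLmem : ∀ r ∈ L, r.1 = f ∧ r.2.2.length = k + 1 := by
      intro r hr
      rw [hL, List.mem_flatMap] at hr
      obtain ⟨p', hp', hr⟩ := hr
      rw [List.mem_map] at hr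
      obtain ⟨q', hq', rfl⟩ := hr
      have h1 := hacc p' hp'
      have h2 := hT T List.mem_cons_self q' (List.mem_filter.mp hq').1
      refine ⟨h1.1, ?_⟩
      show (mergeW p'.2.2 q'.2.2).length = k + 1
      rw [length_mergeW, h1.2.1, h2.1, min_self]
    have hp1L : p1 ∈ L := by
      rw [hL, List.mem_flatMap]
      refine ⟨p, hp, ?_⟩
      rw [List.mem_map]
      refine ⟨q, ?_, rfl⟩
      rw [List.mem_filter, Bool.and_eq_true, decide_eq_true_eq, disj_iff hlen]
      exact ⟨hTq.1, hTq.2, hpq⟩
    obtain ⟨p2, hp2, hkey, hwt⟩ := sc_reduce (m := f.length) hcap hf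
      (fun r hr => ⟨by rw [(hLmem r hr).1], by rw [(hLmem r hr).1]; exact hf2, (hLmem r hr).2⟩) hp1L
    obtain ⟨hk1, hk2⟩ := sc_key hkey
    have hp2' : p2 ∈ joinTab N cap vs cs acc T := hp2
    have hacc' : ∀ p ∈ joinTab N cap vs cs acc T, p.1 = f ∧ WfR k p := by
      intro p1 hp1
      have := foldJoin_wf (k := k) (N := N) (cap := cap) (vs := vs) (cs := cs) (P := fun g => g = f) [T]
        (fun T' hT' r' hr' => by
          rw [List.mem_singleton] at hT'
          subst hT'
          exact hT _ List.mem_cons_self r' hr') acc hacc p1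
        (by rw [List.foldl_cons, List.foldl_nil]; exact hp1)
      exact this
    have hpw' : (p2 :: qs).Pairwise (fun u v : Row => DisjW u.2.2 v.2.2) := by
      rw [List.pairwise_cons]
      refine ⟨fun u hu t => ?_, hpw.2.2⟩
      rw [hk2 t]
      simp only [hp1, hmax]
      rcases hpw.1 u (List.mem_cons_of_mem _ hu) t with h1 | h1
      · rcases hpw.2.1 u hu t with h2 | h2
        · left; omega
        · right; exact h2
      · right; exact h1
    obtain ⟨r, hr, r1, r2, r3⟩ := ih (fun T' h => hT T' (List.mem_cons_of_mem _ h)) _ hacc' p2 hp2' hpw'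
    refine ⟨r, hr, r1, ?_, ?_⟩
    · rw [List.map_cons, List.sum_cons]
      have h3 : min N (p.2.1 + q.2.1) ≤ p2.2.1 := hwt
      omega
    · intro t ht
      obtain ⟨u, hu, hut⟩ := r3 t ht
      rw [List.mem_cons] at hu
      rcases hu with rfl | hu
      · rw [Ne, hk2 t] at hut
        simp only [hp1, hmax] at hut
        by_cases h1 : p.2.2.getD t 0 = 0
        · exact ⟨q, by simp, by omega⟩
        · exact ⟨p, by simp, h1⟩
      · exact ⟨u, by simp [hu], hut⟩

theorem sc_split {α β : Type} {R : α → β → Prop} {l1 l2 : List α} :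
    ∀ {v : List β}, List.Forall₂ R (l1 ++ l2) v →
      ∃ v1 v2, List.Forall₂ R l1 v1 ∧ List.Forall₂ R l2 v2 ∧ v = v1 ++ v2 := by
  induction l1 with
  | nil => intro v h; exact ⟨[], v, List.Forall₂.nil, h, rfl⟩
  | cons x l1 ih =>
    intro v h
    rw [List.cons_append] at h
    cases h with
    | @cons _ y _ v' hxy h =>
    obtain ⟨v1, v2, h1, h2, rfl⟩ := ih h
    exact ⟨y :: v1, v2, List.Forall₂.cons hxy h1, h2, rfl⟩

/-- The completeness invariant. -/
def SCInv (k : ℕ) (a : ℕ → ℕ) (l1 : List Item) (tabs : List Tab) : Prop :=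
  ∃ rs : List Row, List.Forall₂ (Agr a) tabs rs ∧
    rs.Pairwise (fun u v => DisjW u.2.2 v.2.2) ∧
    (∀ t, (∃ r ∈ rs, r.2.2.getD t 0 ≠ 0) → 1 ≤ t ∧ t ≤ k ∧ ∃ it ∈ l1, a it.z = t) ∧
    gain k l1 a ≤ (rs.map fun r => r.2.1).sum

theorem gain_le (k : ℕ) (l : List Item) (a : ℕ → ℕ) : gain k l a ≤ (l.map Item.w).sum := by
  unfold gain
  induction l with
  | nil => simp
  | cons it l ih =>
    simp only [List.map_cons, List.sum_cons]
    split_ifs <;> omega

theorem sc_inv {k w N cap : ℕ} {items : List Item} (hs : SchemeOK k w items)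
    (hcap : (2 * k + 2) ^ w * 2 ^ (k + 1) ≤ cap) (hN : (items.map Item.w).sum ≤ N)
    (a : ℕ → ℕ) (ha : Sol k items a) (l1 : List Item) :
    ∀ l2, items = l1 ++ l2 → SCInv k a l1 (tabsOf k N cap l1) := by
  induction l1 using List.reverseRecOn with
  | nil =>
    intro l2 _
    exact ⟨[], List.Forall₂.nil, List.Pairwise.nil, by simp, by simp [gain]⟩
  | append_singleton l1 it ih =>
    intro l2 h
    have h' : items = l1 ++ it :: l2 := by rw [h]; simp
    obtain ⟨ws, i1, i2, i3, i4⟩ := ih (it :: l2) h'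
    obtain ⟨hz1, hz2, hz3⟩ := z_notMem hs h'
    have hitI : it ∈ items := by rw [h']; simp
    have hzb : it.z ∉ it.bag := fun hb => hz2 (bag_later hs h' hb)
    rw [tabsOf_snoc]
    unfold elimStep
    set tabs := tabsOf k N cap l1 with htabs
    set inv := tabs.filter (fun T => decide (it.z ∈ T.1)) with hinv
    set rest := tabs.filter (fun T => decide (it.z ∉ T.1)) with hrest
    have hperm : tabs.Perm (inv ++ rest) := by
      have h3 := List.filter_append_perm (fun T : Tab => decide (it.z ∈ T.1)) tabs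
      have h4 : tabs.filter (fun T : Tab => !decide (it.z ∈ T.1)) = rest := by
        rw [hrest]
        apply List.filter_congr
        intro T _
        rw [decide_not]
      rw [h4] at h3
      exact h3.symm
    obtain ⟨vs, hv1, hv2⟩ := List.perm_comp_forall₂ hperm.symm i1
    -- split the choice
    obtain ⟨qs, rs', hq1, hr1, rfl⟩ : ∃ qs rs', List.Forall₂ (Agr a) inv qs ∧ List.Forall₂ (Agr a) rest rs' ∧
        vs = qs ++ rs' := sc_split hv1
    have hwf := tabs_wf k N cap l1
    have hmem : ∀ u : Row, u ∈ ws ↔ u ∈ qs ∨ u ∈ rs' := by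
      intro u
      rw [← hv2.mem_iff, List.mem_append]
    have hpw : (qs ++ rs').Pairwise (fun u v : Row => DisjW u.2.2 v.2.2) :=
      (hv2.pairwise_iff (fun {u v} (h : DisjW u.2.2 v.2.2) => h.symm)).mpr i2
    rw [List.pairwise_append] at hpw
    set c := a it.z with hc
    set f := it.bag.map a with hf
    have hcd : c ∈ it.dom := ha.dom it hitI
    have haval : ∀ y, y ∈ items.map Item.z → a y ≤ 2 * k + 1 := by
      intro y hy
      rw [List.mem_map] at hy
      obtain ⟨i', hi', rfl⟩ := hy
      exact hs.dom_le i' hi' _ (ha.dom i' hi')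
    have hfl : f.length = it.bag.length := by rw [hf, List.length_map]
    have hfw : f.length ≤ w := by rw [hfl]; exact hs.bag_len it hitI
    have hf2 : ∀ x ∈ f, x ≤ 2 * k + 1 := by
      intro x hx
      rw [hf, List.mem_map] at hx
      obtain ⟨y, hy, rfl⟩ := hx
      exact haval y (hs.later it hitI y hy).1
    have hcf : c :: f = (it.z :: it.bag).map a := by rw [List.map_cons]
    have hfa : f ∈ asgs k cap it.bag := by
      apply asgs_complete _ hfl hf2
      calc (2 * k + 2) ^ it.bag.length ≤ (2 * k + 2) ^ w :=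
            Nat.pow_le_pow_right (by omega) (hs.bag_len it hitI)
        _ ≤ (2 * k + 2) ^ w * 2 ^ (k + 1) := Nat.le_mul_of_pos_right _ (by positivity)
        _ ≤ cap := hcap
    have hnbok : (it.nb.all fun y => ok k c (asgVal it.bag f y)) = true := by
      rw [List.all_eq_true]
      intro y hy
      rw [hf, asgVal_map a (hs.nb_sub it hitI y hy)]
      exact ha.nb it hitI y hy
    set p0 : Row := (f, (if c ≤ k then min N it.w else 0, unitW k it.z c)) with hp0
    have hq1' : List.Forall₂ (fun (T : Tab) (q : Row) => q ∈ T.2 ∧ q.1 = T.1.map (asgVal (it.z :: it.bag) (c :: f)))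
        inv qs := by
      refine forall₂_imp_mem ?_ hq1
      rintro T hT q ⟨hq, hq'⟩
      refine ⟨hq, hq'.trans (List.map_congr_left fun y hy => ?_)⟩
      rw [List.mem_filter, decide_eq_true_eq] at hT
      have hy' := tabs_chord hs h' hT.1 hT.2 hy
      rw [hcf, asgVal_map a hy']
    have hpw0 : (p0 :: qs).Pairwise (fun u v : Row => DisjW u.2.2 v.2.2) := by
      rw [List.pairwise_cons]
      refine ⟨fun u hu t => ?_, hpw.1⟩
      simp only [hp0]
      rw [getD_unitW]
      split_ifs with h3
      · right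
        by_contra h4
        obtain ⟨_, _, i', hi', hit'⟩ := i3 t ⟨u, (hmem u).mpr (Or.inl hu), h4⟩
        have h5 : it.z = i'.z := ha.times it hitI i' (by rw [h']; simp [hi'])
          (by rw [← hc]; omega) (by rw [← hc]; omega) (by rw [← hc, hit']; exact h3.1.symm)
        exact hz1 (h5 ▸ List.mem_map_of_mem hi')
      · left; rfl
    obtain ⟨r1, hr1m, r1a, r1b, r1c⟩ := sc_foldJoin (N := N) hcap hfw hf2 inv
      (fun T hT => hwf T (List.mem_filter.mp hT).1) qs hq1' [p0]
      (fun p hp => by
        rw [List.mem_singleton] at hp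
        subst hp
        exact ⟨rfl, wf_unitW _ _ _ _ _⟩) p0 (by simp) hpw0
    -- the new table
    set L : List Row := (asgs k cap it.bag).flatMap fun f => it.dom.flatMap fun c =>
      elimOne k N cap it inv f c with hL
    have hLwf : ∀ r ∈ L, r.1.length = it.bag.length ∧ (∀ c ∈ r.1, c ≤ 2 * k + 1) ∧ r.2.2.length = k + 1 := by
      intro r hr
      rw [hL, List.mem_flatMap] at hr
      obtain ⟨f', hf', hr⟩ := hr
      rw [List.mem_flatMap] at hr
      obtain ⟨c', _, hr⟩ := hr
      obtain ⟨_, hr⟩ := mem_elimOne hr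
      have h3 := foldJoin_wf (k := k) (P := fun g => g = f') inv (fun T hT => hwf T (List.mem_filter.mp hT).1) _
        (fun p hp => by
          rw [List.mem_singleton] at hp
          subst hp
          exact ⟨rfl, wf_unitW _ _ _ _ _⟩) r hr
      obtain ⟨h4, h5⟩ := asgs_sound hf'
      rw [h3.1]
      exact ⟨h4, h5, h3.2.1⟩
    have hr1L : r1 ∈ L := by
      rw [hL, List.mem_flatMap]
      refine ⟨f, hfa, ?_⟩
      rw [List.mem_flatMap]
      refine ⟨c, hcd, ?_⟩
      unfold elimOne
      rw [if_pos hnbok]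
      exact hr1m
    obtain ⟨r0, hr0, hkey, hwt⟩ := sc_reduce hcap (hs.bag_len it hitI) hLwf hr1L
    obtain ⟨hk1, hk2⟩ := sc_key hkey
    have hr0pat : ∀ t, r0.2.2.getD t 0 ≠ 0 → (1 ≤ t ∧ t ≤ k ∧ c = t) ∨ ∃ u ∈ qs, u.2.2.getD t 0 ≠ 0 := by
      intro t ht
      rw [Ne, hk2 t] at ht
      obtain ⟨u, hu, hut⟩ := r1c t ht
      rw [List.mem_cons] at hu
      rcases hu with rfl | hu
      · left
        simp only [hp0] at hut
        rw [getD_unitW] at hut
        split_ifs at hut with h3
        · exact ⟨h3.2.1, h3.2.2, h3.1.symm⟩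
        · exact absurd rfl hut
      · exact Or.inr ⟨u, hu, hut⟩
    refine ⟨r0 :: rs', List.Forall₂.cons ⟨hr0, ?_⟩ hr1, ?_, ?_, ?_⟩
    · rw [hk1, r1a]
    · rw [List.pairwise_cons]
      refine ⟨fun u hu t => ?_, hpw.2.1⟩
      by_cases h3 : r0.2.2.getD t 0 = 0
      · exact Or.inl h3
      · right
        rcases hr0pat t h3 with ⟨h4, h5, h6⟩ | ⟨v, hv, hvt⟩
        · by_contra h7
          obtain ⟨_, _, i', hi', hit'⟩ := i3 t ⟨u, (hmem u).mpr (Or.inr hu), h7⟩
          have h8 : it.z = i'.z := ha.times it hitI i' (by rw [h']; simp [hi'])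
            (by rw [← hc]; omega) (by rw [← hc]; omega) (by rw [← hc, hit']; exact h6)
          exact hz1 (h8 ▸ List.mem_map_of_mem hi')
        · rcases hpw.2.2 v hv u hu t with h7 | h7
          · exact absurd h7 hvt
          · exact h7
    · rintro t ⟨u, hu, hut⟩
      rw [List.mem_cons] at hu
      rcases hu with rfl | hu
      · rcases hr0pat t hut with ⟨h4, h5, h6⟩ | ⟨v, hv, hvt⟩
        · exact ⟨h4, h5, it, by simp, h6⟩
        · obtain ⟨h4, h5, i', hi', hit'⟩ := i3 t ⟨v, (hmem v).mpr (Or.inl hv), hvt⟩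
          exact ⟨h4, h5, i', by simp [hi'], hit'⟩
      · obtain ⟨h4, h5, i', hi', hit'⟩ := i3 t ⟨u, (hmem u).mpr (Or.inr hu), hut⟩
        exact ⟨h4, h5, i', by simp [hi'], hit'⟩
    · rw [gain_append, gain_single, ← hc, List.map_cons, List.sum_cons]
      have h3 : (ws.map fun r => r.2.1).sum = (qs.map fun r => r.2.1).sum + (rs'.map fun r => r.2.1).sum := by
        rw [← List.sum_append, ← List.map_append]
        exact (hv2.map _).sum_eq.symm
      have hsum : (l1.map Item.w).sum + (it.w + (l2.map Item.w).sum) ≤ N := by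
        refine le_trans (le_of_eq ?_) hN
        rw [h', List.map_append, List.map_cons, List.sum_append, List.sum_cons]
      have hg := gain_le k l1 a
      have h4 : min N it.w = it.w := min_eq_right (by omega)
      have h5 : (if c ≤ k then min N it.w else 0) = (if c ≤ k then it.w else 0) := by rw [h4]
      simp only [hp0, h5] at r1b
      have h6 : (if c ≤ k then it.w else 0) ≤ it.w := by split_ifs <;> omega
      omega

theorem solve_complete (k w N cap : ℕ) (items : List Item) (hs : SchemeOK k w items)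
    (hcap : (2 * k + 2) ^ w * 2 ^ (k + 1) ≤ cap) (hN : (items.map Item.w).sum ≤ N)
    (a : ℕ → ℕ) (ha : Sol k items a) :
    ∃ m wit, solve k N cap items = some (m, wit) ∧ gain k items a ≤ m := by
  obtain ⟨qs, i1, i2, i3, i4⟩ := sc_inv hs hcap hN a ha items [] (by simp)
  have hwf := tabs_wf k N cap items
  have hstr := tabs_struct (N := N) (cap := cap) hs items [] (by simp)
  set p0 : Row := ([], (0, unitW k 0 (k + 1))) with hp0
  have hq : List.Forall₂ (fun (T : Tab) (q : Row) => q ∈ T.2 ∧ q.1 = T.1.map (asgVal [] []))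
      (tabsOf k N cap items) qs := by
    refine forall₂_imp_mem (fun T hT q hq => ?_) i1
    have he : T.1 = [] := by
      rw [List.eq_nil_iff_forall_not_mem]
      intro y hy
      exact absurd ((hstr T hT).2 y hy) List.not_mem_nil
    refine ⟨hq.1, hq.2.trans ?_⟩
    rw [he]; rfl
  have hpw0 : (p0 :: qs).Pairwise (fun u v : Row => DisjW u.2.2 v.2.2) := by
    rw [List.pairwise_cons]
    refine ⟨fun u hu t => ?_, i2⟩
    left
    simp only [hp0]
    rw [getD_unitW, if_neg (by omega)]
  obtain ⟨r1, hr1m, r1a, r1b, r1c⟩ := sc_foldJoin (k := k) (w := w) (N := N) hcap (vs := []) (cs := [])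
    (f := []) (Nat.zero_le _) (by simp) (tabsOf k N cap items) hwf qs hq [p0]
    (fun p hp => by
      rw [List.mem_singleton] at hp
      subst hp
      exact ⟨rfl, wf_unitW _ _ _ _ _⟩) p0 (by simp) hpw0
  have hdef : solve k N cap items = (bestRow ((tabsOf k N cap items).foldl (joinTab N cap [] []) [p0])).map Prod.snd := rfl
  rw [hdef]
  cases hb : bestRow ((tabsOf k N cap items).foldl (joinTab N cap [] []) [p0]) with
  | none =>
    rw [bestRow_none] at hb
    rw [hb] at hr1m
    exact absurd hr1m List.not_mem_nil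
  | some r =>
    refine ⟨r.2.1, r.2.2, rfl, ?_⟩
    have h1 := le_bestRow hb hr1m
    have h2 := gain_le k items a
    simp only [hp0] at r1b
    omega

end Pool.Agent.PFire
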