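import Pool.Agent.Lib.PFire.SolverAux

/-!
# Chunk SS: soundness of the solver

Invariants after the items `l1` have been processed (`items = l1 ++ l2`), with the list of tables `tabs`:

(structure) every table has the scope `it'.bag` of an item `it'` of `l1`, contained in the variables of
`l2`; so when the variable `z` of the next item `it` is eliminated, every table with `z` in its scope
has its scope in `z :: it.bag` (`chord`).

(sound) for every assignment `a` and every choice of one row from each table which agrees with `a`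
on the scope, with pairwise disjoint witnesses, there is `b` which agrees with `a` on the variables of
`l2`, satisfies all domain, neighbour and times constraints of the items of `l1`, the merged witness describes
the times used by `b` on `l1`, and the sum of the row weights is at most the gain of `b` on `l1`.
-/

set_option autoImplicit false

namespace Pool.Agent.PFire

/-- A row of an iterated join comes from a row of the first list and one row for each table. -/
theorem ss_foldJoin {k N cap : ℕ} {vs cs : List ℕ} (Ts : List Tab)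
    (hT : ∀ T ∈ Ts, ∀ r ∈ T.2, WfR k r) : ∀ acc : List Row, (∀ p ∈ acc, WfR k p) →
    ∀ r ∈ Ts.foldl (joinTab N cap vs cs) acc, ∃ p ∈ acc, ∃ qs : List Row,
      List.Forall₂ (fun (T : Tab) (q : Row) => q ∈ T.2 ∧ q.1 = T.1.map (asgVal vs cs)) Ts qs ∧ r.1 = p.1 ∧
      r.2.1 ≤ p.2.1 + (qs.map fun q => q.2.1).sum ∧
      (p :: qs).Pairwise (fun u v => DisjW u.2.2 v.2.2) ∧
      ∀ t y, y ≠ 0 → (r.2.2.getD t 0 = y ↔ ∃ u ∈ p :: qs, u.2.2.getD t 0 = y) := by
  induction Ts with
  | nil =>
    intro acc _ r hr
    refine ⟨r, hr, [], List.Forall₂.nil, rfl, by simp, by simp, fun t y _ => by simp⟩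
  | cons T Ts ih =>
    intro acc hacc r hr
    rw [List.foldl_cons] at hr
    have hT' : ∀ T' ∈ Ts, ∀ r ∈ T'.2, WfR k r := fun T' h => hT T' (List.mem_cons_of_mem _ h)
    have hacc' : ∀ p ∈ joinTab N cap vs cs acc T, WfR k p := by
      intro p1 hp1
      have := foldJoin_wf (k := k) (N := N) (cap := cap) (vs := vs) (cs := cs) (P := fun _ => True) [T]
        (fun T' hT' r' hr' => by
          rw [List.mem_singleton] at hT'
          subst hT'
          exact hT _ List.mem_cons_self r' hr') acc (fun p hp => ⟨trivial, hacc p hp⟩) p1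
        (by rw [List.foldl_cons, List.foldl_nil]; exact hp1)
      exact this.2
    obtain ⟨p1, hp1, qs, h1, h2, h3, h4, h5⟩ := ih hT' _ hacc' r hr
    obtain ⟨p, hp, q, hq, hq1, hd, rfl⟩ := mem_joinTab hp1
    have wp := hacc p hp
    have wq := hT T List.mem_cons_self q hq
    have hlen : p.2.2.length = q.2.2.length := wp.1.trans wq.1.symm
    rw [disj_iff hlen] at hd
    rw [List.pairwise_cons] at h4
    have hmax : ∀ t, (mergeW p.2.2 q.2.2).getD t 0 = max (p.2.2.getD t 0) (q.2.2.getD t 0) :=
      fun t => getD_mergeW hlen t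
    refine ⟨p, hp, q :: qs, List.Forall₂.cons ⟨hq, hq1⟩ h1, h2, ?_, ?_, ?_⟩
    · simp only [List.map_cons, List.sum_cons]
      have : min N (p.2.1 + q.2.1) ≤ p.2.1 + q.2.1 := min_le_right _ _
      simp only at h3
      omega
    · rw [List.pairwise_cons, List.pairwise_cons]
      refine ⟨?_, ?_, h4.2⟩
      · intro u hu
        rw [List.mem_cons] at hu
        rcases hu with rfl | hu
        · exact hd
        · intro t
          have := h4.1 u hu t
          simp only [hmax] at this
          rcases this with h | h
          · left; omega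
          · right; exact h
      · intro u hu t
        have := h4.1 u hu t
        simp only [hmax] at this
        rcases this with h | h
        · left; omega
        · right; exact h
    · intro t y hy
      rw [h5 t y hy]
      constructor
      · rintro ⟨u, hu, hut⟩
        rw [List.mem_cons] at hu
        rcases hu with rfl | hu
        · simp only [hmax] at hut
          rcases hd t with h | h
          · exact ⟨q, by simp, by omega⟩
          · exact ⟨p, by simp, by omega⟩
        · exact ⟨u, by simp [hu], hut⟩
      · rintro ⟨u, hu, hut⟩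
        rw [List.mem_cons, List.mem_cons] at hu
        rcases hu with rfl | rfl | hu
        · refine ⟨_, List.mem_cons_self, ?_⟩
          simp only [hmax]
          rcases hd t with h | h
          · omega
          · omega
        · refine ⟨_, List.mem_cons_self, ?_⟩
          simp only [hmax]
          rcases hd t with h | h
          · omega
          · omega
        · exact ⟨u, by simp [hu], hut⟩

/-- The soundness invariant. -/
def SSInv (k : ℕ) (l1 : List Item) (tabs : List Tab) : Prop :=
  ∀ (a : ℕ → ℕ) (rs : List Row), List.Forall₂ (Agr a) tabs rs →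
    rs.Pairwise (fun u v => DisjW u.2.2 v.2.2) →
    ∃ b : ℕ → ℕ, (∀ v, v ∉ l1.map Item.z → b v = a v) ∧
      (∀ it ∈ l1, b it.z ∈ it.dom) ∧
      (∀ it ∈ l1, ∀ y ∈ it.nb, ok k (b it.z) (b y) = true) ∧
      (∀ it ∈ l1, ∀ it' ∈ l1, 1 ≤ b it.z → b it.z ≤ k → b it.z = b it'.z → it.z = it'.z) ∧
      (∀ t x, 1 ≤ t → t ≤ k → ((∃ r ∈ rs, r.2.2.getD t 0 = x + 1) ↔ x ∈ l1.map Item.z ∧ b x = t)) ∧
      (rs.map fun r => r.2.1).sum ≤ gain k l1 b

theorem ss_inv {k w N cap : ℕ} {items : List Item} (hs : SchemeOK k w items) (l1 : List Item) :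
    ∀ l2, items = l1 ++ l2 → SSInv k l1 (tabsOf k N cap l1) := by
  induction l1 using List.reverseRecOn with
  | nil =>
    intro l2 _ a rs h _
    have : rs = [] := by
      cases h
      rfl
    subst this
    refine ⟨a, fun _ _ => rfl, by simp, by simp, by simp, by simp, by simp⟩
  | append_singleton l1 it ih =>
    intro l2 h a rs hrs hpw
    have h' : items = l1 ++ it :: l2 := by rw [h]; simp
    have IH := ih (it :: l2) h'
    obtain ⟨hz1, hz2, hz3⟩ := z_notMem hs h'
    have hitI : it ∈ items := by rw [h']; simp
    have hzb : it.z ∉ it.bag := fun hb => hz2 (bag_later hs h' hb)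
    rw [tabsOf_snoc] at hrs
    unfold elimStep at hrs
    set tabs := tabsOf k N cap l1 with htabs
    set inv := tabs.filter (fun T => decide (it.z ∈ T.1)) with hinv
    set rest := tabs.filter (fun T => decide (it.z ∉ T.1)) with hrest
    cases hrs with
    | @cons _ r0 _ rs' h0 hrs' =>
    rw [List.pairwise_cons] at hpw
    obtain ⟨h0m, h0v⟩ := h0
    have h1 := mem_of_mem_reduceRows h0m
    rw [List.mem_flatMap] at h1
    obtain ⟨f, hf, h1⟩ := h1
    rw [List.mem_flatMap] at h1
    obtain ⟨c, hc, h1⟩ := h1
    obtain ⟨hnb, h2⟩ := mem_elimOne h1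
    have hwf := tabs_wf k N cap l1
    obtain ⟨p, hp, qs, q1, q2, q3, q4, q5⟩ := ss_foldJoin (k := k) inv
      (fun T hT => hwf T (List.mem_filter.mp hT).1) _
      (fun p hp => by
        rw [List.mem_singleton] at hp
        subst hp
        exact wf_unitW _ _ _ _ _) r0 h2
    rw [List.mem_singleton] at hp
    subst hp
    simp only at q2 q3 q5
    -- `f` is the restriction of `a`
    have hfa : f = it.bag.map a := by rw [← q2, h0v]
    set a' : ℕ → ℕ := fun v => if v = it.z then c else a v with ha'
    have haz : a' it.z = c := by simp [ha']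
    have han : ∀ v, v ≠ it.z → a' v = a v := fun v hv => by simp [ha', hv]
    have hcf : c :: f = (it.z :: it.bag).map a' := by
      rw [List.map_cons, haz, hfa]
      congr 1
      apply List.map_congr_left
      intro y hy
      exact (han y (fun e => hzb (e ▸ hy))).symm
    have hq1 : List.Forall₂ (Agr a') inv qs := by
      refine forall₂_imp_mem ?_ q1
      rintro T hT q ⟨hq, hq'⟩
      refine ⟨hq, hq'.trans (List.map_congr_left fun y hy => ?_)⟩
      rw [List.mem_filter, decide_eq_true_eq] at hT
      have hy' := tabs_chord hs h' hT.1 hT.2 hy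
      rw [hcf, asgVal_map a' hy']
    have hr1 : List.Forall₂ (Agr a') rest rs' := by
      refine forall₂_imp_mem ?_ hrs'
      rintro T hT q hq
      rw [List.mem_filter, decide_eq_true_eq] at hT
      exact Agr_congr (fun y hy => (han y (fun e => hT.2 (e ▸ hy))).symm) hq
    have hcomb : List.Forall₂ (Agr a') (inv ++ rest) (qs ++ rs') := List.rel_append hq1 hr1
    have hperm : tabs.Perm (inv ++ rest) := by
      have h3 := List.filter_append_perm (fun T : Tab => decide (it.z ∈ T.1)) tabs
      have h4 : tabs.filter (fun T : Tab => !decide (it.z ∈ T.1)) = rest := by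
        rw [hrest]
        apply List.filter_congr
        intro T _
        rw [decide_not]
      rw [h4] at h3
      exact h3.symm
    obtain ⟨ws, hw1, hw2⟩ := List.perm_comp_forall₂ hperm hcomb
    -- disjointness of the choice for the old tables
    have hr0 : ∀ t y, y ≠ 0 → (∃ u ∈ qs, u.2.2.getD t 0 = y) → r0.2.2.getD t 0 = y := by
      rintro t y hy ⟨u, hu, hut⟩
      exact (q5 t y hy).mpr ⟨u, List.mem_cons_of_mem _ hu, hut⟩
    rw [List.pairwise_cons] at q4
    have hpw' : (qs ++ rs').Pairwise (fun u v : Row => DisjW u.2.2 v.2.2) := by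
      rw [List.pairwise_append]
      refine ⟨q4.2, hpw.2, fun q hq r hr t => ?_⟩
      by_cases h3 : q.2.2.getD t 0 = 0
      · exact Or.inl h3
      · right
        have h4 := hr0 t _ h3 ⟨q, hq, rfl⟩
        rcases hpw.1 r hr t with h5 | h5
        · rw [h4] at h5; exact absurd h5 h3
        · exact h5
    have hpw'' : ws.Pairwise (fun u v : Row => DisjW u.2.2 v.2.2) :=
      (hw2.pairwise_iff (fun {u v} (h : DisjW u.2.2 v.2.2) => h.symm)).mpr hpw'
    obtain ⟨b, b1, b2, b3, b4, b5, b6⟩ := IH a' ws hw1 hpw''
    have hbz : b it.z = c := by rw [b1 _ hz1, haz]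
    have hmem : ∀ u : Row, u ∈ ws ↔ u ∈ qs ∨ u ∈ rs' := by
      intro u
      rw [hw2.mem_iff, List.mem_append]
    -- a time used by `z` is not used before
    have htime : ∀ x, x ∈ l1.map Item.z → 1 ≤ c → c ≤ k → b x = c → False := by
      intro x hx hc1 hc2 hbx
      obtain ⟨u, hu, hut⟩ := (b5 c x hc1 hc2).mpr ⟨hx, hbx⟩
      have hun : (unitW k it.z c).getD c 0 = it.z + 1 := by rw [getD_unitW, if_pos ⟨rfl, hc1, hc2⟩]
      rcases (hmem u).mp hu with hu | hu
      · rcases q4.1 u hu c with h3 | h3
        · simp only at h3; omega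
        · omega
      · have h4 := (q5 c (it.z + 1) (by omega)).mpr ⟨_, List.mem_cons_self, hun⟩
        rcases hpw.1 u hu c with h3 | h3
        · omega
        · omega
    refine ⟨b, ?_, ?_, ?_, ?_, ?_, ?_⟩
    · intro v hv
      rw [List.map_append, List.mem_append, not_or] at hv
      have hv2 : v ≠ it.z := fun e => hv.2 (by simp [e])
      rw [b1 v hv.1, han v hv2]
    · intro it' hit'
      rw [List.mem_append, List.mem_singleton] at hit'
      rcases hit' with hit' | rfl
      · exact b2 it' hit'
      · rw [hbz]; exact hc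
    · intro it' hit' y hy
      rw [List.mem_append, List.mem_singleton] at hit'
      rcases hit' with hit' | rfl
      · exact b3 it' hit' y hy
      · have h3 := hnb y hy
        have hyb : y ∈ it'.bag := hs.nb_sub it' hitI y hy
        have hyl := bag_later hs h' hyb
        rw [hfa, asgVal_map a hyb] at h3
        have hne : y ≠ it'.z := fun e => hzb (e ▸ hyb)
        rw [hbz, b1 y (hz3 y hyl), han y hne]
        exact h3
    · intro i1 hi1 i2 hi2 h3 h4 h5
      rw [List.mem_append, List.mem_singleton] at hi1 hi2
      rcases hi1 with hi1 | rfl <;> rcases hi2 with hi2 | rfl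
      · exact b4 i1 hi1 i2 hi2 h3 h4 h5
      · rw [h5, hbz] at h3 h4
        exact (htime i1.z (List.mem_map_of_mem hi1) h3 h4 (h5.trans hbz)).elim
      · rw [hbz] at h3 h4
        exact (htime i2.z (List.mem_map_of_mem hi2) h3 h4 (h5.symm.trans hbz)).elim
      · rfl
    · intro t x ht1 ht2
      have hxmem : x ∈ (l1 ++ [it]).map Item.z ↔ x ∈ l1.map Item.z ∨ x = it.z := by
        rw [List.map_append, List.mem_append]; simp
      rw [hxmem]
      constructor
      · rintro ⟨u, hu, hut⟩
        rw [List.mem_cons] at hu
        rcases hu with rfl | hu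
        · obtain ⟨v, hv, hvt⟩ := (q5 t (x + 1) (by omega)).mp hut
          rw [List.mem_cons] at hv
          rcases hv with rfl | hv
          · simp only at hvt
            rw [getD_unitW] at hvt
            split_ifs at hvt with h3
            · have hx : x = it.z := by omega
              subst hx
              exact ⟨Or.inr rfl, by rw [hbz]; exact h3.1.symm⟩
          · have := (b5 t x ht1 ht2).mp ⟨v, (hmem v).mpr (Or.inl hv), hvt⟩
            exact ⟨Or.inl this.1, this.2⟩
        · have := (b5 t x ht1 ht2).mp ⟨u, (hmem u).mpr (Or.inr hu), hut⟩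
          exact ⟨Or.inl this.1, this.2⟩
      · rintro ⟨hx | rfl, hbx⟩
        · obtain ⟨u, hu, hut⟩ := (b5 t x ht1 ht2).mpr ⟨hx, hbx⟩
          rcases (hmem u).mp hu with hu | hu
          · exact ⟨r0, List.mem_cons_self, hr0 t _ (by omega) ⟨u, hu, hut⟩⟩
          · exact ⟨u, List.mem_cons_of_mem _ hu, hut⟩
        · rw [hbz] at hbx
          refine ⟨r0, List.mem_cons_self, (q5 t _ (by omega)).mpr ⟨_, List.mem_cons_self, ?_⟩⟩
          simp only
          rw [getD_unitW, if_pos ⟨hbx.symm, ht1, ht2⟩]
    · rw [gain_append, gain_single, hbz, List.map_cons, List.sum_cons]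
      have h3 : (ws.map fun r => r.2.1).sum = (qs.map fun r => r.2.1).sum + (rs'.map fun r => r.2.1).sum := by
        rw [← List.sum_append, ← List.map_append]
        exact (hw2.map _).sum_eq
      have h4 : (if c ≤ k then min N it.w else 0) ≤ (if c ≤ k then it.w else 0) := by
        split_ifs
        · exact min_le_right _ _
        · exact le_rfl
      omega

theorem solve_sound (k w N cap : ℕ) (items : List Item) (hs : SchemeOK k w items) (m : ℕ)
    (wit : List ℕ) (h : solve k N cap items = some (m, wit)) :
    ∃ a : ℕ → ℕ, Sol k items a ∧ m ≤ gain k items a ∧ wit.length = k + 1 ∧ wit.getD 0 0 = 0 ∧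
      ∀ t x, 1 ≤ t → t ≤ k → (wit.getD t 0 = x + 1 ↔ x ∈ items.map Item.z ∧ a x = t) := by
  unfold solve at h
  rw [Option.map_eq_some_iff] at h
  obtain ⟨r, hr, hr2⟩ := h
  have h1 := bestRow_mem hr
  have hwf := tabs_wf k N cap items
  have hacc : ∀ p ∈ [(([], (0, unitW k 0 (k + 1))) : Row)], WfR k p := by
    intro p hp
    rw [List.mem_singleton] at hp
    subst hp
    exact wf_unitW _ _ _ _ _
  obtain ⟨p, hp, qs, q1, q2, q3, q4, q5⟩ := ss_foldJoin (k := k) (N := N) (cap := cap) (vs := []) (cs := [])
    (tabsOf k N cap items) hwf _ hacc r h1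
  have hwr := (foldJoin_wf (k := k) (N := N) (cap := cap) (vs := []) (cs := []) (P := fun _ => True)
    (tabsOf k N cap items) hwf _ (fun p hp => ⟨trivial, hacc p hp⟩) r h1).2
  rw [List.mem_singleton] at hp
  subst hp
  rw [List.pairwise_cons] at q4
  have hstr := tabs_struct (N := N) (cap := cap) hs items [] (by simp)
  obtain ⟨b, b1, b2, b3, b4, b5, b6⟩ := ss_inv (N := N) (cap := cap) hs items [] (by simp) (fun _ => 0) qs
    (forall₂_imp_mem (fun T hT q hq => by
      have he : T.1 = [] := by
        rw [List.eq_nil_iff_forall_not_mem]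
        intro y hy
        exact absurd ((hstr T hT).2 y hy) List.not_mem_nil
      refine ⟨hq.1, hq.2.trans ?_⟩
      rw [he]; rfl) q1) q4.2
  have hm : m = r.2.1 := by rw [hr2]
  have hwt : wit = r.2.2 := by rw [hr2]
  refine ⟨b, ⟨b2, b3, b4⟩, ?_, ?_, ?_, ?_⟩
  · rw [hm]
    simp only at q3
    omega
  · rw [hwt]; exact hwr.1
  · rw [hwt]; exact hwr.2
  · intro t x ht1 ht2
    rw [hwt, q5 t (x + 1) (by omega), ← b5 t x ht1 ht2]
    constructor
    · rintro ⟨u, hu, hut⟩
      rw [List.mem_cons] at hu
      rcases hu with rfl | hu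
      · simp only at hut
        rw [getD_unitW, if_neg (by omega)] at hut
        omega
      · exact ⟨u, hu, hut⟩
    · rintro ⟨u, hu, hut⟩
      exact ⟨u, List.mem_cons_of_mem _ hu, hut⟩

end Pool.Agent.PFire
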