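import Pool.Agent.Lib.PFire.ModelSol
import Pool.Agent.Lib.PFire.ModelGood
import Pool.Agent.Lib.PFire.SolverSound
import Pool.Agent.Lib.PFire.SolverComplete

/-!
# Chunk MO3: correctness of the answer

For a strategy `S`: `baker` (with `lev = levOf`) gives a class `i` and a good labelling; `sol_of_good` and
`solve_complete` bound the number of saved vertices by the answer.  The answer comes from some class `i`;
`solve_sound`, `good_of_sol` and `strategy_of_good` show that the output strategy saves at least this number.
If `darts rot s = []` then `items rot s k i = []` and the answer is `(n - 1, [])`.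
-/

set_option autoImplicit false

namespace Pool.Agent.PFire

open Pool.Agent.PolyTime

variable {n : ℕ} {G : SimpleGraph (Fin n)} {s : Fin n} {rot : Rot}

/-! ### The best class -/

/-- one step of the fold of `solveAll` -/
def moStep (o r : Option (ℕ × List ℕ)) : Option (ℕ × List ℕ) :=
  match r with
  | none => o
  | some q => match o with
    | none => some q
    | some p => if p.1 < q.1 then some q else some p

lemma mo_step_some {o r : Option (ℕ × List ℕ)} {q : ℕ × List ℕ} (h : moStep o r = some q) :
    o = some q ∨ r = some q := by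
  unfold moStep at h
  rcases r with _ | r
  · exact Or.inl h
  · rcases o with _ | o
    · exact Or.inr h
    · dsimp only at h
      split_ifs at h with h1
      · exact Or.inr h
      · exact Or.inl h

lemma mo_step_le {o r : Option (ℕ × List ℕ)} {p : ℕ × List ℕ} (h : o = some p ∨ r = some p) :
    ∃ q, moStep o r = some q ∧ p.1 ≤ q.1 := by
  unfold moStep
  rcases r with _ | r
  · rcases h with h | h
    · exact ⟨p, h, le_rfl⟩
    · exact absurd h (by simp)
  · rcases o with _ | o
    · rcases h with h | h
      · exact absurd h (by simp)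
      · exact ⟨p, h, le_rfl⟩
    · dsimp only
      rw [Option.some_inj, Option.some_inj] at h
      split_ifs with h1
      · refine ⟨r, rfl, ?_⟩
        rcases h with rfl | rfl
        · exact h1.le
        · exact le_rfl
      · refine ⟨o, rfl, ?_⟩
        rcases h with rfl | rfl
        · exact le_rfl
        · exact Nat.le_of_not_lt h1

lemma mo_fold_some (f : ℕ → Option (ℕ × List ℕ)) (l : List ℕ) : ∀ (o : Option (ℕ × List ℕ)) q,
    l.foldl (fun o i => moStep o (f i)) o = some q → o = some q ∨ ∃ i ∈ l, f i = some q := by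
  induction l with
  | nil => intro o q hq; exact Or.inl hq
  | cons j l ih =>
    intro o q hq
    rw [List.foldl_cons] at hq
    rcases ih _ q hq with h1 | ⟨i, hi, h1⟩
    · rcases mo_step_some h1 with h2 | h2
      · exact Or.inl h2
      · exact Or.inr ⟨j, List.mem_cons_self, h2⟩
    · exact Or.inr ⟨i, List.mem_cons_of_mem _ hi, h1⟩

lemma mo_fold_le (f : ℕ → Option (ℕ × List ℕ)) (l : List ℕ) : ∀ (o : Option (ℕ × List ℕ)) p,
    (o = some p ∨ ∃ i ∈ l, f i = some p) →
      ∃ q, l.foldl (fun o i => moStep o (f i)) o = some q ∧ p.1 ≤ q.1 := by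
  induction l with
  | nil =>
    intro o p hp
    rcases hp with hp | ⟨i, hi, _⟩
    · exact ⟨p, hp, le_rfl⟩
    · exact absurd hi List.not_mem_nil
  | cons j l ih =>
    intro o p hp
    rw [List.foldl_cons]
    rcases hp with hp | ⟨i, hi, h1⟩
    · obtain ⟨q, hq, hle⟩ := mo_step_le (r := f j) (Or.inl hp)
      obtain ⟨q', hq', hle'⟩ := ih _ q (Or.inl hq)
      exact ⟨q', hq', hle.trans hle'⟩
    · rcases List.mem_cons.1 hi with rfl | hi
      · obtain ⟨q, hq, hle⟩ := mo_step_le (o := o) (Or.inr h1)
        obtain ⟨q', hq', hle'⟩ := ih _ q (Or.inl hq)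
        exact ⟨q', hq', hle.trans hle'⟩
      · exact ih _ p (Or.inr ⟨i, hi, h1⟩)

lemma mo_solveAll_eq (rot : Rot) (s k cap : ℕ) : solveAll rot s k cap =
    (List.range (k + 2)).foldl
      (fun o i => moStep o (solve k rot.length cap (items rot s k i))) none := by
  unfold solveAll
  refine congrArg (fun g => List.foldl g none (List.range (k + 2))) ?_
  funext o i
  generalize solve k rot.length cap (items rot s k i) = r
  rcases r with _ | r
  · rfl
  · rcases o with _ | o <;> rfl

lemma mo_solveAll_mem {rot : Rot} {s k cap : ℕ} {q : ℕ × List ℕ}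
    (hq : solveAll rot s k cap = some q) :
    ∃ i < k + 2, solve k rot.length cap (items rot s k i) = some q := by
  rw [mo_solveAll_eq] at hq
  rcases mo_fold_some _ _ _ _ hq with h1 | ⟨i, hi, h1⟩
  · exact absurd h1 (by simp)
  · exact ⟨i, List.mem_range.1 hi, h1⟩

lemma mo_le_solveAll {rot : Rot} {s k cap i : ℕ} (hi : i < k + 2) {p : ℕ × List ℕ}
    (hp : solve k rot.length cap (items rot s k i) = some p) :
    ∃ q, solveAll rot s k cap = some q ∧ p.1 ≤ q.1 := by
  rw [mo_solveAll_eq]
  exact mo_fold_le _ _ _ _ (Or.inr ⟨i, List.mem_range.2 hi, hp⟩)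

/-! ### The strategy of a witness -/

lemma mo_lookup_aux (l : List ℕ) : ∀ (j t : ℕ),
    (((l.zipIdx j).filter fun p => decide (p.1 ≠ 0)).map fun p => (p.2, p.1 - 1)).lookup t =
      if j ≤ t ∧ l.getD (t - j) 0 ≠ 0 then some (l.getD (t - j) 0 - 1) else none := by
  induction l with
  | nil =>
    intro j t
    simp
  | cons x l ih =>
    intro j t
    rw [List.zipIdx_cons, List.filter_cons]
    by_cases hx : x = 0
    · rw [if_neg (by simp [hx]), ih]
      by_cases htj : t = j
      · subst htj
        rw [if_neg (by omega), if_neg]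
        simp [hx]
      · by_cases h1 : j ≤ t
        · obtain ⟨m, rfl⟩ : ∃ m, t = j + 1 + m := ⟨t - (j + 1), by omega⟩
          have e1 : j + 1 + m - (j + 1) = m := by omega
          have e2 : j + 1 + m - j = m + 1 := by omega
          rw [e1, e2, List.getD_cons_succ]
          by_cases h2 : l.getD m 0 = 0
          · rw [if_neg (fun h => h.2 h2), if_neg (fun h => h.2 h2)]
          · rw [if_pos ⟨by omega, h2⟩, if_pos ⟨by omega, h2⟩]
        · rw [if_neg (by omega), if_neg (by omega)]
    · rw [if_pos (by simp [hx]), List.map_cons, List.lookup_cons, ih]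
      by_cases htj : t = j
      · subst htj
        simp [hx]
      · have hb : (t == j) = false := by simpa using htj
        simp only [hb]
        by_cases h1 : j ≤ t
        · obtain ⟨m, rfl⟩ : ∃ m, t = j + 1 + m := ⟨t - (j + 1), by omega⟩
          have e1 : j + 1 + m - (j + 1) = m := by omega
          have e2 : j + 1 + m - j = m + 1 := by omega
          rw [e1, e2, List.getD_cons_succ]
          by_cases h2 : l.getD m 0 = 0
          · rw [if_neg (fun h => h.2 h2), if_neg (fun h => h.2 h2)]
          · rw [if_pos ⟨by omega, h2⟩, if_pos ⟨by omega, h2⟩]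
        · rw [if_neg (by omega), if_neg (by omega)]

lemma mo_lookup (wit : List ℕ) (t : ℕ) :
    (stratOf wit).lookup t = if wit.getD t 0 ≠ 0 then some (wit.getD t 0 - 1) else none := by
  unfold stratOf
  have := mo_lookup_aux wit 0 t
  simpa using this

lemma mo_toS {wit : List ℕ} {t : ℕ} {v : Fin n} :
    toS (stratOf wit) t = some v ↔ wit.getD t 0 = v.1 + 1 := by
  unfold toS
  rw [mo_lookup]
  by_cases h1 : wit.getD t 0 = 0
  · rw [if_neg (fun h => h h1), h1]
    simp
  · rw [if_pos h1, Option.bind_some]
    by_cases h2 : wit.getD t 0 - 1 < n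
    · rw [dif_pos h2, Option.some_inj, Fin.ext_iff]
      show wit.getD t 0 - 1 = v.1 ↔ _
      omega
    · rw [dif_neg h2]
      have := v.2
      constructor
      · intro h; exact absurd h (by simp)
      · intro h; omega

/-! ### The empty component -/

lemma mo_items_nil {rot : Rot} {s k i : ℕ} (hd : darts rot s = []) : items rot s k i = [] := by
  have h1 : order rot s k i = [] := by
    unfold order
    rw [hd]
    simp
  unfold items mkItems elimOrder
  rw [h1]
  simp

lemma mo_answer_nil {rot : Rot} {s : ℕ} (h : RotValid rot s) (k cap : ℕ)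
    (hd : darts rot s = []) : answer rot s k cap = (rot.length - 1, []) := by
  have hcomp : ∀ v, v ∈ comp rot s → v = s := by
    intro v hv
    have h1 := (mem_comp h).1 hv
    by_contra hne
    rcases Relation.ReflTransGen.cases_head h1 with h2 | ⟨c, h2, _⟩
    · exact hne h2.symm
    · have : ((s, c) : Nd) ∈ darts rot s := (mem_darts h).2 ⟨s_mem_comp h, h2⟩
      rw [hd] at this
      exact absurd this List.not_mem_nil
  have hcl : (comp rot s).length = 1 := by
    rw [← List.toFinset_card_of_nodup comp_nodup, Finset.card_eq_one]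
    refine ⟨s, ?_⟩
    ext v
    rw [List.mem_toFinset, Finset.mem_singleton]
    exact ⟨hcomp v, fun h1 => by rw [h1]; exact s_mem_comp h⟩
  have hz : ∀ i, solve k rot.length cap (items rot s k i) = some (0, unitW k 0 (k + 1)) := by
    intro i
    rw [mo_items_nil hd]
    rfl
  have hu : unitW k 0 (k + 1) = List.replicate (k + 1) 0 := by
    rw [List.eq_replicate_iff]
    refine ⟨length_unitW _ _ _, ?_⟩
    intro b hb
    unfold unitW at hb
    obtain ⟨t, ht, rfl⟩ := List.mem_map.1 hb
    rw [List.mem_range] at ht
    rw [if_neg (by omega)]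
  obtain ⟨q, hq, _⟩ := mo_le_solveAll (s := s) (cap := cap) (i := 0) (by omega : 0 < k + 2) (hz 0)
  obtain ⟨i, _, hi⟩ := mo_solveAll_mem hq
  rw [hz i] at hi
  unfold answer
  rw [hq, ← Option.some.inj hi]
  dsimp only
  rw [hcl, Nat.zero_add, hu]
  congr 1
  unfold stratOf
  rw [List.map_eq_nil_iff, List.filter_eq_nil_iff]
  intro p hp
  have := List.fst_mem_of_mem_zipIdx hp
  rw [List.mem_replicate] at this
  simp [this.2]

/-- If the component of `s` has no darts then only `s` burns. -/
lemma mo_optimal_nil (hR : Repr G s rot) (k : ℕ) (hd : darts rot s.1 = []) :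
    Optimal G s k (n - 1, []) := by
  classical
  have h := hR.valid
  have hadj : ∀ v, ¬ G.Adj s v := by
    intro v hv
    have : ((s.1, v.1) : Nd) ∈ darts rot s.1 :=
      (mem_darts h).2 ⟨s_mem_comp h, (hR.adj s (s_mem_comp h) v).2 hv⟩
    rw [hd] at this
    exact absurd this List.not_mem_nil
  have hburn : ∀ (S : ℕ → Option (Fin n)) (t : ℕ) v, v ∈ burning G s S t ↔ v = s := by
    intro S t
    induction t with
    | zero => intro v; exact Iff.rfl
    | succ t ih =>
      intro v
      constructor
      · rintro (h1 | ⟨_, u, hu, huv⟩)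
        · exact (ih v).1 h1
        · rw [ih] at hu
          rw [hu] at huv
          exact absurd huv (hadj v)
      · intro h1
        exact Or.inl ((ih v).2 h1)
  have hsaved : ∀ S : ℕ → Option (Fin n), (saved G s S).ncard = n - 1 := by
    intro S
    have h1 : saved G s S = ((Finset.univ.erase s : Finset (Fin n)) : Set (Fin n)) := by
      ext v
      rw [Finset.mem_coe, Finset.mem_erase]
      unfold saved
      rw [Set.mem_ofPred_eq]
      simp only [hburn, forall_const, Finset.mem_univ, and_true, ne_eq]
    rw [h1, Set.ncard_coe_finset, Finset.card_erase_of_mem (Finset.mem_univ _),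
      Finset.card_univ, Fintype.card_fin]
  have hnone : ∀ t, toS (n := n) [] t = none := fun t => rfl
  have hprot : protSet (toS (n := n) []) = ∅ := by
    ext v
    simp only [protSet, hnone, Set.mem_ofPred_eq, Set.mem_empty_iff_false, iff_false]
    rintro ⟨r, _, hr⟩
    exact absurd hr (by simp)
  refine ⟨⟨?_, ?_, ?_⟩, hsaved _, fun S _ => (hsaved S).le⟩
  · intro t v h1
    exact absurd h1 (by simp [toS])
  · show (protSet (toS (n := n) [])).Finite
    rw [hprot]; exact Set.finite_empty
  · show (protSet (toS (n := n) [])).ncard ≤ k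
    rw [hprot, Set.ncard_empty]; exact Nat.zero_le _

/-- Chunk MO3: correctness of the answer. -/
theorem answer_optimal (hR : Repr G s rot) (hp : darts rot s.1 ≠ [] → RotPlane rot s.1) (k cap : ℕ)
    (hcap : (2 * k + 2) ^ (3 * (2 * k + 3)) * 2 ^ (k + 1) ≤ cap) :
    Optimal G s k (answer rot s.1 k cap) := by
  classical
  have h := hR.valid
  by_cases hd : darts rot s.1 = []
  · rw [mo_answer_nil h k cap hd, hR.len]
    exact mo_optimal_nil hR k hd
  have hne : darts rot s.1 ≠ [] := hd
  have hplane := hp hne
  -- upper bound on all strategies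
  have hbest : ∀ S, IsStrategy G s k S → ∃ q, solveAll rot s.1 k cap = some q ∧
      (saved G s S).ncard ≤ q.1 + (rot.length - (comp rot s.1).length) := by
    intro S hS
    obtain ⟨i, hi, a, ha, hsv, hf⟩ := baker G s k S hS (fun v => levOf rot s.1 v.1) (levOf_s hR)
      (levOf_adj hR)
    obtain ⟨hsol, hgain⟩ := sol_of_good hR hne k i hi a ha hf
    obtain ⟨m, wit, hm, hle⟩ := solve_complete k _ rot.length cap _
      (items_ok h hplane hne k i hi) hcap (sum_weight h hne k i) _ hsol
    obtain ⟨q, hq, hmq⟩ := mo_le_solveAll hi hm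
    refine ⟨q, hq, ?_⟩
    have hcn : (comp rot s.1).length = (comp rot s.1).toFinset.card :=
      (List.toFinset_card_of_nodup comp_nodup).symm
    have h1 : (saved G s S).ncard = (Finset.univ.filter fun v : Fin n => a v ≤ k).card := by
      rw [hsv, ← Set.ncard_coe_finset]
      refine congrArg Set.ncard (Set.ext fun v => ?_)
      simp
    have h5 : (Finset.univ.filter fun v : Fin n => a v ≤ k ∧ v.1 ∈ comp rot s.1).card ≤
        ((comp rot s.1).filter fun v => decide (extF a v ≤ k)).length := by
      rw [← List.toFinset_card_of_nodup (comp_nodup.filter _),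
        ← Finset.card_map Fin.valEmbedding]
      apply Finset.card_le_card
      intro v hv
      rw [Finset.mem_map] at hv
      obtain ⟨w, hw, rfl⟩ := hv
      rw [Finset.mem_filter] at hw
      rw [List.mem_toFinset, List.mem_filter, decide_eq_true_eq]
      refine ⟨hw.2.2, ?_⟩
      rw [Fin.valEmbedding_apply, ms_extF a w.2]
      exact hw.2.1
    have h6 : (Finset.univ.filter fun v : Fin n => a v ≤ k ∧ ¬ v.1 ∈ comp rot s.1).card ≤
        n - (comp rot s.1).length := by
      have h3 : (Finset.univ.filter fun v : Fin n => v.1 ∈ comp rot s.1).card =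
          (comp rot s.1).length := by
        refine (Finset.card_map Fin.valEmbedding).symm.trans
          ((congrArg Finset.card (Finset.ext fun v => ?_)).trans hcn.symm)
        simp only [List.mem_toFinset, Finset.mem_map,
          Finset.mem_filter, Finset.mem_univ, true_and, Fin.valEmbedding_apply]
        constructor
        · rintro ⟨w, h3, rfl⟩
          exact h3
        · intro hv
          exact ⟨⟨v, ms_lt hR hv⟩, hv, rfl⟩
      have h4 := Finset.card_filter_add_card_filter_not (s := (Finset.univ : Finset (Fin n)))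
        (fun v : Fin n => v.1 ∈ comp rot s.1)
      rw [Finset.card_univ, Fintype.card_fin, h3] at h4
      have h7 : (Finset.univ.filter fun v : Fin n => a v ≤ k ∧ ¬ v.1 ∈ comp rot s.1).card ≤
          (Finset.univ.filter fun v : Fin n => ¬ v.1 ∈ comp rot s.1).card := by
        apply Finset.card_le_card
        intro v hv
        rw [Finset.mem_filter] at hv ⊢
        exact ⟨hv.1, hv.2.2⟩
      omega
    have h8 := Finset.card_filter_add_card_filter_not
      (s := Finset.univ.filter fun v : Fin n => a v ≤ k)
      (fun v : Fin n => v.1 ∈ comp rot s.1)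
    rw [Finset.filter_filter, Finset.filter_filter] at h8
    rw [hR.len, h1]
    rw [← hgain] at h5
    have h9 : m ≤ q.1 := hmq
    omega
  -- there is a strategy
  have h0 : IsStrategy G s k (fun _ => none) := by
    have hprot : protSet (fun _ : ℕ => (none : Option (Fin n))) = ∅ := by
      ext v
      simp [protSet]
    refine ⟨fun t v h1 => absurd h1 (by simp), ?_, ?_⟩
    · rw [hprot]; exact Set.finite_empty
    · rw [hprot, Set.ncard_empty]; exact Nat.zero_le _
  obtain ⟨q, hq, _⟩ := hbest _ h0
  have hans : answer rot s.1 k cap =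
      (q.1 + (rot.length - (comp rot s.1).length), stratOf q.2) := by
    unfold answer
    rw [hq]
  have hbest' : ∀ S, IsStrategy G s k S → (saved G s S).ncard ≤
      q.1 + (rot.length - (comp rot s.1).length) := by
    intro S hS
    obtain ⟨q', hq', hle⟩ := hbest S hS
    rw [hq] at hq'
    rw [Option.some.inj hq']
    exact hle
  rw [hans]
  -- the output strategy
  obtain ⟨i, hi, hsol⟩ := mo_solveAll_mem hq
  obtain ⟨a, ha, hma, hlen, _, hwit⟩ := solve_sound k _ rot.length cap _
    (items_ok h hplane hne k i hi) q.1 q.2 hsol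
  obtain ⟨a', ha', hg, ht⟩ := good_of_sol hR hne k i hi a ha
  have hS : ∀ t v, 1 ≤ t → (toS (n := n) (stratOf q.2) t = some v ↔ t ≤ k ∧ a' v = t) := by
    intro t v ht1
    rw [mo_toS]
    by_cases htk : t ≤ k
    · rw [hwit t v.1 ht1 htk, ← ht t v ht1 htk]
      exact ⟨fun h1 => ⟨htk, h1⟩, fun h1 => h1.2⟩
    · rw [List.getD_eq_default _ _ (by omega)]
      constructor
      · intro h1; omega
      · intro h1; exact absurd h1.1 htk
  obtain ⟨hst, hsub⟩ := strategy_of_good G s k a' ha' _ hS
  refine ⟨hst, le_antisymm (hbest' _ hst) ?_, hbest'⟩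
  have h1 : {v | a' v ≤ k}.ncard ≤ (saved G s (toS (n := n) (stratOf q.2))).ncard :=
    Set.ncard_le_ncard hsub (Set.toFinite _)
  rw [← hg] at h1
  rw [hR.len]
  refine le_trans ?_ h1
  exact Nat.add_le_add_right hma _

end Pool.Agent.PFire
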