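import Pool.Agent.Lib.PFire.Raw
import Pool.Agent.Lib.PolyTime.F2

/-!
# Chunk PTD: distances in polynomial time

See `Pool/Agent/Lib/PolyTime/README.md`.  Numbers are in binary; `k` is given as the length of a list `ks`,
`cap` as the length of a list `pad`.
-/

set_option autoImplicit false

namespace Pool.Agent.PFire

open Pool.Agent.PolyTime

variable {α : Type} [Enc α]

/-- Chunk PTD. -/
theorem PT_dist {κ : Type} [Enc κ] [EncInj κ] [DecidableEq κ] {E : α → List (κ × κ)} {x y : α → κ}
    (hE : PT E) (hx : PT x) (hy : PT y) : PT fun a => dist (E a) (x a) (y a) := by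
  let f : (List (κ × κ) × κ) × (List κ × ℕ) → (List (κ × κ) × κ) × (List κ × ℕ) := fun p =>
    (p.1, (PolyTime.reachStep p.1.1 p.2.1, p.2.2 + if p.1.2 ∈ p.2.1 then 0 else 1))
  have hf : PT f := by
    refine PT.pair (by fun_prop) (PT.pair ?_ (PT.add (by fun_prop) ?_))
    · exact PT.reachStep.comp (f := fun p : (List (κ × κ) × κ) × (List κ × ℕ) => (p.1.1, p.2.1))
        (by fun_prop)
    · exact PT.ite (p := fun p : (List (κ × κ) × κ) × (List κ × ℕ) => p.1.2 ∈ p.2.1)
        (PT.mem (by fun_prop) (by fun_prop)) (PT.const 0) (PT.const 1)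
  have key : ∀ n (E : List (κ × κ)) (y : κ) (q : List κ × ℕ), f^[n] ((E, y), q) =
      ((E, y), (fun p : List κ × ℕ => (reachStep E p.1, p.2 + if y ∈ p.1 then 0 else 1))^[n] q) := by
    intro n
    induction n with
    | zero => intro E y q; rfl
    | succ n ih =>
      intro E y q
      rw [Function.iterate_succ_apply, Function.iterate_succ_apply]
      exact ih _ _ _
  have hsz : ∀ (E : List (κ × κ)) (R : List κ), sz (PolyTime.reachStep E R) ≤ sz R + sz E := by
    intro E R
    unfold PolyTime.reachStep
    have h1 := sz_append R ((E.filter fun e => decide (e.1 ∈ R)).map Prod.snd)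
    have h2 : ∀ l : List (κ × κ), sz (l.map Prod.snd) ≤ sz l := by
      intro l
      induction l with
      | nil => simp
      | cons p l ih => rw [List.map_cons, sz_cons, sz_cons, sz_prod]; omega
    have h3 := h2 (E.filter fun e => decide (e.1 ∈ R))
    have h4 := sz_sublist_le (List.filter_sublist (p := fun e : κ × κ => decide (e.1 ∈ R)) (l := E))
    omega
  have hszn : ∀ n (E : List (κ × κ)) (y : κ) (q : List κ × ℕ),
      sz ((fun p : List κ × ℕ => (reachStep E p.1, p.2 + if y ∈ p.1 then 0 else 1))^[n] q).1 ≤
        sz q.1 + n * sz E ∧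
      ((fun p : List κ × ℕ => (reachStep E p.1, p.2 + if y ∈ p.1 then 0 else 1))^[n] q).2 ≤
        q.2 + n := by
    intro n
    induction n with
    | zero => intro E y q; simp
    | succ n ih =>
      intro E y q
      rw [Function.iterate_succ_apply]
      obtain ⟨h1, h2⟩ := ih E y (reachStep E q.1, q.2 + if y ∈ q.1 then 0 else 1)
      have h3 := hsz E q.1
      have h4 : (n + 1) * sz E = n * sz E + sz E := by ring
      have h5 : (if y ∈ q.1 then 0 else 1) ≤ 1 := by split_ifs <;> omega
      constructor
      · refine h1.trans ?_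
        simp only
        omega
      · refine h2.trans ?_
        simp only
        omega
  have h1 := PT.iterate_length (f := f) (s := fun a => ((E a, y a), ([x a], 0)))
    (l := fun a => (x a, x a) :: E a)
    (B := fun a => (sz (E a) + sz (y a) + 1) + ((sz (x a) + 2 + (sz (E a) + 1) * sz (E a)) +
      (4 * (sz (E a) + 1) + 1) + 1) + 1)
    hf (by fun_prop) (by fun_prop)
    (by
      refine ((((PT.bdd hE).add (PT.bdd hy)).add (PBd.const 1)).add (((((PT.bdd hx).add
        (PBd.const 2)).add (((PT.bdd hE).add (PBd.const 1)).mul (PT.bdd hE))).add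
        (((PBd.const 4).mul ((PT.bdd hE).add (PBd.const 1))).add (PBd.const 1))).add
        (PBd.const 1))).add (PBd.const 1)) (by
      intro a i hi
      rw [key, sz_pair, sz_pair, sz_prod]
      obtain ⟨h2, h3⟩ := hszn i (E a) (y a) ([x a], 0)
      simp only [sz_cons, sz_nil] at h2
      simp only [zero_add] at h3
      have h4 := length_lt_sz (E a)
      rw [List.length_cons] at hi
      have h5 : i * sz (E a) ≤ (sz (E a) + 1) * sz (E a) := Nat.mul_le_mul_right _ (by omega)
      have h6 := sz_nat_le_self (((fun p : List κ × ℕ =>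
        (reachStep (E a) p.1, p.2 + if y a ∈ p.1 then 0 else 1))^[i] ([x a], 0)).2)
      omega)
  refine (PT.snd (PT.snd h1)).congr fun a => ?_
  rw [key, List.length_cons]
  rfl

end Pool.Agent.PFire
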