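import Pool.Agent.Lib.PFire.Scheme
import Pool.Agent.Lib.PolyTime.Reach
import Pool.Agent.Lib.PolyTime.F2
import Pool.Agent.Lib.PolyTime.Subsets

/-!
# Chunk PTS: the solver in polynomial time

See `Pool/Agent/Lib/PolyTime/README.md`.  Numbers are in binary; `k` is given as the length of a list `ks`,
`cap` as the length of a list `pad`.

Sizes: the number of rows is at most `cap` after every `reduceRows`; weights are at most `N` (or the weight of
an item); the entries of a witness are bounded by the entries of the arguments (`max`) and its length does not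
grow, so the size of a witness is at most `(k + 1)` times the largest size of an entry `z + 1`.
-/

set_option autoImplicit false

namespace Pool.Agent.PFire

open Pool.Agent.PolyTime

variable {α : Type} [Enc α]

lemma pts_half {k a b : α → ℕ} (hk : PT k) (ha : PT a) (hb : PT b) :
    PT fun x => half (k x) (a x) (b x) := by
  unfold half
  refine PT.ite (by fun_prop) (by fun_prop) (PT.ite ?_ (by fun_prop) (PT.ite (by fun_prop)
    (by fun_prop) (by fun_prop)))
  exact PT.decide_eq hb (PT.const 0)

lemma pts_ok {k a b : α → ℕ} (hk : PT k) (ha : PT a) (hb : PT b) :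
    PT fun x => ok (k x) (a x) (b x) := by
  unfold ok
  exact PT.and (pts_half hk ha hb) (pts_half hk hb ha)

lemma pts_rkey {r : α → Row} (hr : PT r) : PT fun x => rkey (r x) := by
  unfold rkey
  refine PT.pair (by fun_prop) (PT.map (f := fun (_ : α) (x : ℕ) => decide (x ≠ 0)) ?_ (by fun_prop))
  exact PT.decide_not (PT.decide_eq (by fun_prop) (PT.const 0))

lemma pts_insRow {l : α → List Row} {r : α → Row} (hl : PT l) (hr : PT r) :
    PT fun x => insRow (l x) (r x) := by
  unfold insRow
  refine PT.ifBool (PT.any (f := fun x (q : Row) => decide (rkey q = rkey (r x)) &&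
    decide ((r x).2.1 ≤ q.2.1)) ?_ hl) hl ?_
  · refine PT.and (PT.decide_eq (pts_rkey (by fun_prop)) (pts_rkey (hr.comp PT.fst'))) ?_
    have h := hr.comp (PT.fst' (α := α) (β := Row))
    exact PT.decide_le (by fun_prop) (by fun_prop)
  · refine PT.cons hr (PT.filter (f := fun x (q : Row) => decide (rkey q ≠ rkey (r x))) ?_ hl)
    exact PT.decide_not (PT.decide_eq (pts_rkey (by fun_prop)) (pts_rkey (hr.comp PT.fst')))

lemma pts_sz_insRow (l : List Row) (r : Row) : sz (insRow l r) ≤ sz r + sz l + 1 := by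
  unfold insRow
  split
  · have := one_le_sz r; omega
  · rw [sz_cons]
    have := sz_sublist_le (List.filter_sublist (p := fun q : Row => decide (rkey q ≠ rkey r)) (l := l))
    omega

lemma pts_sz_foldl (l : List Row) : ∀ acc : List Row, sz (l.foldl insRow acc) + 1 ≤ sz l + sz acc := by
  induction l with
  | nil => intro acc; simp [Nat.add_comm]
  | cons r l ih =>
    intro acc
    rw [List.foldl_cons, sz_cons]
    have h1 := ih (insRow acc r)
    have h2 := pts_sz_insRow acc r
    omega

lemma pts_reduceRows {β : Type} [Enc β] {pad : α → List β} {l : α → List Row} (hp : PT pad)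
    (hl : PT l) : PT fun x => reduceRows (pad x).length (l x) := by
  unfold reduceRows
  refine PT.takeLength (PT.foldl (g := fun (_ : α) => insRow) (s := fun _ => []) ?_ (by fun_prop) hl
    (B := fun a => sz (l a)) (PT.bdd hl) ?_) hp
  · exact pts_insRow (by fun_prop) (by fun_prop)
  · intro a l1 l2 h
    have h1 := pts_sz_foldl l1 []
    rw [sz_nil] at h1
    have h2 := sz_append l1 l2
    rw [← h] at h2
    have := one_le_sz l2
    omega

lemma pts_mergeW {u v : α → List ℕ} (hu : PT u) (hv : PT v) : PT fun x => mergeW (u x) (v x) := by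
  unfold mergeW
  exact PT.zipWith (f := fun (_ : α) (a b : ℕ) => max a b) (by fun_prop) hu hv

lemma pts_disj {u v : α → List ℕ} (hu : PT u) (hv : PT v) : PT fun x => disj (u x) (v x) := by
  unfold disj
  refine PT.all (f := fun (_ : α) (b : Bool) => b) (by fun_prop) (PT.zipWith (f := fun (_ : α) (a b : ℕ) =>
    decide (a = 0) || decide (b = 0)) ?_ hu hv)
  exact PT.or (PT.decide_eq (by fun_prop) (PT.const 0)) (PT.decide_eq (by fun_prop) (PT.const 0))

lemma pts_asgVal {vs cs : α → List ℕ} {v : α → ℕ} (hvs : PT vs) (hcs : PT cs) (hv : PT v) :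
    PT fun x => asgVal (vs x) (cs x) (v x) := by
  unfold asgVal
  exact PT.optGetD (PT.lookup hv (PT.zip hvs hcs)) (PT.const 0)

lemma pts_joinTab {β : Type} [Enc β] {N : α → ℕ} {pad : α → List β} {vs cs : α → List ℕ}
    {acc : α → List Row} {T : α → Tab} (hN : PT N) (hp : PT pad) (hvs : PT vs) (hcs : PT cs)
    (hacc : PT acc) (hT : PT T) :
    PT fun x => joinTab (N x) (pad x).length (vs x) (cs x) (acc x) (T x) := by
  unfold joinTab
  refine pts_reduceRows hp (PT.flatMap (f := fun x (p : Row) =>
    ((T x).2.filter fun r => decide (r.1 = (T x).1.map fun v => asgVal (vs x) (cs x) v) &&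
      disj p.2.2 r.2.2).map fun r => (p.1, (min (N x) (p.2.1 + r.2.1), mergeW p.2.2 r.2.2))) ?_ hacc)
  have hN1 := hN.comp (PT.fst' (α := α) (β := Row))
  have hvs1 := hvs.comp (PT.fst' (α := α) (β := Row))
  have hcs1 := hcs.comp (PT.fst' (α := α) (β := Row))
  have hT1 := hT.comp (PT.fst' (α := α) (β := Row))
  refine PT.map (f := fun (y : α × Row) (r : Row) =>
    ((y.2.1, (min (N y.1) (y.2.2.1 + r.2.1), mergeW y.2.2.2 r.2.2)) : Row)) ?_
    (PT.filter (f := fun (y : α × Row) (r : Row) =>
      decide (r.1 = (T y.1).1.map fun v => asgVal (vs y.1) (cs y.1) v) && disj y.2.2.2 r.2.2) ?_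
      (by fun_prop))
  · have hN2 := hN1.comp (PT.fst' (α := α × Row) (β := Row))
    exact PT.pair (by fun_prop) (PT.pair (by fun_prop) (pts_mergeW (by fun_prop) (by fun_prop)))
  · have hvs2 := hvs1.comp (PT.fst' (α := α × Row) (β := Row))
    have hcs2 := hcs1.comp (PT.fst' (α := α × Row) (β := Row))
    have hT2 := hT1.comp (PT.fst' (α := α × Row) (β := Row))
    refine PT.and (PT.decide_eq (by fun_prop) (PT.map (f := fun (z : (α × Row) × Row) (v : ℕ) =>
      asgVal (vs z.1.1) (cs z.1.1) v) ?_ (by fun_prop))) (pts_disj (by fun_prop) (by fun_prop))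
    exact pts_asgVal (hvs2.comp PT.fst') (hcs2.comp PT.fst') (by fun_prop)

/-! ### Sizes -/

/-- bounds for the parts of a row -/
def PtsRB (A W L E : ℕ) (r : Row) : Prop :=
  sz r.1 ≤ A ∧ sz r.2.1 ≤ W ∧ r.2.2.length ≤ L ∧ ∀ x ∈ r.2.2, sz x ≤ E

lemma PtsRB.sz {A W L E : ℕ} {r : Row} (h : PtsRB A W L E r) :
    sz r ≤ A + W + (L * (E + 1) + 1) + 2 := by
  obtain ⟨h1, h2, h3, h4⟩ := h
  have h5 := sz_list_le h4
  have h6 : r.2.2.length * (E + 1) ≤ L * (E + 1) := Nat.mul_le_mul_right _ h3
  rw [sz_prod, sz_prod]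
  omega

lemma pts_mem_insRow {l : List Row} {r q : Row} (h : q ∈ insRow l r) : q = r ∨ q ∈ l := by
  unfold insRow at h
  split at h
  · exact Or.inr h
  · rw [List.mem_cons] at h
    rcases h with h | h
    · exact Or.inl h
    · exact Or.inr (List.mem_of_mem_filter h)

lemma pts_mem_foldl {q : Row} (l : List Row) : ∀ acc : List Row, q ∈ l.foldl insRow acc →
    q ∈ l ∨ q ∈ acc := by
  induction l with
  | nil => intro acc h; exact Or.inr h
  | cons r l ih =>
    intro acc h
    rw [List.foldl_cons] at h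
    rcases ih _ h with h1 | h1
    · exact Or.inl (List.mem_cons_of_mem _ h1)
    · rcases pts_mem_insRow h1 with h2 | h2
      · exact Or.inl (h2 ▸ List.mem_cons_self)
      · exact Or.inr h2

lemma pts_mem_reduceRows {cap : ℕ} {l : List Row} {q : Row} (h : q ∈ reduceRows cap l) : q ∈ l := by
  unfold reduceRows at h
  rcases pts_mem_foldl l [] (List.mem_of_mem_take h) with h1 | h1
  · exact h1
  · exact absurd h1 (by simp)

lemma pts_length_reduceRows (cap : ℕ) (l : List Row) : (reduceRows cap l).length ≤ cap := by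
  unfold reduceRows
  rw [List.length_take]
  exact min_le_left _ _

lemma pts_sz_max (a b E : ℕ) (ha : sz a ≤ E) (hb : sz b ≤ E) : sz (max a b) ≤ E := by
  rcases max_choice a b with h | h <;> rw [h] <;> assumption

lemma pts_mergeW_bd {w1 w2 : List ℕ} {E : ℕ} (h1 : ∀ x ∈ w1, sz x ≤ E) (h2 : ∀ x ∈ w2, sz x ≤ E) :
    (∀ x ∈ mergeW w1 w2, sz x ≤ E) ∧ (mergeW w1 w2).length ≤ w1.length := by
  unfold mergeW
  refine ⟨?_, ?_⟩
  · intro x hx
    rw [List.mem_iff_getElem] at hx
    obtain ⟨i, hi, rfl⟩ := hx
    rw [List.getElem_zipWith]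
    exact pts_sz_max _ _ _ (h1 _ (List.getElem_mem _)) (h2 _ (List.getElem_mem _))
  · rw [List.length_zipWith]
    exact min_le_left _ _

lemma pts_joinTab_bd {N cap A W L E : ℕ} (hW : 4 * sz N ≤ W) {vs cs : List ℕ} {acc : List Row} {T : Tab}
    (hacc : ∀ r ∈ acc, PtsRB A W L E r) (hT : ∀ r ∈ T.2, ∀ x ∈ r.2.2, sz x ≤ E) :
    (joinTab N cap vs cs acc T).length ≤ cap ∧
      ∀ r ∈ joinTab N cap vs cs acc T, PtsRB A W L E r := by
  unfold joinTab
  refine ⟨pts_length_reduceRows _ _, ?_⟩
  intro r hr
  have h1 := pts_mem_reduceRows hr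
  rw [List.mem_flatMap] at h1
  obtain ⟨p, hp, h2⟩ := h1
  rw [List.mem_map] at h2
  obtain ⟨q, hq, rfl⟩ := h2
  obtain ⟨a1, a2, a3, a4⟩ := hacc p hp
  have h3 := pts_mergeW_bd a4 (hT q (List.mem_of_mem_filter hq))
  exact ⟨a1, (sz_nat_le_of_le (min_le_left _ _)).trans hW, h3.2.trans a3, h3.1⟩

lemma pts_foldJoin_bd {N cap A W L E : ℕ} (hW : 4 * sz N ≤ W) {vs cs : List ℕ} (inv : List Tab) :
    ∀ acc : List Row, (∀ r ∈ acc, PtsRB A W L E r) → (∀ T ∈ inv, ∀ r ∈ T.2, ∀ x ∈ r.2.2, sz x ≤ E) →
      (inv.foldl (joinTab N cap vs cs) acc).length ≤ max cap acc.length ∧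
      ∀ r ∈ inv.foldl (joinTab N cap vs cs) acc, PtsRB A W L E r := by
  induction inv with
  | nil => intro acc h1 _; exact ⟨le_max_right _ _, h1⟩
  | cons T inv ih =>
    intro acc h1 h2
    rw [List.foldl_cons]
    have h3 := pts_joinTab_bd (vs := vs) (cs := cs) (cap := cap) hW h1 (h2 T List.mem_cons_self)
    have h4 := ih (joinTab N cap vs cs acc T) h3.2 (fun T' hT' => h2 T' (List.mem_cons_of_mem _ hT'))
    refine ⟨h4.1.trans ?_, h4.2⟩
    have := h3.1
    omega

lemma pts_sz_rows {l : List Row} {A W L E M : ℕ} (hl : l.length ≤ M)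
    (h : ∀ r ∈ l, PtsRB A W L E r) : sz l ≤ M * (A + W + (L * (E + 1) + 1) + 3) + 1 := by
  have h1 := sz_list_le (fun r hr => (h r hr).sz)
  have h2 : l.length * (A + W + (L * (E + 1) + 1) + 2 + 1) ≤ M * (A + W + (L * (E + 1) + 1) + 3) :=
    Nat.mul_le_mul hl (le_refl _)
  omega

lemma pts_row_le {l : List Row} {r : Row} (hr : r ∈ l) :
    sz r.1 ≤ sz l ∧ sz r.2.1 ≤ sz l ∧ r.2.2.length ≤ sz l ∧ ∀ x ∈ r.2.2, sz x ≤ sz l := by
  have h1 := sz_le_of_mem hr
  rw [sz_prod, sz_prod] at h1
  refine ⟨by omega, by omega, ?_, ?_⟩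
  · have := length_lt_sz r.2.2; omega
  · intro x hx
    have := sz_le_of_mem hx
    omega

/-- the fold of `joinTab` -/
lemma pts_foldJoin {β : Type} [Enc β] {N : α → ℕ} {pad : α → List β} {vs cs : α → List ℕ}
    {acc : α → List Row} {inv : α → List Tab} (hN : PT N) (hp : PT pad) (hvs : PT vs) (hcs : PT cs)
    (hacc : PT acc) (hinv : PT inv) :
    PT fun x => (inv x).foldl (joinTab (N x) (pad x).length (vs x) (cs x)) (acc x) := by
  refine PT.foldl (g := fun x (s : List Row) (T : Tab) =>
    joinTab (N x) (pad x).length (vs x) (cs x) s T) ?_ hacc hinv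
    (B := fun x => (sz (pad x) + sz (acc x)) * (sz (acc x) + (sz (acc x) + 4 * sz (N x)) +
      (sz (acc x) * ((sz (acc x) + sz (inv x)) + 1) + 1) + 3) + 1) ?_ ?_
  · have e : PT (Prod.fst : α × List Row × Tab → α) := PT.fst'
    exact pts_joinTab (hN.comp e) (hp.comp e) (hvs.comp e) (hcs.comp e) (by fun_prop) (by fun_prop)
  · have a1 := PT.bdd hacc
    have a2 := PT.bdd hN
    have a3 := PT.bdd hinv
    have a4 := PT.bdd hp
    exact ((a4.add a1).mul (((a1.add (a1.add ((PBd.const 4).mul a2))).add ((a1.mul ((a1.add a3).add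
      (PBd.const 1))).add (PBd.const 1))).add (PBd.const 3))).add (PBd.const 1)
  · intro x l1 l2 h
    have hb := pts_foldJoin_bd (N := N x) (cap := (pad x).length) (A := sz (acc x))
      (W := sz (acc x) + 4 * sz (N x)) (L := sz (acc x)) (E := sz (acc x) + sz (inv x))
      (vs := vs x) (cs := cs x) (by omega) l1 (acc x) (by
        intro r hr
        obtain ⟨h1, h2, h3, h4⟩ := pts_row_le hr
        exact ⟨h1, by omega, h3, fun x hx => by have := h4 x hx; omega⟩) (by
        intro T hT r hr y hy
        have hT' : T ∈ inv x := by rw [h]; exact List.mem_append_left _ hT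
        have h1 := sz_le_of_mem hT'
        obtain ⟨_, _, _, h4⟩ := pts_row_le hr
        have := h4 y hy
        rw [sz_prod] at h1
        omega)
    refine pts_sz_rows (hb.1.trans ?_) hb.2
    have h1 := length_lt_sz (pad x)
    have h2 := length_lt_sz (acc x)
    omega

lemma pts_unitW {ks : α → List Unit} {z c : α → ℕ} (hk : PT ks) (hz : PT z) (hc : PT c) :
    PT fun x => unitW (ks x).length (z x) (c x) := by
  unfold unitW
  have h := PT.tabulate (m := fun x => () :: ks x)
    (f := fun x t => if t = c x ∧ 1 ≤ t then z x + 1 else 0) (by fun_prop) ?_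
  · exact h
  · have e : PT (Prod.fst : α × ℕ → α) := PT.fst'
    refine PT.ite (p := fun y : α × ℕ => y.2 = c y.1 ∧ 1 ≤ y.2) (PT.decide_and
      (PT.decide_eq (by fun_prop) (hc.comp e)) (by fun_prop)) (PT.succ (hz.comp e)) (PT.const 0)

lemma pts_elimOne {β : Type} [Enc β] {ks : α → List Unit} {N : α → ℕ} {pad : α → List β}
    {it : α → Item} {inv : α → List Tab} {f : α → List ℕ} {c : α → ℕ} (hk : PT ks) (hN : PT N)
    (hp : PT pad) (hit : PT it) (hinv : PT inv) (hf : PT f) (hc : PT c) :
    PT fun x => elimOne (ks x).length (N x) (pad x).length (it x) (inv x) (f x) (c x) := by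
  unfold elimOne
  have hz : PT fun x => (it x).z := PT.fst hit
  have hb : PT fun x => (it x).bag := PT.fst (PT.snd hit)
  have hnb : PT fun x => (it x).nb := PT.fst (PT.snd (PT.snd hit))
  have hw : PT fun x => (it x).w := PT.snd (PT.snd (PT.snd (PT.snd hit)))
  refine PT.ifBool (PT.all (f := fun x y => ok (ks x).length (c x) (asgVal (it x).bag (f x) y)) ?_ hnb)
    (pts_foldJoin hN hp (PT.cons hz hb) (PT.cons hc hf) ?_ hinv) (PT.const [])
  · have e : PT (Prod.fst : α × ℕ → α) := PT.fst'
    exact pts_ok (PT.length (hk.comp e)) (hc.comp e) (pts_asgVal (hb.comp e) (hf.comp e) (by fun_prop))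
  · refine PT.cons (PT.pair hf (PT.pair (PT.ite (p := fun x => c x ≤ (ks x).length)
      (PT.decide_le hc (PT.length hk)) (PT.min hN hw) (PT.const 0)) (pts_unitW hk hz hc))) (PT.const [])

/-! ### Assignments -/

lemma pts_asgs_bd (k cap : ℕ) (E : ℕ) (hE : ∀ c < 2 * k + 2, sz c ≤ E) (S : List ℕ) :
    (∀ f ∈ asgs k cap S, f.length = S.length ∧ ∀ c ∈ f, sz c ≤ E) ∧ (asgs k cap S).length ≤ cap + 1 := by
  unfold asgs
  induction S using List.reverseRecOn with
  | nil =>
    refine ⟨?_, by simp⟩
    intro f hf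
    rw [List.foldl_nil, List.mem_singleton] at hf
    subst hf
    exact ⟨rfl, fun c hc => absurd hc (by simp)⟩
  | append_singleton S z ih =>
    rw [List.foldl_append, List.foldl_cons, List.foldl_nil]
    refine ⟨?_, ?_⟩
    · intro f hf
      have h1 := List.mem_of_mem_take hf
      rw [List.mem_flatMap] at h1
      obtain ⟨g, hg, h2⟩ := h1
      rw [List.mem_map] at h2
      obtain ⟨c, hc, rfl⟩ := h2
      rw [List.mem_range] at hc
      obtain ⟨h3, h4⟩ := ih.1 g hg
      refine ⟨?_, ?_⟩
      · rw [List.length_cons, h3, List.length_append, List.length_singleton]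
      · intro c' hc'
        rw [List.mem_cons] at hc'
        rcases hc' with rfl | hc'
        · exact hE _ hc
        · exact h4 _ hc'
    · rw [List.length_take]
      omega

lemma pts_sz_asgs (k cap E : ℕ) (hE : ∀ c < 2 * k + 2, sz c ≤ E) (S : List ℕ) :
    sz (asgs k cap S) ≤ (cap + 1) * (S.length * (E + 1) + 2) + 1 := by
  obtain ⟨h1, h2⟩ := pts_asgs_bd k cap E hE S
  have h3 := sz_list_le (l := asgs k cap S) (B := S.length * (E + 1) + 1) (by
    intro f hf
    obtain ⟨h4, h5⟩ := h1 f hf
    have h6 := sz_list_le h5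
    rwa [h4] at h6)
  have h4 : (asgs k cap S).length * (S.length * (E + 1) + 1 + 1) ≤
    (cap + 1) * (S.length * (E + 1) + 2) := Nat.mul_le_mul h2 (le_refl _)
  omega

lemma pts_E (k : ℕ) : ∀ c < 2 * k + 2, sz c ≤ 8 * k + 9 := by
  intro c hc
  have := sz_nat_le_self c
  omega

lemma pts_asgs {β : Type} [Enc β] {ks : α → List Unit} {pad : α → List β} {S : α → List ℕ}
    (hk : PT ks) (hp : PT pad) (hS : PT S) :
    PT fun x => asgs (ks x).length (pad x).length (S x) := by
  have h := PT.foldl (g := fun x (acc : List (List ℕ)) (_ : ℕ) =>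
      (acc.flatMap fun f => (List.range (2 * (ks x).length + 2)).map fun c => c :: f).take
        (pad x).length) (s := fun _ => ([[]] : List (List ℕ))) (l := S) ?_ (by fun_prop) hS
    (B := fun x => (sz (pad x) + 1) * (sz (S x) * ((8 * sz (ks x) + 9) + 1) + 2) + 1) ?_ ?_
  · exact h
  · have e : PT (Prod.fst : α × List (List ℕ) × ℕ → α) := PT.fst'
    refine PT.takeLength (PT.flatMap (f := fun (y : α × List (List ℕ) × ℕ) (f : List ℕ) =>
      (List.range (2 * (ks y.1).length + 2)).map fun c => c :: f) ?_ (by fun_prop)) (hp.comp e)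
    have hk1 := (hk.comp e).comp (PT.fst' (α := α × List (List ℕ) × ℕ) (β := List ℕ))
    have h1 := PT.tabulate (m := fun z : (α × List (List ℕ) × ℕ) × List ℕ =>
      () :: () :: (ks z.1.1 ++ ks z.1.1)) (f := fun z c => c :: z.2) (by fun_prop) (by fun_prop)
    refine h1.congr fun z => ?_
    have : (() :: () :: (ks z.1.1 ++ ks z.1.1)).length = 2 * (ks z.1.1).length + 2 := by
      rw [List.length_cons, List.length_cons, List.length_append]; omega
    rw [this]
  · have a1 := PT.bdd hp
    have a2 := PT.bdd hS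
    have a3 := PT.bdd hk
    exact ((a1.add (PBd.const 1)).mul ((a2.mul ((((PBd.const 8).mul a3).add (PBd.const 9)).add
      (PBd.const 1))).add (PBd.const 2))).add (PBd.const 1)
  · intro x l1 l2 h
    have h1 := pts_sz_asgs (ks x).length (pad x).length _ (pts_E _) l1
    unfold asgs at h1
    refine h1.trans ?_
    have h2 := length_lt_sz (pad x)
    have h3 := length_lt_sz (ks x)
    have h4 : l1.length ≤ sz (S x) := by
      have := length_lt_sz (S x)
      rw [h, List.length_append] at this
      rw [h]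
      omega
    have h5 : l1.length * (8 * (ks x).length + 9 + 1) ≤ sz (S x) * ((8 * sz (ks x) + 9) + 1) :=
      Nat.mul_le_mul h4 (by omega)
    have h6 : ((pad x).length + 1) * (l1.length * (8 * (ks x).length + 9 + 1) + 2) ≤
        (sz (pad x) + 1) * (sz (S x) * ((8 * sz (ks x) + 9) + 1) + 2) :=
      Nat.mul_le_mul (by omega) (by omega)
    omega

lemma pts_elimStep {β : Type} [Enc β] {ks : α → List Unit} {N : α → ℕ} {pad : α → List β}
    {tabs : α → List Tab} {it : α → Item} (hk : PT ks) (hN : PT N) (hp : PT pad) (ht : PT tabs)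
    (hit : PT it) :
    PT fun x => elimStep (ks x).length (N x) (pad x).length (tabs x) (it x) := by
  unfold elimStep
  have hz : PT fun x => (it x).z := PT.fst hit
  have hb : PT fun x => (it x).bag := PT.fst (PT.snd hit)
  have hd : PT fun x => (it x).dom := PT.fst (PT.snd (PT.snd (PT.snd hit)))
  have e : PT (Prod.fst : α × Tab → α) := PT.fst'
  refine PT.cons (PT.pair hb (pts_reduceRows hp (PT.flatMap (f := fun x f => (it x).dom.flatMap fun c =>
    elimOne (ks x).length (N x) (pad x).length (it x) ((tabs x).filter fun T => decide ((it x).z ∈ T.1))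
      f c) ?_ (pts_asgs hk hp hb))))
    (PT.filter (f := fun x (T : Tab) => decide ((it x).z ∉ T.1)) ?_ ht)
  · have e1 : PT (Prod.fst : α × List ℕ → α) := PT.fst'
    refine PT.flatMap (f := fun (y : α × List ℕ) c =>
      elimOne (ks y.1).length (N y.1) (pad y.1).length (it y.1)
        ((tabs y.1).filter fun T => decide ((it y.1).z ∈ T.1)) y.2 c) ?_ (hd.comp e1)
    have e2 : PT (fun z : (α × List ℕ) × ℕ => z.1.1) := by fun_prop
    refine pts_elimOne (hk.comp e2) (hN.comp e2) (hp.comp e2) (hit.comp e2) ?_ (by fun_prop)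
      (by fun_prop)
    have h := PT.filter (f := fun x (T : Tab) => decide ((it x).z ∈ T.1)) (l := tabs)
      (PT.mem (hz.comp e) (by fun_prop)) ht
    exact h.comp e2
  · exact PT.decide_not (PT.mem (hz.comp e) (by fun_prop))

lemma pts_sz_zero : sz (0 : ℕ) = 1 := by
  have := sz_nat_le_self 0
  have := one_le_sz (0 : ℕ)
  omega

lemma pts_elimOne_bd {k N cap A W L E : ℕ} {it : Item} {inv : List Tab} {f : List ℕ} {c : ℕ}
    (hW : 4 * sz N + 1 ≤ W) (hL : k + 1 ≤ L) (hE : sz (it.z + 1) ≤ E) (hf : sz f ≤ A)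
    (hinv : ∀ T ∈ inv, ∀ r ∈ T.2, ∀ x ∈ r.2.2, sz x ≤ E) :
    ∀ r ∈ elimOne k N cap it inv f c, PtsRB A W L E r := by
  intro r hr
  unfold elimOne at hr
  split at hr
  · refine (pts_foldJoin_bd (N := N) (cap := cap) (A := A) (W := W) (L := L) (E := E)
      (vs := it.z :: it.bag) (cs := c :: f) (by omega) inv _ ?_ hinv).2 r hr
    intro q hq
    rw [List.mem_singleton] at hq
    subst hq
    refine ⟨hf, ?_, ?_, ?_⟩
    · change sz (if c ≤ k then min N it.w else 0) ≤ W
      split
      · have := sz_nat_le_of_le (min_le_left N it.w)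
        omega
      · rw [pts_sz_zero]; omega
    · change (unitW k it.z c).length ≤ L
      unfold unitW
      rw [List.length_map, List.length_range]
      exact hL
    · intro x hx
      change x ∈ unitW k it.z c at hx
      unfold unitW at hx
      rw [List.mem_map] at hx
      obtain ⟨t, _, rfl⟩ := hx
      split
      · exact hE
      · rw [pts_sz_zero]
        have := one_le_sz (it.z + 1)
        omega
  · exact absurd hr (by simp)

/-- bound for a list of tables -/
def PtsTB (cap S A W L E : ℕ) (tabs : List Tab) : Prop :=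
  ∀ T ∈ tabs, sz T.1 ≤ S ∧ T.2.length ≤ cap ∧ ∀ r ∈ T.2, PtsRB A W L E r

lemma pts_elimStep_bd {k N cap S A W L E : ℕ} {it : Item} {tabs : List Tab}
    (hW : 4 * sz N + 1 ≤ W) (hL : k + 1 ≤ L) (hE : sz (it.z + 1) ≤ E) (hS : sz it.bag ≤ S)
    (hA : it.bag.length * (8 * k + 10) + 1 ≤ A) (ht : PtsTB cap S A W L E tabs) :
    PtsTB cap S A W L E (elimStep k N cap tabs it) ∧
      (elimStep k N cap tabs it).length ≤ tabs.length + 1 := by
  unfold elimStep
  refine ⟨?_, ?_⟩
  · intro T hT
    rw [List.mem_cons] at hT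
    rcases hT with rfl | hT
    · refine ⟨hS, pts_length_reduceRows _ _, ?_⟩
      intro r hr
      have h1 := pts_mem_reduceRows hr
      rw [List.mem_flatMap] at h1
      obtain ⟨f, hf, h2⟩ := h1
      rw [List.mem_flatMap] at h2
      obtain ⟨c, _, h3⟩ := h2
      refine pts_elimOne_bd hW hL hE ?_ ?_ r h3
      · obtain ⟨h4, h5⟩ := (pts_asgs_bd k cap _ (pts_E k) it.bag).1 f hf
        have h6 := sz_list_le h5
        rw [h4] at h6
        exact h6.trans hA
      · intro T' hT' q hq x hx
        exact ((ht T' (List.mem_of_mem_filter hT')).2.2 q hq).2.2.2 x hx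
    · exact ht T (List.mem_of_mem_filter hT)
  · rw [List.length_cons]
    have := List.length_filter_le (fun T : Tab => decide (it.z ∉ T.1)) tabs
    omega

lemma pts_foldElim_bd {k N cap S A W L E : ℕ} (hW : 4 * sz N + 1 ≤ W) (hL : k + 1 ≤ L)
    (its : List Item) : ∀ tabs : List Tab,
    (∀ it ∈ its, sz (it.z + 1) ≤ E ∧ sz it.bag ≤ S ∧ it.bag.length * (8 * k + 10) + 1 ≤ A) →
    PtsTB cap S A W L E tabs →
    PtsTB cap S A W L E (its.foldl (elimStep k N cap) tabs) ∧
      (its.foldl (elimStep k N cap) tabs).length ≤ tabs.length + its.length := by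
  induction its with
  | nil => intro tabs _ h; exact ⟨h, le_refl _⟩
  | cons it its ih =>
    intro tabs h1 h2
    rw [List.foldl_cons]
    obtain ⟨a1, a2, a3⟩ := h1 it List.mem_cons_self
    have h3 := pts_elimStep_bd hW hL a1 a2 a3 h2
    have h4 := ih (elimStep k N cap tabs it) (fun it' h' => h1 it' (List.mem_cons_of_mem _ h')) h3.1
    refine ⟨h4.1, ?_⟩
    rw [List.length_cons]
    have := h4.2
    have := h3.2
    omega

lemma pts_sz_tabs {cap S A W L E M : ℕ} {tabs : List Tab} (h : PtsTB cap S A W L E tabs)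
    (hM : tabs.length ≤ M) :
    sz tabs ≤ M * (S + (cap * (A + W + (L * (E + 1) + 1) + 3) + 1) + 2) + 1 := by
  have h1 := sz_list_le (l := tabs) (B := S + (cap * (A + W + (L * (E + 1) + 1) + 3) + 1) + 1) (by
    intro T hT
    obtain ⟨h1, h2, h3⟩ := h T hT
    have h4 := pts_sz_rows h2 h3
    rw [sz_prod]
    omega)
  have h2 : tabs.length * (S + (cap * (A + W + (L * (E + 1) + 1) + 3) + 1) + 1 + 1) ≤
    M * (S + (cap * (A + W + (L * (E + 1) + 1) + 3) + 1) + 2) := Nat.mul_le_mul hM (le_refl _)
  omega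

lemma pts_sz_succ (z : ℕ) : sz (z + 1) ≤ 4 * sz z + 9 := by
  have h1 := sz_nat_le (z + 1)
  have h2 := size_add_le z 1
  have h3 := size_lt_sz z
  have h4 : Nat.size 1 = 1 := by decide
  omega

lemma pts_foldElim {β : Type} [Enc β] {ks : α → List Unit} {N : α → ℕ} {pad : α → List β}
    {its : α → List Item} (hk : PT ks) (hN : PT N) (hp : PT pad) (hi : PT its) :
    PT fun x => (its x).foldl (elimStep (ks x).length (N x) (pad x).length) [] := by
  refine PT.foldl (g := fun x (s : List Tab) (it : Item) =>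
    elimStep (ks x).length (N x) (pad x).length s it) ?_ (by fun_prop) hi
    (B := fun x => sz (its x) * (sz (its x) + (sz (pad x) * ((sz (its x) * (8 * sz (ks x) + 10) + 1) +
      (4 * sz (N x) + 1) + ((sz (ks x) + 1) * ((4 * sz (its x) + 9) + 1) + 1) + 3) + 1) + 2) + 1) ?_ ?_
  · have e : PT (Prod.fst : α × List Tab × Item → α) := PT.fst'
    exact pts_elimStep (hk.comp e) (hN.comp e) (hp.comp e) (by fun_prop) (by fun_prop)
  · have a1 := PT.bdd hk
    have a2 := PT.bdd hN
    have a3 := PT.bdd hp
    have a4 := PT.bdd hi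
    have c : ∀ n : ℕ, PBd (fun _ : α => n) := fun n => PBd.const n
    exact (a4.mul ((a4.add ((a3.mul ((((a4.mul (((c 8).mul a1).add (c 10))).add (c 1)).add
      (((c 4).mul a2).add (c 1))).add (((a1.add (c 1)).mul ((((c 4).mul a4).add (c 9)).add
      (c 1))).add (c 1)) |>.add (c 3))).add (c 1))).add (c 2))).add (c 1)
  · intro x l1 l2 h
    have hk1 := length_lt_sz (ks x)
    have hb := pts_foldElim_bd (k := (ks x).length) (N := N x) (cap := (pad x).length)
      (S := sz (its x)) (A := sz (its x) * (8 * sz (ks x) + 10) + 1) (W := 4 * sz (N x) + 1)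
      (L := sz (ks x) + 1) (E := 4 * sz (its x) + 9) (le_refl _) (by omega) l1 [] (by
        intro it hit
        have hit' : it ∈ its x := by rw [h]; exact List.mem_append_left _ hit
        have h1 := sz_le_of_mem hit'
        have h2 : sz it = sz it.z + (sz it.bag + (sz it.nb + (sz it.dom + sz it.w + 1) + 1) + 1) + 1 := by
          rw [sz_prod, sz_prod, sz_prod, sz_prod]
          rfl
        have h3 := pts_sz_succ it.z
        refine ⟨by omega, by omega, ?_⟩
        have h4 := length_lt_sz it.bag
        have h5 : it.bag.length * (8 * (ks x).length + 10) ≤ sz (its x) * (8 * sz (ks x) + 10) :=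
          Nat.mul_le_mul (by omega) (by omega)
        omega) (fun T hT => absurd hT (by simp))
    have h1 : l1.length ≤ sz (its x) := by
      have := length_lt_sz (its x)
      rw [h, List.length_append] at this
      rw [h]
      omega
    have h2 := pts_sz_tabs hb.1 (M := sz (its x)) (by
      have := hb.2
      rw [List.length_nil] at this
      omega)
    refine h2.trans ?_
    have h3 := length_lt_sz (pad x)
    have h4 : (pad x).length * ((sz (its x) * (8 * sz (ks x) + 10) + 1) + (4 * sz (N x) + 1) +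
        ((sz (ks x) + 1) * (4 * sz (its x) + 9 + 1) + 1) + 3) ≤
        sz (pad x) * ((sz (its x) * (8 * sz (ks x) + 10) + 1) + (4 * sz (N x) + 1) +
        ((sz (ks x) + 1) * (4 * sz (its x) + 9 + 1) + 1) + 3) := Nat.mul_le_mul_right _ h3.le
    have h5 := Nat.mul_le_mul_left (sz (its x)) (show sz (its x) + ((pad x).length *
        ((sz (its x) * (8 * sz (ks x) + 10) + 1) + (4 * sz (N x) + 1) +
        ((sz (ks x) + 1) * (4 * sz (its x) + 9 + 1) + 1) + 3) + 1) + 2 ≤
        sz (its x) + (sz (pad x) * ((sz (its x) * (8 * sz (ks x) + 10) + 1) + (4 * sz (N x) + 1) +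
        ((sz (ks x) + 1) * (4 * sz (its x) + 9 + 1) + 1) + 3) + 1) + 2 by omega)
    omega

/-! ### The best row -/

/-- one step of `bestRow` -/
def ptsBest (o : Option Row) (r : Row) : Option Row :=
  match o with
  | none => some r
  | some q => if q.2.1 < r.2.1 then some r else some q

lemma pts_best_mem (l : List Row) : ∀ o : Option Row, ∀ q, l.foldl ptsBest o = some q →
    q ∈ l ∨ o = some q := by
  induction l with
  | nil => intro o q h; exact Or.inr h
  | cons r l ih =>
    intro o q h
    rw [List.foldl_cons] at h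
    rcases ih _ q h with h1 | h1
    · exact Or.inl (List.mem_cons_of_mem _ h1)
    · cases o with
      | none =>
        simp only [ptsBest, Option.some.injEq] at h1
        exact Or.inl (h1 ▸ List.mem_cons_self)
      | some q' =>
        simp only [ptsBest] at h1
        split at h1
        · simp only [Option.some.injEq] at h1
          exact Or.inl (h1 ▸ List.mem_cons_self)
        · exact Or.inr h1

lemma pts_bestRow {l : α → List Row} (hl : PT l) : PT fun x => bestRow (l x) := by
  unfold bestRow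
  have h := PT.foldl (g := fun (_ : α) => ptsBest) (s := fun _ => none) (l := l) ?_ (by fun_prop) hl
    (B := fun x => sz (l x) + 2) ((PT.bdd hl).add (PBd.const 2)) ?_
  · exact h
  · refine PT.congr (PT.optionCases (o := fun p : α × Option Row × Row => p.2.1)
      (f := fun p => some p.2.2) (g := fun p q => if q.2.1 < p.2.2.2.1 then some p.2.2 else some q)
      (by fun_prop) (by fun_prop) ?_) (fun p => ?_)
    · exact PT.ite (p := fun y : (α × Option Row × Row) × Row => y.2.2.1 < y.1.2.2.2.1)
        (by fun_prop) (by fun_prop) (by fun_prop)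
    · rcases p with ⟨a, o, r⟩
      cases o <;> rfl
  · intro x l1 l2 h
    rcases h1 : l1.foldl ptsBest none with _ | q
    · rw [sz_none]; omega
    · rcases pts_best_mem l1 none q h1 with h2 | h2
      · have h3 : q ∈ l x := by rw [h]; exact List.mem_append_left _ h2
        have := sz_le_of_mem h3
        rw [sz_some]
        omega
      · exact absurd h2 (by simp)

/-- Chunk PTS. -/
theorem PT_solve {ks pad : α → List Unit} {N : α → ℕ} {its : α → List Item}
    (hk : PT ks) (hp : PT pad) (hN : PT N) (hi : PT its) :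
    PT fun a => solve (ks a).length (N a) (pad a).length (its a) := by
  unfold solve
  refine PT.optMap (f := fun (_ : α) (r : Row) => r.2) (by fun_prop) (pts_bestRow (pts_foldJoin hN hp
    (PT.const []) (PT.const []) ?_ (pts_foldElim hk hN hp hi)))
  exact PT.cons (PT.pair (PT.const []) (PT.pair (PT.const 0) (pts_unitW hk (PT.const 0)
    (PT.succ (PT.length hk))))) (PT.const [])

end Pool.Agent.PFire
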