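import Pool.Agent.Lib.PFire.Alg
import Pool.Agent.Lib.PFire.PTDist
import Pool.Agent.Lib.PFire.PTSolver
import Pool.Agent.Lib.PolyTime.PL

/-!
# Chunk PTA: the algorithm in polynomial time

See `Pool/Agent/Lib/PolyTime/README.md`.  Numbers are in binary; `k` is given as the length of a list `ks`,
`cap` as the length of a list `pad`.
-/

set_option autoImplicit false

namespace Pool.Agent.PFire

open Pool.Agent.PolyTime

variable {α : Type} [Enc α]

section Raw

variable {rot : α → Rot} {s : α → ℕ}

lemma PTA_nbrs {v : α → ℕ} (hr : PT rot) (hv : PT v) : PT fun a => nbrs (rot a) (v a) := by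
  unfold nbrs
  exact PT.getD hr hv (PT.const [])

lemma PTA_allDarts (hr : PT rot) : PT fun a => allDarts (rot a) := by
  unfold allDarts
  refine PT.flatMap (f := fun a u => (nbrs (rot a) u).map fun v => (u, v)) ?_ (PT.rangeLength hr)
  refine PT.map (f := fun (p : α × ℕ) (v : ℕ) => (p.2, v)) (by fun_prop) ?_
  exact PTA_nbrs (hr.comp (by fun_prop)) (by fun_prop)

lemma PTA_comp (hr : PT rot) (hs : PT s) : PT fun a => comp (rot a) (s a) := by
  unfold comp
  refine PT.filter (f := fun a v => decide (v ∈ reach (allDarts (rot a)) (s a))) ?_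
    (PT.rangeLength hr)
  exact PT.decide_reach (PTA_allDarts (hr.comp (by fun_prop))) (hs.comp (by fun_prop))
    (by fun_prop)

lemma PTA_darts (hr : PT rot) (hs : PT s) : PT fun a => darts (rot a) (s a) := by
  unfold darts
  refine PT.filter (f := fun a (d : Nd) => decide (d.1 ∈ comp (rot a) (s a))) ?_ (PTA_allDarts hr)
  exact PT.mem (by fun_prop) (PTA_comp (hr.comp (by fun_prop)) (hs.comp (by fun_prop)))

lemma PTA_nextIn {l : α → List ℕ} {x : α → ℕ} (hl : PT l) (hx : PT x) :
    PT fun a => nextIn (l a) (x a) := by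
  unfold nextIn
  refine PT.headD (PT.append (PT.drop ?_ (PT.const 1)) hl) (PT.const 0)
  refine PT.dropWhile (f := fun a y => decide (y ≠ x a)) ?_ hl
  exact PT.decide_not (PT.decide_eq (by fun_prop) (hx.comp (by fun_prop)))

lemma PTA_phi {d : α → Nd} (hr : PT rot) (hd : PT d) : PT fun a => phi (rot a) (d a) := by
  unfold phi
  exact PT.pair (by fun_prop) (PTA_nextIn (PTA_nbrs hr (by fun_prop)) (by fun_prop))

lemma PTA_al {d : α → Nd} (hd : PT d) : PT fun a => al (d a) := by
  unfold al
  fun_prop

lemma PTA_phiE (hr : PT rot) (hs : PT s) : PT fun a => phiE (rot a) (s a) := by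
  unfold phiE
  refine PT.map (f := fun a (d : Nd) => (d, phi (rot a) d)) ?_ (PTA_darts hr hs)
  exact PT.pair (by fun_prop) (PTA_phi (hr.comp (by fun_prop)) (by fun_prop))

lemma PTA_faceOf {d : α → Nd} (hr : PT rot) (hs : PT s) (hd : PT d) :
    PT fun a => faceOf (rot a) (s a) (d a) := by
  unfold faceOf
  refine PT.optGetD (PT.find? (f := fun a (d' : Nd) => decide (d' ∈ reach (phiE (rot a) (s a)) (d a)))
    ?_ (PTA_darts hr hs)) hd
  have h1 : PT fun p : α × Nd => phiE (rot p.1) (s p.1) :=
    PTA_phiE (hr.comp (by fun_prop)) (hs.comp (by fun_prop))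
  have h2 : PT fun p : α × Nd => d p.1 := hd.comp (by fun_prop)
  have h3 : PT fun p : α × Nd => p.2 := by fun_prop
  have h4 := PT.decide_reach h1 h2 h3
  exact h4.congr fun p => decide_eq_decide.2 Iff.rfl

lemma PTA_faces (hr : PT rot) (hs : PT s) : PT fun a => faces (rot a) (s a) := by
  unfold faces
  refine PT.filter (f := fun a (d : Nd) => decide (faceOf (rot a) (s a) d = d)) ?_ (PTA_darts hr hs)
  have h : PT fun p : α × Nd => faceOf (rot p.1) (s p.1) p.2 :=
    PTA_faceOf (hr.comp (by fun_prop)) (hs.comp (by fun_prop)) (by fun_prop)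
  have h2 : PT fun p : α × Nd => p.2 := by fun_prop
  have h3 := PT.decide_eq h h2
  exact h3

lemma PTA_radE (hr : PT rot) (hs : PT s) : PT fun a => radE (rot a) (s a) := by
  unfold radE
  refine PT.flatMap (f := fun a (d : Nd) =>
    [((d.1, d.1), faceOf (rot a) (s a) d), (faceOf (rot a) (s a) d, (d.1, d.1))]) ?_
    (PTA_darts hr hs)
  have h : PT fun p : α × Nd => faceOf (rot p.1) (s p.1) p.2 :=
    PTA_faceOf (hr.comp (by fun_prop)) (hs.comp (by fun_prop)) (by fun_prop)
  fun_prop

lemma PTA_rd {x : α → Nd} (hr : PT rot) (hs : PT s) (hx : PT x) :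
    PT fun a => rd (rot a) (s a) (x a) := by
  unfold rd
  exact PT_dist (PTA_radE hr hs) (by fun_prop) hx

end Raw

section K

variable {rot : α → Rot} {s i : α → ℕ} {ks : α → List Unit}

lemma PTA_flB {x : α → ℕ} (hk : PT ks) (hi : PT i) (hx : PT x) :
    PT fun a => flB (ks a).length (i a) (x a) := by
  unfold flB
  fun_prop

lemma PTA_forced {v : α → ℕ} (hr : PT rot) (hs : PT s) (hk : PT ks) (hi : PT i) (hv : PT v) :
    PT fun a => forced (rot a) (s a) (ks a).length (i a) (v a) := by
  unfold forced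
  exact PTA_flB hk hi (PTA_rd hr hs (by fun_prop))

lemma PTA_frcE (hr : PT rot) (hs : PT s) (hk : PT ks) (hi : PT i) :
    PT fun a => frcE (rot a) (s a) (ks a).length (i a) := by
  unfold frcE
  refine PT.filter (f := fun a (d : Nd) => forced (rot a) (s a) (ks a).length (i a) d.1 &&
    forced (rot a) (s a) (ks a).length (i a) d.2) ?_ (PTA_darts hr hs)
  exact PT.and
    (PTA_forced (hr.comp (by fun_prop)) (hs.comp (by fun_prop)) (hk.comp (by fun_prop))
      (hi.comp (by fun_prop)) (by fun_prop))
    (PTA_forced (hr.comp (by fun_prop)) (hs.comp (by fun_prop)) (hk.comp (by fun_prop))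
      (hi.comp (by fun_prop)) (by fun_prop))

lemma PTA_rep {v : α → ℕ} (hr : PT rot) (hs : PT s) (hk : PT ks) (hi : PT i) (hv : PT v) :
    PT fun a => rep (rot a) (s a) (ks a).length (i a) (v a) := by
  unfold rep
  refine PT.optGetD (PT.find? (f := fun a (u : ℕ) =>
    decide (u ∈ reach (frcE (rot a) (s a) (ks a).length (i a)) (v a))) ?_ (PTA_comp hr hs)) hv
  exact PT.decide_reach (PTA_frcE (hr.comp (by fun_prop)) (hs.comp (by fun_prop))
    (hk.comp (by fun_prop)) (hi.comp (by fun_prop))) (hv.comp (by fun_prop)) (by fun_prop)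

lemma PTA_idist {v : α → ℕ} (hr : PT rot) (hs : PT s) (hk : PT ks) (hi : PT i) (hv : PT v) :
    PT fun a => idist (rot a) (s a) (ks a).length (i a) (v a) := by
  unfold idist
  exact PT_dist (PTA_frcE hr hs hk hi) (PTA_rep hr hs hk hi hv) hv

lemma PTA_pf {g : α → Nd} (hr : PT rot) (hs : PT s) (hg : PT g) :
    PT fun a => pf (rot a) (s a) (g a) := by
  unfold pf
  refine PT.optGetD (PT.find? (f := fun a (c : Nd) => decide (faceOf (rot a) (s a) c = g a) &&
    decide (rd (rot a) (s a) (c.1, c.1) + 1 = rd (rot a) (s a) (g a))) ?_ (PTA_darts hr hs)) hg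
  have hr' : PT fun p : α × Nd => rot p.1 := hr.comp (by fun_prop)
  have hs' : PT fun p : α × Nd => s p.1 := hs.comp (by fun_prop)
  have hg' : PT fun p : α × Nd => g p.1 := hg.comp (by fun_prop)
  exact PT.and (PT.decide_eq (PTA_faceOf hr' hs' (by fun_prop)) hg')
    (PT.decide_eq (PT.succ (PTA_rd hr' hs' (by fun_prop))) (PTA_rd hr' hs' hg'))

lemma PTA_pv {v : α → ℕ} (hr : PT rot) (hs : PT s) (hv : PT v) :
    PT fun a => pv (rot a) (s a) (v a) := by
  unfold pv
  refine PT.optGetD (PT.find? (f := fun a (c : Nd) => decide (c.1 = v a) &&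
    decide (rd (rot a) (s a) (faceOf (rot a) (s a) c) + 1 = rd (rot a) (s a) (v a, v a))) ?_
    (PTA_darts hr hs)) (by fun_prop)
  have hr' : PT fun p : α × Nd => rot p.1 := hr.comp (by fun_prop)
  have hs' : PT fun p : α × Nd => s p.1 := hs.comp (by fun_prop)
  have hv' : PT fun p : α × Nd => v p.1 := hv.comp (by fun_prop)
  exact PT.and (PT.decide_eq (by fun_prop) hv')
    (PT.decide_eq (PT.succ (PTA_rd hr' hs' (PTA_faceOf hr' hs' (by fun_prop))))
      (PTA_rd hr' hs' (PT.pair hv' hv')))

lemma PTA_pe {v : α → ℕ} (hr : PT rot) (hs : PT s) (hk : PT ks) (hi : PT i) (hv : PT v) :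
    PT fun a => pe (rot a) (s a) (ks a).length (i a) (v a) := by
  unfold pe
  refine PT.optGetD (PT.find? (f := fun a (c : Nd) => decide (c.1 = v a) &&
    decide (idist (rot a) (s a) (ks a).length (i a) c.2 + 1 =
      idist (rot a) (s a) (ks a).length (i a) (v a))) ?_
    (PTA_frcE hr hs hk hi)) (by fun_prop)
  have hr' : PT fun p : α × Nd => rot p.1 := hr.comp (by fun_prop)
  have hs' : PT fun p : α × Nd => s p.1 := hs.comp (by fun_prop)
  have hk' : PT fun p : α × Nd => ks p.1 := hk.comp (by fun_prop)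
  have hi' : PT fun p : α × Nd => i p.1 := hi.comp (by fun_prop)
  have hv' : PT fun p : α × Nd => v p.1 := hv.comp (by fun_prop)
  exact PT.and (PT.decide_eq (by fun_prop) hv')
    (PT.decide_eq (PT.succ (PTA_idist hr' hs' hk' hi' (by fun_prop)))
      (PTA_idist hr' hs' hk' hi' hv'))

lemma PTA_cornerTree {c : α → Nd} (hr : PT rot) (hs : PT s) (hk : PT ks) (hi : PT i) (hc : PT c) :
    PT fun a => cornerTree (rot a) (s a) (ks a).length (i a) (c a) := by
  unfold cornerTree
  exact PT.or (PT.decide_eq hc (PTA_pf hr hs (PTA_faceOf hr hs hc)))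
    (PT.and (PT.and (PT.decide_not (PT.decide_eq (by fun_prop) hs))
      (PT.decide_eq (PTA_rep hr hs hk hi (by fun_prop)) (by fun_prop)))
      (PT.decide_eq hc (PTA_pv hr hs (by fun_prop))))

lemma PTA_edgeTree {x : α → Nd} (hr : PT rot) (hs : PT s) (hk : PT ks) (hi : PT i) (hx : PT x) :
    PT fun a => edgeTree (rot a) (s a) (ks a).length (i a) (x a) := by
  unfold edgeTree
  exact PT.or
    (PT.and (PT.decide_not (PT.decide_eq (PTA_rep hr hs hk hi (by fun_prop)) (by fun_prop)))
      (PT.decide_eq (PTA_pe hr hs hk hi (by fun_prop)) hx))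
    (PT.and (PT.decide_not (PT.decide_eq (PTA_rep hr hs hk hi (by fun_prop)) (by fun_prop)))
      (PT.decide_eq (PTA_pe hr hs hk hi (by fun_prop)) (PTA_al hx)))

lemma PTA_links (hr : PT rot) (hs : PT s) (hk : PT ks) (hi : PT i) :
    PT fun a => links (rot a) (s a) (ks a).length (i a) := by
  unfold links
  refine PT.flatMap (f := fun a (x : Nd) =>
    (if cornerTree (rot a) (s a) (ks a).length (i a) (phi (rot a) x) = true then []
      else [(x, phi (rot a) x), (phi (rot a) x, x)]) ++
    (if edgeTree (rot a) (s a) (ks a).length (i a) x = true then [] else [(x, al x)])) ?_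
    (PTA_darts hr hs)
  have hr' : PT fun p : α × Nd => rot p.1 := hr.comp (by fun_prop)
  have hs' : PT fun p : α × Nd => s p.1 := hs.comp (by fun_prop)
  have hk' : PT fun p : α × Nd => ks p.1 := hk.comp (by fun_prop)
  have hi' : PT fun p : α × Nd => i p.1 := hi.comp (by fun_prop)
  have hphi : PT fun p : α × Nd => phi (rot p.1) p.2 := PTA_phi hr' (by fun_prop)
  have hal : PT fun p : α × Nd => al p.2 := PTA_al (by fun_prop)
  exact PT.append
    (PT.ifBool (PTA_cornerTree hr' hs' hk' hi' hphi) (by fun_prop) (by fun_prop))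
    (PT.ifBool (PTA_edgeTree hr' hs' hk' hi' (by fun_prop)) (by fun_prop) (by fun_prop))

lemma PTA_rootD (hr : PT rot) (hs : PT s) : PT fun a => rootD (rot a) (s a) := by
  unfold rootD
  exact PT.headD (PTA_darts hr hs) (by fun_prop)

lemma PTA_cd {x : α → Nd} (hr : PT rot) (hs : PT s) (hk : PT ks) (hi : PT i) (hx : PT x) :
    PT fun a => cd (rot a) (s a) (ks a).length (i a) (x a) := by
  unfold cd
  exact PT_dist (PTA_links hr hs hk hi) (PTA_rootD hr hs) hx

lemma PTA_order (hr : PT rot) (hs : PT s) (hk : PT ks) (hi : PT i) :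
    PT fun a => order (rot a) (s a) (ks a).length (i a) := by
  unfold order
  refine PT.flatMap (f := fun a (j : ℕ) =>
    (darts (rot a) (s a)).filter fun x =>
      decide (cd (rot a) (s a) (ks a).length (i a) x = j)) ?_
    (PL.range (PL.add (PL.length (PTA_links hr hs hk hi)) (PL.const 2)))
  have hr' : PT fun p : α × ℕ => rot p.1 := hr.comp (by fun_prop)
  have hs' : PT fun p : α × ℕ => s p.1 := hs.comp (by fun_prop)
  refine PT.filter (f := fun (p : α × ℕ) (x : Nd) =>
    decide (cd (rot p.1) (s p.1) (ks p.1).length (i p.1) x = p.2)) ?_ (PTA_darts hr' hs')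
  exact PT.decide_eq (PTA_cd (hr.comp (by fun_prop)) (hs.comp (by fun_prop))
    (hk.comp (by fun_prop)) (hi.comp (by fun_prop)) (by fun_prop)) (by fun_prop)

lemma PTA_upE (hr : PT rot) (hs : PT s) (hk : PT ks) (hi : PT i) :
    PT fun a => upE (rot a) (s a) (ks a).length (i a) := by
  unfold upE
  refine PT.append ?_ ?_
  · refine PT.map (f := fun a (v : ℕ) => ((v, v),
      if rep (rot a) (s a) (ks a).length (i a) v = v then faceOf (rot a) (s a) (pv (rot a) (s a) v)
      else ((pe (rot a) (s a) (ks a).length (i a) v).2,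
        (pe (rot a) (s a) (ks a).length (i a) v).2))) ?_ ?_
    · have hr' : PT fun p : α × ℕ => rot p.1 := hr.comp (by fun_prop)
      have hs' : PT fun p : α × ℕ => s p.1 := hs.comp (by fun_prop)
      have hk' : PT fun p : α × ℕ => ks p.1 := hk.comp (by fun_prop)
      have hi' : PT fun p : α × ℕ => i p.1 := hi.comp (by fun_prop)
      have hpe : PT fun p : α × ℕ => pe (rot p.1) (s p.1) (ks p.1).length (i p.1) p.2 :=
        PTA_pe hr' hs' hk' hi' (by fun_prop)
      refine PT.pair (by fun_prop) (PT.ite ?_ ?_ (by fun_prop))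
      · exact PT.decide_eq (PTA_rep hr' hs' hk' hi' (by fun_prop)) (by fun_prop)
      · exact PTA_faceOf hr' hs' (PTA_pv hr' hs' (by fun_prop))
    · refine PT.filter (f := fun a (v : ℕ) => decide (v ≠ s a)) ?_ (PTA_comp hr hs)
      exact PT.decide_not (PT.decide_eq (by fun_prop) (hs.comp (by fun_prop)))
  · refine PT.map (f := fun a (g : Nd) => (g, ((pf (rot a) (s a) g).1, (pf (rot a) (s a) g).1))) ?_
      (PTA_faces hr hs)
    have hpf : PT fun p : α × Nd => pf (rot p.1) (s p.1) p.2 :=
      PTA_pf (hr.comp (by fun_prop)) (hs.comp (by fun_prop)) (by fun_prop)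
    fun_prop

lemma PTA_isDesc {w c : α → Nd} (hr : PT rot) (hs : PT s) (hk : PT ks) (hi : PT i) (hw : PT w)
    (hc : PT c) : PT fun a => isDesc (rot a) (s a) (ks a).length (i a) (w a) (c a) := by
  unfold isDesc
  exact (PT.decide_reach (PTA_upE hr hs hk hi) hc hw).congr fun p => decide_eq_decide.2 Iff.rfl

lemma PTA_slabB {z : α → ℕ} {g : α → Nd} (hr : PT rot) (hs : PT s) (hk : PT ks) (hi : PT i)
    (hz : PT z) (hg : PT g) :
    PT fun a => slabB (rot a) (s a) (ks a).length (i a) (z a) (g a) := by
  unfold slabB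
  refine PT.not (PT.any (f := fun a (x : ℕ) => flB (ks a).length (i a) x &&
    decide (rd (rot a) (s a) (z a, z a) < x) && decide (x < rd (rot a) (s a) (g a))) ?_
    (PL.range (PL.add (PL.length (PTA_radE hr hs)) (PL.const 2))))
  have hr' : PT fun p : α × ℕ => rot p.1 := hr.comp (by fun_prop)
  have hs' : PT fun p : α × ℕ => s p.1 := hs.comp (by fun_prop)
  have hk' : PT fun p : α × ℕ => ks p.1 := hk.comp (by fun_prop)
  have hi' : PT fun p : α × ℕ => i p.1 := hi.comp (by fun_prop)
  have hz' : PT fun p : α × ℕ => z p.1 := hz.comp (by fun_prop)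
  have hg' : PT fun p : α × ℕ => g p.1 := hg.comp (by fun_prop)
  exact PT.and (PT.and (PTA_flB hk' hi' (by fun_prop))
    (PT.decide_lt (PTA_rd hr' hs' (PT.pair hz' hz')) (by fun_prop)))
    (PT.decide_lt (by fun_prop) (PTA_rd hr' hs' hg'))

lemma PTA_vars (hr : PT rot) (hs : PT s) (hk : PT ks) (hi : PT i) :
    PT fun a => vars (rot a) (s a) (ks a).length (i a) := by
  unfold vars
  refine PT.filter (f := fun a (v : ℕ) => decide (rep (rot a) (s a) (ks a).length (i a) v = v)) ?_
    (PTA_comp hr hs)
  have h : PT fun p : α × ℕ => rep (rot p.1) (s p.1) (ks p.1).length (i p.1) p.2 :=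
    PTA_rep (hr.comp (by fun_prop)) (hs.comp (by fun_prop))
      (hk.comp (by fun_prop)) (hi.comp (by fun_prop)) (by fun_prop)
  have h2 : PT fun p : α × ℕ => p.2 := by fun_prop
  have h3 := PT.decide_eq h h2
  exact h3

lemma PTA_inBag {z : α → ℕ} {t : α → Nd} (hr : PT rot) (hs : PT s) (hk : PT ks) (hi : PT i)
    (hz : PT z) (ht : PT t) :
    PT fun a => inBag (rot a) (s a) (ks a).length (i a) (z a) (t a) := by
  unfold inBag
  exact PT.and (PTA_slabB hr hs hk hi hz (PTA_faceOf hr hs ht))
    (PT.or (PT.or (PTA_isDesc hr hs hk hi (by fun_prop) (by fun_prop))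
      (PTA_isDesc hr hs hk hi (by fun_prop) (by fun_prop)))
      (PTA_isDesc hr hs hk hi (by fun_prop) (PTA_faceOf hr hs ht)))

lemma PTA_qadj {z y : α → ℕ} (hr : PT rot) (hs : PT s) (hk : PT ks) (hi : PT i)
    (hz : PT z) (hy : PT y) :
    PT fun a => qadj (rot a) (s a) (ks a).length (i a) (z a) (y a) := by
  unfold qadj
  refine PT.any (f := fun a (d : Nd) => decide (rep (rot a) (s a) (ks a).length (i a) d.1 = z a) &&
    decide (rep (rot a) (s a) (ks a).length (i a) d.2 = y a)) ?_ (PTA_darts hr hs)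
  have hr' : PT fun p : α × Nd => rot p.1 := hr.comp (by fun_prop)
  have hs' : PT fun p : α × Nd => s p.1 := hs.comp (by fun_prop)
  have hk' : PT fun p : α × Nd => ks p.1 := hk.comp (by fun_prop)
  have hi' : PT fun p : α × Nd => i p.1 := hi.comp (by fun_prop)
  exact PT.and (PT.decide_eq (PTA_rep hr' hs' hk' hi' (by fun_prop)) (hz.comp (by fun_prop)))
    (PT.decide_eq (PTA_rep hr' hs' hk' hi' (by fun_prop)) (hy.comp (by fun_prop)))

lemma PTA_domOf {z : α → ℕ} (hr : PT rot) (hs : PT s) (hk : PT ks) (hi : PT i) (hz : PT z) :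
    PT fun a => domOf (rot a) (s a) (ks a).length (i a) (z a) := by
  unfold domOf
  have h1 : PT fun a => List.range (2 * (ks a).length + 2) :=
    PL.range (PL.add (PL.mul (PL.const 2) (PL.length hk)) (PL.const 2))
  exact PT.ite (PT.decide_eq hz hs) (by fun_prop)
    (PT.ifBool (PTA_forced hr hs hk hi hz) (by fun_prop) h1)

lemma PTA_weight {z : α → ℕ} (hr : PT rot) (hs : PT s) (hk : PT ks) (hi : PT i) (hz : PT z) :
    PT fun a => weight (rot a) (s a) (ks a).length (i a) (z a) := by
  unfold weight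
  refine PT.length (PT.filter (f := fun a (v : ℕ) =>
    decide (rep (rot a) (s a) (ks a).length (i a) v = z a)) ?_ (PTA_comp hr hs))
  exact PT.decide_eq (PTA_rep (hr.comp (by fun_prop)) (hs.comp (by fun_prop))
    (hk.comp (by fun_prop)) (hi.comp (by fun_prop)) (by fun_prop)) (hz.comp (by fun_prop))

end K

section Scheme

/-- index of the first element with a property -/
lemma PTA_findIdx {β : Type} [Enc β] {f : α → β → Bool} {l : α → List β}
    (hf : PT fun p : α × β => f p.1 p.2) (hl : PT l) : PT fun a => (l a).findIdx (f a) := by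
  refine (PT.length (PT.takeWhile (f := fun a b => !(f a b)) (PT.not hf) hl)).congr fun a => ?_
  generalize l a = l
  induction l with
  | nil => rfl
  | cons x l ih =>
    rw [List.findIdx_cons, List.takeWhile_cons]
    cases h : f a x
    · simp [ih]
    · simp

lemma PTA_idxOf {x : α → ℕ} {l : α → List ℕ} (hx : PT x) (hl : PT l) :
    PT fun a => (l a).idxOf (x a) := by
  refine (PTA_findIdx (f := fun a (b : ℕ) => decide (b = x a))
    (PT.decide_eq (by fun_prop) (hx.comp (by fun_prop))) hl).congr fun a => ?_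
  unfold List.idxOf
  congr 1

variable {vs : α → List ℕ} {ord : α → List Nd} {ib : α → ℕ → Nd → Bool}

lemma PTA_topIdx {z : α → ℕ} (ho : PT ord) (hib : PT fun p : α × ℕ × Nd => ib p.1 p.2.1 p.2.2)
    (hz : PT z) : PT fun a => topIdx (ord a) (ib a) (z a) := by
  unfold topIdx
  refine PTA_findIdx (f := fun a => ib a (z a)) ?_ ho
  exact hib.comp (f := fun p : α × Nd => (p.1, z p.1, p.2)) (by fun_prop)

lemma PTA_elimOrder (hv : PT vs) (ho : PT ord)
    (hib : PT fun p : α × ℕ × Nd => ib p.1 p.2.1 p.2.2) :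
    PT fun a => elimOrder (vs a) (ord a) (ib a) := by
  unfold elimOrder
  refine PT.flatMap (f := fun a (j : ℕ) =>
    (vs a).filter fun z => decide (topIdx (ord a) (ib a) z = j)) ?_
    (PT.reverse (PT.rangeLength ho))
  refine PT.filter (f := fun (p : α × ℕ) (z : ℕ) =>
    decide (topIdx (ord p.1) (ib p.1) z = p.2)) ?_ (hv.comp (by fun_prop))
  refine PT.decide_eq (PTA_topIdx (ord := fun q : (α × ℕ) × ℕ => ord q.1.1)
    (ib := fun q => ib q.1.1) (ho.comp (by fun_prop)) ?_ (by fun_prop)) (by fun_prop)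
  exact hib.comp (f := fun p : ((α × ℕ) × ℕ) × ℕ × Nd => (p.1.1.1, p.2)) (by fun_prop)

lemma PTA_mkItems {qa : α → ℕ → ℕ → Bool} {dom : α → ℕ → List ℕ} {wt : α → ℕ → ℕ}
    (hv : PT vs) (ho : PT ord) (hib : PT fun p : α × ℕ × Nd => ib p.1 p.2.1 p.2.2)
    (hqa : PT fun p : α × ℕ × ℕ => qa p.1 p.2.1 p.2.2) (hdom : PT fun p : α × ℕ => dom p.1 p.2)
    (hwt : PT fun p : α × ℕ => wt p.1 p.2) :
    PT fun a => mkItems (vs a) (ord a) (ib a) (qa a) (dom a) (wt a) := by
  unfold mkItems
  have he : PT fun a => elimOrder (vs a) (ord a) (ib a) := PTA_elimOrder hv ho hib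
  refine PT.map (f := fun a (z : ℕ) =>
    (z, ((vs a).filter fun y => ib a y ((ord a).getD (topIdx (ord a) (ib a) z) (0, 0)) &&
          decide ((elimOrder (vs a) (ord a) (ib a)).idxOf z <
            (elimOrder (vs a) (ord a) (ib a)).idxOf y)),
      ((vs a).filter fun y => decide ((elimOrder (vs a) (ord a) (ib a)).idxOf z <
            (elimOrder (vs a) (ord a) (ib a)).idxOf y) && qa a z y),
      dom a z, wt a z)) ?_ he
  have hlt : PT fun q : (α × ℕ) × ℕ => decide ((elimOrder (vs q.1.1) (ord q.1.1)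
      (ib q.1.1)).idxOf q.1.2 < (elimOrder (vs q.1.1) (ord q.1.1) (ib q.1.1)).idxOf q.2) := by
    have he' : PT fun q : (α × ℕ) × ℕ => elimOrder (vs q.1.1) (ord q.1.1) (ib q.1.1) :=
      he.comp (f := fun q : (α × ℕ) × ℕ => q.1.1) (by fun_prop)
    exact PT.decide_lt (PTA_idxOf (by fun_prop) he') (PTA_idxOf (by fun_prop) he')
  have hT : PT fun p : α × ℕ => (ord p.1).getD (topIdx (ord p.1) (ib p.1) p.2) (0, 0) := by
    refine PT.getD (ho.comp (by fun_prop)) ?_ (PT.const _)
    refine PTA_topIdx (ord := fun q : α × ℕ => ord q.1) (ib := fun q => ib q.1)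
      (ho.comp (by fun_prop)) ?_ (by fun_prop)
    exact hib.comp (f := fun p : (α × ℕ) × ℕ × Nd => (p.1.1, p.2)) (by fun_prop)
  refine PT.pair (by fun_prop) (PT.pair ?_ (PT.pair ?_ (PT.pair hdom hwt)))
  · refine PT.filter (f := fun (p : α × ℕ) (y : ℕ) =>
      ib p.1 y ((ord p.1).getD (topIdx (ord p.1) (ib p.1) p.2) (0, 0)) &&
        decide ((elimOrder (vs p.1) (ord p.1) (ib p.1)).idxOf p.2 <
          (elimOrder (vs p.1) (ord p.1) (ib p.1)).idxOf y)) ?_ (hv.comp (by fun_prop))
    refine PT.and ?_ hlt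
    exact hib.comp (f := fun q : (α × ℕ) × ℕ =>
      (q.1.1, q.2, (ord q.1.1).getD (topIdx (ord q.1.1) (ib q.1.1) q.1.2) (0, 0)))
      (PT.pair (by fun_prop) (PT.pair (by fun_prop) (hT.comp (f := fun q : (α × ℕ) × ℕ => q.1)
        (by fun_prop))))
  · refine PT.filter (f := fun (p : α × ℕ) (y : ℕ) =>
      decide ((elimOrder (vs p.1) (ord p.1) (ib p.1)).idxOf p.2 <
          (elimOrder (vs p.1) (ord p.1) (ib p.1)).idxOf y) && qa p.1 p.2 y) ?_
      (hv.comp (by fun_prop))
    refine PT.and hlt ?_
    exact hqa.comp (f := fun q : (α × ℕ) × ℕ => (q.1.1, q.1.2, q.2)) (by fun_prop)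

end Scheme

/-- Chunk PTA. -/
theorem PT_items {ks : α → List Unit} {rot : α → Rot} {s i : α → ℕ} (hk : PT ks) (hr : PT rot)
    (hs : PT s) (hi : PT i) : PT fun a => items (rot a) (s a) (ks a).length (i a) := by
  unfold items
  refine PTA_mkItems (vs := fun a => vars (rot a) (s a) (ks a).length (i a))
    (ord := fun a => order (rot a) (s a) (ks a).length (i a))
    (ib := fun a => inBag (rot a) (s a) (ks a).length (i a))
    (qa := fun a => qadj (rot a) (s a) (ks a).length (i a))
    (dom := fun a => domOf (rot a) (s a) (ks a).length (i a))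
    (wt := fun a => weight (rot a) (s a) (ks a).length (i a))
    (PTA_vars hr hs hk hi) (PTA_order hr hs hk hi) ?_ ?_ ?_ ?_
  · exact PTA_inBag (hr.comp (by fun_prop)) (hs.comp (by fun_prop)) (hk.comp (by fun_prop))
      (hi.comp (by fun_prop)) (by fun_prop) (by fun_prop)
  · exact PTA_qadj (hr.comp (by fun_prop)) (hs.comp (by fun_prop)) (hk.comp (by fun_prop))
      (hi.comp (by fun_prop)) (by fun_prop) (by fun_prop)
  · exact PTA_domOf (hr.comp (by fun_prop)) (hs.comp (by fun_prop)) (hk.comp (by fun_prop))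
      (hi.comp (by fun_prop)) (by fun_prop)
  · exact PTA_weight (hr.comp (by fun_prop)) (hs.comp (by fun_prop)) (hk.comp (by fun_prop))
      (hi.comp (by fun_prop)) (by fun_prop)

/-- the better of two results -/
def bestOf (o x : Option (ℕ × List ℕ)) : Option (ℕ × List ℕ) :=
  match x with
  | none => o
  | some q => match o with
    | none => some q
    | some p => if p.1 < q.1 then some q else some p

lemma PTA_bestOf {o x : α → Option (ℕ × List ℕ)} (ho : PT o) (hx : PT x) :
    PT fun a => bestOf (o a) (x a) := by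
  have h1 : PT fun p : α × (ℕ × List ℕ) =>
      (match o p.1 with
        | none => some p.2
        | some p' => if p'.1 < p.2.1 then some p.2 else some p') := by
    refine PT.congr (PT.optionCases (o := fun p : α × (ℕ × List ℕ) => o p.1)
      (f := fun p => some p.2)
      (g := fun p (p' : ℕ × List ℕ) => if p'.1 < p.2.1 then some p.2 else some p')
      (ho.comp (by fun_prop)) (by fun_prop) ?_) ?_
    · exact PT.ite (PT.decide_lt (by fun_prop) (by fun_prop)) (by fun_prop) (by fun_prop)
    · intro p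
      cases o p.1 <;> rfl
  refine PT.congr (PT.optionCases (o := x) (f := o)
      (g := fun a (q : ℕ × List ℕ) => (match o a with
        | none => some q
        | some p' => if p'.1 < q.1 then some q else some p')) hx ho h1) ?_
  intro a
  unfold bestOf
  cases x a with
  | none => rfl
  | some q => cases o a <;> rfl

lemma bestOf_mem (l : List (Option (ℕ × List ℕ))) : ∀ o,
    l.foldl bestOf o = o ∨ l.foldl bestOf o ∈ l := by
  induction l with
  | nil => intro o; exact Or.inl rfl
  | cons x l ih =>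
    intro o
    rw [List.foldl_cons]
    rcases ih (bestOf o x) with h | h
    · rw [h]
      unfold bestOf
      cases x with
      | none => exact Or.inl rfl
      | some q =>
        cases o with
        | none => exact Or.inr (by simp)
        | some p =>
          simp only
          split_ifs
          · exact Or.inr (by simp)
          · exact Or.inl rfl
    · exact Or.inr (List.mem_cons_of_mem _ h)

lemma PTA_foldBest {l : α → List (Option (ℕ × List ℕ))} (hl : PT l) :
    PT fun a => (l a).foldl bestOf none := by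
  refine PT.foldl (g := fun (_ : α) => bestOf) (s := fun _ => none)
    (PTA_bestOf (by fun_prop) (by fun_prop)) (PT.const none) hl
    (B := fun a => sz (l a) + 1) ((PT.bdd hl).add (PBd.const 1)) ?_
  intro a l1 l2 h
  rcases bestOf_mem l1 none with h1 | h1
  · rw [h1, sz_none]; omega
  · have h2 : l1.foldl bestOf none ∈ l a := by
      rw [h]
      exact List.mem_append_left _ h1
    have := sz_le_of_mem h2
    omega

lemma PTA_solveOne {ks pad : α → List Unit} {rot : α → Rot} {s i : α → ℕ} (hk : PT ks)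
    (hp : PT pad) (hr : PT rot) (hs : PT s) (hi : PT i) :
    PT fun a => solve (ks a).length (rot a).length (pad a).length
        (items (rot a) (s a) (ks a).length (i a)) :=
  PT_solve hk hp (PT.length hr) (PT_items hk hr hs hi)

lemma PTA_solveList {ks pad : α → List Unit} {rot : α → Rot} {s : α → ℕ} (hk : PT ks)
    (hp : PT pad) (hr : PT rot) (hs : PT s) :
    PT fun a => (List.range ((ks a).length + 2)).map fun i =>
      solve (ks a).length (rot a).length (pad a).length
        (items (rot a) (s a) (ks a).length i) := by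
  have h := PTA_solveOne (ks := fun p : α × ℕ => ks p.1) (pad := fun p : α × ℕ => pad p.1)
    (rot := fun p : α × ℕ => rot p.1) (s := fun p : α × ℕ => s p.1) (i := fun p : α × ℕ => p.2)
    (hk.comp (by fun_prop)) (hp.comp (by fun_prop)) (hr.comp (by fun_prop))
    (hs.comp (by fun_prop)) (by fun_prop)
  exact PT.map h (PL.range (PL.add (PL.length hk) (PL.const 2)))

lemma solveAll_eq (rot : Rot) (s k cap : ℕ) : solveAll rot s k cap =
    (((List.range (k + 2)).map fun i => solve k rot.length cap (items rot s k i)).foldl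
      bestOf none) := by
  rw [List.foldl_map]
  unfold solveAll
  refine congrArg (fun f => List.foldl f none (List.range (k + 2))) ?_
  funext o i
  generalize solve k rot.length cap (items rot s k i) = x
  unfold bestOf
  cases x with
  | none => rfl
  | some q => cases o <;> rfl

lemma PTA_solveAll {ks pad : α → List Unit} {rot : α → Rot} {s : α → ℕ} (hk : PT ks)
    (hp : PT pad) (hr : PT rot) (hs : PT s) :
    PT fun a => solveAll (rot a) (s a) (ks a).length (pad a).length :=
  (PTA_foldBest (PTA_solveList hk hp hr hs)).congr fun _ => (solveAll_eq _ _ _ _).symm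

lemma PTA_stratOf {w : α → List ℕ} (hw : PT w) : PT fun a => stratOf (w a) := by
  unfold stratOf
  refine PT.map (f := fun (_ : α) (p : ℕ × ℕ) => (p.2, p.1 - 1)) (by fun_prop)
    (PT.filter (f := fun (_ : α) (p : ℕ × ℕ) => decide (p.1 ≠ 0)) ?_ (by fun_prop))
  exact PT.decide_not (PT.decide_eq (by fun_prop) (by fun_prop))

/-- Chunk PTA. -/
theorem PT_answer {ks pad : α → List Unit} {rot : α → Rot} {s : α → ℕ} (hk : PT ks) (hp : PT pad)
    (hr : PT rot) (hs : PT s) :
    PT fun a => answer (rot a) (s a) (ks a).length (pad a).length := by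
  refine PT.congr (PT.optionCases
    (o := fun a => solveAll (rot a) (s a) (ks a).length (pad a).length)
    (f := fun a => ((rot a).length - 1, []))
    (g := fun a (q : ℕ × List ℕ) =>
      (q.1 + ((rot a).length - (comp (rot a) (s a)).length), stratOf q.2))
    (PTA_solveAll hk hp hr hs) (by fun_prop) ?_) ?_
  · have hr' : PT fun p : α × (ℕ × List ℕ) => rot p.1 := hr.comp (by fun_prop)
    have hs' : PT fun p : α × (ℕ × List ℕ) => s p.1 := hs.comp (by fun_prop)
    exact PT.pair (PT.add (by fun_prop) (PT.sub (PT.length hr') (PT.length (PTA_comp hr' hs'))))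
      (PTA_stratOf (by fun_prop))
  · intro a
    unfold answer
    cases solveAll (rot a) (s a) (ks a).length (pad a).length <;> rfl

end Pool.Agent.PFire
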