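import Pool.Agent.Lib.PFire.LrSort
import Pool.Agent.Lib.PolyTime.F2
import Pool.Agent.Lib.PolyTime.Subsets

/-!
# Chunk PTL: the embedding algorithm in polynomial time

See `Pool/Agent/Lib/PolyTime/README.md`.  Numbers are in binary; `k` is given as the length of a list `ks`,
`cap` as the length of a list `pad`.

For adjacency lists with repetitions the lists of `seqTab` may have exponential length. `embedC` is the same
algorithm where each entry of the table is cut to the length `(darts g s).length`; on valid adjacency lists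
it is equal to `embed` (`embedC_eq`).
-/

set_option autoImplicit false

namespace Pool.Agent.PFire

open Pool.Agent.PolyTime

variable {α : Type} [Enc α]

/-! ### Elementary functions -/

/-- membership with an arbitrary decision procedure -/
lemma PTL_mem {β : Type} [Enc β] [EncInj β] {f : α → β} {l : α → List β}
    [∀ a, Decidable (f a ∈ l a)] (hf : PT f) (hl : PT l) : PT fun a => decide (f a ∈ l a) := by
  classical
  refine (PT.mem hf hl).congr fun a => ?_
  congr


@[fun_prop] lemma PTL_nbrs {g : α → Rot} {v : α → ℕ} (hg : PT g) (hv : PT v) :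
    PT fun a => nbrs (g a) (v a) := by
  unfold nbrs
  exact PT.getD hg hv (PT.const _)

attribute [local irreducible] nbrs

@[fun_prop] lemma PTL_allDarts {g : α → Rot} (hg : PT g) : PT fun a => allDarts (g a) := by
  unfold allDarts
  refine PT.flatMap (f := fun a u => (nbrs (g a) u).map fun v => (u, v)) ?_ (PT.rangeLength hg)
  exact PT.map (f := fun (p : α × ℕ) v => (p.2, v)) (by fun_prop) (by fun_prop)

attribute [local irreducible] allDarts

@[fun_prop] lemma PTL_comp {g : α → Rot} {s : α → ℕ} (hg : PT g) (hs : PT s) :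
    PT fun a => comp (g a) (s a) := by
  unfold comp
  refine PT.filter (f := fun a v => decide (v ∈ reach (allDarts (g a)) (s a))) ?_ (PT.rangeLength hg)
  exact PT.decide_reach (by fun_prop) (by fun_prop) (by fun_prop)

attribute [local irreducible] comp

@[fun_prop] lemma PTL_darts {g : α → Rot} {s : α → ℕ} (hg : PT g) (hs : PT s) :
    PT fun a => darts (g a) (s a) := by
  unfold darts
  refine PT.filter (f := fun a (d : Nd) => decide (d.1 ∈ comp (g a) (s a))) ?_ (by fun_prop)
  exact PTL_mem (by fun_prop) (by fun_prop)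

attribute [local irreducible] darts

/-! ### Depth first search -/

@[fun_prop] lemma PTL_dfsStep {g : α → Rot} {st : α → List (ℕ × ℕ) × List ℕ} (hg : PT g) (hst : PT st) :
    PT fun a => dfsStep (g a) (st a) := by
  have h1 : PT fun q : α × ℕ × List ℕ =>
      (nbrs (g q.1) q.2.1).find? fun w => decide (w ∉ (st q.1).1.map Prod.fst) := by
    refine PT.find? (f := fun (q : α × ℕ × List ℕ) (w : ℕ) => decide (w ∉ (st q.1).1.map Prod.fst)) ?_
      (by fun_prop)
    refine PT.decide_not (PTL_mem (by fun_prop) ?_)
    exact PT.map (f := fun (_ : (α × ℕ × List ℕ) × ℕ) (p : ℕ × ℕ) => p.1) (by fun_prop) (by fun_prop)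
  have h3 : PT fun q : α × ℕ × List ℕ =>
      ((nbrs (g q.1) q.2.1).find? fun w => decide (w ∉ (st q.1).1.map Prod.fst)).elim
        ((st q.1).1, q.2.2) (fun w => ((w, q.2.1) :: (st q.1).1, w :: q.2.1 :: q.2.2)) :=
    PT.optionElim (f := fun q : α × ℕ × List ℕ => ((st q.1).1, q.2.2))
      (g := fun r : (α × ℕ × List ℕ) × ℕ => ((r.2, r.1.2.1) :: (st r.1.1).1, r.2 :: r.1.2.1 :: r.1.2.2))
      h1 (by fun_prop) (by fun_prop)
  have h2 := PT.listCases (l := fun a => (st a).2) (f := fun a => st a)
    (g := fun a v stk => ((nbrs (g a) v).find? fun w => decide (w ∉ (st a).1.map Prod.fst)).elim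
        ((st a).1, stk) (fun w => ((w, v) :: (st a).1, w :: v :: stk))) (by fun_prop) (by fun_prop) h3
  refine h2.congr fun a => ?_
  unfold dfsStep
  rcases (st a).2 with _ | ⟨v, stk⟩
  · rfl
  · dsimp only
    cases (nbrs (g a) v).find? fun w => decide (w ∉ (st a).1.map Prod.fst) <;> rfl

attribute [local irreducible] dfsStep

private lemma PTL_sz_nbrs {g : Rot} {v w : ℕ} (h : w ∈ nbrs g v) : sz w ≤ sz g := by
  unfold nbrs at h
  by_cases hv : v < g.length
  · rw [List.getD_eq_getElem _ _ hv] at h
    exact (sz_le_of_mem h).trans (sz_le_of_mem (List.getElem_mem hv))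
  · rw [List.getD_eq_default _ _ (by omega)] at h
    simp at h

private lemma PTL_dfs_inv (g : Rot) (s : ℕ) (n : ℕ) :
    (∀ x ∈ ((dfsStep g)^[n] ([(s, s)], [s])).2, sz x ≤ sz s + sz g) ∧
    (∀ p ∈ ((dfsStep g)^[n] ([(s, s)], [s])).1, sz p ≤ 2 * (sz s + sz g) + 1) ∧
    ((dfsStep g)^[n] ([(s, s)], [s])).1.length ≤ n + 1 ∧
    ((dfsStep g)^[n] ([(s, s)], [s])).2.length ≤ n + 1 := by
  induction n with
  | zero =>
    simp only [Function.iterate_zero, id_eq, List.mem_singleton, List.length_singleton]
    refine ⟨?_, ?_, by omega, by omega⟩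
    · rintro x rfl; omega
    · rintro p rfl; rw [sz_pair]; omega
  | succ n ih =>
    rw [Function.iterate_succ_apply']
    generalize (dfsStep g)^[n] ([(s, s)], [s]) = st at ih
    obtain ⟨h1, h2, h3, h4⟩ := ih
    unfold dfsStep
    rcases hst : st.2 with _ | ⟨v, stk⟩
    · dsimp only
      rw [hst]
      rw [hst] at h1 h4
      exact ⟨h1, h2, by omega, by simp⟩
    · rw [hst] at h1 h4
      dsimp only
      rcases hf : (nbrs g v).find? fun w => decide (w ∉ st.1.map Prod.fst) with _ | w
      · dsimp only
        refine ⟨fun x hx => h1 x (List.mem_cons_of_mem _ hx), h2, by omega, ?_⟩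
        rw [List.length_cons] at h4; omega
      · dsimp only
        have hw : sz w ≤ sz s + sz g := (PTL_sz_nbrs (List.mem_of_find?_eq_some hf)).trans (by omega)
        have hv := h1 v List.mem_cons_self
        refine ⟨?_, ?_, ?_, ?_⟩
        · intro x hx
          rcases List.mem_cons.1 hx with rfl | hx
          · exact hw
          · exact h1 x hx
        · intro p hp
          rcases List.mem_cons.1 hp with rfl | hp
          · rw [sz_pair]; omega
          · exact h2 p hp
        · rw [List.length_cons]; omega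
        · rw [List.length_cons]; omega

@[fun_prop] lemma PTL_dfs {g : α → Rot} {s : α → ℕ} (hg : PT g) (hs : PT s) :
    PT fun a => dfs (g a) (s a) := by
  let f : Rot × (List (ℕ × ℕ) × List ℕ) → Rot × (List (ℕ × ℕ) × List ℕ) := fun p =>
    (p.1, dfsStep p.1 p.2)
  have hf : PT f := PT.pair (by fun_prop) (PTL_dfsStep (by fun_prop) (by fun_prop))
  have key : ∀ n g st, f^[n] (g, st) = (g, (dfsStep g)^[n] st) := by
    intro n
    induction n with
    | zero => intro g st; rfl
    | succ n ih =>
      intro g st
      rw [Function.iterate_succ_apply, Function.iterate_succ_apply]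
      exact ih _ _
  have h1 := PT.iterate_length (f := f) (s := fun a => (g a, ([(s a, s a)], [s a])))
    (l := fun a => g a ++ g a)
    (B := fun a => sz (g a) + ((2 * sz (g a) + 1) * (2 * (sz (s a) + sz (g a)) + 2) + 1 +
      ((2 * sz (g a) + 1) * (sz (s a) + sz (g a) + 1) + 1) + 1) + 1)
    hf (by fun_prop) (by fun_prop)
    (by
      have b1 := PT.bdd hg
      have b2 := PT.bdd hs
      exact (b1.add ((((((PBd.const 2).mul b1).add (PBd.const 1)).mul
        (((PBd.const 2).mul (b2.add b1)).add (PBd.const 2))).add (PBd.const 1)).add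
        (((((PBd.const 2).mul b1).add (PBd.const 1)).mul ((b2.add b1).add (PBd.const 1))).add
          (PBd.const 1)) |>.add (PBd.const 1))).add (PBd.const 1))
    (by
      intro a i hi
      rw [key, sz_pair, sz_prod]
      obtain ⟨h1, h2, h3, h4⟩ := PTL_dfs_inv (g a) (s a) i
      have h5 := sz_list_le h1
      have h6 := sz_list_le h2
      have h7 := length_lt_sz (g a)
      rw [List.length_append] at hi
      have h8 : ((dfsStep (g a))^[i] ([(s a, s a)], [s a])).1.length * (2 * (sz (s a) + sz (g a)) + 1 + 1)
          ≤ (2 * sz (g a) + 1) * (2 * (sz (s a) + sz (g a)) + 2) := Nat.mul_le_mul (by omega) le_rfl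
      have h9 : ((dfsStep (g a))^[i] ([(s a, s a)], [s a])).2.length * (sz (s a) + sz (g a) + 1)
          ≤ (2 * sz (g a) + 1) * (sz (s a) + sz (g a) + 1) := Nat.mul_le_mul (by omega) le_rfl
      omega)
  refine (PT.fst (PT.snd h1)).congr fun a => ?_
  rw [key, List.length_append, ← two_mul]
  rfl

attribute [local irreducible] dfs

@[fun_prop] lemma PTL_par {g : α → Rot} {s v : α → ℕ} (hg : PT g) (hs : PT s) (hv : PT v) :
    PT fun a => par (g a) (s a) (v a) := by
  unfold par
  exact PT.optGetD (PT.lookup hv (by fun_prop)) hv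

attribute [local irreducible] par

@[fun_prop] lemma PTL_ancE {g : α → Rot} {s : α → ℕ} (hg : PT g) (hs : PT s) :
    PT fun a => ancE (g a) (s a) := by
  unfold ancE
  refine PT.filter (f := fun a (p : ℕ × ℕ) => decide (p.1 ≠ s a)) ?_ (by fun_prop)
  exact PT.decide_not (PT.decide_eq (by fun_prop) (by fun_prop))

attribute [local irreducible] ancE

@[fun_prop] lemma PTL_isAnc {g : α → Rot} {s u v : α → ℕ} (hg : PT g) (hs : PT s) (hu : PT u)
    (hv : PT v) : PT fun a => isAnc (g a) (s a) (u a) (v a) := by
  unfold isAnc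
  exact PT.decide_reach (by fun_prop) hv hu

attribute [local irreducible] isAnc

@[fun_prop] lemma PTL_dep {g : α → Rot} {s v : α → ℕ} (hg : PT g) (hs : PT s) (hv : PT v) :
    PT fun a => dep (g a) (s a) (v a) := by
  unfold dep
  refine PT.length (PT.filter (f := fun a u => isAnc (g a) (s a) u (v a)) ?_ (by fun_prop))
  fun_prop

attribute [local irreducible] dep

@[fun_prop] lemma PTL_backs {g : α → Rot} {s : α → ℕ} (hg : PT g) (hs : PT s) :
    PT fun a => backs (g a) (s a) := by
  unfold backs
  refine PT.filter (f := fun a (e : Nd) => isAnc (g a) (s a) e.2 e.1 &&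
    decide (e.2 ≠ par (g a) (s a) e.1)) ?_ (by fun_prop)
  exact PT.and (by fun_prop) (PT.decide_not (PT.decide_eq (by fun_prop) (by fun_prop)))

attribute [local irreducible] backs

@[fun_prop] lemma PTL_isChild {g : α → Rot} {s : α → ℕ} {d : α → Nd} (hg : PT g) (hs : PT s)
    (hd : PT d) : PT fun a => isChild (g a) (s a) (d a) := by
  unfold isChild
  exact PT.and (PT.decide_eq (by fun_prop) (by fun_prop))
    (PT.decide_not (PT.decide_eq (by fun_prop) (by fun_prop)))

attribute [local irreducible] isChild

/-! ### Constraints -/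

@[fun_prop] lemma PTL_thru {g : α → Rot} {s : α → ℕ} {x e : α → Nd} (hg : PT g) (hs : PT s)
    (hx : PT x) (he : PT e) : PT fun a => thru (g a) (s a) (x a) (e a) := by
  unfold thru
  refine PT.and (PTL_mem (by fun_prop) (by fun_prop)) (PT.or (PT.decide_eq hx he) ?_)
  refine PT.and (PT.and (PT.and (PT.and (PTL_mem (by fun_prop) (by fun_prop)) (by fun_prop))
    (by fun_prop)) (by fun_prop)) ?_
  exact PT.decide_not (PT.decide_eq (by fun_prop) (by fun_prop))

attribute [local irreducible] thru

@[fun_prop] lemma PTL_lower {g : α → Rot} {s : α → ℕ} {y e : α → Nd} (hg : PT g) (hs : PT s)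
    (hy : PT y) (he : PT e) : PT fun a => lower (g a) (s a) (y a) (e a) := by
  unfold lower
  refine PT.any (f := fun a (f : Nd) => thru (g a) (s a) (y a) f &&
    decide (dep (g a) (s a) f.2 < dep (g a) (s a) (e a).2)) ?_ (by fun_prop)
  fun_prop

attribute [local irreducible] lower

@[fun_prop] lemma PTL_sameC {g : α → Rot} {s : α → ℕ} {e f : α → Nd} (hg : PT g) (hs : PT s)
    (he : PT e) (hf : PT f) : PT fun a => sameC (g a) (s a) (e a) (f a) := by
  unfold sameC
  refine PT.any (f := fun a (x : Nd) => (darts (g a) (s a)).any fun y =>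
    decide (x.1 = y.1) && decide (x ≠ y) && thru (g a) (s a) x (e a) && thru (g a) (s a) x (f a) &&
      lower (g a) (s a) y (e a) && lower (g a) (s a) y (f a)) ?_ (by fun_prop)
  refine PT.any (f := fun (q : α × Nd) (y : Nd) => decide (q.2.1 = y.1) && decide (q.2 ≠ y) &&
    thru (g q.1) (s q.1) q.2 (e q.1) && thru (g q.1) (s q.1) q.2 (f q.1) &&
      lower (g q.1) (s q.1) y (e q.1) && lower (g q.1) (s q.1) y (f q.1)) ?_ (by fun_prop)
  refine PT.and (PT.and (PT.and (PT.and (PT.and (PT.decide_eq (by fun_prop) (by fun_prop))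
    (PT.decide_not (PT.decide_eq (by fun_prop) (by fun_prop)))) (by fun_prop)) (by fun_prop))
    (by fun_prop)) (by fun_prop)

attribute [local irreducible] sameC

@[fun_prop] lemma PTL_diffC {g : α → Rot} {s : α → ℕ} {e f : α → Nd} (hg : PT g) (hs : PT s)
    (he : PT e) (hf : PT f) : PT fun a => diffC (g a) (s a) (e a) (f a) := by
  unfold diffC
  refine PT.any (f := fun a (x : Nd) => (darts (g a) (s a)).any fun y =>
    decide (x.1 = y.1) && decide (x ≠ y) && thru (g a) (s a) x (e a) && thru (g a) (s a) y (f a) &&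
      lower (g a) (s a) y (e a) && lower (g a) (s a) x (f a)) ?_ (by fun_prop)
  refine PT.any (f := fun (q : α × Nd) (y : Nd) => decide (q.2.1 = y.1) && decide (q.2 ≠ y) &&
    thru (g q.1) (s q.1) q.2 (e q.1) && thru (g q.1) (s q.1) y (f q.1) &&
      lower (g q.1) (s q.1) y (e q.1) && lower (g q.1) (s q.1) q.2 (f q.1)) ?_ (by fun_prop)
  refine PT.and (PT.and (PT.and (PT.and (PT.and (PT.decide_eq (by fun_prop) (by fun_prop))
    (PT.decide_not (PT.decide_eq (by fun_prop) (by fun_prop)))) (by fun_prop)) (by fun_prop))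
    (by fun_prop)) (by fun_prop)

attribute [local irreducible] diffC

@[fun_prop] lemma PTL_colE {g : α → Rot} {s : α → ℕ} (hg : PT g) (hs : PT s) :
    PT fun a => colE (g a) (s a) := by
  unfold colE
  refine PT.flatMap (f := fun a (e : Nd) => (backs (g a) (s a)).flatMap fun f =>
    (if sameC (g a) (s a) e f = true then [((e, true), (f, true)), ((e, false), (f, false))] else []) ++
    (if diffC (g a) (s a) e f = true then [((e, true), (f, false)), ((e, false), (f, true))] else []))
    ?_ (by fun_prop)
  refine PT.flatMap (f := fun (q : α × Nd) (f : Nd) =>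
    (if sameC (g q.1) (s q.1) q.2 f = true then
      [((q.2, true), (f, true)), ((q.2, false), (f, false))] else []) ++
    (if diffC (g q.1) (s q.1) q.2 f = true then
      [((q.2, true), (f, false)), ((q.2, false), (f, true))] else []))
    ?_ (by fun_prop)
  exact PT.append (PT.ifBool (by fun_prop) (by fun_prop) (by fun_prop))
    (PT.ifBool (by fun_prop) (by fun_prop) (by fun_prop))

attribute [local irreducible] colE

@[fun_prop] lemma PTL_colRep {g : α → Rot} {s : α → ℕ} {e : α → Nd} (hg : PT g) (hs : PT s)
    (he : PT e) : PT fun a => colRep (g a) (s a) (e a) := by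
  unfold colRep
  refine PT.optGetD (PT.find? (f := fun a (r : Nd) =>
    decide ((e a, true) ∈ reach (colE (g a) (s a)) (r, true)) ||
    decide ((e a, false) ∈ reach (colE (g a) (s a)) (r, true))) ?_ (by fun_prop)) he
  exact PT.or (PTL_mem (by fun_prop) (PT.reach (by fun_prop) (by fun_prop)))
    (PTL_mem (by fun_prop) (PT.reach (by fun_prop) (by fun_prop)))

attribute [local irreducible] colRep

@[fun_prop] lemma PTL_col {g : α → Rot} {s : α → ℕ} {e : α → Nd} (hg : PT g) (hs : PT s)
    (he : PT e) : PT fun a => col (g a) (s a) (e a) := by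
  unfold col
  exact PTL_mem (by fun_prop) (PT.reach (by fun_prop) (by fun_prop))

attribute [local irreducible] col

/-! ### The sequences -/

@[fun_prop] lemma PTL_leq {g : α → Rot} {s : α → ℕ} {e f : α → Nd} (hg : PT g) (hs : PT s)
    (he : PT e) (hf : PT f) : PT fun a => leq (g a) (s a) (e a) (f a) := by
  unfold leq
  fun_prop

attribute [local irreducible] leq

@[fun_prop] lemma PTL_dirs {g : α → Rot} {s v : α → ℕ} (hg : PT g) (hs : PT s) (hv : PT v) :
    PT fun a => dirs (g a) (s a) (v a) := by
  unfold dirs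
  refine PT.filter (f := fun a (d : Nd) => isChild (g a) (s a) d || decide (d ∈ backs (g a) (s a)))
    (PT.or (by fun_prop) (PTL_mem (by fun_prop) (by fun_prop))) ?_
  exact PT.map (f := fun a w => (v a, w)) (by fun_prop) (by fun_prop)

attribute [local irreducible] dirs

@[fun_prop] lemma PTL_dirSeq {g : α → Rot} {s : α → ℕ} {tbl : α → List (ℕ × List Nd)} {d : α → Nd}
    (hg : PT g) (hs : PT s) (ht : PT tbl) (hd : PT d) :
    PT fun a => dirSeq (g a) (s a) (tbl a) (d a) := by
  unfold dirSeq
  refine PT.ite (p := fun a => d a ∈ backs (g a) (s a)) (PTL_mem (by fun_prop) (by fun_prop))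
    (by fun_prop) ?_
  refine PT.filter (f := fun a (e : Nd) => decide (e.2 ≠ (d a).1))
    (PT.decide_not (PT.decide_eq (by fun_prop) (by fun_prop))) ?_
  exact PT.optGetD (PT.lookup (by fun_prop) ht) (PT.const _)

attribute [local irreducible] dirSeq

@[fun_prop] lemma PTL_dle {g : α → Rot} {s : α → ℕ} {tbl : α → List (ℕ × List Nd)} {x y : α → Nd}
    (hg : PT g) (hs : PT s) (ht : PT tbl) (hx : PT x) (hy : PT y) :
    PT fun a => dle (g a) (s a) (tbl a) (x a) (y a) := by
  unfold dle
  refine PT.all (f := fun a (e : Nd) => (dirSeq (g a) (s a) (tbl a) (y a)).all fun f =>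
    leq (g a) (s a) e f) ?_ (by fun_prop)
  exact PT.all (f := fun (q : α × Nd) (f : Nd) => leq (g q.1) (s q.1) q.2 f) (by fun_prop)
    (by fun_prop)

attribute [local irreducible] dle

@[fun_prop] lemma PTL_insBy {g : α → Rot} {s : α → ℕ} {tbl : α → List (ℕ × List Nd)}
    {l : α → List Nd} {x : α → Nd}
    (hg : PT g) (hs : PT s) (ht : PT tbl) (hl : PT l) (hx : PT x) :
    PT fun a => insBy (dle (g a) (s a) (tbl a)) (l a) (x a) := by
  unfold insBy
  refine PT.append (PT.takeWhile (f := fun a y => !(dle (g a) (s a) (tbl a) (x a) y)) ?_ hl)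
    (PT.cons hx (PT.dropWhile (f := fun a y => !(dle (g a) (s a) (tbl a) (x a) y)) ?_ hl))
  all_goals fun_prop

lemma PTL_sz_insBy (le : Nd → Nd → Bool) (l : List Nd) (x : Nd) :
    sz (insBy le l x) = sz l + sz x + 1 := by
  unfold insBy
  have h1 := sz_append (l.takeWhile fun y => !(le x y)) (x :: l.dropWhile fun y => !(le x y))
  have h2 := sz_append (l.takeWhile fun y => !(le x y)) (l.dropWhile fun y => !(le x y))
  rw [List.takeWhile_append_dropWhile] at h2
  rw [sz_cons] at h1
  omega

lemma PTL_sz_foldl_insBy (le : Nd → Nd → Bool) (l : List Nd) :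
    ∀ acc, sz (l.foldl (insBy le) acc) + 1 = sz acc + sz l := by
  induction l with
  | nil => intro acc; simp
  | cons x l ih =>
    intro acc
    rw [List.foldl_cons, ih, PTL_sz_insBy, sz_cons]
    omega

@[fun_prop] lemma PTL_sortD {g : α → Rot} {s v : α → ℕ} {tbl : α → List (ℕ × List Nd)}
    (hg : PT g) (hs : PT s) (ht : PT tbl) (hv : PT v) :
    PT fun a => sortD (g a) (s a) (tbl a) (v a) := by
  unfold sortD
  have h1 : PT fun a => (dirs (g a) (s a) (v a)).filter fun d =>
      decide (dirSeq (g a) (s a) (tbl a) d ≠ []) := by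
    refine PT.filter (f := fun a d => decide (dirSeq (g a) (s a) (tbl a) d ≠ [])) ?_ (by fun_prop)
    exact PT.decide_not (PT.decide_eq (by fun_prop) (by fun_prop))
  have h2 : PT fun a => (dirs (g a) (s a) (v a)).filter fun d =>
      decide (dirSeq (g a) (s a) (tbl a) d = []) := by
    refine PT.filter (f := fun a d => decide (dirSeq (g a) (s a) (tbl a) d = [])) ?_ (by fun_prop)
    exact PT.decide_eq (by fun_prop) (by fun_prop)
  refine PT.append ?_ h2
  refine PT.foldl (g := fun a => insBy (dle (g a) (s a) (tbl a))) (s := fun _ => [])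
    (B := fun a => sz ((dirs (g a) (s a) (v a)).filter fun d =>
      decide (dirSeq (g a) (s a) (tbl a) d ≠ []))) (by fun_prop) (by fun_prop) h1 (PT.bdd h1) ?_
  intro a l1 l2 hl
  have h3 := PTL_sz_foldl_insBy (dle (g a) (s a) (tbl a)) l1 []
  rw [sz_nil] at h3
  rw [hl]
  have h4 := sz_append l1 l2
  have h5 := one_le_sz l2
  omega

attribute [local irreducible] sortD

/-! ### The algorithm with cut sequences -/

/-- `seqStep` with entries cut to the length `n` -/
def seqStepC (n : ℕ) (g : Rot) (s : ℕ) (tbl : List (ℕ × List Nd)) (v : ℕ) : List (ℕ × List Nd) :=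
  (v, ((sortD g s tbl v).flatMap (dirSeq g s tbl)).take n) :: tbl

def seqTabC (g : Rot) (s : ℕ) : List (ℕ × List Nd) :=
  ((dfs g s).map Prod.fst).foldl (seqStepC (darts g s).length g s) []

def incsT (tab : List (ℕ × List Nd)) (g : Rot) (s : ℕ) (b : Bool) (v y : ℕ) : List ℕ :=
  (((tab.lookup y).getD []).filter fun e => decide (e.2 = v) && decide (col g s e = b)).map Prod.fst

def rotVT (tab : List (ℕ × List Nd)) (g : Rot) (s v : ℕ) : List ℕ :=
  (if v = s then [] else [par g s v]) ++
  (sortD g s tab v).flatMap fun d =>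
    if d ∈ backs g s then [d.2]
    else (incsT tab g s true v d.2).reverse ++ [d.2] ++ (incsT tab g s false v d.2).reverse

def embedT (tab : List (ℕ × List Nd)) (g : Rot) (s : ℕ) : Rot :=
  (List.range g.length).map fun v => if v ∈ comp g s then rotVT tab g s v else []

/-- `embed` with cut sequences. -/
def embedC (g : Rot) (s : ℕ) : Rot := embedT (seqTabC g s) g s

@[fun_prop] lemma PTL_seqStepC {n : α → ℕ} {g : α → Rot} {s v : α → ℕ}
    {tbl : α → List (ℕ × List Nd)} (hn : PT n) (hg : PT g) (hs : PT s) (ht : PT tbl) (hv : PT v) :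
    PT fun a => seqStepC (n a) (g a) (s a) (tbl a) (v a) := by
  unfold seqStepC
  refine PT.cons (PT.pair hv (PT.take ?_ hn)) ht
  exact PT.flatMap (f := fun a => dirSeq (g a) (s a) (tbl a)) (by fun_prop) (by fun_prop)

private lemma PTL_dirs_sz {g : Rot} {s v : ℕ} {B : ℕ} (hB : sz v + sz g + 1 ≤ B) :
    ∀ d ∈ dirs g s v, sz d ≤ B := by
  intro d hd
  unfold dirs at hd
  obtain ⟨w, hw, rfl⟩ := List.mem_map.1 (List.mem_filter.1 hd).1
  rw [sz_pair]
  have := PTL_sz_nbrs hw
  omega

private lemma PTL_tab_inv (n : ℕ) (g : Rot) (s B : ℕ) (l : List ℕ) (hl : ∀ v ∈ l, sz v + sz g + 1 ≤ B) :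
    ∀ tbl : List (ℕ × List Nd), (∀ p ∈ tbl, sz p.1 ≤ B ∧ p.2.length ≤ n ∧ ∀ e ∈ p.2, sz e ≤ B) →
      (∀ p ∈ l.foldl (seqStepC n g s) tbl, sz p.1 ≤ B ∧ p.2.length ≤ n ∧ ∀ e ∈ p.2, sz e ≤ B) ∧
      (l.foldl (seqStepC n g s) tbl).length = l.length + tbl.length := by
  induction l with
  | nil => intro tbl h; exact ⟨h, by simp⟩
  | cons v l ih =>
    intro tbl h
    rw [List.foldl_cons]
    have hv := hl v List.mem_cons_self
    obtain ⟨h1, h2⟩ := ih (fun w hw => hl w (List.mem_cons_of_mem _ hw)) (seqStepC n g s tbl v) (by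
      intro p hp
      rcases List.mem_cons.1 hp with rfl | hp
      · refine ⟨by show sz v ≤ B; omega, by simp, ?_⟩
        intro e he
        obtain ⟨d, hd, he⟩ := List.mem_flatMap.1 (List.mem_of_mem_take he)
        have hd' : d ∈ dirs g s v := by
          unfold sortD at hd
          rcases List.mem_append.1 hd with hd | hd
          · have key : ∀ (m acc : List Nd), d ∈ m.foldl (insBy (dle g s tbl)) acc → d ∈ m ∨ d ∈ acc := by
              intro m
              induction m with
              | nil => intro acc h; exact Or.inr h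
              | cons x m ihm =>
                intro acc h
                rw [List.foldl_cons] at h
                rcases ihm _ h with h | h
                · exact Or.inl (List.mem_cons_of_mem _ h)
                · unfold insBy at h
                  rcases List.mem_append.1 h with h | h
                  · exact Or.inr ((List.takeWhile_sublist _).subset h)
                  · rcases List.mem_cons.1 h with rfl | h
                    · exact Or.inl List.mem_cons_self
                    · exact Or.inr ((List.dropWhile_sublist _).subset h)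
            rcases key _ _ hd with h | h
            · exact (List.mem_filter.1 h).1
            · simp at h
          · exact (List.mem_filter.1 hd).1
        unfold dirSeq at he
        split_ifs at he with hb
        · rw [List.mem_singleton] at he
          rw [he]
          exact PTL_dirs_sz hv d hd'
        · have he := (List.mem_filter.1 he).1
          rcases hlk : tbl.lookup d.2 with _ | q
          · rw [hlk] at he; simp at he
          · rw [hlk] at he
            have hq : (d.2, q) ∈ tbl := by
              have := List.lookup_eq_some_iff.1 hlk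
              obtain ⟨l1, l2, rfl, _⟩ := this
              simp
            exact (h _ hq).2.2 e he
      · exact h p hp)
    refine ⟨h1, ?_⟩
    rw [h2, List.length_cons, seqStepC, List.length_cons]
    omega

@[fun_prop] lemma PTL_seqTabC {g : α → Rot} {s : α → ℕ} (hg : PT g) (hs : PT s) :
    PT fun a => seqTabC (g a) (s a) := by
  unfold seqTabC
  have hl : PT fun a => (dfs (g a) (s a)).map Prod.fst :=
    PT.map (f := fun (_ : α) (p : ℕ × ℕ) => p.1) (by fun_prop) (by fun_prop)
  have hn : PT fun a => darts (g a) (s a) := by fun_prop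
  have b1 := PT.bdd hl
  have b2 := PT.bdd hg
  have b3 := PT.bdd hn
  refine PT.foldl (g := fun a => seqStepC (darts (g a) (s a)).length (g a) (s a)) (s := fun _ => [])
    (B := fun a => sz ((dfs (g a) (s a)).map Prod.fst) *
      (((sz ((dfs (g a) (s a)).map Prod.fst) + sz (g a) + 1) +
        (sz (darts (g a) (s a)) * ((sz ((dfs (g a) (s a)).map Prod.fst) + sz (g a) + 1) + 1) + 1) + 1)
          + 1) + 1) (by fun_prop) (by fun_prop) hl ?_ ?_
  · have b4 := (b1.add b2).add (PBd.const 1)
    exact (b1.mul (((b4.add ((b3.mul (b4.add (PBd.const 1))).add (PBd.const 1))).add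
      (PBd.const 1)).add (PBd.const 1))).add (PBd.const 1)
  · intro a l1 l2 hl12
    set B := sz ((dfs (g a) (s a)).map Prod.fst) + sz (g a) + 1 with hB
    obtain ⟨h1, h2⟩ := PTL_tab_inv (darts (g a) (s a)).length (g a) (s a) B l1 (by
      intro v hv
      have h3 : sz v ≤ sz ((dfs (g a) (s a)).map Prod.fst) := by
        rw [hl12]
        exact sz_le_of_mem (List.mem_append_left _ hv)
      omega) [] (by simp)
    have h3 : ∀ p ∈ l1.foldl (seqStepC (darts (g a) (s a)).length (g a) (s a)) [],
        sz p ≤ B + (sz (darts (g a) (s a)) * (B + 1) + 1) + 1 := by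
      intro p hp
      obtain ⟨h4, h5, h6⟩ := h1 p hp
      rw [sz_prod]
      have h7 := sz_list_le h6
      have h8 := length_lt_sz (darts (g a) (s a))
      have h9 : p.2.length * (B + 1) ≤ sz (darts (g a) (s a)) * (B + 1) :=
        Nat.mul_le_mul_right _ (by omega)
      omega
    have h4 := sz_list_le h3
    rw [h2, List.length_nil, Nat.add_zero] at h4
    have h5 : l1.length ≤ sz ((dfs (g a) (s a)).map Prod.fst) := by
      have h6 := length_lt_sz ((dfs (g a) (s a)).map Prod.fst)
      have h7 := congrArg List.length hl12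
      rw [List.length_append] at h7
      omega
    exact h4.trans (Nat.add_le_add_right (Nat.mul_le_mul_right _ h5) _)

@[fun_prop] lemma PTL_incsT {tab : α → List (ℕ × List Nd)} {g : α → Rot} {s v y : α → ℕ}
    {b : α → Bool} (ht : PT tab) (hg : PT g) (hs : PT s) (hb : PT b) (hv : PT v) (hy : PT y) :
    PT fun a => incsT (tab a) (g a) (s a) (b a) (v a) (y a) := by
  unfold incsT
  refine PT.map (f := fun (_ : α) (p : Nd) => p.1) (by fun_prop) ?_
  refine PT.filter (f := fun a (e : Nd) => decide (e.2 = v a) && decide (col (g a) (s a) e = b a))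
    (PT.and (PT.decide_eq (by fun_prop) (by fun_prop)) (PT.decide_eq (by fun_prop) (by fun_prop))) ?_
  exact PT.optGetD (PT.lookup (by fun_prop) ht) (PT.const _)

@[fun_prop] lemma PTL_rotVT {tab : α → List (ℕ × List Nd)} {g : α → Rot} {s v : α → ℕ}
    (ht : PT tab) (hg : PT g) (hs : PT s) (hv : PT v) :
    PT fun a => rotVT (tab a) (g a) (s a) (v a) := by
  unfold rotVT
  refine PT.append (PT.ite (p := fun a => v a = s a) (PT.decide_eq hv hs) (by fun_prop)
    (by fun_prop)) ?_
  refine PT.flatMap (f := fun a (d : Nd) => if d ∈ backs (g a) (s a) then [d.2]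
    else (incsT (tab a) (g a) (s a) true (v a) d.2).reverse ++ [d.2] ++
      (incsT (tab a) (g a) (s a) false (v a) d.2).reverse) ?_ (by fun_prop)
  refine PT.ite (p := fun q : α × Nd => q.2 ∈ backs (g q.1) (s q.1))
    (PTL_mem (by fun_prop) (by fun_prop)) (by fun_prop) ?_
  fun_prop

/-- Chunk PTL. -/
@[fun_prop] theorem PT_embedC {g : α → Rot} {s : α → ℕ} (hg : PT g) (hs : PT s) :
    PT fun a => embedC (g a) (s a) := by
  unfold embedC embedT
  refine PT.map (f := fun a v => if v ∈ comp (g a) (s a) then
    rotVT (seqTabC (g a) (s a)) (g a) (s a) v else []) ?_ (PT.rangeLength hg)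
  refine PT.ite (p := fun q : α × ℕ => q.2 ∈ comp (g q.1) (s q.1))
    (PTL_mem (by fun_prop) (by fun_prop)) (by fun_prop) (by fun_prop)

/-! ### On valid lists nothing is cut -/

private lemma PTL_lookup (g : Rot) (s : ℕ) (v : ℕ) (l : List ℕ) (hv : v ∉ l) :
    ∀ tbl : List (ℕ × List Nd), (l.foldl (seqStep g s) tbl).lookup v = tbl.lookup v := by
  induction l with
  | nil => intro tbl; rfl
  | cons w l ih =>
    intro tbl
    rw [List.mem_cons, not_or] at hv
    rw [List.foldl_cons, ih hv.2, seqStep, List.lookup_cons, beq_eq_false_iff_ne.2 hv.1]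

private lemma PTL_tab_eq {g : Rot} {s : ℕ} (h : RotValid g s) (l1 l2 : List ℕ)
    (hl : (dfs g s).map Prod.fst = l1 ++ l2) :
    l1.foldl (seqStepC (darts g s).length g s) [] = l1.foldl (seqStep g s) [] := by
  induction l1 using List.reverseRecOn generalizing l2 with
  | nil => rfl
  | append_singleton l1 v ih =>
    rw [List.append_assoc] at hl
    have h1 := ih _ hl
    rw [List.foldl_append, List.foldl_append, h1]
    show seqStepC _ g s _ v = seqStep g s _ v
    rw [seqStepC, seqStep, List.take_of_length_le]
    have hv : v ∈ comp g s := by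
      rw [← mem_dfs h, hl]; simp
    have hnd := dfs_nodup h
    have h2 : seqOf g s v = (sortD g s (l1.foldl (seqStep g s) []) v).flatMap
        (dirSeq g s (l1.foldl (seqStep g s) [])) := by
      unfold seqOf seqTab
      rw [hl, List.foldl_append, List.singleton_append, List.foldl_cons, PTL_lookup, seqStep,
        List.lookup_cons, beq_self_eq_true]
      · rfl
      · intro h3
        rw [hl, List.nodup_append] at hnd
        have h4 := hnd.2.1
        rw [List.singleton_append, List.nodup_cons] at h4
        exact h4.1 h3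
    rw [← h2]
    have h3 : (seqOf g s v) ⊆ darts g s := by
      intro e he
      rw [mem_seqOf h hv] at he
      have h4 := he.1
      unfold backs at h4
      exact (List.mem_filter.1 h4).1
    exact (List.subperm_of_subset (seqOf_nodup h hv) h3).length_le

theorem seqTabC_eq {g : Rot} {s : ℕ} (h : RotValid g s) : seqTabC g s = seqTab g s :=
  PTL_tab_eq h _ [] (by simp)

theorem embedC_eq {g : Rot} {s : ℕ} (h : RotValid g s) : embedC g s = embed g s := by
  unfold embedC
  rw [seqTabC_eq h]
  rfl

end Pool.Agent.PFire
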