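import Pool.Agent.Lib.PFire.EulerRaw
import Pool.Agent.Lib.CookLevin.Planar

/-!
# Chunk PL: rotation lists of a planar graph

`IsPlanar` (in `Pool.Agent.Lib.CookLevin.Planar`): `G` has a rotation system `R` with
`V - E + F = 2 c`, `F` = number of orbits of `R.face` + number of isolated vertices, `c` = number of connected
components.  Let `rot v` be the list of the heads of the darts at `v` in the cyclic order of `R.rot` (start with
any dart).  Then `nextIn (rot v)` is given by `R.rot`, and `phi rot` by `R.face`.  For each component `c'`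
with an edge and `s' ∈ c'`: `2 (V_c' + F_c') ≤ 2 E_c' + 4` (`rot_euler_le`); for an isolated vertex
`V + F = 2 = 0 + 2`.  The sum over the components is an equality, so each of the inequalities is one.
-/

set_option autoImplicit false

namespace Pool.Agent.PFire

open Pool.Agent.Lib.CookLevin

/-! ### Lists -/

theorem pl_nextIn_append (a b : List ℕ) (x : ℕ) (hx : x ∉ a) :
    nextIn (a ++ x :: b) x = (b ++ (a ++ x :: b)).headD 0 := by
  unfold nextIn
  have h : (a ++ x :: b).dropWhile (fun y => decide (y ≠ x)) = x :: b := by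
    rw [List.dropWhile_append_of_pos]
    · rw [List.dropWhile_cons]
      simp
    · intro y hy
      have : y ≠ x := fun h => hx (h ▸ hy)
      simpa using this
  rw [h]
  rfl

theorem pl_nextIn_range {m : ℕ} (g : ℕ → ℕ) (hg : ∀ i < m, ∀ j < m, g i = g j → i = j)
    (hper : g m = g 0) (i : ℕ) (hi : i < m) :
    nextIn ((List.range m).map g) (g i) = g (i + 1) := by
  have h1 : List.range m = List.range i ++ i :: (List.range (m - (i + 1))).map (i + 1 + ·) := by
    have h2 : m = (i + 1) + (m - (i + 1)) := by omega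
    conv_lhs => rw [h2, List.range_add, List.range_succ]
    simp
  have h3 : (List.range m).map g = (List.range i).map g ++ g i ::
      ((List.range (m - (i + 1))).map (i + 1 + ·)).map g := by
    conv_lhs => rw [h1, List.map_append, List.map_cons]
  rw [h3, pl_nextIn_append]
  · rw [← h3]
    rcases Nat.lt_or_ge (i + 1) m with h | h
    · obtain ⟨k, hk⟩ : ∃ k, m - (i + 1) = k + 1 := ⟨m - (i + 1) - 1, by omega⟩
      rw [hk, List.range_succ_eq_map]
      simp
    · have h4 : m = i + 1 := by omega
      have h5 : m - (i + 1) = 0 := by omega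
      rw [h5]
      obtain ⟨k, hk⟩ : ∃ k, m = k + 1 := ⟨m - 1, by omega⟩
      rw [← h4, hper, hk, List.range_succ_eq_map]
      simp
  · intro hmem
    rw [List.mem_map] at hmem
    obtain ⟨j, hj, hj'⟩ := hmem
    rw [List.mem_range] at hj
    have := hg j (by omega) i hi hj'
    omega

section

variable {n : ℕ} {G : SimpleGraph (Fin n)} (R : RotationSystem G)

open Classical in
/-- the heads of the darts at `v` in the cyclic order -/
noncomputable def plList (v : Fin n) : List ℕ :=
  if h : ∃ d : G.Dart, d.fst = v then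
    (List.range (Function.minimalPeriod R.rot h.choose)).map
      (fun k => ((R.rot^[k] h.choose).snd : Fin n).val)
  else []

/-- the rotation lists -/
noncomputable def plRot : Rot := List.ofFn (fun v : Fin n => plList R v)

theorem plRot_length : (plRot R).length = n := by
  unfold plRot; simp

theorem nbrs_plRot (v : Fin n) : nbrs (plRot R) v.1 = plList R v := by
  unfold nbrs plRot
  rw [List.getD_eq_getElem?_getD, List.getElem?_ofFn]
  simp

theorem nbrs_plRot_ge (k : ℕ) (hk : n ≤ k) : nbrs (plRot R) k = [] := by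
  unfold nbrs
  rw [List.getD_eq_getElem?_getD, List.getElem?_eq_none (by rw [plRot_length]; exact hk)]
  rfl

theorem pl_fst_iterate (k : ℕ) (d : G.Dart) : (R.rot^[k] d).fst = d.fst := by
  induction k with
  | zero => rfl
  | succ k ih => rw [Function.iterate_succ_apply', R.rot_fst, ih]

theorem pl_dart_ext {d d' : G.Dart} (h1 : d.fst = d'.fst) (h2 : d.snd.val = d'.snd.val) : d = d' := by
  apply SimpleGraph.Dart.ext
  exact Prod.ext h1 (Fin.ext h2)

theorem pl_per (d : G.Dart) : d ∈ Function.periodicPts R.rot := by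
  have : Finite G.Dart := inferInstance
  exact Function.Injective.mem_periodicPts R.rot.injective d

theorem pl_same {d d' : G.Dart} (h : d.fst = d'.fst) :
    ∃ k < Function.minimalPeriod R.rot d, R.rot^[k] d = d' := by
  have : Finite G.Dart := inferInstance
  obtain ⟨k, hk⟩ := (R.rot_trans d d' h).exists_nat_pow_eq
  rw [← Equiv.Perm.iterate_eq_pow] at hk
  refine ⟨k % Function.minimalPeriod R.rot d, Nat.mod_lt _ ?_, ?_⟩
  · exact Function.minimalPeriod_pos_of_mem_periodicPts (pl_per R d)
  · rw [Function.iterate_mod_minimalPeriod_eq]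
    exact hk

/-- a description of the list at a vertex with a dart -/
theorem plList_spec (v : Fin n) (h : ∃ d : G.Dart, d.fst = v) :
    ∃ d : G.Dart, d.fst = v ∧ plList R v = (List.range (Function.minimalPeriod R.rot d)).map
      (fun k => ((R.rot^[k] d).snd : Fin n).val) := by
  refine ⟨h.choose, h.choose_spec, ?_⟩
  unfold plList
  rw [dif_pos h]

theorem pl_inj (d : G.Dart) : ∀ i < Function.minimalPeriod R.rot d,
    ∀ j < Function.minimalPeriod R.rot d,
      ((R.rot^[i] d).snd : Fin n).val = ((R.rot^[j] d).snd : Fin n).val → i = j := by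
  intro i hi j hj hij
  have h1 : R.rot^[i] d = R.rot^[j] d := by
    apply pl_dart_ext _ hij
    rw [pl_fst_iterate, pl_fst_iterate]
  exact (Function.iterate_eq_iterate_iff_of_lt_minimalPeriod hi hj).1 h1

theorem plList_nodup (v : Fin n) : (plList R v).Nodup := by
  by_cases h : ∃ d : G.Dart, d.fst = v
  · obtain ⟨d, hd, he⟩ := plList_spec R v h
    rw [he]
    refine List.Nodup.map_on ?_ List.nodup_range
    intro i hi j hj hij
    rw [List.mem_range] at hi hj
    exact pl_inj R d i hi j hj hij
  · unfold plList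
    rw [dif_neg h]
    exact List.nodup_nil

theorem mem_plList (v : Fin n) (k : ℕ) : k ∈ plList R v ↔ ∃ w : Fin n, w.val = k ∧ G.Adj v w := by
  constructor
  · intro hk
    by_cases h : ∃ d : G.Dart, d.fst = v
    · obtain ⟨d, hd, he⟩ := plList_spec R v h
      rw [he, List.mem_map] at hk
      obtain ⟨i, _, hi⟩ := hk
      refine ⟨(R.rot^[i] d).snd, hi, ?_⟩
      have := (R.rot^[i] d).adj
      rwa [show (R.rot^[i] d).toProd.1 = v from by rw [← hd]; exact pl_fst_iterate R i d] at this
    · unfold plList at hk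
      rw [dif_neg h] at hk
      exact absurd hk (by simp)
  · rintro ⟨w, rfl, hw⟩
    have h : ∃ d : G.Dart, d.fst = v := ⟨⟨(v, w), hw⟩, rfl⟩
    obtain ⟨d, hd, he⟩ := plList_spec R v h
    rw [he, List.mem_map]
    obtain ⟨i, hi, hi'⟩ := pl_same R (d := d) (d' := ⟨(v, w), hw⟩) hd
    refine ⟨i, List.mem_range.2 hi, ?_⟩
    rw [hi']

theorem nextIn_plList (d : G.Dart) : nextIn (plList R d.fst) d.snd.val = ((R.rot d).snd : Fin n).val := by
  obtain ⟨e, he, hl⟩ := plList_spec R d.fst ⟨d, rfl⟩
  obtain ⟨i, hi, hi'⟩ := pl_same R (d := e) (d' := d) he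
  rw [hl]
  have h1 := pl_nextIn_range (fun k => ((R.rot^[k] e).snd : Fin n).val) (pl_inj R e)
    (by
      rw [Function.iterate_minimalPeriod]
      rfl) i hi
  have h2 : ((R.rot^[i] e).snd : Fin n).val = d.snd.val := by rw [hi']
  rw [← h2, h1]
  change ((R.rot^[i + 1] e).snd : Fin n).val = _
  rw [Function.iterate_succ_apply', hi']

/-- a dart as a pair of numbers -/
def plD (d : G.Dart) : Nd := (d.fst.val, d.snd.val)

theorem plD_inj {d d' : G.Dart} (h : plD d = plD d') : d = d' := by
  unfold plD at h
  rw [Prod.mk.injEq] at h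
  exact pl_dart_ext (Fin.ext h.1) h.2

theorem phi_plD (d : G.Dart) : phi (plRot R) (plD d) = plD (R.face d) := by
  unfold phi plD
  change ((d.snd.val, nextIn (nbrs (plRot R) d.snd.val) d.fst.val) : Nd) = _
  rw [nbrs_plRot]
  have h := nextIn_plList R d.symm
  rw [show (d.symm).fst = d.snd from rfl, show (d.symm).snd = d.fst from rfl] at h
  rw [h]
  have h1 : (R.face d).fst = d.snd := R.face_fst d
  rw [h1]
  rfl

theorem phi_iter_plD (k : ℕ) (d : G.Dart) : (phi (plRot R))^[k] (plD d) = plD (R.face^[k] d) := by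
  induction k with
  | zero => rfl
  | succ k ih => rw [Function.iterate_succ_apply', ih, phi_plD, Function.iterate_succ_apply']

theorem mem_nbrs_plRot (u v : ℕ) : v ∈ nbrs (plRot R) u ↔
    ∃ a b : Fin n, a.val = u ∧ b.val = v ∧ G.Adj a b := by
  rcases Nat.lt_or_ge u n with hu | hu
  · have h := nbrs_plRot R ⟨u, hu⟩
    change nbrs (plRot R) u = _ at h
    rw [h, mem_plList]
    constructor
    · rintro ⟨w, hw, hadj⟩
      exact ⟨⟨u, hu⟩, w, rfl, hw, hadj⟩
    · rintro ⟨a, b, rfl, hb, hadj⟩
      exact ⟨b, hb, hadj⟩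
  · rw [nbrs_plRot_ge R u hu]
    constructor
    · intro h; exact absurd h (by simp)
    · rintro ⟨a, b, ha, _⟩
      have := a.2
      omega

theorem plRot_valid (s : Fin n) : RotValid (plRot R) s.1 where
  s_lt := by rw [plRot_length]; exact s.2
  lt := by
    intro u v h
    rw [mem_nbrs_plRot] at h
    obtain ⟨a, b, _, rfl, _⟩ := h
    rw [plRot_length]; exact b.2
  nodup := by
    intro u
    rcases Nat.lt_or_ge u n with hu | hu
    · have h := nbrs_plRot R ⟨u, hu⟩
      change nbrs (plRot R) u = _ at h
      rw [h]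
      exact plList_nodup R _
    · rw [nbrs_plRot_ge R u hu]
      exact List.nodup_nil
  symm := by
    intro u v h
    rw [mem_nbrs_plRot] at h ⊢
    obtain ⟨a, b, ha, hb, hadj⟩ := h
    exact ⟨b, a, hb, ha, hadj.symm⟩
  irrefl := by
    intro u h
    rw [mem_nbrs_plRot] at h
    obtain ⟨a, b, ha, hb, hadj⟩ := h
    have : a = b := Fin.ext (ha.trans hb.symm)
    subst this
    exact hadj.ne rfl

/-! ### Components -/

theorem mem_comp_plRot (s : Fin n) (k : ℕ) :
    k ∈ comp (plRot R) s.1 ↔ ∃ v : Fin n, v.val = k ∧ G.Reachable s v := by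
  rw [mem_comp (plRot_valid R s)]
  constructor
  · intro h
    induction h with
    | refl => exact ⟨s, rfl, SimpleGraph.Reachable.refl _⟩
    | tail _ hbc ih =>
      obtain ⟨v, hv, hr⟩ := ih
      rw [mem_nbrs_plRot] at hbc
      obtain ⟨a, b, ha, hb, hadj⟩ := hbc
      have : a = v := Fin.ext (ha.trans hv.symm)
      subst this
      exact ⟨b, hb, hr.trans hadj.reachable⟩
  · rintro ⟨v, rfl, hr⟩
    rw [SimpleGraph.reachable_iff_reflTransGen] at hr
    induction hr with
    | refl => exact Relation.ReflTransGen.refl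
    | tail _ hbc ih =>
      refine Relation.ReflTransGen.tail ih ?_
      rw [mem_nbrs_plRot]
      exact ⟨_, _, rfl, rfl, hbc⟩

theorem mem_darts_plRot (s : Fin n) (x : Nd) :
    x ∈ darts (plRot R) s.1 ↔ ∃ d : G.Dart, G.Reachable s d.fst ∧ plD d = x := by
  rw [mem_darts (plRot_valid R s), mem_comp_plRot, mem_nbrs_plRot]
  constructor
  · rintro ⟨⟨v, hv, hr⟩, a, b, ha, hb, hadj⟩
    have : a = v := Fin.ext (ha.trans hv.symm)
    subst this
    exact ⟨⟨(a, b), hadj⟩, hr, Prod.ext ha hb⟩
  · rintro ⟨d, hr, rfl⟩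
    exact ⟨⟨d.fst, rfl, hr⟩, d.fst, d.snd, rfl, rfl, d.adj⟩

/-- number of vertices of a component -/
theorem pl_card_comp (s : Fin n) :
    (comp (plRot R) s.1).length =
      Nat.card {v : Fin n // G.connectedComponentMk v = G.connectedComponentMk s} := by
  classical
  rw [← card_VV, ← Nat.card_eq_fintype_card]
  symm
  refine Nat.card_congr (Equiv.ofBijective (fun v => ⟨v.1.val, ?_⟩) ⟨?_, ?_⟩)
  · rw [mem_comp_plRot]
    exact ⟨v.1, rfl, (SimpleGraph.ConnectedComponent.exact v.2).symm⟩
  · rintro ⟨v, hv⟩ ⟨w, hw⟩ h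
    have h1 : v.val = w.val := congrArg Subtype.val h
    exact Subtype.ext (Fin.ext h1)
  · rintro ⟨k, hk⟩
    obtain ⟨v, hv, hr⟩ := (mem_comp_plRot R s k).1 hk
    exact ⟨⟨v, SimpleGraph.ConnectedComponent.sound hr.symm⟩, Subtype.ext hv⟩

/-- number of darts of a component -/
theorem pl_card_darts (s : Fin n) :
    (darts (plRot R) s.1).length =
      Nat.card {d : G.Dart // G.connectedComponentMk d.fst = G.connectedComponentMk s} := by
  classical
  rw [← card_DD (plRot_valid R s), ← Nat.card_eq_fintype_card]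
  symm
  refine Nat.card_congr (Equiv.ofBijective (fun d => ⟨plD d.1, ?_⟩) ⟨?_, ?_⟩)
  · rw [mem_darts_plRot]
    exact ⟨d.1, (SimpleGraph.ConnectedComponent.exact d.2).symm, rfl⟩
  · rintro ⟨v, hv⟩ ⟨w, hw⟩ h
    exact Subtype.ext (plD_inj (congrArg Subtype.val h))
  · rintro ⟨k, hk⟩
    obtain ⟨d, hr, hd⟩ := (mem_darts_plRot R s k).1 hk
    exact ⟨⟨d, SimpleGraph.ConnectedComponent.sound hr.symm⟩, Subtype.ext hd⟩

/-- component of a face -/
def plFC (R : RotationSystem G) (q : Quotient (Equiv.Perm.SameCycle.setoid R.face)) :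
    G.ConnectedComponent :=
  Quotient.lift (s := Equiv.Perm.SameCycle.setoid R.face)
    (fun d : G.Dart => G.connectedComponentMk d.fst) (by
      intro d d' h
      obtain ⟨k, hk⟩ := Equiv.Perm.SameCycle.exists_nat_pow_eq (f := R.face) (show R.face.SameCycle d d' from h)
      have h1 : ∀ k : ℕ, G.connectedComponentMk (((R.face ^ k) d).fst) =
          G.connectedComponentMk d.fst := by
        intro k
        induction k with
        | zero => rfl
        | succ k ih =>
          rw [pow_succ', Equiv.Perm.mul_apply, R.face_fst, ← ih]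
          exact SimpleGraph.ConnectedComponent.sound ((R.face ^ k) d).adj.symm.reachable
      rw [← hk]
      exact (h1 k).symm) q

theorem plFC_mk (d : G.Dart) : plFC R (Quotient.mk _ d) = G.connectedComponentMk d.fst := rfl

theorem faceOf_iter (s : Fin n) {d : G.Dart} (hd : G.Reachable s d.fst) (k : ℕ) :
    faceOf (plRot R) s.1 (plD (R.face^[k] d)) = faceOf (plRot R) s.1 (plD d) ∧
      G.Reachable s (R.face^[k] d).fst := by
  induction k with
  | zero => exact ⟨rfl, hd⟩
  | succ k ih =>
    rw [Function.iterate_succ_apply', ← phi_plD]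
    refine ⟨?_, ?_⟩
    · rw [faceOf_phi (plRot_valid R s) ((mem_darts_plRot R s _).2 ⟨_, ih.2, rfl⟩)]
      exact ih.1
    · rw [R.face_fst]
      exact ih.2.trans (R.face^[k] d).adj.reachable

/-- number of faces of a component -/
theorem pl_card_faces (s : Fin n) :
    (faces (plRot R) s.1).length =
      Nat.card {q : Quotient (Equiv.Perm.SameCycle.setoid R.face) //
        plFC R q = G.connectedComponentMk s} := by
  classical
  have hv := plRot_valid R s
  rw [← card_FF hv, ← Nat.card_eq_fintype_card]
  symm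
  have hout : ∀ q : {q : Quotient (Equiv.Perm.SameCycle.setoid R.face) //
        plFC R q = G.connectedComponentMk s}, G.Reachable s (Quotient.out q.1).fst := by
    intro q
    have h1 : plFC R (Quotient.mk _ (Quotient.out q.1)) = G.connectedComponentMk s := by
      rw [Quotient.out_eq]; exact q.2
    exact (SimpleGraph.ConnectedComponent.exact h1).symm
  refine Nat.card_congr (Equiv.ofBijective
    (fun q => ⟨faceOf (plRot R) s.1 (plD (Quotient.out q.1)), ?_⟩) ⟨?_, ?_⟩)
  · rw [mem_faces hv]
    exact ⟨_, (mem_darts_plRot R s _).2 ⟨_, hout q, rfl⟩, rfl⟩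
  · rintro q q' h
    have h1 : faceOf (plRot R) s.1 (plD (Quotient.out q.1)) =
        faceOf (plRot R) s.1 (plD (Quotient.out q'.1)) := congrArg Subtype.val h
    obtain ⟨k, hk⟩ := faceOf_orbit hv ((mem_darts_plRot R s _).2 ⟨_, hout q, rfl⟩)
      ((mem_darts_plRot R s _).2 ⟨_, hout q', rfl⟩) h1
    rw [phi_iter_plD] at hk
    have h2 := plD_inj hk
    apply Subtype.ext
    rw [← Quotient.out_eq q.1, ← Quotient.out_eq q'.1]
    apply Quotient.sound
    change R.face.SameCycle _ _
    refine ⟨(k : ℤ), ?_⟩
    rw [zpow_natCast, ← Equiv.Perm.iterate_eq_pow]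
    exact h2
  · rintro ⟨k, hk⟩
    obtain ⟨x, hx, hxk⟩ := (mem_faces hv).1 hk
    obtain ⟨d, hr, rfl⟩ := (mem_darts_plRot R s x).1 hx
    refine ⟨⟨Quotient.mk _ d, SimpleGraph.ConnectedComponent.sound hr.symm⟩, ?_⟩
    apply Subtype.ext
    change faceOf (plRot R) s.1 (plD (Quotient.out (Quotient.mk (Equiv.Perm.SameCycle.setoid R.face) d))) = k
    have h1 : R.face.SameCycle d (Quotient.out (Quotient.mk (Equiv.Perm.SameCycle.setoid R.face) d)) := by
      have h2 : (Quotient.mk (Equiv.Perm.SameCycle.setoid R.face) d) =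
          Quotient.mk _ (Quotient.out (Quotient.mk (Equiv.Perm.SameCycle.setoid R.face) d)) :=
        (Quotient.out_eq _).symm
      exact Quotient.exact h2
    obtain ⟨j, hj⟩ := h1.exists_nat_pow_eq
    rw [← Equiv.Perm.iterate_eq_pow] at hj
    rw [← hj, (faceOf_iter R s hr j).1, hxk]

theorem pl_card_fib {X C : Type*} [Finite X] [Fintype C] (f : X → C) :
    Nat.card X = ∑ c, Nat.card {x // f x = c} := by
  rw [← Nat.card_congr (Equiv.sigmaFiberEquiv f), Nat.card_sigma]

end

theorem pl_isolated {n : ℕ} {G : SimpleGraph (Fin n)} {v w : Fin n} (hv : ∀ w, ¬ G.Adj v w)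
    (h : G.Reachable v w) : v = w := by
  rw [SimpleGraph.reachable_iff_reflTransGen] at h
  rcases Relation.ReflTransGen.cases_head h with h | ⟨c, hc, _⟩
  · exact h
  · exact absurd hc (hv c)

theorem exists_rot_of_planar {n : ℕ} (G : SimpleGraph (Fin n)) (hG : IsPlanar G) (s : Fin n) :
    ∃ rot : Rot, RotValid rot s.1 ∧ rot.length = n ∧
      (∀ u v : Fin n, v.1 ∈ nbrs rot u.1 ↔ G.Adj u v) ∧
      (darts rot s.1 ≠ [] → RotPlane rot s.1) := by
  classical
  obtain ⟨R, hR⟩ := hG
  refine ⟨plRot R, plRot_valid R s, plRot_length R, ?_, ?_⟩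
  · intro u v
    rw [mem_nbrs_plRot]
    constructor
    · rintro ⟨a, b, ha, hb, hadj⟩
      rwa [Fin.ext ha, Fin.ext hb] at hadj
    · intro h
      exact ⟨u, v, rfl, rfl, h⟩
  intro hne
  have hdart : Nat.card G.Dart = 2 * Nat.card G.edgeSet := card_dart G
  -- isolated vertices in a component
  set I : Type := {v : Fin n // ∀ w, ¬ G.Adj v w} with hI
  let f1 : Fin n → G.ConnectedComponent := fun v => G.connectedComponentMk v
  let f2 : G.Dart → G.ConnectedComponent := fun d => G.connectedComponentMk d.fst
  let f3 : I → G.ConnectedComponent := fun v => G.connectedComponentMk v.1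
  have : Fintype G.ConnectedComponent := Fintype.ofFinite _
  have e1 := pl_card_fib f1
  have e2 := pl_card_fib f2
  have e3 := pl_card_fib f3
  have e4 := pl_card_fib (plFC R)
  have hI0 : ∀ t : Fin n, darts (plRot R) t.1 ≠ [] →
      Nat.card {x // f3 x = G.connectedComponentMk t} = 0 := by
    intro t hD
    have : IsEmpty {x // f3 x = G.connectedComponentMk t} := by
      refine ⟨?_⟩
      rintro ⟨⟨v, hv⟩, h⟩
      have hvt : G.Reachable v t := SimpleGraph.ConnectedComponent.exact h
      obtain ⟨x, hx⟩ := List.exists_mem_of_ne_nil _ hD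
      obtain ⟨d, hr, _⟩ := (mem_darts_plRot R t x).1 hx
      have h1 : v = d.fst := pl_isolated hv (hvt.trans hr)
      exact hv d.snd (h1 ▸ d.adj)
    exact Nat.card_of_isEmpty
  have hle : ∀ c : G.ConnectedComponent,
      2 * (Nat.card {x // f1 x = c} + Nat.card {x // plFC R x = c} + Nat.card {x // f3 x = c}) ≤
        Nat.card {x // f2 x = c} + 4 := by
    intro c
    induction c using SimpleGraph.ConnectedComponent.ind with
    | h t =>
    have c1 := pl_card_comp R t
    have c2 := pl_card_darts R t
    have c3 := pl_card_faces R t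
    by_cases hD : darts (plRot R) t.1 = []
    · have hiso : ∀ w, ¬ G.Adj t w := by
        intro w hw
        have h1 : plD (⟨(t, w), hw⟩ : G.Dart) ∈ darts (plRot R) t.1 :=
          (mem_darts_plRot R t _).2 ⟨_, SimpleGraph.Reachable.refl _, rfl⟩
        rw [hD] at h1
        exact absurd h1 (by simp)
      have hF : Nat.card {x // plFC R x = G.connectedComponentMk t} = 0 := by
        rw [← c3]
        unfold faces
        rw [hD]
        rfl
      have hV : Nat.card {x // f1 x = G.connectedComponentMk t} ≤ 1 := by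
        rw [Finite.card_le_one_iff_subsingleton]
        refine ⟨?_⟩
        rintro ⟨v, hv⟩ ⟨w, hw⟩
        have h1 : t = v := pl_isolated hiso (SimpleGraph.ConnectedComponent.exact hv).symm
        have h2 : t = w := pl_isolated hiso (SimpleGraph.ConnectedComponent.exact hw).symm
        exact Subtype.ext (h1.symm.trans h2)
      have hI1 : Nat.card {x // f3 x = G.connectedComponentMk t} ≤ 1 := by
        rw [Finite.card_le_one_iff_subsingleton]
        refine ⟨?_⟩
        rintro ⟨v, hv⟩ ⟨w, hw⟩
        have h1 : t = v.1 := pl_isolated hiso (SimpleGraph.ConnectedComponent.exact hv).symm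
        have h2 : t = w.1 := pl_isolated hiso (SimpleGraph.ConnectedComponent.exact hw).symm
        exact Subtype.ext (Subtype.ext (h1.symm.trans h2))
      rw [hF]
      omega
    · have h1 := rot_euler_le (plRot_valid R t) hD
      have h2 := hI0 t hD
      rw [h2]
      change 2 * (Nat.card {x // G.connectedComponentMk x = G.connectedComponentMk t} +
        Nat.card {x // plFC R x = G.connectedComponentMk t} + 0) ≤
        Nat.card {x : G.Dart // G.connectedComponentMk x.fst = G.connectedComponentMk t} + 4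
      rw [← c1, ← c2, ← c3]
      omega
  have hsum : ∑ c : G.ConnectedComponent,
      2 * (Nat.card {x // f1 x = c} + Nat.card {x // plFC R x = c} + Nat.card {x // f3 x = c}) =
        ∑ c : G.ConnectedComponent, (Nat.card {x // f2 x = c} + 4) := by
    rw [← Finset.mul_sum, Finset.sum_add_distrib, Finset.sum_add_distrib, Finset.sum_add_distrib,
      ← e1, ← e2, ← e3, ← e4, hdart, Finset.sum_const, Finset.card_univ,
      ← Nat.card_eq_fintype_card (α := G.ConnectedComponent), smul_eq_mul]
    unfold RotationSystem.numFaces at hR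
    omega
  have heq := (Finset.sum_eq_sum_iff_of_le (fun c _ => hle c)).1 hsum
    (G.connectedComponentMk s) (Finset.mem_univ _)
  rw [hI0 s hne] at heq
  unfold RotPlane
  rw [pl_card_comp R s, pl_card_darts R s, pl_card_faces R s]
  exact heq

end Pool.Agent.PFire
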