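import Pool.Agent.Lib.PFire.LrMain
import Pool.Agent.Lib.PFire.PlanarLists
import Pool.Agent.Lib.PFire.Model
import Pool.Agent.Lib.PFire.PTAlg
import Pool.Agent.Lib.PFire.PTLr
import Pool.Agent.Lib.PFire.Machine

/-!
# MAXIMUM k-VERTEX PROTECTION is fixed-parameter tractable on planar graphs: assembly
-/

set_option autoImplicit false

namespace Pool.Agent.PFire

open Pool.Agent.PolyTime Pool.Agent.Lib.CookLevin

open Classical in
/-- The adjacency lists of a graph on `{0, …, n - 1}`. -/
noncomputable def adjLists {n : ℕ} (G : SimpleGraph (Fin n)) : List (List ℕ) :=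
  (List.finRange n).map fun u => ((List.finRange n).filter fun v => G.Adj u v).map Fin.val

/-- The input word: the adjacency lists, the start vertex and the number `k` (in binary). -/
noncomputable def inputWord {n : ℕ} (G : SimpleGraph (Fin n)) (s : Fin n) (k : ℕ) : List Bool :=
  code (enc ((adjLists G, s.1), k))

/-- The output word of a number and a list of pairs (time, vertex). -/
def outputWord (out : ℕ × List (ℕ × ℕ)) : List Bool := code (enc out)

/-- the list of length `min k n` -/
def kList (p : (Rot × ℕ) × ℕ) : List Unit := ((List.range p.1.1.length).take p.2).map fun _ => ()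

/-- the exponent of the padding, in unary -/
def nList (p : (Rot × ℕ) × ℕ) : List Unit :=
  (() :: kList p).flatMap fun _ =>
    kList p ++ kList p ++ kList p ++ kList p ++ kList p ++ kList p ++ List.replicate 10 ()

def theAlg (q : ((Rot × ℕ) × ℕ) × List Unit) : ℕ × List (ℕ × ℕ) :=
  answer (embedC q.1.1.1 q.1.1.2) q.1.1.2 (kList q.1).length q.2.length

@[fun_prop] lemma PT_kList : PT kList := by
  unfold kList
  refine PT.map (f := fun (_ : (Rot × ℕ) × ℕ) (_ : ℕ) => ()) (by fun_prop) ?_
  exact PT.take (by fun_prop) (by fun_prop)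

@[fun_prop] lemma PT_nList : PT nList := by
  unfold nList
  refine PT.flatMap (f := fun (p : (Rot × ℕ) × ℕ) (_ : Unit) =>
    kList p ++ kList p ++ kList p ++ kList p ++ kList p ++ kList p ++ List.replicate 10 ())
    (by fun_prop) ?_
  fun_prop

@[fun_prop] lemma PT_theAlg : PT theAlg := by
  unfold theAlg
  refine PT_answer (ks := fun q : ((Rot × ℕ) × ℕ) × List Unit => kList q.1) (pad := fun q => q.2)
    (by fun_prop) (by fun_prop) ?_ (by fun_prop)
  exact PT_embedC (by fun_prop) (by fun_prop)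

lemma length_kList (p : (Rot × ℕ) × ℕ) : (kList p).length = min p.2 p.1.1.length := by
  simp [kList]

lemma length_nList (p : (Rot × ℕ) × ℕ) :
    (nList p).length = ((kList p).length + 1) * (6 * (kList p).length + 10) := by
  simp only [nList, List.length_flatMap]
  simp
  ring

lemma cap_le (k : ℕ) :
    (2 * k + 2) ^ (3 * (2 * k + 3)) * 2 ^ (k + 1) ≤ 2 ^ ((k + 1) * (6 * k + 10)) := by
  have h1 : 2 * k + 2 ≤ 2 ^ (k + 1) := by
    have : k + 1 ≤ 2 ^ k := Nat.lt_two_pow_self
    rw [pow_succ]; omega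
  calc (2 * k + 2) ^ (3 * (2 * k + 3)) * 2 ^ (k + 1)
      ≤ (2 ^ (k + 1)) ^ (3 * (2 * k + 3)) * 2 ^ (k + 1) :=
        Nat.mul_le_mul_right _ (Nat.pow_le_pow_left h1 _)
    _ = 2 ^ ((k + 1) * (6 * k + 10)) := by
        rw [← pow_mul, ← pow_add]; congr 1; ring

lemma nbrs_adjLists {n : ℕ} (G : SimpleGraph (Fin n)) (u v : ℕ) :
    v ∈ nbrs (adjLists G) u ↔ ∃ (hu : u < n) (hv : v < n), G.Adj ⟨u, hu⟩ ⟨v, hv⟩ := by
  classical
  unfold nbrs adjLists
  by_cases hu : u < n
  · rw [List.getD_eq_getElem?_getD, List.getElem?_map, List.getElem?_eq_getElem (by simpa using hu)]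
    simp only [List.getElem_finRange, Option.map_some, Option.getD_some, List.mem_map,
      List.mem_filter, List.mem_finRange, true_and, decide_eq_true_eq]
    constructor
    · rintro ⟨a, ha, rfl⟩
      exact ⟨hu, a.2, ha⟩
    · rintro ⟨_, hv, h⟩
      exact ⟨⟨v, hv⟩, h, rfl⟩
  · rw [List.getD_eq_default _ _ (by simpa using hu)]
    simp [hu]

lemma adjLists_valid {n : ℕ} (G : SimpleGraph (Fin n)) (s : Fin n) :
    RotValid (adjLists G) s.1 := by
  classical
  have hl : (adjLists G).length = n := by simp [adjLists]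
  refine ⟨by rw [hl]; exact s.2, ?_, ?_, ?_, ?_⟩
  · intro u v h
    rw [hl]
    obtain ⟨_, hv, _⟩ := (nbrs_adjLists G u v).1 h
    exact hv
  · intro u
    unfold nbrs adjLists
    by_cases hu : u < n
    · rw [List.getD_eq_getElem?_getD, List.getElem?_map,
        List.getElem?_eq_getElem (by simpa using hu)]
      simp only [List.getElem_finRange, Option.map_some, Option.getD_some]
      exact ((List.nodup_finRange n).filter _).map Fin.val_injective
    · rw [List.getD_eq_default _ _ (by simpa using hu)]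
      exact List.nodup_nil
  · intro u v h
    rw [nbrs_adjLists] at h ⊢
    obtain ⟨hu, hv, h⟩ := h
    exact ⟨hv, hu, h.symm⟩
  · intro u h
    rw [nbrs_adjLists] at h
    obtain ⟨hu, hv, h⟩ := h
    exact G.irrefl h

/-- A strategy protects at most `n` vertices anyway. -/
lemma optimal_min {n : ℕ} (G : SimpleGraph (Fin n)) (s : Fin n) (k : ℕ) (out : ℕ × List (ℕ × ℕ))
    (h : Optimal G s (min k n) out) : Optimal G s k out := by
  refine ⟨⟨h.strategy.notBurning, h.strategy.finite, h.strategy.card.trans (min_le_left _ _)⟩,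
    h.value, fun S hS => h.best S ⟨hS.notBurning, hS.finite, le_min hS.card ?_⟩⟩
  have h1 : (protSet S).ncard ≤ Nat.card (Fin n) := Set.ncard_le_card _
  simpa using h1

theorem theAlg_optimal {n : ℕ} (G : SimpleGraph (Fin n)) (hG : IsPlanar G) (s : Fin n) (k : ℕ)
    (pad : List Unit) (hpad : pad.length = 2 ^ (nList ((adjLists G, s.1), k)).length) :
    Optimal G s k (theAlg (((adjLists G, s.1), k), pad)) := by
  obtain ⟨rot, hr, hlen, hadj, hp⟩ := exists_rot_of_planar G hG s
  have hg := adjLists_valid G s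
  have hgl : (adjLists G).length = n := by simp [adjLists]
  have hadj' : ∀ u v, v ∈ nbrs rot u ↔ v ∈ nbrs (adjLists G) u := by
    intro u v
    rw [nbrs_adjLists]
    constructor
    · intro h
      have hv : v < n := hlen ▸ hr.lt u v h
      have hu : u < n := hlen ▸ hr.lt v u (hr.symm u v h)
      exact ⟨hu, hv, (hadj ⟨u, hu⟩ ⟨v, hv⟩).1 h⟩
    · rintro ⟨hu, hv, h⟩
      exact (hadj ⟨u, hu⟩ ⟨v, hv⟩).2 h
  have hfun : (fun a b => b ∈ nbrs rot a) = fun a b => b ∈ nbrs (adjLists G) a := by
    funext a b; exact propext (hadj' a b)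
  have hcomp : ∀ v, v ∈ comp rot s.1 ↔ v ∈ comp (adjLists G) s.1 := by
    intro v
    rw [mem_comp hr, mem_comp hg, hfun]
  have he := embed_valid hg
  have hR : Repr G s (embed (adjLists G) s.1) := by
    refine ⟨he, by rw [embed_length, hgl], fun u hu v => ?_⟩
    rw [comp_embed hg] at hu
    rw [nbrs_embed hg hu, (rotV_perm hg hu).mem_iff, nbrs_adjLists]
    constructor
    · rintro ⟨_, _, h⟩; exact h
    · intro h; exact ⟨u.2, v.2, h⟩
  have hne1 : darts (embed (adjLists G) s.1) s.1 ≠ [] → darts (adjLists G) s.1 ≠ [] := by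
    intro h1 h2
    have h3 := (darts_embed_perm hg).length_eq
    rw [h2] at h3
    exact h1 (List.length_eq_zero_iff.1 h3)
  have hne2 : darts (adjLists G) s.1 ≠ [] → darts rot s.1 ≠ [] := by
    intro h1
    obtain ⟨d, hd⟩ := List.exists_mem_of_ne_nil _ h1
    have h2 := (mem_darts hg).1 hd
    refine List.ne_nil_of_mem (a := d) ((mem_darts hr).2 ⟨(hcomp _).2 h2.1, (hadj' _ _).2 h2.2⟩)
  have hk : (kList ((adjLists G, s.1), k)).length = min k n := by
    rw [length_kList, hgl]
  refine optimal_min G s k _ ?_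
  rw [← hk]
  unfold theAlg
  rw [embedC_eq hg]
  refine answer_optimal hR (fun h1 => ?_) _ _ ?_
  · exact embed_plane hg hr (hp (hne2 (hne1 h1))) (hne2 (hne1 h1)) (fun u _ v => hadj' u v) (hne1 h1)
  · show _ ≤ pad.length
    rw [hpad, length_nList]
    exact cap_le _

/-- **Main theorem.** -/
theorem firefighter_planar_fpt :
    ∃ (M : Turing.TM2ComputableAux Bool Bool) (c : ℕ) (p : Polynomial ℕ),
      ∀ (n : ℕ) (G : SimpleGraph (Fin n)) (s : Fin n) (k : ℕ), IsPlanar G →
        ∃ out : ℕ × List (ℕ × ℕ), Optimal G s k out ∧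
          Nonempty (Turing.TM2OutputsInTime M.tm
            (List.map M.inputAlphabet.invFun (inputWord G s k))
            (some (List.map M.outputAlphabet.invFun (outputWord out)))
            (2 ^ (c * (k + 1) ^ 2) * p.eval (inputWord G s k).length)) := by
  obtain ⟨c, C, e, hc⟩ := pad_machine theAlg PT_theAlg nList PT_nList
  refine ⟨⟨machine c, Equiv.refl _, Equiv.refl _⟩, C + 1 + 10 * e, Polynomial.X ^ e, ?_⟩
  intro n G s k hG
  set a : (Rot × ℕ) × ℕ := ((adjLists G, s.1), k) with ha
  refine ⟨theAlg (a, List.replicate (2 ^ (nList a).length) ()),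
    theAlg_optimal G hG s k _ (by simp [ha]), ?_⟩
  obtain ⟨t, ht, hrun⟩ := hc a
  obtain ⟨⟨⟨m, hm⟩, hle⟩⟩ := machine_outputs hrun
  have hlen : (inputWord G s k).length = sz a := length_code _
  have hk : (kList a).length ≤ k := by rw [length_kList]; exact min_le_left _ _
  have h1 : 2 ^ (nList a).length ≤ 2 ^ (10 * (k + 1) ^ 2) := by
    rw [length_nList]
    refine Nat.pow_le_pow_right (by norm_num) ?_
    calc ((kList a).length + 1) * (6 * (kList a).length + 10)
        ≤ (k + 1) * (10 * (k + 1)) := Nat.mul_le_mul (by omega) (by omega)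
      _ = 10 * (k + 1) ^ 2 := by ring
  have h0 : C * (2 ^ (10 * (k + 1) ^ 2)) ^ e + 1 ≤ 2 ^ ((C + 1 + 10 * e) * (k + 1) ^ 2) := by
    have e1 : (C + 1 + 10 * e) * (k + 1) ^ 2 =
        (C + 1) * (k + 1) ^ 2 + 10 * (k + 1) ^ 2 * e := by ring
    rw [e1, pow_add, ← pow_mul]
    have h2 : C + 1 ≤ 2 ^ ((C + 1) * (k + 1) ^ 2) := by
      calc C + 1 ≤ 2 ^ (C + 1) := Nat.lt_two_pow_self.le
        _ ≤ 2 ^ ((C + 1) * (k + 1) ^ 2) := Nat.pow_le_pow_right (by norm_num)
            (Nat.le_mul_of_pos_right _ (by positivity))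
    have h3 : 1 ≤ 2 ^ (10 * (k + 1) ^ 2 * e) := Nat.one_le_two_pow
    calc C * 2 ^ (10 * (k + 1) ^ 2 * e) + 1 ≤ (C + 1) * 2 ^ (10 * (k + 1) ^ 2 * e) := by
          rw [Nat.add_mul]; omega
      _ ≤ _ := Nat.mul_le_mul_right _ h2
  have h2 : t + 1 ≤ 2 ^ ((C + 1 + 10 * e) * (k + 1) ^ 2) *
      (Polynomial.X ^ e : Polynomial ℕ).eval (inputWord G s k).length := by
    rw [hlen, Polynomial.eval_pow, Polynomial.eval_X]
    have h3 : C * (2 ^ (nList a).length * sz a) ^ e ≤
        C * (2 ^ (10 * (k + 1) ^ 2)) ^ e * sz a ^ e := by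
      rw [mul_assoc, ← mul_pow]
      exact Nat.mul_le_mul le_rfl (Nat.pow_le_pow_left (Nat.mul_le_mul h1 le_rfl) e)
    have h4 : 1 ≤ sz a ^ e := Nat.one_le_pow _ _ (one_le_sz a)
    calc t + 1 ≤ C * (2 ^ (10 * (k + 1) ^ 2)) ^ e * sz a ^ e + sz a ^ e := by omega
      _ = (C * (2 ^ (10 * (k + 1) ^ 2)) ^ e + 1) * sz a ^ e := by ring
      _ ≤ _ := Nat.mul_le_mul_right _ h0
  refine ⟨⟨⟨m, ?_⟩, hle.trans h2⟩⟩
  have key : ∀ x y x' y' : List Bool, x' = x → y' = y →
      (flip bind (machine c).step)^[m] (some (Turing.initList (machine c) x)) =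
        Option.map (Turing.haltList (machine c)) (some y) →
      (flip bind (machine c).step)^[m] (some (Turing.initList (machine c) x')) =
        Option.map (Turing.haltList (machine c)) (some y') := by
    rintro x y _ _ rfl rfl h
    exact h
  exact key _ _ _ _ (List.map_id _) (List.map_id _) hm

end Pool.Agent.PFire
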