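import Mathlib

/-!
# Combinatorial maps with radial distances: definitions

`PMap D V F`: a combinatorial map with darts `D`, vertices `V`, faces `F`; `al` reverses a dart, `phi`
is the next dart along the face, `sg d = phi (al d)` the next dart around the tail.

The *triangles* of the map (after putting a new vertex in each face) are the darts: the triangle of `t`
has the corner nodes `tail t`, `head t` and `face t`.  Two triangles share a side:
* the *corner side* `c` (a dart): the segment from `tail c` to the centre of `face c`; it is shared by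
  the triangles `phi.symm c` and `c`;
* the *edge side* of `x`: shared by the triangles `x` and `al x`.

`Rad`: radial distances (distances in the vertex-face incidence graph from the vertex `s`), with parent
corners.  `Frc`: forced levels `fl`, representatives of the components of the forced vertices, parent
edges inside of the components.  `CT`, `ET`: the corner and edge sides which belong to the spanning tree.
-/

set_option autoImplicit false

namespace Pool.Agent.PFire

/-- A combinatorial map (rotation system) with darts `D`, vertices `V` and faces `F`. -/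
structure PMap (D V F : Type) where
  al : D → D
  phi : Equiv.Perm D
  tail : D → V
  face : D → F
  al_al : ∀ d, al (al d) = d
  al_ne : ∀ d, al d ≠ d
  tail_phi : ∀ d, tail (phi d) = tail (al d)
  face_phi : ∀ d, face (phi d) = face d
  tail_orbit : ∀ d d', tail d = tail d' → ∃ n : ℕ, (fun x => phi (al x))^[n] d = d'
  face_orbit : ∀ d d', face d = face d' → ∃ n : ℕ, phi^[n] d = d'
  tail_surj : Function.Surjective tail
  face_surj : Function.Surjective face

namespace PMap

variable {D V F : Type} (M : PMap D V F)

/-- The head of a dart. -/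
def head (d : D) : V := M.tail (M.al d)

/-- The next dart around the tail. -/
def sg (d : D) : D := M.phi (M.al d)

/-- Euler's formula (for a connected map: genus zero). -/
def Euler {D V F : Type} [Fintype D] [Fintype V] [Fintype F] (_M : PMap D V F) : Prop :=
  2 * (Fintype.card V + Fintype.card F) = Fintype.card D + 4

/-- Adjacency of vertices. -/
def Adj (a b : V) : Prop := ∃ d, M.tail d = a ∧ M.head d = b

/-- One step between two triangles which share a side; `C` = allowed corner sides, `E` = allowed edge
sides (a set of darts closed under `al`). -/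
def Step (C E : Set D) (x y : D) : Prop :=
  (y = M.phi x ∧ y ∈ C) ∨ (x = M.phi y ∧ x ∈ C) ∨ (y = M.al x ∧ x ∈ E)

/-- Connection by steps inside of a set `T` of triangles. -/
def ConnIn (C E T : Set D) : D → D → Prop :=
  Relation.ReflTransGen (fun x y => x ∈ T ∧ y ∈ T ∧ M.Step C E x y)

/-- Connection by steps. -/
def Conn (C E : Set D) : D → D → Prop := Relation.ReflTransGen (M.Step C E)

end PMap

/-- Radial distances from `s` and parent corners. -/
structure Rad {D V F : Type} (M : PMap D V F) (s : V) where
  rv : V → ℕ
  rf : F → ℕ
  pv : V → D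
  pf : F → D
  rv_s : rv s = 0
  even : ∀ v, rv v % 2 = 0
  corner : ∀ d, rv (M.tail d) = rf (M.face d) + 1 ∨ rf (M.face d) = rv (M.tail d) + 1
  pv_tail : ∀ v, v ≠ s → M.tail (pv v) = v
  pv_face : ∀ v, v ≠ s → rf (M.face (pv v)) + 1 = rv v
  pf_face : ∀ g, M.face (pf g) = g
  pf_tail : ∀ g, rv (M.tail (pf g)) + 1 = rf g

/-- Forced levels `fl` (values of `rv`), representatives `rep` of the connected components of the
subgraph of the forced vertices, and parent edges `pe` inside of the components. -/
structure Frc {D V F : Type} (M : PMap D V F) {s : V} (R : Rad M s) where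
  fl : ℕ → Prop
  rep : V → V
  pe : V → D
  idist : V → ℕ
  fl_even : ∀ x, fl x → x % 2 = 0
  fl_zero : ¬ fl 0
  fl_gap : ∀ x, fl x → ¬ fl (x + 2)
  rep_unf : ∀ v, ¬ fl (R.rv v) → rep v = v
  rep_rep : ∀ v, rep (rep v) = rep v
  rep_rv : ∀ v, R.rv (rep v) = R.rv v
  rep_adj : ∀ d, fl (R.rv (M.tail d)) → fl (R.rv (M.head d)) → rep (M.tail d) = rep (M.head d)
  pe_tail : ∀ v, rep v ≠ v → M.tail (pe v) = v
  pe_fl : ∀ v, rep v ≠ v → fl (R.rv (M.head (pe v)))
  pe_dist : ∀ v, rep v ≠ v → idist (M.head (pe v)) < idist v

namespace Frc

variable {D V F : Type} {M : PMap D V F} {s : V} {R : Rad M s} (K : Frc M R)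

/-- The corner side `c` belongs to the spanning tree. -/
def CT (c : D) : Prop :=
  c = R.pf (M.face c) ∨ (M.tail c ≠ s ∧ K.rep (M.tail c) = M.tail c ∧ c = R.pv (M.tail c))

/-- The edge side of `x` belongs to the spanning tree. -/
def ET (x : D) : Prop :=
  (K.rep (M.tail x) ≠ M.tail x ∧ K.pe (M.tail x) = x) ∨
    (K.rep (M.head x) ≠ M.head x ∧ K.pe (M.head x) = M.al x)

/-- The corner sides which do not belong to the tree. -/
def CC : Set D := {c | ¬ K.CT c}

/-- The edge sides which do not belong to the tree. -/
def EE : Set D := {x | ¬ K.ET x}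

open Classical in
/-- The parent of a node (vertex or face) in the spanning tree. -/
noncomputable def up : V ⊕ F → V ⊕ F
  | Sum.inl v => if v = s then Sum.inl s
      else if K.rep v = v then Sum.inr (M.face (R.pv v)) else Sum.inl (M.head (K.pe v))
  | Sum.inr g => Sum.inl (M.tail (R.pf g))

/-- `w` is an ancestor of `c`, or `w = c`. -/
def Desc (w c : V ⊕ F) : Prop := ∃ n : ℕ, K.up^[n] c = w

/-- Radial distance of a node. -/
def _root_.Pool.Agent.PFire.Rad.lvl {D V F : Type} {M : PMap D V F} {s : V} (R : Rad M s) :
    V ⊕ F → ℕ := Sum.elim R.rv R.rf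

/-- No level of `sl` lies strictly between the node `w` and the face `g`. -/
def _root_.Pool.Agent.PFire.Rad.slab {D V F : Type} {M : PMap D V F} {s : V} (R : Rad M s)
    (sl : ℕ → Prop) (w : V ⊕ F) (g : F) : Prop := ∀ x, sl x → R.lvl w < x → ¬ x < R.rf g

/-- The corner nodes of a triangle. -/
def _root_.Pool.Agent.PFire.PMap.IsCorner {D V F : Type} (M : PMap D V F) (t : D) (c : V ⊕ F) : Prop :=
  c = Sum.inl (M.tail t) ∨ c = Sum.inl (M.head t) ∨ c = Sum.inr (M.face t)

/-- The triangles which touch the subtree of `w` inside of the slab of `w`. -/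
def T (sl : ℕ → Prop) (w : V ⊕ F) : Set D :=
  {t | R.slab sl w (M.face t) ∧ ∃ c, M.IsCorner t c ∧ K.Desc w c}

/-- The outer triangles of the component of the forced representative `z`. -/
def Out (z : V) : Set D :=
  {t | R.rf (M.face t) + 1 = R.rv z ∧ (K.rep (M.tail t) = z ∨ K.rep (M.head t) = z)}

/-- The bag of the triangle `t`: `z` is a variable (unforced or a representative). -/
def Bag (z : V) (t : D) : Prop := K.rep z = z ∧ t ∈ K.T K.fl (Sum.inl z)

end Frc

end Pool.Agent.PFire
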