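import Pool.Agent.Lib.PFire.SpecFrc
import Pool.Agent.Lib.PFire.Csp

/-!
# Chunks MB: definitions and levels

`toS L`: the strategy described by a list of pairs (time, vertex).  `Optimal`: the output is correct.
-/

set_option autoImplicit false

namespace Pool.Agent.PFire

open Pool.Agent.PolyTime

/-- The strategy given by a list of pairs (time, vertex). -/
def toS {n : ℕ} (L : List (ℕ × ℕ)) (t : ℕ) : Option (Fin n) :=
  (L.lookup t).bind fun v => if h : v < n then some ⟨v, h⟩ else none

/-- The pair `(m, L)` is a correct output: the list `L` describes a strategy which protects at most `k`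
vertices and saves `m` vertices, and no strategy which protects at most `k` vertices saves more. -/
structure Optimal {n : ℕ} (G : SimpleGraph (Fin n)) (s : Fin n) (k : ℕ) (out : ℕ × List (ℕ × ℕ)) :
    Prop where
  strategy : IsStrategy G s k (toS out.2)
  value : (saved G s (toS out.2)).ncard = out.1
  best : ∀ S, IsStrategy G s k S → (saved G s S).ncard ≤ out.1

/-- The lists `rot` describe the component of `s` of the graph `G`. -/
structure Repr {n : ℕ} (G : SimpleGraph (Fin n)) (s : Fin n) (rot : Rot) : Prop where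
  valid : RotValid rot s.1
  len : rot.length = n
  adj : ∀ u : Fin n, u.1 ∈ comp rot s.1 → ∀ v : Fin n, v.1 ∈ nbrs rot u.1 ↔ G.Adj u v

section

variable {n : ℕ} {G : SimpleGraph (Fin n)} {s : Fin n} {rot : Rot}

/-- level of a vertex (half of the radial distance; `0` outside of the component) -/
def levOf (rot : Rot) (s : ℕ) (v : ℕ) : ℕ :=
  if v ∈ comp rot s then rd rot s (v, v) / 2 else 0

lemma levOf_s (hR : Repr G s rot) : levOf rot s.1 s.1 = 0 := by
  unfold levOf
  rw [if_pos (s_mem_comp hR.valid), rd_s]

/-- The radial distances of the ends of a dart differ by at most `2`. -/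
lemma mb_rd_snd {rot : Rot} {s : ℕ} (h : RotValid rot s) {d : Nd} (hd : d ∈ darts rot s) :
    rd rot s (d.2, d.2) ≤ rd rot s (d.1, d.1) + 2 := by
  have hne : darts rot s ≠ [] := List.ne_nil_of_mem hd
  have h1 := rd_corner h hne hd
  have h2 := rd_corner h hne (phi_mem h hd)
  rw [faceOf_phi h hd] at h2
  have h3 : (phi rot d).1 = d.2 := rfl
  rw [h3] at h2
  omega

lemma levOf_adj (hR : Repr G s rot) (u v : Fin n) (huv : G.Adj u v) :
    levOf rot s.1 v.1 ≤ levOf rot s.1 u.1 + 1 := by
  by_cases hv : v.1 ∈ comp rot s.1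
  · have h1 : u.1 ∈ nbrs rot v.1 := (hR.adj v hv u).2 huv.symm
    have h2 : ((v.1, u.1) : Nd) ∈ darts rot s.1 := (mem_darts hR.valid).2 ⟨hv, h1⟩
    have hu : u.1 ∈ comp rot s.1 := snd_mem hR.valid h2
    have h3 : rd rot s.1 (v.1, v.1) ≤ rd rot s.1 (u.1, u.1) + 2 :=
      mb_rd_snd hR.valid (al_mem hR.valid h2)
    unfold levOf
    rw [if_pos hv, if_pos hu]
    omega
  · have h1 : levOf rot s.1 v.1 = 0 := by
      unfold levOf
      rw [if_neg hv]
    rw [h1]
    exact Nat.zero_le _

/-- a labelling of the vertices of `G` as a function on `ℕ` -/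
def extF {n : ℕ} (a : Fin n → ℕ) (v : ℕ) : ℕ := if h : v < n then a ⟨v, h⟩ else 0

end

end Pool.Agent.PFire
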