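import Pool.Agent.Lib.PFire.ModelVars
import Pool.Agent.Lib.PFire.OrderScheme
import Pool.Agent.Lib.PFire.SpecItems

/-!
# Chunk MO1: good labellings solve the constraint problem of the items
-/

set_option autoImplicit false

namespace Pool.Agent.PFire

open Pool.Agent.PolyTime

variable {n : ℕ} {G : SimpleGraph (Fin n)} {s : Fin n} {rot : Rot}

lemma ms_extF (a : Fin n → ℕ) {v : ℕ} (hv : v < n) : extF a v = a ⟨v, hv⟩ := by
  unfold extF
  rw [dif_pos hv]

lemma ms_lt (hR : Repr G s rot) {v : ℕ} (hv : v ∈ comp rot s.1) : v < n := by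
  unfold comp at hv
  have := (List.mem_filter.1 hv).1
  rw [List.mem_range, hR.len] at this
  exact this

lemma ms_ok_comm (k a b : ℕ) : ok k a b = ok k b a := by
  unfold ok
  exact Bool.and_comm _ _

lemma ms_not_ok (k : ℕ) : ok k 0 (2 * k + 1) ≠ true := by
  unfold ok half
  rw [if_pos (Nat.zero_le k), if_neg (by omega), if_pos rfl]
  simp

/-- A good labelling satisfies the constraint on each dart. -/
lemma ms_ok_dart (hR : Repr G s rot) {k : ℕ} {a : Fin n → ℕ} (ha : Good G s k a) {d : Nd}
    (hd : d ∈ darts rot s.1) : ok k (extF a d.1) (extF a d.2) = true := by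
  have h1 := fst_mem hR.valid hd
  have h2 := snd_mem hR.valid hd
  rw [ms_extF a (ms_lt hR h1), ms_extF a (ms_lt hR h2)]
  refine ha.adj _ _ ((hR.adj ⟨d.1, ms_lt hR h1⟩ h1 ⟨d.2, ms_lt hR h2⟩).1 ?_)
  exact ((mem_darts hR.valid).1 hd).2

/-- A good labelling which is constant on the forced levels is constant on the forced components. -/
lemma ms_rep (hR : Repr G s rot) {k i : ℕ} {a : Fin n → ℕ} (ha : Good G s k a)
    (hf : ∀ v, v ∈ comp rot s.1 → forced rot s.1 k i v = true →
      extF a v = 0 ∨ extF a v = 2 * k + 1) {v : ℕ} (hv : v ∈ comp rot s.1) :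
    extF a (rep rot s.1 k i v) = extF a v := by
  have h1 := mem_reach.1 (rep_reach (k := k) (i := i) hR.valid hv)
  generalize rep rot s.1 k i v = r at h1
  induction h1 with
  | refl => rfl
  | @tail b c _ hbc ih =>
    rw [← ih]
    obtain ⟨hd, hb, hc⟩ := mem_frcE.1 hbc
    have h2 := hf _ (fst_mem hR.valid hd) hb
    have h3 := hf _ (snd_mem hR.valid hd) hc
    have h4 := ms_ok_dart hR ha hd
    dsimp only at h2 h3 h4
    rcases h2 with h2 | h2 <;> rcases h3 with h3 | h3 <;> rw [h2, h3] at h4 ⊢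
    · exact absurd h4 (ms_not_ok k)
    · rw [ms_ok_comm] at h4
      exact absurd h4 (ms_not_ok k)

/-- Chunk MO1: a good labelling which is constant (`0` or `2 k + 1`) on the forced levels solves the
constraint problem of the items.  (Adjacent forced vertices have the same value because
`ok k 0 (2 k + 1) = false`.) -/
theorem sol_of_good (hR : Repr G s rot) (hne : darts rot s.1 ≠ []) (k i : ℕ) (hi : i < k + 2)
    (a : Fin n → ℕ) (ha : Good G s k a)
    (hf : ∀ v : Fin n, k + 1 ≤ levOf rot s.1 v.1 → levOf rot s.1 v.1 % (k + 2) = i →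
      a v = 0 ∨ a v = 2 * k + 1) :
    Sol k (items rot s.1 k i) (extF a) ∧
      gain k (items rot s.1 k i) (extF a) =
        ((comp rot s.1).filter fun v => decide (extF a v ≤ k)).length := by
  have h := hR.valid
  have hf' : ∀ v, v ∈ comp rot s.1 → forced rot s.1 k i v = true →
      extF a v = 0 ∨ extF a v = 2 * k + 1 := by
    intro v hv hfv
    obtain ⟨h1, h2⟩ := (mv_forced_iff h hne hv).1 hfv
    rw [ms_extF a (ms_lt hR hv)]
    exact hf ⟨v, ms_lt hR hv⟩ h1 h2
  have hrep := fun {v : ℕ} (hv : v ∈ comp rot s.1) => ms_rep (i := i) hR ha hf' hv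
  refine ⟨⟨?_, ?_, ?_⟩, ?_⟩
  · intro it hit
    obtain ⟨⟨hz, _⟩, hdom, _⟩ := mv_item h hne hit
    rw [hdom]
    unfold domOf
    by_cases h1 : it.z = s.1
    · rw [if_pos h1, h1, ms_extF a s.2, List.mem_singleton]
      exact ha.start
    · rw [if_neg h1]
      by_cases h2 : forced rot s.1 k i it.z = true
      · rw [if_pos h2]
        rcases hf' _ hz h2 with h3 | h3 <;> rw [h3] <;> simp
      · rw [if_neg h2, List.mem_range, ms_extF a (ms_lt hR hz)]
        have := ha.le ⟨it.z, ms_lt hR hz⟩
        omega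
  · intro it hit y hy
    obtain ⟨_, _, hnb⟩ := mv_item h hne hit
    obtain ⟨_, _, hq⟩ := (hnb y).1 hy
    obtain ⟨d, hd, h1, h2⟩ := mv_qadj.1 hq
    rw [← h1, ← h2, hrep (fst_mem h hd), hrep (snd_mem h hd)]
    exact ms_ok_dart hR ha hd
  · intro it hit it' hit' h1 h2 h3
    obtain ⟨⟨hz, _⟩, _, _⟩ := mv_item h hne hit
    obtain ⟨⟨hz', _⟩, _, _⟩ := mv_item h hne hit'
    rw [ms_extF a (ms_lt hR hz)] at h1 h2 h3
    rw [ms_extF a (ms_lt hR hz')] at h3
    exact congrArg Fin.val (ha.times _ _ h1 h2 h3)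
  · rw [mv_gain h hne k i]
    congr 1
    apply List.filter_congr
    intro v hv
    rw [hrep hv]

/-- The total weight of the items. -/
lemma sum_weight (h : RotValid rot s.1) (hne : darts rot s.1 ≠ []) (k i : ℕ) :
    ((items rot s.1 k i).map Item.w).sum ≤ rot.length := by
  have h1 := mv_gain h hne k i (fun _ => 0)
  unfold gain at h1
  simp only [Nat.zero_le, if_true, decide_true, List.filter_true] at h1
  rw [h1]
  unfold comp
  exact (List.length_filter_le _ _).trans (by rw [List.length_range])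

end Pool.Agent.PFire
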