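import Pool.Agent.Lib.PFire.ModelBase
import Pool.Agent.Lib.PFire.OrderScheme
import Pool.Agent.Lib.PFire.SpecItems

/-!
# The variables of the items (auxiliary facts for the chunks MO1, MO2, MO3)
-/

set_option autoImplicit false

namespace Pool.Agent.PFire

open Pool.Agent.PolyTime

section

variable {rot : Rot} {s : ℕ}

lemma mv_dart_of_mem (h : RotValid rot s) (hne : darts rot s ≠ []) {v : ℕ} (hv : v ∈ comp rot s) :
    ∃ d ∈ darts rot s, d.1 = v := by
  obtain ⟨d, hd⟩ := (rawMap h hne).tail_surj ⟨v, hv⟩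
  exact ⟨d.1, d.2, congrArg Subtype.val hd⟩

lemma mv_mem_vars {k i z : ℕ} : z ∈ vars rot s k i ↔ z ∈ comp rot s ∧ rep rot s k i z = z := by
  unfold vars
  rw [List.mem_filter, decide_eq_true_eq]

lemma mv_vars_nodup {k i : ℕ} : (vars rot s k i).Nodup := comp_nodup.filter _

/-- Every variable is in some bag. -/
lemma mv_ne (h : RotValid rot s) (hne : darts rot s ≠ []) (k i : ℕ) :
    ∀ z ∈ vars rot s k i, ∃ t ∈ order rot s k i, inBag rot s k i z t = true := by
  intro z hz
  obtain ⟨hz1, hz2⟩ := mv_mem_vars.1 hz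
  obtain ⟨d, hd, hdz⟩ := mv_dart_of_mem h hne hz1
  refine ⟨d, (mem_order h hne k i).2 hd, ?_⟩
  unfold inBag
  rw [Bool.and_eq_true]
  constructor
  · unfold slabB
    rw [Bool.not_eq_true', List.any_eq_false]
    intro x _ hx
    rw [Bool.and_eq_true, Bool.and_eq_true, decide_eq_true_eq, decide_eq_true_eq] at hx
    have h1 := rd_corner h hne hd
    rw [hdz] at h1
    omega
  · rw [Bool.or_eq_true, Bool.or_eq_true]
    left; left
    unfold isDesc
    rw [decide_eq_true_eq, hdz, mem_reach]

lemma mv_mem_elim (h : RotValid rot s) (hne : darts rot s ≠ []) {k i z : ℕ} :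
    z ∈ elimOrder (vars rot s k i) (order rot s k i) (inBag rot s k i) ↔
      z ∈ comp rot s ∧ rep rot s k i z = z := by
  rw [mem_elimOrder (mv_ne h hne k i), mv_mem_vars]

lemma mv_mem_z (h : RotValid rot s) (hne : darts rot s ≠ []) {k i z : ℕ} :
    z ∈ (items rot s k i).map Item.z ↔ z ∈ comp rot s ∧ rep rot s k i z = z := by
  unfold items
  rw [map_z_mkItems, mv_mem_elim h hne]

/-- The fields of an item. -/
lemma mv_item (h : RotValid rot s) (hne : darts rot s ≠ []) {k i : ℕ} {it : Item}
    (hit : it ∈ items rot s k i) :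
    (it.z ∈ comp rot s ∧ rep rot s k i it.z = it.z) ∧ it.dom = domOf rot s k i it.z ∧
      ∀ y, y ∈ it.nb ↔ (y ∈ comp rot s ∧ rep rot s k i y = y) ∧
        ((items rot s k i).map Item.z).idxOf it.z < ((items rot s k i).map Item.z).idxOf y ∧
        qadj rot s k i it.z y = true := by
  have h0 : (items rot s k i).map Item.z =
      elimOrder (vars rot s k i) (order rot s k i) (inBag rot s k i) := by
    unfold items
    rw [map_z_mkItems]
  have hz := (mv_mem_z h hne).1 (List.mem_map_of_mem (f := Item.z) hit)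
  rw [h0]
  unfold items mkItems at hit
  obtain ⟨z, hz', rfl⟩ := List.mem_map.1 hit
  refine ⟨hz, rfl, fun y => ?_⟩
  show y ∈ (vars rot s k i).filter _ ↔ _
  rw [List.mem_filter, Bool.and_eq_true, decide_eq_true_eq, mv_mem_vars]
  rfl

lemma mv_exists_item {k i z : ℕ} (hz : z ∈ (items rot s k i).map Item.z) :
    ∃ it ∈ items rot s k i, it.z = z := List.mem_map.1 hz

lemma mv_forced_iff (h : RotValid rot s) (hne : darts rot s ≠ []) {k i v : ℕ}
    (hv : v ∈ comp rot s) :
    forced rot s k i v = true ↔ k + 1 ≤ levOf rot s v ∧ levOf rot s v % (k + 2) = i := by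
  have h1 := rd_even h hne hv
  unfold forced flB levOf
  rw [if_pos hv, Bool.and_eq_true, Bool.and_eq_true, decide_eq_true_eq, decide_eq_true_eq,
    decide_eq_true_eq]
  constructor
  · rintro ⟨⟨h2, _⟩, h3⟩
    exact ⟨by omega, h3⟩
  · rintro ⟨h2, h3⟩
    exact ⟨⟨by omega, h1⟩, h3⟩

lemma mv_forced_rep (h : RotValid rot s) (hne : darts rot s ≠ []) {k i v : ℕ}
    (hv : v ∈ comp rot s) : forced rot s k i (rep rot s k i v) = forced rot s k i v := by
  unfold forced
  rw [rd_rep h hne hv]

lemma mv_forced_s (k i : ℕ) : forced rot s k i s ≠ true := by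
  unfold forced
  rw [rd_s]
  exact flB_zero

lemma mv_rep_s (h : RotValid rot s) (k i : ℕ) : rep rot s k i s = s :=
  rep_unforced h (s_mem_comp h) (mv_forced_s k i)

lemma mv_qadj {k i z y : ℕ} : qadj rot s k i z y = true ↔
    ∃ d ∈ darts rot s, rep rot s k i d.1 = z ∧ rep rot s k i d.2 = y := by
  unfold qadj
  rw [List.any_eq_true]
  constructor
  · rintro ⟨d, hd, h⟩
    rw [Bool.and_eq_true, decide_eq_true_eq, decide_eq_true_eq] at h
    exact ⟨d, hd, h⟩
  · rintro ⟨d, hd, h⟩
    refine ⟨d, hd, ?_⟩
    rw [Bool.and_eq_true, decide_eq_true_eq, decide_eq_true_eq]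
    exact h

lemma mv_rep_rep (h : RotValid rot s) {k i v : ℕ} (hv : v ∈ comp rot s) :
    rep rot s k i (rep rot s k i v) = rep rot s k i v :=
  rep_eq_of_reach h hv (rep_reach h hv)

/-- The gain of an assignment counts the vertices of the component. -/
lemma mv_gain (h : RotValid rot s) (hne : darts rot s ≠ []) (k i : ℕ) (b : ℕ → ℕ) :
    gain k (items rot s k i) b =
      ((comp rot s).filter fun v => decide (b (rep rot s k i v) ≤ k)).length := by
  classical
  set E := elimOrder (vars rot s k i) (order rot s k i) (inBag rot s k i) with hE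
  have hEn : E.Nodup := elimOrder_nodup mv_vars_nodup
  have hEm : ∀ z, z ∈ E ↔ z ∈ comp rot s ∧ rep rot s k i z = z := fun z => mv_mem_elim h hne
  have h1 : gain k (items rot s k i) b =
      (E.map fun z => if b z ≤ k then weight rot s k i z else 0).sum := by
    unfold gain items mkItems
    rw [List.map_map]
    rfl
  rw [h1, ← List.sum_toFinset _ hEn]
  have h2 : ((comp rot s).filter fun v => decide (b (rep rot s k i v) ≤ k)).length =
      ((comp rot s).toFinset.filter fun v => b (rep rot s k i v) ≤ k).card := by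
    rw [← List.toFinset_card_of_nodup (comp_nodup.filter _), List.toFinset_filter]
    simp only [decide_eq_true_eq]
  rw [h2, Finset.card_eq_sum_card_fiberwise (f := fun v => rep rot s k i v) (t := E.toFinset)]
  · apply Finset.sum_congr rfl
    intro z hz
    rw [Finset.filter_filter]
    by_cases hb : b z ≤ k
    · rw [if_pos hb]
      unfold weight
      rw [← List.toFinset_card_of_nodup (comp_nodup.filter _), List.toFinset_filter]
      congr 1
      ext v
      rw [Finset.mem_filter, Finset.mem_filter, decide_eq_true_eq]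
      constructor
      · rintro ⟨h3, h4⟩
        exact ⟨h3, by rw [h4]; exact hb, h4⟩
      · rintro ⟨h3, _, h4⟩
        exact ⟨h3, h4⟩
    · rw [if_neg hb]
      symm
      rw [Finset.card_eq_zero, Finset.filter_eq_empty_iff]
      rintro v _ ⟨h3, h4⟩
      rw [h4] at h3
      exact hb h3
  · intro v hv
    rw [Finset.mem_coe, Finset.mem_filter, List.mem_toFinset] at hv
    rw [Finset.mem_coe, List.mem_toFinset, hEm]
    exact ⟨rep_mem h hv.1, mv_rep_rep h hv.1⟩

end

end Pool.Agent.PFire
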