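import Pool.Agent.Lib.PolyTime.Reach
import Pool.Agent.Lib.PolyTime.Subsets

/-!
# Raw list functions: graphs and rotation systems given by lists, distances

`Rot = List (List ℕ)`: the entry number `v` is the list of the neighbours of the vertex `v`; for a
rotation system it is the cyclic list in the order around `v`.  `Nd = ℕ × ℕ` is used for darts, and for
the nodes of the radial graph: the vertex `v` is the node `(v, v)`, a face is the first of its darts.
-/

set_option autoImplicit false

namespace Pool.Agent.PFire

open Pool.Agent.PolyTime

abbrev Rot := List (List ℕ)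
abbrev Nd := ℕ × ℕ

section Dist

variable {κ : Type} [DecidableEq κ]

/-- number of rounds after which `y` is reached from `x` (`E.length + 1` if it is not reached) -/
def dist (E : List (κ × κ)) (x y : κ) : ℕ :=
  ((fun p : List κ × ℕ => (reachStep E p.1, p.2 + if y ∈ p.1 then 0 else 1))^[E.length + 1]
    ([x], 0)).2

end Dist

/-- neighbours of `v` -/
def nbrs (rot : Rot) (v : ℕ) : List ℕ := rot.getD v []

/-- all darts -/
def allDarts (rot : Rot) : List Nd :=
  (List.range rot.length).flatMap fun u => (nbrs rot u).map fun v => (u, v)

/-- the component of `s` -/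
def comp (rot : Rot) (s : ℕ) : List ℕ :=
  (List.range rot.length).filter fun v => decide (v ∈ reach (allDarts rot) s)

/-- the darts of the component of `s` -/
def darts (rot : Rot) (s : ℕ) : List Nd := (allDarts rot).filter fun d => decide (d.1 ∈ comp rot s)

/-- the element after `x` in the cyclic list `l` -/
def nextIn (l : List ℕ) (x : ℕ) : ℕ :=
  (((l.dropWhile fun y => decide (y ≠ x)).drop 1) ++ l).headD 0

/-- reversal -/
def al (d : Nd) : Nd := (d.2, d.1)

/-- the next dart along the face -/
def phi (rot : Rot) (d : Nd) : Nd := (d.2, nextIn (nbrs rot d.2) d.1)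

def phiE (rot : Rot) (s : ℕ) : List (Nd × Nd) := (darts rot s).map fun d => (d, phi rot d)

/-- the representative of the face of the dart `d` -/
def faceOf (rot : Rot) (s : ℕ) (d : Nd) : Nd :=
  ((darts rot s).find? fun d' => decide (d' ∈ reach (phiE rot s) d)).getD d

/-- the faces of the component of `s` -/
def faces (rot : Rot) (s : ℕ) : List Nd := (darts rot s).filter fun d => decide (faceOf rot s d = d)

/-- the lists describe a simple graph (adjacency lists without repetition) -/
structure RotValid (rot : Rot) (s : ℕ) : Prop where
  s_lt : s < rot.length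
  lt : ∀ u v, v ∈ nbrs rot u → v < rot.length
  nodup : ∀ u, (nbrs rot u).Nodup
  symm : ∀ u v, v ∈ nbrs rot u → u ∈ nbrs rot v
  irrefl : ∀ u, u ∉ nbrs rot u

/-- the rotation system of the component of `s` has genus zero -/
def RotPlane (rot : Rot) (s : ℕ) : Prop :=
  2 * ((comp rot s).length + (faces rot s).length) = (darts rot s).length + 4

end Pool.Agent.PFire
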