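import Pool.Agent.Lib.PFire.SolverBase

/-!
# Common lemmas for the soundness and the completeness of the solver (chunks SS and SC)
-/

set_option autoImplicit false

namespace Pool.Agent.PFire

/-- well formed witness -/
def WfR (k : ℕ) (r : Row) : Prop := r.2.2.length = k + 1 ∧ r.2.2.getD 0 0 = 0

/-- disjoint witnesses -/
def DisjW (u v : List ℕ) : Prop := ∀ t, u.getD t 0 = 0 ∨ v.getD t 0 = 0

theorem DisjW.symm {u v : List ℕ} (h : DisjW u v) : DisjW v u := fun t => (h t).symm

/-- the tables after the items `l` -/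
def tabsOf (k N cap : ℕ) (l : List Item) : List Tab := l.foldl (elimStep k N cap) []

theorem tabsOf_snoc (k N cap : ℕ) (l : List Item) (it : Item) :
    tabsOf k N cap (l ++ [it]) = elimStep k N cap (tabsOf k N cap l) it := by
  simp [tabsOf]

theorem pos_lt_iff {k w : ℕ} {items l1 l2 : List Item} {it : Item} (hs : SchemeOK k w items)
    (h : items = l1 ++ it :: l2) {y : ℕ} (hy : y ∈ items.map Item.z) :
    posOf items it.z < posOf items y ↔ y ∈ l2.map Item.z := by
  have hnd := hs.nodup
  unfold posOf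
  rw [h, List.map_append, List.map_cons] at hnd hy ⊢
  set L1 := l1.map Item.z
  set L2 := l2.map Item.z
  rw [List.nodup_append] at hnd
  obtain ⟨_, h2, h3⟩ := hnd
  rw [List.nodup_cons] at h2
  have hz : it.z ∉ L1 := fun hz => h3 _ hz _ List.mem_cons_self rfl
  have e1 : (L1 ++ it.z :: L2).idxOf it.z = L1.length := by
    rw [List.idxOf_append_of_notMem hz, List.idxOf_cons_self]; rfl
  rw [e1]
  rw [List.mem_append, List.mem_cons] at hy
  rcases hy with hy | hy | hy
  · have e2 : (L1 ++ it.z :: L2).idxOf y < L1.length := by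
      rw [List.idxOf_append_of_mem hy]
      exact List.idxOf_lt_length_iff.mpr hy
    have e3 : y ∉ L2 := fun h => h3 _ hy _ (List.mem_cons_of_mem _ h) rfl
    constructor
    · intro h; omega
    · intro h; exact absurd h e3
  · subst hy
    rw [e1]
    constructor
    · intro h; omega
    · intro h; exact absurd h h2.1
  · have hy1 : y ∉ L1 := fun h => h3 _ h _ (List.mem_cons_of_mem _ hy) rfl
    have hne : it.z ≠ y := fun h => h2.1 (h ▸ hy)
    rw [List.idxOf_append_of_notMem hy1, List.idxOf_cons_ne _ hne]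
    constructor
    · intro _; exact hy
    · intro _; omega

theorem z_notMem {k w : ℕ} {items l1 l2 : List Item} {it : Item} (hs : SchemeOK k w items)
    (h : items = l1 ++ it :: l2) : it.z ∉ l1.map Item.z ∧ it.z ∉ l2.map Item.z ∧
      (∀ y ∈ l2.map Item.z, y ∉ l1.map Item.z) := by
  have hnd := hs.nodup
  rw [h, List.map_append, List.map_cons, List.nodup_append] at hnd
  obtain ⟨_, h2, h3⟩ := hnd
  rw [List.nodup_cons] at h2
  exact ⟨fun hz => h3 _ hz _ List.mem_cons_self rfl, h2.1,
    fun y hy hy' => h3 _ hy' _ (List.mem_cons_of_mem _ hy) rfl⟩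

/-- the variables of the bag of the next item come later -/
theorem bag_later {k w : ℕ} {items l1 l2 : List Item} {it : Item} (hs : SchemeOK k w items)
    (h : items = l1 ++ it :: l2) {y : ℕ} (hy : y ∈ it.bag) : y ∈ l2.map Item.z := by
  have hit : it ∈ items := by rw [h]; simp
  obtain ⟨h1, h2⟩ := hs.later it hit y hy
  exact (pos_lt_iff hs h h1).mp h2

theorem mem_elimStep {k N cap : ℕ} {tabs : List Tab} {it : Item} {T : Tab} (h : T ∈ elimStep k N cap tabs it) :
    T = (it.bag, reduceRows cap ((asgs k cap it.bag).flatMap fun f => it.dom.flatMap fun c =>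
      elimOne k N cap it (tabs.filter fun T => decide (it.z ∈ T.1)) f c)) ∨ (T ∈ tabs ∧ it.z ∉ T.1) := by
  unfold elimStep at h
  rw [List.mem_cons] at h
  rcases h with h | h
  · exact Or.inl h
  · rw [List.mem_filter, decide_eq_true_eq] at h
    exact Or.inr h

/-- Structure of the tables. -/
theorem tabs_struct {k w N cap : ℕ} {items : List Item} (hs : SchemeOK k w items) (l1 : List Item) :
    ∀ l2, items = l1 ++ l2 → ∀ T ∈ tabsOf k N cap l1,
      (∃ it ∈ l1, T.1 = it.bag) ∧ ∀ y ∈ T.1, y ∈ l2.map Item.z := by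
  induction l1 using List.reverseRecOn with
  | nil => intro l2 _ T hT; simp [tabsOf] at hT
  | append_singleton l1 it ih =>
    intro l2 h T hT
    rw [tabsOf_snoc] at hT
    have h' : items = l1 ++ it :: l2 := by rw [h]; simp
    rcases mem_elimStep hT with rfl | ⟨hT, hz⟩
    · exact ⟨⟨it, by simp, rfl⟩, fun y hy => bag_later hs h' hy⟩
    · obtain ⟨⟨it', hit', e⟩, h2⟩ := ih (it :: l2) h' T hT
      refine ⟨⟨it', by simp [hit'], e⟩, fun y hy => ?_⟩
      have := h2 y hy
      rw [List.map_cons, List.mem_cons] at this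
      rcases this with rfl | this
      · exact absurd hy hz
      · exact this

/-- A table with `z` in its scope has its scope in `z :: bag`. -/
theorem tabs_chord {k w N cap : ℕ} {items : List Item} (hs : SchemeOK k w items) {l1 l2 : List Item} {it : Item}
    (h : items = l1 ++ it :: l2) {T : Tab} (hT : T ∈ tabsOf k N cap l1) (hz : it.z ∈ T.1) {y : ℕ} (hy : y ∈ T.1) :
    y ∈ it.z :: it.bag := by
  obtain ⟨⟨it', hit', e⟩, h2⟩ := tabs_struct (N := N) (cap := cap) hs l1 (it :: l2) h T hT
  have := h2 y hy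
  rw [List.map_cons, List.mem_cons] at this
  rw [List.mem_cons]
  rcases this with this | this
  · exact Or.inl this
  · right
    have hi1 : it' ∈ items := by rw [h]; simp [hit']
    have hi2 : it ∈ items := by rw [h]; simp
    have hyi : y ∈ items.map Item.z := by
      rw [h, List.map_append, List.map_cons]
      simp only [List.mem_append, List.mem_cons]
      exact Or.inr (Or.inr this)
    exact hs.chord it' hi1 it hi2 (e ▸ hz) y (e ▸ hy) ((pos_lt_iff hs h hyi).mpr this)

theorem wf_unitW (k z c : ℕ) (f : List ℕ) (m : ℕ) : WfR k (f, (m, unitW k z c)) := by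
  refine ⟨length_unitW k z c, ?_⟩
  show (unitW k z c).getD 0 0 = 0
  rw [getD_unitW, if_neg (by omega)]

theorem foldJoin_wf {k N cap : ℕ} {vs cs : List ℕ} {P : List ℕ → Prop} (Ts : List Tab)
    (hT : ∀ T ∈ Ts, ∀ r ∈ T.2, WfR k r) : ∀ acc : List Row, (∀ p ∈ acc, P p.1 ∧ WfR k p) →
    ∀ r ∈ Ts.foldl (joinTab N cap vs cs) acc, P r.1 ∧ WfR k r := by
  induction Ts with
  | nil => intro acc hacc r hr; exact hacc r hr
  | cons T Ts ih =>
    intro acc hacc r hr
    rw [List.foldl_cons] at hr
    refine ih (fun T' hT' => hT T' (List.mem_cons_of_mem _ hT')) _ ?_ r hr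
    intro p1 hp1
    obtain ⟨p, hp, q, hq, _, _, rfl⟩ := mem_joinTab hp1
    have h1 := hacc p hp
    have h2 := hT T List.mem_cons_self q hq
    refine ⟨h1.1, ?_, ?_⟩
    · show (mergeW p.2.2 q.2.2).length = k + 1
      rw [length_mergeW, h1.2.1, h2.1, min_self]
    · show (mergeW p.2.2 q.2.2).getD 0 0 = 0
      rw [getD_mergeW (h1.2.1.trans h2.1.symm), h1.2.2, h2.2]
      rfl

theorem mem_elimOne {k N cap : ℕ} {it : Item} {inv : List Tab} {f : List ℕ} {c : ℕ} {r : Row}
    (h : r ∈ elimOne k N cap it inv f c) :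
    (∀ y ∈ it.nb, ok k c (asgVal it.bag f y) = true) ∧
    r ∈ inv.foldl (joinTab N cap (it.z :: it.bag) (c :: f))
      [(f, (if c ≤ k then min N it.w else 0, unitW k it.z c))] := by
  unfold elimOne at h
  by_cases h1 : (it.nb.all fun y => ok k c (asgVal it.bag f y)) = true
  · rw [if_pos h1] at h
    rw [List.all_eq_true] at h1
    exact ⟨h1, h⟩
  · rw [if_neg h1] at h
    exact absurd h List.not_mem_nil

/-- All witnesses are well formed. -/
theorem tabs_wf (k N cap : ℕ) (l : List Item) : ∀ T ∈ tabsOf k N cap l, ∀ r ∈ T.2, WfR k r := by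
  induction l using List.reverseRecOn with
  | nil => intro T hT; simp [tabsOf] at hT
  | append_singleton l it ih =>
    intro T hT r hr
    rw [tabsOf_snoc] at hT
    rcases mem_elimStep hT with rfl | ⟨hT, _⟩
    · have h1 := mem_of_mem_reduceRows hr
      rw [List.mem_flatMap] at h1
      obtain ⟨f, _, h1⟩ := h1
      rw [List.mem_flatMap] at h1
      obtain ⟨c, _, h1⟩ := h1
      obtain ⟨_, h2⟩ := mem_elimOne h1
      exact (foldJoin_wf (P := fun _ => True) _
        (fun T hT => ih T (List.mem_filter.mp hT).1) _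
        (fun p hp => by
          rw [List.mem_singleton] at hp
          subst hp
          exact ⟨trivial, wf_unitW _ _ _ _ _⟩) r h2).2
    · exact ih T hT r hr

/-- The relation between a table and the chosen row, for an assignment. -/
def Agr (a : ℕ → ℕ) (T : Tab) (r : Row) : Prop := r ∈ T.2 ∧ r.1 = T.1.map a

theorem Agr_congr {a b : ℕ → ℕ} {T : Tab} {r : Row} (h : ∀ y ∈ T.1, a y = b y) (hr : Agr a T r) : Agr b T r :=
  ⟨hr.1, hr.2.trans (List.map_congr_left h)⟩

theorem forall₂_imp_mem {α β : Type} {R S : α → β → Prop} {l : List α} {l' : List β}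
    (H : ∀ a ∈ l, ∀ b, R a b → S a b) (h : List.Forall₂ R l l') : List.Forall₂ S l l' := by
  induction h with
  | nil => exact List.Forall₂.nil
  | @cons a b l l' hab _ ih =>
    exact List.Forall₂.cons (H a List.mem_cons_self b hab) (ih (fun a' ha' => H a' (List.mem_cons_of_mem _ ha')))

theorem gain_append (k : ℕ) (l1 l2 : List Item) (a : ℕ → ℕ) : gain k (l1 ++ l2) a = gain k l1 a + gain k l2 a := by
  simp [gain]

theorem gain_single (k : ℕ) (it : Item) (a : ℕ → ℕ) : gain k [it] a = if a it.z ≤ k then it.w else 0 := by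
  simp [gain]

end Pool.Agent.PFire
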