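import Pool.Agent.Lib.PFire.Scheme

/-!
# Chunk SB: elementary facts on rows, assignments and witnesses
-/

set_option autoImplicit false

namespace Pool.Agent.PFire

private lemma SB_mem_insRow {l : List Row} {r q : Row} (h : q ∈ insRow l r) : q = r ∨ q ∈ l := by
  unfold insRow at h
  split_ifs at h with h1
  · exact Or.inr h
  · rcases List.mem_cons.1 h with h2 | h2
    · exact Or.inl h2
    · exact Or.inr (List.mem_of_mem_filter h2)

private lemma SB_mem_foldl {l acc : List Row} {q : Row} (h : q ∈ l.foldl insRow acc) :
    q ∈ l ∨ q ∈ acc := by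
  induction l generalizing acc with
  | nil => exact Or.inr h
  | cons a l ih =>
    rcases ih h with h1 | h1
    · exact Or.inl (List.mem_cons_of_mem _ h1)
    · rcases SB_mem_insRow h1 with h2 | h2
      · exact Or.inl (h2 ▸ List.mem_cons_self)
      · exact Or.inr h2

lemma mem_of_mem_reduceRows {cap : ℕ} {l : List Row} {r : Row} (h : r ∈ reduceRows cap l) :
    r ∈ l := by
  rcases SB_mem_foldl (List.mem_of_mem_take h) with h1 | h1
  · exact h1
  · exact absurd h1 List.not_mem_nil

private lemma SB_insRow_nodup {l : List Row} {r : Row} (h : (l.map rkey).Nodup) :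
    ((insRow l r).map rkey).Nodup := by
  unfold insRow
  split_ifs with h1
  · exact h
  · rw [List.map_cons, List.nodup_cons]
    constructor
    · intro h2
      rw [List.mem_map] at h2
      obtain ⟨q, hq, hk⟩ := h2
      have := (List.mem_filter.1 hq).2
      simp [hk] at this
    · exact h.sublist (List.Sublist.map _ List.filter_sublist)

private lemma SB_foldl_nodup {l acc : List Row} (h : (acc.map rkey).Nodup) :
    ((l.foldl insRow acc).map rkey).Nodup := by
  induction l generalizing acc with
  | nil => exact h
  | cons a l ih => exact ih (SB_insRow_nodup h)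

/-- The rows of a reduced list have different keys. -/
lemma reduceRows_nodup (cap : ℕ) (l : List Row) : ((reduceRows cap l).map rkey).Nodup := by
  unfold reduceRows
  exact (SB_foldl_nodup (acc := []) (by simp)).sublist
    (List.Sublist.map _ (List.take_sublist _ _))

private lemma SB_insRow_dom {l : List Row} {r q : Row} (h : q ∈ l ∨ q = r) :
    ∃ p ∈ insRow l r, rkey p = rkey q ∧ q.2.1 ≤ p.2.1 := by
  unfold insRow
  split_ifs with h1
  · rcases h with h | h
    · exact ⟨q, h, rfl, le_rfl⟩
    · subst h
      rw [List.any_eq_true] at h1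
      obtain ⟨p, hp, h2⟩ := h1
      simp only [Bool.and_eq_true, decide_eq_true_eq] at h2
      exact ⟨p, hp, h2.1, h2.2⟩
  · rcases h with h | h
    · by_cases h3 : rkey q = rkey r
      · refine ⟨r, List.mem_cons_self, h3.symm, ?_⟩
        by_contra h4
        apply h1
        rw [List.any_eq_true]
        refine ⟨q, h, ?_⟩
        simp only [Bool.and_eq_true, decide_eq_true_eq]
        exact ⟨h3, by omega⟩
      · exact ⟨q, List.mem_cons_of_mem _ (List.mem_filter.2 ⟨h, by simpa using h3⟩), rfl, le_rfl⟩
    · subst h
      exact ⟨q, List.mem_cons_self, rfl, le_rfl⟩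

private lemma SB_foldl_dom {l acc : List Row} {q : Row} (h : q ∈ acc ∨ q ∈ l) :
    ∃ p ∈ l.foldl insRow acc, rkey p = rkey q ∧ q.2.1 ≤ p.2.1 := by
  induction l generalizing acc q with
  | nil =>
    rcases h with h | h
    · exact ⟨q, h, rfl, le_rfl⟩
    · exact absurd h List.not_mem_nil
  | cons a l ih =>
    rw [List.foldl_cons]
    have key : q ∈ acc ∨ q = a → ∃ p ∈ l.foldl insRow (insRow acc a),
        rkey p = rkey q ∧ q.2.1 ≤ p.2.1 := by
      intro h1
      obtain ⟨p, hp, hk, hw⟩ := SB_insRow_dom (l := acc) (r := a) h1
      obtain ⟨p', hp', hk', hw'⟩ := ih (acc := insRow acc a) (q := p) (Or.inl hp)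
      exact ⟨p', hp', hk'.trans hk, hw.trans hw'⟩
    rcases h with h | h
    · exact key (Or.inl h)
    · rcases List.mem_cons.1 h with h1 | h1
      · exact key (Or.inr h1)
      · exact ih (Or.inr h1)

/-- If there are at most `cap` different keys then each row is dominated by a kept row. -/
lemma exists_mem_reduceRows {cap : ℕ} {l : List Row} (hcap : ((l.map rkey).dedup).length ≤ cap)
    {r : Row} (h : r ∈ l) : ∃ q ∈ reduceRows cap l, rkey q = rkey r ∧ r.2.1 ≤ q.2.1 := by
  have hlen : (l.foldl insRow []).length ≤ cap := by
    have hn : ((l.foldl insRow []).map rkey).Nodup := SB_foldl_nodup (acc := []) (by simp)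
    have hsub : (l.foldl insRow []).map rkey ⊆ (l.map rkey).dedup := by
      intro x hx
      rw [List.mem_map] at hx
      obtain ⟨q, hq, rfl⟩ := hx
      rw [List.mem_dedup]
      rcases SB_mem_foldl hq with h1 | h1
      · exact List.mem_map_of_mem h1
      · exact absurd h1 List.not_mem_nil
    have := (hn.subperm hsub).length_le
    rw [List.length_map] at this
    exact this.trans hcap
  unfold reduceRows
  rw [List.take_of_length_le hlen]
  exact SB_foldl_dom (Or.inr h)

/-- lists of fixed length over an initial segment -/
private def SB_allLists (B : ℕ) : ℕ → List (List ℕ)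
  | 0 => [[]]
  | m + 1 => (List.range B).flatMap fun c => (SB_allLists B m).map fun f => c :: f

private lemma SB_length_allLists (B m : ℕ) : (SB_allLists B m).length = B ^ m := by
  induction m with
  | zero => simp [SB_allLists]
  | succ m ih =>
    simp [SB_allLists, List.length_flatMap, ih]
    ring

private lemma SB_mem_allLists {B m : ℕ} {f : List ℕ} (hl : f.length = m) (hf : ∀ c ∈ f, c < B) :
    f ∈ SB_allLists B m := by
  induction m generalizing f with
  | zero =>
    rw [List.length_eq_zero_iff] at hl
    subst hl
    simp [SB_allLists]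
  | succ m ih =>
    cases f with
    | nil => simp at hl
    | cons c f =>
      simp only [SB_allLists, List.mem_flatMap, List.mem_range, List.mem_map]
      exact ⟨c, hf c List.mem_cons_self, f,
        ih (by simpa using hl) (fun x hx => hf x (List.mem_cons_of_mem _ hx)), rfl⟩

private def SB_allBools : ℕ → List (List Bool)
  | 0 => [[]]
  | m + 1 => [true, false].flatMap fun c => (SB_allBools m).map fun f => c :: f

private lemma SB_length_allBools (m : ℕ) : (SB_allBools m).length = 2 ^ m := by
  induction m with
  | zero => simp [SB_allBools]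
  | succ m ih =>
    simp [SB_allBools, ih]
    ring

private lemma SB_mem_allBools {m : ℕ} {f : List Bool} (hl : f.length = m) :
    f ∈ SB_allBools m := by
  induction m generalizing f with
  | zero =>
    rw [List.length_eq_zero_iff] at hl
    subst hl
    simp [SB_allBools]
  | succ m ih =>
    cases f with
    | nil => simp at hl
    | cons c f =>
      simp only [SB_allBools, List.mem_flatMap, List.mem_map]
      refine ⟨c, by cases c <;> simp, f, ih (by simpa using hl), rfl⟩

/-- Counting keys. -/
lemma card_keys_le {k m : ℕ} {l : List Row}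
    (h : ∀ r ∈ l, r.1.length = m ∧ (∀ c ∈ r.1, c ≤ 2 * k + 1) ∧ r.2.2.length = k + 1) :
    ((l.map rkey).dedup).length ≤ (2 * k + 2) ^ m * 2 ^ (k + 1) := by
  have hsub : (l.map rkey).dedup ⊆
      List.product (SB_allLists (2 * k + 2) m) (SB_allBools (k + 1)) := by
    intro x hx
    rw [List.mem_dedup, List.mem_map] at hx
    obtain ⟨r, hr, rfl⟩ := hx
    obtain ⟨h1, h2, h3⟩ := h r hr
    rw [rkey, List.pair_mem_product]
    exact ⟨SB_mem_allLists h1 (fun c hc => by have := h2 c hc; omega),
      SB_mem_allBools (by rw [List.length_map, h3])⟩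
  have h1 := ((List.nodup_dedup _).subperm hsub).length_le
  have h2 : (List.product (SB_allLists (2 * k + 2) m) (SB_allBools (k + 1))).length =
      (SB_allLists (2 * k + 2) m).length * (SB_allBools (k + 1)).length := List.length_product _ _
  rw [h2, SB_length_allLists, SB_length_allBools] at h1
  exact h1

private lemma SB_asgs_concat (k cap : ℕ) (S : List ℕ) (v : ℕ) :
    asgs k cap (S ++ [v]) =
      (((asgs k cap S).flatMap fun f => (List.range (2 * k + 2)).map fun c => c :: f).take cap) := by
  unfold asgs
  rw [List.foldl_append]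
  rfl

lemma asgs_sound {k cap : ℕ} {S f : List ℕ} (h : f ∈ asgs k cap S) :
    f.length = S.length ∧ ∀ c ∈ f, c ≤ 2 * k + 1 := by
  induction S using List.reverseRecOn generalizing f with
  | nil =>
    simp only [asgs, List.foldl_nil, List.mem_singleton] at h
    subst h
    simp
  | append_singleton S v ih =>
    rw [SB_asgs_concat] at h
    have h1 := List.mem_of_mem_take h
    simp only [List.mem_flatMap, List.mem_map, List.mem_range] at h1
    obtain ⟨g, hg, c, hc, rfl⟩ := h1
    obtain ⟨h2, h3⟩ := ih hg
    refine ⟨by simp [h2], ?_⟩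
    intro d hd
    rcases List.mem_cons.1 hd with h4 | h4
    · omega
    · exact h3 d h4

private lemma SB_length_asgs_le (k cap : ℕ) (S : List ℕ) :
    (asgs k cap S).length ≤ (2 * k + 2) ^ S.length := by
  induction S using List.reverseRecOn with
  | nil => simp [asgs]
  | append_singleton S v ih =>
    rw [SB_asgs_concat, List.length_take, List.length_flatMap]
    refine (min_le_right _ _).trans ?_
    simp only [List.length_map, List.length_range, List.map_const', List.sum_replicate,
      smul_eq_mul, List.length_append, List.length_cons, List.length_nil, zero_add, pow_succ]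
    exact Nat.mul_le_mul_right _ ih

lemma asgs_complete {k cap : ℕ} {S f : List ℕ} (hcap : (2 * k + 2) ^ S.length ≤ cap)
    (hl : f.length = S.length) (hf : ∀ c ∈ f, c ≤ 2 * k + 1) : f ∈ asgs k cap S := by
  induction S using List.reverseRecOn generalizing f with
  | nil =>
    simp only [List.length_nil, List.length_eq_zero_iff] at hl
    subst hl
    simp [asgs]
  | append_singleton S v ih =>
    rw [SB_asgs_concat]
    have hlen : ((asgs k cap S).flatMap fun f =>
        (List.range (2 * k + 2)).map fun c => c :: f).length ≤ cap := by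
      rw [List.length_flatMap]
      simp only [List.length_map, List.length_range, List.map_const', List.sum_replicate,
        smul_eq_mul]
      refine le_trans ?_ hcap
      rw [List.length_append, List.length_cons, List.length_nil, zero_add, pow_succ]
      exact Nat.mul_le_mul_right _ (SB_length_asgs_le k cap S)
    rw [List.take_of_length_le hlen]
    cases f with
    | nil => simp at hl
    | cons c f =>
      simp only [List.mem_flatMap, List.mem_map, List.mem_range]
      refine ⟨f, ih ?_ ?_ ?_, c, ?_, rfl⟩
      · refine le_trans (Nat.pow_le_pow_right (by omega) ?_) hcap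
        simp
      · simpa using hl
      · exact fun d hd => hf d (List.mem_cons_of_mem _ hd)
      · have := hf c List.mem_cons_self
        omega

lemma asgVal_map {vs : List ℕ} (a : ℕ → ℕ) {v : ℕ} (hv : v ∈ vs) : asgVal vs (vs.map a) v = a v := by
  unfold asgVal
  induction vs with
  | nil => exact absurd hv List.not_mem_nil
  | cons u vs ih =>
    rw [List.map_cons, List.zip_cons_cons, List.lookup_cons]
    by_cases h : v = u
    · subst h
      simp
    · have h1 : (v == u) = false := by simpa using h
      rw [h1]
      rcases List.mem_cons.1 hv with h2 | h2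
      · exact absurd h2 h
      · exact ih h2

/-- Every list of values is the restriction of a function. -/
lemma exists_map_eq {vs f : List ℕ} (hvs : vs.Nodup) (hl : f.length = vs.length) (a : ℕ → ℕ) :
    ∃ b : ℕ → ℕ, vs.map b = f ∧ ∀ v, v ∉ vs → b v = a v := by
  induction vs generalizing f with
  | nil =>
    simp only [List.length_nil, List.length_eq_zero_iff] at hl
    subst hl
    exact ⟨a, rfl, fun _ _ => rfl⟩
  | cons u vs ih =>
    cases f with
    | nil => simp at hl
    | cons c f =>
      obtain ⟨hu, hn⟩ := List.nodup_cons.1 hvs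
      obtain ⟨b, hb, hb'⟩ := ih (f := f) hn (by simpa using hl)
      refine ⟨Function.update b u c, ?_, ?_⟩
      · rw [List.map_cons, Function.update_self]
        congr 1
        rw [← hb]
        apply List.map_congr_left
        intro v hv
        rw [Function.update_of_ne]
        rintro rfl
        exact hu hv
      · intro v hv
        have h1 : v ≠ u := fun h => hv (h ▸ List.mem_cons_self)
        rw [Function.update_of_ne h1]
        exact hb' v (fun h => hv (List.mem_cons_of_mem _ h))

lemma disj_iff {w1 w2 : List ℕ} (hl : w1.length = w2.length) :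
    disj w1 w2 = true ↔ ∀ t, w1.getD t 0 = 0 ∨ w2.getD t 0 = 0 := by
  induction w1 generalizing w2 with
  | nil =>
    cases w2 with
    | nil => simp [disj]
    | cons b w2 => simp at hl
  | cons a w1 ih =>
    cases w2 with
    | nil => simp at hl
    | cons b w2 =>
      have ih' := ih (w2 := w2) (by simpa using hl)
      have h1 : disj (a :: w1) (b :: w2) = ((decide (a = 0) || decide (b = 0)) && disj w1 w2) := by
        simp [disj]
      rw [h1, Bool.and_eq_true, ih', Bool.or_eq_true, decide_eq_true_eq, decide_eq_true_eq]
      constructor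
      · rintro ⟨h2, h3⟩ t
        cases t with
        | zero => simpa using h2
        | succ t => simpa using h3 t
      · intro h2
        exact ⟨by simpa using h2 0, fun t => by simpa using h2 (t + 1)⟩

lemma length_mergeW (w1 w2 : List ℕ) : (mergeW w1 w2).length = min w1.length w2.length := by
  unfold mergeW
  rw [List.length_zipWith]

lemma getD_mergeW {w1 w2 : List ℕ} (hl : w1.length = w2.length) (t : ℕ) :
    (mergeW w1 w2).getD t 0 = max (w1.getD t 0) (w2.getD t 0) := by
  unfold mergeW
  induction w1 generalizing w2 t with
  | nil =>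
    cases w2 with
    | nil => simp
    | cons b w2 => simp at hl
  | cons a w1 ih =>
    cases w2 with
    | nil => simp at hl
    | cons b w2 =>
      cases t with
      | zero => simp
      | succ t => simpa using ih (w2 := w2) (by simpa using hl) t

lemma length_unitW (k z c : ℕ) : (unitW k z c).length = k + 1 := by
  simp [unitW]

lemma getD_unitW (k z c t : ℕ) :
    (unitW k z c).getD t 0 = if t = c ∧ 1 ≤ t ∧ t ≤ k then z + 1 else 0 := by
  unfold unitW
  rw [List.getD_eq_getElem?_getD, List.getElem?_map]
  by_cases h : t < k + 1
  · rw [List.getElem?_range h]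
    simp only [Option.map_some, Option.getD_some]
    congr 1
    rw [eq_iff_iff]
    constructor
    · rintro ⟨h1, h2⟩
      exact ⟨h1, h2, by omega⟩
    · rintro ⟨h1, h2, _⟩
      exact ⟨h1, h2⟩
  · rw [List.getElem?_eq_none (by simpa using h)]
    rw [if_neg (by rintro ⟨_, _, h3⟩; omega)]
    rfl

private def SB_f (o : Option Row) (r : Row) : Option Row := match o with
    | none => some r
    | some q => if q.2.1 < r.2.1 then some r else some q

private lemma SB_best_some (l : List Row) (q : Row) :
    ∃ p, l.foldl SB_f (some q) = some p ∧ (p = q ∨ p ∈ l) ∧ q.2.1 ≤ p.2.1 ∧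
      ∀ r ∈ l, r.2.1 ≤ p.2.1 := by
  induction l generalizing q with
  | nil => exact ⟨q, rfl, Or.inl rfl, le_rfl, fun r hr => absurd hr List.not_mem_nil⟩
  | cons a l ih =>
    rw [List.foldl_cons]
    by_cases h : q.2.1 < a.2.1
    · have h1 : SB_f (some q) a = some a := by simp [SB_f, h]
      rw [h1]
      obtain ⟨p, hp, hp1, hp2, hp3⟩ := ih a
      refine ⟨p, hp, Or.inr ?_, by omega, ?_⟩
      · rcases hp1 with h2 | h2
        · exact h2 ▸ List.mem_cons_self
        · exact List.mem_cons_of_mem _ h2
      · intro r hr
        rcases List.mem_cons.1 hr with h2 | h2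
        · subst h2; exact hp2
        · exact hp3 r h2
    · have h1 : SB_f (some q) a = some q := by simp [SB_f, h]
      rw [h1]
      obtain ⟨p, hp, hp1, hp2, hp3⟩ := ih q
      refine ⟨p, hp, ?_, hp2, ?_⟩
      · rcases hp1 with h2 | h2
        · exact Or.inl h2
        · exact Or.inr (List.mem_cons_of_mem _ h2)
      · intro r hr
        rcases List.mem_cons.1 hr with h2 | h2
        · subst h2; omega
        · exact hp3 r h2

private lemma SB_bestRow_eq (l : List Row) : bestRow l = l.foldl SB_f none := rfl

private lemma SB_bestRow_cons (a : Row) (l : List Row) :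
    ∃ p, bestRow (a :: l) = some p ∧ (p = a ∨ p ∈ l) ∧ a.2.1 ≤ p.2.1 ∧
      ∀ r ∈ l, r.2.1 ≤ p.2.1 := by
  rw [SB_bestRow_eq, List.foldl_cons]
  exact SB_best_some l a

lemma bestRow_none {l : List Row} : bestRow l = none ↔ l = [] := by
  cases l with
  | nil => simp [bestRow]
  | cons a l =>
    obtain ⟨p, hp, _⟩ := SB_bestRow_cons a l
    simp [hp]

lemma bestRow_mem {l : List Row} {r : Row} (h : bestRow l = some r) : r ∈ l := by
  cases l with
  | nil => simp [bestRow] at h
  | cons a l =>
    obtain ⟨p, hp, hp1, _⟩ := SB_bestRow_cons a l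
    rw [hp] at h
    obtain rfl := Option.some.inj h
    rcases hp1 with h2 | h2
    · exact h2 ▸ List.mem_cons_self
    · exact List.mem_cons_of_mem _ h2

lemma le_bestRow {l : List Row} {r q : Row} (h : bestRow l = some r) (hq : q ∈ l) :
    q.2.1 ≤ r.2.1 := by
  cases l with
  | nil => exact absurd hq List.not_mem_nil
  | cons a l =>
    obtain ⟨p, hp, _, hp2, hp3⟩ := SB_bestRow_cons a l
    rw [hp] at h
    obtain rfl := Option.some.inj h
    rcases List.mem_cons.1 hq with h2 | h2
    · subst h2; exact hp2
    · exact hp3 q h2

/-- The rows of a join. -/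
lemma mem_joinTab {N cap : ℕ} {vs cs : List ℕ} {acc : List Row} {T : Tab} {r : Row}
    (h : r ∈ joinTab N cap vs cs acc T) : ∃ p ∈ acc, ∃ q ∈ T.2, q.1 = T.1.map (asgVal vs cs) ∧
      disj p.2.2 q.2.2 = true ∧ r = (p.1, (min N (p.2.1 + q.2.1), mergeW p.2.2 q.2.2)) := by
  unfold joinTab at h
  have h1 := mem_of_mem_reduceRows h
  simp only [List.mem_flatMap, List.mem_map, List.mem_filter, Bool.and_eq_true,
    decide_eq_true_eq] at h1
  obtain ⟨p, hp, q, ⟨hq, hq1, hq2⟩, hr⟩ := h1
  exact ⟨p, hp, q, hq, hq1, hq2, hr.symm⟩

end Pool.Agent.PFire
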