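import Pool.Agent.Lib.PFire.SpecRad

/-!
# Chunk SF: forced components of a rotation system given by lists

The relation `frcE` is symmetric, so `u ∈ reach (frcE rot s k i) v` is an equivalence relation on the component
and `rep` picks the first vertex of the class.  Two adjacent vertices are on a common face, so their
radial distances are equal or differ by `2`; if both are forced they are equal (`flB_gap`).
-/

set_option autoImplicit false

namespace Pool.Agent.PFire

open Pool.Agent.PolyTime

variable {rot : Rot} {s : ℕ}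

/-! ### Chunk SF -/

private lemma SF_flB_iff {k i x : ℕ} :
    flB k i x = true ↔ 2 * (k + 1) ≤ x ∧ x % 2 = 0 ∧ x / 2 % (k + 2) = i := by
  simp [flB, Bool.and_eq_true, and_assoc]

lemma flB_even {k i x : ℕ} (hx : flB k i x = true) : x % 2 = 0 :=
  (SF_flB_iff.1 hx).2.1

lemma flB_zero {k i : ℕ} : flB k i 0 ≠ true := by
  intro h
  have := (SF_flB_iff.1 h).1
  omega

private lemma SF_mod_succ {m n : ℕ} (hn : 2 ≤ n) : (m + 1) % n ≠ m % n := by
  intro h
  have h1 : (m + 1) ≡ (m + 0) [MOD n] := by
    rw [Nat.ModEq, Nat.add_zero]; exact h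
  have h2 : 1 ≡ 0 [MOD n] := Nat.ModEq.add_left_cancel' m h1
  rw [Nat.ModEq, Nat.zero_mod, Nat.mod_eq_of_lt (by omega)] at h2
  omega

lemma flB_gap {k i x : ℕ} (hx : flB k i x = true) : flB k i (x + 2) ≠ true := by
  intro h
  have h1 := SF_flB_iff.1 hx
  have h2 := SF_flB_iff.1 h
  have h3 : (x + 2) / 2 = x / 2 + 1 := by omega
  rw [h3] at h2
  exact SF_mod_succ (m := x / 2) (n := k + 2) (by omega) (h2.2.2.trans h1.2.2.symm)

/-- There is a forced level in every interval of length `4 k + 4`. -/
lemma flB_dense {k i : ℕ} (hi : i < k + 2) (y : ℕ) :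
    ∃ x, flB k i x = true ∧ y < x ∧ x ≤ y + 2 * (2 * k + 2) := by
  -- a number `m + j`, `j ≤ k + 1`, with residue `i`
  have key : ∀ m : ℕ, ∃ j, j ≤ k + 1 ∧ (m + j) % (k + 2) = i := by
    intro m
    have hm := Nat.mod_lt m (show 0 < k + 2 by omega)
    by_cases hle : m % (k + 2) ≤ i
    · refine ⟨i - m % (k + 2), by omega, ?_⟩
      have h1 : m + (i - m % (k + 2)) = i + (k + 2) * (m / (k + 2)) := by
        have := Nat.mod_add_div m (k + 2)
        omega
      rw [h1, Nat.add_mul_mod_self_left, Nat.mod_eq_of_lt hi]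
    · refine ⟨i + (k + 2) - m % (k + 2), by omega, ?_⟩
      have h1 : m + (i + (k + 2) - m % (k + 2)) = i + (k + 2) * (m / (k + 2) + 1) := by
        have := Nat.mod_add_div m (k + 2)
        rw [Nat.mul_add, Nat.mul_one]
        omega
      rw [h1, Nat.add_mul_mod_self_left, Nat.mod_eq_of_lt hi]
  obtain ⟨j, hj, hjm⟩ := key (max (y / 2 + 1) (k + 1))
  refine ⟨2 * (max (y / 2 + 1) (k + 1) + j), SF_flB_iff.2 ⟨?_, ?_, ?_⟩, ?_, ?_⟩
  · omega
  · omega
  · rw [Nat.mul_div_cancel_left _ (by norm_num)]
    exact hjm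
  · omega
  · omega

lemma mem_frcE {k i : ℕ} {d : Nd} : d ∈ frcE rot s k i ↔
    d ∈ darts rot s ∧ forced rot s k i d.1 = true ∧ forced rot s k i d.2 = true := by
  simp [frcE, List.mem_filter, Bool.and_eq_true]

private lemma SF_frcE_symm {k i : ℕ} (h : RotValid rot s) {d : Nd} (hd : d ∈ frcE rot s k i) :
    (d.2, d.1) ∈ frcE rot s k i := by
  rw [mem_frcE] at hd ⊢
  exact ⟨al_mem h hd.1, hd.2.2, hd.2.1⟩

private lemma SF_reach_symm {k i : ℕ} (h : RotValid rot s) {u v : ℕ}
    (hu : u ∈ reach (frcE rot s k i) v) : v ∈ reach (frcE rot s k i) u := by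
  rw [mem_reach] at hu ⊢
  induction hu with
  | refl => exact Relation.ReflTransGen.refl
  | tail _ hbc ih => exact Relation.ReflTransGen.head (SF_frcE_symm h hbc) ih

private lemma SF_reach_self {k i : ℕ} (v : ℕ) : v ∈ reach (frcE rot s k i) v :=
  mem_reach.2 Relation.ReflTransGen.refl

private lemma SF_reach_trans {k i : ℕ} {u v w : ℕ}
    (h1 : v ∈ reach (frcE rot s k i) u) (h2 : w ∈ reach (frcE rot s k i) v) :
    w ∈ reach (frcE rot s k i) u :=
  mem_reach.2 ((mem_reach.1 h1).trans (mem_reach.1 h2))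

private lemma SF_find {k i v x : ℕ} (hx : x ∈ comp rot s) (hr : x ∈ reach (frcE rot s k i) v) :
    ∃ w, (comp rot s).find? (fun u => decide (u ∈ reach (frcE rot s k i) v)) = some w ∧
      w ∈ comp rot s ∧ w ∈ reach (frcE rot s k i) v := by
  rcases hf : (comp rot s).find? (fun u => decide (u ∈ reach (frcE rot s k i) v)) with _ | w
  · rw [List.find?_eq_none] at hf
    exact absurd hr (by simpa using hf x hx)
  · refine ⟨w, rfl, List.mem_of_find?_eq_some hf, ?_⟩
    have := List.find?_some hf
    simpa using this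

lemma rep_mem {k i v : ℕ} (h : RotValid rot s) (hv : v ∈ comp rot s) :
    rep rot s k i v ∈ comp rot s := by
  obtain ⟨w, h1, h2, _⟩ := SF_find (k := k) (i := i) hv (SF_reach_self v)
  rw [rep, h1]
  exact h2

/-- `rep` is constant on components, and characterises them. -/
lemma rep_reach {k i v : ℕ} (h : RotValid rot s) (hv : v ∈ comp rot s) :
    rep rot s k i v ∈ reach (frcE rot s k i) v := by
  obtain ⟨w, h1, _, h3⟩ := SF_find (k := k) (i := i) hv (SF_reach_self v)
  rw [rep, h1]
  exact h3

lemma rep_eq_of_reach {k i u v : ℕ} (h : RotValid rot s) (hv : v ∈ comp rot s)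
    (hu : u ∈ reach (frcE rot s k i) v) : rep rot s k i u = rep rot s k i v := by
  have hpred : (fun x => decide (x ∈ reach (frcE rot s k i) u)) =
      (fun x => decide (x ∈ reach (frcE rot s k i) v)) := by
    funext x
    rw [decide_eq_decide]
    exact ⟨fun hx => SF_reach_trans hu hx, fun hx => SF_reach_trans (SF_reach_symm h hu) hx⟩
  obtain ⟨w, h1, _, _⟩ := SF_find (k := k) (i := i) hv (SF_reach_self v)
  rw [rep, rep, hpred, h1]
  rfl

lemma rep_unforced {k i v : ℕ} (h : RotValid rot s) (hv : v ∈ comp rot s)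
    (hf : forced rot s k i v ≠ true) : rep rot s k i v = v := by
  have h1 := mem_reach.1 (rep_reach (k := k) (i := i) h hv)
  rcases Relation.ReflTransGen.cases_head h1 with h2 | ⟨c, h2, _⟩
  · exact h2.symm
  · exact absurd (mem_frcE.1 h2).2.1 hf

private lemma SF_rd_edge {k i : ℕ} (h : RotValid rot s) (hne : darts rot s ≠ []) {d : Nd}
    (hd : d ∈ frcE rot s k i) : rd rot s (d.1, d.1) = rd rot s (d.2, d.2) := by
  obtain ⟨h1, h2, h3⟩ := mem_frcE.1 hd
  have h4 := rd_corner h hne h1
  have h5 := rd_corner h hne (phi_mem h h1)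
  rw [faceOf_phi h h1] at h5
  have h6 : (phi rot d).1 = d.2 := rfl
  rw [h6] at h5
  unfold forced at h2 h3
  by_contra hcon
  have h7 : rd rot s (d.1, d.1) = rd rot s (d.2, d.2) + 2 ∨
      rd rot s (d.2, d.2) = rd rot s (d.1, d.1) + 2 := by omega
  rcases h7 with h7 | h7
  · rw [h7] at h2
    exact flB_gap h3 h2
  · rw [h7] at h3
    exact flB_gap h2 h3

lemma rd_rep {k i v : ℕ} (h : RotValid rot s) (hne : darts rot s ≠ []) (hv : v ∈ comp rot s) :
    rd rot s (rep rot s k i v, rep rot s k i v) = rd rot s (v, v) := by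
  have h1 := mem_reach.1 (rep_reach (k := k) (i := i) h hv)
  have key : ∀ w, Relation.ReflTransGen (fun a b => (a, b) ∈ frcE rot s k i) v w →
      rd rot s (w, w) = rd rot s (v, v) := by
    intro w hw
    induction hw with
    | refl => rfl
    | tail _ hbc ih => rw [← ih]; exact (SF_rd_edge h hne hbc).symm
  exact key _ h1

lemma pe_spec {k i v : ℕ} (h : RotValid rot s) (hv : v ∈ comp rot s)
    (hr : rep rot s k i v ≠ v) : pe rot s k i v ∈ frcE rot s k i ∧ (pe rot s k i v).1 = v ∧
      idist rot s k i (pe rot s k i v).2 < idist rot s k i v := by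
  have h1 : v ∈ reach (frcE rot s k i) (rep rot s k i v) := SF_reach_symm h (rep_reach h hv)
  obtain ⟨y, hy1, hy2, hy3⟩ := dist_pred h1 (Ne.symm hr)
  have hy4 := SF_frcE_symm h hy2
  have hyv : y ∈ reach (frcE rot s k i) v := mem_reach.2 (Relation.ReflTransGen.single hy4)
  have hrep := rep_eq_of_reach h hv hyv
  have hid : idist rot s k i y + 1 = idist rot s k i v := by
    rw [idist, idist, hrep]
    exact hy3
  have hex : (decide ((v, y).1 = v) && decide (idist rot s k i (v, y).2 + 1 = idist rot s k i v))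
      = true := by
    rw [hid]
    simp
  rcases hf : (frcE rot s k i).find? (fun c =>
    decide (c.1 = v) && decide (idist rot s k i c.2 + 1 = idist rot s k i v)) with _ | c
  · rw [List.find?_eq_none] at hf
    exact absurd hex (hf _ hy4)
  · have hc1 := List.mem_of_find?_eq_some hf
    have hc2 := List.find?_some hf
    rw [Bool.and_eq_true, decide_eq_true_eq, decide_eq_true_eq] at hc2
    have hpe : pe rot s k i v = c := by
      rw [pe, hf]
      rfl
    rw [hpe]
    exact ⟨hc1, hc2.1, by omega⟩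

/-- The forced structure of the class `i`. -/
noncomputable def rawFrc (h : RotValid rot s) (hne : darts rot s ≠ []) (k i : ℕ) :
    Frc (rawMap h hne) (rawRad h hne) where
  fl := fun x => flB k i x = true
  rep := fun v => ⟨rep rot s k i v.1, rep_mem h v.2⟩
  pe := fun v => toD hne (pe rot s k i v.1)
  idist := fun v => idist rot s k i v.1
  fl_even := fun _ hx => flB_even hx
  fl_zero := flB_zero
  fl_gap := fun _ hx => flB_gap hx
  rep_unf := fun v hv => Subtype.ext (rep_unforced h v.2 hv)
  rep_rep := fun v => Subtype.ext (rep_eq_of_reach h v.2 (rep_reach h v.2))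
  rep_rv := fun v => rd_rep h hne v.2
  rep_adj := by
    intro d h1 h2
    apply Subtype.ext
    have h3 : d.1 ∈ frcE rot s k i := mem_frcE.2 ⟨d.2, h1, h2⟩
    have h4 : d.1.2 ∈ reach (frcE rot s k i) d.1.1 :=
      mem_reach.2 (Relation.ReflTransGen.single h3)
    exact (rep_eq_of_reach h (fst_mem h d.2) h4).symm
  pe_tail := by
    intro v hv
    have hv' : rep rot s k i v.1 ≠ v.1 := fun h' => hv (Subtype.ext h')
    obtain ⟨h1, h2, _⟩ := pe_spec h v.2 hv'
    apply Subtype.ext
    rw [rawMap_tail, toD_val hne (mem_frcE.1 h1).1]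
    exact h2
  pe_fl := by
    intro v hv
    have hv' : rep rot s k i v.1 ≠ v.1 := fun h' => hv (Subtype.ext h')
    obtain ⟨h1, h2, _⟩ := pe_spec h v.2 hv'
    have h3 := (mem_frcE.1 h1).2.2
    change flB k i (rd rot s ((toD hne (pe rot s k i v.1)).1.2,
      (toD hne (pe rot s k i v.1)).1.2)) = true
    rw [toD_val hne (mem_frcE.1 h1).1]
    exact h3
  pe_dist := by
    intro v hv
    have hv' : rep rot s k i v.1 ≠ v.1 := fun h' => hv (Subtype.ext h')
    obtain ⟨h1, h2, h3⟩ := pe_spec h v.2 hv'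
    change idist rot s k i (toD hne (pe rot s k i v.1)).1.2 < idist rot s k i v.1
    rw [toD_val hne (mem_frcE.1 h1).1]
    exact h3

end Pool.Agent.PFire
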