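import Pool.Agent.Lib.PFire.RawFacts
import Pool.Agent.Lib.PFire.Map

/-!
# Chunk SM: the combinatorial map of a rotation system given by lists

`DD`, `VV`, `FF`: darts, vertices, faces of the component of `s`.
-/

set_option autoImplicit false

namespace Pool.Agent.PFire

open Pool.Agent.PolyTime

/-! ### The map -/

/-- darts of the component of `s` -/
abbrev DD (rot : Rot) (s : ℕ) : Type := {d : Nd // d ∈ darts rot s}
/-- vertices of the component of `s` -/
abbrev VV (rot : Rot) (s : ℕ) : Type := {v : ℕ // v ∈ comp rot s}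
/-- faces of the component of `s` -/
abbrev FF (rot : Rot) (s : ℕ) : Type := {g : Nd // g ∈ faces rot s}

variable {rot : Rot} {s : ℕ}

lemma phi_bijective (h : RotValid rot s) :
    Function.Bijective (fun d : DD rot s => (⟨phi rot d.1, phi_mem h d.2⟩ : DD rot s)) :=
  Finite.injective_iff_bijective.1 fun a b hab =>
    Subtype.ext (phi_inj h a.2 b.2 (congrArg Subtype.val hab))

/-- the permutation `phi` of the darts -/
noncomputable def phiP (h : RotValid rot s) : Equiv.Perm (DD rot s) :=
  Equiv.ofBijective _ (phi_bijective h)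

@[simp] lemma phiP_val (h : RotValid rot s) (d : DD rot s) : (phiP h d).1 = phi rot d.1 := rfl

lemma sm_exists_dart (h : RotValid rot s) (hne : darts rot s ≠ []) {v : ℕ}
    (hv : v ∈ comp rot s) : ∃ d ∈ darts rot s, d.1 = v := by
  have h1 := (mem_comp h).1 hv
  rcases Relation.ReflTransGen.cases_tail h1 with h2 | ⟨w, hw, h2⟩
  · subst h2
    obtain ⟨d, hd⟩ := List.exists_mem_of_ne_nil _ hne
    have h3 := (mem_comp h).1 (fst_mem h hd)
    rcases Relation.ReflTransGen.cases_head h3 with h4 | ⟨w, hw, _⟩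
    · exact ⟨d, hd, h4.symm⟩
    · exact ⟨(v, w), (mem_darts h).2 ⟨hv, hw⟩, rfl⟩
  · exact ⟨(v, w), (mem_darts h).2 ⟨hv, h.symm _ _ h2⟩, rfl⟩

lemma sm_sg_iter (h : RotValid rot s) {d : Nd} (hd : d ∈ darts rot s) (n : ℕ) :
    (fun x => phi rot (al x))^[n] d = (d.1, (nextIn (nbrs rot d.1))^[n] d.2) := by
  induction n with
  | zero => rfl
  | succ n ih =>
    rw [Function.iterate_succ_apply', ih, Function.iterate_succ_apply']
    rfl

/-- The combinatorial map of the component of `s`. -/
noncomputable def rawMap (h : RotValid rot s) (hne : darts rot s ≠ []) :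
    PMap (DD rot s) (VV rot s) (FF rot s) where
  al := fun d => ⟨al d.1, al_mem h d.2⟩
  phi := phiP h
  tail := fun d => ⟨d.1.1, fst_mem h d.2⟩
  face := fun d => ⟨faceOf rot s d.1, (mem_faces h).2 ⟨d.1, d.2, rfl⟩⟩
  al_al := fun _ => rfl
  al_ne := by
    intro d hd
    have h1 : al d.1 = d.1 := congrArg Subtype.val hd
    have h2 : d.1.2 = d.1.1 := congrArg Prod.fst h1
    have h3 := ((mem_darts h).1 d.2).2
    rw [h2] at h3
    exact h.irrefl _ h3
  tail_phi := fun _ => rfl
  face_phi := fun d => Subtype.ext (faceOf_phi h d.2)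
  tail_orbit := by
    intro d d' hdd
    have h1 : d.1.1 = d'.1.1 := congrArg Subtype.val hdd
    have h2 := ((mem_darts h).1 d.2).2
    have h3 := ((mem_darts h).1 d'.2).2
    rw [← h1] at h3
    obtain ⟨n, hn⟩ := nextIn_orbit (h.nodup _) h2 h3
    refine ⟨n, Subtype.ext ?_⟩
    have hit : ∀ n (x : DD rot s), ((fun x => phiP h ⟨al x.1, al_mem h x.2⟩)^[n] x).1 =
        (fun x => phi rot (al x))^[n] x.1 := by
      intro n
      induction n with
      | zero => intro x; rfl
      | succ n ih =>
        intro x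
        rw [Function.iterate_succ_apply, Function.iterate_succ_apply, ih]
        rfl
    rw [hit, sm_sg_iter h d.2, hn, h1]
  face_orbit := by
    intro d d' hdd
    obtain ⟨n, hn⟩ := faceOf_orbit h d.2 d'.2 (congrArg Subtype.val hdd)
    refine ⟨n, Subtype.ext ?_⟩
    have hit : ∀ n (x : DD rot s), ((phiP h)^[n] x).1 = (phi rot)^[n] x.1 := by
      intro n
      induction n with
      | zero => intro x; rfl
      | succ n ih =>
        intro x
        rw [Function.iterate_succ_apply, Function.iterate_succ_apply, ih]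
        rfl
    rw [hit, hn]
  tail_surj := by
    rintro ⟨v, hv⟩
    obtain ⟨d, hd, rfl⟩ := sm_exists_dart h hne hv
    exact ⟨⟨d, hd⟩, rfl⟩
  face_surj := by
    rintro ⟨g, hg⟩
    obtain ⟨d, hd, rfl⟩ := (mem_faces h).1 hg
    exact ⟨⟨d, hd⟩, rfl⟩

@[simp] lemma rawMap_al (h : RotValid rot s) (hne : darts rot s ≠ []) (d : DD rot s) :
    ((rawMap h hne).al d).1 = al d.1 := rfl
@[simp] lemma rawMap_phi (h : RotValid rot s) (hne : darts rot s ≠ []) (d : DD rot s) :
    ((rawMap h hne).phi d).1 = phi rot d.1 := rfl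
@[simp] lemma rawMap_tail (h : RotValid rot s) (hne : darts rot s ≠ []) (d : DD rot s) :
    ((rawMap h hne).tail d).1 = d.1.1 := rfl
@[simp] lemma rawMap_head (h : RotValid rot s) (hne : darts rot s ≠ []) (d : DD rot s) :
    ((rawMap h hne).head d).1 = d.1.2 := rfl
@[simp] lemma rawMap_face (h : RotValid rot s) (hne : darts rot s ≠ []) (d : DD rot s) :
    ((rawMap h hne).face d).1 = faceOf rot s d.1 := rfl

lemma sm_card {β : Type} [DecidableEq β] (l : List β) (hl : l.Nodup) :
    Fintype.card {x : β // x ∈ l} = l.length := by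
  have h1 : Fintype.card {x : β // x ∈ l} = Fintype.card {x : β // x ∈ l.toFinset} :=
    Fintype.card_congr (Equiv.subtypeEquivRight fun x => by rw [List.mem_toFinset])
  rw [h1, Fintype.card_coe, List.toFinset_card_of_nodup hl]

lemma card_DD (h : RotValid rot s) : Fintype.card (DD rot s) = (darts rot s).length :=
  sm_card _ (darts_nodup h)

lemma card_VV : Fintype.card (VV rot s) = (comp rot s).length :=
  sm_card _ comp_nodup

lemma card_FF (h : RotValid rot s) : Fintype.card (FF rot s) = (faces rot s).length :=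
  sm_card _ (faces_nodup h)

/-- The vertices of the map are connected. -/
lemma rawMap_conn (h : RotValid rot s) (hne : darts rot s ≠ []) (v w : VV rot s) :
    Relation.ReflTransGen (rawMap h hne).Adj v w := by
  have key : ∀ u, Relation.ReflTransGen (fun a b => b ∈ nbrs rot a) s u →
      ∀ hu : u ∈ comp rot s,
        Relation.ReflTransGen (rawMap h hne).Adj ⟨s, s_mem_comp h⟩ ⟨u, hu⟩ ∧
        Relation.ReflTransGen (rawMap h hne).Adj ⟨u, hu⟩ ⟨s, s_mem_comp h⟩ := by
    intro u hu
    induction hu with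
    | refl => intro _; exact ⟨Relation.ReflTransGen.refl, Relation.ReflTransGen.refl⟩
    | @tail b c hb hbc ih =>
      intro hc
      have hb' : b ∈ comp rot s := (mem_comp h).2 hb
      have hd : ((b, c) : Nd) ∈ darts rot s := (mem_darts h).2 ⟨hb', hbc⟩
      have h1 : (rawMap h hne).Adj ⟨b, hb'⟩ ⟨c, hc⟩ := ⟨⟨_, hd⟩, rfl, rfl⟩
      have h2 : (rawMap h hne).Adj ⟨c, hc⟩ ⟨b, hb'⟩ := ⟨⟨_, al_mem h hd⟩, rfl, rfl⟩
      exact ⟨(ih hb').1.tail h1, (ih hb').2.head h2⟩
  exact (key v.1 ((mem_comp h).1 v.2) v.2).2.trans (key w.1 ((mem_comp h).1 w.2) w.2).1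

lemma rawMap_euler (h : RotValid rot s) (hne : darts rot s ≠ []) (hp : RotPlane rot s) :
    (rawMap h hne).Euler := by
  unfold PMap.Euler
  rw [card_DD h, card_VV, card_FF h]
  exact hp

end Pool.Agent.PFire
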