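import Pool.Agent.Lib.PFire.SpecMap
import Pool.Agent.Lib.PFire.Dist

/-!
# Chunk SR: radial distances of a rotation system given by lists

All nodes `(v, v)` (`v ∈ comp`) and `faceOf d` (`d ∈ darts`) are reachable from `(s, s)` along `radE`: if
`(u, v)` is a dart of face `g` then `(u, u)`, `g`, `(v, v)` are consecutive (`g = faceOf (phi (u, v))`).  The
radial graph is bipartite (`p x = decide (x.1 = x.2)`).
-/

set_option autoImplicit false

namespace Pool.Agent.PFire

open Pool.Agent.PolyTime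

variable {rot : Rot} {s : ℕ}

/-- a dart of the component, as an element of the type -/
noncomputable def toD (hne : darts rot s ≠ []) (d : Nd) : DD rot s :=
  open Classical in if hd : d ∈ darts rot s then ⟨d, hd⟩ else ⟨(darts rot s).head hne, List.head_mem hne⟩

lemma toD_val (hne : darts rot s ≠ []) {d : Nd} (hd : d ∈ darts rot s) : (toD hne d).1 = d := by
  rw [toD, dif_pos hd]

/-! ### Chunk SR -/

lemma mem_radE {e : Nd × Nd} : e ∈ radE rot s ↔
    ∃ d ∈ darts rot s, e = ((d.1, d.1), faceOf rot s d) ∨ e = (faceOf rot s d, (d.1, d.1)) := by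
  unfold radE
  rw [List.mem_flatMap]
  constructor
  · rintro ⟨d, hd, h⟩
    rw [List.mem_cons, List.mem_cons] at h
    rcases h with h | h | h
    · exact ⟨d, hd, Or.inl h⟩
    · exact ⟨d, hd, Or.inr h⟩
    · exact absurd h (by simp)
  · rintro ⟨d, hd, h | h⟩
    · exact ⟨d, hd, by rw [h]; simp⟩
    · exact ⟨d, hd, by rw [h]; simp⟩

lemma sr_ne (h : RotValid rot s) {d : Nd} (hd : d ∈ darts rot s) : d.1 ≠ d.2 := by
  intro h1
  have h2 := ((mem_darts h).1 hd).2
  rw [← h1] at h2
  exact h.irrefl _ h2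

lemma sr_face_ne (h : RotValid rot s) {d : Nd} (hd : d ∈ darts rot s) (v : ℕ) :
    faceOf rot s d ≠ (v, v) := by
  intro h1
  have h2 := sr_ne h (faceOf_mem h hd)
  rw [h1] at h2
  exact h2 rfl

lemma reach_vertex (h : RotValid rot s) (hne : darts rot s ≠ []) {v : ℕ} (hv : v ∈ comp rot s) :
    ((v, v) : Nd) ∈ reach (radE rot s) (s, s) := by
  have h1 := (mem_comp h).1 hv
  rw [mem_reach]
  clear hv
  induction h1 with
  | refl => exact Relation.ReflTransGen.refl
  | @tail b c hb hbc ih =>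
    have hb' : b ∈ comp rot s := (mem_comp h).2 hb
    have hd : ((b, c) : Nd) ∈ darts rot s := (mem_darts h).2 ⟨hb', hbc⟩
    have h2 : (((b, b) : Nd), faceOf rot s (b, c)) ∈ radE rot s :=
      mem_radE.2 ⟨_, hd, Or.inl rfl⟩
    have h3 : (faceOf rot s (b, c), ((c, c) : Nd)) ∈ radE rot s := by
      refine mem_radE.2 ⟨phi rot (b, c), phi_mem h hd, Or.inr ?_⟩
      rw [faceOf_phi h hd]
      rfl
    exact (ih.tail h2).tail h3

lemma reach_face (h : RotValid rot s) (hne : darts rot s ≠ []) {g : Nd} (hg : g ∈ faces rot s) :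
    g ∈ reach (radE rot s) (s, s) := by
  obtain ⟨d, hd, rfl⟩ := (mem_faces h).1 hg
  have h1 := reach_vertex h hne (fst_mem h hd)
  rw [mem_reach] at h1 ⊢
  exact h1.tail (mem_radE.2 ⟨d, hd, Or.inl rfl⟩)

lemma sr_parity (h : RotValid rot s) (e : Nd × Nd) (he : e ∈ radE rot s) :
    decide (e.2.1 ≠ e.2.2) = !(decide (e.1.1 ≠ e.1.2)) := by
  obtain ⟨d, hd, rfl | rfl⟩ := mem_radE.1 he
  · have := sr_ne h (faceOf_mem h hd)
    simp [this]
  · have := sr_ne h (faceOf_mem h hd)
    simp [this]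

lemma rd_s : rd rot s (s, s) = 0 := dist_self _ _

lemma rd_even (h : RotValid rot s) (hne : darts rot s ≠ []) {v : ℕ} (hv : v ∈ comp rot s) :
    rd rot s (v, v) % 2 = 0 := by
  have h1 := dist_parity (fun x : Nd => decide (x.1 ≠ x.2)) (sr_parity h)
    (reach_vertex h hne hv)
  simp only [ne_eq, not_true_eq_false, decide_false, iff_false] at h1
  unfold rd
  omega

lemma sr_face_odd (h : RotValid rot s) (hne : darts rot s ≠ []) {d : Nd} (hd : d ∈ darts rot s) :
    rd rot s (faceOf rot s d) % 2 = 1 := by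
  have h1 := dist_parity (fun x : Nd => decide (x.1 ≠ x.2)) (sr_parity h)
    (reach_face h hne ((mem_faces h).2 ⟨d, hd, rfl⟩))
  have h2 := sr_ne h (faceOf_mem h hd)
  refine h1.2 ?_
  simp [h2]

lemma rd_corner (h : RotValid rot s) (hne : darts rot s ≠ []) {d : Nd} (hd : d ∈ darts rot s) :
    rd rot s (d.1, d.1) = rd rot s (faceOf rot s d) + 1 ∨
      rd rot s (faceOf rot s d) = rd rot s (d.1, d.1) + 1 := by
  have h1 := rd_even h hne (fst_mem h hd)
  have h2 := sr_face_odd h hne hd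
  have h3 : rd rot s (faceOf rot s d) ≤ rd rot s (d.1, d.1) + 1 :=
    dist_le_succ (reach_vertex h hne (fst_mem h hd)) (mem_radE.2 ⟨d, hd, Or.inl rfl⟩)
  have h4 : rd rot s (d.1, d.1) ≤ rd rot s (faceOf rot s d) + 1 :=
    dist_le_succ (reach_face h hne ((mem_faces h).2 ⟨d, hd, rfl⟩)) (mem_radE.2 ⟨d, hd, Or.inr rfl⟩)
  omega

lemma pv_spec (h : RotValid rot s) (hne : darts rot s ≠ []) {v : ℕ} (hv : v ∈ comp rot s)
    (hvs : v ≠ s) : pv rot s v ∈ darts rot s ∧ (pv rot s v).1 = v ∧
      rd rot s (faceOf rot s (pv rot s v)) + 1 = rd rot s (v, v) := by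
  obtain ⟨y, hy, hyv, hdist⟩ := dist_pred (reach_vertex h hne hv)
    (show ((v, v) : Nd) ≠ (s, s) from fun h1 => hvs (congrArg Prod.fst h1))
  obtain ⟨d, hd, hd'⟩ : ∃ d ∈ darts rot s, y = faceOf rot s d ∧ d.1 = v := by
    obtain ⟨d, hd, h1 | h1⟩ := mem_radE.1 hyv
    · exfalso
      exact sr_face_ne h hd v (congrArg Prod.snd h1).symm
    · exact ⟨d, hd, congrArg Prod.fst h1, (congrArg (fun e => e.2.1) h1).symm⟩
  have hex : ∃ c, (darts rot s).find? (fun c =>
      decide (c.1 = v) && decide (rd rot s (faceOf rot s c) + 1 = rd rot s (v, v))) = some c := by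
    rw [← Option.isSome_iff_exists, List.find?_isSome]
    refine ⟨d, hd, ?_⟩
    rw [Bool.and_eq_true, decide_eq_true_eq, decide_eq_true_eq]
    refine ⟨hd'.2, ?_⟩
    rw [← hd'.1]
    exact hdist
  obtain ⟨c, hc⟩ := hex
  have h1 := List.find?_some hc
  rw [Bool.and_eq_true, decide_eq_true_eq, decide_eq_true_eq] at h1
  have h2 : pv rot s v = c := by
    unfold pv
    rw [hc]
    rfl
  rw [h2]
  exact ⟨List.mem_of_find?_eq_some hc, h1.1, h1.2⟩

lemma pf_spec (h : RotValid rot s) (hne : darts rot s ≠ []) {g : Nd} (hg : g ∈ faces rot s) :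
    pf rot s g ∈ darts rot s ∧ faceOf rot s (pf rot s g) = g ∧
      rd rot s ((pf rot s g).1, (pf rot s g).1) + 1 = rd rot s g := by
  have hgs : g ≠ (s, s) := by
    obtain ⟨d, hd, rfl⟩ := (mem_faces h).1 hg
    exact sr_face_ne h hd s
  obtain ⟨y, hy, hyg, hdist⟩ := dist_pred (reach_face h hne hg) hgs
  obtain ⟨d, hd, hd'⟩ : ∃ d ∈ darts rot s, y = (d.1, d.1) ∧ faceOf rot s d = g := by
    obtain ⟨d, hd, h1 | h1⟩ := mem_radE.1 hyg
    · exact ⟨d, hd, congrArg Prod.fst h1, (congrArg Prod.snd h1).symm⟩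
    · exfalso
      obtain ⟨d', hd', rfl⟩ := (mem_faces h).1 hg
      exact sr_face_ne h hd' d.1 (congrArg Prod.snd h1)
  have hex : ∃ c, (darts rot s).find? (fun c =>
      decide (faceOf rot s c = g) && decide (rd rot s (c.1, c.1) + 1 = rd rot s g)) = some c := by
    rw [← Option.isSome_iff_exists, List.find?_isSome]
    refine ⟨d, hd, ?_⟩
    rw [Bool.and_eq_true, decide_eq_true_eq, decide_eq_true_eq]
    refine ⟨hd'.2, ?_⟩
    rw [← hd'.1]
    exact hdist
  obtain ⟨c, hc⟩ := hex
  have h1 := List.find?_some hc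
  rw [Bool.and_eq_true, decide_eq_true_eq, decide_eq_true_eq] at h1
  have h2 : pf rot s g = c := by
    unfold pf
    rw [hc]
    rfl
  rw [h2]
  exact ⟨List.mem_of_find?_eq_some hc, h1.1, h1.2⟩

/-- The radial distances of the map of the component of `s`. -/
noncomputable def rawRad (h : RotValid rot s) (hne : darts rot s ≠ []) :
    Rad (rawMap h hne) ⟨s, s_mem_comp h⟩ where
  rv := fun v => rd rot s (v.1, v.1)
  rf := fun g => rd rot s g.1
  pv := fun v => toD hne (pv rot s v.1)
  pf := fun g => toD hne (pf rot s g.1)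
  rv_s := rd_s
  even := fun v => rd_even h hne v.2
  corner := fun d => rd_corner h hne d.2
  pv_tail := by
    intro v hv
    have h1 := pv_spec h hne v.2 (fun h2 => hv (Subtype.ext h2))
    apply Subtype.ext
    rw [rawMap_tail, toD_val hne h1.1]
    exact h1.2.1
  pv_face := by
    intro v hv
    have h1 := pv_spec h hne v.2 (fun h2 => hv (Subtype.ext h2))
    rw [rawMap_face, toD_val hne h1.1]
    exact h1.2.2
  pf_face := by
    intro g
    have h1 := pf_spec h hne g.2
    apply Subtype.ext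
    rw [rawMap_face, toD_val hne h1.1]
    exact h1.2.1
  pf_tail := by
    intro g
    have h1 := pf_spec h hne g.2
    rw [rawMap_tail, toD_val hne h1.1]
    exact h1.2.2

end Pool.Agent.PFire
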