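import Pool.Agent.Lib.PFire.TopoBase

/-!
# Chunk TG: covering and size of the bags

`cover`: `rep (tail d)` has the level of `tail d`, which differs by one from the level of the face of
`d`; and `tail d` is a descendant of `rep (tail d)`.  For the head use `tail (phi d) = head d`.

`card_bag`: let `g = face t`.  If `z` is in the bag, let `x` be the next forced level after `rv z`; the slab
condition gives `rf g ≤ x ≤ rv z + 2 L`.  Also `z` is an ancestor of a corner node `c` of `t` and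
`lvl c ≤ rf g + 1`.  For each of the three corner nodes, `rv` is injective on these `z`
(`Frc.Desc.unique`), with even values in `[rf g - 2 L, rf g + 1]` where `rf g` is odd: at most `L + 1`.
-/

set_option autoImplicit false

namespace Pool.Agent.PFire

open Relation

variable {D V F : Type} {M : PMap D V F} {s : V} {R : Rad M s} (K : Frc M R)

private lemma TG_head (R : Rad M s) (d : D) :
    R.rv (M.head d) = R.rf (M.face d) + 1 ∨ R.rf (M.face d) = R.rv (M.head d) + 1 := by
  have h1 := R.corner (M.phi d)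
  rw [M.tail_phi, M.face_phi, M.tail_al] at h1
  exact h1

theorem cover (d : D) : K.Bag (K.rep (M.tail d)) d ∧ K.Bag (K.rep (M.head d)) d := by
  refine ⟨⟨K.rep_rep _, ?_, Sum.inl (M.tail d), Or.inl rfl, K.desc_rep _⟩,
    ⟨K.rep_rep _, ?_, Sum.inl (M.head d), Or.inr (Or.inl rfl), K.desc_rep _⟩⟩
  · intro x _ hx
    have h1 : R.rv (K.rep (M.tail d)) < x := hx
    rw [K.rep_rv] at h1
    have h2 := R.corner d
    omega
  · intro x _ hx
    have h1 : R.rv (K.rep (M.head d)) < x := hx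
    rw [K.rep_rv] at h1
    have h2 := TG_head R d
    omega

private lemma TG_lvl (t : D) (c : V ⊕ F) (hc : M.IsCorner t c) : R.lvl c ≤ R.rf (M.face t) + 1 := by
  rcases hc with rfl | rfl | rfl
  · have h1 := R.corner t
    show R.rv (M.tail t) ≤ _
    omega
  · have h1 := TG_head R t
    show R.rv (M.head t) ≤ _
    omega
  · show R.rf (M.face t) ≤ _
    omega

private lemma TG_one (L : ℕ) (hL : ∀ y, ∃ x, K.fl x ∧ y < x ∧ x ≤ y + 2 * L) (t : D) (c : V ⊕ F)
    (hc : M.IsCorner t c) :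
    {z | K.Bag z t ∧ K.Desc (Sum.inl z) c}.ncard ≤ L + 1 := by
  obtain ⟨j, hj⟩ : ∃ j, R.rf (M.face t) = 2 * j + 1 := by
    have h1 := R.corner t
    have h2 := R.even (M.tail t)
    exact ⟨R.rf (M.face t) / 2, by omega⟩
  have h1 : (↑(Finset.Icc (j + 1 - L) (j + 1)) : Set ℕ).ncard ≤ L + 1 := by
    rw [Set.ncard_coe_finset, Nat.card_Icc]
    omega
  refine le_trans (Set.ncard_le_ncard_of_injOn (fun z => R.rv z / 2) ?_ ?_ (Finset.finite_toSet _)) h1
  · intro z hz
    obtain ⟨x, hx1, hx2, hx3⟩ := hL (R.rv z)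
    have h2 : ¬ x < R.rf (M.face t) := hz.1.2.1 x hx1 hx2
    have h3 := hz.2.lvl_le
    have h4 := TG_lvl (R := R) t c hc
    have h5 : R.lvl (Sum.inl z) = R.rv z := rfl
    have h6 := R.even z
    rw [Finset.mem_coe, Finset.mem_Icc]
    constructor <;> omega
  · intro z hz z' hz' h
    have h6 := R.even z
    have h7 := R.even z'
    have h8 : R.rv z / 2 = R.rv z' / 2 := h
    exact Frc.Desc.unique K hz.2 hz'.2 hz.1.1 hz'.1.1 (by omega)

theorem card_bag [Finite D] (L : ℕ) (hL : ∀ y, ∃ x, K.fl x ∧ y < x ∧ x ≤ y + 2 * L) (t : D) :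
    {z | K.Bag z t}.ncard ≤ 3 * (L + 1) := by
  haveI : Finite V := Finite.of_surjective M.tail M.tail_surj
  have h1 : {z | K.Bag z t} ⊆ ({z | K.Bag z t ∧ K.Desc (Sum.inl z) (Sum.inl (M.tail t))} ∪
      {z | K.Bag z t ∧ K.Desc (Sum.inl z) (Sum.inl (M.head t))}) ∪
      {z | K.Bag z t ∧ K.Desc (Sum.inl z) (Sum.inr (M.face t))} := by
    intro z hz
    obtain ⟨c, hc, hd⟩ := hz.2.2
    rcases hc with rfl | rfl | rfl
    · exact Or.inl (Or.inl ⟨hz, hd⟩)
    · exact Or.inl (Or.inr ⟨hz, hd⟩)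
    · exact Or.inr ⟨hz, hd⟩
  have h2 := Set.ncard_le_ncard h1 (Set.toFinite _)
  have h3 := Set.ncard_union_le ({z | K.Bag z t ∧ K.Desc (Sum.inl z) (Sum.inl (M.tail t))} ∪
      {z | K.Bag z t ∧ K.Desc (Sum.inl z) (Sum.inl (M.head t))})
      {z | K.Bag z t ∧ K.Desc (Sum.inl z) (Sum.inr (M.face t))}
  have h4 := Set.ncard_union_le {z | K.Bag z t ∧ K.Desc (Sum.inl z) (Sum.inl (M.tail t))}
      {z | K.Bag z t ∧ K.Desc (Sum.inl z) (Sum.inl (M.head t))}
  have h5 := TG_one K L hL t (Sum.inl (M.tail t)) (Or.inl rfl)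
  have h6 := TG_one K L hL t (Sum.inl (M.head t)) (Or.inr (Or.inl rfl))
  have h7 := TG_one K L hL t (Sum.inr (M.face t)) (Or.inr (Or.inr rfl))
  omega

end Pool.Agent.PFire
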