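import Pool.Agent.Lib.PFire.TopoBase

/-!
# Chunk TO: the outer triangles of a forced component are connected in the cotree

Let `z` be a forced representative, `K' = {v | rep v = z}` and `Oc = {c | rep (tail c) = z,
rf (face c) + 1 = rv z}` (outer corners, a subset of `Out z`).
(1) If `c ∈ Oc` and `rep (head c) ≠ z` then `rf (face (al c)) + 1 = rv z`, so `al c ∈ Out z`: the head
`v` of `c` is on the face of `c`, so `rv v = rv z` or `rv v = rv z - 2`; in the first case `v` is forced
and `rep_adj` gives `rep v = z`; so `rv v + 2 = rv z`, and the face of `al c` touches `v` and `tail c`.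
(2) `ρ c = if rep (head c) = z then phi c else phi (al c)` maps `Oc` to itself and is injective on `Oc`
(let `x = phi.symm c'`; the only preimage of `c'` is `x` if `rep (tail x) = z`, else `al x`).
(3) Links: in the first case the triangles `c` and `ρ c` share the corner side `ρ c`.  In the second case
`c` and `al c` share the edge side of `c`, which is not in the tree (tree edges join two forced vertices
of the same component), and `al c`, `ρ c` share the corner side `ρ c`.  The corner side `ρ c` is in `CC`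
unless `ρ c = pv z` (it is not `pf` of its face because of the distances).
(4) If the `ρ`-orbit of `c1 ∈ Oc` does not contain `pv z`: remove the corner side `ρ c1`; its triangles
`phi.symm (ρ c1)` (which is `c1` or `al c1`) and `ρ c1` are still connected along the orbit
`ρ c1, ρ² c1, …, c1` (which uses the corner sides `ρ² c1, …, c1`, different from `ρ c1`),
contradiction to `hbr`.  So every orbit contains `pv z`: all of `Oc` is one orbit, and the star lemma
(one broken link) connects it inside `Out z`.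
(5) `t ∈ Out z` with `rep (tail t) ≠ z`: `al t ∈ Oc` by the argument of (1), and the edge side of `t` is
in `EE`.
-/

set_option autoImplicit false

namespace Pool.Agent.PFire

open Relation

variable {D V F : Type} {M : PMap D V F} {s : V} {R : Rad M s} (K : Frc M R)

/-- the outer corners of the component of `z` -/
private def TOOc (z : V) : Set D := {c | K.rep (M.tail c) = z ∧ R.rf (M.face c) + 1 = R.rv z}

private lemma TO_head_corner (R : Rad M s) (d : D) :
    R.rv (M.head d) = R.rf (M.face d) + 1 ∨ R.rf (M.face d) = R.rv (M.head d) + 1 := by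
  have h := R.corner (M.phi d)
  rw [M.tail_phi, M.face_phi] at h
  exact h

private lemma TO_rv {z : V} {v : V} (h : K.rep v = z) : R.rv v = R.rv z := by
  rw [← h, K.rep_rv]

/-- (1), symmetric form -/
private lemma TO_al_face {z : V} (hfl : K.fl (R.rv z)) {x : D}
    (hf : R.rf (M.face x) + 1 = R.rv z)
    (h : (K.rep (M.tail x) = z ∧ K.rep (M.head x) ≠ z) ∨
      (K.rep (M.head x) = z ∧ K.rep (M.tail x) ≠ z)) :
    R.rf (M.face (M.al x)) + 1 = R.rv z := by
  have h1 := R.corner x
  have h2 := TO_head_corner R x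
  have h3 := R.corner (M.al x)
  have h4 := TO_head_corner R (M.al x)
  rw [M.head_al] at h4
  rw [M.tail_al] at h3
  rcases h with ⟨ha, hb⟩ | ⟨ha, hb⟩
  · have h5 := TO_rv K ha
    by_cases h6 : R.rv (M.head x) = R.rv z
    · exfalso
      apply hb
      rw [← ha]
      exact (K.rep_adj x (by rw [h5]; exact hfl) (by rw [h6]; exact hfl)).symm
    · omega
  · have h5 := TO_rv K ha
    by_cases h6 : R.rv (M.tail x) = R.rv z
    · exfalso
      apply hb
      rw [← ha]
      exact K.rep_adj x (by rw [h6]; exact hfl) (by rw [h5]; exact hfl)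
    · omega

/-- the edge side of a dart which leaves the component is not in the tree -/
private lemma TO_EE {x : D} (h : K.rep (M.tail x) ≠ K.rep (M.head x)) : x ∈ K.EE := by
  intro hx
  rcases hx with ⟨h1, h2⟩ | ⟨h1, h2⟩
  · have h3 := K.rep_pe h1
    rw [h2] at h3
    exact h h3.symm
  · have h3 := K.rep_pe h1
    rw [h2, M.head_al] at h3
    exact h h3

private lemma TO_CC {z : V} {c : D} (hc : c ∈ TOOc K z) (hne : c ≠ R.pv z) :
    c ∈ K.CC := by
  intro h
  have hrv := TO_rv K hc.1
  have hf := hc.2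
  rcases h with h1 | ⟨_, h2, h3⟩
  · have h4 := R.pf_tail (M.face c)
    rw [← h1] at h4
    omega
  · apply hne
    rw [h3]
    rw [hc.1] at h2
    rw [← h2]

open Classical in
/-- the rotation around the component -/
private noncomputable def TOrho (z : V) (c : D) : D :=
  if K.rep (M.head c) = z then M.phi c else M.phi (M.al c)

private lemma TO_rho_mem {z : V} (hfl : K.fl (R.rv z)) {c : D} (hc : c ∈ TOOc K z) :
    TOrho K z c ∈ TOOc K z := by
  unfold TOrho
  split_ifs with h
  · exact ⟨by rw [M.tail_phi]; exact h, by rw [M.face_phi]; exact hc.2⟩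
  · refine ⟨by rw [M.tail_phi, M.al_al]; exact hc.1, ?_⟩
    rw [M.face_phi]
    exact TO_al_face K hfl hc.2 (Or.inl ⟨hc.1, h⟩)

private lemma TO_rho_inj {z : V} {c c' : D} (hc : c ∈ TOOc K z)
    (hc' : c' ∈ TOOc K z) (h : TOrho K z c = TOrho K z c') : c = c' := by
  unfold TOrho at h
  split_ifs at h with h1 h2 h2
  · exact M.phi.injective h
  · have h3 := M.phi.injective h
    exfalso
    apply h2
    have h4 := hc.1
    rw [h3] at h4
    exact h4
  · have h3 := M.phi.injective h
    exfalso
    apply h1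
    have h4 := hc'.1
    rw [← h3] at h4
    exact h4
  · have h3 := M.phi.injective h
    have h4 := congrArg M.al h3
    rwa [M.al_al, M.al_al] at h4

private lemma TO_Oc_Out {z : V} {c : D} (hc : c ∈ TOOc K z) : c ∈ K.Out z :=
  ⟨hc.2, Or.inl hc.1⟩

/-- the link from `c` to `ρ c`, in any set of corner sides that contains `ρ c` -/
private lemma TO_link {z : V} (hfl : K.fl (R.rv z)) (C : Set D) {c : D} (hc : c ∈ TOOc K z)
    (hC : TOrho K z c ∈ C) : M.ConnIn C K.EE (K.Out z) c (TOrho K z c) := by
  have hm := TO_rho_mem K hfl hc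
  unfold TOrho at hC hm ⊢
  split_ifs at hC hm ⊢ with h
  · exact ReflTransGen.single ⟨TO_Oc_Out K hc, TO_Oc_Out K hm, Or.inl ⟨rfl, hC⟩⟩
  · have h1 : M.al c ∈ K.Out z :=
      ⟨TO_al_face K hfl hc.2 (Or.inl ⟨hc.1, h⟩), Or.inr (by rw [M.head_al]; exact hc.1)⟩
    refine ReflTransGen.head ⟨TO_Oc_Out K hc, h1, Or.inr (Or.inr ⟨rfl, TO_EE K ?_⟩)⟩
      (ReflTransGen.single ⟨h1, TO_Oc_Out K hm, Or.inl ⟨rfl, hC⟩⟩)
    rw [hc.1]
    exact fun h' => h h'.symm

/-- the triangle behind the corner side `ρ c` is connected to `c` by edge sides only -/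
private lemma TO_back {z : V} (C : Set D) {c : D} (hc : c ∈ TOOc K z) :
    M.Conn C K.EE c (M.phi.symm (TOrho K z c)) := by
  unfold TOrho
  split_ifs with h
  · rw [Equiv.symm_apply_apply]
    exact ReflTransGen.refl
  · rw [Equiv.symm_apply_apply]
    refine ReflTransGen.single (Or.inr (Or.inr ⟨rfl, TO_EE K ?_⟩))
    rw [hc.1]
    exact fun h' => h h'.symm

/-- `ρ` on the subtype of the outer corners -/
private noncomputable def TOpi {z : V} (hfl : K.fl (R.rv z)) (c : TOOc K z) :
    TOOc K z := ⟨TOrho K z c.1, TO_rho_mem K hfl c.2⟩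

private lemma TO_pi_inj {z : V} (hfl : K.fl (R.rv z)) : Function.Injective (TOpi K hfl) := by
  intro c c' h
  exact Subtype.ext (TO_rho_inj K c.2 c'.2 (congrArg Subtype.val h))

private lemma TO_conn_symm {C : Set D} {x y : D} (h : M.Conn C K.EE x y) : M.Conn C K.EE y x := by
  induction h with
  | refl => exact ReflTransGen.refl
  | tail _ hbc ih => exact ReflTransGen.head (hbc.symm (fun x hx => K.EE_al hx)) ih

/-- (4) every orbit contains `pv z` -/
private lemma TO_orbit [Finite D]
    (hbr : ∀ c ∈ K.CC, ¬ M.Conn (K.CC \ {c}) K.EE (M.phi.symm c) c)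
    {z : V} (hfl : K.fl (R.rv z)) (c : TOOc K z) :
    ∃ n : ℕ, ((TOpi K hfl)^[n] c).1 = R.pv z := by
  by_contra hcon
  push Not at hcon
  have hCC : ∀ n : ℕ, ((TOpi K hfl)^[n] c).1 ∈ K.CC := fun n =>
    TO_CC K ((TOpi K hfl)^[n] c).2 (hcon n)
  have hper : c ∈ Function.periodicPts (TOpi K hfl) :=
    Function.Injective.mem_periodicPts (TO_pi_inj K hfl) c
  classical
  obtain ⟨p, hp0, hp, hmin⟩ : ∃ p : ℕ, 0 < p ∧ (TOpi K hfl)^[p] c = c ∧
      ∀ q, 0 < q → q < p → (TOpi K hfl)^[q] c ≠ c := by
    have hex : ∃ p : ℕ, 0 < p ∧ (TOpi K hfl)^[p] c = c := by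
      obtain ⟨p, hp0, hp⟩ := hper
      exact ⟨p, hp0, hp⟩
    exact ⟨Nat.find hex, (Nat.find_spec hex).1, (Nat.find_spec hex).2,
      fun q h1 h2 h3 => Nat.find_min hex h2 ⟨h1, h3⟩⟩
  -- the path along the orbit
  have hpath : ∀ i : ℕ, 1 ≤ i → i ≤ p →
      M.Conn (K.CC \ {((TOpi K hfl)^[1] c).1}) K.EE ((TOpi K hfl)^[1] c).1
        ((TOpi K hfl)^[i] c).1 := by
    intro i hi
    induction i with
    | zero => omega
    | succ i ih =>
      intro hip
      rcases Nat.eq_zero_or_pos i with h0 | h0
      · subst h0; exact ReflTransGen.refl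
      · refine ReflTransGen.trans (ih h0 (by omega)) ?_
        rw [Function.iterate_succ_apply' _ i]
        have hlink := TO_link K hfl (K.CC \ {((TOpi K hfl)^[1] c).1}) ((TOpi K hfl)^[i] c).2
          ⟨?_, ?_⟩
        · exact hlink.toConn
        · have := hCC (i + 1)
          rw [Function.iterate_succ_apply'] at this
          exact this
        · intro h
          have h1 : (TOpi K hfl)^[i + 1] c = (TOpi K hfl)^[1] c := by
            apply Subtype.ext
            rw [Function.iterate_succ_apply' _ i]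
            exact h
          have h2 : (TOpi K hfl)^[i] c = c := by
            rw [Function.iterate_succ_apply' _ i, Function.iterate_one] at h1
            exact TO_pi_inj K hfl h1
          exact hmin i h0 (by omega) h2
  have h1 := hpath p hp0 le_rfl
  rw [hp] at h1
  refine hbr _ (hCC 1) ?_
  refine ReflTransGen.trans (TO_conn_symm K ?_) (TO_conn_symm K h1)
  exact TO_back K _ c.2

theorem outer_conn [Finite D]
    (hbr : ∀ c ∈ K.CC, ¬ M.Conn (K.CC \ {c}) K.EE (M.phi.symm c) c)
    (z : V) (hz : K.rep z = z) (hfl : K.fl (R.rv z)) (t t' : D) (ht : t ∈ K.Out z)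
    (ht' : t' ∈ K.Out z) : M.ConnIn K.CC K.EE (K.Out z) t t' := by
  have hEE : ∀ x ∈ K.EE, M.al x ∈ K.EE := fun x hx => K.EE_al hx
  have hzs : z ≠ s := by
    rintro rfl
    rw [R.rv_s] at hfl
    exact K.fl_zero hfl
  have hpv : R.pv z ∈ TOOc K z :=
    ⟨by rw [R.pv_tail z hzs]; exact hz, R.pv_face z hzs⟩
  set a : TOOc K z := ⟨R.pv z, hpv⟩ with ha
  have hinj := TO_pi_inj K hfl
  have hsurj : Function.Surjective (TOpi K hfl) := Finite.surjective_of_injective hinj
  obtain ⟨x₀, hx₀⟩ := hsurj a
  have hstar := star_lemma (TOpi K hfl) hinj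
    (fun c c' => M.ConnIn K.CC K.EE (K.Out z) c.1 c'.1)
    (fun _ => ReflTransGen.refl) (fun _ _ h => h.symm' hEE)
    (fun _ _ _ h1 h2 => ReflTransGen.trans h1 h2) x₀ a (by
      intro n hn
      refine TO_link K hfl K.CC ((TOpi K hfl)^[n] a).2 ?_
      apply TO_CC K (TO_rho_mem K hfl ((TOpi K hfl)^[n] a).2)
      intro h
      apply hn
      apply hinj
      rw [hx₀]
      exact Subtype.ext h)
  have hall : ∀ c : D, c ∈ TOOc K z → M.ConnIn K.CC K.EE (K.Out z) (R.pv z) c := by
    intro c hc
    obtain ⟨n, hn⟩ := TO_orbit K hbr hfl ⟨c, hc⟩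
    have hn' : (TOpi K hfl)^[n] ⟨c, hc⟩ = a := Subtype.ext hn
    obtain ⟨p, hp0, hp⟩ : (⟨c, hc⟩ : TOOc K z) ∈ Function.periodicPts (TOpi K hfl) :=
      Function.Injective.mem_periodicPts hinj _
    have hp' : (TOpi K hfl)^[p * (n + 1)] ⟨c, hc⟩ = (⟨c, hc⟩ : TOOc K z) := hp.mul_const (n + 1)
    have h1 : n ≤ p * (n + 1) := by nlinarith
    have h2 : (TOpi K hfl)^[p * (n + 1) - n] a = ⟨c, hc⟩ := by
      rw [← hn', ← Function.iterate_add_apply, Nat.sub_add_cancel h1, hp']
    have h3 := hstar (p * (n + 1) - n)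
    rw [h2] at h3
    exact h3
  have hout : ∀ t : D, t ∈ K.Out z → M.ConnIn K.CC K.EE (K.Out z) (R.pv z) t := by
    intro t ht
    by_cases h : K.rep (M.tail t) = z
    · exact hall t ⟨h, ht.1⟩
    · have h1 : K.rep (M.head t) = z := by
        rcases ht.2 with h2 | h2
        · exact absurd h2 h
        · exact h2
      have h2 : M.al t ∈ TOOc K z := ⟨h1, TO_al_face K hfl ht.1 (Or.inr ⟨h1, h⟩)⟩
      have h3 : t ∈ K.EE := TO_EE K (by rw [h1]; exact h)
      refine ReflTransGen.tail (hall _ h2) ⟨TO_Oc_Out K h2, ht, Or.inr (Or.inr ⟨?_, K.EE_al h3⟩)⟩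
      rw [M.al_al]
  exact ReflTransGen.trans ((hout t ht).symm' hEE) (hout t' ht')

end Pool.Agent.PFire
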