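import Pool.Agent.Lib.PFire.TopoBase

/-!
# Chunk TP: in the rooted cotree, a connected set of triangles contains the parents

Suppose `t ∈ T`, `t ≠ m`, `cp t ∉ T`.  `t ≠ r` (else `cd m = 0`, `m = r = t`).  Let `e` be the side
shared by `cp t` and `t`.  The path in `T` from `t` to `m` does not use `e` (its triangles are in `T`).
The chain `m, cp m, …, r` does not use `e`: it would contain `t` and `cp t` as neighbours; `t` is not in the
chain because `cd x ≤ cd m ≤ cd t` with equality only for `x = m ≠ t`.  The chain `cp t, cp (cp t), …, r`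
does not contain `t`.  So `t` and `cp t` are connected without `e`, contradiction to the bridge
hypotheses.  (A step which uses the corner side `c` joins `phi.symm c` and `c`; a step which uses the edge
side of `x` joins `x` and `al x`.)
-/

set_option autoImplicit false

namespace Pool.Agent.PFire

open Relation

variable {D V F : Type} {M : PMap D V F}

private lemma TP_symm {C E : Set D} (hE : ∀ x ∈ E, M.al x ∈ E) {x y : D} (h : M.Conn C E x y) :
    M.Conn C E y x := by
  induction h with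
  | refl => exact ReflTransGen.refl
  | tail _ hbc ih => exact ReflTransGen.head (hbc.symm hE) ih

private lemma TP_aux {C E : Set D} (C' E' : Set D) (hE' : ∀ x ∈ E', M.al x ∈ E')
    (r : D) (cd : D → ℕ) (cp : D → D) (hr : ∀ x, cd x = 0 → x = r)
    (hcp : ∀ x, x ≠ r → M.Step C E (cp x) x ∧ cd (cp x) + 1 = cd x)
    (T : Set D) (hT : ∀ t ∈ T, ∀ t' ∈ T, M.ConnIn C E T t t')
    (m : D) (hm : m ∈ T) (hmin : ∀ t ∈ T, cd m ≤ cd t) (t : D) (ht : t ∈ T) (htm : t ≠ m)
    (htr : t ≠ r) (hn : cp t ∉ T)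
    (hstep : ∀ x y, M.Step C E x y → ¬ (x = t ∧ y = cp t) → ¬ (x = cp t ∧ y = t) →
      M.Step C' E' x y) : M.Conn C' E' t (cp t) := by
  have h1 : M.Conn C' E' t m := by
    have h2 := hT t ht m hm
    refine ReflTransGen.mono (fun x y h => ?_) _ _ h2
    exact hstep x y h.2.2 (fun h3 => hn (h3.2 ▸ h.2.1)) (fun h3 => hn (h3.1 ▸ h.1))
  have h2 : ∀ n : ℕ, ∀ x, cd x = n → x ≠ t → cd x ≤ cd t → M.Conn C' E' x r := by
    intro n
    induction n with
    | zero => intro x hx _ _; rw [hr x hx]; exact ReflTransGen.refl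
    | succ n ih =>
      intro x hx hxt hle
      by_cases hxr : x = r
      · rw [hxr]; exact ReflTransGen.refl
      obtain ⟨h3, h4⟩ := hcp x hxr
      have h5 : cp x ≠ t := by
        intro h; rw [h] at h4; omega
      have h6 := ih (cp x) (by omega) h5 (by omega)
      refine ReflTransGen.head ?_ h6
      refine PMap.Step.symm hE' (hstep (cp x) x h3 (fun h => h5 h.1) (fun h => hxt h.2))
  have h3 := h2 _ m rfl (Ne.symm htm) (hmin t ht)
  obtain ⟨h4, h5⟩ := hcp t htr
  have h6 := h2 _ (cp t) rfl (by intro h; rw [h] at h5; omega) (by omega)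
  exact (h1.trans h3).trans (TP_symm hE' h6)

theorem par_mem (C E : Set D) (hEal : ∀ x ∈ E, M.al x ∈ E)
    (hbc : ∀ c ∈ C, ¬ M.Conn (C \ {c}) E (M.phi.symm c) c)
    (hbe : ∀ x ∈ E, ¬ M.Conn C (E \ {x, M.al x}) x (M.al x))
    (r : D) (cd : D → ℕ) (cp : D → D) (hr0 : cd r = 0) (hr : ∀ x, cd x = 0 → x = r)
    (hcp : ∀ x, x ≠ r → M.Step C E (cp x) x ∧ cd (cp x) + 1 = cd x)
    (T : Set D) (hT : ∀ t ∈ T, ∀ t' ∈ T, M.ConnIn C E T t t')
    (m : D) (hm : m ∈ T) (hmin : ∀ t ∈ T, cd m ≤ cd t) (t : D) (ht : t ∈ T) (htm : t ≠ m) :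
    cp t ∈ T := by
  by_contra hn
  have htr : t ≠ r := by
    rintro rfl
    have h1 := hmin t ht
    exact htm (hr m (by omega)).symm
  obtain ⟨h1, _⟩ := hcp t htr
  rcases h1 with ⟨h1, h2⟩ | ⟨h1, h2⟩ | ⟨h1, h2⟩
  · apply hbc t h2
    have h3 : M.phi.symm t = cp t := by rw [Equiv.symm_apply_eq]; exact h1
    rw [h3]
    refine TP_symm hEal (TP_aux (C \ {t}) E hEal r cd cp hr hcp T hT m hm hmin t ht htm htr hn ?_)
    intro x y hs hxy hyx
    rcases hs with ⟨h4, h5⟩ | ⟨h4, h5⟩ | hs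
    · refine Or.inl ⟨h4, h5, fun h => hyx ⟨?_, h⟩⟩
      rw [← h3, ← (show y = t from h), h4, Equiv.symm_apply_apply]
    · refine Or.inr (Or.inl ⟨h4, h5, fun h => hxy ⟨h, ?_⟩⟩)
      rw [← h3, ← (show x = t from h), h4, Equiv.symm_apply_apply]
    · exact Or.inr (Or.inr hs)
  · apply hbc (cp t) h2
    have h3 : M.phi.symm (cp t) = t := by rw [Equiv.symm_apply_eq]; exact h1
    rw [h3]
    refine TP_aux (C \ {cp t}) E hEal r cd cp hr hcp T hT m hm hmin t ht htm htr hn ?_
    intro x y hs hxy hyx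
    rcases hs with ⟨h4, h5⟩ | ⟨h4, h5⟩ | hs
    · refine Or.inl ⟨h4, h5, fun h => hxy ⟨?_, h⟩⟩
      rw [← h3, ← (show y = cp t from h), h4, Equiv.symm_apply_apply]
    · refine Or.inr (Or.inl ⟨h4, h5, fun h => hyx ⟨h, ?_⟩⟩)
      rw [← h3, ← (show x = cp t from h), h4, Equiv.symm_apply_apply]
    · exact Or.inr (Or.inr hs)
  · apply hbe (cp t) h2
    have h7 : M.al t = cp t := by
      have h8 := congrArg M.al h1
      rwa [M.al_al] at h8
    rw [← h1]
    have hE' : ∀ x ∈ E \ {cp t, t}, M.al x ∈ E \ {cp t, t} := by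
      intro y hy
      refine ⟨hEal y hy.1, fun h => hy.2 ?_⟩
      rw [Set.mem_insert_iff, Set.mem_singleton_iff] at h ⊢
      rcases h with h | h
      · right; rw [h1, ← h, M.al_al]
      · left; rw [← M.al_al y, h, h7]
    refine TP_symm hE' (TP_aux C (E \ {cp t, t}) hE' r cd cp hr hcp T hT m hm hmin t ht htm htr hn ?_)
    intro x y hs hxy hyx
    rcases hs with hs | hs | ⟨h4, h5⟩
    · exact Or.inl hs
    · exact Or.inr (Or.inl hs)
    · refine Or.inr (Or.inr ⟨h4, h5, fun h => ?_⟩)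
      rw [Set.mem_insert_iff, Set.mem_singleton_iff] at h
      rcases h with h | h
      · exact hyx ⟨h, by rw [h4, h, ← h1]⟩
      · exact hxy ⟨h, by rw [h4, h, h7]⟩

end Pool.Agent.PFire
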