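import Pool.Agent.Lib.PFire.TopoConn
import Pool.Agent.Lib.PFire.TopoCount
import Pool.Agent.Lib.PFire.TopoOuter
import Pool.Agent.Lib.PFire.TopoPar
import Pool.Agent.Lib.PFire.TopoBag

/-!
# Assembly of the topological part
-/

set_option autoImplicit false

namespace Pool.Agent.PFire

open Relation

variable {D V F : Type} {M : PMap D V F} {s : V} {R : Rad M s} (K : Frc M R)

theorem topo_main [Fintype D] [Fintype V] [Fintype F] (hE : M.Euler)
    (r : D) (cd : D → ℕ) (cp : D → D) (hr0 : cd r = 0) (hr : ∀ x, cd x = 0 → x = r)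
    (hcp : ∀ x, x ≠ r → M.Step K.CC K.EE (cp x) x ∧ cd (cp x) + 1 = cd x)
    (z : V) (m t : D) (hm : K.Bag z m) (hmin : ∀ t', K.Bag z t' → cd m ≤ cd t')
    (ht : K.Bag z t) (htm : t ≠ m) : K.Bag z (cp t) := by
  have hconn := cotree_conn K
  have hbc := bridge_corner K hconn hE
  have hbe := bridge_edge K hconn hE
  have hT : ∀ t ∈ K.T K.fl (Sum.inl z), ∀ t' ∈ K.T K.fl (Sum.inl z),
      M.ConnIn K.CC K.EE (K.T K.fl (Sum.inl z)) t t' := fun t ht t' ht' =>
    T_conn K K.fl (fun _ h => h) (fun v hv hfl t t' ht ht' => outer_conn K hbc v hv hfl t t' ht ht')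
      (Sum.inl z) t t' ht ht'
  exact ⟨hm.1, par_mem K.CC K.EE (fun x hx => K.EE_al hx) hbc hbe r cd cp hr0 hr hcp _ hT m hm.2
    (fun t' ht' => hmin t' ⟨hm.1, ht'⟩) t ht.2 htm⟩

end Pool.Agent.PFire
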