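import Pool.Agent.Lib.PFire.SpecFrc
import Pool.Agent.Lib.PFire.TopoMain

/-!
# Chunk ST: the raw functions of the spanning tree, the cotree and the bags agree with the abstract ones
-/

set_option autoImplicit false

namespace Pool.Agent.PFire

open Pool.Agent.PolyTime

variable {rot : Rot} {s : ℕ}

/-- the node of the raw algorithm of an abstract node -/
def nodeOf : VV rot s ⊕ FF rot s → Nd
  | Sum.inl v => (v.1, v.1)
  | Sum.inr g => g.1

lemma st_face_darts {g : Nd} (hg : g ∈ faces rot s) : g ∈ darts rot s :=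
  (List.mem_filter.1 hg).1

lemma st_dart_ne (h : RotValid rot s) {d : Nd} (hd : d ∈ darts rot s) : d.1 ≠ d.2 := by
  intro he
  have h1 := ((mem_darts h).1 hd).2
  rw [← he] at h1
  exact h.irrefl _ h1

lemma st_diag (h : RotValid rot s) {v : ℕ} {g : Nd} (hg : g ∈ faces rot s) : (v, v) ≠ g := by
  intro he
  apply st_dart_ne h (st_face_darts hg)
  rw [← he]

lemma nodeOf_inj (h : RotValid rot s) : Function.Injective (nodeOf (rot := rot) (s := s)) := by
  intro a b hab
  rcases a with v | g <;> rcases b with w | g'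
  · simp only [nodeOf, Prod.mk.injEq, and_self] at hab
    rw [Subtype.ext hab]
  · exact (st_diag h g'.2 hab).elim
  · exact (st_diag h g.2 hab.symm).elim
  · simp only [nodeOf] at hab
    rw [Subtype.ext hab]

lemma st_toD_eq (hne : darts rot s ≠ []) {d : Nd} (hd : d ∈ darts rot s) (x : DD rot s) :
    toD hne d = x ↔ d = x.1 := by
  rw [Subtype.ext_iff, toD_val hne hd]

lemma CT_iff (h : RotValid rot s) (hne : darts rot s ≠ []) (k i : ℕ) (c : DD rot s) :
    (rawFrc h hne k i).CT c ↔ cornerTree rot s k i c.1 = true := by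
  have hc1 : c.1.1 ∈ comp rot s := fst_mem h c.2
  have hpf := (pf_spec h hne ((mem_faces h).2 ⟨c.1, c.2, rfl⟩)).1
  unfold Frc.CT cornerTree
  rw [Bool.or_eq_true, Bool.and_eq_true, Bool.and_eq_true, decide_eq_true_iff, decide_eq_true_iff,
    decide_eq_true_iff, decide_eq_true_iff]
  apply or_congr
  · constructor
    · intro he
      have := (st_toD_eq hne hpf c).1 he.symm
      exact this.symm
    · intro he
      exact ((st_toD_eq hne hpf c).2 he.symm).symm
  · rw [and_assoc]
    constructor
    · rintro ⟨h1, h2, h3⟩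
      have h1' : c.1.1 ≠ s := fun he => h1 (Subtype.ext he)
      refine ⟨h1', congrArg Subtype.val h2, ?_⟩
      exact ((st_toD_eq hne (pv_spec h hne hc1 h1').1 c).1 h3.symm).symm
    · rintro ⟨h1, h2, h3⟩
      refine ⟨fun he => h1 (congrArg Subtype.val he), Subtype.ext h2, ?_⟩
      exact ((st_toD_eq hne (pv_spec h hne hc1 h1).1 c).2 h3.symm).symm

lemma ET_iff (h : RotValid rot s) (hne : darts rot s ≠ []) (k i : ℕ) (x : DD rot s) :
    (rawFrc h hne k i).ET x ↔ edgeTree rot s k i x.1 = true := by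
  have hx1 : x.1.1 ∈ comp rot s := fst_mem h x.2
  have hx2 : x.1.2 ∈ comp rot s := snd_mem h x.2
  unfold Frc.ET edgeTree
  rw [Bool.or_eq_true, Bool.and_eq_true, Bool.and_eq_true, decide_eq_true_iff, decide_eq_true_iff,
    decide_eq_true_iff, decide_eq_true_iff]
  apply or_congr
  · constructor
    · rintro ⟨h1, h2⟩
      have h1' : rep rot s k i x.1.1 ≠ x.1.1 := fun he => h1 (Subtype.ext he)
      have hp := (mem_frcE.1 (pe_spec h hx1 h1').1).1
      exact ⟨h1', (st_toD_eq hne hp x).1 h2⟩
    · rintro ⟨h1, h2⟩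
      have hp := (mem_frcE.1 (pe_spec h hx1 h1).1).1
      exact ⟨fun he => h1 (congrArg Subtype.val he), (st_toD_eq hne hp x).2 h2⟩
  · constructor
    · rintro ⟨h1, h2⟩
      have h1' : rep rot s k i x.1.2 ≠ x.1.2 := fun he => h1 (Subtype.ext he)
      have hp := (mem_frcE.1 (pe_spec h hx2 h1').1).1
      exact ⟨h1', (st_toD_eq hne hp _).1 h2⟩
    · rintro ⟨h1, h2⟩
      have hp := (mem_frcE.1 (pe_spec h hx2 h1).1).1
      exact ⟨fun he => h1 (congrArg Subtype.val he), (st_toD_eq hne hp _).2 h2⟩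

lemma st_mem_links {k i : ℕ} {a b : Nd} : (a, b) ∈ links rot s k i ↔
    ∃ x ∈ darts rot s, (cornerTree rot s k i (phi rot x) ≠ true ∧
      ((a = x ∧ b = phi rot x) ∨ (a = phi rot x ∧ b = x))) ∨
      (edgeTree rot s k i x ≠ true ∧ a = x ∧ b = al x) := by
  unfold links
  rw [List.mem_flatMap]
  constructor
  · rintro ⟨x, hx, hm⟩
    refine ⟨x, hx, ?_⟩
    rw [List.mem_append] at hm
    rcases hm with hm | hm
    · left
      split_ifs at hm with h1
      · simp at hm
      · simp only [List.mem_cons, Prod.mk.injEq, List.not_mem_nil, or_false] at hm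
        exact ⟨h1, hm⟩
    · right
      split_ifs at hm with h1
      · simp at hm
      · simp only [List.mem_cons, Prod.mk.injEq, List.not_mem_nil, or_false] at hm
        exact ⟨h1, hm⟩
  · rintro ⟨x, hx, hm⟩
    refine ⟨x, hx, ?_⟩
    rw [List.mem_append]
    rcases hm with ⟨h1, hm⟩ | ⟨h1, hm⟩
    · left
      rw [if_neg h1]
      simp only [List.mem_cons, Prod.mk.injEq, List.not_mem_nil, or_false]
      exact hm
    · right
      rw [if_neg h1]
      simp only [List.mem_cons, Prod.mk.injEq, List.not_mem_nil, or_false]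
      exact hm

lemma mem_links (h : RotValid rot s) (hne : darts rot s ≠ []) (k i : ℕ) (x y : DD rot s) :
    (x.1, y.1) ∈ links rot s k i ↔
      (rawMap h hne).Step (rawFrc h hne k i).CC (rawFrc h hne k i).EE x y := by
  rw [st_mem_links]
  unfold PMap.Step
  constructor
  · rintro ⟨d, hd, ⟨h1, ⟨h2, h3⟩ | ⟨h2, h3⟩⟩ | ⟨h1, h2, h3⟩⟩
    · left
      refine ⟨Subtype.ext ?_, ?_⟩
      · rw [rawMap_phi, h3, h2]
      · intro hct
        rw [CT_iff, h3] at hct
        exact h1 hct
    · right; left
      refine ⟨Subtype.ext ?_, ?_⟩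
      · rw [rawMap_phi, h3, h2]
      · intro hct
        rw [CT_iff, h2] at hct
        exact h1 hct
    · right; right
      refine ⟨Subtype.ext ?_, ?_⟩
      · rw [rawMap_al, h3, h2]
      · intro het
        rw [ET_iff, h2] at het
        exact h1 het
  · rintro (⟨h1, h2⟩ | ⟨h1, h2⟩ | ⟨h1, h2⟩)
    · have e : y.1 = phi rot x.1 := congrArg Subtype.val h1
      refine ⟨x.1, x.2, Or.inl ⟨fun hct => h2 ?_, Or.inl ⟨rfl, e⟩⟩⟩
      rw [CT_iff, e]; exact hct
    · have e : x.1 = phi rot y.1 := congrArg Subtype.val h1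
      refine ⟨y.1, y.2, Or.inl ⟨fun hct => h2 ?_, Or.inr ⟨e, rfl⟩⟩⟩
      rw [CT_iff, e]; exact hct
    · have e : y.1 = al x.1 := congrArg Subtype.val h1
      refine ⟨x.1, x.2, Or.inr ⟨fun het => h2 ?_, rfl, e⟩⟩
      rw [ET_iff]; exact het

lemma links_sub (h : RotValid rot s) (k i : ℕ) {e : Nd × Nd} (he : e ∈ links rot s k i) :
    e.1 ∈ darts rot s ∧ e.2 ∈ darts rot s := by
  obtain ⟨a, b⟩ := e
  rw [st_mem_links] at he
  rcases he with ⟨d, hd, ⟨h1, ⟨h2, h3⟩ | ⟨h2, h3⟩⟩ | ⟨h1, h2, h3⟩⟩
  · rw [h2, h3]; exact ⟨hd, phi_mem h hd⟩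
  · rw [h2, h3]; exact ⟨phi_mem h hd, hd⟩
  · rw [h2, h3]; exact ⟨hd, al_mem h hd⟩

lemma rootD_mem (hne : darts rot s ≠ []) : rootD rot s ∈ darts rot s := by
  unfold rootD
  cases hd : darts rot s with
  | nil => exact (hne hd).elim
  | cons a l => simp

/-- all triangles are reachable in the cotree (use `cotree_conn`) -/
lemma reach_links (h : RotValid rot s) (hne : darts rot s ≠ []) (k i : ℕ) {x : Nd}
    (hx : x ∈ darts rot s) : x ∈ reach (links rot s k i) (rootD rot s) := by
  rw [mem_reach]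
  have hconn := cotree_conn (rawFrc h hne k i) ⟨rootD rot s, rootD_mem hne⟩ ⟨x, hx⟩
  unfold PMap.Conn at hconn
  exact Relation.ReflTransGen.lift (r := (rawMap h hne).Step (rawFrc h hne k i).CC
    (rawFrc h hne k i).EE) (p := fun a b => (a, b) ∈ links rot s k i) Subtype.val
    (fun a b hab => (mem_links h hne k i a b).2 hab) _ _ hconn

lemma cd_root (k i : ℕ) : cd rot s k i (rootD rot s) = 0 := dist_self _ _

lemma cp_spec (h : RotValid rot s) (hne : darts rot s ≠ []) (k i : ℕ) {x : Nd}
    (hx : x ∈ darts rot s) (hxr : x ≠ rootD rot s) :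
    cp rot s k i x ∈ darts rot s ∧ (cp rot s k i x, x) ∈ links rot s k i ∧
      cd rot s k i (cp rot s k i x) + 1 = cd rot s k i x := by
  obtain ⟨y, -, hy2, hy3⟩ := dist_pred (reach_links h hne k i hx) hxr
  have hyd := (links_sub h k i hy2).1
  unfold cp
  set p : Nd → Bool := fun y =>
    decide ((y, x) ∈ links rot s k i) && decide (cd rot s k i y + 1 = cd rot s k i x) with hp
  have hsome : ((darts rot s).find? p).isSome := by
    rw [List.find?_isSome]
    refine ⟨y, hyd, ?_⟩
    rw [hp]
    simp only [Bool.and_eq_true, decide_eq_true_iff]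
    exact ⟨hy2, hy3⟩
  obtain ⟨c, hc⟩ := Option.isSome_iff_exists.1 hsome
  rw [hc, Option.getD_some]
  have h1 := List.mem_of_find?_eq_some hc
  have h2 := List.find?_some hc
  rw [hp] at h2
  simp only [Bool.and_eq_true, decide_eq_true_iff] at h2
  exact ⟨h1, h2⟩

/-- edges of the parent relation leaving a node -/
lemma st_upE (h : RotValid rot s) (hne : darts rot s ≠ []) (k i : ℕ)
    (c : VV rot s ⊕ FF rot s) (hc : c ≠ Sum.inl ⟨s, s_mem_comp h⟩) (n : Nd) :
    (nodeOf c, n) ∈ upE rot s k i ↔ n = nodeOf ((rawFrc h hne k i).up c) := by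
  unfold upE
  rw [List.mem_append, List.mem_map, List.mem_map]
  rcases c with v | g
  · have hvs : v.1 ≠ s := by
      intro he
      apply hc
      congr 1
      exact Subtype.ext he
    have hvs' : v ≠ ⟨s, s_mem_comp h⟩ := fun he => hvs (congrArg Subtype.val he)
    have hup : nodeOf ((rawFrc h hne k i).up (Sum.inl v)) = (if rep rot s k i v.1 = v.1 then
        faceOf rot s (pv rot s v.1) else ((pe rot s k i v.1).2, (pe rot s k i v.1).2)) := by
      unfold Frc.up
      dsimp only
      rw [if_neg hvs']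
      by_cases hr : rep rot s k i v.1 = v.1
      · have hr' : (rawFrc h hne k i).rep v = v := Subtype.ext hr
        rw [if_pos hr', if_pos hr]
        simp only [nodeOf, rawMap_face]
        have hp := (pv_spec h hne v.2 hvs).1
        have e : ((rawRad h hne).pv v).1 = pv rot s v.1 := toD_val hne hp
        rw [e]
      · have hr' : (rawFrc h hne k i).rep v ≠ v := fun he => hr (congrArg Subtype.val he)
        rw [if_neg hr', if_neg hr]
        simp only [nodeOf, rawMap_head]
        have hp := (mem_frcE.1 (pe_spec h v.2 hr).1).1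
        have e : ((rawFrc h hne k i).pe v).1 = pe rot s k i v.1 := toD_val hne hp
        rw [e]
    rw [hup]
    constructor
    · rintro (⟨w, hw, he⟩ | ⟨g, hg, he⟩)
      · simp only [nodeOf, Prod.mk.injEq, and_self] at he
        obtain ⟨he1, he2⟩ := he
        subst he1
        exact he2.symm
      · simp only [nodeOf, Prod.mk.injEq] at he
        exact (st_diag h hg he.1.symm).elim
    · intro he
      left
      refine ⟨v.1, ?_, ?_⟩
      · rw [List.mem_filter, decide_eq_true_iff]
        exact ⟨v.2, hvs⟩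
      · simp only [nodeOf, Prod.mk.injEq, true_and]
        exact he.symm
  · have hup : nodeOf ((rawFrc h hne k i).up (Sum.inr g)) =
        ((pf rot s g.1).1, (pf rot s g.1).1) := by
      unfold Frc.up
      simp only [nodeOf, rawMap_tail]
      have hp := (pf_spec h hne g.2).1
      have e : ((rawRad h hne).pf g).1 = pf rot s g.1 := toD_val hne hp
      rw [e]
    rw [hup]
    constructor
    · rintro (⟨w, hw, he⟩ | ⟨g', hg', he⟩)
      · simp only [nodeOf, Prod.mk.injEq] at he
        exact (st_diag h g.2 he.1).elim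
      · simp only [nodeOf, Prod.mk.injEq] at he
        obtain ⟨he1, he2⟩ := he
        subst he1
        exact he2.symm
    · intro he
      right
      exact ⟨g.1, g.2, by simp only [nodeOf]; rw [he]⟩

lemma st_upE_s (h : RotValid rot s) (k i : ℕ) (n : Nd) : ((s, s), n) ∉ upE rot s k i := by
  unfold upE
  rw [List.mem_append, List.mem_map, List.mem_map]
  rintro (⟨w, hw, he⟩ | ⟨g', hg', he⟩)
  · rw [List.mem_filter, decide_eq_true_iff] at hw
    simp only [Prod.mk.injEq, and_self] at he
    exact hw.2 he.1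
  · simp only [Prod.mk.injEq] at he
    exact st_diag h hg' he.1.symm

lemma up_iff (h : RotValid rot s) (hne : darts rot s ≠ []) (k i : ℕ)
    (c w : VV rot s ⊕ FF rot s) (hc : c ≠ Sum.inl ⟨s, s_mem_comp h⟩) :
    (rawFrc h hne k i).up c = w ↔ (nodeOf c, nodeOf w) ∈ upE rot s k i := by
  rw [st_upE h hne k i c hc]
  constructor
  · intro he; rw [he]
  · intro he; exact (nodeOf_inj h he).symm

lemma st_up_s (h : RotValid rot s) (hne : darts rot s ≠ []) (k i : ℕ) :
    (rawFrc h hne k i).up (Sum.inl ⟨s, s_mem_comp h⟩) = Sum.inl ⟨s, s_mem_comp h⟩ := by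
  unfold Frc.up
  dsimp only
  rw [if_pos rfl]

lemma isDesc_iff (h : RotValid rot s) (hne : darts rot s ≠ []) (k i : ℕ)
    (w c : VV rot s ⊕ FF rot s) :
    isDesc rot s k i (nodeOf w) (nodeOf c) = true ↔ (rawFrc h hne k i).Desc w c := by
  unfold isDesc
  rw [decide_eq_true_iff, mem_reach]
  constructor
  · intro hr
    have key : ∀ a : Nd, Relation.ReflTransGen (fun a b => (a, b) ∈ upE rot s k i) a (nodeOf w) →
        ∀ c : VV rot s ⊕ FF rot s, a = nodeOf c → (rawFrc h hne k i).Desc w c := by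
      intro a ha
      induction ha using Relation.ReflTransGen.head_induction_on with
      | refl =>
        intro c hc
        exact ⟨0, (nodeOf_inj h hc).symm⟩
      | head hab _ ih =>
        intro c hc
        rw [hc] at hab
        by_cases hs : c = Sum.inl ⟨s, s_mem_comp h⟩
        · rw [hs] at hab
          exact (st_upE_s h k i _ hab).elim
        · have h1 := (st_upE h hne k i c hs _).1 hab
          obtain ⟨n, hn⟩ := ih _ h1
          exact ⟨n + 1, by rw [Function.iterate_succ_apply]; exact hn⟩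
    exact key _ hr c rfl
  · rintro ⟨n, hn⟩
    induction n generalizing c with
    | zero =>
      rw [Function.iterate_zero, id] at hn
      rw [hn]
    | succ n ih =>
      rw [Function.iterate_succ_apply] at hn
      by_cases hs : c = Sum.inl ⟨s, s_mem_comp h⟩
      · rw [hs, st_up_s] at hn
        rw [hs]
        exact ih _ hn
      · exact Relation.ReflTransGen.head ((st_upE h hne k i c hs _).2 rfl) (ih _ hn)

lemma slabB_iff (h : RotValid rot s) (hne : darts rot s ≠ []) (k i : ℕ) (z : VV rot s)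
    (g : FF rot s) : slabB rot s k i z.1 g.1 = true ↔
      (rawRad h hne).slab (rawFrc h hne k i).fl (Sum.inl z) g := by
  unfold slabB Rad.slab
  rw [Bool.not_eq_true', ← Bool.not_eq_true, List.any_eq_true]
  constructor
  · intro h1 x hx hlt hlt2
    apply h1
    refine ⟨x, ?_, ?_⟩
    · rw [List.mem_range]
      have h2 := dist_le (radE rot s) (s, s) g.1
      have h3 : x < rd rot s g.1 := hlt2
      unfold rd at h3
      omega
    · simp only [Bool.and_eq_true, decide_eq_true_iff]
      exact ⟨⟨hx, hlt⟩, hlt2⟩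
  · rintro h1 ⟨x, -, hx⟩
    simp only [Bool.and_eq_true, decide_eq_true_iff] at hx
    exact h1 x hx.1.1 hx.1.2 hx.2

/-- The bags. -/
lemma inBag_iff (h : RotValid rot s) (hne : darts rot s ≠ []) (k i : ℕ) (z : VV rot s)
    (t : DD rot s) (hz : rep rot s k i z.1 = z.1) :
    inBag rot s k i z.1 t.1 = true ↔ (rawFrc h hne k i).Bag z t := by
  have e1 := isDesc_iff h hne k i (Sum.inl z) (Sum.inl ((rawMap h hne).tail t))
  have e2 := isDesc_iff h hne k i (Sum.inl z) (Sum.inl ((rawMap h hne).head t))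
  have e3 := isDesc_iff h hne k i (Sum.inl z) (Sum.inr ((rawMap h hne).face t))
  have e4 := slabB_iff h hne k i z ((rawMap h hne).face t)
  simp only [nodeOf, rawMap_tail, rawMap_head, rawMap_face] at e1 e2 e3 e4
  unfold inBag
  rw [Bool.and_eq_true, Bool.or_eq_true, Bool.or_eq_true, e1, e2, e3, e4]
  unfold Frc.Bag Frc.T PMap.IsCorner
  constructor
  · rintro ⟨h1, h2⟩
    refine ⟨Subtype.ext hz, h1, ?_⟩
    rcases h2 with (h2 | h2) | h2
    · exact ⟨_, Or.inl rfl, h2⟩
    · exact ⟨_, Or.inr (Or.inl rfl), h2⟩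
    · exact ⟨_, Or.inr (Or.inr rfl), h2⟩
  · rintro ⟨-, h1, c, hc, h2⟩
    refine ⟨h1, ?_⟩
    rcases hc with rfl | rfl | rfl
    · exact Or.inl (Or.inl h2)
    · exact Or.inl (Or.inr h2)
    · exact Or.inr h2

end Pool.Agent.PFire
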