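import Pool.Agent.Lib.PFire.Map

/-!
# Chunk TB: elementary facts on the spanning tree

Parents, levels, descendants; the star lemma.
-/

set_option autoImplicit false

namespace Pool.Agent.PFire

open Relation

section

variable {D V F : Type} {M : PMap D V F} {s : V} {R : Rad M s} (K : Frc M R)

lemma PMap.tail_al (M : PMap D V F) (d : D) : M.tail (M.al d) = M.head d := rfl

lemma PMap.head_al (M : PMap D V F) (d : D) : M.head (M.al d) = M.tail d := by
  rw [PMap.head, M.al_al]

lemma PMap.tail_sg (M : PMap D V F) (d : D) : M.tail (M.sg d) = M.tail d := by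
  rw [PMap.sg, M.tail_phi, M.al_al]

/-- the face of `sg d` is the face of `al d` -/
lemma PMap.face_sg (M : PMap D V F) (d : D) : M.face (M.sg d) = M.face (M.al d) := by
  rw [PMap.sg, M.face_phi]

lemma PMap.Step.symm {C E : Set D} (hE : ∀ x ∈ E, M.al x ∈ E) {x y : D} (h : M.Step C E x y) :
    M.Step C E y x := by
  rcases h with ⟨h1, h2⟩ | ⟨h1, h2⟩ | ⟨h1, h2⟩
  · exact Or.inr (Or.inl ⟨h1, h2⟩)
  · exact Or.inl ⟨h1, h2⟩
  · refine Or.inr (Or.inr ⟨?_, ?_⟩)
    · rw [h1, M.al_al]
    · rw [h1]; exact hE x h2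

lemma Frc.EE_al {x : D} (hx : x ∈ K.EE) : M.al x ∈ K.EE := by
  intro h
  apply hx
  unfold Frc.ET at h ⊢
  rw [M.head_al, M.al_al] at h
  exact h.symm

lemma PMap.ConnIn.symm' {C E T : Set D} (hE : ∀ x ∈ E, M.al x ∈ E) {x y : D}
    (h : M.ConnIn C E T x y) : M.ConnIn C E T y x := by
  induction h with
  | refl => exact ReflTransGen.refl
  | tail _ hbc ih => exact ReflTransGen.head ⟨hbc.2.1, hbc.1, hbc.2.2.symm hE⟩ ih

lemma PMap.ConnIn.mono {C E T T' : Set D} (hT : T ⊆ T') {x y : D}
    (h : M.ConnIn C E T x y) : M.ConnIn C E T' x y :=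
  ReflTransGen.mono (fun _ _ h => ⟨hT h.1, hT h.2.1, h.2.2⟩) _ _ h

lemma PMap.ConnIn.toConn {C E T : Set D} {x y : D}
    (h : M.ConnIn C E T x y) : M.Conn C E x y :=
  ReflTransGen.mono (fun _ _ h => h.2.2) _ _ h

lemma Frc.rep_s : K.rep s = s := by
  apply K.rep_unf
  rw [R.rv_s]
  exact K.fl_zero

/-- A vertex which is not a representative is forced. -/
lemma Frc.fl_of_rep_ne {v : V} (h : K.rep v ≠ v) : K.fl (R.rv v) := by
  by_contra h1
  exact h (K.rep_unf v h1)

/-- The other end of the parent edge is in the same component, at the same distance. -/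
lemma Frc.rep_pe {v : V} (h : K.rep v ≠ v) : K.rep (M.head (K.pe v)) = K.rep v := by
  have h1 := K.rep_adj (K.pe v) (by rw [K.pe_tail v h]; exact K.fl_of_rep_ne h) (K.pe_fl v h)
  rw [K.pe_tail v h] at h1
  exact h1.symm

lemma Frc.rv_pe {v : V} (h : K.rep v ≠ v) : R.rv (M.head (K.pe v)) = R.rv v := by
  rw [← K.rep_rv (M.head (K.pe v)), K.rep_pe h, K.rep_rv]

lemma Frc.up_s : K.up (Sum.inl s) = Sum.inl s := by
  simp [Frc.up]

lemma Frc.up_rep {v : V} (hs : v ≠ s) (h : K.rep v = v) :
    K.up (Sum.inl v) = Sum.inr (M.face (R.pv v)) := by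
  simp [Frc.up, hs, h]

lemma Frc.ne_s_of_rep_ne {v : V} (h : K.rep v ≠ v) : v ≠ s := by
  rintro rfl
  exact h K.rep_s

lemma Frc.up_pe {v : V} (h : K.rep v ≠ v) :
    K.up (Sum.inl v) = Sum.inl (M.head (K.pe v)) := by
  simp [Frc.up, K.ne_s_of_rep_ne h, h]

lemma Frc.up_face (g : F) : K.up (Sum.inr g) = Sum.inl (M.tail (R.pf g)) := rfl

/-- The level of the parent: one less, or equal for the vertices which are not representatives. -/
lemma Frc.lvl_up (c : V ⊕ F) : c = Sum.inl s ∨
    (R.lvl (K.up c) + 1 = R.lvl c ∧ ∀ v, c = Sum.inl v → K.rep v = v) ∨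
    (∃ v, c = Sum.inl v ∧ K.rep v ≠ v ∧ K.up c = Sum.inl (M.head (K.pe v)) ∧
      R.lvl (K.up c) = R.lvl c ∧ K.idist (M.head (K.pe v)) < K.idist v) := by
  rcases c with v | g
  · by_cases hs : v = s
    · exact Or.inl (by rw [hs])
    · by_cases hr : K.rep v = v
      · right; left
        refine ⟨?_, fun w hw => ?_⟩
        · rw [K.up_rep hs hr]
          exact R.pv_face v hs
        · rw [← Sum.inl.inj hw]; exact hr
      · right; right
        refine ⟨v, rfl, hr, K.up_pe hr, ?_, K.pe_dist v hr⟩
        rw [K.up_pe hr]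
        exact K.rv_pe hr
  · right; left
    exact ⟨R.pf_tail g, fun v hv => by cases hv⟩

lemma Frc.Desc.refl (c : V ⊕ F) : K.Desc c c := ⟨0, rfl⟩

lemma Frc.Desc.trans {a b c : V ⊕ F} (h1 : K.Desc a b) (h2 : K.Desc b c) : K.Desc a c := by
  obtain ⟨n, hn⟩ := h1
  obtain ⟨m, hm⟩ := h2
  exact ⟨n + m, by rw [Function.iterate_add_apply, hm, hn]⟩

lemma Frc.desc_up (c : V ⊕ F) : K.Desc (K.up c) c := ⟨1, rfl⟩

/-- Induction over the tree: a property passes from the parent to the child. -/
lemma Frc.tree_induction {P : V ⊕ F → Prop} (h0 : P (Sum.inl s))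
    (h : ∀ c, c ≠ Sum.inl s → P (K.up c) → P c) (c : V ⊕ F) : P c := by
  have key : ∀ n m : ℕ, ∀ c : V ⊕ F, R.lvl c = n →
      (∀ v, c = Sum.inl v → K.idist v = m) → P c := by
    intro n
    induction n using Nat.strong_induction_on with
    | _ n ihn =>
      intro m
      induction m using Nat.strong_induction_on with
      | _ m ihm =>
        intro c hc hm
        by_cases hcs : c = Sum.inl s
        · rw [hcs]; exact h0
        rcases K.lvl_up c with h1 | ⟨h1, _⟩ | ⟨v, hv, _, h2, h3, h4⟩
        · exact absurd h1 hcs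
        · apply h c hcs
          rcases hu : K.up c with w | g
          · exact ihn (R.lvl (K.up c)) (by omega) (K.idist w) (Sum.inl w) (by rw [hu])
              (fun v hv => by rw [← Sum.inl.inj hv])
          · exact ihn (R.lvl (K.up c)) (by omega) 0 (Sum.inr g) (by rw [hu])
              (fun v hv => by cases hv)
        · apply h c hcs
          rw [h2]
          have h5 := hm v hv
          refine ihm (K.idist (M.head (K.pe v))) (by omega) _ ?_ (fun w hw => by
            rw [← Sum.inl.inj hw])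
          rw [← h2, h3, hc]
  rcases hc : c with v | g
  · exact key _ (K.idist v) _ rfl (fun w hw => by rw [← Sum.inl.inj hw])
  · exact key _ 0 _ rfl (fun w hw => by cases hw)

/-- Every node is a descendant of `s`. -/
lemma Frc.desc_s (c : V ⊕ F) : K.Desc (Sum.inl s) c :=
  K.tree_induction (P := fun c => K.Desc (Sum.inl s) c) (Frc.Desc.refl K _)
    (fun c _ hc => Frc.Desc.trans K hc (K.desc_up c)) c

lemma Frc.lvl_up_le (c : V ⊕ F) : R.lvl (K.up c) ≤ R.lvl c := by
  rcases K.lvl_up c with h1 | ⟨h1, _⟩ | ⟨v, _, _, _, h3, _⟩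
  · rw [h1, K.up_s]
  · omega
  · omega

lemma Frc.lvl_iter_le (n : ℕ) (c : V ⊕ F) : R.lvl (K.up^[n] c) ≤ R.lvl c := by
  induction n with
  | zero => exact le_rfl
  | succ n ih =>
    rw [Function.iterate_succ_apply']
    exact (K.lvl_up_le _).trans ih

lemma Frc.Desc.lvl_le {w c : V ⊕ F} (h : K.Desc w c) : R.lvl w ≤ R.lvl c := by
  obtain ⟨n, rfl⟩ := h
  exact K.lvl_iter_le n c

/-- A descendant is the node itself or a descendant of a child. -/
lemma Frc.Desc.cases {w c : V ⊕ F} (h : K.Desc w c) :
    c = w ∨ ∃ c', c' ≠ w ∧ K.up c' = w ∧ K.Desc c' c := by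
  classical
  by_cases hcw : c = w
  · exact Or.inl hcw
  right
  have hn := Nat.find_spec h
  have hmin := fun m => Nat.find_min (H := h) (m := m)
  rcases hN : Nat.find h with _ | n
  · rw [hN] at hn
    exact absurd hn hcw
  · rw [hN] at hn
    refine ⟨K.up^[n] c, hmin n (by omega), ?_, n, rfl⟩
    rw [Function.iterate_succ_apply'] at hn
    exact hn

/-- The members of the component of a representative are its descendants. -/
lemma Frc.desc_rep (v : V) : K.Desc (Sum.inl (K.rep v)) (Sum.inl v) := by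
  have key : ∀ m : ℕ, ∀ v : V, K.idist v = m → K.Desc (Sum.inl (K.rep v)) (Sum.inl v) := by
    intro m
    induction m using Nat.strong_induction_on with
    | _ m ih =>
      intro v hv
      by_cases hr : K.rep v = v
      · rw [hr]; exact Frc.Desc.refl K _
      · have h1 := ih (K.idist (M.head (K.pe v))) (hv ▸ K.pe_dist v hr) _ rfl
        rw [K.rep_pe hr, ← K.up_pe hr] at h1
        exact Frc.Desc.trans K h1 (K.desc_up _)
  exact key _ v rfl

/-- The iterates of `up` on one level. -/
lemma Frc.iter_same_lvl (n : ℕ) : ∀ c : V ⊕ F, R.lvl (K.up^[n] c) = R.lvl c →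
    ∀ w, K.up^[n] c = Sum.inl w → ∃ v, c = Sum.inl v ∧ K.rep v = K.rep w := by
  induction n with
  | zero => intro c _ w hw; exact ⟨w, hw, rfl⟩
  | succ n ih =>
    intro c hl w hw
    rw [Function.iterate_succ_apply] at hl hw
    have h1 := K.lvl_iter_le n (K.up c)
    have h2 := K.lvl_up_le c
    obtain ⟨v', hv', hr'⟩ := ih (K.up c) (by omega) w hw
    rcases K.lvl_up c with h3 | ⟨h3, _⟩ | ⟨v, hv, hne, h4, _, _⟩
    · refine ⟨s, h3, ?_⟩
      rw [h3, K.up_s] at hv'
      have h5 : s = v' := Sum.inl.inj hv'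
      rw [← hr']
      exact congrArg K.rep h5
    · omega
    · refine ⟨v, hv, ?_⟩
      rw [h4] at hv'
      rw [← hr', ← Sum.inl.inj hv', K.rep_pe hne]

/-- A descendant of a vertex `w` on the level of `w` is a vertex with the same representative. -/
lemma Frc.Desc.same_lvl {w : V} {c : V ⊕ F} (h : K.Desc (Sum.inl w) c)
    (hl : R.lvl c = R.rv w) : ∃ v, c = Sum.inl v ∧ K.rep v = K.rep w := by
  obtain ⟨n, hn⟩ := h
  exact K.iter_same_lvl n c (by rw [hn, hl]; rfl) w hn

/-- Two ancestors of a node which are representatives (or unforced vertices) of the same level agree. -/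
lemma Frc.Desc.unique {z z' : V} {c : V ⊕ F} (h : K.Desc (Sum.inl z) c)
    (h' : K.Desc (Sum.inl z') c) (hz : K.rep z = z) (hz' : K.rep z' = z')
    (hl : R.rv z = R.rv z') : z = z' := by
  obtain ⟨n, hn⟩ := h
  obtain ⟨n', hn'⟩ := h'
  rcases le_total n n' with hnn | hnn
  · obtain ⟨m, rfl⟩ := Nat.exists_eq_add_of_le hnn
    have h1 : K.up^[m] (Sum.inl z) = Sum.inl z' := by
      rw [← hn, ← Function.iterate_add_apply, Nat.add_comm m n, hn']
    obtain ⟨v, hv, hr⟩ := K.iter_same_lvl m (Sum.inl z) (by rw [h1]; exact hl.symm) z' h1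
    rw [← Sum.inl.inj hv, hz, hz'] at hr
    exact hr
  · obtain ⟨m, rfl⟩ := Nat.exists_eq_add_of_le hnn
    have h1 : K.up^[m] (Sum.inl z') = Sum.inl z := by
      rw [← hn', ← Function.iterate_add_apply, Nat.add_comm m n', hn]
    obtain ⟨v, hv, hr⟩ := K.iter_same_lvl m (Sum.inl z') (by rw [h1]; exact hl) z h1
    rw [← Sum.inl.inj hv, hz, hz'] at hr
    exact hr.symm

end

/-- **Star lemma.**  A cyclic sequence with at most one broken link is connected. -/
theorem star_lemma {X : Type} [Finite X] (π : X → X) (hπ : Function.Injective π) (C : X → X → Prop)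
    (hrefl : ∀ x, C x x) (hsymm : ∀ x y, C x y → C y x) (htrans : ∀ x y z, C x y → C y z → C x z)
    (x₀ : X) (a : X) (h : ∀ n : ℕ, π^[n] a ≠ x₀ → C (π^[n] a) (π (π^[n] a))) (n : ℕ) :
    C a (π^[n] a) := by
  classical
  by_cases hx : ∃ j, π^[j] a = x₀
  · obtain ⟨j, hj⟩ := hx
    -- the period
    have hper : a ∈ Function.periodicPts π := Function.Injective.mem_periodicPts hπ a
    obtain ⟨p, hp0, hp⟩ := hper
    have hp' : ∀ m i, π^[m * p + i] a = π^[i] a := by
      intro m i
      rw [Nat.add_comm, Function.iterate_add_apply, Nat.mul_comm]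
      have h1 : π^[p * m] a = a := by
        have h2 := hp.const_mul m
        rw [Nat.mul_comm] at h2
        exact h2
      rw [h1]
    -- minimal return time q of x₀
    obtain ⟨q, hq1, hq2, hq3⟩ : ∃ q, 1 ≤ q ∧ π^[j + q] a = x₀ ∧
        ∀ i, 1 ≤ i → i < q → π^[j + i] a ≠ x₀ := by
      have hex : ∃ q, 1 ≤ q ∧ π^[j + q] a = x₀ := by
        refine ⟨p, hp0, ?_⟩
        have := hp' 1 j
        rw [Nat.one_mul, Nat.add_comm] at this
        rw [this, hj]
      exact ⟨Nat.find hex, (Nat.find_spec hex).1, (Nat.find_spec hex).2,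
        fun i h1 h2 h3 => Nat.find_min hex h2 ⟨h1, h3⟩⟩
    have hconn : ∀ i, 1 ≤ i → i ≤ q → C (π^[j + 1] a) (π^[j + i] a) := by
      intro i hi
      induction i with
      | zero => omega
      | succ i ih =>
        intro hiq
        rcases Nat.eq_zero_or_pos i with h0 | h0
        · subst h0; exact hrefl _
        · have h6 := h (j + i) (hq3 i h0 (by omega))
          rw [← Function.iterate_succ_apply' π] at h6
          exact htrans _ _ _ (ih h0 (by omega)) h6
    have hperq : ∀ i, π^[j + q + i] a = π^[j + i] a := by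
      intro i
      rw [Nat.add_comm (j + q) i, Function.iterate_add_apply, hq2, Nat.add_comm j i,
        Function.iterate_add_apply, hj]
    have hall : ∀ i, C (π^[j + 1] a) (π^[j + i] a) := by
      intro i
      induction i using Nat.strong_induction_on with
      | _ i ih =>
        rcases Nat.lt_or_ge q i with hi | hi
        · have h7 := ih (i - q) (by omega)
          have h8 := hperq (i - q)
          have h9 : j + q + (i - q) = j + i := by omega
          rw [h9] at h8
          rw [h8]; exact h7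
        · rcases Nat.eq_zero_or_pos i with h0 | h0
          · subst h0
            have h8 := hperq 0
            rw [Nat.add_zero] at h8
            rw [← h8]
            exact hconn q hq1 le_rfl
          · exact hconn i h0 hi
    have hsrc : ∀ i, C (π^[j + 1] a) (π^[i] a) := by
      intro i
      have h7 := hall (j * (p - 1) + i)
      have h8 := hp' j i
      have h9 : j + (j * (p - 1) + i) = j * p + i := by
        obtain ⟨p', rfl⟩ : ∃ p', p = p' + 1 := ⟨p - 1, by omega⟩
        rw [Nat.add_sub_cancel, Nat.mul_add, Nat.mul_one]; omega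
      rw [h9, h8] at h7
      exact h7
    have h10 := hsrc 0
    exact htrans _ _ _ (hsymm _ _ h10) (hsrc n)
  · push Not at hx
    induction n with
    | zero => exact hrefl _
    | succ n ih =>
      have h6 := h n (hx n)
      rw [← Function.iterate_succ_apply' π] at h6
      exact htrans _ _ _ ih h6

end Pool.Agent.PFire
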